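import Pool.Agent.Lib.MP_30b5b4_an.Tr

/-! Visible elements, amplification over the blocks of a colour, partitions of unity. -/

open scoped CStarAlgebra ComplexOrder Topology
open Filter

set_option linter.unusedSectionVars false
set_option linter.style.haveILetI false
set_option linter.unusedSimpArgs false
set_option linter.unusedVariables false
set_option synthInstance.maxSize 1000000

namespace Pool.Agent.Lib.MP_30b5b4_an

universe u v

section gen
variable {B : Type u} [CStarAlgebra B] [PartialOrder B] [StarOrderedRing B]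

lemma cfc_semiconj {x x' y : B} (hx : IsSelfAdjoint x) (hx' : IsSelfAdjoint x') (h : x * y = y * x')
    {f : ℝ → ℝ} (hf : Continuous f) : cfc f x * y = y * cfc f x' := by
  let S : StarSubalgebra ℂ (B × B) :=
    { carrier := {p | p.1 * y = y * p.2 ∧ star p.1 * y = y * star p.2}
      mul_mem' := fun {p q} hp hq => ⟨by
        rw [Prod.fst_mul, Prod.snd_mul, mul_assoc, hq.1, ← mul_assoc, hp.1, mul_assoc], by
        rw [Prod.fst_mul, Prod.snd_mul, star_mul, star_mul, mul_assoc, hp.2, ← mul_assoc, hq.2,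
          mul_assoc]⟩
      add_mem' := fun {p q} hp hq => ⟨by
        rw [Prod.fst_add, Prod.snd_add, add_mul, mul_add, hp.1, hq.1], by
        rw [Prod.fst_add, Prod.snd_add, star_add, star_add, add_mul, mul_add, hp.2, hq.2]⟩
      algebraMap_mem' := fun r => ⟨Algebra.commutes r y, by
        simp [Algebra.algebraMap_eq_smul_one]⟩
      star_mem' := fun {p} hp => ⟨hp.2, by simpa using hp.1⟩ }
  have hS : IsClosed (S : Set (B × B)) :=
    (isClosed_eq (f := fun p : B × B => p.1 * y) (by fun_prop) (by fun_prop)).inter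
      (isClosed_eq (f := fun p : B × B => star p.1 * y) (by fun_prop) (by fun_prop))
  have p0 : IsSelfAdjoint (x, x') := Prod.ext hx hx'
  have p1 := (cfc_mem_cl hS f (show (x, x') ∈ S from
    ⟨h, by simpa only [hx.star_eq, hx'.star_eq] using h⟩)).1
  have p2 := hom_cfc (StarAlgHom.fst ℂ B B) hf p0
  have p3 := hom_cfc (StarAlgHom.snd ℂ B B) hf p0
  simp only [StarAlgHom.fst_apply, StarAlgHom.snd_apply] at p2 p3
  rwa [p2, p3] at p1

lemma cfc_mul_eigen {x y : B} (hx : IsSelfAdjoint x) {r : ℝ} (h : x * y = r • y) {f : ℝ → ℝ}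
    (hf : Continuous f) : cfc f x * y = f r • y := by
  have := cfc_semiconj hx (IsSelfAdjoint.algebraMap B (IsSelfAdjoint.all r)) (y := y)
    (by rw [h, Algebra.algebraMap_eq_smul_one, mul_smul_comm, mul_one]) hf
  rwa [cfc_algebraMap, Algebra.algebraMap_eq_smul_one, mul_smul_comm, mul_one] at this

lemma cfc_orth_of_le {a b : B} (ha : IsSelfAdjoint a) (hb : IsSelfAdjoint b) (hab : a ≤ b)
    (hc : Commute a b) {f g : ℝ → ℝ} (hf : Continuous f) (hg : Continuous g) {θ : ℝ}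
    (f0 : ∀ t, θ ≤ t → f t = 0) (g0 : ∀ t, t ≤ θ → g t = 0) : cfc f b * cfc g a = 0 := by
  obtain ⟨X, _, _, ρ, k, J, hk, -⟩ := exists_jc ![a, b]
    (by simp [Fin.forall_fin_two, ha, hb]) (by simp [Fin.forall_fin_two, hc, hc.symm])
  have fa : ρ (k 0) = a := hk 0
  have fb : ρ (k 1) = b := hk 1
  have p1 : ∀ t, k 0 t ≤ k 1 t := fun t => sub_nonneg.1 ((J.pos (k 1 - k 0)).1 (by
    rw [map_sub, fa, fb]; exact sub_nonneg.2 hab) t)
  rw [← fa, ← fb, J.cfc (k 1) ⟨fun t => f (k 1 t), by fun_prop⟩ f hf fun _ => rfl,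
    J.cfc (k 0) ⟨fun t => g (k 0 t), by fun_prop⟩ g hg fun _ => rfl, ← map_mul, ← map_zero ρ]
  congr 1
  ext t
  rcases le_total (k 0 t) θ with h | h
  · simp [g0 _ h]
  · simp [f0 _ (h.trans (p1 t))]

/-- cutting an element down to a contraction -/
lemma contract (w : B) : ∃ g : B, ‖w * g‖ ≤ 1 ∧
    (∀ z, star w * w * z = z → star (w * g) * (w * g) * z = z) ∧
    ∀ z, Commute (star w * w) z → Commute g z := by
  have g1 := Gf_cont one_pos
  have g2 : Continuous fun s => √(Gf 1 s) := by fun_prop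
  have w0 := (star_mul_self_nonneg w).isSelfAdjoint
  have e1 : star (w * cfc (fun s => √(Gf 1 s)) (star w * w)) *
      (w * cfc (fun s => √(Gf 1 s)) (star w * w)) = cfc (fun s => s * Gf 1 s) (star w * w) := by
    rw [star_mul, IsSelfAdjoint.cfc.star_eq, mul_assoc, ← mul_assoc (star w), ← mul_assoc,
      cfc_mul_id g2 w0, cfc_mul' (by fun_prop) g2]
    congr 1; funext s
    rw [mul_right_comm, Real.mul_self_sqrt (Gf_nonneg one_pos), mul_comm]
  refine ⟨cfc (fun s => √(Gf 1 s)) (star w * w), norm_le_of_star_mul_le zero_le_one ?_,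
    fun z hz => ?_, fun z hz => hz.cfc_real _⟩
  · rw [e1, one_pow, map_one]
    exact cfc_le_one _ _ fun s _ => mul_Gf_le one_pos
  · rw [e1]
    exact cfc_mul_eq_self w0 hz (by fun_prop) (by simp [Gf])

lemma Gf_unit' {M H e : B} (M0 : IsSelfAdjoint M) (hM : H ≤ (1 / 4 : ℝ) • 1 + M) (he : H * e = e)
    (e0 : IsSelfAdjoint e) (hc : Commute M e) : cfc (Gf (1 / 2)) M * M * e = e := by
  have g1 := Gf_cont one_half_pos
  set D := cfc (fun s => 1 - Gf (1 / 2) s * s) M with hD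
  have D1 : D = 1 - cfc (Gf (1 / 2)) M * M := by
    rw [hD, cfc_sub _ _ M, cfc_const_one ℝ M, cfc_mul_id g1 M0]
  have D2 : D * e = e * D := (hc.cfc_real _).eq
  have D0 : star D = D := IsSelfAdjoint.cfc.star_eq
  have D3 : D * M * D ≤ (1 / 2 : ℝ) • (D * D) := by
    rw [hD, cfc_mul_id (by fun_prop) M0, cfc_mul' (by fun_prop) (by fun_prop),
      cfc_mul' (by fun_prop) (by fun_prop), ← cfc_const_mul _ _ M]
    refine cfc_mono (fun s _ => ?_) (by fun_prop) (by fun_prop)
    rcases le_total s (1 / 2) with h | h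
    · nlinarith [mul_self_nonneg (1 - Gf (1 / 2) s * s)]
    · rw [Gf, max_eq_left h, inv_mul_cancel₀ (one_half_pos.trans_le h).ne']; simp
  have a1 := star_left_conjugate_le_conjugate hM (D * e)
  have a2 := star_left_conjugate_le_conjugate D3 e
  have a3 : star (D * e) * H * (D * e) = star (D * e) * (D * e) := by
    rw [mul_assoc, D2, ← mul_assoc H, he]
  have a4 : star (D * e) * M * (D * e) = star e * (D * M * D) * e := by
    rw [star_mul, D0]; simp only [mul_assoc]
  have a5 : star e * ((1 / 2 : ℝ) • (D * D)) * e = (1 / 2 : ℝ) • (star (D * e) * (D * e)) := by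
    rw [star_mul, D0, mul_smul_comm, smul_mul_assoc]; simp only [mul_assoc]
  rw [a3, mul_add, add_mul, a4, mul_smul_comm, mul_one, smul_mul_assoc] at a1
  have a6 := a1.trans (add_le_add_right (a2.trans_eq a5) _)
  rw [← add_smul, ← sub_nonpos] at a6
  have a7 : D * e = 0 := eq_zero_of_star_mul_self_nonpos (by
    have := smul_le_smul_of_nonneg_left a6 (show (0 : ℝ) ≤ 4 by norm_num)
    rw [smul_zero, smul_sub, smul_smul, ← sub_smul] at this
    norm_num at this
    rwa [star_mul])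
  rw [D1, sub_mul, one_mul, sub_eq_zero] at a7
  exact a7.symm

end gen

section amp
variable {F : Type*} [CStarAlgebra F] {B : Type u} [CStarAlgebra B] [PartialOrder B]
  [StarOrderedRing B]

/-- the supporting map, exact above the level `δ` -/
noncomputable def piM (φ : F →ₗ[ℂ] B) (δ : ℝ) (y : F) : B := cfc (Gf δ) (φ 1) * φ y

namespace MU
variable (M : MU F)

noncomputable def rep (i : Fin M.N) : Fin M.N :=
  Classical.choose (⟨i, rfl⟩ : ∃ l, M.cl l = M.cl i)

lemma cl_rep (i : Fin M.N) : M.cl (M.rep i) = M.cl i :=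
  Classical.choose_spec (⟨i, rfl⟩ : ∃ l, M.cl l = M.cl i)

lemma rep_eq {i l : Fin M.N} (h : M.cl i = M.cl l) : M.rep i = M.rep l := by
  simp only [rep, h]

/-- the block of the index `i` -/
noncomputable def blk (φ : F →ₗ[ℂ] B) (i : Fin M.N) : B := φ (star (M.v i) * M.v i)

noncomputable def amp (φ : F →ₗ[ℂ] B) (δ : ℝ) (w : Fin M.N → B) : B :=
  ∑ i, piM φ δ (M.v i) * w (M.rep i) * star (piM φ δ (M.v i))

/-- the family lives in the blocks above the level `δ` (left version) -/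
def Loc (φ : F →ₗ[ℂ] B) (δ : ℝ) (w : Fin M.N → B) : Prop :=
  ∀ i, piM φ δ (star (M.v i) * M.v i) * w i = w i

variable {M} {φ : F →ₗ[ℂ] B} {δ : ℝ}

lemma blk_nonneg (h : OZ φ) (i : Fin M.N) : 0 ≤ M.blk φ i := h.cp.proj_nonneg (M.proj i)

lemma blk_le (h : OZ φ) (i : Fin M.N) : M.blk φ i ≤ φ 1 :=
  sub_nonneg.1 (by rw [blk, ← map_sub]; exact h.cp.proj_nonneg (M.proj i).one_sub)

lemma blk_rep (i : Fin M.N) : M.blk φ (M.rep i) = M.blk φ i := by
  rw [blk, blk, M.init _ _ (M.cl_rep i)]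

lemma cfc_v (h : OZ φ) (i : Fin M.N) {f : ℝ → ℝ} (hf : Continuous f) :
    cfc f (φ 1) * φ (M.v i) = φ (M.v i) * cfc f (M.blk φ i) :=
  cfc_semiconj h.cp.one_nonneg.isSelfAdjoint (blk_nonneg h i).isSelfAdjoint
    (by rw [blk, h.mul (M.v i), M.v_q]) hf

lemma piM_blk (h : OZ φ) (hδ : 0 < δ) (i : Fin M.N) :
    piM φ δ (star (M.v i) * M.v i) = cfc (fun t => t * Gf δ t) (M.blk φ i) := by
  rw [piM, ← id_mul_cfc (Gf_cont hδ) (blk_nonneg h i).isSelfAdjoint]
  exact cfc_semiconj h.cp.one_nonneg.isSelfAdjoint (blk_nonneg h i).isSelfAdjoint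
    (by rw [blk, h.mul (star (M.v i) * M.v i), (M.proj i).isIdempotentElem.eq]) (Gf_cont hδ)

lemma Loc.of (h : OZ φ) (hδ : 0 < δ) {w : Fin M.N → B} {α : ℝ → ℝ} (hα : Continuous α)
    (α0 : ∀ t, t ≤ δ → α t = 0) (hw : ∀ i, cfc α (M.blk φ i) * w i = w i) : M.Loc φ δ w := by
  intro i
  have := Gf_cont hδ
  rw [piM_blk h hδ, ← hw i, ← mul_assoc, cfc_mul' (by fun_prop) hα]
  congr 2
  funext t
  rcases le_total t δ with h1 | h1
  · rw [α0 t h1, mul_zero]
  · rw [Gf, max_eq_left h1, mul_inv_cancel₀ (hδ.trans_le h1).ne', one_mul]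

lemma Loc.mul {w w' : Fin M.N → B} (hw : M.Loc φ δ w) : M.Loc φ δ fun i => w i * w' i :=
  fun i => by rw [← mul_assoc, hw i]

end MU

variable {φ : F →ₗ[ℂ] B} {δ : ℝ}

lemma piM_star (h : OZ φ) (y : F) : star (piM φ δ y) = piM φ δ (star y) := by
  rw [piM, piM, star_mul, IsSelfAdjoint.cfc.star_eq, ← h.cp.map_star,
    ((h.commute _).cfc_real _).eq]

lemma piM_mul (h : OZ φ) (x y : F) : piM φ δ x * piM φ δ y = piM φ δ 1 * piM φ δ (x * y) := by
  simp only [piM]
  rw [mul_assoc, ← mul_assoc (φ x), ← ((h.commute x).cfc_real _).eq, mul_assoc _ (φ x), h.mul,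
    mul_assoc _ (φ 1), ← mul_assoc (φ 1), ← ((h.commute 1).cfc_real _).eq, mul_assoc _ (φ 1)]

lemma piM_comm (h : OZ φ) (x : F) : Commute (piM φ δ 1) (piM φ δ x) := by
  have := piM_mul (δ := δ) h x 1
  rw [mul_one] at this
  exact this.symm

lemma piM_commute {z : B} (hz : ∀ y, Commute z (φ y)) (y : F) : Commute z (piM φ δ y) :=
  ((hz 1).symm.cfc_real _).symm.mul_right (hz y)

lemma piM_norm (h : OZ φ) (hδ : 0 < δ) (y : F) : ‖piM φ δ y‖ ≤ ‖y‖ := by
  have o : OZ (LinearMap.mulLeft ℂ (cfc (Gf δ) (φ 1)) ∘ₗ φ) :=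
    h.mulLeft (cfc_nonneg fun _ _ => Gf_nonneg hδ) (fun x => (h.commute x).cfc_real _) fun _ => rfl
  refine o.cp.norm_le ?_ y
  change cfc (Gf δ) (φ 1) * φ 1 ≤ 1
  rw [cfc_mul_id (Gf_cont hδ) h.cp.one_nonneg.isSelfAdjoint]
  exact cfc_le_one _ _ fun t _ => by rw [mul_comm]; exact mul_Gf_le hδ

namespace MU
variable {M : MU F}

lemma Loc.one (h : OZ φ) {w : Fin M.N → B} (hw : M.Loc φ δ w) (i : Fin M.N) :
    piM φ δ 1 * w i = w i := by
  conv_lhs => rw [← hw i, ← (M.proj i).isIdempotentElem.eq, ← mul_assoc, ← piM_mul h, mul_assoc,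
    hw i, hw i]

lemma Loc.rep {w : Fin M.N → B} (hw : M.Loc φ δ w) (i : Fin M.N) :
    piM φ δ (star (M.v i) * M.v i) * w (M.rep i) = w (M.rep i) := by
  rw [← M.init _ _ (M.cl_rep i), hw]

lemma v_amp (h : OZ φ) {w : Fin M.N → B} (hw : M.Loc φ δ w) (i : Fin M.N) :
    star (piM φ δ (M.v i)) * M.amp φ δ w = w (M.rep i) * star (piM φ δ (M.v i)) := by
  rw [amp, Finset.mul_sum, Finset.sum_eq_single i (fun l _ hl => ?_) (by simp)]
  · rw [← mul_assoc, ← mul_assoc, piM_star h (M.v i), piM_mul h, mul_assoc (piM φ δ 1), hw.rep,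
      hw.one h]
  · rw [← mul_assoc, ← mul_assoc, piM_star h (M.v i), piM_mul h, M.orth i l hl.symm]
    simp [piM]

lemma amp_mul (h : OZ φ) (w : Fin M.N → B) {w' : Fin M.N → B} (hw : M.Loc φ δ w') :
    M.amp φ δ w * M.amp φ δ w' = M.amp φ δ fun i => w i * w' i := by
  conv_lhs => enter [1]; rw [amp]
  rw [Finset.sum_mul]
  refine Finset.sum_congr rfl fun i _ => ?_
  rw [mul_assoc, v_amp h hw]
  simp only [mul_assoc]

lemma amp_star (w : Fin M.N → B) : star (M.amp φ δ w) = M.amp φ δ fun i => star (w i) := by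
  simp only [amp, star_sum, star_mul, star_star, mul_assoc]

lemma amp_smul (r : ℝ) (w : Fin M.N → B) : M.amp φ δ (fun i => r • w i) = r • M.amp φ δ w := by
  simp only [amp, Finset.smul_sum, mul_smul_comm, smul_mul_assoc]

lemma amp_zero : M.amp φ δ (fun _ => 0) = 0 := by simp [amp]

lemma amp_add (w w' : Fin M.N → B) :
    M.amp φ δ (fun i => w i + w' i) = M.amp φ δ w + M.amp φ δ w' := by
  simp only [amp, mul_add, add_mul, Finset.sum_add_distrib]

lemma amp_sum {ι : Type*} (s : Finset ι) (w : ι → Fin M.N → B) :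
    M.amp φ δ (fun i => ∑ t ∈ s, w t i) = ∑ t ∈ s, M.amp φ δ (w t) := by
  simp only [amp, Finset.mul_sum, Finset.sum_mul]
  exact Finset.sum_comm

lemma mul_amp {z : B} (hz : ∀ y, Commute z (φ y)) (w : Fin M.N → B) :
    z * M.amp φ δ w = M.amp φ δ fun i => z * w i := by
  simp only [amp, Finset.mul_sum, ← mul_assoc, (piM_commute hz _).eq]

lemma amp_mul' (h : OZ φ) {z : B} (hz : ∀ y, Commute z (φ y)) (w : Fin M.N → B) :
    M.amp φ δ w * z = M.amp φ δ fun i => w i * z := by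
  simp only [amp, Finset.sum_mul, mul_assoc, piM_star h, (piM_commute hz _).eq]

lemma amp_cfc (h : OZ φ) (hδ : 0 < δ) {f : ℝ → ℝ} (hf : Continuous f)
    (f0 : ∀ t, t ≤ δ → f t = 0) : M.amp φ δ (fun i => cfc f (M.blk φ i)) = cfc f (φ 1) := by
  have c1 : Commute (cfc (Gf δ) (φ 1)) (cfc f (φ 1)) :=
    ((Commute.refl _).cfc_real _).symm.cfc_real _
  have e1 : ∀ i, piM φ δ (M.v i) * cfc f (M.blk φ (M.rep i)) * star (piM φ δ (M.v i)) =
      cfc f (φ 1) * (piM φ δ 1 * piM φ δ (M.v i * star (M.v i))) := fun i => by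
    rw [blk_rep, piM_star h, ← piM_mul h, piM.eq_def φ δ (M.v i), mul_assoc (cfc _ _),
      ← cfc_v h i hf, ← mul_assoc (cfc (Gf δ) _), c1.eq]
    simp only [mul_assoc]
  have e2 : cfc f (φ 1) * piM φ δ 1 = cfc f (φ 1) := h.cfc_unit hδ hf f0
  simp only [amp, e1]
  simp only [← mul_assoc, e2]
  simp only [piM, ← mul_assoc]
  rw [← Finset.mul_sum, ← map_sum, M.sum, mul_assoc]
  exact e2

lemma amp_comm (h : OZ φ) {w : Fin M.N → B} (hw : M.Loc φ δ w)
    (hw' : M.Loc φ δ fun i => star (w i)) (y : F) : Commute (M.amp φ δ w) (piM φ δ y) := by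
  have e1 : ∀ {w : Fin M.N → B}, M.Loc φ δ w → ∀ i l, piM φ δ (M.v i * star (M.v l)) *
      M.amp φ δ w = piM φ δ (M.v i) * w (M.rep l) * star (piM φ δ (M.v l)) := fun {w} hw i l => by
    have a1 : piM φ δ 1 * M.amp φ δ w = M.amp φ δ w := by
      simp only [amp, Finset.mul_sum, ← mul_assoc, (piM_comm h _).eq]
      simp only [mul_assoc (piM φ δ _) (piM φ δ 1), hw.one h]
    rw [← a1, ← mul_assoc, ← (piM_comm h _).eq, ← piM_mul h, ← piM_star h, mul_assoc, v_amp h hw,
      mul_assoc]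
  rw [M.recon y]
  simp only [piM, map_sum, map_smul, Finset.mul_sum, mul_smul_comm]
  refine Commute.sum_right _ _ _ fun i _ => Commute.sum_right _ _ _ fun l _ => ?_
  by_cases hc : M.cl i = M.cl l
  · refine Commute.smul_right ?_ _
    have a2 := congrArg star (e1 hw' l i)
    rw [star_mul, amp_star, piM_star h, star_mul, star_star, star_mul, star_mul, star_star,
      star_star] at a2
    simp only [star_star] at a2
    change _ * piM φ δ _ = piM φ δ _ * _
    rw [a2, e1 hw, M.rep_eq hc, mul_assoc]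
  · rw [M.zero i l y hc, zero_smul]
    exact Commute.zero_right _

lemma amp_norm (h : OZ φ) (hδ : 0 < δ) {w : Fin M.N → B} (hw : M.Loc φ δ w) {r : ℝ} (hr : 0 ≤ r)
    (w1 : ∀ i, ‖w i‖ ≤ r) : ‖M.amp φ δ w‖ ≤ r := by
  refine (mul_self_le_mul_self_iff (norm_nonneg _) hr).2 ?_
  rw [← CStarRing.norm_star_mul_self, amp_star, amp_mul h _ hw]
  refine sum_le_of_orth _ _ (mul_nonneg hr hr)
    (fun i _ => star_right_conjugate_nonneg (star_mul_self_nonneg _) _) (fun i _ l _ hl => ?_)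
    fun i _ => ?_
  · rw [mul_assoc, ← mul_assoc (star _), ← mul_assoc (star _), piM_star h (M.v i), piM_mul h,
      M.orth i l hl]
    simp [piM]
  · have a1 := (piM_norm h hδ (M.v i)).trans (M.norm_v i)
    have a2 := w1 (M.rep i)
    calc _ ≤ ‖piM φ δ (M.v i)‖ * ‖star (w (M.rep i)) * w (M.rep i)‖ * ‖star (piM φ δ (M.v i))‖ :=
          norm_mul₃_le
      _ ≤ 1 * (r * r) * 1 := by
          rw [norm_star, CStarRing.norm_star_mul_self]; gcongr
      _ = _ := by ring

end MU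

end amp

variable {A : Type u} [CStarAlgebra A] [PartialOrder A] [StarOrderedRing A]

/-- the multiplicative domain of a colour -/
noncomputable def VS (d : ℕ → CA A) : StarSubalgebra ℂ (UA A) where
  carrier := {b | ∀ x, uT d (x * b) = uT d x * b ∧ uT d (b * x) = b * uT d x}
  mul_mem' := fun {b c} hb hc x => ⟨by rw [← mul_assoc, (hc _).1, (hb _).1, mul_assoc],
    by rw [mul_assoc, (hb _).2, (hc _).2, mul_assoc]⟩
  add_mem' := fun {b c} hb hc x => ⟨by rw [mul_add, map_add, (hc _).1, (hb _).1, mul_add],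
    by rw [add_mul, map_add, (hb _).2, (hc _).2, add_mul]⟩
  algebraMap_mem' := fun r x => by simp [Algebra.algebraMap_eq_smul_one]
  star_mem' := fun {b} hb x => by
    have h1 := congrArg star (hb (star x)).1
    have h2 := congrArg star (hb (star x)).2
    rw [← (uT_cp d).map_star, star_mul, star_mul, ← (uT_cp d).map_star, star_star] at h1 h2
    exact ⟨h2, h1⟩

lemma mem_VS {d : ℕ → CA A} {b : UA A} :
    b ∈ VS d ↔ ∀ x, uT d (x * b) = uT d x * b ∧ uT d (b * x) = b * uT d x := Iff.rfl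

lemma uT_cont (d : ℕ → CA A) : Continuous (uT d) :=
  AddMonoidHomClass.continuous_of_bound (uT d) 1 fun x => by rw [one_mul]; exact uT_le d x

lemma VS_closed (d : ℕ → CA A) : IsClosed (VS d : Set (UA A)) := by
  have := uT_cont d
  change IsClosed {b | ∀ x, _}
  rw [Set.ofPred_forall]
  exact isClosed_iInter fun x =>
    (isClosed_eq (by fun_prop) (by fun_prop)).inter (isClosed_eq (by fun_prop) (by fun_prop))

lemma Vis.of_VS {d : ℕ → CA A} {b : UA A} (h : b ∈ VS d) : Vis d b :=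
  ⟨by simpa using (h 1).1, by simpa using (h 1).2⟩

lemma Vis.star {d : ℕ → CA A} {b : UA A} (h : Vis d b) : Vis d (star b) := by
  have h1 := congrArg Star.star h.1
  have h2 := congrArg Star.star h.2
  rw [← (uT_cp d).map_star, star_mul, (uT_cp d).one_nonneg.star_eq] at h1 h2
  exact ⟨h2, h1⟩

lemma mem_VS_iff {d : ℕ → CA A} {b : UA A} : b ∈ VS d ↔ Vis d b ∧
    uT d (star b * b) = uT d 1 * (star b * b) ∧ uT d (b * star b) = uT d 1 * (b * star b) := by
  refine ⟨fun h => ⟨.of_VS h, (Vis.of_VS (mul_mem (star_mem h) h)).1,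
    (Vis.of_VS (mul_mem h (star_mem h))).1⟩, fun ⟨h1, h2, h3⟩ => ?_⟩
  have key : ∀ {b : UA A}, Vis d b → uT d (star b * b) = uT d 1 * (star b * b) →
      ∀ x, uT d (x * b) = uT d x * b := fun {b} h1 h2 x => by
    have c1 : uT d 1 * star b = star b * uT d 1 := h1.star.1.symm.trans h1.star.2
    have := (uT_cp d).null (a₁ := b) (a₂ := 1) (b₁ := 1) (b₂ := -b) (by
      simp only [star_one, one_mul, mul_one, star_neg, mul_neg, neg_mul, neg_neg, h2, h1.1,
        h1.star.2, ← mul_assoc, c1]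
      abel) x
    simpa [add_neg_eq_zero] using this
  refine fun x => ⟨key h1 h2 x, ?_⟩
  have := congrArg star (key h1.star (by simpa using h3) (star x))
  rwa [← (uT_cp d).map_star, star_mul, star_mul, ← (uT_cp d).map_star, star_star, star_star] at this

instance Clo.vs {Γ : Type v} [Env Γ] (t : Γ → UA A) [h : Nt t] (d : Γ → ℕ → CA A) [hd : Nt d] :
    Clo fun g => t g ∈ VS (d g) := Clo.of_iff fun g => mem_VS_iff

/-- ambient colours that see a finite family -/
theorem Ap.vs {N : ℕ} {p : Prop} (hA : Ap (NonUnitalStarAlgHom.id ℂ A) N p) {ι : Type*} [Finite ι]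
    (s : ι → UA A) : ∃ d : Fin N → ℕ → CA A, ∑ i, uT (d i) 1 = 1 ∧ ∀ i l, s l ∈ VS (d i) := by
  haveI := Fintype.ofFinite ι
  obtain ⟨d, -, d1, d2, -⟩ := hA.ultra ⟨Function.injective_id, fun a b => ⟨a * b, rfl⟩⟩ (w := 1)
    (fun k => ⟨_, rfl⟩) zero_le_one le_rfl (κ := Option (ι × Fin 3)) (fun o => o.elim 1 fun p =>
      ![s p.1, star (s p.1) * s p.1, s p.1 * star (s p.1)] p.2) (by simp)
  exact ⟨d, d2 none, fun i l => mem_VS_iff.2
    ⟨d1 i (some (l, 0)), (d1 i (some (l, 1))).1, (d1 i (some (l, 2))).1⟩⟩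

/-- the normalised weight of a colour -/
noncomputable def sh (d : ℕ → CA A) (δ : ℝ) : UA A := cfc (Gf δ) (uφ d 1) * uT d 1

lemma sh_eq (d : ℕ → CA A) (δ : ℝ) : sh d δ = piM (uφ d) δ (uψ d 1) := rfl

lemma Vis.sh_mul {d : ℕ → CA A} {b : UA A} (h : Vis d b) (δ : ℝ) :
    sh d δ * b = piM (uφ d) δ (uψ d b) := by
  rw [sh, mul_assoc, ← h.1]; rfl

/-- partition of unity attached to a family of colours, with the centrality lemma -/
theorem parts {ι : Type*} [Fintype ι] (d : ι → ℕ → CA A) {e : UA A} (e0 : IsSelfAdjoint e)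
    (he : (∑ i, uT (d i) 1) * e = e) (ve : ∀ i, Commute (uT (d i) 1) e) {θ : ℝ} (hθ : 0 < θ)
    (hN : Fintype.card ι * θ ≤ 1 / 4) : ∃ y : ι → UA A, ∑ i, star (y i) * y i ≤ 1 ∧
      (∑ i, star (y i) * y i) * e = e ∧
      (∀ α : ℝ → ℝ, Continuous α → (∀ t, θ ≤ t → α t = 1) → ∀ i,
        cfc α (uφ (d i) 1) * y i = y i ∧ cfc α (uT (d i) 1) * y i = y i) ∧
      (∀ z, (∀ i, Commute (uT (d i) 1) z) → ∀ i, Commute (y i) z) ∧
      ∀ δ, 0 < δ → ∀ b, (∀ i, Vis (d i) b) → ∀ i W, Commute W (sh (d i) δ) →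
        Commute W (sh (d i) δ * b) → Commute (W * y i) b := by
  let k : ℝ → ℝ := fun t => √(max (t - θ) 0)
  have k0 : Continuous k := by fun_prop
  have k1 : ∀ t, t ≤ θ → k t = 0 := fun t ht => by
    simp only [k, max_eq_right (sub_nonpos.2 ht), Real.sqrt_zero]
  have h0 := fun i => (uT_cp (d i)).one_nonneg.isSelfAdjoint
  have i0 := fun i => (uφ_oz (d i)).cp.one_nonneg.isSelfAdjoint
  have c0 : ∀ i x, Commute (uφ (d i) 1) (uT (d i) x) := fun i x => (uφ_oz (d i)).commute _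
  let Y : ι → UA A := fun i => cfc k (uT (d i) 1)
  have Y0 : ∀ i, star (Y i) = Y i := fun i => IsSelfAdjoint.cfc.star_eq
  set M := ∑ i, Y i * Y i with hM
  have M0 : IsSelfAdjoint M := isSelfAdjoint_sum _ fun i _ => by
    rw [IsSelfAdjoint, star_mul, Y0]
  have M1 : ∀ z, (∀ i, Commute (uT (d i) 1) z) → Commute M z := fun z hz =>
    Commute.sum_left _ _ _ fun i _ => ((hz i).cfc_real _).mul_left ((hz i).cfc_real _)
  have M2 : ∑ i, uT (d i) 1 ≤ (1 / 4 : ℝ) • 1 + M := by
    have a1 : ∀ i, uT (d i) 1 ≤ θ • 1 + Y i * Y i := fun i => by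
      simp only [Y]
      rw [cfc_mul' k0 k0, ← Algebra.algebraMap_eq_smul_one, ← cfc_const_add θ _ _ (by fun_prop) (h0 i)]
      conv_lhs => rw [← cfc_id' ℝ (uT (d i) 1) (h0 i)]
      refine cfc_mono (fun t _ => ?_) (by fun_prop) (by fun_prop)
      simp only [k, Real.mul_self_sqrt (le_max_right _ _)]
      linarith [le_max_left (t - θ) 0]
    refine (Finset.sum_le_sum fun i _ => a1 i).trans ?_
    rw [Finset.sum_add_distrib, Finset.sum_const, Finset.card_univ, ← Nat.cast_smul_eq_nsmul ℝ,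
      smul_smul]
    exact add_le_add_left (smul_le_smul_of_nonneg_right hN zero_le_one) _
  have g1 := Gf_cont one_half_pos
  have g2 : Continuous fun s => √(Gf (1 / 2) s) := by fun_prop
  set G := cfc (fun s => √(Gf (1 / 2) s)) M with hG
  have e1 : ∑ i, star (Y i * G) * (Y i * G) = cfc (Gf (1 / 2)) M * M := by
    have : ∀ i, star (Y i * G) * (Y i * G) = G * (Y i * Y i) * G := fun i => by
      rw [star_mul, Y0, hG, IsSelfAdjoint.cfc.star_eq]; simp only [mul_assoc]
    simp only [this, ← Finset.sum_mul, ← Finset.mul_sum]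
    rw [← hM, hG, cfc_mul_id g2 M0, cfc_mul_id g1 M0, cfc_mul' (by fun_prop) g2]
    congr 1; funext s
    rw [mul_right_comm, Real.mul_self_sqrt (Gf_nonneg one_half_pos)]
  refine ⟨fun i => Y i * G, ?_, ?_, fun α hα h1 i => ⟨?_, ?_⟩, fun z hz i =>
    ((hz i).cfc_real _).mul_left ((M1 z hz).cfc_real _), fun δ hδ b hb i W w1 w2 => ?_⟩
  · rw [e1, cfc_mul_id g1 M0]
    exact cfc_le_one _ _ fun t _ => by rw [mul_comm]; exact mul_Gf_le one_half_pos
  · rw [e1]; exact Gf_unit' M0 M2 he e0 (M1 e ve)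
  · have := cfc_orth_of_le (h0 i) (i0 i) (uT_one_le _) (c0 i 1).symm (f := fun t => 1 - α t)
      (by fun_prop) k0 (fun t ht => by rw [h1 t ht, sub_self]) k1
    rw [cfc_sub _ _ _, cfc_const_one ℝ _ (i0 i), sub_mul, one_mul, sub_eq_zero] at this
    rw [← mul_assoc, ← this]
  · rw [← mul_assoc, cfc_mul' hα k0]
    congr 2; funext t
    rcases le_total t θ with h | h
    · rw [k1 t h, mul_zero]
    · rw [h1 t h, one_mul]
  · have cb : ∀ i, Commute (uT (d i) 1) b := fun i => (hb i).1.symm.trans (hb i).2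
    have g3 := Gf_cont hθ
    have g4 := Gf_cont hδ
    set Y' := cfc (fun t => k t * Gf θ t) (uT (d i) 1) * cfc (fun t => max t δ) (uφ (d i) 1)
    have a1 : Y' * sh (d i) δ = Y i := by
      rw [sh, mul_assoc, ← mul_assoc (cfc (fun t => max t δ) _), cfc_mul' (by fun_prop) g4]
      have : (fun t => max t δ * Gf δ t) = fun _ => 1 := funext fun t =>
        mul_inv_cancel₀ (hδ.trans_le (le_max_right _ _)).ne'
      rw [this, cfc_const_one ℝ _ (i0 i), one_mul, cfc_mul_id (by fun_prop) (h0 i)]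
      congr 1; funext t
      rcases le_total t θ with h | h
      · rw [k1 t h, zero_mul, zero_mul]
      · rw [Gf, max_eq_left h, mul_assoc, inv_mul_cancel₀ (hθ.trans_le h).ne', mul_one]
    have a2 : ∀ x, Commute (uT (d i) 1) (uT (d i) x) →
        Commute Y' (cfc (Gf δ) (uφ (d i) 1) * uT (d i) x) := fun x hx =>
      ((((c0 i 1).cfc_real _).symm.mul_right hx).cfc_real _).mul_left
        ((((Commute.refl _).cfc_real _).symm.mul_right (c0 i x)).cfc_real _)
    have a3 : Commute (W * Y') (sh (d i) δ) := w1.mul_left (a2 1 (Commute.refl _))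
    have a4 : Commute (W * Y') (sh (d i) δ * b) := w2.mul_left (by
      rw [sh, mul_assoc, ← (hb i).1]
      exact a2 b (by rw [(hb i).1]; exact (Commute.refl _).mul_right (cb i)))
    have a5 : Commute (W * Y i) b := by
      change _ * _ = _ * _
      rw [← a1, ← mul_assoc W, mul_assoc _ _ b, a4.eq, a3.eq, ← mul_assoc b]
      exact congrArg (· * _) ((hb i).commute _).eq
    rw [← mul_assoc]
    exact a5.mul_left ((M1 b cb).cfc_real _)

end Pool.Agent.Lib.MP_30b5b4_an
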