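import Mathlib

/-! Elementary complete positivity. -/

open scoped CStarAlgebra ComplexOrder

set_option linter.unusedSectionVars false
set_option linter.style.haveILetI false

namespace Pool.Agent.Lib.MP_30b5b4_an

section general
variable {B : Type*} [NonUnitalCStarAlgebra B] [PartialOrder B] [StarOrderedRing B]

lemma exists_star_mul {a : B} (ha : 0 ≤ a) : ∃ s, a = star s * s :=
  CStarAlgebra.nonneg_iff_eq_star_mul_self.1 ha

lemma exists_pos_neg {x : B} (hx : IsSelfAdjoint x) :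
    ∃ P Y : B, 0 ≤ P ∧ 0 ≤ Y ∧ x = P - Y ∧ Y * P = 0 :=
  ⟨x⁺, x⁻, CFC.posPart_nonneg x, CFC.negPart_nonneg x, (CFC.posPart_sub_negPart x).symm,
    CFC.negPart_mul_posPart x⟩

lemma eq_zero_of_star_mul_self_nonpos {y : B} (h : star y * y ≤ 0) : y = 0 := by
  have h0 : star y * y = 0 := le_antisymm h (star_mul_self_nonneg y)
  exact (CStarRing.star_mul_self_eq_zero_iff y).1 h0

lemma mul_eq_zero_of_conj {a c : B} (ha : 0 ≤ a) (h : star c * a * c ≤ 0) : a * c = 0 := by
  obtain ⟨s, rfl⟩ := CStarAlgebra.nonneg_iff_eq_star_mul_self.1 ha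
  have : s * c = 0 := by
    apply eq_zero_of_star_mul_self_nonpos
    simpa [mul_assoc] using h
  rw [mul_assoc, this, mul_zero]

lemma mul_eq_zero_of_le {a a' c : B} (ha : 0 ≤ a) (h : a ≤ a') (hc : a' * c = 0) : a * c = 0 := by
  apply mul_eq_zero_of_conj ha
  have := star_left_conjugate_le_conjugate h c
  rwa [mul_assoc (star c) a', hc, mul_zero] at this

lemma mul_eq_zero_comm_sa {a b : B} (ha : IsSelfAdjoint a) (hb : IsSelfAdjoint b) (h : a * b = 0) :
    b * a = 0 := by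
  have := congrArg star h
  rwa [star_mul, ha.star_eq, hb.star_eq, star_zero] at this

lemma mul_eq_zero_of_le_of_le {a a' b b' : B} (ha : 0 ≤ a) (h : a ≤ a') (hb : 0 ≤ b) (h' : b ≤ b')
    (hc : a' * b' = 0) : a * b = 0 := by
  have h1 : a * b' = 0 := mul_eq_zero_of_le ha h hc
  have h2 : b' * a = 0 := mul_eq_zero_comm_sa ha.isSelfAdjoint (hb.trans h').isSelfAdjoint h1
  exact mul_eq_zero_comm_sa hb.isSelfAdjoint ha.isSelfAdjoint (mul_eq_zero_of_le hb h' h2)

lemma nonneg_of_map_nonneg {C : Type*} [NonUnitalCStarAlgebra C] [PartialOrder C]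
    [StarOrderedRing C] (j : B →⋆ₙₐ[ℂ] C) (hj : Function.Injective j) {b : B} (h : 0 ≤ j b) :
    0 ≤ b := by
  have hb : IsSelfAdjoint b := by
    apply hj
    rw [map_star, h.star_eq]
  have hc : Continuous j := (NonUnitalStarAlgHom.isometry j hj).continuous
  have h1 : j (b⁻) = (j b)⁻ := by
    rw [CFC.negPart_def, CFC.negPart_def]
    exact NonUnitalStarAlgHomClass.map_cfcₙ j _ b
  rw [(CFC.negPart_eq_zero_iff _).2 h] at h1
  have h2 : b⁻ = 0 := hj (by rw [h1, map_zero])
  exact (CFC.negPart_eq_zero_iff b).1 h2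

end general

variable {A A' : Type*} [NonUnitalCStarAlgebra A] [NonUnitalCStarAlgebra A']
variable {B C : Type*} [CStarAlgebra B] [PartialOrder B] [StarOrderedRing B]
  [CStarAlgebra C] [PartialOrder C] [StarOrderedRing C]

def IsCP (φ : A →ₗ[ℂ] B) : Prop :=
  ∀ (n : ℕ) (a : Fin n → A) (b : Fin n → B),
    0 ≤ ∑ i, ∑ j, star (b i) * φ (star (a i) * a j) * b j

lemma matrix_nonneg {n : ℕ} (X : CStarMatrix (Fin n) (Fin n) B) (hX : IsSelfAdjoint X)
    (h : ∀ b : Fin n → B, 0 ≤ ∑ i, ∑ j, star (b i) * X i j * b j) : 0 ≤ X := by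
  obtain ⟨P, Y, hP0, hY0, hXP, hYP⟩ := exists_pos_neg hX
  have hYs : star Y = Y := hY0.star_eq
  have h1 : Y * X * Y = -(Y * Y * Y) := by
    rw [hXP, mul_sub, hYP]
    noncomm_ring
  obtain ⟨Z, hZ⟩ := exists_star_mul
    (show 0 ≤ Y * Y * Y by simpa [hYs] using star_left_conjugate_nonneg hY0 Y)
  have hZ0 : Z = 0 := by
    ext k i
    have h2 : 0 ≤ (Y * X * Y) i i := by
      have := h (fun k => Y k i)
      convert this using 1
      simp only [CStarMatrix.mul_apply, Finset.sum_mul]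
      rw [Finset.sum_comm]
      refine Finset.sum_congr rfl fun a _ => Finset.sum_congr rfl fun b _ => ?_
      rw [← CStarMatrix.star_apply, hYs]
    rw [h1, hZ, CStarMatrix.neg_apply, CStarMatrix.mul_apply, Left.nonneg_neg_iff] at h2
    have h3 : ∀ l ∈ (Finset.univ : Finset (Fin n)), 0 ≤ (star Z) i l * Z l i := by
      intro l _
      rw [CStarMatrix.star_apply]
      exact star_mul_self_nonneg _
    have h4 := (Finset.sum_eq_zero_iff_of_nonneg h3).1
      (le_antisymm h2 (Finset.sum_nonneg h3)) k (Finset.mem_univ _)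
    rw [CStarMatrix.star_apply] at h4
    exact (CStarRing.star_mul_self_eq_zero_iff _).1 h4
  rw [hZ0, mul_zero] at hZ
  have h5 : Y * Y = 0 := by
    apply (CStarRing.star_mul_self_eq_zero_iff _).1
    rw [star_mul, hYs, ← mul_assoc, hZ, zero_mul]
  have h6 : Y = 0 := by
    apply (CStarRing.star_mul_self_eq_zero_iff _).1
    rw [hYs, h5]
  rwa [hXP, h6, sub_zero]

lemma form_nonneg {n : ℕ} {X : CStarMatrix (Fin n) (Fin n) B} (hX : 0 ≤ X) (b : Fin n → B) :
    0 ≤ ∑ i, ∑ j, star (b i) * X i j * b j := by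
  obtain ⟨K, rfl⟩ := exists_star_mul hX
  have : ∑ i, ∑ j, star (b i) * (star K * K) i j * b j
      = ∑ k, star (∑ j, K k j * b j) * (∑ j, K k j * b j) := by
    simp only [CStarMatrix.mul_apply, CStarMatrix.star_apply, star_sum, star_mul, Finset.sum_mul,
      Finset.mul_sum]
    rw [Finset.sum_comm]
    conv_lhs => enter [2, j]; rw [Finset.sum_comm]
    rw [Finset.sum_comm]
    refine Finset.sum_congr rfl fun k _ => ?_
    refine Finset.sum_congr rfl fun i _ => Finset.sum_congr rfl fun j _ => ?_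
    simp only [mul_assoc]
  rw [this]
  exact Finset.sum_nonneg fun k _ => star_mul_self_nonneg _

namespace IsCP
variable {φ : A →ₗ[ℂ] B}

lemma nonneg_star_mul (h : IsCP φ) (a : A) : 0 ≤ φ (star a * a) := by
  simpa using h 1 (fun _ => a) (fun _ => 1)

lemma nonneg [PartialOrder A] [StarOrderedRing A] (h : IsCP φ) {a : A} (ha : 0 ≤ a) :
    0 ≤ φ a := by
  obtain ⟨s, rfl⟩ := CStarAlgebra.nonneg_iff_eq_star_mul_self.1 ha
  exact h.nonneg_star_mul s

lemma mono [PartialOrder A] [StarOrderedRing A] (h : IsCP φ) {a b : A} (hab : a ≤ b) :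
    φ a ≤ φ b := by
  rw [← sub_nonneg, ← map_sub]
  exact h.nonneg (sub_nonneg.2 hab)

lemma map_star (h : IsCP φ) (a : A) : φ (star a) = star (φ a) := by
  letI := CStarAlgebra.spectralOrder A
  haveI := CStarAlgebra.spectralOrderedRing A
  let f : A →ₚ[ℂ] B := PositiveLinearMap.mk₀ φ (fun a ha => h.nonneg ha)
  exact StarHomClass.map_star f a

lemma isSelfAdjoint (h : IsCP φ) {a : A} (ha : IsSelfAdjoint a) : IsSelfAdjoint (φ a) := by
  rw [IsSelfAdjoint, ← h.map_star, ha.star_eq]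

lemma zero : IsCP (0 : A →ₗ[ℂ] B) := by
  intro n a b
  simp

lemma add {ψ : A →ₗ[ℂ] B} (h : IsCP φ) (h' : IsCP ψ) : IsCP (φ + ψ) := by
  intro n a b
  simpa [mul_add, add_mul, Finset.sum_add_distrib] using add_nonneg (h n a b) (h' n a b)

lemma sum {ι : Type*} (s : Finset ι) (f : ι → (A →ₗ[ℂ] B)) (h : ∀ i ∈ s, IsCP (f i)) :
    IsCP (∑ i ∈ s, f i) :=
  Finset.sum_induction f IsCP (fun _ _ => add) zero h

lemma of_eq {ψ : A →ₗ[ℂ] B} (h : IsCP φ) (h' : ∀ a, ψ a = φ a) : IsCP ψ := by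
  have : ψ = φ := LinearMap.ext h'
  rwa [this]

lemma conj (h : IsCP φ) (c : B) {ψ : A →ₗ[ℂ] B} (hψ : ∀ a, ψ a = star c * φ a * c) : IsCP ψ := by
  intro n a b
  simpa [hψ, mul_assoc] using h n a (fun i => c * b i)

lemma comp_half (h : IsCP φ) (L : A' → A) {ψ : A' →ₗ[ℂ] B}
    (hψ : ∀ a a', ψ (star a * a') = φ (star (L a) * L a')) : IsCP ψ := by
  intro n a b
  simpa [hψ] using h n (fun i => L (a i)) b

lemma of_hom (h : A → B) {ψ : A →ₗ[ℂ] B}
    (hψ : ∀ a a', ψ (star a * a') = star (h a) * h a') : IsCP ψ := by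
  intro n a b
  have : ∑ i, ∑ j, star (b i) * ψ (star (a i) * a j) * b j
      = star (∑ j, h (a j) * b j) * (∑ j, h (a j) * b j) := by
    simp only [hψ, star_sum, star_mul, Finset.sum_mul, Finset.mul_sum, mul_assoc]
    rw [Finset.sum_comm]
  rw [this]
  exact star_mul_self_nonneg _

lemma matrix (h : IsCP φ) {n : ℕ} (a : Fin n → A) :
    0 ≤ CStarMatrix.ofMatrix (Matrix.of fun i j => φ (star (a i) * a j)) := by
  apply matrix_nonneg
  · ext i j
    rw [CStarMatrix.star_apply]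
    simp [← h.map_star]
  · intro b
    simpa using h n a b

lemma comp {T : B →ₗ[ℂ] C} (hT : IsCP T) (h : IsCP φ) {ψ : A →ₗ[ℂ] C}
    (hψ : ∀ a, ψ a = T (φ a)) : IsCP ψ := by
  intro n a b
  obtain ⟨K, hK⟩ := exists_star_mul (h.matrix a)
  have h1 : ∀ i j, φ (star (a i) * a j) = ∑ k, star (K k i) * K k j := by
    intro i j
    have := congrFun (congrFun hK i) j
    simpa [CStarMatrix.mul_apply, CStarMatrix.star_apply] using this
  have : ∑ i, ∑ j, star (b i) * ψ (star (a i) * a j) * b j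
      = ∑ k, ∑ i, ∑ j, star (b i) * T (star (K k i) * K k j) * b j := by
    simp only [hψ, h1, map_sum, Finset.sum_mul, Finset.mul_sum]
    conv_lhs => enter [2, j]; rw [Finset.sum_comm]
    rw [Finset.sum_comm]
  rw [this]
  exact Finset.sum_nonneg fun k _ => hT n (K k) b

lemma two (h : IsCP φ) (a₁ a₂ : A) (b₁ b₂ : B) :
    0 ≤ star b₁ * φ (star a₁ * a₁) * b₁ + star b₁ * φ (star a₁ * a₂) * b₂
      + (star b₂ * φ (star a₂ * a₁) * b₁ + star b₂ * φ (star a₂ * a₂) * b₂) := by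
  simpa [Fin.sum_univ_two] using h 2 ![a₁, a₂] ![b₁, b₂]

lemma null (h : IsCP φ) {a₁ a₂ : A} {b₁ b₂ : B}
    (h0 : star b₁ * φ (star a₁ * a₁) * b₁ + star b₁ * φ (star a₁ * a₂) * b₂
      + (star b₂ * φ (star a₂ * a₁) * b₁ + star b₂ * φ (star a₂ * a₂) * b₂) = 0) (x : A) :
    φ (x * a₁) * b₁ + φ (x * a₂) * b₂ = 0 := by
  set y := φ (x * a₁) * b₁ + φ (x * a₂) * b₂ with hy
  set N := ‖φ (x * star x)‖ with hN
  have hN0 : 0 ≤ N := norm_nonneg _
  set s : ℝ := (N + 1)⁻¹ with hs
  have hs0 : 0 < s := by positivity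
  have h3 := h 3 ![a₁, a₂, star x] ![b₁, b₂, -(s • y)]
  have e1 : φ (star a₁ * star x) = star (φ (x * a₁)) := by rw [← h.map_star, star_mul]
  have e2 : φ (star a₂ * star x) = star (φ (x * a₂)) := by rw [← h.map_star, star_mul]
  have hsy : star y = star b₁ * star (φ (x * a₁)) + star b₂ * star (φ (x * a₂)) := by
    rw [hy, star_add, star_mul, star_mul]
  have h4 : ∑ i, ∑ j, star (![b₁, b₂, -(s • y)] i) *
      φ (star (![a₁, a₂, star x] i) * ![a₁, a₂, star x] j) * ![b₁, b₂, -(s • y)] j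
      = (star b₁ * φ (star a₁ * a₁) * b₁ + star b₁ * φ (star a₁ * a₂) * b₂
      + (star b₂ * φ (star a₂ * a₁) * b₁ + star b₂ * φ (star a₂ * a₂) * b₂))
        - s • (star y * y) - s • (star y * y) + s • s • (star y * φ (x * star x) * y) := by
    simp only [Fin.sum_univ_three, Matrix.cons_val_zero, Matrix.cons_val_one, Matrix.cons_val,
      star_star, e1, e2, star_neg, star_smul, star_trivial]
    conv_rhs => enter [1, 1, 2, 2, 1]; rw [hsy]
    conv_rhs => enter [1, 2, 2, 2]; rw [hy]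
    simp only [mul_add, add_mul, smul_add, mul_neg, neg_mul, neg_neg, smul_mul_assoc,
      mul_smul_comm, mul_assoc, smul_neg]
    abel
  rw [h4, h0] at h3
  have h5 : star y * φ (x * star x) * y ≤ N • (star y * y) :=
    CStarAlgebra.star_left_conjugate_le_norm_smul
      (by simpa using (h.nonneg_star_mul (star x)).isSelfAdjoint)
  have h6 : s • s • (star y * φ (x * star x) * y) ≤ s • (star y * y) := by
    refine smul_le_smul_of_nonneg_left ?_ hs0.le
    calc s • (star y * φ (x * star x) * y) ≤ s • N • (star y * y) :=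
          smul_le_smul_of_nonneg_left h5 hs0.le
      _ = (s * N) • (star y * y) := by rw [mul_smul]
      _ ≤ (1 : ℝ) • (star y * y) := by
          refine smul_le_smul_of_nonneg_right ?_ (star_mul_self_nonneg y)
          rw [hs, inv_mul_le_iff₀ (by positivity)]
          linarith
      _ = _ := one_smul _ _
  have h7 : s • (star y * y) ≤ 0 := by
    have := add_le_add h3 h6
    rw [← sub_nonneg] at this ⊢
    convert this using 1
    abel
  apply eq_zero_of_star_mul_self_nonpos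
  have := smul_le_smul_of_nonneg_left h7 (inv_pos.2 hs0).le
  rwa [smul_smul, inv_mul_cancel₀ hs0.ne', one_smul, smul_zero] at this

end IsCP

section unital
variable {U V : Type*} [CStarAlgebra U] [CStarAlgebra V]

lemma IsCP.star_mul_le {φ : U →ₗ[ℂ] B} (h : IsCP φ) (a : U) :
    φ (star a * a) ≤ (‖a‖ ^ 2) • φ 1 := by
  letI := CStarAlgebra.spectralOrder U
  haveI := CStarAlgebra.spectralOrderedRing U
  have := h.mono (CStarAlgebra.star_mul_le_algebraMap_norm_sq (a := a))
  rwa [Algebra.algebraMap_eq_smul_one, LinearMap.map_smul_of_tower] at this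

lemma norm_add_le_of_cp {φ : U →ₗ[ℂ] B} {ψ : V →ₗ[ℂ] B} (h : IsCP φ) (h' : IsCP ψ)
    (h1 : φ 1 + ψ 1 ≤ 1) (a : U) (x : V) {r : ℝ} (ha : ‖a‖ ≤ r) (hx : ‖x‖ ≤ r) :
    ‖φ a + ψ x‖ ≤ r := by
  have hr : 0 ≤ r := (norm_nonneg _).trans ha
  set y := φ a + ψ x with hy
  have e1 := h.two 1 a y (-1)
  have e2 := h'.two 1 x y (-1)
  simp only [star_one, one_mul, mul_one, star_neg, mul_neg, neg_mul, neg_neg, h.map_star,
    h'.map_star] at e1 e2
  have e3 := star_left_conjugate_le_conjugate h1 y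
  have p1 : 0 ≤ φ 1 := by simpa using h.nonneg_star_mul 1
  have p2 : 0 ≤ ψ 1 := by simpa using h'.nonneg_star_mul 1
  have e4 : φ (star a * a) + ψ (star x * x) ≤ algebraMap ℝ B (r ^ 2) := by
    calc φ (star a * a) + ψ (star x * x) ≤ (‖a‖ ^ 2) • φ 1 + (‖x‖ ^ 2) • ψ 1 :=
          add_le_add (h.star_mul_le a) (h'.star_mul_le x)
      _ ≤ (r ^ 2) • φ 1 + (r ^ 2) • ψ 1 :=
          add_le_add (smul_le_smul_of_nonneg_right (by gcongr) p1)
            (smul_le_smul_of_nonneg_right (by gcongr) p2)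
      _ = (r ^ 2) • (φ 1 + ψ 1) := by rw [smul_add]
      _ ≤ (r ^ 2) • (1 : B) := smul_le_smul_of_nonneg_left h1 (by positivity)
      _ = _ := by rw [Algebra.algebraMap_eq_smul_one]
  have e5 : star y * y ≤ algebraMap ℝ B (r ^ 2) := by
    refine le_trans ?_ e4
    have := add_le_add (add_le_add e1 e2) e3
    rw [← sub_nonneg] at this ⊢
    convert this using 1
    have hsy : star y = star (φ a) + star (ψ x) := by rw [hy, star_add]
    have k1 : star y * y = star y * φ a + star y * ψ x := by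
      conv_lhs => enter [2]; rw [hy]
      rw [mul_add]
    have k2 : star y * y = star (φ a) * y + star (ψ x) * y := by
      conv_lhs => enter [1]; rw [hsy]
      rw [add_mul]
    have k3 : star y * y = (star y * φ a + star y * ψ x) + (star (φ a) * y + star (ψ x) * y)
        - star y * y := by rw [← k1, ← k2]; abel
    conv_lhs => rw [k3]
    noncomm_ring
  have e6 : ‖star y * y‖ ≤ r ^ 2 :=
    (CStarAlgebra.norm_le_iff_le_algebraMap _ (by positivity) (star_mul_self_nonneg y)).2 e5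
  rw [CStarRing.norm_star_mul_self, ← sq] at e6
  exact (pow_le_pow_iff_left₀ (norm_nonneg _) hr two_ne_zero).1 e6

lemma IsCP.norm_le {φ : U →ₗ[ℂ] B} (h : IsCP φ) (h1 : φ 1 ≤ 1) (a : U) : ‖φ a‖ ≤ ‖a‖ := by
  simpa using norm_add_le_of_cp h (IsCP.zero (A := U)) (by simpa using h1) a a le_rfl le_rfl

end unital

section bridge
variable {D : Type*} [NonUnitalCStarAlgebra D] [PartialOrder D] [StarOrderedRing D]
  [PartialOrder A] [StarOrderedRing A]

lemma isCP_of_cp (φ : A →CP D) (j : D →⋆ₙₐ[ℂ] B) {ψ : A →ₗ[ℂ] B} (hψ : ∀ a, ψ a = j (φ a)) :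
    IsCP ψ := by
  intro n a b
  rcases n with _ | n
  · simp
  let N : CStarMatrix (Fin (n + 1)) (Fin (n + 1)) A :=
    CStarMatrix.ofMatrix (Matrix.of fun i k => if i = 0 then a k else 0)
  have h1 := φ.map_cstarMatrix_nonneg' _ _ (star_mul_self_nonneg N)
  have h2 := (j : D →CP B).map_cstarMatrix_nonneg' _ _ h1
  have h3 := form_nonneg h2 b
  convert h3 using 6 with i _ k _
  rw [hψ]
  simp only [CStarMatrix.map_apply, CStarMatrix.mul_apply, CStarMatrix.star_apply]
  change j (φ.toLinearMap _) = j _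
  congr 2
  rw [Finset.sum_eq_single 0]
  · simp [N]
  · intro c _ hc
    simp [N, hc]
  · simp

lemma exists_cp_of_isCP (φ : A →ₗ[ℂ] D) (j : D →⋆ₙₐ[ℂ] B) (hj : Function.Injective j)
    {ψ : A →ₗ[ℂ] B} (hψ : ∀ a, ψ a = j (φ a)) (h : IsCP ψ) :
    ∃ T : A →CP D, ∀ a, T a = φ a := by
  refine ⟨⟨φ, fun k M hM => ?_⟩, fun a => rfl⟩
  apply nonneg_of_map_nonneg (CStarMatrix.mapₙₐ (n := Fin k) j)
  · intro X Y hXY
    ext i l
    exact hj (congrFun (congrFun hXY i) l)
  obtain ⟨K, rfl⟩ := exists_star_mul hM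
  have e : ∀ i l, (CStarMatrix.mapₙₐ (n := Fin k) j) ((star K * K).map φ) i l
      = ∑ m, ψ (star (K m i) * K m l) := by
    intro i l
    change j (φ ((star K * K) i l)) = _
    rw [← hψ, CStarMatrix.mul_apply, map_sum]
    rfl
  apply matrix_nonneg
  · ext i l
    rw [CStarMatrix.star_apply, e, e, star_sum]
    simp [← h.map_star]
  · intro b
    simp only [e, Finset.mul_sum, Finset.sum_mul]
    conv => enter [2, 2, i]; rw [Finset.sum_comm]
    rw [Finset.sum_comm]
    exact Finset.sum_nonneg fun m _ => h k (K m) b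

end bridge

end Pool.Agent.Lib.MP_30b5b4_an
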