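import Pool.Agent.Lib.MP_30b5b4_an.Col

/-! The central projection on which an order zero map is bounded below. -/

open scoped CStarAlgebra ComplexOrder

set_option linter.unusedSectionVars false
set_option linter.style.haveILetI false

namespace Pool.Agent.Lib.MP_30b5b4_an

variable {G : Type*} [CStarAlgebra G] [FiniteDimensional ℂ G] [PartialOrder G] [StarOrderedRing G]
variable {B : Type*} [CStarAlgebra B] [PartialOrder B] [StarOrderedRing B]

lemma fd_top_proj {u : G} (hu : u ≠ 0) :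
    ∃ e, IsStarProjection e ∧ e ≠ 0 ∧ star u * u * e = (‖u‖ ^ 2) • e := by
  classical
  haveI : Nontrivial G := nontrivial_of_ne u 0 hu
  have h0 := star_mul_self_nonneg u
  have h1 := CStarAlgebra.norm_mem_spectrum_of_nonneg h0
  rw [CStarRing.norm_star_mul_self, ← pow_two] at h1
  let χ : ℝ → ℝ := fun s => if s = ‖u‖ ^ 2 then 1 else 0
  refine ⟨cfc χ (star u * u), fd_proj _ _ fun s => by simp only [χ]; split_ifs <;> simp,
    fun h => ?_, ?_⟩
  · have := norm_apply_le_norm_cfc χ _ h1 (fd_cont _ _) h0.isSelfAdjoint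
    rw [h] at this
    norm_num [χ] at this
  · conv_lhs => enter [1]; rw [← cfc_id' ℝ (star u * u)]
    rw [← cfc_mul _ _ _ (fd_cont _ _) (fd_cont _ _), ← cfc_const_mul _ _ _ (fd_cont _ _)]
    congr 1
    funext s
    simp only [χ]
    split_ifs with h <;> simp [h]

variable {ρ : G →ₗ[ℂ] B}

lemma OZ.norm_init (h : OZ ρ) {v : G} (hv : IsStarProjection (star v * v)) :
    ‖ρ (star v * v)‖ = ‖ρ v‖ := by
  have h1 := h.star_mul_self v
  have h2 := h.star_mul_self (star v * v)
  rw [hv.isSelfAdjoint.star_eq, hv.isIdempotentElem.eq, ← h1] at h2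
  have h3 := congrArg norm h2
  rw [CStarRing.norm_star_mul_self, CStarRing.norm_star_mul_self] at h3
  exact (mul_self_inj (norm_nonneg _) (norm_nonneg _)).1 h3

theorem OZ.exists_central (h : OZ ρ) {η : ℝ} (hη : 0 ≤ η) :
    ∃ P, IsStarProjection P ∧ (∀ x, Commute P x) ∧ ‖ρ (1 - P)‖ ≤ η ∧
      ∀ x, η * ‖P * x‖ ≤ ‖ρ x‖ := by
  obtain ⟨W, ⟨Q, hQ, hQη, rfl⟩, hW⟩ := set_has_maximal_iff_noetherian.2
    (inferInstance : IsNoetherian ℂ G)
    {W | ∃ Q, IsStarProjection Q ∧ ‖ρ Q‖ ≤ η ∧ W = LinearMap.range (LinearMap.mulLeft ℂ Q)}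
    ⟨_, 0, IsStarProjection.zero G, by simpa using hη, rfl⟩
  have key : ∀ e, IsStarProjection e → Q * e = 0 → ‖ρ e‖ ≤ η → e = 0 := by
    intro e he hQe hη'
    have heQ := mul_eq_zero_comm_sa hQ.isSelfAdjoint he.isSelfAdjoint hQe
    have h1 := hW _ ⟨Q + e, hQ.add he hQe, by
      rw [map_add]
      exact add_le_of_orth (h.cp.proj_nonneg hQ) (h.cp.proj_nonneg he) (h.mul_eq_zero hQe) hQη hη',
      rfl⟩
    have h2 : LinearMap.range (LinearMap.mulLeft ℂ Q) ≤
        LinearMap.range (LinearMap.mulLeft ℂ (Q + e)) := by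
      rintro _ ⟨x, rfl⟩
      exact ⟨Q * x, by simp [add_mul, ← mul_assoc, hQ.isIdempotentElem.eq, heQ]⟩
    have h3 : e ∈ LinearMap.range (LinearMap.mulLeft ℂ Q) := by
      rw [h2.eq_of_not_lt h1]
      exact ⟨e, by simp [add_mul, he.isIdempotentElem.eq, hQe]⟩
    obtain ⟨y, hy⟩ := h3
    rw [LinearMap.mulLeft_apply] at hy
    rw [← hQe, ← hy, ← mul_assoc, hQ.isIdempotentElem.eq]
  have aux : ∀ {u e : G}, u ≠ 0 → star u * u * e = (‖u‖ ^ 2) • e → Q * star u = 0 →
      Q * e = 0 := by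
    intro u e hu he hQu
    have := congrArg (Q * ·) he
    simp only [← mul_assoc, hQu, zero_mul, mul_smul_comm] at this
    exact (smul_eq_zero.1 this.symm).resolve_left (by positivity)
  have c1 : ∀ x, Q * x * (1 - Q) = 0 := by
    intro x
    by_contra hu
    set u := Q * x * (1 - Q) with hu'
    obtain ⟨e, he, he0, he1⟩ := fd_top_proj hu
    have hn : 0 < ‖u‖ := norm_pos_iff.2 hu
    have h1 : Q * e = 0 := aux hu he1 (by
      rw [hu', star_mul, hQ.one_sub.isSelfAdjoint.star_eq, ← mul_assoc, hQ.mul_one_sub_self,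
        zero_mul])
    let v : G := ‖u‖⁻¹ • (u * e)
    have h2 : star v * v = e := by
      simp only [v, star_smul, star_trivial, smul_mul_smul_comm, star_mul, he.isSelfAdjoint.star_eq]
      rw [mul_assoc, ← mul_assoc (star u), he1, mul_smul_comm, he.isIdempotentElem.eq, smul_smul]
      rw [show ‖u‖⁻¹ * ‖u‖⁻¹ * ‖u‖ ^ 2 = 1 by field_simp, one_smul]
    have h3 : IsStarProjection (star v * v) := h2 ▸ he
    have h4 := range_proj h3
    have h5 : Q * (v * star v) = v * star v := by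
      rw [← mul_assoc]
      congr 1
      simp only [v, mul_smul_comm, hu', ← mul_assoc, hQ.isIdempotentElem.eq]
    refine he0 (key e he h1 ?_)
    have h6 := h.norm_init (v := star v) (by rwa [star_star])
    rw [star_star, h.cp.map_star, norm_star] at h6
    rw [← h2, h.norm_init h3, ← h6]
    exact (CStarAlgebra.norm_le_norm_of_nonneg_of_le (h.cp.proj_nonneg h4)
      (h.cp.mono ((h4.le_iff_mul_eq_right hQ).2 h5))).trans hQη
  have c2 : ∀ x, Commute Q x := by
    intro x
    have h1 := c1 x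
    have h2 := congrArg star (c1 (star x))
    rw [star_mul, star_mul, star_star, hQ.one_sub.isSelfAdjoint.star_eq, hQ.isSelfAdjoint.star_eq,
      star_zero, sub_mul, one_mul, sub_eq_zero] at h2
    rw [mul_sub, mul_one, sub_eq_zero] at h1
    change _ * _ = _ * _
    rw [h1, h2, mul_assoc, ← h2]
  have c3 : ∀ x, Commute (1 - Q) x := fun x => (Commute.one_left x).sub_left (c2 x)
  refine ⟨1 - Q, hQ.one_sub, c3, by simpa using hQη, fun x => ?_⟩
  set u := (1 - Q) * x with hu'
  by_cases hu : u = 0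
  · simp [hu]
  obtain ⟨e, he, he0, he1⟩ := fd_top_proj hu
  have h1 : Q * e = 0 := aux hu he1 (by
    rw [hu', star_mul, hQ.one_sub.isSelfAdjoint.star_eq, ← (c3 _).eq, ← mul_assoc,
      hQ.mul_one_sub_self, zero_mul])
  have h2 : η < ‖ρ e‖ := lt_of_not_ge fun h' => he0 (key e he h1 h')
  have h3 : star x * x * e = (‖u‖ ^ 2) • e := by
    rw [← he1, hu', star_mul, hQ.one_sub.isSelfAdjoint.star_eq, mul_assoc (star x) (1 - Q),
      ← mul_assoc (1 - Q), hQ.one_sub.isIdempotentElem.eq, (c3 x).eq, mul_assoc, mul_assoc,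
      mul_assoc, sub_mul, h1, one_mul, sub_zero]
  have h4 : ρ 1 * ρ e = ρ e * ρ e := by rw [h.mul e, he.isIdempotentElem.eq]
  have h5 := (h.cp.proj_nonneg he).star_eq
  have h6 : star (ρ x * ρ e) * (ρ x * ρ e) =
      (‖u‖ ^ 2) • (star (star (ρ e) * ρ e) * (star (ρ e) * ρ e)) := by
    rw [star_mul, mul_assoc, ← mul_assoc (star (ρ x)), h.star_mul_self, mul_assoc, h.mul _ e, h3,
      ← Complex.coe_smul, map_smul, Complex.coe_smul, star_mul, star_star, h5, mul_smul_comm, h4,
      mul_smul_comm, mul_smul_comm, ← mul_assoc (ρ 1), h4]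
    simp only [mul_assoc]
  have h7 := congrArg norm h6
  rw [norm_smul, CStarRing.norm_star_mul_self, CStarRing.norm_star_mul_self,
    CStarRing.norm_star_mul_self, Real.norm_of_nonneg (by positivity)] at h7
  have h8 : ‖ρ x * ρ e‖ = ‖u‖ * ‖ρ e‖ * ‖ρ e‖ :=
    (mul_self_inj (norm_nonneg _) (by positivity)).1 (by rw [h7]; ring)
  have h9 := _root_.norm_mul_le (ρ x) (ρ e)
  rw [h8] at h9
  have h10 := le_of_mul_le_mul_right h9 (hη.trans_lt h2)
  nlinarith [norm_nonneg u]

end Pool.Agent.Lib.MP_30b5b4_an
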