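import Pool.Agent.Lib.MP_30b5b4_an.FC

/-! Lifting order zero maps. -/

open scoped CStarAlgebra ComplexOrder

set_option linter.unusedSectionVars false
set_option linter.style.haveILetI false

namespace Pool.Agent.Lib.MP_30b5b4_an

variable {A D : Type*} [CStarAlgebra A] [CStarAlgebra D]
  [PartialOrder A] [StarOrderedRing A] [PartialOrder D] [StarOrderedRing D]

lemma exists_sa_lift (π : A →⋆ₐ[ℂ] D) {S : NonUnitalStarSubalgebra ℂ A} {d : D}
    (hd : IsSelfAdjoint d) (h : ∃ s ∈ S, π s = d) : ∃ s ∈ S, IsSelfAdjoint s ∧ π s = d := by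
  obtain ⟨s, hs, rfl⟩ := h
  refine ⟨(2⁻¹ : ℂ) • (s + star s), SMulMemClass.smul_mem _ (add_mem hs (star_mem hs)), ?_, ?_⟩
  · simp [IsSelfAdjoint, add_comm]
  · rw [map_smul, map_add, map_star, hd.star_eq, ← two_smul ℂ, smul_smul]
    simp

lemma cfc_lift (π : A →⋆ₐ[ℂ] D) {S : NonUnitalStarSubalgebra ℂ A} (hS : IsClosed (S : Set A))
    {d : D} (hd : IsSelfAdjoint d) (h : ∃ s ∈ S, π s = d) {f : ℝ → ℝ} (hf : Continuous f)
    (h0 : f 0 = 0) : ∃ s ∈ S, π s = cfc f d := by
  obtain ⟨s, hs, hs', rfl⟩ := exists_sa_lift π hd h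
  exact ⟨cfc f s, cfc_mem_sub hS hf h0 hs, hom_cfc π hf hs'⟩

lemma exists_orth_lift (π : A →⋆ₐ[ℂ] D) {ι : Type*} (a : ι → D) (s : Finset ι) :
    ∀ (S : NonUnitalStarSubalgebra ℂ A), IsClosed (S : Set A) → (∀ i ∈ s, 0 ≤ a i) →
      (∀ i ∈ s, ∃ x ∈ S, π x = a i) → (∀ i ∈ s, ∀ j ∈ s, i ≠ j → a i * a j = 0) →
      ∃ b : ι → A, (∀ i ∈ s, b i ∈ S ∧ IsSelfAdjoint (b i) ∧ π (b i) = a i) ∧
        ∀ i ∈ s, ∀ j ∈ s, i ≠ j → b i * b j = 0 := by
  classical
  induction s using Finset.induction_on with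
  | empty => intro S _ _ _ _; exact ⟨fun _ => 0, by simp, by simp⟩
  | insert i s hi ih =>
    intro S hS h0 hl ho
    have h0' : 0 ≤ ∑ j ∈ s, a j := Finset.sum_nonneg fun j hj => h0 j (by simp [hj])
    have hsum : ∃ x ∈ S, π x = a i - ∑ j ∈ s, a j := by
      choose! x hx1 hx2 using hl
      refine ⟨x i - ∑ j ∈ s, x j, sub_mem (hx1 i (by simp))
        (sum_mem fun j hj => hx1 j (by simp [hj])), ?_⟩
      rw [map_sub, map_sum, hx2 i (by simp)]
      congr 1
      exact Finset.sum_congr rfl fun j hj => hx2 j (by simp [hj])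
    obtain ⟨y, hyS, hy, hπy⟩ := exists_sa_lift π
      ((h0 i (by simp)).isSelfAdjoint.sub h0'.isSelfAdjoint) hsum
    have hor : a i * ∑ j ∈ s, a j = 0 := by
      rw [Finset.mul_sum]
      exact Finset.sum_eq_zero fun j hj => ho i (by simp) j (by simp [hj])
        (by rintro rfl; exact hi hj)
    obtain ⟨u1, u2⟩ := CFC.posPart_negPart_unique hπy hor (h0 i (by simp)) h0'
    have p1 : π (y⁺) = a i := by
      rw [← u1, CFC.posPart_def, CFC.posPart_def]
      exact NonUnitalStarAlgHomClass.map_cfcₙ π _ y (hφ := hom_cont π) (hφa := hy.map π)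
    have p2 : π (y⁻) = ∑ j ∈ s, a j := by
      rw [← u2, CFC.negPart_def, CFC.negPart_def]
      exact NonUnitalStarAlgHomClass.map_cfcₙ π _ y (hφ := hom_cont π) (hφa := hy.map π)
    have m1 : y⁺ ∈ S := by rw [CFC.posPart_def]; exact cfcₙ_mem (𝕜' := ℂ) _ hyS
    have m2 : y⁻ ∈ S := by rw [CFC.negPart_def]; exact cfcₙ_mem (𝕜' := ℂ) _ hyS
    have hp : IsSelfAdjoint (y⁺) := (CFC.posPart_nonneg y).isSelfAdjoint
    have hS' : IsClosed ((S ⊓ ann (y⁺) hp : NonUnitalStarSubalgebra ℂ A) : Set A) :=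
      hS.inter (isClosed_ann _ _)
    obtain ⟨b, hb1, hb2⟩ := ih (S ⊓ ann (y⁺) hp) hS' (fun j hj => h0 j (by simp [hj])) (by
      intro j hj
      obtain ⟨x, hxS, hx⟩ := hl j (by simp [hj])
      have haj : 0 ≤ a j := h0 j (by simp [hj])
      have e1 : (∑ k ∈ s, a k) * a j = a j * a j := by
        rw [Finset.sum_mul, Finset.sum_eq_single j]
        · intro k hk hkj
          exact ho k (by simp [hk]) j (by simp [hj]) hkj
        · intro h; exact absurd hj h
      have e2 : a j * (∑ k ∈ s, a k) = a j * a j := by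
        have := congrArg star e1
        rwa [star_mul, star_mul, haj.star_eq, h0'.star_eq] at this
      have h3 : ∃ z ∈ S ⊓ ann (y⁺) hp, π z = a j ^ 3 := by
        refine ⟨y⁻ * x * y⁻, ⟨mul_mem (mul_mem m2 hxS) m2, ?_, ?_⟩, ?_⟩
        · rw [← mul_assoc, ← mul_assoc, CFC.posPart_mul_negPart, zero_mul, zero_mul]
        · rw [mul_assoc, CFC.negPart_mul_posPart, mul_zero]
        · rw [map_mul, map_mul, p2, hx, e1, mul_assoc, e2, pow_three]
      have h4 := cfc_lift π hS' (haj.isSelfAdjoint.pow 3) h3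
        (f := fun t : ℝ => |t| ^ ((3 : ℝ)⁻¹))
        (continuous_abs.rpow_const fun _ => Or.inr (by norm_num)) (by simp)
      have h5 : cfc (fun t : ℝ => |t| ^ ((3 : ℝ)⁻¹)) (a j ^ 3) = a j := by
        rw [← cfc_comp_pow _ _ (a j)
          (continuous_abs.rpow_const fun _ => Or.inr (by norm_num)).continuousOn]
        conv_rhs => rw [← cfc_id' ℝ (a j)]
        refine cfc_congr fun t ht => ?_
        have := spectrum_nonneg_of_nonneg haj ht
        rw [abs_of_nonneg (by positivity)]
        exact_mod_cast Real.pow_rpow_inv_natCast this (n := 3) (by norm_num)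
      rwa [h5] at h4)
      (fun j hj k hk => ho j (by simp [hj]) k (by simp [hk]))
    refine ⟨Function.update b i (y⁺), fun j hj => ?_, fun j hj k hk hjk => ?_⟩
    · rcases Finset.mem_insert.1 hj with rfl | hj'
      · simpa using ⟨m1, hp, p1⟩
      · rw [Function.update_of_ne (by rintro rfl; exact hi hj')]
        exact ⟨(hb1 j hj').1.1, (hb1 j hj').2⟩
    · rcases Finset.mem_insert.1 hj with rfl | hj' <;> rcases Finset.mem_insert.1 hk with rfl | hk'
      · exact absurd rfl hjk
      · rw [Function.update_self, Function.update_of_ne hjk.symm]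
        exact (hb1 k hk').1.2.1
      · rw [Function.update_self, Function.update_of_ne hjk]
        exact (hb1 j hj').1.2.2
      · rw [Function.update_of_ne (by rintro rfl; exact hi hj'),
          Function.update_of_ne (by rintro rfl; exact hi hk')]
        exact hb2 j hj' k hk' hjk

lemma equalize {T T' : A} (hT : 0 ≤ T) (hT' : 0 ≤ T') :
    star (sq T' * sq (star (sq T * sq T') * (sq T * sq T'))) * T
        * (sq T' * sq (star (sq T * sq T') * (sq T * sq T')))
      = star (sq T * (sq T * sq T')) * T' * (sq T * (sq T * sq T')) := by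
  set m := sq T * sq T' with hm
  set n := sq (star m * m) with hn
  have h1 : n * n = star m * m := sq_mul_sq (star_mul_self_nonneg m)
  have h2 : star m * m = sq T' * T * sq T' := by
    rw [hm, star_mul, sq_star, sq_star, mul_assoc, ← mul_assoc (sq T), sq_mul_sq hT, mul_assoc]
  have h3 : m * star m = sq T * T' * sq T := by
    rw [hm, star_mul, sq_star, sq_star, mul_assoc, ← mul_assoc (sq T'), sq_mul_sq hT', mul_assoc]
  have h4 : star n = n := sq_star _
  rw [star_mul, star_mul, h4, sq_star, sq_star]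
  calc n * sq T' * T * (sq T' * n) = n * (sq T' * T * sq T') * n := by simp only [mul_assoc]
    _ = (n * n) * (n * n) := by rw [← h2, ← h1]; simp only [mul_assoc]
    _ = star m * (sq T * T' * sq T) * m := by rw [h1, ← h3]; simp only [mul_assoc]
    _ = _ := by simp only [mul_assoc]

lemma exists_rel_lift (π : A →⋆ₐ[ℂ] D) {S : NonUnitalStarSubalgebra ℂ A}
    (hS : IsClosed (S : Set A)) {ι κ : Type*} (cl : ι → κ) (w h : ι → D) (hh : ∀ i, 0 ≤ h i)
    (hw : ∀ i, star (w i) * w i = h i ^ 2) (hcl : ∀ i j, cl i = cl j → h i = h j)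
    (y₀ : ι → A) (h1 : ∀ i, y₀ i ∈ S) (h2 : ∀ i j, i ≠ j → star (y₀ i) * y₀ j = 0)
    (h3 : ∀ i, π (y₀ i) = w i * h i) (K : Finset ι) :
    ∃ (p : ℕ) (y : ι → A), (∀ i, y i ∈ S) ∧ (∀ i j, i ≠ j → star (y i) * y j = 0) ∧
      (∀ i, π (y i) = w i * h i ^ p) ∧
      ∀ i ∈ K, ∀ j ∈ K, cl i = cl j → star (y i) * y i = star (y j) * y j := by
  classical
  induction K using Finset.induction_on with
  | empty => exact ⟨1, y₀, h1, h2, by simpa using h3, by simp⟩
  | insert k K hk ih =>
    obtain ⟨p, y, a1, a2, a3, a4⟩ := ih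
    by_cases hex : ∃ j ∈ K, cl j = cl k
    swap
    · refine ⟨p, y, a1, a2, a3, fun i hi j hj hij => ?_⟩
      rcases Finset.mem_insert.1 hi with rfl | hi' <;> rcases Finset.mem_insert.1 hj with rfl | hj'
      · rfl
      · exact absurd ⟨j, hj', hij.symm⟩ hex
      · exact absurd ⟨i, hi', hij⟩ hex
      · exact a4 i hi' j hj' hij
    obtain ⟨j₀, hj₀, hj₀k⟩ := hex
    let T : ι → A := fun i => star (y i) * y i
    have hT0 : ∀ i, 0 ≤ T i := fun i => star_mul_self_nonneg _
    have hTS : ∀ i, T i ∈ S := fun i => mul_mem (star_mem (a1 i)) (a1 i)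
    have hπT : ∀ i, π (sq (T i)) = h i ^ (p + 1) := by
      intro i
      rw [hom_sq π (hT0 i), ← sq_pow (hh i)]
      congr 1
      simp only [T]
      rw [map_mul, map_star, a3, star_mul, star_pow, (hh i).star_eq, mul_assoc,
        ← mul_assoc (star (w i)), hw, ← pow_add, ← pow_add]
      congr 1
      ring
    let m : A := sq (T j₀) * sq (T k)
    have hmS : m ∈ S := mul_mem (sq_mem hS (hTS _)) (sq_mem hS (hTS _))
    have hπm : π m = h k ^ (2 * (p + 1)) := by
      simp only [m]
      rw [map_mul, hπT, hπT, hcl _ _ hj₀k, ← pow_add]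
      congr 1
      ring
    let z : ι → A := fun i => if i = k then sq (T j₀) * m else
      if i ∈ K ∧ cl i = cl k then sq (T k) * sq (star m * m) else sq (T i) * sq (T i) * sq (T i)
    have hzS : ∀ i, z i ∈ S := by
      intro i
      simp only [z]
      split_ifs
      · exact mul_mem (sq_mem hS (hTS _)) hmS
      · exact mul_mem (sq_mem hS (hTS _)) (sq_mem hS (mul_mem (star_mem hmS) hmS))
      · exact mul_mem (mul_mem (sq_mem hS (hTS _)) (sq_mem hS (hTS _))) (sq_mem hS (hTS _))
    have hπz : ∀ i, π (z i) = h i ^ (3 * (p + 1)) := by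
      intro i
      simp only [z]
      split_ifs with c1 c2
      · rw [map_mul, hπT, hπm, hcl _ _ hj₀k, c1, ← pow_add]
        congr 1
        ring
      · rw [map_mul, hπT, hom_sq π (star_mul_self_nonneg m), map_mul, map_star, hπm, star_pow,
          (hh k).star_eq, ← pow_add, ← two_mul, sq_pow (hh k), hcl _ _ c2.2, ← pow_add]
        congr 1
        ring
      · rw [map_mul, map_mul, hπT, ← pow_add, ← pow_add]
        congr 1
        ring
    have hT' : ∀ i, star (y i * z i) * (y i * z i) = star (z i) * T i * z i := by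
      intro i
      simp only [T, star_mul, mul_assoc]
    refine ⟨p + 3 * (p + 1), fun i => y i * z i, fun i => mul_mem (a1 i) (hzS i),
      fun i j hij => ?_, fun i => ?_, ?_⟩
    · rw [star_mul, mul_assoc, ← mul_assoc (star (y i)), a2 i j hij, zero_mul, mul_zero]
    · rw [map_mul, a3, hπz, mul_assoc, ← pow_add]
    have key : ∀ i ∈ insert k K, cl i = cl k → star (z i) * T i * z i = star (z k) * T k * z k := by
      intro i hi hik
      rcases Finset.mem_insert.1 hi with rfl | hi'
      · rfl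
      have hne : i ≠ k := by rintro rfl; exact hk hi'
      have e : T i = T j₀ := a4 i hi' j₀ hj₀ (hik.trans hj₀k.symm)
      simp only [z, if_neg hne, if_pos (And.intro hi' hik), if_true, e]
      exact equalize (hT0 _) (hT0 _)
    intro i hi j hj hij
    simp only [hT']
    by_cases hik : cl i = cl k
    · rw [key i hi hik, key j hj (hij.symm.trans hik)]
    · have hjk : cl j ≠ cl k := fun h => hik (hij.trans h)
      have n1 : i ≠ k := by rintro rfl; exact hik rfl
      have n2 : j ≠ k := by rintro rfl; exact hjk rfl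
      have e : T i = T j := a4 i ((Finset.mem_insert.1 hi).resolve_left n1) j
        ((Finset.mem_insert.1 hj).resolve_left n2) hij
      simp only [z, if_neg n1, if_neg n2, hik, hjk, and_false, if_false, e]

variable {F : Type*} [CStarAlgebra F]

lemma MU.map_build (M : MU F) (π : A →⋆ₐ[ℂ] D) (w : Fin M.N → A) (x : F) :
    π (M.build w x) = M.build (fun i => π (w i)) x := by
  simp [MU.build_apply, map_star]

theorem exists_oz_lift [FiniteDimensional ℂ F] (π : A →⋆ₐ[ℂ] D)
    {S : NonUnitalStarSubalgebra ℂ A} (hS : IsClosed (S : Set A)) {φ : F →ₗ[ℂ] D} (hφ : OZ φ)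
    (h1 : φ 1 ≤ 1) (hl : ∀ x, ∃ s ∈ S, π s = φ x) {ε : ℝ} (hε : 0 < ε) :
    ∃ ψ : F →ₗ[ℂ] A, OZ ψ ∧ ψ 1 ≤ 1 ∧ (∀ x, ψ x ∈ S) ∧ ∀ x, ‖π (ψ x) - φ x‖ ≤ ε * ‖x‖ := by
  classical
  obtain ⟨M⟩ := exists_MU F
  let w : Fin M.N → D := fun i => φ (M.v i)
  let h : Fin M.N → D := fun i => φ (star (M.v i) * M.v i)
  let c : Fin M.N → D := fun i => φ (M.v i * star (M.v i))
  have hh : ∀ i, 0 ≤ h i := fun i => hφ.cp.proj_nonneg (M.proj i)
  have hh1 : ∀ i, h i ≤ 1 := fun i => by
    letI := CStarAlgebra.spectralOrder F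
    haveI := CStarAlgebra.spectralOrderedRing F
    exact (hφ.cp.mono (M.proj i).le_one).trans h1
  have hw : ∀ i, star (w i) * w i = h i ^ 2 := fun i => by
    simp only [w, h]
    rw [hφ.star_mul_self, pow_two, hφ.mul (star (M.v i) * M.v i), (M.proj i).isIdempotentElem.eq]
  have hcl : ∀ i j, M.cl i = M.cl j → h i = h j := fun i j hij => by
    simp only [h, M.init i j hij]
  obtain ⟨b, hb1, hb2⟩ := exists_orth_lift π c Finset.univ S hS
    (fun i _ => hφ.cp.proj_nonneg (range_proj (M.proj i))) (fun i _ => hl _)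
    (fun i _ j _ hij => hφ.mul_eq_zero (by
      rw [mul_assoc, ← mul_assoc (star (M.v i)), M.orth i j hij, zero_mul, mul_zero]))
  choose u hu1 hu2 using fun i => hl (M.v i)
  obtain ⟨p, y, a1, a2, a3, a4⟩ := exists_rel_lift π hS M.cl w h hh hw hcl (fun i => b i * u i)
    (fun i => mul_mem (hb1 i (by simp)).1 (hu1 i))
    (fun i j hij => by
      rw [star_mul, (hb1 i (by simp)).2.1.star_eq, mul_assoc, ← mul_assoc (b i),
        hb2 i (by simp) j (by simp) hij, zero_mul, mul_zero])
    (fun i => by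
      rw [map_mul, (hb1 i (by simp)).2.2, hu2]
      simp only [c, w, h]
      rw [hφ.mul, hφ.mul (M.v i), mul_assoc]) Finset.univ
  set δ : ℝ := min 1 (ε / ((M.N : ℝ) ^ 2 + 1)) with hδ
  have hδ0 : 0 < δ := by positivity
  set q : ℕ := 2 * (p + 1) with hq
  have hq0 : q ≠ 0 := by omega
  let g : ℝ → ℝ := fun s => (min 1 |s|) ^ ((q : ℝ)⁻¹) / (|s| + δ ^ (q + 1))
  have hg : Continuous g := by
    refine Continuous.div ?_ (by fun_prop) fun s => by positivity
    exact (continuous_const.min continuous_abs).rpow_const fun _ => Or.inr (by positivity)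
  have hg0 : ∀ s, 0 ≤ g s := fun s => by simp only [g]; positivity
  let G : ℝ → ℝ := fun s => Real.sqrt (g s)
  have hG : Continuous G := hg.sqrt
  have hGG : ∀ s, G s * G s = g s := fun s => Real.mul_self_sqrt (hg0 s)
  let T : Fin M.N → A := fun i => star (y i) * y i
  have hT0 : ∀ i, 0 ≤ T i := fun i => star_mul_self_nonneg _
  have hπT : ∀ i, π (T i) = h i ^ q := by
    intro i
    simp only [T]
    rw [map_mul, map_star, a3, star_mul, star_pow, (hh i).star_eq, mul_assoc,
      ← mul_assoc (star (w i)), hw, ← pow_add, ← pow_add]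
    congr 1
    omega
  let y' : Fin M.N → A := fun i => y i * cfc G (T i)
  have hT' : ∀ i, star (y' i) * y' i = cfc G (T i) * T i * cfc G (T i) := by
    intro i
    simp only [y', T, star_mul, mul_assoc, (IsSelfAdjoint.cfc (f := G) (a := _)).star_eq]
  have hrel : M.Rel y' := ⟨fun i j hij => by
      simp only [y']
      rw [star_mul, mul_assoc, ← mul_assoc (star (y i)), a2 i j hij, zero_mul, mul_zero],
    fun i j hij => by
      have : T i = T j := a4 i (by simp) j (by simp) hij
      rw [hT', hT', this]⟩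
  have hy'S : ∀ i, y' i ∈ S := fun i =>
    mul_cfc_mem hS hG (a1 i) (mul_mem (star_mem (a1 i)) (a1 i)) (hT0 i).isSelfAdjoint
  refine ⟨M.build y', hrel.oz, hrel.build_one_le fun i => ?_, fun x => ?_, fun x => ?_⟩
  · have : ‖star (y' i) * y' i‖ ≤ 1 := by
      rw [hT', cfc_mul_id hG (hT0 i).isSelfAdjoint, cfc_mul' (by fun_prop) hG]
      refine norm_cfc_le zero_le_one fun s hs => ?_
      have hs0 := spectrum_nonneg_of_nonneg (hT0 i) hs
      rw [mul_right_comm, hGG, Real.norm_of_nonneg (mul_nonneg (hg0 s) hs0)]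
      simp only [g, abs_of_nonneg hs0]
      rw [div_mul_eq_mul_div, div_le_one (by positivity)]
      have : (min 1 s) ^ ((q : ℝ)⁻¹) ≤ 1 :=
        Real.rpow_le_one (by positivity) (min_le_left _ _) (by positivity)
      nlinarith [pow_pos hδ0 (q + 1)]
    rw [CStarRing.norm_star_mul_self] at this
    nlinarith [norm_nonneg (y' i)]
  · rw [MU.build_apply]
    exact sum_mem fun i _ => sum_mem fun j _ =>
      SMulMemClass.smul_mem _ (mul_mem (hy'S i) (star_mem (hy'S j)))
  · rw [M.map_build]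
    have hπy : ∀ i, π (y' i) = w i * cfc (fun s : ℝ => s ^ p * G (s ^ q)) (h i) := by
      intro i
      simp only [y']
      rw [map_mul, a3, hom_cfc π hG (hT0 i).isSelfAdjoint, hπT,
        ← cfc_comp_pow G q (h i) hG.continuousOn (hh i).isSelfAdjoint,
        ← cfc_pow_id (R := ℝ) (h i) p (hh i).isSelfAdjoint, mul_assoc,
        cfc_mul' (by fun_prop) (by fun_prop)]
    refine (MU.norm_sub_build_le hφ
      (fun i => cfc (fun s : ℝ => s ^ p * G (s ^ q) * (s ^ p * G (s ^ q))) (h i))
      (fun i j hij => ?_) (fun i => IsSelfAdjoint.cfc) hδ0.le (fun i => ?_) x).trans ?_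
    · have hc' : Continuous (fun s : ℝ => s ^ p * G (s ^ q)) := by fun_prop
      rw [hπy, hπy, star_mul, IsSelfAdjoint.cfc.star_eq, ← hcl i j hij, ← cfc_mul' hc' hc']
      simp only [w, mul_assoc]
    · change ‖h i * (cfc _ (h i) * h i - 1)‖ ≤ δ
      have hc' : Continuous (fun s : ℝ => s ^ p * G (s ^ q) * (s ^ p * G (s ^ q))) := by fun_prop
      have hc2 : Continuous (fun s : ℝ => s ^ p * G (s ^ q) * (s ^ p * G (s ^ q)) * s) := by
        fun_prop
      have hc3 : Continuous (fun s : ℝ => s ^ p * G (s ^ q) * (s ^ p * G (s ^ q)) * s - 1) := by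
        fun_prop
      rw [cfc_mul_id hc' (hh i).isSelfAdjoint, ← cfc_const_one ℝ (h i) (hh i).isSelfAdjoint,
        ← cfc_sub _ _ (h i) hc2.continuousOn continuousOn_const,
        id_mul_cfc hc3 (hh i).isSelfAdjoint]
      refine norm_cfc_le hδ0.le fun s hs => ?_
      obtain ⟨hs0, hs1⟩ := spec_mem (hh i) (hh1 i) hs
      have e1 : s * (s ^ p * G (s ^ q) * (s ^ p * G (s ^ q)) * s - 1)
          = s ^ q * g (s ^ q) - s := by
        rw [← hGG, hq]; ring
      have e2 : g (s ^ q) = s / (s ^ q + δ ^ (q + 1)) := by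
        simp only [g]
        rw [abs_of_nonneg (by positivity), min_eq_right (pow_le_one₀ hs0 hs1),
          Real.pow_rpow_inv_natCast hs0 hq0]
      have hd : 0 < s ^ q + δ ^ (q + 1) := by positivity
      have e3 : s ^ q * (s / (s ^ q + δ ^ (q + 1))) - s
          = -(s * δ ^ (q + 1) / (s ^ q + δ ^ (q + 1))) := by
        field_simp
        ring
      rw [e1, e2, e3, norm_neg, Real.norm_of_nonneg (by positivity), div_le_iff₀ hd]
      rcases le_total s δ with hsd | hsd
      · nlinarith [pow_pos hδ0 (q + 1), pow_nonneg hs0 q]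
      · have : δ ^ q ≤ s ^ q := pow_le_pow_left₀ hδ0.le hsd q
        rw [pow_succ] at *
        nlinarith [pow_pos hδ0 q, mul_pos (pow_pos hδ0 q) hδ0]
    · refine mul_le_mul_of_nonneg_right ?_ (norm_nonneg x)
      have : δ ≤ ε / ((M.N : ℝ) ^ 2 + 1) := min_le_right _ _
      rw [le_div_iff₀ (by positivity)] at this
      nlinarith

end Pool.Agent.Lib.MP_30b5b4_an
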