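import Pool.Agent.Lib.MP_30b5b4_an.FC

/-! Products and ultraproducts of unital C*-algebras. -/

open scoped CStarAlgebra ComplexOrder ENNReal Topology
open Filter

set_option linter.unusedSectionVars false
set_option linter.style.haveILetI false

namespace Pool.Agent.Lib.MP_30b5b4_an

universe u v

variable (A : ℕ → Type u) [∀ k, CStarAlgebra (A k)]

def Bdd : Type u := lp A ∞

lemma norm_one_le' (B : Type*) [CStarAlgebra B] : ‖(1 : B)‖ ≤ 1 := (IsStarProjection.one B).norm_le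

noncomputable instance : CStarAlgebra (Bdd A) :=
  letI nu : NonUnitalCStarAlgebra (Bdd A) := inferInstanceAs (NonUnitalCStarAlgebra (lp A ∞))
  letI r : Ring (Bdd A) :=
    { nu.toNonUnitalNormedRing.toNonUnitalRing with
      one := ⟨fun _ => 1, memℓp_infty ⟨1, by rintro _ ⟨k, rfl⟩; exact norm_one_le' _⟩⟩
      one_mul := fun x => lp.ext (funext fun k => one_mul (x.1 k))
      mul_one := fun x => lp.ext (funext fun k => mul_one (x.1 k)) }
  letI nr : NormedRing (Bdd A) := { r, nu.toNonUnitalNormedRing with }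
  letI al : Algebra ℂ (Bdd A) := Algebra.ofModule smul_mul_assoc mul_smul_comm
  { nr, nu, al with norm_smul_le := norm_smul_le }

noncomputable instance : PartialOrder (Bdd A) := CStarAlgebra.spectralOrder _
instance : StarOrderedRing (Bdd A) := CStarAlgebra.spectralOrderedRing _

variable {A}

namespace Bdd

noncomputable def ev (k : ℕ) : Bdd A →⋆ₐ[ℂ] A k where
  toFun x := x.1 k
  map_one' := rfl
  map_mul' _ _ := rfl
  map_zero' := rfl
  map_add' _ _ := rfl
  commutes' c := by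
    rw [Algebra.algebraMap_eq_smul_one, Algebra.algebraMap_eq_smul_one]; rfl
  map_star' _ := rfl

def of (x : ∀ k, A k) (C : ℝ) (h : ∀ k, ‖x k‖ ≤ C) : Bdd A :=
  ⟨x, memℓp_infty ⟨C, by rintro _ ⟨k, rfl⟩; exact h k⟩⟩

@[simp] lemma ev_of (x : ∀ k, A k) (C : ℝ) (h : ∀ k, ‖x k‖ ≤ C) (k : ℕ) :
    ev k (of x C h) = x k := rfl

lemma ext {x y : Bdd A} (h : ∀ k, ev k x = ev k y) : x = y := lp.ext (funext h)

lemma norm_ev_le (k : ℕ) (x : Bdd A) : ‖ev k x‖ ≤ ‖x‖ :=
  lp.norm_apply_le_norm ENNReal.top_ne_zero x k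

lemma norm_le {x : Bdd A} {C : ℝ} (h : ∀ k, ‖ev k x‖ ≤ C) : ‖x‖ ≤ C :=
  lp.norm_le_of_forall_le' C h

lemma isSelfAdjoint {x : Bdd A} (h : ∀ k, IsSelfAdjoint (ev k x)) : IsSelfAdjoint x :=
  ext fun k => by rw [map_star, (h k).star_eq]

lemma nonneg [∀ k, PartialOrder (A k)] [∀ k, StarOrderedRing (A k)] {x : Bdd A}
    (h : ∀ k, 0 ≤ ev k x) : 0 ≤ x := by
  have hx : IsSelfAdjoint x := isSelfAdjoint fun k => (h k).isSelfAdjoint
  have : x = sq x * sq x := ext fun k => by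
    rw [map_mul, sq, hom_cfc (ev k) Real.continuous_sqrt hx]
    exact (sq_mul_sq (h k)).symm
  rw [this]
  exact (sq_nonneg' x).isSelfAdjoint.mul_self_nonneg

lemma le [∀ k, PartialOrder (A k)] [∀ k, StarOrderedRing (A k)] {x y : Bdd A}
    (h : ∀ k, ev k x ≤ ev k y) : x ≤ y :=
  sub_nonneg.1 (nonneg fun k => by rw [map_sub]; exact sub_nonneg.2 (h k))

end Bdd

noncomputable def om : Ultrafilter ℕ := hyperfilter ℕ

lemma om_le : (om : Filter ℕ) ≤ atTop := Nat.hyperfilter_le_atTop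

noncomputable def unorm (x : Bdd A) : ℝ := limUnder (om : Filter ℕ) fun k => ‖Bdd.ev k x‖

lemma tendsto_unorm (x : Bdd A) : Tendsto (fun k => ‖Bdd.ev k x‖) om (𝓝 (unorm x)) := by
  apply tendsto_nhds_limUnder
  obtain ⟨a, -, ha⟩ := (isCompact_Icc (a := (0 : ℝ)) (b := ‖x‖)).ultrafilter_le_nhds
    (om.map fun k => ‖Bdd.ev k x‖) (by
      rw [Ultrafilter.coe_map, le_principal_iff, mem_map]
      exact univ_mem' fun k => ⟨norm_nonneg _, Bdd.norm_ev_le k x⟩)
  exact ⟨a, ha⟩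

lemma unorm_nonneg (x : Bdd A) : 0 ≤ unorm x :=
  ge_of_tendsto' (tendsto_unorm x) fun _ => norm_nonneg _

lemma unorm_le (x : Bdd A) : unorm x ≤ ‖x‖ :=
  le_of_tendsto' (tendsto_unorm x) fun k => Bdd.norm_ev_le k x

variable (A)

def Pre : Type u := Bdd A

noncomputable instance : Ring (Pre A) := inferInstanceAs (Ring (Bdd A))
noncomputable instance : StarRing (Pre A) := inferInstanceAs (StarRing (Bdd A))
noncomputable instance : Algebra ℂ (Pre A) := inferInstanceAs (Algebra ℂ (Bdd A))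
instance : StarModule ℂ (Pre A) := inferInstanceAs (StarModule ℂ (Bdd A))

noncomputable def preSeminorm : RingSeminorm (Pre A) where
  toFun x := unorm (A := A) x
  map_zero' := tendsto_nhds_unique (tendsto_unorm (0 : Bdd A)) (by simp)
  add_le' x y := le_of_tendsto_of_tendsto' (tendsto_unorm (A := A) (x + y))
    ((tendsto_unorm (A := A) x).add (tendsto_unorm (A := A) y)) fun k => norm_add_le _ _
  neg' x := tendsto_nhds_unique (tendsto_unorm (A := A) (-x))
    ((tendsto_unorm (A := A) x).congr fun k => (norm_neg _).symm)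
  mul_le' x y := le_of_tendsto_of_tendsto' (tendsto_unorm (A := A) (x * y))
    ((tendsto_unorm (A := A) x).mul (tendsto_unorm (A := A) y)) fun k => norm_mul_le _ _

noncomputable instance : SeminormedRing (Pre A) := (preSeminorm A).toSeminormedRing

noncomputable instance : NormedAlgebra ℂ (Pre A) where
  norm_smul_le c x := le_of_tendsto_of_tendsto' (tendsto_unorm (A := A) (c • x))
    ((tendsto_unorm (A := A) x).const_mul ‖c‖) fun _ => norm_smul_le _ _

lemma Pre.norm_star (x : Pre A) : ‖star x‖ = ‖x‖ :=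
  tendsto_nhds_unique (tendsto_unorm (A := A) (star x))
    ((tendsto_unorm (A := A) x).congr fun _ => (_root_.norm_star _).symm)

def Ult : Type u := SeparationQuotient (Pre A)

noncomputable instance : NormedRing (Ult A) :=
  inferInstanceAs (NormedRing (SeparationQuotient (Pre A)))
noncomputable instance : NormedAlgebra ℂ (Ult A) :=
  inferInstanceAs (NormedAlgebra ℂ (SeparationQuotient (Pre A)))

noncomputable def Ult.mk0 (x : Bdd A) : Ult A := SeparationQuotient.mk (X := Pre A) x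

lemma Ult.mk0_surj : Function.Surjective (Ult.mk0 A) :=
  SeparationQuotient.surjective_mk (X := Pre A)

lemma Ult.norm_mk0 (x : Bdd A) : ‖Ult.mk0 A x‖ = unorm x := rfl

noncomputable instance : Star (Ult A) where
  star := SeparationQuotient.lift (fun x : Pre A => SeparationQuotient.mk (X := Pre A) (star x))
    fun x y h => by
      apply SeparationQuotient.mk_eq_mk.2
      rw [Metric.inseparable_iff, dist_eq_norm] at h ⊢
      rw [← h, ← Pre.norm_star, star_sub, star_star, star_star]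

lemma Ult.star_mk0 (x : Bdd A) : star (Ult.mk0 A x) = Ult.mk0 A (star x) := rfl
lemma Ult.mk0_add (x y : Bdd A) : Ult.mk0 A (x + y) = Ult.mk0 A x + Ult.mk0 A y := rfl
lemma Ult.mk0_mul (x y : Bdd A) : Ult.mk0 A (x * y) = Ult.mk0 A x * Ult.mk0 A y := rfl
lemma Ult.mk0_smul (c : ℂ) (x : Bdd A) : Ult.mk0 A (c • x) = c • Ult.mk0 A x := rfl

noncomputable instance : StarRing (Ult A) where
  star_involutive x := by
    obtain ⟨x, rfl⟩ := Ult.mk0_surj A x
    rw [Ult.star_mk0, Ult.star_mk0, star_star]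
  star_mul x y := by
    obtain ⟨x, rfl⟩ := Ult.mk0_surj A x
    obtain ⟨y, rfl⟩ := Ult.mk0_surj A y
    rw [← Ult.mk0_mul, Ult.star_mk0, Ult.star_mk0, Ult.star_mk0, star_mul, Ult.mk0_mul]
  star_add x y := by
    obtain ⟨x, rfl⟩ := Ult.mk0_surj A x
    obtain ⟨y, rfl⟩ := Ult.mk0_surj A y
    rw [← Ult.mk0_add, Ult.star_mk0, Ult.star_mk0, Ult.star_mk0, star_add, Ult.mk0_add]

instance : StarModule ℂ (Ult A) where
  star_smul c x := by
    obtain ⟨x, rfl⟩ := Ult.mk0_surj A x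
    rw [← Ult.mk0_smul, Ult.star_mk0, Ult.star_mk0, star_smul, Ult.mk0_smul]

instance : CStarRing (Ult A) where
  norm_mul_self_le x := by
    obtain ⟨x, rfl⟩ := Ult.mk0_surj A x
    rw [Ult.star_mk0, ← Ult.mk0_mul, Ult.norm_mk0, Ult.norm_mk0]
    exact le_of_tendsto_of_tendsto' ((tendsto_unorm x).mul (tendsto_unorm x))
      (tendsto_unorm (star x * x)) fun k => by
        simp only [map_mul, map_star, CStarRing.norm_star_mul_self, le_refl]

noncomputable def Ult.mkL : Bdd A →ₗ[ℂ] Ult A where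
  toFun := Ult.mk0 A
  map_add' := Ult.mk0_add A
  map_smul' := Ult.mk0_smul A

lemma Ult.exists_lift_norm (x : Ult A) {ε : ℝ} (hε : 0 < ε) :
    ∃ y : Bdd A, Ult.mk0 A y = x ∧ ‖y‖ ≤ ‖x‖ + ε := by
  classical
  obtain ⟨x, rfl⟩ := Ult.mk0_surj A x
  have h0 : 0 ≤ unorm x + ε := by linarith [unorm_nonneg x]
  let y : Bdd A := Bdd.of (fun k => if ‖Bdd.ev k x‖ ≤ unorm x + ε then Bdd.ev k x else 0)
    (unorm x + ε) fun k => by split_ifs with h <;> simp [h, h0]
  refine ⟨y, ?_, Bdd.norm_le fun k => ?_⟩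
  · rw [← sub_eq_zero, ← norm_eq_zero]
    change ‖Ult.mkL A y - Ult.mkL A x‖ = 0
    rw [← map_sub]
    refine tendsto_nhds_unique (tendsto_unorm (y - x)) (tendsto_const_nhds.congr' ?_)
    filter_upwards [(tendsto_unorm x).eventually (ge_mem_nhds (lt_add_of_pos_right _ hε))] with k hk
    simp [y, hk]
  · simp only [y, Bdd.ev_of, Ult.norm_mk0]
    split_ifs with h <;> simp [h, h0]

instance : CompleteSpace (Ult A) := by
  apply NormedAddCommGroup.completeSpace_of_summable_imp_tendsto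
  intro f hf
  choose y hy1 hy2 using fun n => Ult.exists_lift_norm A (f n) (ε := (1 / 2 : ℝ) ^ n) (by positivity)
  have h1 : Summable fun n => ‖y n‖ :=
    Summable.of_nonneg_of_le (fun _ => norm_nonneg _) hy2 (hf.add summable_geometric_two)
  have hc : Continuous (Ult.mkL A) :=
    AddMonoidHomClass.continuous_of_bound _ 1 fun x => by
      rw [one_mul]; exact unorm_le x
  refine ⟨Ult.mkL A (∑' n, y n), ?_⟩
  have h2 := (hc.tendsto _).comp h1.of_norm.hasSum.tendsto_sum_nat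
  refine h2.congr fun n => ?_
  simp only [Function.comp, map_sum]
  exact Finset.sum_congr rfl fun i _ => hy1 i

noncomputable instance : CStarAlgebra (Ult A) where

noncomputable instance : PartialOrder (Ult A) := CStarAlgebra.spectralOrder _
instance : StarOrderedRing (Ult A) := CStarAlgebra.spectralOrderedRing _

variable {A}

namespace Ult

noncomputable def mk : Bdd A →⋆ₐ[ℂ] Ult A where
  toFun := mk0 A
  map_one' := rfl
  map_mul' := mk0_mul A
  map_zero' := rfl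
  map_add' := mk0_add A
  commutes' c := by
    rw [Algebra.algebraMap_eq_smul_one, Algebra.algebraMap_eq_smul_one]; rfl
  map_star' _ := rfl

lemma surj (x : Ult A) : ∃ y, mk y = x := mk0_surj A x

lemma tendsto_norm (x : Bdd A) : Tendsto (fun k => ‖Bdd.ev k x‖) om (𝓝 ‖mk x‖) := tendsto_unorm x

lemma norm_le_of_eventually {x : Bdd A} {r : ℝ} (h : ∀ᶠ k in (om : Filter ℕ), ‖Bdd.ev k x‖ ≤ r) :
    ‖mk x‖ ≤ r := le_of_tendsto (tendsto_norm x) h

lemma eventually_lt {x : Bdd A} {r : ℝ} (h : ‖mk x‖ < r) :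
    ∀ᶠ k in (om : Filter ℕ), ‖Bdd.ev k x‖ < r := (tendsto_norm x).eventually (gt_mem_nhds h)

lemma mk_eq_zero {x : Bdd A} (h : Tendsto (fun k => ‖Bdd.ev k x‖) om (𝓝 0)) : mk x = 0 :=
  norm_eq_zero.1 (tendsto_nhds_unique (tendsto_norm x) h)

lemma mk_eq_zero_of_le {x : Bdd A} {f : ℕ → ℝ} (hf : Tendsto f om (𝓝 0))
    (h : ∀ k, ‖Bdd.ev k x‖ ≤ f k) : mk x = 0 :=
  mk_eq_zero (squeeze_zero (fun _ => norm_nonneg _) h hf)

lemma tendsto_inv : Tendsto (fun k : ℕ => 1 / ((k : ℝ) + 1)) om (𝓝 0) :=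
  tendsto_one_div_add_atTop_nhds_zero_nat.mono_left om_le

lemma mk_eq_of_le {x y : Bdd A} (C : ℝ)
    (h : ∀ k, ‖Bdd.ev k x - Bdd.ev k y‖ ≤ C * (1 / ((k : ℝ) + 1))) : mk x = mk y := by
  rw [← sub_eq_zero, ← map_sub]
  exact mk_eq_zero_of_le (by simpa using tendsto_inv.const_mul C) (by simpa using h)

lemma sa_lift {x : Ult A} (hx : IsSelfAdjoint x) : ∃ y, IsSelfAdjoint y ∧ mk y = x := by
  obtain ⟨y, rfl⟩ := surj x
  refine ⟨(2⁻¹ : ℂ) • (y + star y), by simp [IsSelfAdjoint, add_comm], ?_⟩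
  rw [map_smul, map_add, map_star, hx.star_eq, ← two_smul ℂ, smul_smul]
  simp

lemma nonneg_lift {x : Ult A} (hx : 0 ≤ x) : ∃ y, 0 ≤ y ∧ mk y = x := by
  obtain ⟨s, rfl⟩ := exists_star_mul hx
  obtain ⟨y, rfl⟩ := surj s
  exact ⟨star y * y, star_mul_self_nonneg _, by rw [map_mul, map_star]⟩

end Ult

variable {B : ℕ → Type v} [∀ k, CStarAlgebra (B k)]

section maps
variable {E : Type*} [NormedAddCommGroup E] [NormedSpace ℂ E]

noncomputable def Bdd.lift (T : ∀ k, E →ₗ[ℂ] B k) (h : ∀ k a, ‖T k a‖ ≤ ‖a‖) : E →ₗ[ℂ] Bdd B where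
  toFun a := Bdd.of (fun k => T k a) ‖a‖ fun k => h k a
  map_add' x y := Bdd.ext fun k => by simp
  map_smul' c x := Bdd.ext fun k => by simp

@[simp] lemma Bdd.ev_lift (T : ∀ k, E →ₗ[ℂ] B k) (h : ∀ k a, ‖T k a‖ ≤ ‖a‖) (k : ℕ) (a : E) :
    Bdd.ev k (Bdd.lift T h a) = T k a := rfl

end maps

noncomputable def Bdd.map (T : ∀ k, A k →ₗ[ℂ] B k) (h : ∀ k a, ‖T k a‖ ≤ ‖a‖) :
    Bdd A →ₗ[ℂ] Bdd B where
  toFun a := Bdd.of (fun k => T k (Bdd.ev k a)) ‖a‖ fun k => (h k _).trans (Bdd.norm_ev_le k a)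
  map_add' x y := Bdd.ext fun k => by simp
  map_smul' c x := Bdd.ext fun k => by simp

@[simp] lemma Bdd.ev_map (T : ∀ k, A k →ₗ[ℂ] B k) (h : ∀ k a, ‖T k a‖ ≤ ‖a‖) (k : ℕ) (a : Bdd A) :
    Bdd.ev k (Bdd.map T h a) = T k (Bdd.ev k a) := rfl

lemma Ult.exists_map (T : ∀ k, A k →ₗ[ℂ] B k) (h : ∀ k a, ‖T k a‖ ≤ ‖a‖) :
    ∃ T' : Ult A →ₗ[ℂ] Ult B, ∀ x, T' (Ult.mk x) = Ult.mk (Bdd.map T h x) := by
  let f : Bdd A →ₗ[ℂ] Ult A := (Ult.mk : Bdd A →⋆ₐ[ℂ] Ult A).toAlgHom.toLinearMap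
  let g : Bdd A →ₗ[ℂ] Ult B := (Ult.mk : Bdd B →⋆ₐ[ℂ] Ult B).toAlgHom.toLinearMap ∘ₗ Bdd.map T h
  have hs : Function.Surjective f := Ult.surj
  have hk : LinearMap.ker f ≤ LinearMap.ker g := by
    intro x hx
    have h1 : Ult.mk x = 0 := hx
    have h2 := Ult.tendsto_norm x
    rw [h1, norm_zero] at h2
    exact Ult.mk_eq_zero_of_le h2 fun k => h k _
  refine ⟨(LinearMap.ker f).liftQ g hk ∘ₗ (f.quotKerEquivOfSurjective hs).symm.toLinearMap,
    fun x => ?_⟩
  have : (f.quotKerEquivOfSurjective hs).symm (Ult.mk x) = Submodule.Quotient.mk x := by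
    rw [LinearEquiv.symm_apply_eq]; rfl
  simp only [LinearMap.comp_apply, LinearEquiv.coe_coe, this, Submodule.liftQ_apply]
  rfl

section cp
variable [∀ k, PartialOrder (B k)] [∀ k, StarOrderedRing (B k)]

lemma Bdd.isCP {E : Type*} [NonUnitalCStarAlgebra E] {T : E →ₗ[ℂ] Bdd B} (T' : ∀ k, E →ₗ[ℂ] B k)
    (h : ∀ k a, Bdd.ev k (T a) = T' k a) (hT : ∀ k, IsCP (T' k)) : IsCP T := by
  intro n a b
  refine Bdd.nonneg fun k => ?_
  simpa [map_sum, map_star, h] using hT k n a fun i => Bdd.ev k (b i)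

lemma Ult.exists_cp_map (T : ∀ k, A k →ₗ[ℂ] B k) (h : ∀ k a, ‖T k a‖ ≤ ‖a‖)
    (hT : ∀ k, IsCP (T k)) :
    ∃ T' : Ult A →ₗ[ℂ] Ult B, IsCP T' ∧ (∀ x, ‖T' x‖ ≤ ‖x‖) ∧
      ∀ x, T' (Ult.mk x) = Ult.mk (Bdd.map T h x) := by
  obtain ⟨T', hT'⟩ := Ult.exists_map T h
  refine ⟨T', fun n a b => ?_, fun x => ?_, hT'⟩
  · choose a' ha' using fun i => Ult.surj (a i)
    choose b' hb' using fun i => Ult.surj (b i)
    have : 0 ≤ ∑ i, ∑ j, star (b' i) * Bdd.map T h (star (a' i) * a' j) * b' j := by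
      refine Bdd.nonneg fun k => ?_
      simpa [map_sum, map_star] using hT k n (fun i => Bdd.ev k (a' i)) fun i => Bdd.ev k (b' i)
    have := hom_nonneg Ult.mk this
    simpa [map_sum, map_star, ← hT', ha', hb'] using this
  · obtain ⟨x, rfl⟩ := Ult.surj x
    rw [hT']
    exact le_of_tendsto_of_tendsto' (Ult.tendsto_norm _) (Ult.tendsto_norm x) fun k => h k _

end cp

section const
variable {C : Type u} [CStarAlgebra C]

noncomputable def cst : C →⋆ₐ[ℂ] Bdd (fun _ : ℕ => C) where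
  toFun a := Bdd.of (fun _ => a) ‖a‖ fun _ => le_rfl
  map_one' := Bdd.ext fun k => by simp
  map_mul' _ _ := Bdd.ext fun k => by simp
  map_zero' := Bdd.ext fun k => by simp
  map_add' _ _ := Bdd.ext fun k => by simp
  commutes' c := Bdd.ext fun k => by simp [AlgHomClass.commutes]
  map_star' _ := Bdd.ext fun k => by simp [map_star]

@[simp] lemma ev_cst (k : ℕ) (a : C) : Bdd.ev k (cst a) = a := rfl

noncomputable def dg : C →⋆ₐ[ℂ] Ult (fun _ : ℕ => C) := Ult.mk.comp cst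

lemma dg_apply (a : C) : dg a = Ult.mk (cst a) := rfl

end const

lemma eps_test {Y : ℕ → Type*} (f : ∀ k, Y k → ℝ) (hf : ∀ k y, 0 ≤ f k y)
    (h : ∀ ε > 0, ∃ y : ∀ k, Y k, ∀ᶠ k in (om : Filter ℕ), f k (y k) ≤ ε) :
    ∃ y : ∀ k, Y k, Tendsto (fun k => f k (y k)) om (𝓝 0) := by
  obtain ⟨y0, -⟩ := h 1 one_pos
  have : ∀ k, ∃ y, ∀ z, f k y ≤ f k z + 1 / ((k : ℝ) + 1) := by
    intro k
    have hb : BddBelow (Set.range (f k)) := ⟨0, by rintro _ ⟨y, rfl⟩; exact hf k y⟩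
    haveI : Nonempty (Y k) := ⟨y0 k⟩
    obtain ⟨y, hy⟩ := exists_lt_of_ciInf_lt (f := f k)
      (lt_add_of_pos_right _ (show (0 : ℝ) < 1 / ((k : ℝ) + 1) by positivity))
    exact ⟨y, fun z => by linarith [ciInf_le hb z]⟩
  choose y hy using this
  refine ⟨y, ?_⟩
  rw [Metric.tendsto_nhds]
  intro ε hε
  obtain ⟨z, hz⟩ := h (ε / 2) (by positivity)
  filter_upwards [hz, Ult.tendsto_inv.eventually (gt_mem_nhds (show (0 : ℝ) < ε / 2 by positivity))]
    with k h1 h2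
  rw [Real.dist_0_eq_abs, abs_of_nonneg (hf _ _)]
  linarith [hy k (z k)]

end Pool.Agent.Lib.MP_30b5b4_an
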