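import Pool.Agent.Lib.MP_30b5b4_an.DefsDr
import Pool.Agent.Lib.MP_30b5b4_an.Lift
import Pool.Agent.Lib.MP_30b5b4_an.Ultra

/-! Colours: the internal form of the approximations. -/

open scoped CStarAlgebra ComplexOrder

set_option linter.unusedSectionVars false
set_option linter.style.haveILetI false

namespace Pool.Agent.Lib.MP_30b5b4_an

section general
variable {U : Type*} [CStarAlgebra U] {B : Type*} [CStarAlgebra B] [PartialOrder B]
  [StarOrderedRing B]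

lemma le_one_of_norm {b : B} (h0 : 0 ≤ b) (h : ‖b‖ ≤ 1) : b ≤ 1 := by
  simpa using (CStarAlgebra.norm_le_iff_le_algebraMap _ zero_le_one h0).1 h

lemma norm_le_one_of {b : B} (h0 : 0 ≤ b) (h : b ≤ 1) : ‖b‖ ≤ 1 :=
  (CStarAlgebra.norm_le_iff_le_algebraMap _ zero_le_one h0).2 (by simpa using h)

lemma IsCP.ks {φ : U →ₗ[ℂ] B} (h : IsCP φ) (h1 : φ 1 ≤ 1) (a : U) :
    star (φ a) * φ a ≤ φ (star a * a) := by
  have h2 := h.two 1 a (-φ a) 1
  simp only [star_one, one_mul, mul_one, star_neg, neg_mul, mul_neg, neg_neg, h.map_star] at h2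
  have h3 := star_left_conjugate_le_conjugate h1 (φ a)
  rw [mul_one] at h3
  rw [← sub_nonneg] at h3 ⊢
  convert add_nonneg h2 h3 using 1
  abel

lemma IsCP.smul {E : Type*} [NonUnitalCStarAlgebra E] {φ ψ : E →ₗ[ℂ] B} (h : IsCP φ) {r : ℝ}
    (hr : 0 ≤ r) (hψ : ∀ a, ψ a = r • φ a) : IsCP ψ := by
  intro n a b
  have := smul_nonneg hr (h n a b)
  simpa [hψ, Finset.smul_sum] using this

lemma IsCP.norm_le' {φ : U →ₗ[ℂ] B} (h : IsCP φ) {r : ℝ} (hr : 0 < r) (h1 : ‖φ 1‖ ≤ r) (a : U) :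
    ‖φ a‖ ≤ r * ‖a‖ := by
  have h2 : IsCP (((r⁻¹ : ℝ) : ℂ) • φ) := h.smul (inv_pos.2 hr).le fun a => by
    rw [LinearMap.smul_apply, Complex.coe_smul]
  have h3 := h2.norm_le (le_one_of_norm h2.one_nonneg (by
    rw [LinearMap.smul_apply, Complex.coe_smul, norm_smul, Real.norm_of_nonneg (inv_pos.2 hr).le,
      inv_mul_le_iff₀ hr, mul_one]; exact h1)) a
  rwa [LinearMap.smul_apply, Complex.coe_smul, norm_smul, Real.norm_of_nonneg (inv_pos.2 hr).le,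
    inv_mul_le_iff₀ hr] at h3

lemma IsCP.mul_right_eq_zero {φ : U →ₗ[ℂ] B} (h : IsCP φ) {w : B} (hw : φ 1 * w = 0) (x : U) :
    φ x * w = 0 := by
  have := h.null (a₁ := 1) (a₂ := 0) (b₁ := w) (b₂ := 0) (by simp [mul_assoc, hw]) x
  simpa using this

lemma IsCP.mul_left_eq_zero {φ : U →ₗ[ℂ] B} (h : IsCP φ) {w : B} (hw : w * φ 1 = 0) (x : U) :
    w * φ x = 0 := by
  have h1 : φ 1 * star w = 0 := by
    have := congrArg star hw
    rwa [star_mul, h.one_nonneg.star_eq, star_zero] at this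
  have := congrArg star (h.mul_right_eq_zero h1 (star x))
  rwa [star_mul, star_star, ← h.map_star, star_star, star_zero] at this

lemma IsCP.comp_hom {E E' : Type*} [NonUnitalCStarAlgebra E] [NonUnitalCStarAlgebra E']
    {φ : E →ₗ[ℂ] B} (h : IsCP φ) (p : E' →⋆ₙₐ[ℂ] E) {ψ : E' →ₗ[ℂ] B} (hψ : ∀ a, ψ a = φ (p a)) :
    IsCP ψ := h.comp_half p fun a a' => by rw [hψ, map_mul, StarHomClass.map_star]

lemma OZ.orth [PartialOrder U] [StarOrderedRing U] {φ : U →ₗ[ℂ] B} (h : IsCP φ)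
    [FiniteDimensional ℂ U] (h0 : ∀ x y, 0 ≤ x → 0 ≤ y → x * y = 0 → φ x * φ y = 0) : OZ φ :=
  OZ.of_proj h fun _ he => h0 _ _ he.nonneg he.one_sub.nonneg he.mul_one_sub_self

end general

variable {J A : Type*} [NonUnitalCStarAlgebra J] [CStarAlgebra A] [PartialOrder A]
  [StarOrderedRing A]

structure Colour (j : J →⋆ₙₐ[ℂ] A) where
  F : Type
  [i1 : CStarAlgebra F]
  [i2 : PartialOrder F]
  [i3 : StarOrderedRing F]
  [i4 : FiniteDimensional ℂ F]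
  ψ : J →ₗ[ℂ] F
  φ : F →ₗ[ℂ] A
  cp : IsCP ψ
  le : ∀ a, ‖ψ a‖ ≤ ‖a‖
  oz : OZ φ
  one : φ 1 ≤ 1
  mem : ∀ x, ∃ b, j b = φ x

attribute [instance] Colour.i1 Colour.i2 Colour.i3 Colour.i4

variable {j : J →⋆ₙₐ[ℂ] A}

namespace Colour

noncomputable def T (c : Colour j) (a : J) : A := c.φ (c.ψ a)

lemma φ_le (c : Colour j) (x : c.F) : ‖c.φ x‖ ≤ ‖x‖ := c.oz.cp.norm_le c.one x

lemma T_le (c : Colour j) (a : J) : ‖c.T a‖ ≤ ‖a‖ := (c.φ_le _).trans (c.le a)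

lemma T_smul (c : Colour j) (r : ℝ) (a : J) : c.T (r • a) = r • c.T a := by
  rw [T, T, ← Complex.coe_smul, map_smul, map_smul, Complex.coe_smul]

noncomputable def zero (j : J →⋆ₙₐ[ℂ] A) : Colour j where
  F := ℂ
  ψ := 0
  φ := 0
  cp := IsCP.zero
  le := by simp
  oz := OZ.zero
  one := by simp
  mem := fun _ => ⟨0, by simp⟩

lemma exists_add (c d : Colour j) (h : c.φ 1 * d.φ 1 = 0) :
    ∃ e : Colour j, ∀ a, e.T a = c.T a + d.T a := by
  have h1 : ∀ x y, c.φ x * d.φ y = 0 := fun x y =>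
    c.oz.mul_right_eq_zero (d.oz.mul_left_eq_zero h y) x
  have h' := mul_eq_zero_comm_sa c.oz.cp.one_nonneg.isSelfAdjoint d.oz.cp.one_nonneg.isSelfAdjoint h
  have h2 : ∀ x y, d.φ x * c.φ y = 0 := fun x y =>
    d.oz.mul_right_eq_zero (c.oz.mul_left_eq_zero h' y) x
  refine ⟨{ F := c.F × d.F
            ψ := c.ψ.prod d.ψ
            φ := c.φ.coprod d.φ
            cp := fun n a b => ?_
            le := fun a => ?_
            oz := ⟨?_, fun x y => ?_⟩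
            one := ?_
            mem := fun x => ?_ }, fun a => rfl⟩
  · refine ⟨?_, ?_⟩
    · simpa [Prod.fst_sum] using c.cp n a fun i => (b i).1
    · simpa [Prod.snd_sum] using d.cp n a fun i => (b i).2
  · exact max_le (c.le a) (d.le a)
  · exact ((c.oz.cp.comp_half (ψ := c.φ ∘ₗ LinearMap.fst ℂ _ _) Prod.fst fun _ _ => rfl).add
      (d.oz.cp.comp_half (ψ := d.φ ∘ₗ LinearMap.snd ℂ _ _) Prod.snd fun _ _ => rfl)).of_eq
      fun _ => rfl
  · simp only [LinearMap.coprod_apply, mul_add, add_mul, h1, h2, c.oz.mul x.1, d.oz.mul x.2,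
      Prod.fst_mul, Prod.snd_mul, Prod.fst_one, Prod.snd_one]
  · refine le_one_of_norm (add_nonneg c.oz.cp.one_nonneg d.oz.cp.one_nonneg) ?_
    exact add_le_of_orth c.oz.cp.one_nonneg d.oz.cp.one_nonneg h
      (norm_le_one_of c.oz.cp.one_nonneg c.one) (norm_le_one_of d.oz.cp.one_nonneg d.one)
  · obtain ⟨b, hb⟩ := c.mem x.1
    obtain ⟨b', hb'⟩ := d.mem x.2
    exact ⟨b + b', by rw [map_add, hb, hb']; rfl⟩

end Colour

def Ap (j : J →⋆ₙₐ[ℂ] A) (N : ℕ) (d : Prop) : Prop :=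
  ∀ (S : Finset J) (ε : ℝ), 0 < ε → ∃ c : Fin N → Colour j, (d → ∑ i, (c i).φ 1 ≤ 1) ∧
    ∀ a ∈ S, ‖∑ i, (c i).T a - j a‖ ≤ ε

lemma Ap.mono {N N' : ℕ} {d : Prop} (h : Ap j N d) (hN : N ≤ N') : Ap j N' d := by
  induction N', hN using Nat.le_induction with
  | base => exact h
  | succ M _ ih =>
    intro S ε hε
    obtain ⟨c, h1, h2⟩ := ih S ε hε
    refine ⟨Fin.cons (Colour.zero j) c, fun hd => ?_, fun a ha => ?_⟩
    · rw [Fin.sum_univ_succ]
      exact (zero_add _).trans_le (h1 hd)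
    · rw [Fin.sum_univ_succ]
      exact (congrArg (‖· - j a‖) (zero_add _)).trans_le (h2 a ha)

lemma Ap.of_ball {N : ℕ} (h : ∀ (S : Finset J) (ε : ℝ), 0 < ε → (∀ a ∈ S, ‖a‖ ≤ 1) →
    ∃ c : Fin N → Colour j, ∀ a ∈ S, ‖∑ i, (c i).T a - j a‖ ≤ ε) : Ap j N False := by
  classical
  intro S ε hε
  set C := ∑ a ∈ S, ‖a‖ + 1 with hC
  have hC0 : 0 < C := by positivity
  obtain ⟨c, hc⟩ := h (S.image fun a => C⁻¹ • a) (C⁻¹ * ε) (by positivity) (by
    intro b hb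
    obtain ⟨a, ha, rfl⟩ := Finset.mem_image.1 hb
    rw [norm_smul, Real.norm_of_nonneg (by positivity), inv_mul_le_iff₀ hC0]
    linarith [Finset.single_le_sum (f := fun a => ‖a‖) (fun _ _ => norm_nonneg _) ha])
  refine ⟨c, False.elim, fun a ha => ?_⟩
  have := hc _ (Finset.mem_image_of_mem _ ha)
  simp only [Colour.T_smul] at this
  rw [← Complex.coe_smul C⁻¹ a, map_smul, Complex.coe_smul, ← Finset.smul_sum, ← smul_sub,
    norm_smul, Real.norm_of_nonneg (by positivity)] at this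
  exact le_of_mul_le_mul_left this (by positivity)

variable [PartialOrder J] [StarOrderedRing J]

lemma ap_of_data {N : ℕ} {d : Prop} (F : Fin N → Type) [∀ i, CStarAlgebra (F i)]
    [∀ i, PartialOrder (F i)] [∀ i, StarOrderedRing (F i)] [∀ i, FiniteDimensional ℂ (F i)]
    (ψ : J →CP (∀ i, F i)) (φ : (∀ i, F i) →CP J) (h1 : ∀ a, ‖ψ a‖ ≤ ‖a‖)
    (h2 : ∀ i (x : F i), ‖φ (Pi.single i x)‖ ≤ ‖x‖)
    (h3 : ∀ i (x y : F i), 0 ≤ x → 0 ≤ y → x * y = 0 → φ (Pi.single i x) * φ (Pi.single i y) = 0)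
    (h4 : d → ∀ x, ‖φ x‖ ≤ ‖x‖) :
    ∃ c : Fin N → Colour j, (d → ∑ i, (c i).φ 1 ≤ 1) ∧ ∀ a, ∑ i, (c i).T a = j (φ (ψ a)) := by
  let Φ : (∀ i, F i) →ₗ[ℂ] A := (j : J →ₗ[ℂ] A) ∘ₗ φ.toLinearMap
  have hΦ : IsCP Φ := isCP_of_cp φ j fun _ => rfl
  have hΦ' : ∀ i, IsCP (Φ ∘ₗ LinearMap.single ℂ F i) := fun i =>
    hΦ.comp_half (Pi.single i) fun a a' => by
      simp only [LinearMap.comp_apply, LinearMap.coe_single]
      rw [← Pi.single_star, ← Pi.single_mul]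
  have hj : ∀ b, ‖j b‖ ≤ ‖b‖ := NonUnitalStarAlgHom.norm_apply_le j
  let c : Fin N → Colour j := fun i =>
    { F := F i
      ψ := LinearMap.proj i ∘ₗ ψ.toLinearMap
      φ := Φ ∘ₗ LinearMap.single ℂ F i
      cp := isCP_of_cp ψ (Pi.evalStarAlgHom ℂ F i : (∀ i, F i) →⋆ₐ[ℂ] F i) fun _ => rfl
      le := fun a => (norm_le_pi_norm (ψ a) i).trans (h1 a)
      oz := OZ.orth (hΦ' i) fun x y hx hy hxy => by
        change j (φ _) * j (φ _) = 0
        rw [← map_mul]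
        exact (congrArg j (h3 i x y hx hy hxy)).trans (map_zero j)
      one := le_one_of_norm (hΦ' i).one_nonneg ((hj _).trans ((h2 i 1).trans (norm_one_le' _)))
      mem := fun x => ⟨_, rfl⟩ }
  have e : ∀ x : ∀ i, F i, ∑ i, (c i).φ (x i) = Φ x := fun x => by
    conv_rhs => rw [← Finset.univ_sum_single x, map_sum]
    rfl
  refine ⟨c, fun hd => ?_, fun a => e (ψ a)⟩
  refine (e 1).trans_le (le_one_of_norm hΦ.one_nonneg ?_)
  exact (hj _).trans ((h4 hd 1).trans (norm_one_le' _))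

lemma NucDimLE.ap {n : ℕ} (h : NucDimLE J n) (j : J →⋆ₙₐ[ℂ] A) : Ap j (n + 1) False := by
  intro S ε hε
  obtain ⟨F, _, _, _, _, ψ, φ, h1, h2, h3, h4⟩ := h S ε hε
  obtain ⟨c, c1, c2⟩ := ap_of_data (j := j) (d := False) F ψ φ h1 h2 h3 False.elim
  refine ⟨c, c1, fun a ha => ?_⟩
  rw [c2, ← map_sub]
  exact (NonUnitalStarAlgHom.norm_apply_le j _).trans (h4 a ha).le

lemma DecRankLE.ap {n : ℕ} (h : DecRankLE J n) (j : J →⋆ₙₐ[ℂ] A) : Ap j (n + 1) True := by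
  intro S ε hε
  obtain ⟨F, _, _, _, _, ψ, φ, h1, h2, h3, h4⟩ := h S ε hε
  obtain ⟨c, c1, c2⟩ := ap_of_data (j := j) (d := True) F ψ φ h1
    (fun i x => (h2 _).trans (Pi.norm_single _).le) h3 fun _ => h2
  refine ⟨c, c1, fun a ha => ?_⟩
  rw [c2, ← map_sub]
  exact (NonUnitalStarAlgHom.norm_apply_le j _).trans (h4 a ha).le

lemma Ap.nucDimLE {n : ℕ} {d : Prop} (h : Ap j (n + 1) d) (hj : Function.Injective j) :
    NucDimLE J n := by
  intro S ε hε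
  obtain ⟨c, -, hc⟩ := h S (ε / 2) (by positivity)
  let Ψ : J →ₗ[ℂ] (∀ i, (c i).F) := LinearMap.pi fun i => (c i).ψ
  have hΨ : IsCP Ψ := fun n a b i => by
    simpa [Finset.sum_apply, Ψ] using (c i).cp n a fun l => b l i
  obtain ⟨ψ, hψ⟩ := exists_cp_of_isCP Ψ (NonUnitalStarAlgHom.id ℂ _) Function.injective_id
    (fun _ => rfl) hΨ
  let Φ : (∀ i, (c i).F) →ₗ[ℂ] A := ∑ i, (c i).φ ∘ₗ LinearMap.proj i
  have hΦ : IsCP Φ := IsCP.sum _ _ fun i _ => (c i).oz.cp.comp_half (fun x => x i) fun _ _ => rfl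
  have e : ∀ x, Φ x = ∑ i, (c i).φ (x i) := fun x => by simp [Φ]
  have hm : ∀ x, ∃ b, j b = Φ x := fun x => by
    choose b hb using fun i => (c i).mem (x i)
    exact ⟨∑ i, b i, by rw [map_sum, e]; exact Finset.sum_congr rfl fun i _ => hb i⟩
  choose f hf using hm
  let f' : (∀ i, (c i).F) →ₗ[ℂ] J :=
    { toFun := f
      map_add' := fun x y => hj (by rw [map_add, hf, hf, hf, map_add])
      map_smul' := fun r x => hj (by rw [map_smul, hf, hf, map_smul]; rfl) }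
  obtain ⟨φ, hφ⟩ := exists_cp_of_isCP f' j hj (fun x => (hf x).symm) hΦ
  have e2 : ∀ x, j (φ x) = Φ x := fun x => by rw [hφ]; exact hf x
  have e3 : ∀ i (x : (c i).F), j (φ (Pi.single i x)) = (c i).φ x := fun i x => by
    rw [e2, e, Finset.sum_eq_single i (fun l _ hl => by simp [hl]) (by simp)]
    simp
  have hn := NonUnitalStarAlgHom.norm_map j hj
  refine ⟨fun i => (c i).F, inferInstance, inferInstance, inferInstance, inferInstance, ψ, φ,
    fun a => ?_, fun i x => ?_, fun i x y _ _ hxy => hj ?_, fun a ha => ?_⟩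
  · rw [hψ]
    exact (pi_norm_le_iff_of_nonneg (norm_nonneg _)).2 fun i => (c i).le a
  · rw [← hn, e3]; exact (c i).φ_le x
  · rw [map_mul, e3, e3, (c i).oz.mul_eq_zero hxy, map_zero]
  · rw [← hn, map_sub, e2, e, hψ]
    exact (hc a ha).trans_lt (by linarith)

end Pool.Agent.Lib.MP_30b5b4_an
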