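import Pool.Agent.Lib.MP_30b5b4_an.Gel

/-! Cutting a pair of commuting self-adjoint elements by a projection. -/

open scoped CStarAlgebra ComplexOrder

set_option linter.unusedSectionVars false
set_option linter.style.haveILetI false

namespace Pool.Agent.Lib.MP_30b5b4_an

noncomputable def cl (x : ℝ) : ℝ := max 0 (min 1 x)

@[fun_prop] lemma continuous_cl : Continuous cl := by unfold cl; fun_prop
lemma cl_nonneg (x : ℝ) : 0 ≤ cl x := le_max_left _ _
lemma cl_le_one (x : ℝ) : cl x ≤ 1 := max_le zero_le_one (min_le_left _ _)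
lemma cl_of_nonpos {x : ℝ} (h : x ≤ 0) : cl x = 0 := max_eq_left ((min_le_right _ _).trans h)
lemma cl_of_one_le {x : ℝ} (h : 1 ≤ x) : cl x = 1 := by rw [cl, min_eq_left h]; simp

noncomputable def Bf (p : ℝ) : ℝ := 2 * max (-1) (min 1 p) - p
noncomputable def Af (p : ℝ) : ℝ := 2 * Real.sqrt (1 - p ^ 2) - Real.sqrt (1 - Bf p ^ 2)

@[fun_prop] lemma continuous_Bf : Continuous Bf := by unfold Bf; fun_prop
@[fun_prop] lemma continuous_Af : Continuous Af := by unfold Af; fun_prop

lemma Bf_of_le {p : ℝ} (h : |p| ≤ 1) : Bf p = p := by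
  rw [abs_le] at h
  rw [Bf, min_eq_right h.2, max_eq_right h.1]; ring

lemma Af_of_le {p : ℝ} (h : |p| ≤ 1) : Af p = Real.sqrt (1 - p ^ 2) := by
  rw [Af, Bf_of_le h]; ring

lemma Af_of_ge {p : ℝ} (h : 1 ≤ |p|) : Af p = -Real.sqrt (1 - Bf p ^ 2) := by
  rw [Af, Real.sqrt_eq_zero'.2 (by nlinarith [sq_abs p])]; ring

lemma AB_sq {p : ℝ} (h : |p| ≤ 2) : Af p ^ 2 + Bf p ^ 2 = 1 := by
  rcases le_total |p| 1 with h1 | h1
  · rw [Af_of_le h1, Bf_of_le h1, Real.sq_sqrt (by nlinarith [sq_abs p, abs_nonneg p])]; ring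
  · have : Bf p ^ 2 ≤ 1 := by
      rw [abs_le] at h
      rw [Bf]
      rcases le_abs.1 h1 with h2 | h2
      · rw [min_eq_left h2, max_eq_right (by norm_num)]; nlinarith
      · rw [min_eq_right (by linarith), max_eq_left (by linarith)]; nlinarith
    rw [Af_of_ge h1, neg_sq, Real.sq_sqrt (by linarith)]; ring

lemma AB_two {p : ℝ} (h : |p| = 2) : Af p = -1 ∧ Bf p = 0 := by
  have : Bf p = 0 := by
    rcases (abs_eq (by norm_num)).1 h with rfl | rfl <;> norm_num [Bf]
  rw [Af_of_ge (by rw [h]; norm_num), this]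
  simp

lemma abs_le_of_Af_pos {p : ℝ} (h : 0 < Af p) : |p| ≤ 1 := by
  by_contra h1
  rw [Af_of_ge (not_le.1 h1).le] at h
  linarith [Real.sqrt_nonneg (1 - Bf p ^ 2)]

lemma Af_ge_of_le {p : ℝ} (h : |p| ≤ 1 / 2) : 3 / 5 ≤ Af p := by
  rw [Af_of_le (by linarith)]
  apply Real.le_sqrt_of_sq_le
  nlinarith [sq_abs p, abs_nonneg p]

lemma cl_mul_one_sub {p : ℝ} (h : 1 / 2 ≤ |p|) : cl (1 / 2 + p) * (1 - cl (1 / 2 + p)) = 0 := by
  rcases le_abs.1 h with h | h
  · rw [cl_of_one_le (by linarith)]; simp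
  · rw [cl_of_nonpos (by linarith)]; simp

lemma exists_config {X : Type*} [TopologicalSpace X] (f : C(X, ℂ)) (c x₀ : ℝ) {η r : ℝ}
    (hη : 0 < η) (hr : 0 < r) (M : ℕ)
    (h1 : ∀ t, x₀ < (f t).re ∧ (f t).re < x₀ + M * η)
    (h2 : ∀ t, ∀ j < M + 1, r ≤ ‖f t - ((x₀ + j * η : ℝ) + c * Complex.I)‖) :
    ∃ (φ : C(X, ℝ)) (U : ℕ → C(X, ℂ)), (∀ t, |φ t| ≤ 2) ∧
      (∀ t, c + r / 2 ≤ (f t).im → φ t = 2) ∧ (∀ t, (f t).im ≤ c - r / 2 → φ t = -2) ∧
      ∀ t, (|φ t| = 2 ∧ ∀ k, U k t = -1) ∨ ∃ j < M, U j t = (Af (φ t) : ℝ) + (Bf (φ t) : ℝ) * Complex.I ∧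
        (∀ k ≠ j, U k t = -1) ∧ ‖f t - ((x₀ + j * η : ℝ) + c * Complex.I)‖ ≤ 2 * η := by
  let φ : C(X, ℝ) := ⟨fun t => max (-2) (min 2 (((f t).im - c) * 4 / r)), by fun_prop⟩
  let κ : ℕ → ℝ → ℝ := fun j x => cl ((x - (x₀ + j * η)) * 2 / r) * cl ((x₀ + (j + 1) * η - x) * 2 / r)
  let U : ℕ → C(X, ℂ) := fun j => ⟨fun t => -1 + (κ j (f t).re : ℝ) *
    ((Af (φ t) : ℝ) + (Bf (φ t) : ℝ) * Complex.I + 1), by fun_prop⟩
  have hφ : ∀ t, |φ t| ≤ 2 := fun t =>
    abs_le.2 ⟨le_max_left _ _, max_le (by norm_num) (min_le_left _ _)⟩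
  have ht : ∀ t, c + r / 2 ≤ (f t).im → φ t = 2 := by
    intro t h
    have : 2 ≤ ((f t).im - c) * 4 / r := by rw [le_div_iff₀ hr]; linarith
    simp only [φ, ContinuousMap.coe_mk, min_eq_left this]
    norm_num
  have hb : ∀ t, (f t).im ≤ c - r / 2 → φ t = -2 := by
    intro t h
    have : ((f t).im - c) * 4 / r ≤ -2 := by rw [div_le_iff₀ hr]; linarith
    exact max_eq_left ((min_le_right _ _).trans this)
  refine ⟨φ, U, hφ, ht, hb, fun t => ?_⟩
  by_cases h : |φ t| = 2
  · left
    refine ⟨h, fun k => ?_⟩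
    simp [U, (AB_two h).1, (AB_two h).2]
  right
  have s1 : (f t).im < c + r / 2 := by
    by_contra h'
    exact h (by rw [ht t (not_lt.1 h')]; norm_num)
  have s2 : c - r / 2 < (f t).im := by
    by_contra h'
    exact h (by rw [hb t (not_lt.1 h')]; norm_num)
  have key : ∀ i : ℕ, ‖f t - ((x₀ + i * η : ℝ) + c * Complex.I)‖
      ≤ |(f t).re - (x₀ + i * η)| + r / 2 := by
    intro i
    refine (Complex.norm_le_abs_re_add_abs_im _).trans (add_le_add (le_of_eq ?_) ?_)
    · simp
    · simp only [Complex.sub_im, Complex.add_im, Complex.ofReal_im, Complex.mul_im,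
        Complex.ofReal_re, Complex.I_im, Complex.I_re]
      rw [abs_le]
      constructor <;> linarith
  set x := (f t).re with hx
  obtain ⟨b1, b2⟩ := h1 t
  set j := ⌊(x - x₀) / η⌋₊ with hj
  have j1 : (j : ℝ) ≤ (x - x₀) / η := Nat.floor_le (div_nonneg (by linarith) hη.le)
  have j2 : (x - x₀) / η < j + 1 := Nat.lt_floor_add_one _
  rw [le_div_iff₀ hη] at j1
  rw [div_lt_iff₀ hη] at j2
  have j3 : j < M := by
    have : (j : ℝ) < M := by
      by_contra h'
      have := mul_le_mul_of_nonneg_right (not_lt.1 h') hη.le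
      linarith
    exact_mod_cast this
  have k1 := (h2 t j (by omega)).trans (key j)
  have k2 := (h2 t (j + 1) (by omega)).trans (key (j + 1))
  rw [abs_of_nonneg (by linarith)] at k1
  rw [abs_of_nonpos (by push_cast; linarith)] at k2
  push_cast at k2
  refine ⟨j, j3, ?_, fun k hk => ?_, ?_⟩
  · have : κ j x = 1 := by
      simp only [κ]
      rw [cl_of_one_le, cl_of_one_le, one_mul] <;> rw [le_div_iff₀ hr] <;> linarith
    simp [U, ← hx, this]
  · have : κ k x = 0 := by
      simp only [κ]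
      rcases lt_or_gt_of_ne hk with hk | hk
      · have : (k : ℝ) + 1 ≤ j := by exact_mod_cast hk
        have := mul_le_mul_of_nonneg_right this hη.le
        rw [cl_of_nonpos (x := (x₀ + (k + 1) * η - x) * 2 / r), mul_zero]
        exact div_nonpos_of_nonpos_of_nonneg (by linarith) hr.le
      · have : (j : ℝ) + 1 ≤ k := by exact_mod_cast hk
        have := mul_le_mul_of_nonneg_right this hη.le
        rw [cl_of_nonpos, zero_mul]
        exact div_nonpos_of_nonpos_of_nonneg (by linarith) hr.le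
    simp [U, ← hx, this]
  · refine (key j).trans ?_
    rw [abs_of_nonneg (by linarith)]
    linarith

universe u
variable {Q : Type u} [CStarAlgebra Q] [PartialOrder Q] [StarOrderedRing Q]

lemma sum_proj {ι : Type*} (s : Finset ι) (e : ι → Q) (he : ∀ i ∈ s, IsStarProjection (e i))
    (h : ∀ i ∈ s, ∀ j ∈ s, i ≠ j → e i * e j = 0) : IsStarProjection (∑ i ∈ s, e i) := by
  refine ⟨?_, isSelfAdjoint_sum _ fun i hi => (he i hi).isSelfAdjoint⟩
  rw [IsIdempotentElem, Finset.sum_mul]
  refine Finset.sum_congr rfl fun i hi => ?_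
  rw [Finset.mul_sum, Finset.sum_eq_single i (fun j hj hji => h i hi j hj hji.symm)
    (fun h => absurd hi h), (he i hi).isIdempotentElem.eq]

lemma FR.cut_core (h : FR Q) {X : Type*} [TopologicalSpace X] [CompactSpace X]
    (Φ : C(X, ℂ) →⋆ₐ[ℂ] Q) (f : C(X, ℂ)) (l : ℕ → ℂ) {δ : ℝ} (hδ : 0 ≤ δ) (M : ℕ)
    (φ : C(X, ℝ)) (U : ℕ → C(X, ℂ)) (hφ : ∀ t, |φ t| ≤ 2)
    (hU : ∀ t, (|φ t| = 2 ∧ ∀ k, U k t = -1) ∨ ∃ j < M,
      U j t = (Af (φ t) : ℝ) + (Bf (φ t) : ℝ) * Complex.I ∧ (∀ k ≠ j, U k t = -1) ∧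
        ‖f t - l j‖ ≤ δ) :
    ∃ q, IsStarProjection q ∧ ‖q * Φ f - Φ f * q‖ ≤ 2 * δ ∧
      (∀ g : C(X, ℂ), (∀ t, φ t ≠ -2 → g t = 0) → Φ g * q = 0) ∧
      (∀ g : C(X, ℂ), (∀ t, φ t ≠ 2 → g t = 0) → Φ g * (1 - q) = 0) := by
  classical
  have hcomm : ∀ a b, Commute (Φ a) (Φ b) := fun a b => (Commute.all a b).map Φ
  have hu : ∀ j, Φ (U j) ∈ unitary Q := by
    intro j
    have : star (U j) * U j = 1 := by
      ext t
      simp only [ContinuousMap.mul_apply, ContinuousMap.star_apply, ContinuousMap.one_apply]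
      rcases hU t with ⟨-, h1⟩ | ⟨i, -, h1, h2, -⟩
      · simp [h1]
      · by_cases hj : j = i
        · rw [hj, h1]
          apply Complex.ext
          · simp; nlinarith [AB_sq (hφ t)]
          · simp; ring
        · simp [h2 j hj]
    rw [Unitary.mem_iff, ← map_star, ← map_mul, ← map_mul, mul_comm (U j), this, map_one]
    simp
  choose e he1 he2 he3 using fun j => h.borel _ (hu j) {w | 1 / 2 < w.re}
  let ζ₀ : ℂ → ℂ := fun w => (cl (2 * w.re) : ℝ)
  have hζ₀ : Continuous ζ₀ := by fun_prop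
  let ζ : ℕ → C(X, ℂ) := fun j => ⟨fun t => ζ₀ (U j t), by fun_prop⟩
  have hζm : ζ₀ (-1) = 0 := by simp [ζ₀, cl_of_nonpos]
  have hζs : ∀ j, star (Φ (ζ j)) = Φ (ζ j) := fun j => by
    rw [← map_star]; congr 1; ext t; simp [ζ, ζ₀]
  have f1 : ∀ j, Φ (ζ j) * e j = e j := by
    intro j
    have := (he3 j (fun w => 1 - ζ₀ w) (by fun_prop)).1 (fun w hw => by
      simp only [ζ₀]
      rw [cl_of_one_le (by simp only [Set.mem_ofPred_eq] at hw; linarith)]; simp)
    rw [gel_cfc Φ (U j) (by fun_prop) (k := 1 - ζ j) (fun t => rfl), map_sub, map_one, sub_mul,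
      one_mul, sub_eq_zero] at this
    exact this.symm
  have f2 : ∀ j, e j * Φ (ζ j) = e j := fun j => by
    have := congrArg star (f1 j)
    rwa [star_mul, hζs, (he1 j).isSelfAdjoint.star_eq] at this
  have f3 : ∀ j k, j ≠ k → ∀ t, U j t = -1 ∨ U k t = -1 := by
    intro j k hjk t
    rcases hU t with ⟨-, h1⟩ | ⟨i, -, -, h2, -⟩
    · exact Or.inl (h1 j)
    · by_cases hj : j = i
      · exact Or.inr (h2 k (fun h => hjk (hj.trans h.symm)))
      · exact Or.inl (h2 j hj)
  have f4 : ∀ j k, j ≠ k → ζ j * ζ k = 0 := by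
    intro j k hjk
    ext t
    rcases f3 j k hjk t with h1 | h1 <;> simp [ζ, h1, hζm]
  have f5 : ∀ j k, j ≠ k → e j * e k = 0 := fun j k hjk => by
    rw [← f2 j, ← f1 k, mul_assoc, ← mul_assoc (Φ _), ← map_mul, f4 j k hjk]; simp
  have f6 : ∀ j (G : C(X, ℂ)) (g : ℂ → ℂ), Continuous g → (∀ t, (G * ζ j) t = g (U j t)) →
      Commute (e j) (Φ G) := by
    intro j G g hg hG
    have hn : IsStarNormal (Φ (U j)) := IsStarNormal.map _ _
    have c1 : Commute (cfc g (Φ (U j))) (e j) :=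
      (he2 j).symm.cfc (by
        have := (he2 j).symm.star_star
        rwa [(he1 j).isSelfAdjoint.star_eq] at this) g
    rw [gel_cfc Φ (U j) hg hG] at c1
    change _ * _ = _ * _
    calc e j * Φ G = e j * Φ (G * ζ j) := by
          rw [mul_comm G, map_mul, ← mul_assoc, f2]
      _ = Φ (G * ζ j) * e j := c1.symm.eq
      _ = Φ G * e j := by rw [map_mul, mul_assoc, f1]
  let θ : C(X, ℂ) := ⟨fun t => (cl (1 / 2 + φ t) : ℝ), by fun_prop⟩
  have hθs : star (Φ θ) = Φ θ := by
    rw [← map_star]; congr 1; ext t; simp [θ]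
  have f7 : ∀ j, Commute (e j) (Φ θ) := by
    intro j
    refine f6 j θ (fun w => (cl (1 / 2 + w.im) : ℝ) * ζ₀ w) (by fun_prop) fun t => ?_
    simp only [ContinuousMap.mul_apply, θ, ζ, ContinuousMap.coe_mk]
    rcases hU t with ⟨-, h1⟩ | ⟨i, -, h1, h2, -⟩
    · simp [h1, hζm]
    · by_cases hj : j = i
      · rw [hj, h1]
        rcases le_or_gt (Af (φ t)) 0 with h3 | h3
        · simp [ζ₀, cl_of_nonpos (show 2 * Af (φ t) ≤ 0 by linarith)]
        · simp [Bf_of_le (abs_le_of_Af_pos h3)]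
      · simp [h2 j hj, hζm]
  set E := ∑ j ∈ Finset.range M, e j with hE
  have hEp : IsStarProjection E := sum_proj _ _ (fun j _ => he1 j) fun j _ k _ => f5 j k
  have hEθ : Commute E (Φ θ) := Commute.sum_left _ _ _ fun j _ => f7 j
  have f8 : Φ (θ * (1 - θ)) * (1 - E) = 0 := by
    let g : ℂ → ℂ := fun w =>
      (cl (1 / 2 + w.im) * (1 - cl (1 / 2 + w.im)) * cl (10 * w.re - 5) : ℝ)
    have hg : Continuous g := by fun_prop
    have hgm : g (-1) = 0 := by
      simp only [g]
      rw [cl_of_nonpos (x := 10 * (-1 : ℂ).re - 5) (by norm_num)]; simp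
    let G : ℕ → C(X, ℂ) := fun j => ⟨fun t => g (U j t), by fun_prop⟩
    have g1 : θ * (1 - θ) = ∑ j ∈ Finset.range M, G j := by
      ext t
      simp only [ContinuousMap.mul_apply, ContinuousMap.sub_apply, ContinuousMap.one_apply,
        ContinuousMap.sum_apply, θ, G, ContinuousMap.coe_mk]
      rcases hU t with ⟨h0, h1⟩ | ⟨i, hi, h1, h2, -⟩
      · simp only [h1, hgm, Finset.sum_const_zero]
        exact_mod_cast cl_mul_one_sub (by rw [h0]; norm_num)
      · rw [Finset.sum_eq_single i (fun k _ hk => by rw [h2 k hk, hgm])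
          (fun hi' => absurd (Finset.mem_range.2 hi) hi'), h1]
        simp only [g, Complex.add_im, Complex.ofReal_im, Complex.mul_im, Complex.ofReal_re,
          Complex.I_im, Complex.I_re, Complex.add_re, Complex.mul_re, mul_one, mul_zero, zero_add,
          add_zero, sub_self]
        rcases le_total |φ t| (1 / 2) with h3 | h3
        · rw [Bf_of_le (by linarith), cl_of_one_le (x := 10 * Af (φ t) - 5)
            (by linarith [Af_ge_of_le h3])]
          push_cast; ring
        · have := cl_mul_one_sub h3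
          rcases le_or_gt (Af (φ t)) 0 with h4 | h4
          · rw [cl_of_nonpos (x := 10 * Af (φ t) - 5) (by linarith), mul_zero]
            exact_mod_cast this
          · rw [Bf_of_le (abs_le_of_Af_pos h4), this, zero_mul]
            exact_mod_cast this
    rw [g1, map_sum, Finset.sum_mul]
    refine Finset.sum_eq_zero fun j hj => ?_
    have g2 : Φ (G j) * (1 - e j) = 0 := by
      rw [← gel_cfc Φ (U j) hg (k := G j) (fun t => rfl)]
      refine (he3 j g hg).2 fun w hw => ?_
      simp only [Set.mem_ofPred_eq, not_lt] at hw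
      simp only [g]
      rw [cl_of_nonpos (x := 10 * w.re - 5) (by linarith)]; simp
    have g3 : ∀ k, k ≠ j → Φ (G j) * e k = 0 := by
      intro k hk
      have : G j * ζ k = 0 := by
        ext t
        rcases f3 k j hk t with h1 | h1 <;> simp [ζ, G, h1, hζm, hgm]
      rw [← f1 k, ← mul_assoc, ← map_mul, this]; simp
    rw [hE, mul_sub, Finset.mul_sum, Finset.sum_eq_single j (fun k _ hk => g3 k hk)
      (fun h => absurd hj h), ← mul_sub, g2]
  have hθ1 : Commute (1 - E) (1 - Φ θ) :=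
    (Commute.one_left _).sub_left ((Commute.one_right _).sub_right hEθ)
  have hq' : IsStarProjection ((1 - E) * (1 - Φ θ)) := by
    refine ⟨?_, ?_⟩
    · rw [IsIdempotentElem, mul_assoc, ← mul_assoc (1 - Φ θ), ← hθ1.eq, ← mul_assoc, ← mul_assoc,
        hEp.one_sub.isIdempotentElem.eq, mul_assoc]
      have : (1 - Φ θ) * (1 - Φ θ) = (1 - Φ θ) - Φ (θ * (1 - θ)) := by
        rw [map_mul, map_sub, map_one]; noncomm_ring
      have h9 : (1 - E) * Φ (θ * (1 - θ)) = 0 := by
        have : Commute (1 - E) (Φ (θ * (1 - θ))) := by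
          rw [map_mul, map_sub, map_one]
          exact ((Commute.one_left _).sub_left hEθ).mul_right hθ1
        rw [this.eq, f8]
      rw [this, mul_sub (1 - E) (1 - Φ θ), h9, sub_zero]
    · rw [IsSelfAdjoint, star_mul, star_sub, star_one, hθs, hEp.one_sub.isSelfAdjoint.star_eq,
        hθ1.eq]
  refine ⟨1 - (1 - E) * (1 - Φ θ), hq'.one_sub, ?_, fun g hg => ?_, fun g hg => ?_⟩
  · let D : C(X, ℂ) := ∑ j ∈ Finset.range M, (f - algebraMap ℂ _ (l j)) * ζ j
    have d1 : ‖Φ D‖ ≤ δ := by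
      refine gel_norm Φ hδ fun t => ?_
      simp only [D, ContinuousMap.sum_apply, ContinuousMap.mul_apply, ζ, ContinuousMap.coe_mk]
      rcases hU t with ⟨-, h1⟩ | ⟨i, hi, -, h2, h3⟩
      · simp [h1, hζm, hδ]
      · rw [Finset.sum_eq_single i (fun k _ hk => by rw [h2 k hk, hζm, mul_zero])
          (fun hi' => absurd (Finset.mem_range.2 hi) hi'), norm_mul]
        have : ‖ζ₀ (U i t)‖ ≤ 1 := by
          simp only [ζ₀, Complex.norm_real]
          rw [Real.norm_of_nonneg (cl_nonneg _)]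
          exact cl_le_one _
        simpa using mul_le_mul h3 this (norm_nonneg _) hδ
    have d2 : ∀ j ∈ Finset.range M, ζ j * D = ζ j * (ζ j * (f - algebraMap ℂ _ (l j))) := by
      intro j hj
      simp only [D]
      rw [Finset.mul_sum, Finset.sum_eq_single j
        (fun k _ hk => by rw [mul_left_comm, f4 j k hk.symm, mul_zero]) (fun h => absurd hj h)]
      ring
    have d3 : ∀ j ∈ Finset.range M, e j * Φ f - Φ f * e j = e j * Φ D - Φ D * e j := by
      intro j hj
      have a1 : e j * Φ D = e j * Φ f - l j • e j := by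
        rw [← f2 j, mul_assoc, ← map_mul, d2 j hj, map_mul, map_mul, ← mul_assoc, ← mul_assoc, f2,
          f2, map_sub, AlgHomClass.commutes, Algebra.algebraMap_eq_smul_one, mul_sub,
          mul_smul_comm, mul_one]
      have a2 : Φ D * e j = Φ f * e j - l j • e j := by
        rw [← f1 j, ← mul_assoc, ← map_mul, mul_comm D, d2 j hj, mul_comm (ζ j), mul_comm (ζ j),
          map_mul, map_mul, mul_assoc, mul_assoc, f1,
          f1, map_sub, AlgHomClass.commutes, Algebra.algebraMap_eq_smul_one, sub_mul,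
          smul_mul_assoc, one_mul]
      rw [a1, a2]; abel
    have d4 : E * Φ f - Φ f * E = E * Φ D - Φ D * E := by
      simp only [hE, Finset.sum_mul, Finset.mul_sum, ← Finset.sum_sub_distrib]
      exact Finset.sum_congr rfl d3
    have d5 : (1 - (1 - E) * (1 - Φ θ)) * Φ f - Φ f * (1 - (1 - E) * (1 - Φ θ))
        = (E * Φ f - Φ f * E) * Φ (1 - θ) := by
      rw [map_sub, map_one]
      have := (hcomm θ f).eq
      simp only [sub_mul, mul_sub, one_mul, mul_one, mul_assoc, this]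
      abel
    have d6 : ‖Φ (1 - θ)‖ ≤ 1 := by
      refine gel_norm Φ zero_le_one fun t => ?_
      have : (1 - θ) t = ((1 - cl (1 / 2 + φ t) : ℝ) : ℂ) := by simp [θ]
      rw [this, Complex.norm_real, Real.norm_of_nonneg (by linarith [cl_le_one (1 / 2 + φ t)])]
      linarith [cl_nonneg (1 / 2 + φ t)]
    rw [d5, d4]
    have d7 : ‖E * Φ D - Φ D * E‖ ≤ 2 * δ := by
      have := hEp.norm_le
      calc _ ≤ ‖E‖ * ‖Φ D‖ + ‖Φ D‖ * ‖E‖ :=
            (norm_sub_le _ _).trans (add_le_add (norm_mul_le _ _) (norm_mul_le _ _))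
        _ ≤ 1 * δ + δ * 1 := by gcongr
        _ = _ := by ring
    calc _ ≤ _ := norm_mul_le _ _
      _ ≤ 2 * δ * 1 := by gcongr
      _ = _ := mul_one _
  · have a1 : Φ g * Φ θ = 0 := by
      rw [← map_mul]
      have : g * θ = 0 := by
        ext t
        by_cases ht : φ t = -2
        · simp only [ContinuousMap.mul_apply, θ, ContinuousMap.coe_mk, ht]
          rw [cl_of_nonpos (by norm_num)]; simp
        · simp [hg t ht]
      rw [this, map_zero]
    have a2 : Φ g * E = 0 := by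
      rw [hE, Finset.mul_sum]
      refine Finset.sum_eq_zero fun j _ => ?_
      have : g * ζ j = 0 := by
        ext t
        by_cases ht : φ t = -2
        · have h0 : |φ t| = 2 := by rw [ht]; norm_num
          have : U j t = -1 := by
            rcases hU t with ⟨-, h1⟩ | ⟨i, -, h1, h2, -⟩
            · exact h1 j
            · by_cases hj : j = i
              · rw [hj, h1, (AB_two h0).1, (AB_two h0).2]; simp
              · exact h2 j hj
          simp [ζ, this, hζm]
        · simp [hg t ht]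
      rw [← f1 j, ← mul_assoc, ← map_mul, this]; simp
    rw [mul_sub, ← mul_assoc, mul_sub (Φ g) 1 E, a2, sub_zero, mul_one, mul_sub, a1]
    simp
  · have a1 : Φ g * (1 - Φ θ) = 0 := by
      rw [← map_one Φ, ← map_sub, ← map_mul]
      have : g * (1 - θ) = 0 := by
        ext t
        by_cases ht : φ t = 2
        · simp only [ContinuousMap.mul_apply, ContinuousMap.sub_apply, θ, ContinuousMap.coe_mk, ht]
          rw [cl_of_one_le (by norm_num)]; simp
        · simp [hg t ht]
      rw [this, map_zero]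
    rw [sub_sub_cancel, hθ1.eq, ← mul_assoc, a1, zero_mul]

lemma norm_le_of_two_I {a b : Q} {r : ℝ} (h : (2 : ℂ) • a = b + star b ∨ (2 * Complex.I) • a = b - star b ∨
    (2 : ℂ) • a = b - star b ∨ (2 * Complex.I) • a = b + star b)
    (hb : ‖b‖ ≤ r) : ‖a‖ ≤ r := by
  have h1 := norm_add_le b (star b)
  have h2 := norm_sub_le b (star b)
  rw [norm_star] at h1 h2
  rcases h with h | h | h | h <;>
  · have := congrArg norm h
    rw [norm_smul] at this
    simp at this
    linarith

lemma conj_le_of_norm {q x : Q} (hq : IsStarProjection q) (hx : IsSelfAdjoint x) {r : ℝ}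
    (h : ‖x‖ ≤ r) : q * x * q ≤ algebraMap ℝ Q r := by
  have h1 : IsSelfAdjoint (q * x * q) := by
    rw [IsSelfAdjoint, star_mul, star_mul, hq.isSelfAdjoint.star_eq, hx.star_eq, mul_assoc]
  have h2 : ‖q * x * q‖ ≤ r := by
    have := hq.norm_le
    have hr : 0 ≤ r := (norm_nonneg _).trans h
    calc _ ≤ ‖q‖ * ‖x‖ * ‖q‖ := norm_mul₃_le
      _ ≤ 1 * r * 1 := by gcongr
      _ = r := by ring
  refine h1.le_algebraMap_norm_self.trans ?_
  rw [Algebra.algebraMap_eq_smul_one, Algebra.algebraMap_eq_smul_one]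
  exact smul_le_smul_of_nonneg_right h2 zero_le_one

theorem FR.approx_cut (h : FR Q) {z y : Q} (hz : IsSelfAdjoint z) (hy : IsSelfAdjoint y)
    (hzy : Commute z y) (c : ℝ) {ε : ℝ} (hε : 0 < ε) :
    ∃ q, IsStarProjection q ∧ ‖q * z - z * q‖ ≤ ε ∧ ‖q * y - y * q‖ ≤ ε ∧
      c • q - q * y * q ≤ algebraMap ℝ Q ε ∧
      (1 - q) * y * (1 - q) - c • (1 - q) ≤ algebraMap ℝ Q ε := by
  set η := ε / 6 with hη
  have hη0 : 0 < η := by positivity
  set n := z + Complex.I • y with hn
  have hsn : star n = z - Complex.I • y := by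
    rw [hn, star_add, star_smul, hz.star_eq, hy.star_eq]
    simp [sub_eq_add_neg]
  have hnn : IsStarNormal n := ⟨by
    rw [hsn, hn]
    have c1 : Commute z (Complex.I • y) := hzy.smul_right _
    exact ((Commute.refl z).add_right c1).sub_left (c1.symm.add_right (Commute.refl _))⟩
  set x₀ : ℝ := -(‖n‖ + 2) with hx₀
  set M := ⌈(2 * ‖n‖ + 4) / η⌉₊ with hM
  have hM1 : 2 * ‖n‖ + 4 ≤ M * η := by
    have := Nat.le_ceil ((2 * ‖n‖ + 4) / η)
    rwa [div_le_iff₀ hη0] at this
  set r := min (η / 2) (min η 1 / (M + 1)) with hr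
  have hr0 : 0 < r := by positivity
  have hr1 : r ≤ η / 2 := min_le_left _ _
  have hr2 : ((M + 1 : ℕ) : ℝ) * r ≤ min η 1 := by
    have : r ≤ min η 1 / (M + 1) := min_le_right _ _
    rw [le_div_iff₀ (by positivity)] at this
    push_cast
    linarith
  let l : ℕ → ℂ := fun j => ((x₀ + j * η : ℝ) : ℂ) + c * Complex.I
  obtain ⟨n', a1, a2, a3⟩ := h.puncture_many hnn l hr0 (fun i j hij => by
    have : l i - l j = ((((i : ℝ) - j) * η : ℝ) : ℂ) := by simp only [l]; push_cast; ring
    rw [this, Complex.norm_real, Real.norm_eq_abs, abs_mul, abs_of_pos hη0]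
    have : (1 : ℝ) ≤ |(i : ℝ) - j| := by
      have : (1 : ℤ) ≤ |(i : ℤ) - j| := Int.one_le_abs (by omega)
      exact_mod_cast this
    nlinarith) (M + 1)
  have a4 : ‖n' - n‖ ≤ η := a2.trans (hr2.trans (min_le_left _ _))
  have a5 : ‖n'‖ ≤ ‖n‖ + 1 := by
    have := norm_add_le (n' - n) n
    rw [sub_add_cancel] at this
    linarith [a2.trans (hr2.trans (min_le_right _ _))]
  obtain ⟨X, _, _, Φ, hΦ, hsp, hS⟩ := exists_gelfand {n'} (by
    rintro p rfl q rfl
    exact ⟨Commute.refl _, a1.star_comm_self⟩)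
  obtain ⟨f, hf⟩ := hS n' rfl
  have hfs : ∀ t, f t ∈ spectrum ℂ n' := fun t => by rw [← hf, hsp]; exact ⟨t, rfl⟩
  obtain ⟨φ, U, b1, b2, b3, b4⟩ := exists_config f c x₀ hη0 hr0 M (fun t => by
      have h1 : ‖f t‖ ≤ ‖n'‖ := by
        haveI : Nontrivial Q := by
          by_contra hQ
          rw [not_nontrivial_iff_subsingleton] at hQ
          simpa [spectrum.of_subsingleton] using hfs t
        exact spectrum.norm_le_norm_of_mem (hfs t)
      have h2 := abs_le.1 (Complex.abs_re_le_norm (f t))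
      constructor <;> linarith [h2.1, h2.2]) (fun t j hj => a3 j hj _ (hfs t))
  obtain ⟨q, q1, q2, q3, q4⟩ := h.cut_core Φ f l (δ := 2 * η) (by positivity) M φ U b1 b4
  rw [hf] at q2
  have hqn := q1.norm_le
  have c1 : ‖q * n - n * q‖ ≤ ε := by
    have : q * n - n * q = (q * n' - n' * q) - (q * (n' - n) - (n' - n) * q) := by noncomm_ring
    rw [this]
    calc _ ≤ ‖q * n' - n' * q‖ + (‖q‖ * ‖n' - n‖ + ‖n' - n‖ * ‖q‖) :=
          (norm_sub_le _ _).trans (add_le_add_right ((norm_sub_le _ _).trans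
            (add_le_add (norm_mul_le _ _) (norm_mul_le _ _))) _)
      _ ≤ 2 * (2 * η) + (1 * η + η * 1) := by gcongr
      _ = ε := by rw [hη]; ring
  have c2 : star (q * n - n * q) = -(q * star n - star n * q) := by
    rw [star_sub, star_mul, star_mul, q1.isSelfAdjoint.star_eq]; abel
  let im : C(X, ℂ) := ⟨fun t => ((f t).im : ℝ), by fun_prop⟩
  have hims : IsSelfAdjoint (Φ im) := by
    rw [IsSelfAdjoint, ← map_star]; congr 1; ext t; simp [im]
  have c3 : ‖Φ im - y‖ ≤ η := by
    refine norm_le_of_two_I (b := n' - n) (Or.inr (Or.inl ?_)) a4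
    have e1 : (2 * Complex.I) • Φ im = n' - star n' := by
      rw [← hf, ← map_star, ← map_sub, ← map_smul]
      congr 1
      ext t
      simp only [im, ContinuousMap.smul_apply, ContinuousMap.coe_mk, ContinuousMap.sub_apply,
        ContinuousMap.star_apply, Complex.star_def, Complex.sub_conj, smul_eq_mul]
      push_cast; ring
    rw [smul_sub, e1, star_sub, hsn, hn, mul_smul, two_smul]
    abel
  refine ⟨q, q1, ?_, ?_, ?_, ?_⟩
  · refine norm_le_of_two_I (Or.inr (Or.inr (Or.inl ?_))) c1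
    rw [c2, hsn, hn, two_smul]
    noncomm_ring
  · refine norm_le_of_two_I (Or.inr (Or.inr (Or.inr ?_))) c1
    rw [c2, hsn, hn, mul_smul, two_smul]
    simp only [mul_add, add_mul, mul_sub, sub_mul, mul_smul_comm, smul_mul_assoc, smul_sub]
    abel
  · let g : C(X, ℂ) := ⟨fun t => (max 0 (c - r / 2 - (f t).im) : ℝ), by fun_prop⟩
    have d1 := q3 g fun t ht => by
      have : ¬ (f t).im ≤ c - r / 2 := fun h' => ht (b3 t h')
      simp only [g, ContinuousMap.coe_mk]
      rw [max_eq_left (by linarith)]; simp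
    have d2 : 0 ≤ Φ (g - (algebraMap ℂ _ ((c - r / 2 : ℝ) : ℂ) - im)) :=
      gel_nonneg Φ fun t => ⟨max 0 (c - r / 2 - (f t).im) - (c - r / 2 - (f t).im),
        by linarith [le_max_right 0 (c - r / 2 - (f t).im)], by simp [g, im]⟩
    have d3 := star_left_conjugate_nonneg d2 q
    rw [map_sub, map_sub, AlgHomClass.commutes, Algebra.algebraMap_eq_smul_one, Complex.coe_smul,
      q1.isSelfAdjoint.star_eq, mul_sub, sub_mul, mul_assoc q (Φ g), d1, mul_zero, zero_sub,
      Left.nonneg_neg_iff, mul_sub, sub_mul, mul_smul_comm, smul_mul_assoc, mul_one,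
      q1.isIdempotentElem.eq] at d3
    have d4 := conj_le_of_norm q1 (hims.sub hy) c3
    have d5 : (r / 2) • q ≤ algebraMap ℝ Q η := by
      rw [Algebra.algebraMap_eq_smul_one]
      exact (smul_le_smul_of_nonneg_left q1.le_one (by positivity)).trans
        (smul_le_smul_of_nonneg_right (by linarith) zero_le_one)
    have d6 : algebraMap ℝ Q η + algebraMap ℝ Q η ≤ algebraMap ℝ Q ε := by
      rw [← map_add, Algebra.algebraMap_eq_smul_one, Algebra.algebraMap_eq_smul_one]
      exact smul_le_smul_of_nonneg_right (by linarith) zero_le_one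
    refine le_trans (le_of_eq ?_) ((add_le_add (add_le_add d3 d4) d5).trans (by rwa [zero_add]))
    rw [sub_smul]
    noncomm_ring
  · let g : C(X, ℂ) := ⟨fun t => (max 0 ((f t).im - (c + r / 2)) : ℝ), by fun_prop⟩
    have d1 := q4 g fun t ht => by
      have : ¬ c + r / 2 ≤ (f t).im := fun h' => ht (b2 t h')
      simp only [g, ContinuousMap.coe_mk]
      rw [max_eq_left (by linarith)]; simp
    have d2 : 0 ≤ Φ (g - (im - algebraMap ℂ _ ((c + r / 2 : ℝ) : ℂ))) :=
      gel_nonneg Φ fun t => ⟨max 0 ((f t).im - (c + r / 2)) - ((f t).im - (c + r / 2)),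
        by linarith [le_max_right 0 ((f t).im - (c + r / 2))], by simp [g, im]⟩
    have q1' := q1.one_sub
    generalize 1 - q = p at d1 q1' ⊢
    have d3 := star_left_conjugate_nonneg d2 p
    rw [map_sub, map_sub, AlgHomClass.commutes, Algebra.algebraMap_eq_smul_one, Complex.coe_smul,
      q1'.isSelfAdjoint.star_eq, mul_sub, sub_mul, mul_assoc p (Φ g), d1, mul_zero, zero_sub,
      Left.nonneg_neg_iff, mul_sub, sub_mul, mul_smul_comm, smul_mul_assoc, mul_one,
      q1'.isIdempotentElem.eq] at d3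
    have d4 := conj_le_of_norm q1' (hy.sub hims) ((norm_sub_rev _ _).trans_le c3)
    have d5 : (r / 2) • p ≤ algebraMap ℝ Q η := by
      rw [Algebra.algebraMap_eq_smul_one]
      exact (smul_le_smul_of_nonneg_left q1'.le_one (by positivity)).trans
        (smul_le_smul_of_nonneg_right (by linarith) zero_le_one)
    have d6 : algebraMap ℝ Q η + algebraMap ℝ Q η ≤ algebraMap ℝ Q ε := by
      rw [← map_add, Algebra.algebraMap_eq_smul_one, Algebra.algebraMap_eq_smul_one]
      exact smul_le_smul_of_nonneg_right (by linarith) zero_le_one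
    refine le_trans (le_of_eq ?_) ((add_le_add (add_le_add d3 d4) d5).trans (by rwa [zero_add]))
    rw [add_smul]
    noncomm_ring

end Pool.Agent.Lib.MP_30b5b4_an
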