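import Pool.Agent.Lib.MP_30b5b4_an.Cut1
import Pool.Agent.Lib.MP_30b5b4_an.Ultra

/-! Cutting an order zero map by a projection in an ultraproduct of finite-dimensional algebras. -/

open scoped CStarAlgebra ComplexOrder Topology
open Filter

set_option linter.unusedSectionVars false
set_option linter.style.haveILetI false

namespace Pool.Agent.Lib.MP_30b5b4_an

universe u

section abstract
variable {Q : Type*} [CStarAlgebra Q] [PartialOrder Q] [StarOrderedRing Q]

noncomputable def pp (x : Q) : Q := cfc (fun s : ℝ => max s 0) x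

lemma le_of_norm_pp {x : Q} (hx : IsSelfAdjoint x) {r : ℝ} (h : ‖pp x‖ ≤ r) :
    x ≤ algebraMap ℝ Q r := by
  have h1 : x ≤ pp x := by
    conv_lhs => rw [← cfc_id' ℝ x]
    exact cfc_mono (fun s _ => le_max_left _ _) (by fun_prop) (by fun_prop)
  exact h1.trans ((CStarAlgebra.norm_le_iff_le_algebraMap _ ((norm_nonneg _).trans h)
    (cfc_nonneg fun s _ => le_max_right _ _)).1 h)

lemma norm_pp_le {x : Q} (hx : IsSelfAdjoint x) {r : ℝ} (hr : 0 ≤ r) (h : x ≤ algebraMap ℝ Q r) :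
    ‖pp x‖ ≤ r := by
  refine norm_cfc_le hr fun s hs => ?_
  rw [Real.norm_of_nonneg (le_max_right _ _)]
  exact max_le ((le_algebraMap_iff_spectrum_le hx).1 h s hs) hr

lemma sa_conj {q y : Q} (hq : IsSelfAdjoint q) (hy : IsSelfAdjoint y) :
    IsSelfAdjoint (q * y * q) := by
  rw [IsSelfAdjoint, star_mul, star_mul, hq.star_eq, hy.star_eq, mul_assoc]

lemma sa_real_smul {q : Q} (hq : IsSelfAdjoint q) (c : ℝ) : IsSelfAdjoint (c • q) := by
  rw [IsSelfAdjoint, star_smul, hq.star_eq, star_trivial]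

def EC (Q : Type*) [CStarAlgebra Q] [PartialOrder Q] [StarOrderedRing Q] : Prop :=
  ∀ z y : Q, IsSelfAdjoint z → IsSelfAdjoint y → Commute z y → ∀ c : ℝ,
    ∃ q, IsStarProjection q ∧ Commute q z ∧ Commute q y ∧ c • q ≤ q * y * q ∧
      (1 - q) * y * (1 - q) ≤ c • (1 - q)

lemma EC.step1 (hQ : EC Q) {h y : Q} (hh : 0 ≤ h) (hy : IsSelfAdjoint y) (hc : Commute y h)
    {η : ℝ} (hη : 0 < η) :
    ∃ P s : Q, IsStarProjection P ∧ IsSelfAdjoint s ∧ Commute P y ∧ Commute s y ∧ h * s = P ∧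
      s * h = P ∧ s * P = s ∧ Commute P h ∧ ‖h * (P - 1)‖ ≤ η := by
  obtain ⟨P, p1, p2, p3, p4, p5⟩ := hQ y h hy hh.isSelfAdjoint hc η
  have e1 : P * h * P = h * P := by rw [p3.eq, mul_assoc, p1.isIdempotentElem.eq]
  set h' := h * P + η • (1 - P) with hh'
  have l1 : algebraMap ℝ Q η ≤ h' := by
    rw [hh', ← e1, Algebra.algebraMap_eq_smul_one]
    refine le_trans (le_of_eq ?_) (add_le_add_left p4 _)
    rw [← smul_add]; simp
  have hu : IsUnit h' := by
    refine CStarAlgebra.isUnit_of_le _ l1 ?_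
    exact isStrictlyPositive_algebraMap hη
  have hs : IsSelfAdjoint h' := by
    rw [hh', ← e1]
    exact (sa_conj p1.isSelfAdjoint hh.isSelfAdjoint).add (sa_real_smul p1.one_sub.isSelfAdjoint _)
  obtain ⟨v, hv⟩ := hu
  have c1 : Commute h' P := ((p3.symm.mul_left (Commute.refl P))).add_left
    (((Commute.one_left P).sub_left (Commute.refl P)).smul_left η)
  have c2 : Commute h' y := ((hc.symm.mul_left p2)).add_left
    (((Commute.one_left y).sub_left p2).smul_left η)
  have c3 : Commute h' h := (((Commute.refl h).mul_left p3)).add_left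
    (((Commute.one_left h).sub_left p3).smul_left η)
  rw [← hv] at c1 c2 c3 hs
  have d1 := c1.units_inv_left
  have d2 := c2.units_inv_left
  have d3 := c3.units_inv_left
  have e2 : (v : Q) * P = h * P := by
    rw [hv, hh', add_mul, mul_assoc, p1.isIdempotentElem.eq, smul_mul_assoc, p1.one_sub_mul_self]
    simp
  have e3 : (↑v⁻¹ : Q) * P * h = P := by
    rw [mul_assoc, p3.eq, ← e2, ← mul_assoc]; simp
  have e4 : star (↑v⁻¹ : Q) = ↑v⁻¹ := by
    rw [← Units.coe_star_inv]
    congr 2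
    exact Units.ext hs.star_eq
  refine ⟨P, ↑v⁻¹ * P, p1, ?_, p2, d2.mul_left p2, ?_, e3, ?_, p3, ?_⟩
  · rw [IsSelfAdjoint, star_mul, e4, p1.isSelfAdjoint.star_eq, d1.eq]
  · rw [← (d3.mul_left p3).eq, e3]
  · rw [mul_assoc, p1.isIdempotentElem.eq]
  · have c4 : Commute (1 - P) h := (Commute.one_left h).sub_left p3
    have e5 : (1 - P) * h * (1 - P) = h * (1 - P) := by
      rw [c4.eq, mul_assoc, p1.one_sub.isIdempotentElem.eq]
    rw [← neg_sub, mul_neg, norm_neg, ← e5, CStarAlgebra.norm_le_iff_le_algebraMap _ hη.le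
      (p1.one_sub.isSelfAdjoint.conjugate_nonneg hh), Algebra.algebraMap_eq_smul_one]
    exact p5.trans (smul_le_smul_of_nonneg_left p1.one_sub.le_one hη.le)

lemma corner_cut {P q y : Q} {c : ℝ} (hP : IsStarProjection P)
    (hc : Commute q P) (h : c • q ≤ q * y * q) : c • (q * P) ≤ (q * P) * y * (q * P) := by
  have := hP.isSelfAdjoint.conjugate_le_conjugate h
  rwa [mul_smul_comm, smul_mul_assoc, ← hc.eq, mul_assoc q P P, hP.isIdempotentElem.eq,
    ← mul_assoc P, ← mul_assoc P, ← hc.eq, mul_assoc _ q P] at this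

lemma corner_cut' {P q y : Q} {c : ℝ} (hP : IsStarProjection P)
    (hc : Commute q P) (h : q * y * q ≤ c • q) : (q * P) * y * (q * P) ≤ c • (q * P) := by
  have := hP.isSelfAdjoint.conjugate_le_conjugate h
  rwa [mul_smul_comm, smul_mul_assoc, ← hc.eq, mul_assoc q P P, hP.isIdempotentElem.eq,
    ← mul_assoc P, ← mul_assoc P, ← hc.eq, mul_assoc _ q P] at this

lemma EC.step2 (hQ : EC Q) {h y P s : Q} (hh : IsSelfAdjoint h) (hy : IsSelfAdjoint y)
    (hc : Commute y h) (hP : IsStarProjection P) (c1 : Commute P y) (c2 : Commute P h)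
    (e1 : s * h = P) (c : ℝ) :
    ∃ a : Q, IsStarProjection a ∧ P * a = a ∧ a * P = a ∧ Commute a y ∧ Commute a h ∧
      c • a ≤ a * y * a ∧ (P - a) * y * (P - a) ≤ c • (P - a) := by
  have hs : IsSelfAdjoint (h * P) := by
    rw [IsSelfAdjoint, star_mul, hh.star_eq, hP.isSelfAdjoint.star_eq, c2.eq]
  obtain ⟨q, q1, q2, q3, q4, q5⟩ := hQ (h * P) y hs hy (hc.symm.mul_left c1) c
  have e2 : P * q * (1 - P) = 0 := by
    have : P = s * (h * P) := by rw [← mul_assoc, e1, hP.isIdempotentElem.eq]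
    conv_lhs => enter [1, 1]; rw [this]
    rw [mul_assoc s, ← q2.eq, mul_assoc, mul_assoc, mul_assoc, hP.mul_one_sub_self]
    simp
  have e3 : Commute q P := by
    have e4 := congrArg star e2
    rw [star_mul, star_mul, hP.one_sub.isSelfAdjoint.star_eq, hP.isSelfAdjoint.star_eq,
      q1.isSelfAdjoint.star_eq, star_zero, sub_mul, one_mul, sub_eq_zero] at e4
    rw [mul_sub, mul_one, sub_eq_zero] at e2
    change _ * _ = _ * _
    rw [e4, e2, mul_assoc]
  refine ⟨q * P, q1.mul hP e3, ?_, ?_, q3.mul_left c1, ?_, corner_cut hP e3 q4, ?_⟩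
  · rw [← mul_assoc, ← e3.eq, mul_assoc, hP.isIdempotentElem.eq]
  · rw [mul_assoc, hP.isIdempotentElem.eq]
  · change _ * _ = _ * _
    rw [mul_assoc, c2.eq, q2.eq, mul_assoc, ← e3.eq]
  · have := corner_cut' hP ((Commute.one_left P).sub_left e3) q5
    rwa [sub_mul, one_mul] at this

lemma assemble {ι : Type*} [Fintype ι] (u P a : ι → Q) (a₀ y : Q)
    (h1 : ∀ i j, i ≠ j → star (u i) * u j = 0) (h2 : ∀ i, star (u i) * u i = P i)
    (h3 : ∀ i, IsStarProjection (a i)) (h4 : ∀ i, a i * P i = a i) (h5 : IsStarProjection a₀)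
    (h6 : ∀ i, a₀ * u i = 0) (h7 : ∀ i, Commute (u i) y) (h8 : ∀ i, Commute (star (u i)) y)
    (h9 : ∀ i, Commute (a i) y) (h10 : Commute a₀ y) {X : Q}
    (hX : X = ∑ i, u i * a i * star (u i) + a₀) :
    IsStarProjection X ∧ Commute X y ∧
      X * y * X = ∑ i, u i * (a i * y * a i) * star (u i) + a₀ * y * a₀ ∧
      ∀ i, X * u i = u i * a i := by
  classical
  have e1 : ∀ i, X * u i = u i * a i := by
    intro i
    rw [hX, add_mul, h6, add_zero, Finset.sum_mul, Finset.sum_eq_single i]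
    · rw [mul_assoc, h2, mul_assoc, h4]
    · intro j _ hj
      rw [mul_assoc, h1 j i hj, mul_zero]
    · simp
  have e2 : ∀ i, star (u i) * a₀ = 0 := fun i => by
    have := congrArg star (h6 i)
    rwa [star_mul, h5.isSelfAdjoint.star_eq, star_zero] at this
  have e3 : X * a₀ = a₀ := by
    rw [hX, add_mul, h5.isIdempotentElem.eq, Finset.sum_mul,
      Finset.sum_eq_zero fun i _ => by rw [mul_assoc, e2, mul_zero], zero_add]
  have e4 : IsStarProjection X := by
    refine ⟨?_, ?_⟩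
    · rw [IsIdempotentElem]
      conv_lhs => enter [2]; rw [hX]
      rw [mul_add, e3, Finset.mul_sum, hX]
      congr 1
      refine Finset.sum_congr rfl fun i _ => ?_
      rw [← hX, ← mul_assoc, ← mul_assoc, e1, mul_assoc (u i), (h3 i).isIdempotentElem.eq]
    · rw [hX]
      refine (isSelfAdjoint_sum _ fun i _ => ?_).add h5.isSelfAdjoint
      rw [IsSelfAdjoint, star_mul, star_mul, star_star, (h3 i).isSelfAdjoint.star_eq, mul_assoc]
  have e5 : Commute X y := by
    rw [hX]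
    exact (Commute.sum_left _ _ _ fun i _ => ((h7 i).mul_left (h9 i)).mul_left (h8 i)).add_left h10
  refine ⟨e4, e5, ?_, e1⟩
  rw [mul_assoc, ← e5.eq, ← mul_assoc, e4.isIdempotentElem.eq, hX, add_mul, Finset.sum_mul,
    mul_assoc a₀, ← h10.eq, ← mul_assoc a₀, h5.isIdempotentElem.eq]
  congr 1
  refine Finset.sum_congr rfl fun i _ => ?_
  rw [mul_assoc (a i), ← (h9 i).eq, ← mul_assoc (a i), (h3 i).isIdempotentElem.eq, mul_assoc,
    (h8 i).eq]
  simp only [mul_assoc]

variable {F : Type*} [CStarAlgebra F]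

theorem EC.oz_cut (hQ : EC Q) [FiniteDimensional ℂ F] {z : F →ₗ[ℂ] Q} (hz : OZ z) {y : Q}
    (hy : IsSelfAdjoint y) (hc : ∀ x, Commute y (z x)) (c : ℝ) {ε : ℝ} (hε : 0 < ε) :
    ∃ q, IsStarProjection q ∧ Commute q y ∧ (∀ x, ‖q * z x - z x * q‖ ≤ ε * ‖x‖) ∧
      c • q ≤ q * y * q ∧ (1 - q) * y * (1 - q) ≤ c • (1 - q) := by
  classical
  obtain ⟨M⟩ := exists_MU F
  set η := ε / (2 * (M.N : ℝ) ^ 2 + 1) with hη
  have hη0 : 0 < η := by positivity
  let h : Fin M.N → Q := fun i => z (star (M.v i) * M.v i)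
  have hh : ∀ i, 0 ≤ h i := fun i => hz.cp.proj_nonneg (M.proj i)
  have hcl : ∀ i j, M.cl i = M.cl j → h i = h j := fun i j hij => by
    simp only [h, M.init i j hij]
  have key : ∀ k : Q, 0 ≤ k → Commute y k → ∃ P s a : Q, IsStarProjection P ∧ IsSelfAdjoint s ∧
      Commute P y ∧ Commute s y ∧ k * s = P ∧ s * k = P ∧ s * P = s ∧ ‖k * (P - 1)‖ ≤ η ∧
      IsStarProjection a ∧ P * a = a ∧ a * P = a ∧ Commute a y ∧ Commute a k ∧
      c • a ≤ a * y * a ∧ (P - a) * y * (P - a) ≤ c • (P - a) := by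
    intro k hk hyk
    obtain ⟨P, s, a1, a2, a3, a4, a5, a6, a7, a8, a9⟩ := hQ.step1 hk hy hyk hη0
    obtain ⟨a, b⟩ := hQ.step2 hk.isSelfAdjoint hy hyk a1 a3 a8 a6 c
    exact ⟨P, s, a, a1, a2, a3, a4, a5, a6, a7, a9, b⟩
  choose! P s a key using key
  have k := fun i => key (h i) (hh i) (hc _)
  let u : Fin M.N → Q := fun i => z (M.v i) * s (h i)
  have hw : ∀ i, star (z (M.v i)) * z (M.v i) = h i * h i := fun i => by
    simp only [h]
    rw [hz.star_mul_self, hz.mul (star (M.v i) * M.v i), (M.proj i).isIdempotentElem.eq]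
  have u1 : ∀ i j, i ≠ j → star (u i) * u j = 0 := fun i j hij => by
    simp only [u]
    rw [star_mul, mul_assoc, ← mul_assoc (star (z _)), ← hz.cp.map_star,
      hz.mul_eq_zero (M.orth i j hij), zero_mul, mul_zero]
  have u2 : ∀ i, star (u i) * u i = P (h i) := fun i => by
    simp only [u]
    rw [star_mul, mul_assoc, ← mul_assoc (star (z _)), hw, (k i).2.1.star_eq, mul_assoc,
      (k i).2.2.2.2.1, ← mul_assoc, (k i).2.2.2.2.2.1, (k i).1.isIdempotentElem.eq]
  have u3 : ∀ i, Commute (u i) y := fun i => (hc _).symm.mul_left (k i).2.2.2.1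
  have u4 : ∀ i, Commute (star (u i)) y := fun i => by
    have := (u3 i).star_star
    rwa [hy.star_eq] at this
  have u5 : ∀ i, u i * P (h i) = u i := fun i => by
    simp only [u]; rw [mul_assoc, (k i).2.2.2.2.2.2.1]
  obtain ⟨E1, E2, -, E4⟩ := assemble u (fun i => P (h i)) (fun i => P (h i)) 0 y u1 u2
    (fun i => (k i).1) (fun i => (k i).1.isIdempotentElem.eq) (IsStarProjection.zero Q)
    (fun i => zero_mul _) u3 u4 (fun i => (k i).2.2.1) (Commute.zero_left y) rfl
  set E := ∑ i, u i * P (h i) * star (u i) + 0 with hE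
  have c0 : Commute (1 - E) y := (Commute.one_left y).sub_left E2
  obtain ⟨a₀, b1, b2, b3, b4, -, b6, b7⟩ := hQ.step2 (s := 1) E1.one_sub.isSelfAdjoint hy c0.symm
    E1.one_sub c0 (Commute.refl _) (one_mul _) c
  have v1 : ∀ i, (1 - E) * u i = 0 := fun i => by rw [sub_mul, E4, u5, one_mul, sub_self]
  have v2 : ∀ i, a₀ * u i = 0 := fun i => by rw [← b3, mul_assoc, v1, mul_zero]
  obtain ⟨X1, X2, X3, X4⟩ := assemble u (fun i => P (h i)) (fun i => a (h i)) a₀ y u1 u2
    (fun i => (k i).2.2.2.2.2.2.2.2.1) (fun i => (k i).2.2.2.2.2.2.2.2.2.2.1) b1 v2 u3 u4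
    (fun i => (k i).2.2.2.2.2.2.2.2.2.2.2.1) b4 rfl
  set q := ∑ i, u i * a (h i) * star (u i) + a₀ with hq
  have hq' : 1 - q = ∑ i, u i * (P (h i) - a (h i)) * star (u i) + (1 - E - a₀) := by
    simp only [hq, hE, mul_sub, sub_mul, Finset.sum_sub_distrib]
    abel
  obtain ⟨-, -, Y3, -⟩ := assemble u (fun i => P (h i)) (fun i => P (h i) - a (h i))
    (1 - E - a₀) y u1 u2
    (fun i => (k i).2.2.2.2.2.2.2.2.1.sub_of_mul_eq_right (k i).1 (k i).2.2.2.2.2.2.2.2.2.1)
    (fun i => by rw [sub_mul, (k i).1.isIdempotentElem.eq, (k i).2.2.2.2.2.2.2.2.2.2.1])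
    (b1.sub_of_mul_eq_right E1.one_sub b2) (fun i => by rw [sub_mul, v1, v2, sub_zero]) u3 u4
    (fun i => (k i).2.2.1.sub_left (k i).2.2.2.2.2.2.2.2.2.2.2.1) (c0.sub_left b4) hq'
  refine ⟨q, X1, X2, fun x => ?_, ?_, ?_⟩
  · let w : Fin M.N → Q := fun i => u i * sq (h i)
    have w1 : ∀ i j, M.cl i = M.cl j → w i * star (w j) = u i * h i * star (u j) := by
      intro i j hij
      simp only [w]
      rw [star_mul, sq_star, ← hcl i j hij, mul_assoc, ← mul_assoc (sq _), sq_mul_sq (hh i),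
        mul_assoc (u i)]
    have w2 := MU.norm_sub_build_le hz (fun i => s (h i) * h i * s (h i)) (w := w)
      (fun i j hij => by
        rw [w1 i j hij]
        simp only [u]
        rw [star_mul, ← hcl i j hij, (k i).2.1.star_eq]
        simp only [mul_assoc])
      (fun i => sa_conj (k i).2.1 (hh i).isSelfAdjoint) hη0.le (fun i => by
        change ‖h i * (s (h i) * h i * s (h i) * h i - 1)‖ ≤ η
        rw [mul_assoc _ (s (h i)), (k i).2.2.2.2.2.1, (k i).1.isIdempotentElem.eq]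
        exact (k i).2.2.2.2.2.2.2.1) x
    have w3 : Commute q (M.build w x) := by
      rw [MU.build_apply]
      refine Commute.sum_right _ _ _ fun i _ => Commute.sum_right _ _ _ fun j _ => ?_
      by_cases hij : M.cl i = M.cl j
      swap
      · rw [M.zero i j x hij, zero_smul]; exact Commute.zero_right _
      refine Commute.smul_right ?_ _
      have e1 : star (u j) * q = a (h j) * star (u j) := by
        have := congrArg star (X4 j)
        rwa [star_mul q, star_mul (u j), X1.isSelfAdjoint.star_eq,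
          (k j).2.2.2.2.2.2.2.2.1.isSelfAdjoint.star_eq] at this
      change _ * _ = _ * _
      rw [w1 i j hij, ← mul_assoc, ← mul_assoc, X4, mul_assoc _ (star (u j)), e1, ← hcl i j hij,
        mul_assoc (u i), (k i).2.2.2.2.2.2.2.2.2.2.2.2.1.eq]
      simp only [mul_assoc]
    have e2 : q * z x - z x * q = (M.build w x - z x) * q - q * (M.build w x - z x) := by
      rw [sub_mul, mul_sub, w3.eq]; abel
    have := X1.norm_le
    have hη' : 2 * (M.N : ℝ) ^ 2 * η ≤ ε := by
      rw [hη, mul_div_assoc', div_le_iff₀ (by positivity)]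
      nlinarith
    rw [e2]
    calc _ ≤ ‖M.build w x - z x‖ * ‖q‖ + ‖q‖ * ‖M.build w x - z x‖ :=
          (norm_sub_le _ _).trans (add_le_add (norm_mul_le _ _) (norm_mul_le _ _))
      _ ≤ (M.N : ℝ) ^ 2 * η * ‖x‖ * 1 + 1 * ((M.N : ℝ) ^ 2 * η * ‖x‖) := by gcongr
      _ = (2 * (M.N : ℝ) ^ 2 * η) * ‖x‖ := by ring
      _ ≤ _ := by gcongr
  · rw [X3, hq, smul_add, Finset.smul_sum]
    refine add_le_add (Finset.sum_le_sum fun i _ => ?_) b6
    have := star_right_conjugate_le_conjugate (k i).2.2.2.2.2.2.2.2.2.2.2.2.2.1 (u i)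
    rwa [mul_smul_comm, smul_mul_assoc] at this
  · rw [Y3, hq', smul_add, Finset.smul_sum]
    refine add_le_add (Finset.sum_le_sum fun i _ => ?_) b7
    have := star_right_conjugate_le_conjugate (k i).2.2.2.2.2.2.2.2.2.2.2.2.2.2 (u i)
    rwa [mul_smul_comm, smul_mul_assoc] at this

end abstract

end Pool.Agent.Lib.MP_30b5b4_an
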