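import Pool.Agent.Lib.MP_30b5b4_an.Cut2

/-! The exact cut in an ultraproduct of finite-dimensional algebras. -/

open scoped CStarAlgebra ComplexOrder Topology
open Filter

set_option linter.unusedSectionVars false
set_option linter.style.haveILetI false

namespace Pool.Agent.Lib.MP_30b5b4_an

universe u

lemma polar_unit {Q : Type*} [CStarAlgebra Q] [PartialOrder Q] [StarOrderedRing Q] {y : Q}
    (hy : IsUnit y) : ∃ u ∈ unitary Q, y = u * sq (star y * y) := by
  have h1 := sq_mul_sq (star_mul_self_nonneg y)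
  have h2 : IsUnit (sq (star y * y)) := by
    rw [← isUnit_mul_self_iff, h1]
    exact hy.star.mul hy
  obtain ⟨a, ha⟩ := h2
  have h3 : star (↑a⁻¹ : Q) = ↑a⁻¹ := by
    rw [← Units.coe_star_inv]
    congr 2
    exact Units.ext (by rw [Units.coe_star, ha, sq_star])
  have h4 : star (y * ↑a⁻¹) * (y * ↑a⁻¹) = 1 := by
    rw [star_mul, h3, mul_assoc, ← mul_assoc (star y), ← h1, ← ha]
    simp
  refine ⟨y * ↑a⁻¹, ⟨h4, ?_⟩, by rw [← ha]; simp⟩
  obtain ⟨v, hv⟩ := hy.mul a⁻¹.isUnit
  rw [← hv] at h4 ⊢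
  rw [Units.eq_inv_of_mul_eq_one_right h4]
  simp

lemma fd_near_unit {F : Type*} [CStarAlgebra F] [FiniteDimensional ℂ F] (x : F) {r : ℝ}
    (hr : 0 < r) : ∃ y, IsUnit y ∧ ‖x - y‖ ≤ r := by
  obtain ⟨s, hs, hs'⟩ := (Set.Ioo_infinite hr).exists_notMem_finite (fd_spectrum_finite_real x)
  refine ⟨x - algebraMap ℝ F s, ?_, ?_⟩
  · rw [← neg_sub]
    exact (spectrum.notMem_iff.1 hs').neg
  · rw [sub_sub_cancel, Algebra.algebraMap_eq_smul_one, norm_smul, Real.norm_of_nonneg hs.1.le]
    nlinarith [norm_one_le' F, hs.1, hs.2]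

variable {G : ℕ → Type u} [∀ k, CStarAlgebra (G k)] [∀ k, FiniteDimensional ℂ (G k)]
  [∀ k, PartialOrder (G k)] [∀ k, StarOrderedRing (G k)]

lemma ult_polar (x : Ult G) : ∃ v : Bdd G, (∀ k, Bdd.ev k v ∈ unitary (G k)) ∧
    x = Ult.mk v * sq (star x * x) := by
  obtain ⟨x, rfl⟩ := Ult.surj x
  choose y hy1 hy2 using fun k : ℕ => fd_near_unit (Bdd.ev k x)
    (show (0 : ℝ) < 1 / ((k : ℝ) + 1) by positivity)
  choose u hu1 hu2 using fun k => polar_unit (hy1 k)
  let y' : Bdd G := Bdd.of y (‖x‖ + 1) fun k => by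
    have h1 := norm_sub_le (Bdd.ev k x) (Bdd.ev k x - y k)
    rw [sub_sub_cancel] at h1
    have h2 : 1 / ((k : ℝ) + 1) ≤ 1 := by
      rw [div_le_one (by positivity)]; linarith [(Nat.cast_nonneg k : (0 : ℝ) ≤ k)]
    linarith [hy2 k, Bdd.norm_ev_le k x]
  let v : Bdd G := Bdd.of u 1 fun k => by
    have h1 := CStarRing.norm_star_mul_self (x := u k)
    rw [(hu1 k).1] at h1
    nlinarith [norm_one_le' (G k), norm_nonneg (u k)]
  have e1 : Ult.mk x = Ult.mk y' := Ult.mk_eq_of_le 1 fun k => by simpa [y'] using hy2 k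
  have e2 : y' = v * sq (star y' * y') := Bdd.ext fun k => by
    rw [map_mul, hom_sq _ (star_mul_self_nonneg _), map_mul, map_star]
    exact hu2 k
  refine ⟨v, hu1, ?_⟩
  rw [e1]
  conv_lhs => rw [e2]
  rw [map_mul, hom_sq _ (star_mul_self_nonneg _), map_mul, map_star]

lemma bdd_proj {p : Bdd G} (h : ∀ k, IsStarProjection (Bdd.ev k p)) : IsStarProjection p :=
  ⟨Bdd.ext fun k => by rw [map_mul, (h k).isIdempotentElem.eq],
    Bdd.isSelfAdjoint fun k => (h k).isSelfAdjoint⟩

lemma hom_proj {A D : Type*} [CStarAlgebra A] [CStarAlgebra D] (π : A →⋆ₐ[ℂ] D) {p : A}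
    (h : IsStarProjection p) : IsStarProjection (π p) :=
  ⟨by rw [IsIdempotentElem, ← map_mul, h.isIdempotentElem.eq], h.isSelfAdjoint.map π⟩

theorem ult_FR : FR (Ult G) := by
  classical
  refine ⟨fun x => ?_, fun u hu W => ?_⟩
  · obtain ⟨v, hv, h⟩ := ult_polar x
    refine ⟨Ult.mk v, ⟨?_, ?_⟩, h⟩
    · rw [← map_star, ← map_mul, ← map_one Ult.mk]
      exact congrArg _ (Bdd.ext fun k => by rw [map_mul, map_star, map_one, (hv k).1])
    · rw [← map_star, ← map_mul, ← map_one Ult.mk]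
      exact congrArg _ (Bdd.ext fun k => by rw [map_mul, map_star, map_one, (hv k).2])
  obtain ⟨v, hv, h⟩ := ult_polar u
  rw [hu.1, sq, cfc_apply_one, Real.sqrt_one, map_one, mul_one] at h
  have hn : ∀ k, IsStarNormal (Bdd.ev k v) := fun k => ⟨(hv k).1.trans (hv k).2.symm⟩
  have hn' : IsStarNormal v := ⟨Bdd.ext fun k => by
    rw [map_mul, map_mul, map_star]; exact (hn k).star_comm_self⟩
  let χ : ℂ → ℂ := fun w => if w ∈ W then 1 else 0
  have hp : ∀ k, IsStarProjection (cfc χ (Bdd.ev k v)) := fun k => by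
    refine ⟨?_, ?_⟩
    · rw [IsIdempotentElem, ← cfc_mul χ χ _ (fd_cont' _ _) (fd_cont' _ _)]
      congr 1
      funext s
      simp only [χ]
      split_ifs <;> simp
    · rw [IsSelfAdjoint, ← cfc_star]
      congr 1
      funext s
      simp only [χ]
      split_ifs <;> simp
  let e : Bdd G := Bdd.of (fun k => cfc χ (Bdd.ev k v)) 1 fun k => (hp k).norm_le
  refine ⟨Ult.mk e, hom_proj _ (bdd_proj hp), ?_, fun g hg => ⟨fun h0 => ?_, fun h0 => ?_⟩⟩
  · rw [h]
    refine Commute.map (Bdd.ext fun k => ?_) Ult.mk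
    rw [map_mul, map_mul]
    exact (Commute.refl _).cfc ((hn k).star_comm_self) χ
  · rw [h, ← hom_cfc' _ hg hn', ← map_mul, ← map_zero Ult.mk]
    refine congrArg _ (Bdd.ext fun k => ?_)
    rw [map_mul, hom_cfc' _ hg hn', map_zero, Bdd.ev_of,
      ← cfc_mul g χ _ (fd_cont' _ _) (fd_cont' _ _), ← cfc_zero ℂ (Bdd.ev k v)]
    congr 1
    funext s
    simp only [χ]
    split_ifs with hs <;> simp [h0, hs]
  · rw [h, ← hom_cfc' _ hg hn', ← map_one Ult.mk, ← map_sub, ← map_mul, ← map_zero Ult.mk]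
    refine congrArg _ (Bdd.ext fun k => ?_)
    haveI := hn k
    rw [map_mul, hom_cfc' _ hg hn', map_zero, map_sub, map_one, Bdd.ev_of, mul_sub, mul_one,
      ← cfc_mul g χ _ (fd_cont' _ _) (fd_cont' _ _), sub_eq_zero]
    congr 1
    funext s
    simp only [χ]
    split_ifs with hs <;> simp [h0, hs]

lemma proj_lift {q : Ult G} (hq : IsStarProjection q) :
    ∃ p : Bdd G, (∀ k, IsStarProjection (Bdd.ev k p)) ∧ Ult.mk p = q := by
  classical
  obtain ⟨y, hy, rfl⟩ := Ult.sa_lift hq.isSelfAdjoint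
  let χ : ℝ → ℝ := fun s => if 1 / 2 < s then 1 else 0
  have hp : ∀ k, IsStarProjection (cfc χ (Bdd.ev k y)) := fun k =>
    fd_proj _ _ fun s => by simp only [χ]; split_ifs <;> simp
  let p : Bdd G := Bdd.of (fun k => cfc χ (Bdd.ev k y)) 1 fun k => (hp k).norm_le
  refine ⟨p, hp, ?_⟩
  have h1 := Ult.tendsto_norm (y * y - y)
  rw [map_sub, map_mul, hq.isIdempotentElem.eq, sub_self, norm_zero] at h1
  rw [← sub_eq_zero, ← map_sub]
  refine Ult.mk_eq_zero_of_le (f := fun k => 2 * ‖Bdd.ev k (y * y - y)‖) (by simpa using h1.const_mul 2)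
    fun k => ?_
  have hk : IsSelfAdjoint (Bdd.ev k y) := hy.map _
  rw [map_sub, map_sub, map_mul, Bdd.ev_of]
  set a := Bdd.ev k y
  have e1 : cfc χ a - a = cfc (fun s => χ s - s) a := by
    rw [cfc_sub χ (fun s => s) a (fd_cont _ _), cfc_id' ℝ a]
  have e2 : a * a - a = cfc (fun s : ℝ => s * s - s) a := by
    rw [cfc_sub (fun s : ℝ => s * s) (fun s => s) a, cfc_mul (fun s : ℝ => s) (fun s => s) a,
      cfc_id' ℝ a]
  rw [e1, e2]
  refine norm_cfc_le (by positivity) fun s hs => ?_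
  refine le_trans ?_ (mul_le_mul_of_nonneg_left
    (norm_apply_le_norm_cfc (fun s : ℝ => s * s - s) a hs) zero_le_two)
  rw [show s * s - s = s * (s - 1) by ring, norm_mul, Real.norm_eq_abs, Real.norm_eq_abs,
    Real.norm_eq_abs]
  simp only [χ]
  split_ifs with h
  · rw [abs_sub_comm, abs_of_pos (by linarith : 0 < s)]
    nlinarith [abs_nonneg (s - 1)]
  · rw [zero_sub, abs_neg, abs_of_nonpos (by linarith : s - 1 ≤ 0)]
    nlinarith [abs_nonneg s]

lemma hom_pp {A D : Type*} [CStarAlgebra A] [CStarAlgebra D] (π : A →⋆ₐ[ℂ] D) {a : A}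
    (ha : IsSelfAdjoint a) : π (pp a) = pp (π a) := hom_cfc π (by fun_prop) ha

lemma hom_real_smul {A D : Type*} [CStarAlgebra A] [CStarAlgebra D] (π : A →⋆ₐ[ℂ] D) (c : ℝ)
    (a : A) : π (c • a) = c • π a := by
  rw [← Complex.coe_smul, map_smul, Complex.coe_smul]

lemma ult_sat {ι : Type*} [Fintype ι] (x : ι → Ult G) {y : Ult G} (hy : IsSelfAdjoint y) (c : ℝ)
    (h : ∀ ε > 0, ∃ q, IsStarProjection q ∧ (∀ i, ‖q * x i - x i * q‖ ≤ ε) ∧
      c • q - q * y * q ≤ algebraMap ℝ _ ε ∧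
      (1 - q) * y * (1 - q) - c • (1 - q) ≤ algebraMap ℝ _ ε) :
    ∃ q, IsStarProjection q ∧ (∀ i, Commute q (x i)) ∧ c • q ≤ q * y * q ∧
      (1 - q) * y * (1 - q) ≤ c • (1 - q) := by
  obtain ⟨y, hy', rfl⟩ := Ult.sa_lift hy
  choose x' hx' using fun i => Ult.surj (x i)
  let T : Bdd G → Option (Option ι) → Bdd G := fun p o => match o with
    | none => pp (c • p - p * y * p)
    | some none => pp ((1 - p) * y * (1 - p) - c • (1 - p))
    | some (some i) => p * x' i - x' i * p
  let T' : ∀ k, G k → Option (Option ι) → G k := fun k p o => match o with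
    | none => pp (c • p - p * Bdd.ev k y * p)
    | some none => pp ((1 - p) * Bdd.ev k y * (1 - p) - c • (1 - p))
    | some (some i) => p * Bdd.ev k (x' i) - Bdd.ev k (x' i) * p
  have s1 : ∀ p : Bdd G, IsStarProjection p → IsSelfAdjoint (c • p - p * y * p) := fun p hp =>
    (sa_real_smul hp.isSelfAdjoint c).sub (sa_conj hp.isSelfAdjoint hy')
  have s2 : ∀ p : Bdd G, IsStarProjection p →
      IsSelfAdjoint ((1 - p) * y * (1 - p) - c • (1 - p)) := fun p hp =>
    (sa_conj hp.one_sub.isSelfAdjoint hy').sub (sa_real_smul hp.one_sub.isSelfAdjoint c)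
  have e1 : ∀ p, IsStarProjection p → ∀ k o, Bdd.ev k (T p o) = T' k (Bdd.ev k p) o := by
    rintro p hp k (_ | _ | i)
    · simp only [T, T', hom_pp _ (s1 p hp), map_sub, map_mul, hom_real_smul]
    · simp only [T, T', hom_pp _ (s2 p hp), map_sub, map_mul, hom_real_smul, map_one]
    · simp only [T, T', map_sub, map_mul]
  obtain ⟨p, hp⟩ := eps_test (Y := fun k => {p : G k // IsStarProjection p})
    (fun k p => ∑ o, ‖T' k p o‖) (fun k p => by positivity) (by
      intro ε hε
      set δ := ε / (2 * (Fintype.card (Option (Option ι)))) with hδ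
      have hN : (0 : ℝ) < Fintype.card (Option (Option ι)) := by
        exact_mod_cast Fintype.card_pos
      have hδ0 : 0 < δ := by positivity
      obtain ⟨q, q1, q2, q3, q4⟩ := h δ hδ0
      obtain ⟨p, hp, rfl⟩ := proj_lift q1
      refine ⟨fun k => ⟨_, hp k⟩, ?_⟩
      have : ∀ o, ‖Ult.mk (T p o)‖ < 2 * δ := by
        have hp' := bdd_proj hp
        rintro (_ | _ | i)
        · simp only [T, hom_pp _ (s1 p hp')]
          refine (norm_pp_le ((s1 p hp').map _) hδ0.le ?_).trans_lt (by linarith)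
          simpa only [map_sub, map_mul, hom_real_smul] using q3
        · simp only [T, hom_pp _ (s2 p hp')]
          refine (norm_pp_le ((s2 p hp').map _) hδ0.le ?_).trans_lt (by linarith)
          simpa only [map_sub, map_mul, hom_real_smul, map_one] using q4
        · simp only [T, map_sub, map_mul, hx']
          exact (q2 i).trans_lt (by linarith)
      filter_upwards [eventually_all.2 fun o => Ult.eventually_lt (this o)] with k hk
      calc _ ≤ ∑ _o : Option (Option ι), 2 * δ := Finset.sum_le_sum fun o _ => by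
            rw [← e1 p (bdd_proj hp)]; exact (hk o).le
        _ = ε := by
            rw [Finset.sum_const, Finset.card_univ, nsmul_eq_mul, hδ]; field_simp)
  let P : Bdd G := Bdd.of (fun k => p k) 1 fun k => (p k).2.norm_le
  have hP : IsStarProjection P := bdd_proj fun k => (p k).2
  have e2 : ∀ o, Ult.mk (T P o) = 0 := fun o => Ult.mk_eq_zero_of_le hp fun k => by
    rw [e1 P hP]
    exact Finset.single_le_sum (f := fun o => ‖T' k (p k) o‖) (fun _ _ => norm_nonneg _)
      (Finset.mem_univ o)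
  refine ⟨Ult.mk P, hom_proj _ hP, fun i => ?_, ?_, ?_⟩
  · have := e2 (some (some i))
    simp only [T, map_sub, map_mul, hx'] at this
    exact sub_eq_zero.1 this
  · have := e2 none
    simp only [T, hom_pp _ (s1 P hP)] at this
    have := le_of_norm_pp ((s1 P hP).map _) (norm_eq_zero.2 this).le
    simpa only [map_sub, map_mul, hom_real_smul, map_zero, sub_nonpos] using this
  · have := e2 (some none)
    simp only [T, hom_pp _ (s2 P hP)] at this
    have := le_of_norm_pp ((s2 P hP).map _) (norm_eq_zero.2 this).le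
    simpa only [map_sub, map_mul, hom_real_smul, map_zero, sub_nonpos, map_one] using this

theorem ult_EC : EC (Ult G) := by
  intro z y hz hy hzy c
  obtain ⟨q, q1, q2, q3⟩ := ult_sat (fun b : Bool => if b then z else y) hy c fun ε hε => by
    obtain ⟨q, a1, a2, a3, a4⟩ := ult_FR.approx_cut hz hy hzy c hε
    exact ⟨q, a1, by rintro (_ | _) <;> simpa, a4⟩
  exact ⟨q, q1, by simpa using q2 true, by simpa using q2 false, q3⟩

theorem ult_cut {F : Type*} [CStarAlgebra F] [FiniteDimensional ℂ F] {z : F →ₗ[ℂ] Ult G}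
    (hz : OZ z) {y : Ult G} (hy : IsSelfAdjoint y) (hc : ∀ x, Commute y (z x)) (c : ℝ) :
    ∃ q, IsStarProjection q ∧ Commute q y ∧ (∀ x, Commute q (z x)) ∧
      c • q ≤ q * y * q ∧ (1 - q) * y * (1 - q) ≤ c • (1 - q) := by
  let b := Module.finBasis ℂ F
  obtain ⟨q, q1, q2, q3⟩ := ult_sat (fun o : Option (Fin _) => o.elim y fun i => z (b i)) hy c
    fun ε hε => by
      set C := ∑ i, ‖b i‖ + 1 with hC
      have hC0 : 0 < C := by positivity
      obtain ⟨q, a1, a2, a3, a4, a5⟩ := ult_EC.oz_cut hz hy hc c (div_pos hε hC0)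
      have h0 : (0 : Ult G) ≤ algebraMap ℝ _ ε := (isStrictlyPositive_algebraMap hε).nonneg
      refine ⟨q, a1, ?_, (sub_nonpos.2 a4).trans h0, (sub_nonpos.2 a5).trans h0⟩
      rintro (_ | i)
      · simp [a2.eq, hε.le]
      · refine (a3 _).trans ?_
        rw [div_mul_eq_mul_div, div_le_iff₀ hC0]
        have := Finset.single_le_sum (f := fun i => ‖b i‖) (fun _ _ => norm_nonneg _)
          (Finset.mem_univ i)
        exact mul_le_mul_of_nonneg_left (by linarith) hε.le
  refine ⟨q, q1, q2 none, fun x => ?_, q3⟩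
  rw [← b.sum_repr x, map_sum]
  refine Commute.sum_right _ _ _ fun i _ => ?_
  rw [map_smul]
  exact (q2 (some i)).smul_right _

end Pool.Agent.Lib.MP_30b5b4_an
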