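import Mathlib

/-! Nuclear dimension (Winter-Zacharias). -/

open scoped CStarAlgebra

namespace Pool.Agent.Lib.MP_30b5b4_an

/-- `A` has nuclear dimension at most `n`. -/
def NucDimLE (A : Type*) [NonUnitalCStarAlgebra A] [PartialOrder A] [StarOrderedRing A]
    (n : ℕ) : Prop :=
  ∀ (S : Finset A) (ε : ℝ), 0 < ε →
    ∃ (F : Fin (n + 1) → Type) (_ : ∀ i, CStarAlgebra (F i)) (_ : ∀ i, PartialOrder (F i))
      (_ : ∀ i, StarOrderedRing (F i)) (_ : ∀ i, FiniteDimensional ℂ (F i))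
      (ψ : A →CP (∀ i, F i)) (φ : (∀ i, F i) →CP A),
      (∀ a, ‖ψ a‖ ≤ ‖a‖) ∧ (∀ i (x : F i), ‖φ (Pi.single i x)‖ ≤ ‖x‖) ∧
      (∀ i (x y : F i), 0 ≤ x → 0 ≤ y → x * y = 0 →
        φ (Pi.single i x) * φ (Pi.single i y) = 0) ∧
      ∀ a ∈ S, ‖φ (ψ a) - a‖ < ε

/-- The nuclear dimension: the least such `n`, or `⊤`. -/
noncomputable def nucDim (A : Type*) [NonUnitalCStarAlgebra A] [PartialOrder A]
    [StarOrderedRing A] : ℕ∞ :=
  ⨅ (n : ℕ) (_ : NucDimLE A n), (n : ℕ∞)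

end Pool.Agent.Lib.MP_30b5b4_an
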