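import Pool.Agent.Lib.MP_30b5b4_an.DefsRR

/-! Algebras built from finitely many pieces. -/

namespace Pool.Agent.Lib.MP_30b5b4_an

universe u

/-- `A` has only finitely many closed two-sided ideals (for example, `A` is simple). -/
def FinIdeals (A : Type*) [NonUnitalCStarAlgebra A] : Prop :=
  {J : TwoSidedIdeal A | IsClosed (J : Set A)}.Finite

/-- The smallest class of C*-algebras that contains those with finitely many closed ideals and
those of real rank zero and is closed under extensions. -/
inductive Built : ∀ (A : Type u) [NonUnitalCStarAlgebra A], Prop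
  | fin (A : Type u) [NonUnitalCStarAlgebra A] : FinIdeals A → Built A
  | rr (A : Type u) [NonUnitalCStarAlgebra A] : RealRankZero A → Built A
  | ext (J A Q : Type u) [NonUnitalCStarAlgebra J] [NonUnitalCStarAlgebra A]
      [NonUnitalCStarAlgebra Q] (ι : J →⋆ₙₐ[ℂ] A) (π : A →⋆ₙₐ[ℂ] Q) : Function.Injective ι →
      Function.Surjective π → (∀ x, π x = 0 ↔ x ∈ Set.range ι) → Built J → Built Q → Built A

end Pool.Agent.Lib.MP_30b5b4_an
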