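import Pool.Agent.Lib.MP_30b5b4_an.DefsB

/-! Topological dimension zero, nowhere scattered algebras, and the class assembled from them. -/

namespace Pool.Agent.Lib.MP_30b5b4_an

universe u

/-- `K` is a compact element of the lattice of closed two-sided ideals: it is closed, and whenever
it lies in the closed span of a family of ideals it lies in the closed span of finitely many. -/
def CompactIdeal {A : Type*} [NonUnitalCStarAlgebra A] (K : TwoSidedIdeal A) : Prop :=
  IsClosed (K : Set A) ∧ ∀ s : Set (TwoSidedIdeal A),
    (K : Set A) ⊆ closure ((sSup s : TwoSidedIdeal A) : Set A) →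
      ∃ t ⊆ s, t.Finite ∧ (K : Set A) ⊆ closure ((sSup t : TwoSidedIdeal A) : Set A)

/-- Topological dimension zero: every closed ideal is the closed span of the compact ideals that
it contains (the primitive ideal space has a basis of compact open sets). -/
def TopDimZero (A : Type*) [NonUnitalCStarAlgebra A] : Prop :=
  ∀ L : TwoSidedIdeal A, IsClosed (L : Set A) →
    (L : Set A) ⊆ closure ((sSup {K | CompactIdeal K ∧ K ≤ L} : TwoSidedIdeal A) : Set A)

/-- Nowhere scattered: no quotient `A / K` contains a minimal projection, that is, a nonzero
projection `p` with `p (A / K) p = ℂ p`. -/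
def NowhereScattered (A : Type*) [NonUnitalCStarAlgebra A] : Prop :=
  ∀ K : TwoSidedIdeal A, IsClosed (K : Set A) → ∀ p : A, p * p - p ∈ K → star p - p ∈ K →
    (∀ x : A, ∃ c : ℂ, p * x * p - c • p ∈ K) → p ∈ K

/-- The smallest class of C*-algebras that contains those with finitely many closed ideals, those
of real rank zero and the nowhere scattered ones of topological dimension zero, and is closed under
extensions. -/
inductive Assembled : ∀ (A : Type u) [NonUnitalCStarAlgebra A], Prop
  | fin (A : Type u) [NonUnitalCStarAlgebra A] : FinIdeals A → Assembled A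
  | rr (A : Type u) [NonUnitalCStarAlgebra A] : RealRankZero A → Assembled A
  | zero (A : Type u) [NonUnitalCStarAlgebra A] :
      TopDimZero A → NowhereScattered A → Assembled A
  | ext (J A Q : Type u) [NonUnitalCStarAlgebra J] [NonUnitalCStarAlgebra A]
      [NonUnitalCStarAlgebra Q] (ι : J →⋆ₙₐ[ℂ] A) (π : A →⋆ₙₐ[ℂ] Q) : Function.Injective ι →
      Function.Surjective π → (∀ x, π x = 0 ↔ x ∈ Set.range ι) → Assembled J → Assembled Q →
      Assembled A

end Pool.Agent.Lib.MP_30b5b4_an
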