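import Pool.Agent.Lib.MP_30b5b4_an.Defs

/-! Decomposition rank (Kirchberg-Winter). -/

open scoped CStarAlgebra

namespace Pool.Agent.Lib.MP_30b5b4_an

/-- `A` has decomposition rank at most `n`: as for nuclear dimension, with `φ` contractive. -/
def DecRankLE (A : Type*) [NonUnitalCStarAlgebra A] [PartialOrder A] [StarOrderedRing A]
    (n : ℕ) : Prop :=
  ∀ (S : Finset A) (ε : ℝ), 0 < ε →
    ∃ (F : Fin (n + 1) → Type) (_ : ∀ i, CStarAlgebra (F i)) (_ : ∀ i, PartialOrder (F i))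
      (_ : ∀ i, StarOrderedRing (F i)) (_ : ∀ i, FiniteDimensional ℂ (F i))
      (ψ : A →CP (∀ i, F i)) (φ : (∀ i, F i) →CP A),
      (∀ a, ‖ψ a‖ ≤ ‖a‖) ∧ (∀ x, ‖φ x‖ ≤ ‖x‖) ∧
      (∀ i (x y : F i), 0 ≤ x → 0 ≤ y → x * y = 0 →
        φ (Pi.single i x) * φ (Pi.single i y) = 0) ∧
      ∀ a ∈ S, ‖φ (ψ a) - a‖ < ε

/-- The decomposition rank: the least such `n`, or `⊤`. -/
noncomputable def decRank (A : Type*) [NonUnitalCStarAlgebra A] [PartialOrder A]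
    [StarOrderedRing A] : ℕ∞ :=
  ⨅ (n : ℕ) (_ : DecRankLE A n), (n : ℕ∞)

end Pool.Agent.Lib.MP_30b5b4_an
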