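import Pool.Agent.Lib.MP_30b5b4_an.DefsDr

/-! Algebras with a composition series of finite decomposition rank. -/

namespace Pool.Agent.Lib.MP_30b5b4_an

universe u

/-- The smallest class of C*-algebras that contains those of decomposition rank at most `n` and is
closed under extensions and under closures of directed unions of ideals. -/
inductive Layered (n : ℕ) : ∀ (A : Type u) [NonUnitalCStarAlgebra A], Prop
  | dr (A : Type u) [NonUnitalCStarAlgebra A] [PartialOrder A] [StarOrderedRing A] :
      DecRankLE A n → Layered n A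
  | ext (J A Q : Type u) [NonUnitalCStarAlgebra J] [NonUnitalCStarAlgebra A]
      [NonUnitalCStarAlgebra Q] (ι : J →⋆ₙₐ[ℂ] A) (π : A →⋆ₙₐ[ℂ] Q) : Function.Injective ι →
      Function.Surjective π → (∀ x, π x = 0 ↔ x ∈ Set.range ι) → Layered n J → Layered n Q →
      Layered n A
  | lim (A κ : Type u) [NonUnitalCStarAlgebra A] [Nonempty κ] (J : κ → Type u)
      [∀ k, NonUnitalCStarAlgebra (J k)] (ι : ∀ k, J k →⋆ₙₐ[ℂ] A) :
      (∀ k, Function.Injective (ι k)) → (∀ k a b, a * ι k b ∈ Set.range (ι k)) →
      Directed (· ⊆ ·) (fun k => Set.range (ι k)) → Dense (⋃ k, Set.range (ι k)) →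
      (∀ k, Layered n (J k)) → Layered n A

/-- The least `n` such that `A` is in the class `Layered n`, or `⊤`. -/
noncomputable def layerRank (A : Type u) [NonUnitalCStarAlgebra A] : ℕ∞ :=
  ⨅ (n : ℕ) (_ : Layered n A), (n : ℕ∞)

end Pool.Agent.Lib.MP_30b5b4_an
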