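import Pool.Agent.Lib.MP_30b5b4_an.Defs

/-! Real rank zero (Brown-Pedersen). -/

namespace Pool.Agent.Lib.MP_30b5b4_an

/-- `A` has real rank zero: the invertible self-adjoint elements of the unitization are dense in
the self-adjoint elements of the unitization. -/
def RealRankZero (A : Type*) [NonUnitalCStarAlgebra A] : Prop :=
  ∀ a : Unitization ℂ A, IsSelfAdjoint a → ∀ ε : ℝ, 0 < ε →
    ∃ b : Unitization ℂ A, IsSelfAdjoint b ∧ IsUnit b ∧ ‖a - b‖ < ε

end Pool.Agent.Lib.MP_30b5b4_an
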