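import Pool.Agent.Lib.MP_30b5b4_an.DefsDr

/-! Algebras whose quotients have commutative or finite rank hereditary subalgebras. -/

namespace Pool.Agent.Lib.MP_30b5b4_an

universe u

/-- Every nonzero quotient of `D` has a nonzero hereditary subalgebra that is commutative or has
decomposition rank at most `n`. -/
def Tame (D : Type u) [NonUnitalCStarAlgebra D] (n : ℕ∞) : Prop :=
  ∀ (Q : Type u) [NonUnitalCStarAlgebra Q] [Nontrivial Q] (p : D →⋆ₙₐ[ℂ] Q), Function.Surjective p →
    ∃ (B : Type u) (_ : NonUnitalCStarAlgebra B) (_ : PartialOrder B) (_ : StarOrderedRing B)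
      (_ : Nontrivial B) (κ : B →⋆ₙₐ[ℂ] Q), Function.Injective κ ∧
      (∀ b b' q, κ b * q * κ b' ∈ Set.range κ) ∧ ((∀ b b' : B, b * b' = b' * b) ∨ decRank B ≤ n)

end Pool.Agent.Lib.MP_30b5b4_an
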