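import Pool.Agent.Lib.MP_30b5b4_an.Defs

/-! Jiang-Su stability, local form. -/

open scoped CStarAlgebra ComplexOrder Kronecker

namespace Pool.Agent.Lib.MP_30b5b4_an

/-- The dimension drop algebra `Z_{p,q}`: continuous `f` from `[0,1]` to `M_p ⊗ M_q` with
`f 0` in `M_p ⊗ 1` and `f 1` in `1 ⊗ M_q`. -/
noncomputable def DimDrop (p q : ℕ) :
    StarSubalgebra ℂ C(unitInterval, CStarMatrix (Fin p × Fin q) (Fin p × Fin q) ℂ) :=
  StarAlgebra.adjoin ℂ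
    {f | (∃ a : Matrix (Fin p) (Fin p) ℂ, f 0 = CStarMatrix.ofMatrix (a ⊗ₖ 1)) ∧
      ∃ b : Matrix (Fin q) (Fin q) ℂ, f 1 = CStarMatrix.ofMatrix (1 ⊗ₖ b)}

/-- Approximately central, approximately unital, approximately multiplicative copies of `Z`
in `A`, relative to finite subsets of `A`. -/
def Absorbs (A : Type*) [NonUnitalCStarAlgebra A] {B : Type*} [Semiring B] [StarRing B]
    [Algebra ℂ B] [StarModule ℂ B] [Norm B] (Z : StarSubalgebra ℂ B) : Prop :=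
  ∀ (S : Finset A) (T : Finset Z) (ε : ℝ), 0 < ε →
    ∃ θ : Z →ₗ[ℂ] A, (∀ x, ‖θ x‖ ≤ ‖x.1‖) ∧ (∀ x, θ (star x) = star (θ x)) ∧
      ∀ a ∈ S, ‖θ 1 * a - a‖ < ε ∧ ∀ x ∈ T, ‖θ x * a - a * θ x‖ < ε ∧
        ∀ y ∈ T, ‖(θ (x * y) - θ x * θ y) * a‖ < ε

/-- Local form of Jiang-Su stability. -/
def ZStable (A : Type*) [NonUnitalCStarAlgebra A] : Prop :=
  ∀ k : ℕ, 2 ≤ k → Absorbs A (DimDrop k (k + 1))

end Pool.Agent.Lib.MP_30b5b4_an
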