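import Pool.Agent.Lib.MP_30b5b4_an.DefsC
import Pool.Agent.Lib.MP_30b5b4_an.DefsT
import Pool.Agent.Lib.MP_30b5b4_an.DefsZ

/-! Large extensions and the class of solved extensions. -/

namespace Pool.Agent.Lib.MP_30b5b4_an

universe u

/-- `u* u` is Cuntz subequivalent to `v* v`. -/
def CuLE {A : Type*} [NonUnitalCStarAlgebra A] (u v : A) : Prop :=
  ∀ ε : ℝ, 0 < ε → ∃ r : A, ‖star u * u - star (v * r) * (v * r)‖ < ε

section
variable {I E D : Type*} [NonUnitalCStarAlgebra I] [NonUnitalCStarAlgebra E]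
  [NonUnitalCStarAlgebra D]

/-- Every element outside the ideal dominates all elements of the ideal. -/
def Large (ι : I →⋆ₙₐ[ℂ] E) : Prop := ∀ b : E, b ∈ Set.range ι ∨ ∀ x : I, CuLE (ι x) b

/-- If `g` is a unit for `b` modulo the ideal, then after a perturbation of `b` by the ideal every
perturbation of `g` dominates the right ideal `b I`. -/
def Far (ι : I →⋆ₙₐ[ℂ] E) : Prop :=
  ∀ g b : E, star g = g → g * b - b ∈ Set.range ι →
    ∃ a : E, a - b ∈ Set.range ι ∧ ∀ x y : I, CuLE (a * ι x) (g + ι y)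

/-- Projections act as approximate units. -/
def ProjUnit (I : Type*) [NonUnitalCStarAlgebra I] : Prop :=
  ∀ (x : I) (ε : ℝ), 0 < ε → ∃ p : I, IsStarProjection p ∧ ‖p * x - x‖ < ε

/-- `0 → I → E → D → 0` is exact. -/
def Exact (ι : I →⋆ₙₐ[ℂ] E) (π : E →⋆ₙₐ[ℂ] D) : Prop :=
  Function.Injective ι ∧ Function.Surjective π ∧ ∀ x, π x = 0 ↔ x ∈ Set.range ι

end

/-- The smallest class of extensions that contains five basic families and is closed under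
composition along a larger ideal and along a smaller ideal. -/
inductive Solved (n : ℕ∞) : ∀ {I E D : Type u} [NonUnitalCStarAlgebra I] [NonUnitalCStarAlgebra E]
    [NonUnitalCStarAlgebra D], (I →⋆ₙₐ[ℂ] E) → (E →⋆ₙₐ[ℂ] D) → Prop
  | ideal {I E D : Type u} [NonUnitalCStarAlgebra I] [NonUnitalCStarAlgebra E]
      [NonUnitalCStarAlgebra D] (ι : I →⋆ₙₐ[ℂ] E) (π : E →⋆ₙₐ[ℂ] D) :
      FinIdeals I ∨ RealRankZero I ∨ TopDimZero I ∧ NowhereScattered I → Solved n ι π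
  | tame {I E D : Type u} [NonUnitalCStarAlgebra I] [NonUnitalCStarAlgebra E]
      [NonUnitalCStarAlgebra D] (ι : I →⋆ₙₐ[ℂ] E) (π : E →⋆ₙₐ[ℂ] D) : Tame D n → Solved n ι π
  | zst {I E D : Type u} [NonUnitalCStarAlgebra I] [NonUnitalCStarAlgebra E]
      [NonUnitalCStarAlgebra D] (ι : I →⋆ₙₐ[ℂ] E) (π : E →⋆ₙₐ[ℂ] D) : ZStable E → Solved n ι π
  | large {I E D : Type u} [NonUnitalCStarAlgebra I] [NonUnitalCStarAlgebra E]
      [NonUnitalCStarAlgebra D] (ι : I →⋆ₙₐ[ℂ] E) (π : E →⋆ₙₐ[ℂ] D) :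
      Large ι → ProjUnit I → Solved n ι π
  | far {I E D : Type u} [NonUnitalCStarAlgebra I] [NonUnitalCStarAlgebra E]
      [NonUnitalCStarAlgebra D] (ι : I →⋆ₙₐ[ℂ] E) (π : E →⋆ₙₐ[ℂ] D) :
      Far ι → ZStable D ∨ TopDimZero D ∧ NowhereScattered D → Solved n ι π
  | outer {I J E Q R D : Type u} [NonUnitalCStarAlgebra I] [NonUnitalCStarAlgebra J]
      [NonUnitalCStarAlgebra E] [NonUnitalCStarAlgebra Q] [NonUnitalCStarAlgebra R]
      [NonUnitalCStarAlgebra D] (κ : I →⋆ₙₐ[ℂ] J) (q : J →⋆ₙₐ[ℂ] Q) (ι : J →⋆ₙₐ[ℂ] E)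
      (r : E →⋆ₙₐ[ℂ] R) (π : E →⋆ₙₐ[ℂ] D) : Exact κ q → Exact ι r → Solved n κ q → Solved n ι r →
      Solved n (ι.comp κ) π
  | inner {J I E K F D : Type u} [NonUnitalCStarAlgebra J] [NonUnitalCStarAlgebra I]
      [NonUnitalCStarAlgebra E] [NonUnitalCStarAlgebra K] [NonUnitalCStarAlgebra F]
      [NonUnitalCStarAlgebra D] (κ : J →⋆ₙₐ[ℂ] I) (ι : I →⋆ₙₐ[ℂ] E) (q : E →⋆ₙₐ[ℂ] F)
      (ι' : K →⋆ₙₐ[ℂ] F) (π : F →⋆ₙₐ[ℂ] D) : Exact (ι.comp κ) q → Exact ι' π →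
      Solved n (ι.comp κ) q → Solved n ι' π → Solved n ι (π.comp q)

end Pool.Agent.Lib.MP_30b5b4_an
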