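import Pool.Agent.Lib.MP_30b5b4_an.MU

/-! Functional calculus helpers. -/

open scoped CStarAlgebra ComplexOrder

set_option linter.unusedSectionVars false
set_option linter.style.haveILetI false

namespace Pool.Agent.Lib.MP_30b5b4_an

variable {A D : Type*} [CStarAlgebra A] [CStarAlgebra D]

lemma hom_cont (π : A →⋆ₐ[ℂ] D) : Continuous π :=
  AddMonoidHomClass.continuous_of_bound π 1 fun x => by
    simpa using NonUnitalStarAlgHom.norm_apply_le π x

lemma hom_norm_le (π : A →⋆ₐ[ℂ] D) (x : A) : ‖π x‖ ≤ ‖x‖ := NonUnitalStarAlgHom.norm_apply_le π x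

lemma hom_cfc (π : A →⋆ₐ[ℂ] D) {f : ℝ → ℝ} (hf : Continuous f) {a : A} (ha : IsSelfAdjoint a) :
    π (cfc f a) = cfc f (π a) :=
  StarAlgHom.map_cfc π f a hf.continuousOn (hom_cont π) ha (ha.map π)

lemma hom_cfc' (π : A →⋆ₐ[ℂ] D) {f : ℂ → ℂ} (hf : Continuous f) {a : A} (ha : IsStarNormal a) :
    π (cfc f a) = cfc f (π a) :=
  StarAlgHom.map_cfc π f a hf.continuousOn (hom_cont π) ha (ha.map π)

lemma cfc_mem_sub {S : NonUnitalStarSubalgebra ℂ A} (hS : IsClosed (S : Set A)) {f : ℝ → ℝ}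
    (hf : Continuous f) (h0 : f 0 = 0) {a : A} (ha : a ∈ S) : cfc f a ∈ S := by
  rw [← cfcₙ_eq_cfc hf.continuousOn h0]
  exact cfcₙ_mem (𝕜' := ℂ) f ha

lemma cfc_eq_add (f : ℝ → ℝ) (hf : Continuous f) {a : A} (ha : IsSelfAdjoint a) (c : ℝ) :
    cfc f a = cfc (fun s => f s - c) a + c • 1 := by
  rw [cfc_sub f (fun _ => c) a, cfc_const c a, Algebra.algebraMap_eq_smul_one, sub_add_cancel]

lemma mul_cfc_mem {S : NonUnitalStarSubalgebra ℂ A} (hS : IsClosed (S : Set A)) {f : ℝ → ℝ}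
    (hf : Continuous f) {x a : A} (hx : x ∈ S) (ha : a ∈ S) (ha' : IsSelfAdjoint a) :
    x * cfc f a ∈ S := by
  rw [cfc_eq_add f hf ha' (f 0), mul_add, mul_smul_comm, mul_one, ← Complex.coe_smul]
  exact add_mem (mul_mem hx (cfc_mem_sub hS (by fun_prop) (by simp) ha)) (SMulMemClass.smul_mem _ hx)

/-- two-sided annihilator of a self-adjoint element -/
def ann (b : A) (hb : IsSelfAdjoint b) : NonUnitalStarSubalgebra ℂ A where
  carrier := {z | b * z = 0 ∧ z * b = 0}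
  add_mem' := fun {x y} hx hy => ⟨by rw [mul_add, hx.1, hy.1, add_zero],
    by rw [add_mul, hx.2, hy.2, add_zero]⟩
  zero_mem' := by simp
  mul_mem' := fun {x y} hx hy => ⟨by rw [← mul_assoc, hx.1, zero_mul],
    by rw [mul_assoc, hy.2, mul_zero]⟩
  smul_mem' := fun c x hx => ⟨by rw [mul_smul_comm, hx.1, smul_zero],
    by rw [smul_mul_assoc, hx.2, smul_zero]⟩
  star_mem' := fun {x} hx => ⟨by rw [← hb.star_eq, ← star_mul, hx.2, star_zero],
    by rw [← hb.star_eq, ← star_mul, hx.1, star_zero]⟩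

lemma mem_ann {b z : A} {hb : IsSelfAdjoint b} : z ∈ ann b hb ↔ b * z = 0 ∧ z * b = 0 := Iff.rfl

lemma isClosed_ann (b : A) (hb : IsSelfAdjoint b) : IsClosed (ann b hb : Set A) :=
  (isClosed_eq (f := fun z => b * z) (by fun_prop) continuous_const).inter
    (isClosed_eq (f := fun z => z * b) (by fun_prop) continuous_const)

/-- if `x y = 0` then `f(x) y = f(0) y` -/
lemma cfc_mul_eq_zero {x y : A} (hx : IsSelfAdjoint x) (hxy : x * y = 0) {f : ℝ → ℝ}
    (hf : Continuous f) (h0 : f 0 = 0) : cfc f x * y = 0 := by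
  have hb : IsSelfAdjoint (y * star y) := by simp [IsSelfAdjoint]
  have h1 : x * (y * star y) = 0 := by rw [← mul_assoc, hxy, zero_mul]
  have h2 : cfc f x ∈ ann (y * star y) hb := by
    refine cfc_mem_sub (isClosed_ann _ _) hf h0 ⟨?_, h1⟩
    have := congrArg star h1
    rwa [star_mul, hb.star_eq, hx.star_eq, star_zero] at this
  apply (CStarRing.mul_star_self_eq_zero_iff _).1
  rw [star_mul, ← mul_assoc, mul_assoc _ y, h2.2, zero_mul]

lemma cfc_mul_eq_zero' {x y : A} (hx : IsSelfAdjoint x) (hxy : x * y = y) {f : ℝ → ℝ}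
    (hf : Continuous f) (h0 : f 1 = 0) : cfc f x * y = 0 := by
  have h1 : (1 - x) * y = 0 := by rw [sub_mul, hxy, one_mul, sub_self]
  have h2 := cfc_mul_eq_zero ((IsSelfAdjoint.one A).sub hx) h1 (f := fun s => f (1 - s))
    (by fun_prop) (by simpa using h0)
  have h3 : (1 : A) - x = cfc (fun s : ℝ => 1 - s) x := by
    rw [cfc_sub _ _ x, cfc_const_one ℝ x, cfc_id' ℝ x]
  rw [h3, ← cfc_comp' _ _ x] at h2
  simpa using h2

lemma cfc_mul' {f g : ℝ → ℝ} (hf : Continuous f) (hg : Continuous g) (a : A) :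
    cfc f a * cfc g a = cfc (fun s => f s * g s) a :=
  (cfc_mul f g a hf.continuousOn hg.continuousOn).symm

lemma cfc_mul_id {f : ℝ → ℝ} (hf : Continuous f) {a : A} (ha : IsSelfAdjoint a) :
    cfc f a * a = cfc (fun s => f s * s) a := by
  conv_lhs => enter [2]; rw [← cfc_id' ℝ a]
  exact cfc_mul' hf continuous_id' a

lemma id_mul_cfc {f : ℝ → ℝ} (hf : Continuous f) {a : A} (ha : IsSelfAdjoint a) :
    a * cfc f a = cfc (fun s => s * f s) a := by
  conv_lhs => enter [1]; rw [← cfc_id' ℝ a]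
  exact cfc_mul' continuous_id' hf a

variable [PartialOrder A] [StarOrderedRing A] [PartialOrder D] [StarOrderedRing D]

lemma spec_mem {a : A} (h0 : 0 ≤ a) (h1 : a ≤ 1) {s : ℝ} (hs : s ∈ spectrum ℝ a) :
    0 ≤ s ∧ s ≤ 1 :=
  ⟨spectrum_nonneg_of_nonneg h0 hs, (CFC.le_one_iff (R := ℝ) a).1 h1 s hs⟩

noncomputable def sq (a : A) : A := cfc Real.sqrt a

lemma sq_nonneg' (a : A) : 0 ≤ sq a := cfc_nonneg fun _ _ => Real.sqrt_nonneg _

lemma sq_star (a : A) : star (sq a) = sq a := (sq_nonneg' a).star_eq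

lemma sq_mul_sq {a : A} (ha : 0 ≤ a) : sq a * sq a = a := by
  rw [sq, ← cfc_mul _ _ a]
  conv_rhs => rw [← cfc_id' ℝ a]
  exact cfc_congr fun t ht => Real.mul_self_sqrt (spectrum_nonneg_of_nonneg ha ht)

lemma sq_pow {h : A} (hh : 0 ≤ h) (k : ℕ) : sq (h ^ (2 * k)) = h ^ k := by
  rw [sq, ← cfc_comp_pow _ _ h, ← cfc_pow_id (R := ℝ) h k]
  refine cfc_congr fun t ht => ?_
  have := spectrum_nonneg_of_nonneg hh ht
  rw [mul_comm, pow_mul, Real.sqrt_sq (by positivity)]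

lemma hom_sq (π : A →⋆ₐ[ℂ] D) {a : A} (ha : 0 ≤ a) : π (sq a) = sq (π a) :=
  hom_cfc π Real.continuous_sqrt ha.isSelfAdjoint

lemma sq_mem {S : NonUnitalStarSubalgebra ℂ A} (hS : IsClosed (S : Set A)) {a : A} (ha : a ∈ S) :
    sq a ∈ S := cfc_mem_sub hS Real.continuous_sqrt Real.sqrt_zero ha

lemma hom_nonneg (π : A →⋆ₐ[ℂ] D) {a : A} (ha : 0 ≤ a) : 0 ≤ π a := by
  obtain ⟨s, rfl⟩ := exists_star_mul ha
  rw [map_mul, map_star]
  exact star_mul_self_nonneg _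

lemma hom_mono (π : A →⋆ₐ[ℂ] D) {a b : A} (h : a ≤ b) : π a ≤ π b := by
  rw [← sub_nonneg, ← map_sub]
  exact hom_nonneg π (sub_nonneg.2 h)

lemma hom_isCP (π : A →⋆ₐ[ℂ] D) {ψ : A →ₗ[ℂ] D} (h : ∀ a, ψ a = π a) : IsCP ψ :=
  IsCP.of_hom π fun a a' => by rw [h, map_mul, map_star]

end Pool.Agent.Lib.MP_30b5b4_an
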