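import Pool.Agent.Lib.MP_30b5b4_an.Cen

/-! Traces on finite dimensional algebras: comparison and division of projections. -/

open scoped CStarAlgebra ComplexOrder

set_option linter.unusedSectionVars false
set_option linter.style.haveILetI false

namespace Pool.Agent.Lib.MP_30b5b4_an

/-- a positive real valued trace -/
structure IsTr {B : Type*} [CStarAlgebra B] (T : B →ₗ[ℝ] ℝ) : Prop where
  pos : ∀ x, 0 ≤ T (star x * x)
  comm : ∀ x y, T (x * y) = T (y * x)

section
variable {B : Type*} [CStarAlgebra B] [PartialOrder B] [StarOrderedRing B] {T : B →ₗ[ℝ] ℝ}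

lemma IsTr.nonneg (h : IsTr T) {a : B} (ha : 0 ≤ a) : 0 ≤ T a := by
  obtain ⟨s, rfl⟩ := exists_star_mul ha
  exact h.pos s

lemma IsTr.mono (h : IsTr T) {a b : B} (hab : a ≤ b) : T a ≤ T b := by
  have := h.nonneg (sub_nonneg.2 hab)
  rwa [map_sub, sub_nonneg] at this

lemma proj_sub {p e : B} (hp : IsStarProjection p) (he : IsStarProjection e) (h : p * e = e) :
    IsStarProjection (p - e) := by
  have h' : e * p = e := by rw [← he.isSelfAdjoint.star_eq, ← hp.isSelfAdjoint.star_eq,
    ← star_mul, h]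
  refine ⟨?_, hp.isSelfAdjoint.sub he.isSelfAdjoint⟩
  rw [IsIdempotentElem, mul_sub, sub_mul, sub_mul, h, h', hp.isIdempotentElem.eq,
    he.isIdempotentElem.eq, sub_self, sub_zero]

end

variable {F : Type*} [CStarAlgebra F] [FiniteDimensional ℂ F] [PartialOrder F] [StarOrderedRing F]

/-- a maximal isometry from a subprojection of `p` into `q` -/
lemma greedy (n : ℕ) : ∀ {p q : F}, IsStarProjection p → IsStarProjection q →
    Module.finrank ℂ (LinearMap.range (LinearMap.mulLeft ℂ p)) ≤ n →
    ∃ v, IsStarProjection (star v * v) ∧ v * p = v ∧ q * v = v ∧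
      ∀ x, (q - v * star v) * x * (p - star v * v) = 0 := by
  induction n with
  | zero =>
    intro p q hp hq h
    have : LinearMap.range (LinearMap.mulLeft ℂ p) = ⊥ :=
      Submodule.finrank_eq_zero.1 (Nat.le_zero.1 h)
    have h0 : p = 0 := by
      have h1 : p ∈ LinearMap.range (LinearMap.mulLeft ℂ p) := ⟨1, by simp⟩
      rwa [this, Submodule.mem_bot] at h1
    exact ⟨0, by simp, by simp, by simp, by simp [h0]⟩
  | succ n ih =>
    intro p q hp hq h
    by_cases h0 : ∀ x, q * x * p = 0
    · exact ⟨0, by simp, by simp, by simp, by simpa using h0⟩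
    obtain ⟨x, hx⟩ := not_forall.1 h0
    obtain ⟨e, e1, e2, e3⟩ := fd_top_proj hx
    set u := q * x * p with hu
    have u0 : ‖u‖ ≠ 0 := norm_ne_zero_iff.2 hx
    have u1 : u * p = u := by rw [hu, mul_assoc, hp.isIdempotentElem.eq]
    have u2 : q * u = u := by rw [hu, ← mul_assoc, ← mul_assoc, hq.isIdempotentElem.eq]
    have u3 : p * star u = star u := by rw [← hp.isSelfAdjoint.star_eq, ← star_mul, u1]
    have pe : p * e = e := by
      apply smul_right_injective F (pow_ne_zero 2 u0)
      simp only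
      rw [← mul_smul_comm, ← e3, ← mul_assoc, ← mul_assoc, u3]
    have ep : e * p = e := by
      rw [← e1.isSelfAdjoint.star_eq, ← hp.isSelfAdjoint.star_eq, ← star_mul, pe]
    obtain ⟨w, hw⟩ : ∃ w, w = ‖u‖⁻¹ • (u * e) := ⟨_, rfl⟩
    have w1 : star w * w = e := by
      rw [hw, star_smul, star_trivial, smul_mul_smul_comm, star_mul, e1.isSelfAdjoint.star_eq,
        mul_assoc, ← mul_assoc (star u), e3, mul_smul_comm, e1.isIdempotentElem.eq, smul_smul]
      rw [show ‖u‖⁻¹ * ‖u‖⁻¹ * ‖u‖ ^ 2 = 1 by field_simp, one_smul]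
    have w2 : q * w = w := by rw [hw, mul_smul_comm, ← mul_assoc, u2]
    have w3 : w * e = w := by rw [hw, smul_mul_assoc, mul_assoc, e1.isIdempotentElem.eq]
    have w4 : IsStarProjection (w * star w) := range_proj (w1 ▸ e1)
    have p1 := proj_sub hp e1 pe
    have q1 := proj_sub hq w4 (by rw [← mul_assoc, w2])
    have ep' : e * (p - e) = 0 := by rw [mul_sub, ep, e1.isIdempotentElem.eq, sub_self]
    obtain ⟨v, v1, v2, v3, v4⟩ := ih p1 q1 (by
      refine Nat.lt_succ_iff.1 (lt_of_lt_of_le (Submodule.finrank_lt_finrank_of_lt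
        (lt_of_le_of_ne ?_ fun h1 => e2 ?_)) h)
      · rintro _ ⟨y, rfl⟩
        exact ⟨(p - e) * y, by
          simp only [LinearMap.mulLeft_apply]
          rw [← mul_assoc, mul_sub, pe, hp.isIdempotentElem.eq]⟩
      · obtain ⟨y, hy⟩ : e ∈ LinearMap.range (LinearMap.mulLeft ℂ (p - e)) :=
          h1 ▸ ⟨e, pe⟩
        rw [LinearMap.mulLeft_apply] at hy
        rw [← e1.isIdempotentElem.eq]
        nth_rewrite 2 [← hy]
        rw [← mul_assoc, ep', zero_mul])
    have a1 : star w * v = 0 := by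
      have : star w * q = star w := by rw [← hq.isSelfAdjoint.star_eq, ← star_mul, w2]
      have h2 : e * star w = star w := by rw [← e1.isSelfAdjoint.star_eq, ← star_mul, w3]
      rw [← v3, ← mul_assoc, mul_sub, this, ← mul_assoc, w1, h2, sub_self, zero_mul]
    have a2 : star v * w = 0 := by rw [← star_star w, ← star_mul, a1, star_zero]
    have a3 : w * star v = 0 := by
      rw [← v2, star_mul, p1.isSelfAdjoint.star_eq, ← w3, mul_assoc, ← mul_assoc e, ep', zero_mul,
        mul_zero]
    have a4 : v * star w = 0 := by rw [← star_star v, ← star_mul, a3, star_zero]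
    have b1 : star (w + v) * (w + v) = e + star v * v := by
      rw [star_add, add_mul, mul_add, mul_add, a1, a2, w1, add_zero, zero_add]
    have b2 : (w + v) * star (w + v) = w * star w + v * star v := by
      rw [star_add, add_mul, mul_add, mul_add, a3, a4, add_zero, zero_add]
    refine ⟨w + v, ?_, ?_, ?_, fun y => ?_⟩
    · rw [b1]
      refine e1.add v1 ?_
      rw [← w1, mul_assoc, ← mul_assoc w, a3, zero_mul, mul_zero]
    · rw [add_mul, ← w3, mul_assoc, ep, ← v2, mul_assoc, sub_mul, ep, hp.isIdempotentElem.eq]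
    · rw [mul_add, w2, ← v3, ← mul_assoc, mul_sub, hq.isIdempotentElem.eq, ← mul_assoc, w2]
    · rw [b1, b2, ← sub_sub, ← sub_sub]
      exact v4 y

namespace MU
variable (M : MU F)

/-- the trace of the block `b` -/
noncomputable def tr (b : Fin M.N) : F →ₗ[ℝ] ℝ where
  toFun x := ∑ a with M.cl a = b, (M.c a a x).re
  map_add' x y := by simp [Finset.sum_add_distrib]
  map_smul' r x := by
    simp only [← Complex.coe_smul, map_smul, smul_eq_mul, Complex.re_ofReal_mul, RingHom.id_apply,
      Finset.mul_sum]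

lemma tr_apply (b : Fin M.N) (x : F) : M.tr b x = ∑ a with M.cl a = b, (M.c a a x).re := rfl

lemma c_sq (a : Fin M.N) (x : F) :
    (M.c a a (star x * x)).re = ∑ m, ‖M.c m a x‖ ^ 2 := by
  rw [M.c_mul, Complex.re_sum]
  refine Finset.sum_congr rfl fun m _ => ?_
  rw [M.c_star, Complex.star_def, Complex.conj_mul']
  norm_cast

lemma isTr (b : Fin M.N) : IsTr (M.tr b) := by
  refine ⟨fun x => ?_, fun x y => ?_⟩
  · rw [tr_apply]
    exact Finset.sum_nonneg fun a _ => by rw [M.c_sq]; positivity
  · have : ∀ x y : F, M.tr b (x * y) =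
        ∑ a, ∑ m, if M.cl a = b ∧ M.cl m = b then (M.c a m x * M.c m a y).re else 0 := by
      intro x y
      rw [tr_apply, Finset.sum_filter]
      refine Finset.sum_congr rfl fun a _ => ?_
      split_ifs with h
      · rw [M.c_mul, Complex.re_sum]
        refine Finset.sum_congr rfl fun m _ => ?_
        split_ifs with h'
        · rfl
        · rw [M.zero a m x fun h2 => h' ⟨h, h2 ▸ h⟩, zero_mul, Complex.zero_re]
      · simp [h]
    rw [this, this, Finset.sum_comm]
    simp only [and_comm, mul_comm]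

lemma tr_faithful {p : F} (hp : IsStarProjection p) (h : ∀ b, M.tr b p ≤ 0) : p = 0 := by
  have h1 : star p * p = p := by rw [hp.isSelfAdjoint.star_eq, hp.isIdempotentElem.eq]
  rw [M.recon p]
  refine Finset.sum_eq_zero fun i _ => Finset.sum_eq_zero fun j _ => ?_
  have h2 : ∀ a, 0 ≤ (M.c a a p).re := fun a => by rw [← h1, M.c_sq]; positivity
  have h5 := h (M.cl j)
  rw [tr_apply] at h5
  have h3 := (Finset.sum_eq_zero_iff_of_nonneg fun a _ => h2 a).1
    (le_antisymm h5 (Finset.sum_nonneg fun a _ => h2 a)) j (by simp)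
  rw [← h1, M.c_sq] at h3
  have h4 := (Finset.sum_eq_zero_iff_of_nonneg fun a _ => by positivity).1 h3 i (by simp)
  rw [norm_eq_zero.1 (pow_eq_zero_iff two_ne_zero |>.1 h4), zero_smul]

lemma tr_or {p q : F} (h : ∀ x, q * x * p = 0) (b : Fin M.N) : M.tr b p = 0 ∨ M.tr b q = 0 := by
  by_contra h0
  obtain ⟨h1, h2⟩ := not_or.1 h0
  rw [tr_apply] at h1 h2
  obtain ⟨a, a1, a2⟩ := Finset.exists_ne_zero_of_sum_ne_zero h1
  obtain ⟨a', b1, b2⟩ := Finset.exists_ne_zero_of_sum_ne_zero h2
  have e := M.init a' a (by rw [(Finset.mem_filter.1 a1).2, (Finset.mem_filter.1 b1).2])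
  have e1 : star (M.v a) * M.v a * star (M.v a) = star (M.v a) := by
    simpa [mul_assoc] using congrArg star (M.v_q a)
  have e2 : star (M.v a') * q * M.v a' * (star (M.v a) * p * M.v a) = 0 := by
    have := h (M.v a' * star (M.v a))
    simp only [mul_assoc] at this ⊢
    rw [← mul_assoc (star (M.v a)), ← mul_assoc (M.v a'), ← mul_assoc q, this, zero_mul, mul_zero]
  rw [M.coef, M.coef, e, smul_mul_smul_comm, (M.proj a).isIdempotentElem.eq, smul_eq_zero] at e2
  rcases e2 with e2 | e2
  · rcases mul_eq_zero.1 e2 with e2 | e2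
    · exact b2 (by rw [e2, Complex.zero_re])
    · exact a2 (by rw [e2, Complex.zero_re])
  · exact M.q_ne a e2

lemma tr_rank (b a : Fin M.N) :
    M.tr b (M.v a * star (M.v a)) = if M.cl a = b then 1 else 0 := by
  have : ∀ m, M.c m m (M.v a * star (M.v a)) = if m = a then 1 else 0 := fun m => by
    apply smul_left_injective ℂ (M.q_ne m)
    simp only
    rw [← M.coef]
    split_ifs with h
    · rw [h, one_smul, ← mul_assoc, mul_assoc _ (star _), (M.proj a).isIdempotentElem.eq]
    · rw [← mul_assoc, M.orth m a h, zero_mul, zero_mul, zero_smul]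
  simp only [tr_apply, this, apply_ite Complex.re, Complex.one_re, Complex.zero_re,
    Finset.sum_ite_eq', Finset.mem_filter, Finset.mem_univ, true_and]

lemma tr_one (b : Fin M.N) : M.tr b 1 = (Finset.univ.filter fun a => M.cl a = b).card := by
  simp [tr_apply, M.c_one]

lemma tr_gap {p : F} (hp : IsStarProjection p) (b : Fin M.N) : M.tr b p = 0 ∨ 1 ≤ M.tr b p := by
  by_cases h : ∃ a, M.cl a = b
  swap
  · left
    rw [tr_apply]
    exact Finset.sum_eq_zero fun a ha => (h ⟨a, (Finset.mem_filter.1 ha).2⟩).elim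
  obtain ⟨a, ha⟩ := h
  have e := range_proj (M.proj a)
  obtain ⟨v, v1, v2, v3, v4⟩ := greedy _ e hp le_rfl
  have t1 : M.tr b (M.v a * star (M.v a)) = 1 := by rw [tr_rank, if_pos ha]
  have t2 := (M.isTr b).comm (star v) v
  have t3 := (M.isTr b).nonneg (proj_sub hp (range_proj v1) (by rw [← mul_assoc, v3])).nonneg
  rcases M.tr_or v4 b with h1 | h1 <;> rw [map_sub] at h1 t3
  · right; linarith
  · have e1 : star v * v = M.c a a (star v * v) • (M.v a * star (M.v a)) := by
      have e2 : M.v a * star (M.v a) * star v = star v := by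
        rw [← e.isSelfAdjoint.star_eq, ← star_mul, v2]
      calc star v * v = M.v a * (star (M.v a) * (star v * v) * M.v a) * star (M.v a) := by
            conv_lhs => rw [← e2, ← v2]
            simp only [mul_assoc, v2]
        _ = _ := by rw [M.coef, mul_smul_comm, M.v_q, smul_mul_assoc]
    generalize M.c a a (star v * v) = c at e1
    have e3 := v1.isIdempotentElem.eq
    rw [e1, smul_mul_smul_comm, e.isIdempotentElem.eq] at e3
    have e4 : M.v a * star (M.v a) ≠ 0 := fun h => by rw [h, map_zero] at t1; exact zero_ne_one t1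
    rcases (IsIdempotentElem.iff_eq_zero_or_one (p := c)).1 (smul_left_injective ℂ e4 e3) with h | h
    · left
      rw [h, zero_smul] at e1
      rw [e1, map_zero] at t2
      linarith
    · right
      rw [h, one_smul] at e1
      rw [e1] at t2
      linarith

lemma exists_rank (n : Fin M.N → ℕ) (h : ∀ b, (n b : ℝ) ≤ M.tr b 1) :
    ∃ g, IsStarProjection g ∧ ∀ b, M.tr b g = n b := by
  classical
  have := fun b => Finset.exists_subset_card_eq
    (s := Finset.univ.filter fun a => M.cl a = b) (n := n b) (by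
      have := h b
      rw [tr_one] at this
      exact_mod_cast this)
  choose t t1 t2 using this
  let s : Finset (Fin M.N) := Finset.univ.filter fun a => a ∈ t (M.cl a)
  refine ⟨∑ a ∈ s, M.v a * star (M.v a), ?_, fun b => ?_⟩
  · refine ⟨?_, isSelfAdjoint_sum _ fun a _ => IsSelfAdjoint.mul_star_self _⟩
    rw [IsIdempotentElem, Finset.sum_mul_sum]
    refine Finset.sum_congr rfl fun a ha => ?_
    rw [Finset.sum_eq_single a (fun a' _ h' => ?_) fun h' => (h' ha).elim,
      (range_proj (M.proj a)).isIdempotentElem.eq]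
    rw [mul_assoc, ← mul_assoc (star _), M.orth a a' h'.symm, zero_mul, mul_zero]
  · simp only [map_sum, tr_rank]
    rw [Finset.sum_boole, ← t2 b]
    congr 2
    ext a
    simp only [s, Finset.mem_filter, Finset.mem_univ, true_and]
    exact ⟨fun h => h.2 ▸ h.1, fun h => by
      have := (Finset.mem_filter.1 (t1 b h)).2
      exact ⟨this ▸ h, this⟩⟩

lemma cmp {r : F} (hr : IsStarProjection r) (C : ℕ) : ∀ {p : F}, IsStarProjection p →
    (∀ b, M.tr b p ≤ C * M.tr b r) →
    ∃ w : Fin C → F, ∑ t, star (w t) * w t = p ∧ ∀ t, r * w t = w t := by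
  induction C with
  | zero =>
    intro p hp h
    exact ⟨0, by rw [M.tr_faithful hp (by simpa using h)]; simp, by simp⟩
  | succ C ih =>
    intro p hp h
    obtain ⟨v, v1, v2, v3, v4⟩ := greedy _ hp hr le_rfl
    have v5 : p * (star v * v) = star v * v := by
      rw [← mul_assoc, ← hp.isSelfAdjoint.star_eq, ← star_mul, v2]
    obtain ⟨w, w1, w2⟩ := ih (proj_sub hp v1 v5) fun b => by
      have t2 := (M.isTr b).comm (star v) v
      have t3 := h b
      rcases M.tr_or v4 b with h1 | h1
      · rw [h1]; exact mul_nonneg C.cast_nonneg ((M.isTr b).nonneg hr.nonneg)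
      · rw [map_sub] at h1 ⊢
        push_cast at t3
        linarith
    refine ⟨Fin.cons v w, ?_, fun t => Fin.cases v3 w2 t⟩
    simp [Fin.sum_univ_succ, w1]

lemma copies {g : F} (hg : IsStarProjection g) (m : ℕ) : ∀ {P : F}, IsStarProjection P →
    (∀ b, m * M.tr b g ≤ M.tr b P) → ∃ w : Fin m → F, (∀ l, star (w l) * w l = g) ∧
      (∀ l l', l ≠ l' → star (w l) * w l' = 0) ∧ ∀ l, P * w l = w l := by
  induction m with
  | zero => exact fun _ _ => ⟨0, by simp, by simp, by simp⟩
  | succ m ih =>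
    intro P hP h
    have g0 := fun b => (M.isTr b).nonneg hg.nonneg
    obtain ⟨u, u1, u2⟩ := M.cmp hP 1 hg fun b => by
      have := h b
      push_cast at this ⊢
      nlinarith [g0 b, (m.cast_nonneg : (0 : ℝ) ≤ m)]
    rw [Fin.sum_univ_one] at u1
    have u3 := u2 0
    generalize u 0 = v at u1 u3
    have u4 := range_proj (u1 ▸ hg)
    obtain ⟨w, w1, w2, w3⟩ := ih (proj_sub hP u4 (by rw [← mul_assoc, u3])) fun b => by
      have := h b
      rw [map_sub, (M.isTr b).comm v, u1]
      push_cast at this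
      linarith
    have a1 : ∀ l, star v * w l = 0 := fun l => by
      have e1 : star v * P = star v := by rw [← hP.isSelfAdjoint.star_eq, ← star_mul, u3]
      have e2 : star v * v * star v = star v := by
        simpa [mul_assoc] using congrArg star (mul_init_of_proj (u1 ▸ hg : IsStarProjection (star v * v)))
      rw [← w3, ← mul_assoc, mul_sub, e1, ← mul_assoc, e2, sub_self, zero_mul]
    refine ⟨Fin.cons v w, fun l => Fin.cases u1 w1 l, fun l l' => ?_, fun l => ?_⟩
    · refine Fin.cases (Fin.cases (fun h => (h rfl).elim) (fun l' _ => a1 l') l')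
        (fun l => Fin.cases (fun _ => ?_) (fun l' h => w2 l l' fun h' => h (congrArg _ h')) l') l
      simpa using congrArg star (a1 l)
    · refine Fin.cases u3 (fun l => ?_) l
      simp only [Fin.cons_succ]
      rw [← w3, ← mul_assoc, mul_sub, hP.isIdempotentElem.eq, ← mul_assoc, u3]

end MU

/-- comparison of projections by traces -/
theorem fd_cmp {p r : F} (hp : IsStarProjection p) (hr : IsStarProjection r) (C : ℕ)
    (h : ∀ T : F →ₗ[ℝ] ℝ, IsTr T → T p ≤ C * T r) :
    ∃ w : Fin C → F, ∑ t, star (w t) * w t = p ∧ ∀ t, r * w t = w t := by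
  obtain ⟨M⟩ := exists_MU F
  exact M.cmp hr C hp fun b => h _ (M.isTr b)

/-- division of a projection into `m` equivalent pieces and a remainder -/
theorem fd_division {p P : F} (hp : IsStarProjection p) (hP : IsStarProjection P) {m : ℕ}
    (hm : 0 < m) {ι : Type*} [Fintype ι] (hι : 2 * m ≤ Fintype.card ι) (R : ι → F)
    (hR : ∀ j, IsStarProjection (R j)) (K : ι → ℝ)
    (h1 : ∀ T : F →ₗ[ℝ] ℝ, IsTr T → ∀ j, T p ≤ K j * T (R j))
    (h2 : ∀ T : F →ₗ[ℝ] ℝ, IsTr T → ∑ j, T (R j) ≤ 2 * T P)
    (h3 : ∀ T : F →ₗ[ℝ] ℝ, IsTr T → T p ≤ 2 * T P) :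
    ∃ (g : F) (w : Fin m → F) (x : Fin (4 * m) → F), IsStarProjection g ∧
      (∀ l, star (w l) * w l = g) ∧ (∀ l l', l ≠ l' → star (w l) * w l' = 0) ∧
      (∀ l, P * w l = w l ∧ w l * P = w l) ∧ ∑ t, star (x t) * x t = p ∧ ∀ t, g * x t = x t := by
  obtain ⟨M⟩ := exists_MU F
  have m0 : (0 : ℝ) < m := by exact_mod_cast hm
  have m1 : (1 : ℝ) ≤ m := by exact_mod_cast hm
  have P0 := fun b => (M.isTr b).nonneg hP.nonneg
  have n1 := fun b => Nat.floor_le (div_nonneg (P0 b) m0.le)
  obtain ⟨g, g1, g2⟩ := M.exists_rank (fun b => ⌊M.tr b P / m⌋₊) fun b =>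
    (n1 b).trans ((div_le_self (P0 b) m1).trans ((M.isTr b).mono hP.le_one))
  obtain ⟨w, w1, w2, w3⟩ := M.copies g1 m hP fun b => by
    rw [g2, mul_comm]; exact (le_div_iff₀ m0).1 (n1 b)
  obtain ⟨v, hv⟩ : ∃ v, v = w ⟨0, hm⟩ := ⟨_, rfl⟩
  have v1 : star v * v = g := hv ▸ w1 _
  have v2 : P * v = v := hv ▸ w3 _
  have v3 := range_proj (v1 ▸ g1)
  obtain ⟨x, x1, x2⟩ := M.cmp v3 (4 * m) hp fun b => by
    rw [(M.isTr b).comm v, v1, g2]
    have t0 := (M.isTr b).nonneg hp.nonneg
    rcases t0.eq_or_lt with t1 | t1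
    · rw [← t1]; positivity
    have t2 : ∀ j, 1 ≤ M.tr b (R j) := fun j => (M.tr_gap (hR j) b).resolve_left fun h => by
      have := h1 _ (M.isTr b) j
      rw [h, mul_zero] at this
      exact absurd t1 this.not_gt
    have t3 : (Fintype.card ι : ℝ) ≤ ∑ j, M.tr b (R j) := by
      simpa using Finset.sum_le_sum fun j (_ : j ∈ Finset.univ) => t2 j
    have t4 : (2 * m : ℝ) ≤ Fintype.card ι := by exact_mod_cast hι
    have t5 := h2 _ (M.isTr b)
    have t6 := h3 _ (M.isTr b)
    have t7 : (1 : ℝ) ≤ ⌊M.tr b P / m⌋₊ := by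
      exact_mod_cast Nat.le_floor (by rw [Nat.cast_one, le_div_iff₀ m0]; linarith)
    have t8 := (div_lt_iff₀ m0).1 (Nat.lt_floor_add_one (M.tr b P / m))
    push_cast
    nlinarith
  have v4 : v * g = v := v1 ▸ mul_init_of_proj (v1 ▸ g1)
  refine ⟨v * star v, fun l => w l * star v, x, v3, fun l => ?_, fun l l' h => ?_, fun l => ⟨?_, ?_⟩,
    x1, x2⟩
  · rw [star_mul, star_star, mul_assoc, ← mul_assoc (star _), w1, ← mul_assoc, v4]
  · rw [star_mul, star_star, mul_assoc, ← mul_assoc (star _), w2 l l' h, zero_mul, mul_zero]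
  · rw [← mul_assoc, w3]
  · rw [mul_assoc, ← hP.isSelfAdjoint.star_eq, ← star_mul, v2]

end Pool.Agent.Lib.MP_30b5b4_an
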