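import Pool.Agent.Lib.MP_30b5b4_an.Main

/-! The estimates for extensions of arbitrary C*-algebras. -/

open scoped CStarAlgebra ComplexOrder

set_option linter.unusedSectionVars false
set_option linter.style.haveILetI false

namespace Pool.Agent.Lib.MP_30b5b4_an

variable {I E D : Type*}
  [NonUnitalCStarAlgebra I] [PartialOrder I] [StarOrderedRing I]
  [NonUnitalCStarAlgebra E] [PartialOrder E] [StarOrderedRing E]
  [NonUnitalCStarAlgebra D] [PartialOrder D] [StarOrderedRing D]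

noncomputable abbrev inc (E : Type*) [NonUnitalCStarAlgebra E] : E →⋆ₙₐ[ℂ] E⁺¹ :=
  Unitization.inrNonUnitalStarAlgHom ℂ E

lemma inc_mul (a : E⁺¹) (b : E) : inc E (a.fst • b + a.snd * b) = a * inc E b := by
  ext <;> simp

lemma idl_inc (E : Type*) [NonUnitalCStarAlgebra E] [PartialOrder E] [StarOrderedRing E] :
    Idl (inc E) :=
  ⟨Unitization.inr_injective, fun a b => ⟨_, inc_mul a b⟩⟩

structure Ext (ι : I →⋆ₙₐ[ℂ] E) (π : E →⋆ₙₐ[ℂ] D) : Prop where
  inj : Function.Injective ι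
  surj : Function.Surjective π
  ex : ∀ x, π x = 0 ↔ x ∈ Set.range ι

variable {ι : I →⋆ₙₐ[ℂ] E} {π : E →⋆ₙₐ[ℂ] D}

lemma Ext.idl (h : Ext ι π) : Idl ((inc E).comp ι) := by
  refine ⟨Unitization.inr_injective.comp h.inj, fun a b => ?_⟩
  obtain ⟨c, hc⟩ := (h.ex (a.fst • ι b + a.snd * ι b)).1 (by
    rw [map_add, map_smul, map_mul, (h.ex _).2 ⟨b, rfl⟩]; simp)
  exact ⟨c, (congrArg (inc E) hc).trans (inc_mul a _)⟩

lemma Ext.ker (h : Ext ι π) (a : E⁺¹) (ha : Unitization.starMap π a = 0) :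
    ∃ b, (inc E).comp ι b = a := by
  induction a using Unitization.ind with
  | inl_add_inr r x =>
    rw [map_add, Unitization.starMap_inl, Unitization.starMap_inr] at ha
    have h1 := congrArg (fun z : D⁺¹ => z.fst) ha
    have h2 := congrArg (fun z : D⁺¹ => z.snd) ha
    simp only [Unitization.fst_add, Unitization.algebraMap_eq_inl, Unitization.fst_inl,
      Unitization.fst_inr, add_zero, Unitization.fst_zero, Unitization.snd_add, Unitization.snd_inl,
      Unitization.snd_inr, zero_add, Unitization.snd_zero] at h1 h2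
    obtain ⟨b, rfl⟩ := (h.ex x).1 h2
    exact ⟨b, by simp [h1]⟩

lemma Ext.lift (h : Ext ι π) (y : D) : ∃ a, Unitization.starMap π (inc E a) = inc D y := by
  obtain ⟨a, rfl⟩ := h.surj y
  exact ⟨a, Unitization.starMap_inr π a⟩

theorem Ext.sum (h : Ext ι π) {n m : ℕ} (hI : NucDimLE I n) (hD : NucDimLE D m) :
    NucDimLE E (n + m) := by
  have := (idl_inc E).main_sum h.idl (fun x => ⟨ι x, rfl⟩) (idl_inc D) (Unitization.starMap π)
    h.ker h.lift (fun a => ⟨π a, (Unitization.starMap_inr π a).symm⟩) (hI.ap _) (hD.ap _)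
  rw [Nat.add_right_comm] at this
  exact this.nucDimLE (idl_inc E).inj

theorem Ext.max (h : Ext ι π) {n m : ℕ} (hI : NucDimLE I n) (hD : DecRankLE D m) :
    NucDimLE E (max n m) :=
  ((idl_inc E).main_max h.idl (fun x => ⟨ι x, rfl⟩) (idl_inc D) (Unitization.starMap π)
    h.ker h.lift (fun a => ⟨π a, (Unitization.starMap_inr π a).symm⟩)
    ((hI.ap _).mono (Nat.succ_le_succ (le_max_left n m)))
    ((hD.ap _).mono (Nat.succ_le_succ (le_max_right n m)))).nucDimLE (idl_inc E).inj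

lemma iInf_cases (P : ℕ → Prop) : (⨅ (n : ℕ) (_ : P n), (n : ℕ∞)) = ⊤ ∨
    ∃ n, P n ∧ (⨅ (n : ℕ) (_ : P n), (n : ℕ∞)) = n := by
  classical
  by_cases h : ∃ n, P n
  · refine Or.inr ⟨Nat.find h, Nat.find_spec h, le_antisymm (iInf₂_le _ (Nat.find_spec h)) ?_⟩
    exact le_iInf₂ fun n hn => by exact_mod_cast Nat.find_min' h hn
  · exact Or.inl (by simpa using fun n hn => h ⟨n, hn⟩)

theorem Ext.nucDim_le_add (h : Ext ι π) : nucDim E ≤ nucDim I + nucDim D := by
  rcases iInf_cases (NucDimLE I) with h1 | ⟨n, hn, h1⟩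
  · rw [nucDim.eq_def I, h1]; simp
  rcases iInf_cases (NucDimLE D) with h2 | ⟨m, hm, h2⟩
  · rw [nucDim.eq_def D, h2]; simp
  rw [nucDim.eq_def I, nucDim.eq_def D, h1, h2, ← Nat.cast_add]
  exact iInf₂_le _ (h.sum hn hm)

theorem Ext.nucDim_le_max (h : Ext ι π) : nucDim E ≤ Max.max (nucDim I) (decRank D) := by
  rcases iInf_cases (NucDimLE I) with h1 | ⟨n, hn, h1⟩
  · rw [nucDim.eq_def I, h1]; simp
  rcases iInf_cases (DecRankLE D) with h2 | ⟨m, hm, h2⟩
  · rw [decRank.eq_def D, h2]; simp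
  rw [nucDim.eq_def I, decRank.eq_def D, h1, h2, ← Nat.mono_cast.map_max]
  exact iInf₂_le _ (h.max hn hm)

end Pool.Agent.Lib.MP_30b5b4_an
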