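import Pool.Agent.Lib.MP_30b5b4_an.Merge

/-! The partition of unity from a quasicentral approximate unit, and lifting of colours. -/

open scoped CStarAlgebra ComplexOrder Topology
open Filter

set_option linter.unusedSectionVars false
set_option linter.style.haveILetI false

namespace Pool.Agent.Lib.MP_30b5b4_an

universe u v

variable {I E D : Type*} {A : Type u} {A' : Type v}
  [NonUnitalCStarAlgebra I] [PartialOrder I] [StarOrderedRing I]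
  [NonUnitalCStarAlgebra E] [PartialOrder E] [StarOrderedRing E]
  [NonUnitalCStarAlgebra D] [PartialOrder D] [StarOrderedRing D]
  [CStarAlgebra A] [PartialOrder A] [StarOrderedRing A]
  [CStarAlgebra A'] [PartialOrder A'] [StarOrderedRing A']
  {ι : I →⋆ₙₐ[ℂ] A} {j : E →⋆ₙₐ[ℂ] A} {jD : D →⋆ₙₐ[ℂ] A'}

structure Frame (ι : I →⋆ₙₐ[ℂ] A) (a m b w : BA A) : Prop where
  a0 : 0 ≤ a
  m0 : 0 ≤ m
  b0 : 0 ≤ b
  w0 : 0 ≤ w
  w1 : w ≤ 1
  mem : ∀ k, ∃ x, ι x = Bdd.ev k w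
  sum : a * a + m * m + b * b = 1
  ab : a * b = 0
  am : Commute a m
  mb : Commute m b
  wa : w * a = a
  wm : w * m = m

lemma commute_of_basis {F B : Type*} [CStarAlgebra F] [FiniteDimensional ℂ F] [CStarAlgebra B]
    (f : F →ₗ[ℂ] B) {t : B} (h : ∀ i, Commute t (f (Module.finBasis ℂ F i))) (x : F) :
    Commute t (f x) := by
  rw [← (Module.finBasis ℂ F).sum_repr x, map_sum]
  refine Commute.sum_right _ _ _ fun i _ => ?_
  rw [map_smul]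
  exact (h i).smul_right _

theorem Idl.frame (h : Idl ι) (π : A →⋆ₐ[ℂ] A') (hπ : ∀ a, π a = 0 → ∃ b, ι b = a)
    {κ : Type*} [Fintype κ] (s : κ → A) {N : ℕ} (e : Fin N → Colour j) :
    ∃ a m b w : BA A, Frame ι a m b w ∧
      (∀ y, ((∃ i, y = s i) ∨ ∃ i x, y = (e i).φ x) → Commute (Ult.mk a) (dg y) ∧
        Commute (Ult.mk m) (dg y) ∧ Commute (Ult.mk b) (dg y) ∧ Commute (Ult.mk w) (dg y)) ∧
      ∀ i, ‖dg (s i) * Ult.mk m‖ ≤ ‖π (s i)‖ ∧ ‖dg (s i) * Ult.mk b‖ ≤ ‖π (s i)‖ ∧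
        ‖dg (s i) * Ult.mk (m * m + b * b)‖ ≤ ‖π (s i)‖ := by
  obtain ⟨t, t1, t2, t3, t4, t5⟩ := h.exists_qc' π hπ
    (κ := κ ⊕ Σ i : Fin N, Fin (Module.finrank ℂ (e i).F))
    (Sum.elim s fun p => (e p.1).φ (Module.finBasis ℂ _ p.2))
  have ht := t2.isSelfAdjoint
  let α : ℝ → ℝ := fun s => √(cl (4 * s - 2))
  let β : ℝ → ℝ := fun s => √(cl (2 - 4 * s))
  let μ : ℝ → ℝ := fun s => √(1 - cl (4 * s - 2) - cl (2 - 4 * s))
  let ω : ℝ → ℝ := fun s => cl (4 * s)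
  have cα : Continuous α := by fun_prop
  have cβ : Continuous β := by fun_prop
  have cμ : Continuous μ := by fun_prop
  have cω : Continuous ω := by fun_prop
  have z1 : ∀ s : ℝ, cl (4 * s - 2) = 0 ∨ cl (2 - 4 * s) = 0 := fun s => by
    rcases le_total (4 * s) 2 with h | h
    · exact Or.inl (cl_of_nonpos (by linarith))
    · exact Or.inr (cl_of_nonpos (by linarith))
  have z2 : ∀ s : ℝ, 0 ≤ 1 - cl (4 * s - 2) - cl (2 - 4 * s) := fun s => by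
    rcases z1 s with h | h <;> rw [h] <;> linarith [cl_le_one (4 * s - 2), cl_le_one (2 - 4 * s)]
  have z3 : ∀ s : ℝ, ω s = 1 ∨ (α s = 0 ∧ μ s = 0) := fun s => by
    rcases le_total 1 (4 * s) with h | h
    · exact Or.inl (cl_of_one_le h)
    · right
      simp only [α, μ, cl_of_nonpos (show 4 * s - 2 ≤ 0 by linarith),
        cl_of_one_le (show 1 ≤ 2 - 4 * s by linarith)]
      simp
  have qα : ∀ s, α s * α s = cl (4 * s - 2) := fun s => Real.mul_self_sqrt (cl_nonneg _)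
  have qβ : ∀ s, β s * β s = cl (2 - 4 * s) := fun s => Real.mul_self_sqrt (cl_nonneg _)
  have qμ : ∀ s, μ s * μ s = 1 - cl (4 * s - 2) - cl (2 - 4 * s) := fun s =>
    Real.mul_self_sqrt (z2 s)
  have n1 : cfc μ t * cfc μ t + cfc β t * cfc β t = cfc (fun s => 1 - cl (4 * s - 2)) t := by
    rw [cfc_mul' cμ cμ, cfc_mul' cβ cβ, ← cfc_add _ _ _ (by fun_prop) (by fun_prop)]
    congr 1
    funext s
    rw [qμ, qβ]; ring
  have o1 : cl (4 * 1 - 2) = 1 := cl_of_one_le (by norm_num)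
  have o2 : cl (2 - 4 * 1) = 0 := cl_of_nonpos (by norm_num)
  refine ⟨cfc α t, cfc μ t, cfc β t, cfc ω t, ⟨cfc_nonneg fun _ _ => Real.sqrt_nonneg _,
    cfc_nonneg fun _ _ => Real.sqrt_nonneg _, cfc_nonneg fun _ _ => Real.sqrt_nonneg _,
    cfc_nonneg fun _ _ => cl_nonneg _, cfc_le_one _ _ (fun _ _ => cl_le_one _),
    cfc_mem_sub (S := Lf ι) h.isClosed_Lf cω (by simp [ω, cl]) t1, ?_, ?_, cfc_commute_cfc _ _ _,
    cfc_commute_cfc _ _ _, ?_, ?_⟩, fun y hy => ?_, fun i => ?_⟩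
  · rw [add_assoc, n1, cfc_mul' cα cα, ← cfc_add _ _ _ (by fun_prop) (by fun_prop),
      ← cfc_const_one ℝ t ht]
    congr 1
    funext s
    rw [qα]; ring
  · rw [cfc_mul' cα cβ, ← cfc_zero ℝ t]
    congr 1
    funext s
    rcases z1 s with h | h <;> simp [α, β, h]
  · rw [cfc_mul' cω cα]
    congr 1
    funext s
    rcases z3 s with h | h <;> simp [h]
  · rw [cfc_mul' cω cμ]
    congr 1
    funext s
    rcases z3 s with h | h <;> simp [h]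
  · have : Commute (Ult.mk t) (dg y) := by
      rcases hy with ⟨i, rfl⟩ | ⟨i, x, rfl⟩
      · exact t4 (Sum.inl i)
      · exact commute_of_basis ((dg : A →⋆ₐ[ℂ] UA A).toAlgHom.toLinearMap ∘ₗ (e i).φ)
          (fun l => t4 (Sum.inr ⟨i, l⟩)) x
    rw [hom_cfc _ cα ht, hom_cfc _ cβ ht, hom_cfc _ cμ ht, hom_cfc _ cω ht]
    exact ⟨this.cfc_real _, this.cfc_real _, this.cfc_real _, this.cfc_real _⟩
  · rw [n1, hom_cfc _ cβ ht, hom_cfc _ cμ ht, hom_cfc _ (by fun_prop) ht]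
    refine ⟨t5 (Sum.inl i) μ cμ (by simp only [μ, o1, o2]; simp) fun x _ _ => ?_,
      t5 (Sum.inl i) β cβ (by simp only [β, o2]; simp) fun x _ _ => ?_,
      t5 (Sum.inl i) _ (by fun_prop) (by simp only [o1]; simp) fun x _ _ => ?_⟩
    · rw [abs_of_nonneg (Real.sqrt_nonneg _), Real.sqrt_le_one]
      linarith [cl_nonneg (4 * x - 2), cl_nonneg (2 - 4 * x)]
    · rw [abs_of_nonneg (Real.sqrt_nonneg _), Real.sqrt_le_one]
      exact cl_le_one _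
    · rw [abs_le]
      constructor <;> linarith [cl_nonneg (4 * x - 2), cl_le_one (4 * x - 2)]

theorem Idl.merge_all (h : Idl j) (hι : Idl ι) (hιj : ∀ x, ∃ b, j b = ι x) {N : ℕ} {d : Prop}
    (hI : Ap ι N d) {w : BA A} (hw : ∀ k, ∃ b, ι b = Bdd.ev k w) (w0 : 0 ≤ w) (w1 : w ≤ 1)
    (e : Fin N → Colour j) {θ : E →ₗ[ℂ] BA A} (hθ : IsCP θ) (hθ' : ∀ a, ‖θ a‖ ≤ ‖a‖)
    {Φ : Fin N → A →ₗ[ℂ] UA A} (hΦ : ∀ i, IsCP (Φ i)) (hΦ1 : ∀ i, Φ i 1 ≤ 1)
    {Z O : ∀ i, (e i).F →ₗ[ℂ] UA A} (hZ : ∀ i, OZ (Z i)) (hO : ∀ i, IsCP (O i))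
    (hW : ∀ i, OZ (Z i + O i)) (hW1 : ∀ i, Z i 1 + O i 1 ≤ 1)
    (hl : ∀ i x, ∃ s ∈ Lf j, Ult.mk s = O i x) (c1 : ∀ i x, Commute (Φ i 1) (Z i x))
    (c2 : ∀ i, Φ i 1 * O i 1 = 0) (S : Finset E)
    (v1 : ∀ i, Ult.mk w * Φ i 1 = Φ i 1) (v2 : ∀ i x, Ult.mk w * Z i x = Z i x)
    (v3 : ∀ a, Ult.mk w * Ult.mk (θ a) = Ult.mk (θ a)) {η δ : ℝ} (hη : 0 < η)
    (hS : ∀ a ∈ S, ‖a‖ ≤ 1)
    (hδ : ∀ a ∈ S, ∀ i, ‖Ult.mk (θ a) - Φ i (j a) - Z i ((e i).ψ a)‖ ≤ δ) :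
    ∃ d : Fin N → ℕ → Colour j, ∀ a ∈ S,
      ‖∑ i, sT (d i) a - (Ult.mk (θ a) + ∑ i, O i ((e i).ψ a))‖ ≤ N * (5 * η + 2 * δ) := by
  have W0 : star (Ult.mk w) = Ult.mk w := (hom_nonneg _ w0).star_eq
  obtain ⟨c, a1, a2, a3, -⟩ := hI.ultra hι hw w0 w1
    (κ := S ⊕ Fin N ⊕ Σ i : Fin N, Fin (Module.finrank ℂ (e i).F))
    (Sum.elim (fun a => Ult.mk (θ a)) (Sum.elim (fun i => Φ i 1)
      fun p => Z p.1 (Module.finBasis ℂ _ p.2))) (by
      rintro (a | i | ⟨i, l⟩)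
      · refine ⟨v3 a, ?_⟩
        have := congrArg star (v3 (star a))
        rwa [star_mul, W0, hθ.map_star, map_star, star_star] at this
      · refine ⟨v1 i, ?_⟩
        have := congrArg star (v1 i)
        rwa [star_mul, W0, (hΦ i).one_nonneg.star_eq] at this
      · refine ⟨v2 i _, ?_⟩
        have := congrArg star (v2 i (star (Module.finBasis ℂ _ l)))
        rwa [star_mul, W0, (hZ i).cp.map_star, star_star] at this)
  choose d hd using fun i => h.merge (c i) (fun k x => by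
      obtain ⟨b, hb⟩ := a1 i k x
      rw [← hb]; exact hιj b) (e i).cp (e i).le hθ hθ' (hΦ i) (hΦ1 i) (hZ i) (hO i) (hW i) (hW1 i)
    (hl i) (c1 i) (c2 i) (a2 i (Sum.inr (Sum.inl i))) (fun x => ⟨LinearMap.congr_fun
      ((Module.finBasis ℂ (e i).F).ext (f₁ := uT (c i) ∘ₗ Z i)
        (f₂ := LinearMap.mulLeft ℂ (uT (c i) 1) ∘ₗ Z i)
        fun l => (a2 i (Sum.inr (Sum.inr ⟨i, l⟩))).1) x, LinearMap.congr_fun
      ((Module.finBasis ℂ (e i).F).ext (f₁ := uT (c i) ∘ₗ Z i)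
        (f₂ := LinearMap.mulRight ℂ (uT (c i) 1) ∘ₗ Z i)
        fun l => (a2 i (Sum.inr (Sum.inr ⟨i, l⟩))).2) x⟩) hη
  refine ⟨d, fun a ha => ?_⟩
  have e1 : ∑ i, uT (c i) (Ult.mk (θ a)) = Ult.mk (θ a) := a3 (Sum.inl ⟨a, ha⟩)
  conv_lhs => enter [1, 2, 1]; rw [← e1]
  rw [← Finset.sum_add_distrib, ← Finset.sum_sub_distrib]
  refine (norm_sum_le _ _).trans ((Finset.sum_le_sum fun i _ => (hd i a).trans
    (show _ ≤ 5 * η + 2 * δ by nlinarith [hδ a ha i, hS a ha])).trans ?_)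
  simp [mul_add]

noncomputable def γf (η s : ℝ) : ℝ := √(1 - s * Gf η s)

lemma γf_cont {η : ℝ} (hη : 0 < η) : Continuous (γf η) := by
  have := Gf_cont hη
  unfold γf
  fun_prop

lemma γf_sq {η : ℝ} (hη : 0 < η) (s : ℝ) : γf η s * γf η s = 1 - s * Gf η s :=
  Real.mul_self_sqrt (sub_nonneg.2 (mul_Gf_le hη))

lemma γf_add {B : Type*} [CStarAlgebra B] {η : ℝ} (hη : 0 < η) {l : B} (hl : IsSelfAdjoint l) :
    cfc (γf η) l * cfc (γf η) l + cfc (Gf η) l * l = 1 := by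
  have := Gf_cont hη
  have := γf_cont hη
  rw [cfc_mul' this this, cfc_mul_id (Gf_cont hη) hl, ← cfc_add _ _ _ (by fun_prop) (by fun_prop),
    ← cfc_const_one ℝ l hl]
  congr 1
  funext s
  rw [γf_sq hη]; ring

lemma Idl.lift_colour (h : Idl j) (π : A →⋆ₐ[ℂ] A') (hs : ∀ y, ∃ a, π (j a) = jD y) (c : CA A')
    (hm : ∀ x, ∃ b, jD b = c.φ x) {ε : ℝ} (hε : 0 < ε) :
    ∃ e : Colour j, ‖π (e.φ 1) - c.φ 1‖ ≤ ε ∧ ∀ a, ‖π (e.T a) - c.T (π (j a))‖ ≤ ε * ‖a‖ := by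
  obtain ⟨φ, a1, a2, a3, a4⟩ := exists_oz_lift π (S := NonUnitalStarAlgHom.range j)
    h.isClosed_range c.oz c.one (fun x => by
      obtain ⟨b, hb⟩ := hm x
      obtain ⟨a, ha⟩ := hs b
      exact ⟨j a, ⟨a, rfl⟩, ha.trans hb⟩) hε
  have n1 : ∀ a, ‖c.ψ (π (j a))‖ ≤ ‖a‖ := fun a =>
    (c.le _).trans ((hom_norm_le _ _).trans (NonUnitalStarAlgHom.norm_apply_le j a))
  refine ⟨{ F := c.F
            ψ := c.ψ ∘ₗ π.toAlgHom.toLinearMap ∘ₗ (j : E →ₗ[ℂ] A)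
            φ := φ
            cp := c.cp.comp_half (fun a => π (j a)) fun a a' => by
              rw [← map_star, ← map_star, ← map_mul, ← map_mul]; rfl
            le := n1
            oz := a1
            one := a2
            mem := a3 }, (a4 1).trans ?_, fun a => (a4 _).trans ?_⟩
  · exact mul_le_of_le_one_right hε.le (norm_one_le' _)
  · exact mul_le_mul_of_nonneg_left (n1 a) hε.le

theorem Idl.quotient_data (h : Idl j) (hD : Idl jD) (π : A →⋆ₐ[ℂ] A')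
    (hs : ∀ y, ∃ a, π (j a) = jD y) (hs' : ∀ a, ∃ y, jD y = π (j a)) {M : ℕ} {d : Prop}
    (hA : Ap jD M d) (S : Finset E) {ε η : ℝ} (hε : 0 < ε) (hη : 0 < η) :
    ∃ e : Fin M → Colour j, ∀ a ∈ S, ‖π (∑ i, (e i).T a - j a)‖ ≤ ε ∧ (d → ∀ i,
      ‖π (cfc (γf η) ((e i).φ 1) * j a * cfc (γf η) ((e i).φ 1) +
        cfc (Gf η) ((e i).φ 1) * (e i).T a - j a)‖ ≤ ε) := by
  classical
  choose p hp using hs'
  obtain ⟨w, w2, w0, w1, w3, w4⟩ := hD.exists_qc (fun a : S => jD (p a)) fun a : S => p a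
  obtain ⟨c, a1, -, a3, a4⟩ := hA.ultra hD w2 w0 w1 (fun a : S => dg (jD (p a)))
    fun a => ⟨w4 a, (w3 a).eq.symm.trans (w4 a)⟩
  choose e e1 e2 using fun i (k : ℕ) => h.lift_colour π hs (c i k) (a1 i k)
    (show (0 : ℝ) < 1 / ((k : ℝ) + 1) by positivity)
  let l : Fin M → BA A' := fun i => Bdd.of (fun k => π ((e i k).φ 1)) 1 fun k =>
    (hom_norm_le _ _).trans (((e i k).φ_le 1).trans (norm_one_le' _))
  let T : Fin M → E → BA A' := fun i a => Bdd.of (fun k => π ((e i k).T a)) ‖a‖ fun k =>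
    (hom_norm_le _ _).trans ((e i k).T_le a)
  have l0 : ∀ i, IsSelfAdjoint (l i) := fun i =>
    Bdd.isSelfAdjoint fun k => (e i k).oz.cp.one_nonneg.isSelfAdjoint.map π
  have l1 : ∀ i, Ult.mk (l i) = uφ (c i) 1 := fun i => by
    rw [uφ_one_eq]
    exact Ult.mk_eq_of_le 1 fun k => by simpa [l] using e1 i k
  have T1 : ∀ i a, Ult.mk (T i a) = uT (c i) (dg (π (j a))) := fun i a => by
    rw [dg_apply, uT_mk]
    exact Ult.mk_eq_of_le ‖a‖ fun k => by simpa [T, mul_comm] using e2 i k a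
  have g1 := Gf_cont hη
  have g2 := γf_cont hη
  have f1 : ∀ a ∈ S, ∀ᶠ k in (om : Filter ℕ), ‖π (∑ i, (e i k).T a - j a)‖ ≤ ε := by
    intro a ha
    have : ‖Ult.mk (∑ i, T i a - cst (π (j a)))‖ < ε := by
      rw [map_sub, map_sum, ← dg_apply]
      simp only [T1, ← hp]
      rw [a3 ⟨a, ha⟩, sub_self, norm_zero]
      exact hε
    filter_upwards [Ult.eventually_lt this] with k hk
    simpa [T] using hk.le
  have f2 : ∀ a ∈ S, ∀ i, ∀ᶠ k in (om : Filter ℕ), d →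
      ‖π (cfc (γf η) ((e i k).φ 1) * j a * cfc (γf η) ((e i k).φ 1) +
        cfc (Gf η) ((e i k).φ 1) * (e i k).T a - j a)‖ ≤ ε := by
    intro a ha i
    by_cases hd : d
    swap
    · exact Eventually.of_forall fun k h => (hd h).elim
    have : ‖Ult.mk (cfc (γf η) (l i) * cst (π (j a)) * cfc (γf η) (l i) +
        cfc (Gf η) (l i) * T i a - cst (π (j a)))‖ < ε := by
      obtain ⟨b1, b2⟩ := a4 hd i ⟨a, ha⟩
      have b3 : Commute (uφ (c i) 1) (dg (jD (p a))) := b1.symm.trans b2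
      rw [map_sub, map_add, map_mul, map_mul, map_mul, hom_cfc _ g1 (l0 i), hom_cfc _ g2 (l0 i),
        ← dg_apply, T1, l1, ← hp, b1, mul_assoc, ← (b3.cfc_real _).eq, ← mul_assoc, ← mul_assoc,
        ← add_mul, γf_add hη (uφ_spec _).1.one_nonneg.isSelfAdjoint, one_mul, sub_self, norm_zero]
      exact hε
    filter_upwards [Ult.eventually_lt this] with k hk _
    have s1 := (e i k).oz.cp.one_nonneg.isSelfAdjoint
    rw [map_sub, map_add, map_mul, map_mul, map_mul, hom_cfc _ g1 (l0 i), hom_cfc _ g2 (l0 i)] at hk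
    rw [map_sub, map_add, map_mul, map_mul, map_mul, hom_cfc _ g1 s1, hom_cfc _ g2 s1]
    exact hk.le
  obtain ⟨k, hk⟩ := ((S.eventually_all).2 fun a ha =>
    (f1 a ha).and (eventually_all.2 (f2 a ha))).exists
  exact ⟨fun i => e i k, fun a ha => ⟨(hk a ha).1, fun hd i => (hk a ha).2 i hd⟩⟩

end Pool.Agent.Lib.MP_30b5b4_an
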