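import Pool.Agent.Lib.MP_30b5b4_an.FC

/-! Gelfand toolkit and the puncture lemma of Friis and Rordam. -/

open scoped CStarAlgebra ComplexOrder

set_option linter.unusedSectionVars false
set_option linter.style.haveILetI false

namespace Pool.Agent.Lib.MP_30b5b4_an

universe u
variable {Q : Type u} [CStarAlgebra Q]

lemma exists_gelfand (S : Set Q) (h : ∀ a ∈ S, ∀ b ∈ S, Commute a b ∧ Commute (star a) b) :
    ∃ (X : Type u) (_ : TopologicalSpace X) (_ : CompactSpace X) (Φ : C(X, ℂ) →⋆ₐ[ℂ] Q),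
      Function.Injective Φ ∧ (∀ f, spectrum ℂ (Φ f) = Set.range f) ∧ ∀ s ∈ S, ∃ f, Φ f = s := by
  let C := StarSubalgebra.centralizer ℂ (StarSubalgebra.centralizer ℂ S : Set Q)
  haveI hC : IsClosed (C : Set Q) := Set.isClosed_centralizer _
  have h1 : S ⊆ StarSubalgebra.centralizer ℂ S := fun a ha =>
    StarSubalgebra.mem_centralizer_iff ℂ |>.2 fun g hg => ⟨(h g hg a ha).1, (h g hg a ha).2⟩
  have h2 : C ≤ StarSubalgebra.centralizer ℂ S := StarSubalgebra.centralizer_le ℂ _ _ h1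
  have h3 : ∀ s ∈ S, s ∈ C := fun s hs => StarSubalgebra.mem_centralizer_iff ℂ |>.2 fun g hg =>
    ⟨((StarSubalgebra.mem_centralizer_iff ℂ |>.1 hg) s hs).1.symm,
      ((StarSubalgebra.mem_centralizer_iff ℂ |>.1 (star_mem hg)) s hs).1.symm⟩
  letI : CommCStarAlgebra C :=
    { StarSubalgebra.cstarAlgebra C with
      mul_comm := fun x y => Subtype.ext
        ((StarSubalgebra.mem_centralizer_iff ℂ |>.1 y.2) x (h2 x.2)).1 }
  let Ψ : C(WeakDual.characterSpace ℂ C, ℂ) →⋆ₐ[ℂ] C := (gelfandStarTransform C).symm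
  refine ⟨WeakDual.characterSpace ℂ C, inferInstance, inferInstance, C.subtype.comp Ψ,
    fun f g hfg => (gelfandStarTransform C).symm.injective (Subtype.ext hfg), fun f => ?_,
    fun s hs => ⟨gelfandStarTransform C ⟨s, h3 s hs⟩, by simp [Ψ]⟩⟩
  rw [← ContinuousMap.spectrum_eq_range,
    ← AlgEquiv.spectrum_eq (gelfandStarTransform C).symm f, StarSubalgebra.spectrum_eq (hS := hC)]
  rfl

section
variable {X : Type*} [TopologicalSpace X] [CompactSpace X]

lemma gel_cfc (Φ : C(X, ℂ) →⋆ₐ[ℂ] Q) (f : C(X, ℂ)) {g : ℂ → ℂ} (hg : Continuous g)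
    {k : C(X, ℂ)} (hk : ∀ t, k t = g (f t)) : cfc g (Φ f) = Φ k := by
  rw [← hom_cfc' Φ hg (inferInstance : IsStarNormal f)]
  congr 1
  ext t
  have := hom_cfc' ((ContinuousMap.evalStarAlgHom ℂ ℂ t : C(X, ℂ) →⋆ₐ[ℂ] ℂ)) hg
    (inferInstance : IsStarNormal f)
  have h2 := cfc_algebraMap (A := ℂ) (f t) g
  simp only [ContinuousMap.evalStarAlgHom_apply] at this
  rw [this, hk]
  simpa using h2

lemma gel_norm (Φ : C(X, ℂ) →⋆ₐ[ℂ] Q) {f : C(X, ℂ)} {r : ℝ} (hr : 0 ≤ r) (h : ∀ t, ‖f t‖ ≤ r) :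
    ‖Φ f‖ ≤ r := (hom_norm_le Φ f).trans ((ContinuousMap.norm_le f hr).2 h)

lemma gel_nonneg [PartialOrder Q] [StarOrderedRing Q] (Φ : C(X, ℂ) →⋆ₐ[ℂ] Q) {f : C(X, ℂ)}
    (h : ∀ t, ∃ s : ℝ, 0 ≤ s ∧ f t = s) : 0 ≤ Φ f := by
  let g : C(X, ℂ) := ⟨fun t => (Real.sqrt (f t).re : ℝ), by fun_prop⟩
  have : f = star g * g := by
    ext t
    obtain ⟨s, hs, hf⟩ := h t
    simp only [g, ContinuousMap.mul_apply, ContinuousMap.star_apply, ContinuousMap.coe_mk, hf,
      Complex.ofReal_re, Complex.star_def, Complex.conj_ofReal]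
    rw [← Complex.ofReal_mul, Real.mul_self_sqrt hs]
  rw [this, map_mul, map_star]
  exact star_mul_self_nonneg _

end

variable [PartialOrder Q] [StarOrderedRing Q]

structure FR (Q : Type u) [CStarAlgebra Q] [PartialOrder Q] [StarOrderedRing Q] : Prop where
  polar : ∀ x : Q, ∃ u ∈ unitary Q, x = u * sq (star x * x)
  borel : ∀ u ∈ unitary Q, ∀ W : Set ℂ, ∃ e, IsStarProjection e ∧ Commute e u ∧
    ∀ g : ℂ → ℂ, Continuous g → ((∀ w ∈ W, g w = 0) → cfc g u * e = 0) ∧
      ((∀ w ∉ W, g w = 0) → cfc g u * (1 - e) = 0)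

lemma FR.puncture (h : FR Q) {n : Q} (hn : IsStarNormal n) (l : ℂ) {r : ℝ} (hr : 0 < r) :
    ∃ n', IsStarNormal n' ∧ ‖n' - n‖ ≤ r ∧
      ∀ μ ∈ spectrum ℂ n', (μ ∈ spectrum ℂ n ∧ r ≤ ‖μ - l‖) ∨ ‖μ - l‖ = r := by
  set x := n - algebraMap ℂ Q l with hx
  obtain ⟨u, hu, hxu⟩ := h.polar x
  set a := sq (star x * x) with ha
  have ha0 : 0 ≤ a := sq_nonneg' _
  have haa : a * a = star x * x := sq_mul_sq (star_mul_self_nonneg x)
  have hxn : star x * x = x * star x := by
    rw [hx, Algebra.algebraMap_eq_smul_one]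
    simp only [star_sub, star_smul, star_one, sub_mul, mul_sub, smul_mul_assoc, mul_smul_comm,
      one_mul, mul_one, hn.star_comm_self.eq, smul_sub, smul_comm l]
    abel
  have c1 : Commute (star x * x) u := by
    have : x * star x = u * (star x * x) * star u := by
      conv_lhs => rw [hxu]
      rw [star_mul, ha0.star_eq, ← haa]
      simp only [mul_assoc]
    rw [← hxn] at this
    change _ * _ = _ * _
    conv_lhs => rw [this]
    rw [mul_assoc, Unitary.star_mul_self_of_mem hu, mul_one]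
  have c2 : Commute a u := c1.cfc_real _
  have c3 : Commute (sq a) u := c2.cfc_real _
  have c4 : Commute (sq a) (star u) := by
    have := c3.star_star
    rwa [sq_star] at this
  obtain ⟨X, _, _, Φ, hΦ, hsp, hS⟩ := exists_gelfand {u, sq a} (by
    intro p hp q hq
    simp only [Set.mem_insert_iff, Set.mem_singleton_iff] at hp hq
    rcases hp with rfl | rfl <;> rcases hq with rfl | rfl
    · exact ⟨Commute.refl _, by
        change _ * _ = _ * _
        rw [Unitary.star_mul_self_of_mem hu, Unitary.mul_star_self_of_mem hu]⟩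
    · exact ⟨c3.symm, c4.symm⟩
    · exact ⟨c3, by rw [sq_star]; exact c3⟩
    · exact ⟨Commute.refl _, by rw [sq_star]⟩)
  obtain ⟨fu, hfu⟩ := hS u (by simp)
  obtain ⟨fs, hfs⟩ := hS (sq a) (by simp)
  have e1 : ∀ t, ‖fu t‖ = 1 := by
    intro t
    have : star fu * fu = 1 := hΦ (by
      rw [map_mul, map_star, hfu, Unitary.star_mul_self_of_mem hu, map_one])
    have := congrArg (fun f : C(X, ℂ) => ‖f t‖) this
    simp only [ContinuousMap.mul_apply, ContinuousMap.star_apply, norm_mul, norm_star,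
      ContinuousMap.one_apply, norm_one] at this
    nlinarith [norm_nonneg (fu t)]
  have e2 : ∀ t, fs t * fs t = (‖fs t‖ ^ 2 : ℝ) := by
    intro t
    have : star fs = fs := hΦ (by rw [map_star, hfs, sq_star])
    have := congrArg (fun f : C(X, ℂ) => f t) this
    simp only [ContinuousMap.star_apply, Complex.star_def] at this
    conv_lhs => enter [2]; rw [← this]
    rw [Complex.mul_conj']
    simp
  let g : C(X, ℂ) := ⟨fun t => (max (‖fs t‖ ^ 2) r : ℝ), by fun_prop⟩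
  have e3 : n = Φ (algebraMap ℂ _ l + fu * (fs * fs)) := by
    rw [map_add, map_mul, map_mul, hfu, hfs, sq_mul_sq ha0, ← hxu, hx, AlgHomClass.commutes]
    abel
  refine ⟨Φ (algebraMap ℂ _ l + fu * g), IsStarNormal.map _ _, ?_, ?_⟩
  · rw [e3, ← map_sub]
    refine gel_norm Φ hr.le fun t => ?_
    have : (algebraMap ℂ C(X, ℂ) l + fu * g - (algebraMap ℂ C(X, ℂ) l + fu * (fs * fs))) t
        = fu t * ((max (‖fs t‖ ^ 2) r - ‖fs t‖ ^ 2 : ℝ) : ℂ) := by
      simp only [ContinuousMap.sub_apply, ContinuousMap.add_apply, ContinuousMap.mul_apply, e2, g,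
        ContinuousMap.coe_mk]
      push_cast
      ring
    rw [this, norm_mul, e1, one_mul, Complex.norm_real, Real.norm_eq_abs, abs_le]
    constructor
    · linarith [le_max_left (‖fs t‖ ^ 2) r]
    · have := max_le (show ‖fs t‖ ^ 2 ≤ r + ‖fs t‖ ^ 2 by linarith)
        (show r ≤ r + ‖fs t‖ ^ 2 by nlinarith [sq_nonneg ‖fs t‖])
      linarith
  · intro μ hμ
    rw [hsp] at hμ
    obtain ⟨t, rfl⟩ := hμ
    have e4 : ‖(algebraMap ℂ C(X, ℂ) l + fu * g) t - l‖ = max (‖fs t‖ ^ 2) r := by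
      have : (algebraMap ℂ C(X, ℂ) l + fu * g) t - l = fu t * (max (‖fs t‖ ^ 2) r : ℝ) := by
        simp [g]
      rw [this, norm_mul, e1, one_mul, Complex.norm_real,
        Real.norm_of_nonneg (hr.le.trans (le_max_right _ _))]
    rw [e4]
    rcases le_total (‖fs t‖ ^ 2) r with h1 | h1
    · exact Or.inr (max_eq_right h1)
    · refine Or.inl ⟨?_, le_max_right _ _⟩
      rw [e3, hsp]
      refine ⟨t, ?_⟩
      simp only [ContinuousMap.add_apply, ContinuousMap.mul_apply, e2, g, ContinuousMap.coe_mk,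
        max_eq_left h1]

lemma FR.puncture_many (h : FR Q) {n : Q} (hn : IsStarNormal n) (l : ℕ → ℂ) {r : ℝ} (hr : 0 < r)
    (hl : ∀ i j, i ≠ j → 2 * r ≤ ‖l i - l j‖) (M : ℕ) :
    ∃ n', IsStarNormal n' ∧ ‖n' - n‖ ≤ M * r ∧ ∀ j < M, ∀ μ ∈ spectrum ℂ n', r ≤ ‖μ - l j‖ := by
  induction M with
  | zero => exact ⟨n, hn, by simp, by simp⟩
  | succ M ih =>
    obtain ⟨n₁, a1, a2, a3⟩ := ih
    obtain ⟨n₂, b1, b2, b3⟩ := h.puncture a1 (l M) hr
    refine ⟨n₂, b1, ?_, fun j hj μ hμ => ?_⟩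
    · have := norm_add_le (n₂ - n₁) (n₁ - n)
      rw [sub_add_sub_cancel] at this
      push_cast
      linarith
    · rcases Nat.lt_succ_iff_lt_or_eq.1 hj with hj | rfl
      · rcases b3 μ hμ with h1 | h1
        · exact a3 j hj μ h1.1
        · have h2 := hl j M hj.ne
          have h3 := norm_sub_le (μ - l M) (μ - l j)
          rw [show μ - l M - (μ - l j) = l j - l M by ring] at h3
          linarith
      · rcases b3 μ hμ with h1 | h1
        · exact h1.2
        · exact h1.ge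

end Pool.Agent.Lib.MP_30b5b4_an
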