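import Pool.Agent.Lib.MP_30b5b4_an.Mor3
import Pool.Agent.Lib.MP_30b5b4_an.DefsT

/-! Extensions whose quotient is tame. -/

open scoped CStarAlgebra ComplexOrder Topology
open Filter

set_option linter.unusedSectionVars false
set_option linter.style.haveILetI false
set_option linter.unusedVariables false
set_option linter.unusedSimpArgs false

namespace Pool.Agent.Lib.MP_30b5b4_an

universe u v w

section comm
variable {A : Type u} [CStarAlgebra A] [PartialOrder A] [StarOrderedRing A]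

lemma comm_sq_zero (hc : ∀ a b : A, a * b = b * a) {w : A} (h : w * w = 0) : w = 0 := by
  refine (CStarRing.star_mul_self_eq_zero_iff _).1 ((CStarRing.star_mul_self_eq_zero_iff _).1 ?_)
  rw [star_mul, star_star, mul_assoc, ← mul_assoc w, hc w, mul_assoc, h, mul_zero, mul_zero]

lemma OZ.comm_orth (hc : ∀ a b : A, a * b = b * a) {F : Type*} [CStarAlgebra F] [PartialOrder F]
    [StarOrderedRing F] {φ : F →ₗ[ℂ] A} (h : OZ φ) (r s : F) {x y : F} (hxy : x * y = 0) :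
    φ (r * x * s) * φ (r * y * s) = 0 := by
  have c : ∀ w a, φ 1 * w * φ a = 0 → w * φ a = 0 := fun w a hw => comm_sq_zero hc (by
    have := h.cp.mul_left_eq_zero (w := w * φ a) (by rw [hc, ← mul_assoc, hw]) a
    rw [← zero_mul w, ← this, mul_assoc _ (φ a) w, hc (φ a) w])
  have e1 := h.mul (r * x) s
  have e2 := h.mul r x
  have e3 := h.mul (r * y) s
  have e4 := h.mul r y
  have e5 := h.mul_eq_zero hxy
  refine c _ _ (c _ _ (c _ _ (c _ _ ?_)))
  letI : CommRing A := { (inferInstance : Ring A) with mul_comm := hc }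
  linear_combination (-(φ 1) ^ 3 * φ (r * y * s)) * e1 - (φ 1 ^ 2 * φ s * φ (r * y * s)) * e2
    - (φ 1 * φ s * φ r * φ x) * e3 - (φ s * φ r * φ x * φ s) * e4 + (φ s * φ r * φ s * φ r) * e5

lemma Colour.rescale (hc : ∀ a b : A, a * b = b * a) (c : CA A) {η l : ℝ} (hη : 0 < η)
    (l0 : 0 ≤ l) (l1 : l * (1 + η) ≤ 1) : ∃ d : CA A, (∀ x, ∃ y, d.φ x = c.φ y) ∧
      d.φ 1 = l • (c.T 1 + η • c.φ 1) ∧ ∀ a, d.T a = l • c.T a := by
  have s0 : 0 ≤ c.ψ 1 := c.cp.one_nonneg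
  have t0 : IsStrictlyPositive (c.ψ 1 + η • 1) :=
    (isStrictlyPositive_one.smul hη).of_le (le_add_of_nonneg_left s0)
  obtain ⟨r, r0, r1, -⟩ := exists_sqrt_commute t0.nonneg
  obtain ⟨r', r2, r3⟩ := isUnit_iff_exists.1 (isUnit_mul_self_iff.1 (r1 ▸ t0.isUnit))
  have h1 : IsCP (c.φ ∘ₗ cj r LinearMap.id) := c.oz.cp.comp_half (· * r) fun a a' => by
    simp [cj_apply, mul_assoc]
  have h2 : IsCP ((l : ℂ) • (c.φ ∘ₗ cj r LinearMap.id)) := h1.smul l0 fun a => by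
    rw [LinearMap.smul_apply, Complex.coe_smul]
  have h3 : ∀ x, ((l : ℂ) • (c.φ ∘ₗ cj r LinearMap.id)) x = l • c.φ (star r * x * r) := fun x => by
    rw [LinearMap.smul_apply, Complex.coe_smul]; rfl
  have h4 : ((l : ℂ) • (c.φ ∘ₗ cj r LinearMap.id)) 1 = l • (c.T 1 + η • c.φ 1) := by
    rw [h3, mul_one, r0.star_eq, r1, map_add, ← Complex.coe_smul η, map_smul, Complex.coe_smul]; rfl
  refine ⟨{ c with
    ψ := cj r' c.ψ
    φ := (l : ℂ) • (c.φ ∘ₗ cj r LinearMap.id)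
    cp := c.cp.cj _
    le := (c.cp.cj _).norm_le ?_
    oz := OZ.orth h2 fun x y _ _ hxy => ?_
    one := le_one_of_norm h2.one_nonneg ?_
    mem := fun x => ⟨_, rfl⟩ }, fun x => ⟨_, (map_smul c.φ _ _).symm⟩, h4, fun a => (h3 _).trans ?_⟩
  · refine (star_left_conjugate_le_conjugate (le_add_of_nonneg_right
      (smul_nonneg hη.le zero_le_one)) r').trans_eq ?_
    rw [← r1, ← mul_assoc, mul_assoc _ r, r2, mul_one, ← r0.star_eq, ← star_mul, r2, star_one]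
  · rw [h3, h3, smul_mul_smul_comm, c.oz.comm_orth hc _ _ hxy, smul_zero]
  · rw [h4, norm_smul, Real.norm_of_nonneg l0]
    refine le_trans (mul_le_mul_of_nonneg_left (norm_add_le_of_le ((c.T_le 1).trans (norm_one_le' _))
      ?_) l0) l1
    rw [norm_smul, Real.norm_of_nonneg hη.le]
    exact mul_le_of_le_one_right hη.le ((c.φ_le 1).trans (norm_one_le' _))
  · congr 2
    change star r * (star r' * c.ψ a * r') * r = c.ψ a
    rw [← mul_assoc, ← mul_assoc, ← star_mul, mul_assoc, r3, star_one, one_mul, mul_one]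

variable {B : Type u} [NonUnitalCStarAlgebra B] [PartialOrder B] [StarOrderedRing B]

theorem NucDimLE.ap_comm {n : ℕ} (h : NucDimLE B n) (hc : ∀ a b : B, a * b = b * a) :
    Ap (inc B) (n + 1) True := by
  classical
  have hc' : ∀ a b : B⁺¹, a * b = b * a := fun a b => by
    ext
    · simp [mul_comm]
    · simp [hc a.snd, add_comm]
  intro S ε hε
  set C := ∑ a ∈ S, ‖a‖ with hC
  have C0 : 0 ≤ C := by positivity
  set η := ε / (3 + (n + 2) * C) with hη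
  have η0 : 0 < η := by positivity
  have hu := CStarAlgebra.increasingApproximateUnit B
  haveI := hu.neBot
  obtain ⟨e, e0, e1, e2⟩ := (hu.eventually_nonneg.and (hu.eventually_norm.and
    ((Filter.eventually_all_finset S).2 fun a _ =>
      Metric.tendsto_nhds.1 (hu.tendsto_mul_right a) _ η0))).exists
  have n1 : ∀ x, ‖inc B x‖ ≤ ‖x‖ := NonUnitalStarAlgHom.norm_apply_le _
  have w1 : ‖inc B e‖ ≤ 1 := (n1 e).trans e1
  have w0 := nu_nonneg (inc B) e0
  obtain ⟨L, hL, hd⟩ := (idl_inc B).compress ⟨e, rfl⟩ w0 (le_one_of_norm w0 w1)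
  obtain ⟨c, -, c2⟩ := h.ap (inc B) (insert (L 1) (S.image fun a => L (inc B a))) _ η0
  choose d d1 d2 d3 using fun i => hd (c i)
  set l := (1 + (n + 2) * η)⁻¹ with hl
  have l0 : 0 < l := by positivity
  have l1 : l * (1 + (n + 2) * η) = 1 := inv_mul_cancel₀ (by positivity)
  have l2 : l ≤ 1 := by nlinarith [show 0 ≤ l * ((n + 2) * η) by positivity]
  choose f f1 f2 f3 using fun i => (d i).rescale hc' η0 l0.le
    (by nlinarith [show 0 ≤ l * ((n + 1) * η) by positivity])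
  refine ⟨fun i => { f i with
    ψ := (f i).ψ ∘ₗ (inc B : B →ₗ[ℂ] B⁺¹)
    cp := (f i).cp.comp_hom (inc B) fun a => rfl
    le := fun a => ((f i).le _).trans (n1 a)
    mem := fun x => by
      obtain ⟨y, hy⟩ := f1 i x
      exact hy ▸ d1 i y }, fun _ => ?_, fun a ha => ?_⟩
  · refine le_one_of_norm (Finset.sum_nonneg fun i _ => (f i).oz.cp.one_nonneg) ?_
    change ‖∑ i, (f i).φ 1‖ ≤ 1
    have a1 := c2 _ (Finset.mem_insert_self _ _)
    rw [hL] at a1
    have a2 := norm_add_le_of_le a1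
      (norm_mul_le_of_le (norm_mul_le_of_le w1 (norm_one_le' _)) w1)
    have a3 : ‖∑ i, (d i).φ 1‖ ≤ n + 1 :=
      (norm_sum_le_of_le _ fun i _ => ((d i).φ_le 1).trans (norm_one_le' _)).trans (by simp)
    rw [sub_add_cancel] at a2
    simp only [f2, d3, ← Finset.smul_sum, Finset.sum_add_distrib]
    rw [norm_smul, Real.norm_of_nonneg l0.le, ← l1]
    refine mul_le_mul_of_nonneg_left ((norm_add_le_of_le a2 (?_ : _ ≤ η * (n + 1))).trans_eq
      (by ring)) l0.le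
    rw [norm_smul, Real.norm_of_nonneg η0.le]
    gcongr
  · change ‖∑ i, (f i).T (inc B a) - inc B a‖ ≤ ε
    have a1 := c2 _ (Finset.mem_insert_of_mem (Finset.mem_image_of_mem _ ha))
    have a2 : ‖inc B e * inc B a - inc B a‖ ≤ η := by
      rw [← map_mul, ← map_sub]
      exact (n1 _).trans (by simpa [dist_eq_norm] using (e2 a ha).le)
    have a3 : ‖inc B a‖ ≤ C :=
      (n1 a).trans (Finset.single_le_sum (f := fun a => ‖a‖) (fun _ _ => norm_nonneg _) ha)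
    rw [hL, mul_assoc, hc' (inc B a)] at a1
    simp only [f3, d3, ← Finset.smul_sum]
    generalize ∑ i, (c i).T (L (inc B a)) = X at a1
    generalize inc B a = x at a1 a2 a3
    generalize inc B e = u at a1 a2 w1
    have a4 := norm_add_le_of_le (norm_add_le_of_le a1 (norm_mul_le_of_le w1 a2)) a2
    rw [mul_sub, sub_add_sub_cancel, sub_add_sub_cancel] at a4
    have a5 : 1 - l ≤ (n + 2) * η := by nlinarith [show 0 ≤ (n + 2) * η by positivity]
    have a6 : η * (3 + (n + 2) * C) = ε := by rw [hη]; field_simp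
    rw [show l • X - x = l • (X - x) - (1 - l) • x by module]
    refine (norm_sub_le _ _).trans ?_
    rw [norm_smul, norm_smul, Real.norm_of_nonneg l0.le, Real.norm_of_nonneg (sub_nonneg.2 l2)]
    have a7 := mul_le_mul l2 a4 (norm_nonneg _) zero_le_one
    have a8 := mul_le_mul a5 a3 (norm_nonneg _) (by positivity)
    linarith

end comm

variable {I : Type*} {E : Type u} {D : Type v} [NonUnitalCStarAlgebra I] [PartialOrder I]
  [StarOrderedRing I] [NonUnitalCStarAlgebra E] [PartialOrder E] [StarOrderedRing E]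
  [NonUnitalCStarAlgebra D] [PartialOrder D] [StarOrderedRing D]
  {ι : I →⋆ₙₐ[ℂ] E} {π : E →⋆ₙₐ[ℂ] D}

theorem Ext.comm (h : Ext ι π) {n : ℕ} (hI : NucDimLE I n) (hD : NucDimLE D n)
    (hc : ∀ a b : D, a * b = b * a) : NucDimLE E n :=
  ((idl_inc E).main_max h.idl (fun x => ⟨ι x, rfl⟩) (idl_inc D) (Unitization.starMap π)
    h.ker h.lift (fun a => ⟨π a, (Unitization.starMap_inr π a).symm⟩)
    (hI.ap _) (hD.ap_comm hc)).nucDimLE (idl_inc E).inj

theorem Ext.tame_step (h : Ext ι π) {n : ℕ} (hI : NucDimLE I n) (hD : NucDimLE D n)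
    {B : Type*} [NonUnitalCStarAlgebra B] [PartialOrder B] [StarOrderedRing B] (κ : B →⋆ₙₐ[ℂ] D)
    (k1 : Function.Injective κ) (k2 : ∀ b b' q, κ b * q * κ b' ∈ Set.range κ)
    (k3 : (∀ b b' : B, b * b' = b' * b) ∨ decRank B ≤ n) :
    ∃ (P : Type u) (_ : NonUnitalCStarAlgebra P) (_ : PartialOrder P) (_ : StarOrderedRing P)
      (s : P →⋆ₙₐ[ℂ] E), Her ((inc E).comp s) ∧ NucDimLE P n ∧
        ∀ x, x ∈ Set.range s ↔ π x ∈ Set.range κ := by
  obtain ⟨P, _, _, _, ι', π', s, h1, h2, h3⟩ := h.pull κ k1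
  refine ⟨P, inferInstance, inferInstance, inferInstance, s, her_inc s h2 fun b b' q => ?_, ?_, h3⟩
  · obtain ⟨c, hc⟩ := (h3 _).1 ⟨b, rfl⟩
    obtain ⟨c', hc'⟩ := (h3 _).1 ⟨b', rfl⟩
    rw [h3, map_mul, map_mul, ← hc, ← hc']
    exact k2 _ _ _
  · rcases k3 with k3 | k3
    · exact h1.comm hI (hD.her κ k1 k2) k3
    · rcases iInf_cases (DecRankLE B) with h4 | ⟨m, hm, h4⟩
      · rw [decRank.eq_def B, h4] at k3; simp at k3
      · rw [decRank.eq_def B, h4, Nat.cast_le] at k3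
        simpa only [max_eq_left k3] using h1.max hI hm

theorem Ext.tame (h : Ext ι π) {n : ℕ} (hI : NucDimLE I n) (hD : NucDimLE D n) (hT : Tame D n) :
    NucDimLE E n := by
  classical
  let Z : Set (TwoSidedIdeal E⁺¹) := {M | IsClosed (M : Set E⁺¹) ∧ (∀ x ∈ M, ∃ e, inc E e = x) ∧
    ∀ (P : Type u) [NonUnitalCStarAlgebra P] [PartialOrder P] [StarOrderedRing P]
      (i : P →⋆ₙₐ[ℂ] E⁺¹), Idl i → (∀ x, (∃ c, i c = x) ↔ x ∈ M) → NucDimLE P n}
  have cl : IsClosed {x | ∃ e, inc E e = x} :=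
    (NonUnitalStarAlgHom.isometry _ (idl_inc E).inj).isClosedEmbedding.isClosed_range
  have k0 : ∀ x, x ∈ TwoSidedIdeal.ker (Unitization.starMap π) ↔ ∃ b, (inc E).comp ι b = x :=
    fun x => (TwoSidedIdeal.mem_ker _).trans (h.ker_iff x)
  have z0 : TwoSidedIdeal.ker (Unitization.starMap π) ∈ Z := by
    refine ⟨isClosed_singleton.preimage (hom_cont (Unitization.starMap π)), fun x hx => ?_,
      fun P _ _ _ i hi h1 => ?_⟩
    · obtain ⟨b, rfl⟩ := (k0 x).1 hx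
      exact ⟨_, rfl⟩
    · obtain ⟨g, hg⟩ := exists_lift_hom i hi.inj ((inc E).comp ι) fun b =>
        (h1 _).2 ((k0 _).2 ⟨b, rfl⟩)
      refine hI.of_surj g fun y => ?_
      obtain ⟨b, hb⟩ := (k0 _).1 ((h1 _).1 ⟨y, rfl⟩)
      exact ⟨b, hi.inj ((hg b).trans hb)⟩
  obtain ⟨M, hM, ⟨M1, M2, M3⟩, M4⟩ := zorn_le_nonempty₀ Z (fun c hc h1 y hy => by
    haveI : Nonempty c := ⟨⟨y, hy⟩⟩
    have hd : Directed (· ≤ ·) fun i : c => i.1 := directedOn_iff_directed.1 h1.directedOn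
    obtain ⟨U, U1, U2⟩ := exists_dir (fun i : c => i.1) hd
    refine ⟨U, ⟨U1, fun x hx => closure_minimal (s := {x | ∃ i : c, x ∈ i.1})
      (fun m hm => hm.elim fun i hi => (hc i.2).2.1 m hi) cl ((U2 x).1 hx),
      fun P _ _ _ j hj h2 => hj.nuc_of_dom fun S ε hε => ?_⟩,
      fun z hz a ha => (U2 a).2 (subset_closure ⟨⟨z, hz⟩, ha⟩)⟩
    choose x x1 x2 using fun a => Metric.mem_closure_iff.1 ((U2 _).1 ((h2 _).1 ⟨a, rfl⟩)) ε hε
    choose k hk using x1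
    obtain ⟨l, hl⟩ := hd.finset_le (S.image k)
    obtain ⟨P', _, _, _, i, hi, h3⟩ := exists_idl l.1 (hc l.2).1
    refine ⟨P', inferInstance, inferInstance, inferInstance, i, hi.her,
      fun b => (h2 _).2 ((U2 _).2 (subset_closure ⟨l, (h3 _).1 ⟨b, rfl⟩⟩)),
      (hc l.2).2.2 P' i hi h3, fun a ha => ⟨x a, ?_, by rw [← dist_eq_norm]; exact (x2 a).le⟩⟩
    obtain ⟨b, hb⟩ := (h3 _).2 (hl _ (Finset.mem_image_of_mem k ha) (hk a))
    exact hb ▸ Dmn.of b) _ z0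
  by_cases h0 : ∀ e, inc E e ∈ M
  · exact M3 E (inc E) (idl_inc E) fun x => ⟨by rintro ⟨e, rfl⟩; exact h0 e, M2 x⟩
  exfalso
  obtain ⟨e, he⟩ := not_forall.1 h0
  obtain ⟨q, hq⟩ := exists_pt M M1
  obtain ⟨ρ, hρ⟩ := exists_induced' π h.surj ((q.π : E⁺¹ →⋆ₙₐ[ℂ] q.Q).comp (inc E)) fun a ha =>
    (hq _).2 (hM ((k0 _).2 ((h.ex a).1 ha |>.imp fun b hb => congrArg (inc E) hb)))
  obtain ⟨K, Q, _, _, f, p, -, p1, p2, p3⟩ := exists_ext (K := TwoSidedIdeal.ker ρ)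
    (isClosed_singleton.preimage (nu_cont ρ))
  have p4 : ∀ a, p (π a) = 0 ↔ inc E a ∈ M := fun a => by
    rw [p2, p3, TwoSidedIdeal.mem_ker, hρ, ← hq]; rfl
  letI := CStarAlgebra.spectralOrder Q
  haveI := CStarAlgebra.spectralOrderedRing Q
  haveI : Nontrivial Q := nontrivial_of_ne _ _ (mt (p4 e).1 he)
  obtain ⟨B, _, _, _, _, κ, k1, k2, k3⟩ := hT Q p p1
  obtain ⟨P, _, _, _, i, hi, h1⟩ := exists_idl M M1
  obtain ⟨s, hs⟩ := exists_lift_hom (inc E) (idl_inc E).inj i fun b => M2 _ ((h1 _).1 ⟨b, rfl⟩)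
  have h2 : Ext s (p.comp π) := ⟨fun a b hab => hi.inj (by rw [← hs, ← hs, hab]), p1.comp h.surj,
    fun x => (p4 x).trans ((h1 _).symm.trans (exists_congr fun c => by
      rw [← hs, (idl_inc E).inj.eq_iff]))⟩
  obtain ⟨P', _, _, _, t, t1, t2, t3⟩ := h2.tame_step (M3 P i hi h1) (hD.of_surj p p1) κ k1 k2 k3
  obtain ⟨U, U1, U2⟩ := exists_closure {x | (∃ e, inc E e = x) ∧ Dmn ((inc E).comp t) x}
    ⟨⟨0, map_zero _⟩, by simpa using Dmn.of (i := (inc E).comp t) 0⟩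
    (fun x ⟨⟨a, ha⟩, hx⟩ y ⟨⟨b, hb⟩, hy⟩ => ⟨⟨a + b, by rw [map_add, ha, hb]⟩, hx.add hy⟩)
    fun a b x ⟨⟨c, hc⟩, hx⟩ => ⟨hc ▸ (idl_inc E).both a b c, hx.mul a b⟩
  have u1 : ∀ b, inc E (t b) ∈ U := fun b => (U2 _).2 (subset_closure ⟨⟨_, rfl⟩, Dmn.of b⟩)
  have u2 : U ∈ Z := ⟨U1, fun x hx => closure_minimal (fun m hm => hm.1) cl ((U2 x).1 hx),
    fun P _ _ _ j hj h3 => hj.nuc_of_dom fun S ε hε => ⟨P', inferInstance, inferInstance,
      inferInstance, _, t1, fun b => (h3 _).2 (u1 b), t2, fun a _ => by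
        obtain ⟨x, x1, x2⟩ := Metric.mem_closure_iff.1 ((U2 _).1 ((h3 _).1 ⟨a, rfl⟩)) ε hε
        exact ⟨x, x1.2, by rw [← dist_eq_norm]; exact x2.le⟩⟩⟩
  have u3 : M ≤ U := fun x hx => by
    obtain ⟨a, rfl⟩ := M2 x hx
    obtain ⟨b, rfl⟩ := (t3 a).2 ⟨0, (map_zero κ).trans ((p4 a).2 hx).symm⟩
    exact u1 b
  obtain ⟨b, hb⟩ := exists_ne (0 : B)
  obtain ⟨a, ha⟩ := h2.surj (κ b)
  obtain ⟨c, rfl⟩ := (t3 a).2 ⟨b, ha.symm⟩
  exact hb (k1 (ha.symm.trans (((p4 _).2 (M4 u2 u3 (u1 c))).trans (map_zero κ).symm)))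

theorem Ext.eq_of_tame (h : Ext ι π) (hT : Tame D (Max.max (nucDim I) (nucDim D))) :
    nucDim E = Max.max (nucDim I) (nucDim D) := by
  refine le_antisymm ?_ (max_le (le_iInf₂ fun n hn => iInf₂_le n (h.ideal hn))
    (le_iInf₂ fun n hn => iInf₂_le n (h.quot hn)))
  rcases iInf_cases (NucDimLE I) with h1 | ⟨n, hn, h1⟩
  · rw [nucDim.eq_def I, h1]; simp
  rcases iInf_cases (NucDimLE D) with h2 | ⟨m, hm, h2⟩
  · rw [nucDim.eq_def D, h2]; simp
  rw [nucDim.eq_def I, nucDim.eq_def D, h1, h2, ← Nat.mono_cast.map_max] at hT ⊢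
  exact iInf₂_le _ (h.tame (hn.mono' (le_max_left _ _)) (hm.mono' (le_max_right _ _)) hT)

end Pool.Agent.Lib.MP_30b5b4_an
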