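import Pool.Agent.Lib.MP_30b5b4_an.VS2

/-! Coloured comparison and coloured division. -/

open scoped CStarAlgebra ComplexOrder Topology
open Filter

set_option linter.unusedSectionVars false
set_option linter.style.haveILetI false

universe u

namespace Pool.Agent.Lib.MP_30b5b4_an

variable {A : Type u} [CStarAlgebra A] [PartialOrder A] [StarOrderedRing A] {N : ℕ} {d : Prop}

lemma delta_le (N : ℕ) {r : ℝ} (hr : r ≤ 8) : N * (r * (1 / (16 * ((N : ℝ) + 1)))) ≤ 1 / 2 := by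
  have : (0 : ℝ) ≤ N := N.cast_nonneg
  rw [mul_one_div, ← mul_div_assoc, div_le_div_iff₀ (by positivity) two_pos]
  nlinarith

/-- stable domination gives domination by a fixed number of copies -/
theorem Ap.cmp1 (hA : Ap (NonUnitalStarAlgHom.id ℂ A) N d) {ι κ : Type} [Fintype ι] [Fintype κ]
    [DecidableEq ι] {x y : UA A} (x0 : 0 ≤ x) (x1 : x ≤ 1) (y0 : 0 ≤ y) (y1 : y ≤ 1)
    (V : κ → ι → UA A) (h1 : ∀ i i', (∑ k, star (V k i) * V k i') * x = if i = i' then x else 0)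
    (h2 : ∀ k i, y * V k i * x = V k i * x) (C : ℕ) (hι : 0 < Fintype.card ι)
    (hC : 2 * Fintype.card κ ≤ Fintype.card ι * C) :
    ∃ v : Fin N × Fin C → UA A, (∀ t, ‖v t‖ ≤ 1) ∧ ∑ t, star (v t) * v t ≤ 1 ∧
      (∀ z, x * z = z → (∑ t, star (v t) * v t) * z = z) ∧ ∀ t z, z * y = 0 → z * v t = 0 := by
  obtain ⟨c, c1, c2⟩ := hA.ultra1 (fun o : Bool ⊕ κ × ι => o.elim (cond · x y) fun p => V p.1 p.2)
  have hx : ∀ i, x ∈ Vs (c i) := fun i => c1 i (.inl true)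
  have hy : ∀ i, y ∈ Vs (c i) := fun i => c1 i (.inl false)
  choose P hP using fun i => exists_alive (c i) (δ := 1 / (16 * ((N : ℝ) + 1))) (by positivity)
  choose p hp using fun i => (hP i).half (hx i) x0 x1 two_pos
  choose r hr using fun i => (hP i).half (hy i) y0 y1 one_pos
  choose w w1 w2 using fun i => ult_cmp (hp i).proj (hr i).proj C (((hP i).tr (fun _ => hy i)
    (fun k l => c1 i (.inr (k, l))) h1 h2 one_lt_two (fun _ => hp i) fun _ => hr i).mono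
    fun n hn T hT => by
      have a1 := hn T hT
      have a2 := hT.nonneg (hom_proj (Bdd.ev n) (hr i).proj).nonneg
      have a3 : (2 * Fintype.card κ : ℝ) ≤ Fintype.card ι * C := by exact_mod_cast hC
      have a4 : (0 : ℝ) < Fintype.card ι := by exact_mod_cast hι
      simp only [Finset.sum_const, Finset.card_univ, nsmul_eq_mul] at a1
      refine le_of_mul_le_mul_left (a1.trans ?_) a4
      nlinarith)
  obtain ⟨g, v, v1, v2, v4, v3⟩ := backsum c c2 P hP hx two_pos one_pos (delta_le N (by norm_num))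
    p hp w w1
  refine ⟨fun t => v t.1 t.2, fun t => v2 _ _, ?_, fun z hz => ?_, fun t z hz => ?_⟩
  · rw [Fintype.sum_prod_type]; exact v4
  · rw [Fintype.sum_prod_type]; exact v3 z hz
  · simp only
    rw [v1, ← mul_assoc, (hr _).supp (hP _) (hy _) one_pos one_pos (by rw [← mul_assoc, w2]) hz,
      zero_mul]

/-- the same for self-adjoint `x` and `y` -/
theorem Ap.cmp0 (hA : Ap (NonUnitalStarAlgHom.id ℂ A) N d) {ι κ : Type} [Fintype ι] [Fintype κ]
    [DecidableEq ι] {x y : UA A} (x0 : IsSelfAdjoint x) (y0 : IsSelfAdjoint y)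
    (V : κ → ι → UA A) (h1 : ∀ i i', (∑ k, star (V k i) * V k i') * x = if i = i' then x else 0)
    (h2 : ∀ k i, y * V k i * x = V k i * x) (C : ℕ) (hι : 0 < Fintype.card ι)
    (hC : 2 * Fintype.card κ ≤ Fintype.card ι * C) :
    ∃ v : Fin N × Fin C → UA A, (∀ t, ‖v t‖ ≤ 1) ∧ ∑ t, star (v t) * v t ≤ 1 ∧
      (∀ z, x * z = z → (∑ t, star (v t) * v t) * z = z) ∧ ∀ t z, z * y = 0 → z * v t = 0 := by
  have c0 : cl 0 = 0 := cl_of_nonpos le_rfl
  have c1 : cl 1 = 1 := cl_of_one_le le_rfl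
  have u : ∀ a : UA A, 0 ≤ cfc cl a ∧ cfc cl a ≤ 1 := fun a =>
    ⟨cfc_nonneg fun _ _ => cl_nonneg _, cfc_le_one _ _ fun _ _ => cl_le_one _⟩
  obtain ⟨v, v1, v2, v3, v4⟩ := hA.cmp1 (u x).1 (u x).2 (u y).1 (u y).2 V (fun i i' => by
    have := mul_cfc_eq_zero (y := ∑ k, star (V k i) * V k i' - if i = i' then 1 else 0) x0
      (by rw [sub_mul, h1]; split_ifs <;> simp) continuous_cl c0
    rw [sub_mul, sub_eq_zero] at this
    rw [this]; split_ifs <;> simp) (fun k i => by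
    have := mul_cfc_eq_zero (y := y * V k i - V k i) x0 (by rw [sub_mul, h2, sub_self])
      continuous_cl c0
    rw [sub_mul, sub_eq_zero, mul_assoc] at this
    rw [mul_assoc, cfc_mul_eq_self y0 this continuous_cl c1]) C hι hC
  exact ⟨v, v1, v2, fun z hz => v3 z (cfc_mul_eq_self x0 hz continuous_cl c1),
    fun t z hz => v4 t z (mul_cfc_eq_zero y0 hz continuous_cl c0)⟩

/-- coloured division under `X` that dominates the core of `x` -/
theorem Ap.ndiv (hA : Ap (NonUnitalStarAlgHom.id ℂ A) N d) (m : Fin N → ℕ) (hm : ∀ i, 0 < m i)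
    {ι : Type} [Fintype ι] (hι : ∀ i, 2 * m i ≤ Fintype.card ι) {x X : UA A} (x0 : 0 ≤ x)
    (x1 : x ≤ 1) (X0 : 0 ≤ X) (X1 : X ≤ 1) (hX : X * x = x) (y z : ι → UA A) (y0 : ∀ j, 0 ≤ y j)
    (y1 : ∀ j, y j ≤ 1) (z0 : ∀ j, star (z j) = z j) (zy : ∀ j, z j * y j = y j)
    (zz : ∀ j j', j ≠ j' → z j * z j' = 0) (Xz : ∀ j, X * z j = z j) (K : ι → ℕ)
    (V : ∀ j, Fin (K j) → UA A) (h1 : ∀ j, (∑ k, star (V j k) * V j k) * x = x)
    (h2 : ∀ j k, y j * V j k = V j k) :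
    ∃ (c : ∀ i, Fin (m i) → UA A) (γ : Fin N → UA A) (ξ : ∀ i, Fin (4 * m i) → UA A),
      (∀ i l, ‖c i l‖ ≤ 1) ∧ (∀ i t, ‖ξ i t‖ ≤ 1) ∧ (∀ i l, star (c i l) * c i l = γ i) ∧
      (∀ i l l', l ≠ l' → star (c i l) * c i l' = 0) ∧ (∀ i t, γ i * ξ i t = ξ i t) ∧
      ∑ i, ∑ t, star (ξ i t) * ξ i t ≤ 1 ∧
      (∀ u, x * u = u → (∑ i, ∑ t, star (ξ i t) * ξ i t) * u = u) ∧
      ∀ u, u * X = 0 → ∀ i l, u * c i l = 0 ∧ u * star (c i l) = 0 := by
  classical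
  obtain ⟨c, c1, c2⟩ := hA.ultra1 (fun o : (Bool ⊕ Bool × ι) ⊕ Σ j, Fin (K j) =>
    o.elim (fun o => o.elim (cond · x X) fun p => cond p.1 (y p.2) (z p.2))
      fun p : Σ j, Fin (K j) => V p.1 p.2)
  have hx : ∀ i, x ∈ Vs (c i) := fun i => c1 i (.inl (.inl true))
  have hX' : ∀ i, X ∈ Vs (c i) := fun i => c1 i (.inl (.inl false))
  have hy : ∀ i j, y j ∈ Vs (c i) := fun i j => c1 i (.inl (.inr (true, j)))
  have hz : ∀ i j, z j ∈ Vs (c i) := fun i j => c1 i (.inl (.inr (false, j)))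
  obtain ⟨δ, hδ⟩ : ∃ δ : ℝ, δ = 1 / (16 * ((N : ℝ) + 1)) := ⟨_, rfl⟩
  have δ0 : 0 < δ := by rw [hδ]; positivity
  choose P hP using fun i => exists_alive (c i) δ0
  choose p hp using fun i => (hP i).half (hx i) x0 x1 three_pos
  choose q hq using fun i => (hP i).half (hX' i) X0 X1 one_pos
  choose r hr using fun i j => (hP i).half (hy i j) (y0 j) (y1 j) two_pos
  choose g w ξ g1 w1 w2 w3 ξ1 ξ2 using fun i => ult_division (hp i).proj (hq i).proj (hm i) (hι i)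
    (r i) (fun j => (hr i j).proj) (fun j => 2 * K j) (by
      have a1 := fun j => (hP i).tr (ι := Unit) (x := fun _ => x) (V := fun k _ => V j k)
        (fun _ => hy i j) (fun k _ => c1 i (.inr ⟨j, k⟩)) (by simpa using h1 j)
        (fun k _ => by rw [h2]) (Nat.lt_succ_self 2) (fun _ => hp i) fun _ => hr i j
      have a2 := (hP i).tr (κ := Unit) (x := y) (V := fun _ j => z j) (fun _ => hX' i)
        (fun _ j => hz i j) (fun j j' => by
          split_ifs with h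
          · simp [h, z0, mul_assoc, zy]
          · simp [z0, zz j j' h]) (fun _ j => by rw [Xz]) one_lt_two (hr i) fun _ => hq i
      have a3 := (hP i).tr (ι := Unit) (κ := Unit) (x := fun _ => x) (V := fun _ _ => 1)
        (fun _ => hX' i) (fun _ _ => one_mem _) (by simp) (by simpa using hX)
        (show 1 < 3 by norm_num) (fun _ => hp i) fun _ => hq i
      filter_upwards [eventually_all.2 a1, a2, a3] with n b1 b2 b3 T hT
      exact ⟨fun j => by simpa [mul_assoc] using b1 j T hT, by simpa using b2 T hT,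
        by simpa using b3 T hT⟩)
  obtain ⟨G, v, v1, v2, v4, v3⟩ := backsum c c2 P hP hx three_pos two_pos
    (hδ ▸ delta_le N (by norm_num)) p hp ξ ξ1
  have o : ∀ i, OZ (spm (uφ (c i)) δ 1) := fun i => (uφ_oz _).spm_oz δ0
  have o1 : ∀ i, spm (uφ (c i)) δ 1 1 ≤ 1 := fun i =>
    ((uφ_oz _).spm_one δ0 one_pos).trans_le (rp_unit _ _ _).2
  refine ⟨fun i l => spm (uφ (c i)) δ 1 (w i l),
    fun i => spm (uφ (c i)) δ 1 1 * spm (uφ (c i)) δ 1 (g i), v, fun i l =>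
    ((o i).cp.norm_le (o1 i) _).trans (norm_le_one_of_star_mul ((w1 i l).trans_le (g1 i).le_one)),
    v2, fun i l => by rw [(o i).star_mul_self, w1], fun i l l' hl => ?_, fun i t => ?_, v4, v3,
    fun u hu i l => ⟨(hq i).supp (hP i) (hX' i) one_pos one_pos (w3 i l).1 hu, ?_⟩⟩
  · rw [← (o i).cp.map_star, (o i).mul_eq_zero (w2 i l l' hl)]
  · rw [v1, ← mul_assoc, mul_assoc _ _ (spm _ _ 2 _), (uφ_oz _).spm_mul δ0 one_pos, ← mul_assoc (g i),
      ξ2, spm_tier δ0 one_lt_two, (uφ_oz _).spm_one δ0 one_pos, spm_tier δ0 one_lt_two]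
  · rw [← (o i).cp.map_star]
    refine (hq i).supp (hP i) (hX' i) one_pos one_pos ?_ hu
    rw [← (hom_proj Ult.mk (hq i).proj).isSelfAdjoint.star_eq, ← star_mul, (w3 i l).2]

variable {J : Type*} [NonUnitalCStarAlgebra J] [PartialOrder J] [StarOrderedRing J]
  {j : J →⋆ₙₐ[ℂ] A}

/-- coloured division of a constant of a simple ideal without minimal projections -/
theorem Smp.ndiv (h : Smp j) (hj : Idl j) (hv : Hv j)
    (hA : Ap (NonUnitalStarAlgHom.id ℂ A) N d) (m : Fin N → ℕ) (hm : ∀ i, 0 < m i) {x g g' X : A}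
    (x0 : 0 ≤ x) (x1 : x ≤ 1) (g0 : 0 ≤ g) (hg : g * x = x) (hg' : ∃ c, j c = g') (gg : g' * g = g)
    (X0 : 0 ≤ X) (X1 : X ≤ 1) (hX : X * x = x) :
    ∃ (c : ∀ i, Fin (m i) → UA A) (γ : Fin N → UA A) (ξ : ∀ i, Fin (4 * m i) → UA A),
      (∀ i l, ‖c i l‖ ≤ 1) ∧ (∀ i t, ‖ξ i t‖ ≤ 1) ∧ (∀ i l, star (c i l) * c i l = γ i) ∧
      (∀ i l l', l ≠ l' → star (c i l) * c i l' = 0) ∧ (∀ i t, γ i * ξ i t = ξ i t) ∧
      ∑ i, ∑ t, star (ξ i t) * ξ i t ≤ 1 ∧
      (∀ u, dg x * u = u → (∑ i, ∑ t, star (ξ i t) * ξ i t) * u = u) ∧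
      ∀ u, u * dg X = 0 → ∀ i l, u * c i l = 0 ∧ u * star (c i l) = 0 := by
  rcases eq_or_ne x 0 with rfl | hx
  · exact ⟨0, 0, 0, by simp, by simp, by simp, by simp, by simp, by simp,
      fun u hu => by rw [← hu]; simp, by simp⟩
  have xm : ∃ c, j c = x := by
    obtain ⟨c, rfl⟩ := hg'
    rw [← hg, ← gg, mul_assoc]
    exact hj.right _ c
  obtain ⟨a, y, z, h1, h2⟩ := hv.triples hj (2 * ∑ i, m i) xm x0 hx
  choose K V v1 v2 using fun l => h.sub g0 hg' gg hg (h1 l).1 (h1 l).2.1 (h1 l).2.2.2.2.2.2.1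
  have one : ∀ {a : A}, a ≤ 1 → (dg a : UA A) ≤ 1 := fun h => by simpa using hom_mono dg h
  refine hA.ndiv m hm (ι := Fin (2 * ∑ i, m i)) (fun i => ?_) (hom_nonneg _ x0) (one x1)
    (hom_nonneg _ X0) (one X1) (by rw [← map_mul, hX]) (fun l => dg (y l)) (fun l => dg (z l))
    (fun l => hom_nonneg _ (h1 l).2.2.1) (fun l => one (h1 l).2.2.2.1)
    (fun l => (hom_nonneg _ (h1 l).2.2.2.2.1).star_eq)
    (fun l => by rw [← map_mul, (h1 l).2.2.2.2.2.2.2.1])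
    (fun l l' hl => by rw [← map_mul, h2 l l' hl, map_zero]) (fun l => ?_) K
    (fun l k => dg (V l k)) (fun l => ?_) fun l k => by rw [← map_mul, v2]
  · rw [Fintype.card_fin]
    exact Nat.mul_le_mul_left 2 (Finset.single_le_sum (fun _ _ => Nat.zero_le _) (Finset.mem_univ i))
  · have := (h1 l).2.2.2.2.2.2.2.2 (1 - X) (by rw [sub_mul, hX, one_mul, sub_self])
    rw [sub_mul, one_mul, sub_eq_zero] at this
    rw [← map_mul, ← this]
  · simp only [← map_star, ← map_mul, ← map_sum, v1]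

/-- the same with the tiers `rp δ m` of one element -/
theorem Smp.ndiv' (h : Smp j) (hj : Idl j) (hv : Hv j)
    (hA : Ap (NonUnitalStarAlgHom.id ℂ A) N d) {δ : ℝ} (hδ : 0 < δ) (m : Fin N → ℕ)
    (hm : ∀ i, 0 < m i) {b : A} (hb : ∃ c, j c = b) (b0 : 0 ≤ b) :
    ∃ (c : ∀ i, Fin (m i) → UA A) (γ : Fin N → UA A) (x : ∀ i, Fin (4 * m i) → UA A),
      (∀ i l, star (c i l) * c i l = γ i) ∧ (∀ i l l', l ≠ l' → star (c i l) * c i l' = 0) ∧
      (∀ i, γ i ≤ 1) ∧ (∀ i t, γ i * x i t = x i t) ∧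
      (∑ i, ∑ t, star (x i t) * x i t) * cfc (rp δ 8) (dg b) = cfc (rp δ 8) (dg b) ∧
      ∑ i, ∑ t, star (x i t) * x i t ≤ 1 ∧
      (∀ i l, cfc (rp δ 1) (dg b) * c i l = c i l ∧ c i l * cfc (rp δ 1) (dg b) = c i l) ∧
      ∀ i t, x i t * cfc (rp δ 1) (dg b) = x i t := by
  have e : ∀ k, dg (cfc (rp δ k) b) = cfc (rp δ k) (dg b : UA A) := fun k =>
    hom_cfc _ (rp_cont _ _) b0.isSelfAdjoint
  obtain ⟨c, γ, ξ, h1, -, h3, h4, h5, h6, h7, h8⟩ := h.ndiv hj hv hA m hm (rp_unit δ 6 b).1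
    (rp_unit δ 6 b).2 (rp_unit δ 5 b).1 (rp_tier (by norm_num) b) (hj.cfc_mem hb (rp_cont δ 4)
    (rp_zero hδ four_pos hδ.le)) (rp_tier (by norm_num) b) (rp_unit δ 2 b).1 (rp_unit δ 2 b).2
    (rp_tier (by norm_num) b)
  simp only [e] at h7 h8
  have s : ∀ k, star (cfc (rp δ k) (dg b : UA A)) = cfc (rp δ k) (dg b) := fun k =>
    IsSelfAdjoint.cfc.star_eq
  have a1 : ∑ i, ∑ t, star (ξ i t * cfc (rp δ 7) (dg b)) * (ξ i t * cfc (rp δ 7) (dg b)) =
      star (cfc (rp δ 7) (dg b : UA A)) * (∑ i, ∑ t, star (ξ i t) * ξ i t) * cfc (rp δ 7) (dg b) := by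
    simp only [Finset.mul_sum, Finset.sum_mul, star_mul, mul_assoc]
  have a2 := h8 (1 - cfc (rp δ 1) (dg b)) (by rw [sub_mul, rp_tier one_lt_two, one_mul, sub_self])
  simp only [sub_mul, one_mul, sub_eq_zero] at a2
  refine ⟨c, γ, fun i t => ξ i t * cfc (rp δ 7) (dg b), h3, h4, fun i => ?_,
    fun i t => by rw [← mul_assoc, h5], ?_, ?_, fun i l => ⟨(a2 i l).1.symm, ?_⟩, fun i t => ?_⟩
  · rw [← h3 i ⟨0, hm i⟩]
    exact le_one_of_norm (star_mul_self_nonneg _) (by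
      rw [CStarRing.norm_star_mul_self]; exact mul_le_one₀ (h1 _ _) (norm_nonneg _) (h1 _ _))
  · rw [a1, mul_assoc, rp_tier (by norm_num), mul_assoc, h7 _ (rp_tier (by norm_num) _), s,
      rp_tier (by norm_num)]
  · rw [a1]
    refine (star_left_conjugate_le_conjugate h6 _).trans ?_
    rw [mul_one, s]
    exact (mul_unit (rp_unit _ _ _).1 (rp_unit _ _ _).2 (rp_unit _ _ _).1 (rp_unit _ _ _).2
      (Commute.refl _)).2
  · simpa [s] using congrArg star (a2 i l).2.symm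
  · rw [mul_assoc, ← s 7, ← s 1, ← star_mul, rp_tier (by norm_num)]

end Pool.Agent.Lib.MP_30b5b4_an
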