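import Pool.Agent.Lib.MP_30b5b4_an.Z6

/-! Transfer of closed conditions through a diagonal choice. -/

open scoped CStarAlgebra ComplexOrder Topology
open Filter

set_option linter.unusedSectionVars false
set_option linter.style.haveILetI false
set_option linter.unusedSimpArgs false
set_option linter.unusedVariables false
set_option synthInstance.maxSize 1000000

namespace Pool.Agent.Lib.MP_30b5b4_an

universe u v v' v''

/-- a type of data that can be read off a double sequence, along a row or along a diagonal -/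
class Env (Γ : Type v) where
  Fam : Type v
  row : ℕ → Fam → Γ
  dia : (ℕ → ℕ) → (ℕ → ℕ) → Fam → Γ
  Bd : Γ → Prop
  glue : ∀ x : ℕ → Γ, (∀ m, Bd (x m)) → ∃ f, (∀ m, row m f = x m) ∧ ∀ μ ν, Bd (dia μ ν f)
  ne : ∃ x, Bd x
  cst : ∀ x, ∃ f, (∀ m, row m f = x) ∧ ∀ μ, dia μ id f = x

open Env

variable {A : Type u} [CStarAlgebra A] [PartialOrder A] [StarOrderedRing A]

lemma Ult.lift_le {G : ℕ → Type v} [∀ k, CStarAlgebra (G k)] (x : Ult G) {r : ℝ} (hr : ‖x‖ ≤ r) :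
    ∃ y, (∀ k, ‖Bdd.ev k y‖ ≤ r) ∧ Ult.mk y = x := by
  obtain ⟨y, rfl⟩ := Ult.surj x
  have r0 : 0 ≤ r := (norm_nonneg _).trans hr
  let t : ℕ → ℝ := fun k => if ‖Bdd.ev k y‖ ≤ r then 1 else r / ‖Bdd.ev k y‖
  have h1 : ∀ k, ‖(t k : ℂ) • Bdd.ev k y‖ ≤ r ∧
      ‖(t k : ℂ) • Bdd.ev k y - Bdd.ev k y‖ ≤ max (‖Bdd.ev k y‖ - r) 0 := fun k => by
    simp only [t]
    split_ifs with h
    · simpa using h
    · have h2 : 0 < ‖Bdd.ev k y‖ := r0.trans_lt (not_le.1 h)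
      have h3 : r / ‖Bdd.ev k y‖ ≤ 1 := (div_le_one h2).2 (not_le.1 h).le
      refine ⟨?_, le_max_of_le_left ?_⟩
      · rw [norm_smul, Complex.norm_real, Real.norm_of_nonneg (by positivity),
          div_mul_cancel₀ _ h2.ne']
      · conv_lhs => enter [1, 2]; rw [← one_smul ℂ (Bdd.ev k y)]
        rw [← sub_smul, ← Complex.ofReal_one, ← Complex.ofReal_sub, norm_smul, Complex.norm_real,
          Real.norm_of_nonpos (sub_nonpos.2 h3), neg_sub, sub_mul, div_mul_cancel₀ _ h2.ne', one_mul]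
  refine ⟨Bdd.of (fun k => (t k : ℂ) • Bdd.ev k y) r fun k => (h1 k).1, fun k => (h1 k).1, ?_⟩
  rw [← sub_eq_zero, ← map_sub]
  refine Ult.mk_eq_zero_of_le (f := fun k => max (‖Bdd.ev k y‖ - r) 0) ?_ fun k => by
    simpa using (h1 k).2
  have := ((Ult.tendsto_norm y).sub_const r).max (tendsto_const_nhds (x := (0 : ℝ)))
  rwa [max_eq_right (sub_nonpos.2 hr)] at this

abbrev BB (A : Type u) [CStarAlgebra A] := Bdd fun _ : ℕ => BA A

noncomputable def rowH (m : ℕ) : BB A →⋆ₐ[ℂ] UA A := Ult.mk.comp (Bdd.ev m)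

noncomputable def dia0 (μ ν : ℕ → ℕ) : BB A →⋆ₐ[ℂ] BA A where
  toFun c := Bdd.of (fun k => Bdd.ev (ν k) (Bdd.ev (μ k) c)) ‖c‖ fun k =>
    (Bdd.norm_ev_le _ _).trans (Bdd.norm_ev_le _ _)
  map_one' := Bdd.ext fun k => by simp
  map_mul' _ _ := Bdd.ext fun k => by simp
  map_zero' := Bdd.ext fun k => by simp
  map_add' _ _ := Bdd.ext fun k => by simp
  commutes' c := Bdd.ext fun k => by simp [AlgHomClass.commutes]
  map_star' _ := Bdd.ext fun k => by simp [map_star]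

@[simp] lemma ev_dia0 (μ ν : ℕ → ℕ) (c : BB A) (k : ℕ) :
    Bdd.ev k (dia0 μ ν c) = Bdd.ev (ν k) (Bdd.ev (μ k) c) := rfl

noncomputable def diaH (μ ν : ℕ → ℕ) : BB A →⋆ₐ[ℂ] UA A := Ult.mk.comp (dia0 μ ν)

lemma rowH_apply (m : ℕ) (c : BB A) : rowH m c = Ult.mk (Bdd.ev m c) := rfl
lemma diaH_apply (μ ν : ℕ → ℕ) (c : BB A) : diaH μ ν c = Ult.mk (dia0 μ ν c) := rfl

noncomputable instance envU : Env (UA A) where
  Fam := BB A
  row m c := rowH m c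
  dia μ ν c := diaH μ ν c
  Bd x := ‖x‖ ≤ 1
  glue x hx := by
    choose y y1 y2 using fun m => Ult.lift_le (x m) (hx m)
    exact ⟨Bdd.of y 1 fun m => Bdd.norm_le (y1 m), y2, fun μ ν =>
      Ult.norm_le_of_eventually (Eventually.of_forall fun k => y1 _ _)⟩
  ne := ⟨0, by simp⟩
  cst x := by
    obtain ⟨y, rfl⟩ := Ult.surj x
    exact ⟨cst y, fun _ => rfl, fun μ => congrArg Ult.mk (Bdd.ext fun _ => rfl)⟩

noncomputable instance envC : Env (ℕ → CA A) where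
  Fam := ℕ → ℕ → CA A
  row m c := c m
  dia μ ν c k := c (μ k) (ν k)
  Bd _ := True
  glue x _ := ⟨x, fun _ => rfl, fun _ _ => trivial⟩
  ne := ⟨fun _ => Colour.zero _, trivial⟩
  cst x := ⟨fun _ => x, fun _ => rfl, fun _ => rfl⟩

instance envUnit : Env PUnit.{v + 1} where
  Fam := PUnit
  row _ _ := ⟨⟩
  dia _ _ _ := ⟨⟩
  Bd _ := True
  glue _ _ := ⟨⟨⟩, fun _ => rfl, fun _ _ => trivial⟩
  ne := ⟨⟨⟩, trivial⟩
  cst _ := ⟨⟨⟩, fun _ => rfl, fun _ => rfl⟩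

variable {Γ : Type v} {Γ' : Type v'} {Γ'' : Type v''} [Env Γ] [Env Γ'] [Env Γ'']

instance envP : Env (Γ × Γ') where
  Fam := Fam Γ × Fam Γ'
  row m f := (row m f.1, row m f.2)
  dia μ ν f := (dia μ ν f.1, dia μ ν f.2)
  Bd x := Bd x.1 ∧ Bd x.2
  glue x hx := by
    obtain ⟨f, f1, f2⟩ := glue (fun m => (x m).1) fun m => (hx m).1
    obtain ⟨g, g1, g2⟩ := glue (fun m => (x m).2) fun m => (hx m).2
    exact ⟨(f, g), fun m => Prod.ext (f1 m) (g1 m), fun μ ν => ⟨f2 μ ν, g2 μ ν⟩⟩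
  ne := by
    obtain ⟨x, hx⟩ := ne (Γ := Γ)
    obtain ⟨y, hy⟩ := ne (Γ := Γ')
    exact ⟨(x, y), hx, hy⟩
  cst x := by
    obtain ⟨f, f1, f2⟩ := Env.cst x.1
    obtain ⟨g, g1, g2⟩ := Env.cst x.2
    exact ⟨(f, g), fun m => Prod.ext (f1 m) (g1 m), fun μ => Prod.ext (f2 μ) (g2 μ)⟩

instance envPi {ι : Type v'} : Env (ι → Γ) where
  Fam := ι → Fam Γ
  row m f i := row m (f i)
  dia μ ν f i := dia μ ν (f i)
  Bd x := ∀ i, Bd (x i)
  glue x hx := by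
    choose f f1 f2 using fun i => glue (fun m => x m i) fun m => hx m i
    exact ⟨f, fun m => funext fun i => f1 i m, fun μ ν i => f2 i μ ν⟩
  ne := by
    obtain ⟨x, hx⟩ := ne (Γ := Γ)
    exact ⟨fun _ => x, fun _ => hx⟩
  cst x := by
    choose f f1 f2 using fun i => Env.cst (x i)
    exact ⟨f, fun m => funext fun i => f1 i m, fun μ => funext fun i => f2 i μ⟩

/-- maps between data that come from a map of double sequences -/
class Nt (t : Γ → Γ') : Prop where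
  ex : ∀ f : Fam Γ, ∃ c : Fam Γ', (∀ m, t (row m f) = row m c) ∧ ∀ μ ν, t (dia μ ν f) = dia μ ν c

/-- conditions that pass from most rows to a suitable diagonal -/
class Clo (P : Γ → Prop) : Prop where
  ex : ∀ f : Fam Γ, ∃ U : ℕ → Set ℕ, (∀ m, P (row m f) → U m ∈ (om : Filter ℕ)) ∧
    ∀ μ ν, Tendsto μ om atTop → (∀ᶠ k in (om : Filter ℕ), ν k ∈ U (μ k)) → P (dia μ ν f)

/-- `x` is the limit of the constants `xs k` -/
def Stage (xs : ℕ → Γ) (x : Γ) : Prop :=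
  ∃ f : Fam Γ, (∀ m, row m f = xs m) ∧ ∀ ν, dia id ν f = x

theorem transfer (P : Γ → Prop) [h : Clo P] {xs : ℕ → Γ} {x : Γ} (hx : Stage xs x)
    (hP : ∀ᶠ k in (om : Filter ℕ), P (xs k)) : P x := by
  obtain ⟨f, f1, f2⟩ := hx
  obtain ⟨U, U1, U2⟩ := h.ex f
  have : ∀ m, ∃ n, P (xs m) → n ∈ U m := fun m => by
    by_cases hm : P (xs m)
    · exact (Filter.nonempty_of_mem (U1 m (f1 m ▸ hm))).imp fun n hn _ => hn
    · exact ⟨0, fun h => (hm h).elim⟩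
  choose ν hν using this
  rw [← f2 ν]
  exact U2 id ν om_le (hP.mono hν)

lemma Stage.mk (s : BA A) : Stage (fun k => dg (Bdd.ev k s)) (Ult.mk s) :=
  ⟨Bdd.of (fun m => cst (Bdd.ev m s)) ‖s‖ fun m => (hom_norm_le _ _).trans (Bdd.norm_ev_le _ _),
    fun _ => rfl, fun _ => congrArg Ult.mk (Bdd.ext fun _ => rfl)⟩

lemma Stage.col (c : ℕ → CA A) : Stage (fun k _ => c k) c :=
  ⟨(fun m _ => c m : ℕ → ℕ → CA A), fun _ => rfl, fun _ => rfl⟩

lemma Stage.prod {xs : ℕ → Γ} {x : Γ} {ys : ℕ → Γ'} {y : Γ'} (h : Stage xs x) (h' : Stage ys y) :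
    Stage (fun k => (xs k, ys k)) (x, y) := by
  obtain ⟨f, f1, f2⟩ := h
  obtain ⟨g, g1, g2⟩ := h'
  exact ⟨(f, g), fun m => Prod.ext (f1 m) (g1 m), fun ν => Prod.ext (f2 ν) (g2 ν)⟩

lemma Stage.pi {ι : Type v'} {xs : ι → ℕ → Γ} {x : ι → Γ} (h : ∀ i, Stage (xs i) (x i)) :
    Stage (fun k i => xs i k) x := by
  choose f f1 f2 using h
  exact ⟨f, fun m => funext fun i => f1 i m, fun ν => funext fun i => f2 i ν⟩

lemma Stage.unit : Stage (fun _ => (⟨⟩ : PUnit.{v + 1})) ⟨⟩ := ⟨⟨⟩, fun _ => rfl, fun _ => rfl⟩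

/-- countable saturation: the first variable is the tolerance -/
theorem saturate (P : UA A × Γ → Prop) [h : Clo P] (x : Γ)
    (hP : ∀ ε : ℝ, 0 < ε → ε ≤ 1 → P (ε • 1, x)) : P (0, x) := by
  classical
  obtain ⟨f, f1, f2⟩ := Env.cst x
  have b0 : ∀ m : ℕ, (0 : ℝ) < 1 / ((m : ℝ) + 1) := fun m => by positivity
  have b1 : ∀ m : ℕ, 1 / ((m : ℝ) + 1) ≤ 1 := fun m =>
    (div_le_one (by positivity)).2 (by linarith [(Nat.cast_nonneg m : (0 : ℝ) ≤ m)])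
  have b2 : ∀ (m : ℕ) (B : Type u) [CStarAlgebra B],
      ‖(1 / ((m : ℝ) + 1)) • (1 : B)‖ ≤ 1 / ((m : ℝ) + 1) := fun m B _ => by
    rw [norm_smul, Real.norm_of_nonneg (b0 m).le]
    exact mul_le_of_le_one_right (b0 m).le (norm_one_le' _)
  let E : BB A := Bdd.of (fun m => (1 / ((m : ℝ) + 1)) • 1) 1 fun m => (b2 m _).trans (b1 m)
  have E1 : ∀ m, rowH m E = (1 / ((m : ℝ) + 1)) • 1 := fun m => by
    rw [rowH_apply, Bdd.ev_of, hom_real_smul, map_one]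
  have P1 : ∀ m, P (row m ((E, f) : Fam (UA A × Γ))) := fun m => by
    have := hP _ (b0 m) (b1 m)
    rw [← E1, ← f1 m] at this
    exact this
  obtain ⟨U, U1, U2⟩ := h.ex (E, f)
  let μ : ℕ → ℕ := fun k => Nat.findGreatest (fun m => ∀ l ≤ m, k ∈ U l) k
  have V : ∀ m, ∀ᶠ k in (om : Filter ℕ), m ≤ k ∧ ∀ l ≤ m, k ∈ U l := fun m =>
    ((eventually_ge_atTop m).filter_mono om_le).and
      ((Set.finite_le_nat m).eventually_all.2 fun l _ => U1 l (P1 l))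
  have m1 : Tendsto μ om atTop := tendsto_atTop.2 fun m => (V m).mono fun k hk =>
    Nat.le_findGreatest hk.1 hk.2
  have m2 := U2 μ id m1 ((V 0).mono fun k hk =>
    Nat.findGreatest_spec (P := fun m => ∀ l ≤ m, k ∈ U l) hk.1 hk.2 _ le_rfl)
  have E2 : diaH μ id E = 0 := Ult.mk_eq_zero_of_le
    (tendsto_one_div_add_atTop_nhds_zero_nat.comp m1) fun k => by
      change ‖Bdd.ev k ((1 / ((μ k : ℝ) + 1)) • (1 : BA A))‖ ≤ _
      rw [hom_real_smul, map_one]; exact b2 _ _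
  rw [← E2, ← f2 μ]
  exact m2

namespace Nt

instance id' : Nt fun g : Γ => g := ⟨fun f => ⟨f, fun _ => rfl, fun _ _ => rfl⟩⟩

instance fst (t : Γ → Γ' × Γ'') [h : Nt t] : Nt fun g => (t g).1 := ⟨fun f => by
  obtain ⟨c, c1, c2⟩ := h.ex f
  exact ⟨c.1, fun m => congrArg Prod.fst (c1 m), fun μ ν => congrArg Prod.fst (c2 μ ν)⟩⟩

instance snd (t : Γ → Γ' × Γ'') [h : Nt t] : Nt fun g => (t g).2 := ⟨fun f => by
  obtain ⟨c, c1, c2⟩ := h.ex f
  exact ⟨c.2, fun m => congrArg Prod.snd (c1 m), fun μ ν => congrArg Prod.snd (c2 μ ν)⟩⟩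

instance (priority := low) app {ι : Type v''} (t : Γ → ι → Γ') [h : Nt t] (i : ι) :
    Nt fun g => t g i := ⟨fun f => by
  obtain ⟨c, c1, c2⟩ := h.ex f
  exact ⟨c i, fun m => congrFun (c1 m) i, fun μ ν => congrFun (c2 μ ν) i⟩⟩

lemma pair (t : Γ → Γ') (t' : Γ → Γ'') [h : Nt t] [h' : Nt t'] : Nt fun g => (t g, t' g) :=
  ⟨fun f => by
    obtain ⟨c, c1, c2⟩ := h.ex f
    obtain ⟨d, d1, d2⟩ := h'.ex f
    exact ⟨(c, d), fun m => Prod.ext (c1 m) (d1 m), fun μ ν => Prod.ext (c2 μ ν) (d2 μ ν)⟩⟩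

lemma pi {ι : Type v''} (t : Γ → ι → Γ') (h : ∀ i, Nt fun g => t g i) : Nt t := ⟨fun f => by
  choose c c1 c2 using fun i => (h i).ex f
  exact ⟨c, fun m => funext fun i => c1 i m, fun μ ν => funext fun i => c2 i μ ν⟩⟩

lemma comp (s : Γ' → Γ'') (t : Γ → Γ') [h : Nt s] [h' : Nt t] : Nt fun g => s (t g) := ⟨fun f => by
  obtain ⟨c, c1, c2⟩ := h'.ex f
  obtain ⟨d, d1, d2⟩ := h.ex c
  exact ⟨d, fun m => by rw [c1, d1], fun μ ν => by rw [c2, d2]⟩⟩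

lemma of_eq {t t' : Γ → Γ'} (h : ∀ g, t g = t' g) [h' : Nt t'] : Nt t := by
  rwa [funext h]

lemma exU {t : Γ → UA A} (h : Nt t) (f : Fam Γ) : ∃ c : BB A, (∀ m, t (row m f) = rowH m c) ∧
    ∀ μ ν, t (dia μ ν f) = diaH μ ν c := h.ex f

lemma exC {t : Γ → ℕ → CA A} (h : Nt t) (f : Fam Γ) : ∃ c : ℕ → ℕ → CA A,
    (∀ m, t (row m f) = c m) ∧ ∀ μ ν, t (dia μ ν f) = fun k => c (μ k) (ν k) := h.ex f

lemma const {y : UA A} (c : BB A) (h : ∀ π : BB A →⋆ₐ[ℂ] UA A, π c = y) : Nt fun _ : Γ => y :=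
  ⟨fun _ => ⟨c, fun _ => (h _).symm, fun _ _ => (h _).symm⟩⟩

lemma un (o : UA A → UA A) (o' : BB A → BB A) (ho : ∀ (π : BB A →⋆ₐ[ℂ] UA A) c, π (o' c) = o (π c))
    (t : Γ → UA A) [h : Nt t] : Nt fun g => o (t g) := ⟨fun f => by
  obtain ⟨c, c1, c2⟩ := h.ex f
  exact ⟨o' c, fun m => (congrArg o (c1 m)).trans (ho _ _).symm,
    fun μ ν => (congrArg o (c2 μ ν)).trans (ho _ _).symm⟩⟩

lemma bin (o : UA A → UA A → UA A) (o' : BB A → BB A → BB A)
    (ho : ∀ (π : BB A →⋆ₐ[ℂ] UA A) c d, π (o' c d) = o (π c) (π d)) (t t' : Γ → UA A) [h : Nt t]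
    [h' : Nt t'] : Nt fun g => o (t g) (t' g) := ⟨fun f => by
  obtain ⟨c, c1, c2⟩ := h.ex f
  obtain ⟨d, d1, d2⟩ := h'.ex f
  exact ⟨o' c d, fun m => (congrArg₂ o (c1 m) (d1 m)).trans (ho _ _ _).symm,
    fun μ ν => (congrArg₂ o (c2 μ ν) (d2 μ ν)).trans (ho _ _ _).symm⟩⟩

instance zero : Nt fun _ : Γ => (0 : UA A) := const 0 fun π => map_zero π
instance one : Nt fun _ : Γ => (1 : UA A) := const 1 fun π => map_one π
instance cast (n : ℕ) : Nt fun _ : Γ => (n : UA A) := const n fun π => map_natCast π n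
instance ofNat (n : ℕ) [n.AtLeastTwo] : Nt fun _ : Γ => (OfNat.ofNat n : UA A) :=
  const (OfNat.ofNat n) fun π => map_ofNat π n
instance algR (r : ℝ) : Nt fun _ : Γ => algebraMap ℝ (UA A) r := const _ fun π => hom_alg π r
instance algC (r : ℂ) : Nt fun _ : Γ => algebraMap ℂ (UA A) r :=
  const _ fun π => AlgHomClass.commutes π r
instance dg' (a : A) : Nt fun _ : Γ => (dg a : UA A) :=
  ⟨fun _ => ⟨cst (cst a), fun _ => rfl, fun _ _ => congrArg Ult.mk (Bdd.ext fun _ => rfl)⟩⟩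

variable (t t' : Γ → UA A) [h : Nt t] [h' : Nt t']

instance mul : Nt fun g => t g * t' g := bin (· * ·) (· * ·) (fun π => map_mul π) t t'
instance add : Nt fun g => t g + t' g := bin (· + ·) (· + ·) (fun π => map_add π) t t'
instance sub : Nt fun g => t g - t' g := bin (· - ·) (· - ·) (fun π => map_sub π) t t'
instance neg : Nt fun g => -t g := un (-·) (-·) (fun π => map_neg π) t
instance star' : Nt fun g => star (t g) := un star star (fun π => map_star π) t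
instance smulC (r : ℂ) : Nt fun g => r • t g := un (r • ·) (r • ·) (fun π => map_smul π r) t
instance smulR (r : ℝ) : Nt fun g => r • t g := un (r • ·) (r • ·) (fun π => hom_real_smul π r) t
instance smulN (r : ℕ) : Nt fun g => r • t g := un (r • ·) (r • ·) (fun π => map_nsmul π r) t
instance pow (n : ℕ) : Nt fun g => t g ^ n := un (· ^ n) (· ^ n) (fun π c => map_pow π c n) t
instance gr' (m : ℕ) : Nt fun g => gr m (t g) := un (gr m) (gr m) (fun π c => by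
  rw [gr, gr, hom_cfc π (by fun_prop) (mul_star_self_nonneg c).isSelfAdjoint, map_mul, map_star]) t

instance ite' (p : Prop) [Decidable p] (s s' : Γ → Γ') [h : Nt s] [h' : Nt s'] :
    Nt fun g => if p then s g else s' g := by
  split_ifs <;> assumption

instance cond' (b : Bool) (s s' : Γ → Γ') [h : Nt s] [h' : Nt s'] :
    Nt fun g => cond b (s g) (s' g) := by
  cases b <;> assumption

instance elim {ι : Type v''} (o : Option ι) (s : Γ → Γ') (s' : Γ → ι → Γ') [h : Nt s]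
    [h' : ∀ i, Nt fun g => s' g i] : Nt fun g => o.elim (s g) (s' g) := by
  cases o
  exacts [h, h' _]

instance sum {ι : Type v''} (s : Finset ι) (u : Γ → ι → UA A) [h : ∀ i, Nt fun g => u g i] :
    Nt fun g => ∑ i ∈ s, u g i := ⟨fun f => by
  choose c c1 c2 using fun i => (h i).exU f
  exact ⟨(∑ i ∈ s, c i : BB A), fun m => (Finset.sum_congr rfl fun i _ => c1 i m).trans
    (map_sum (rowH m) c s).symm, fun μ ν => (Finset.sum_congr rfl fun i _ => c2 i μ ν).trans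
    (map_sum (diaH μ ν) c s).symm⟩⟩

instance uT' (d : Γ → ℕ → CA A) [hd : Nt d] : Nt fun g => uT (d g) (t g) := ⟨fun f => by
  obtain ⟨c, c1, c2⟩ := h.exU f
  obtain ⟨e, e1, e2⟩ := hd.exC f
  refine ⟨Bdd.of (fun m => bT (e m) (Bdd.ev m c)) ‖c‖ fun m => Bdd.norm_le fun n => ?_,
    fun m => ?_, fun μ ν => ?_⟩
  · exact ((e m n).T_le _).trans ((Bdd.norm_ev_le _ _).trans (Bdd.norm_ev_le _ _))
  · rw [c1, e1]; exact uT_mk _ _
  · rw [c2, e2]; exact (uT_mk _ _).trans (congrArg Ult.mk (Bdd.ext fun _ => rfl))⟩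

instance uφ' (d : Γ → ℕ → CA A) [hd : Nt d] : Nt fun g => uφ (d g) 1 := ⟨fun f => by
  obtain ⟨e, e1, e2⟩ := hd.ex f
  refine ⟨Bdd.of (fun m => bl (e m)) 1 fun m => Bdd.norm_le fun n =>
    ((e m n).φ_le _).trans (norm_one_le' _), fun m => ?_, fun μ ν => ?_⟩
  · rw [e1]; exact uφ_one_eq _
  · rw [e2]; exact (uφ_one_eq _).trans (congrArg Ult.mk (Bdd.ext fun _ => rfl))⟩

end Nt

/-- functional calculus of the real part -/
noncomputable def cf {B : Type*} [CStarAlgebra B] (f : ℝ → ℝ) (x : B) : B :=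
  cfc f ((2⁻¹ : ℂ) • (x + star x))

lemma cf_eq {B : Type*} [CStarAlgebra B] (f : ℝ → ℝ) {x : B} (hx : IsSelfAdjoint x) :
    cf f x = cfc f x := by
  rw [cf, hx.star_eq, ← two_smul ℂ, smul_smul]; simp

lemma Nt.cf' {f : ℝ → ℝ} (hf : Continuous f) (t : Γ → UA A) [h : Nt t] : Nt fun g => cf f (t g) :=
  Nt.un (cf f) (cf f) (fun π c => by
    rw [cf, cf, hom_cfc π hf (by simp [IsSelfAdjoint, add_comm]), map_smul, map_add, map_star]) t

instance Nt.cf'' {f : ℝ → ℝ} [hf : Fact (Continuous f)] (t : Γ → UA A) [h : Nt t] :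
    Nt fun g => cf f (t g) := Nt.cf' hf.out t

namespace Clo

lemma of_iff {P Q : Γ → Prop} (h : ∀ g, P g ↔ Q g) [h' : Clo Q] : Clo P := by
  rwa [funext fun g => propext (h g)]

lemma comp (P : Γ' → Prop) (t : Γ → Γ') [h : Clo P] [h' : Nt t] : Clo fun g => P (t g) :=
  ⟨fun f => by
    obtain ⟨c, c1, c2⟩ := h'.ex f
    obtain ⟨U, U1, U2⟩ := h.ex c
    exact ⟨U, fun m hm => U1 m (c1 m ▸ hm), fun μ ν hμ hν => (c2 μ ν).symm ▸ U2 μ ν hμ hν⟩⟩

instance (priority := low) const (p : Prop) : Clo fun _ : Γ => p := ⟨fun _ =>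
  ⟨fun _ => {_n | p}, fun _ hp => univ_mem' fun _ => hp, fun _ _ _ h => h.exists.choose_spec⟩⟩

instance and (P Q : Γ → Prop) [h : Clo P] [h' : Clo Q] : Clo fun g => P g ∧ Q g := ⟨fun f => by
  obtain ⟨U, U1, U2⟩ := h.ex f
  obtain ⟨V, V1, V2⟩ := h'.ex f
  exact ⟨fun m => U m ∩ V m, fun m hm => inter_mem (U1 m hm.1) (V1 m hm.2), fun μ ν hμ hν =>
    ⟨U2 μ ν hμ (hν.mono fun k hk => hk.1), V2 μ ν hμ (hν.mono fun k hk => hk.2)⟩⟩⟩

instance all {ι : Sort v'} [Finite ι] (P : Γ → ι → Prop) [h : ∀ i, Clo fun g => P g i] :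
    Clo fun g => ∀ i, P g i := ⟨fun f => by
  choose U U1 U2 using fun i => (h i).ex f
  exact ⟨fun m => ⋂ i, U i m, fun m hm => iInter_mem.2 fun i => U1 i m (hm i),
    fun μ ν hμ hν i => U2 i μ ν hμ (hν.mono fun k hk => Set.mem_iInter.1 hk i)⟩⟩

lemma ex' (P : Γ → Γ' → Prop) [h : Clo fun p : Γ × Γ' => P p.1 p.2] :
    Clo fun g => ∃ x, Bd x ∧ P g x := ⟨fun f => by
  have : ∀ m, ∃ x, Bd x ∧ ((∃ x, Bd x ∧ P (row m f) x) → P (row m f) x) := fun m => by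
    by_cases hm : ∃ x, Bd x ∧ P (row m f) x
    · exact hm.imp fun x hx => ⟨hx.1, fun _ => hx.2⟩
    · exact (ne (Γ := Γ')).imp fun x hx => ⟨hx, fun h => (hm h).elim⟩
  choose x x1 x2 using this
  obtain ⟨c, c1, c2⟩ := glue x x1
  obtain ⟨U, U1, U2⟩ := h.ex (f, c)
  exact ⟨U, fun m hm => U1 m (show P (row m f) (row m c) from (c1 m).symm ▸ x2 m hm),
    fun μ ν hμ hν => ⟨_, c2 μ ν, U2 μ ν hμ hν⟩⟩⟩

instance ex0 (P : Γ → UA A → Prop) [h : Clo fun p : Γ × UA A => P p.1 p.2] :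
    Clo fun g => ∃ x, ‖x‖ ≤ 1 ∧ P g x := ex' P

instance ex1 {ι : Type v'} (P : Γ → (ι → UA A) → Prop)
    [h : Clo fun p : Γ × (ι → UA A) => P p.1 p.2] :
    Clo fun g => ∃ x, (∀ i, ‖x i‖ ≤ 1) ∧ P g x := ex' P

instance ex2 {ι : Type v'} {κ : Type v''} (P : Γ → (ι → κ → UA A) → Prop)
    [h : Clo fun p : Γ × (ι → κ → UA A) => P p.1 p.2] :
    Clo fun g => ∃ x, (∀ i k, ‖x i k‖ ≤ 1) ∧ P g x := ex' P

instance exC (P : Γ → (ℕ → CA A) → Prop) [h : Clo fun p : Γ × (ℕ → CA A) => P p.1 p.2] :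
    Clo fun g => ∃ d, P g d :=
  @of_iff _ _ _ (fun g => ∃ d, Bd d ∧ P g d) (fun _ => exists_congr fun _ =>
    ⟨fun h => ⟨trivial, h⟩, fun h => h.2⟩) (ex' P)

instance exC1 {ι : Type v'} (P : Γ → (ι → ℕ → CA A) → Prop)
    [h : Clo fun p : Γ × (ι → ℕ → CA A) => P p.1 p.2] : Clo fun g => ∃ d, P g d :=
  @of_iff _ _ _ (fun g => ∃ d, Bd d ∧ P g d) (fun _ => exists_congr fun _ =>
    ⟨fun h => ⟨fun _ => trivial, h⟩, fun h => h.2⟩) (ex' P)

lemma inv_mu {μ : ℕ → ℕ} (hμ : Tendsto μ om atTop) (r : ℝ) :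
    Tendsto (fun k => r + 1 / ((μ k : ℝ) + 1)) om (𝓝 r) := by
  simpa using (tendsto_one_div_add_atTop_nhds_zero_nat.comp hμ).const_add r

variable (t t' : Γ → UA A) [h : Nt t] [h' : Nt t']

instance norm_le (r : ℝ) : Clo fun g => ‖t g‖ ≤ r := ⟨fun f => by
  obtain ⟨c, c1, c2⟩ := h.ex f
  refine ⟨fun m => {n | ‖Bdd.ev n (Bdd.ev m c)‖ < r + 1 / ((m : ℝ) + 1)}, fun m hm => ?_,
    fun μ ν hμ hν => ?_⟩
  · rw [c1] at hm
    exact Ult.eventually_lt (hm.trans_lt (lt_add_of_pos_right _ (by positivity)))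
  · rw [c2]
    exact le_of_tendsto_of_tendsto (Ult.tendsto_norm _) (inv_mu hμ r) (hν.mono fun k hk => hk.le)⟩

instance le_norm (r : ℝ) : Clo fun g => r ≤ ‖t g‖ := ⟨fun f => by
  obtain ⟨c, c1, c2⟩ := h.ex f
  refine ⟨fun m => {n | r < ‖Bdd.ev n (Bdd.ev m c)‖ + 1 / ((m : ℝ) + 1)}, fun m hm => ?_,
    fun μ ν hμ hν => ?_⟩
  · rw [c1] at hm
    exact ((Ult.tendsto_norm (Bdd.ev m c)).add_const _).eventually
      (lt_mem_nhds (hm.trans_lt (lt_add_of_pos_right _ (by positivity))))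
  · rw [c2]
    have := (Ult.tendsto_norm (dia0 μ ν c)).add (inv_mu hμ 0)
    rw [add_zero] at this
    exact ge_of_tendsto this (hν.mono fun k hk => by
      rw [zero_add]; exact le_of_lt hk)⟩

instance eq : Clo fun g => t g = t' g :=
  of_iff (Q := fun g => ‖t g - t' g‖ ≤ 0) fun g => by rw [norm_le_zero_iff, sub_eq_zero]

instance commute : Clo fun g => Commute (t g) (t' g) :=
  of_iff (Q := fun g => t g * t' g = t' g * t g) fun g => Iff.rfl

instance sa : Clo fun g => IsSelfAdjoint (t g) :=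
  of_iff (Q := fun g => star (t g) = t g) fun g => Iff.rfl

instance le : Clo fun g => t g ≤ t' g := by
  haveI : Fact (Continuous fun s : ℝ => max s 0) := ⟨by fun_prop⟩
  refine of_iff (Q := fun g => t' g - t g = cf (fun s => max s 0) (t' g - t g)) fun g => ?_
  rw [← sub_nonneg]
  refine ⟨fun h => ?_, fun h => h ▸ cfc_nonneg fun _ _ => le_max_right _ _⟩
  rw [cf_eq _ h.isSelfAdjoint]
  conv_lhs => rw [← cfc_id' ℝ (t' g - t g)]
  exact cfc_congr fun s hs => (max_eq_left (spectrum_nonneg_of_nonneg h hs)).symm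

instance unitary' : Clo fun g => t g ∈ unitary (UA A) :=
  of_iff (Q := fun g => star (t g) * t g = 1 ∧ t g * star (t g) = 1) fun g => Iff.rfl

instance proj : Clo fun g => IsStarProjection (t g) :=
  of_iff (Q := fun g => t g * t g = t g ∧ star (t g) = t g) fun g =>
    ⟨fun h => ⟨h.1, h.2⟩, fun h => ⟨h.1, h.2⟩⟩

instance vis (d : Γ → ℕ → CA A) [hd : Nt d] : Clo fun g => Vis (d g) (t g) := by
  unfold Vis; infer_instance

instance cn {ι : Type v'} [Finite ι] (s : Γ → ι → UA A) [hs : ∀ i, Nt fun g => s g i] :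
    Clo fun g => t g ∈ Cn (Set.range (s g)) :=
  of_iff (Q := fun g => ∀ i, Commute (s g i) (t g) ∧ Commute (star (s g i)) (t g)) fun g => by
    rw [mem_Cn, Set.forall_mem_range]

instance slot {I : Type v'} [Fintype I] (c : Γ → I → UA A) (x : Γ → Option I → UA A)
    [hc : ∀ i, Nt fun g => c g i] [hx : ∀ i, Nt fun g => x g i] :
    Clo fun g => Slot (t g) (c g) (x g) (t' g) :=
  of_iff (Q := fun g => (∀ l, star (c g l) * c g l = t' g) ∧
    (∀ l l', l ≠ l' → star (c g l) * c g l' = 0) ∧ (∀ s, t' g * x g s = x g s) ∧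
    (∑ s, star (x g s) * x g s) * t g = t g ∧
    ∀ l, x g (some l) * (c g l * star (c g l)) = x g (some l)) fun g =>
    ⟨fun h => ⟨h.1, h.2, h.3, h.4, h.5⟩, fun h => ⟨h.1, h.2.1, h.2.2.1, h.2.2.2.1, h.2.2.2.2⟩⟩

instance all_φ (d : Γ → ℕ → CA A) [hd : Nt d] : Clo fun g => ∀ y, Commute (t g) (uφ (d g) y) :=
  ⟨fun f => by
    classical
    obtain ⟨c, c1, c2⟩ := h.exU f
    obtain ⟨e, e1, e2⟩ := hd.exC f
    let R : ∀ m n, (e m n).F → Prop := fun m n y =>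
      ‖Bdd.ev n (Bdd.ev m c) * (e m n).φ y - (e m n).φ y * Bdd.ev n (Bdd.ev m c)‖ ≤
        1 / ((m : ℝ) + 1) * ‖y‖
    refine ⟨fun m => {n | ∀ y, R m n y}, fun m hm => ?_, fun μ ν hμ hν => ?_⟩
    · rw [c1, e1] at hm
      have a1 : ∀ n, ∃ y : (e m n).F, ‖y‖ ≤ 1 ∧ (R m n y → ‖y‖ = 1 → ∀ z, R m n z) ∧
          ((∀ z, R m n z) ∨ ‖y‖ = 1) := fun n => by
        by_cases hz : ∀ z, R m n z
        · exact ⟨0, by simp, fun _ _ => hz, Or.inl hz⟩
        · obtain ⟨z, hz⟩ := not_forall.1 hz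
          have z0 : ‖z‖ ≠ 0 := fun h0 => hz (by simp [R, norm_eq_zero.1 h0])
          have z1 : ‖((‖z‖⁻¹ : ℝ) : ℂ) • z‖ = 1 := by
            rw [norm_smul, Complex.norm_real, norm_inv, norm_norm, inv_mul_cancel₀ z0]
          refine ⟨((‖z‖⁻¹ : ℝ) : ℂ) • z, z1.le, fun h1 _ => (hz ?_).elim, Or.inr z1⟩
          simp only [R, z1, map_smul, mul_smul_comm, smul_mul_assoc, ← smul_sub, norm_smul,
            Complex.norm_real, norm_inv, norm_norm, inv_mul_cancel₀ z0] at h1 ⊢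
          rwa [inv_mul_le_iff₀ ((norm_nonneg z).lt_of_ne' z0), mul_one, mul_comm ‖z‖] at h1
      choose y y1 y2 y3 using a1
      have a2 := (hm (Ult.mk (Bdd.of y 1 y1))).eq
      rw [(uφ_spec _).2.2, rowH_apply, ← map_mul, ← map_mul, ← sub_eq_zero, ← map_sub] at a2
      refine (Ult.eventually_lt (a2 ▸ norm_zero.trans_lt
        (show (0 : ℝ) < 1 / ((m : ℝ) + 1) by positivity))).mono fun n hn => ?_
      refine (y3 n).elim id fun h1 => y2 n ?_ h1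
      simp only [R, h1, mul_one]
      simpa using hn.le
    · rw [c2, e2]
      intro y
      obtain ⟨y, rfl⟩ := Ult.surj y
      change _ * _ = _ * _
      rw [(uφ_spec _).2.2, diaH_apply, ← map_mul, ← map_mul, ← sub_eq_zero, ← map_sub]
      refine Ult.mk_eq_zero (squeeze_zero' (Eventually.of_forall fun _ => norm_nonneg _)
        (hν.mono fun k hk => ?_) (by simpa using (inv_mu hμ 0).mul_const ‖y‖))
      refine (hk (Bdd.ev k y)).trans ?_
      rw [one_div]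
      exact mul_le_mul_of_nonneg_left (Bdd.norm_ev_le k y) (by positivity)⟩

end Clo

section ideal
variable {J : Type*} [NonUnitalCStarAlgebra J] [PartialOrder J] [StarOrderedRing J]

/-- the image of the sequences with values in the ideal -/
noncomputable def Iw (j : J →⋆ₙₐ[ℂ] A) : NonUnitalStarSubalgebra ℂ (UA A) :=
  (Lf j).map (Ult.mk : BA A →⋆ₐ[ℂ] UA A)

variable {j : J →⋆ₙₐ[ℂ] A}

lemma mem_Iw {x : UA A} : x ∈ Iw j ↔ ∃ w ∈ Lf j, Ult.mk w = x := Iff.rfl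

lemma dg_mem_Iw (b : J) : dg (j b) ∈ Iw j := ⟨cst (j b), fun _ => ⟨b, rfl⟩, rfl⟩

lemma Idl.Iw_both (h : Idl j) (a a' : UA A) {x : UA A} (hx : x ∈ Iw j) : a * x * a' ∈ Iw j := by
  obtain ⟨w, w1, rfl⟩ := mem_Iw.1 hx
  obtain ⟨a, rfl⟩ := Ult.surj a
  obtain ⟨a', rfl⟩ := Ult.surj a'
  exact mem_Iw.2 ⟨_, h.Lf_both a a' w1, by rw [map_mul, map_mul]⟩

lemma Idl.Iw_left (h : Idl j) (a : UA A) {x : UA A} (hx : x ∈ Iw j) : a * x ∈ Iw j := by
  simpa using h.Iw_both a 1 hx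

lemma Idl.Iw_right (h : Idl j) (a : UA A) {x : UA A} (hx : x ∈ Iw j) : x * a ∈ Iw j := by
  simpa using h.Iw_both 1 a hx

lemma mem_Iw_of {w : BA A} {f : ℕ → ℝ} (hf : Tendsto f om (𝓝 0))
    (h : ∀ᶠ k in (om : Filter ℕ), ∃ b, ‖Bdd.ev k w - j b‖ ≤ f k) : Ult.mk w ∈ Iw j := by
  have : ∀ k, ∃ b, ‖j b‖ ≤ ‖w‖ + 1 ∧ ((∃ b, ‖Bdd.ev k w - j b‖ ≤ f k) ∧ f k ≤ 1 →
      ‖Bdd.ev k w - j b‖ ≤ f k) := fun k => by
    by_cases hk : (∃ b, ‖Bdd.ev k w - j b‖ ≤ f k) ∧ f k ≤ 1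
    · obtain ⟨⟨b, hb⟩, h1⟩ := hk
      refine ⟨b, ?_, fun _ => hb⟩
      linarith [norm_sub_norm_le (j b) (Bdd.ev k w), norm_sub_rev (j b) (Bdd.ev k w),
        Bdd.norm_ev_le k w]
    · exact ⟨0, by rw [map_zero, norm_zero]; positivity, fun h => (hk h).elim⟩
  choose b b1 b2 using this
  refine ⟨Bdd.of (fun k => j (b k)) _ b1, fun k => ⟨b k, rfl⟩, Eq.symm ?_⟩
  change Ult.mk w = Ult.mk _
  rw [← sub_eq_zero, ← map_sub]
  exact Ult.mk_eq_zero (squeeze_zero' (Eventually.of_forall fun _ => norm_nonneg _)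
    ((h.and (hf.eventually (ge_mem_nhds one_pos))).mono fun k hk => by simpa using b2 k hk) hf)

instance Clo.iw (t : Γ → UA A) [h : Nt t] : Clo fun g => t g ∈ Iw j := ⟨fun f => by
  obtain ⟨c, c1, c2⟩ := h.exU f
  refine ⟨fun m => {n | ∃ b, ‖Bdd.ev n (Bdd.ev m c) - j b‖ ≤ 0 + 1 / ((m : ℝ) + 1)},
    fun m hm => ?_, fun μ ν hμ hν => ?_⟩
  · obtain ⟨w, w1, w2⟩ := mem_Iw.1 hm
    rw [c1, rowH_apply, eq_comm, ← sub_eq_zero, ← map_sub] at w2
    refine (Ult.eventually_lt (w2 ▸ norm_zero.trans_lt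
      (show (0 : ℝ) < 0 + 1 / ((m : ℝ) + 1) by positivity))).mono fun n hn => ?_
    obtain ⟨b, hb⟩ := w1 n
    exact ⟨b, by rw [hb, ← map_sub]; exact hn.le⟩
  · rw [c2]
    exact mem_Iw_of (Clo.inv_mu hμ 0) hν⟩

/-- quasicentral units for finitely many sequences -/
theorem Idl.tier (h : Idl j) {ι κ : Type*} [Finite ι] [Finite κ] (s : ι → UA A) (b : κ → UA A)
    (hb : ∀ k, b k ∈ Iw j) : ∃ t, ‖t‖ ≤ 1 ∧ t ∈ Iw j ∧ 0 ≤ t ∧ t ∈ Cn (Set.range s) ∧
      ∀ k, t * b k = b k := by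
  haveI := Fintype.ofFinite ι
  haveI := Fintype.ofFinite κ
  choose s' hs using fun i => Ult.surj (s i)
  choose b' b1 b2 using fun k => mem_Iw.1 (hb k)
  have := transfer (fun g : (ι → UA A) × (κ → UA A) => ∃ t, ‖t‖ ≤ 1 ∧ t ∈ Iw j ∧ 0 ≤ t ∧
      t ∈ Cn (Set.range g.1) ∧ ∀ k, t * g.2 k = g.2 k)
    ((Stage.pi fun i => Stage.mk (s' i)).prod (Stage.pi fun k => Stage.mk (b' k)))
    (Eventually.of_forall fun n => by
      choose c hc using fun k => b1 k n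
      obtain ⟨t, t1, t2, t3, t4, t5⟩ := h.exists_qc (κ := ι × Bool)
        (fun p => cond p.2 (Bdd.ev n (s' p.1)) (star (Bdd.ev n (s' p.1)))) c
      have t0 := hom_nonneg Ult.mk t2
      refine ⟨Ult.mk t, norm_le_one_of t0 (by simpa using hom_mono Ult.mk t3), ⟨t, t1, rfl⟩, t0,
        mem_Cn.2 ?_, fun k => by simpa only [hc] using t5 k⟩
      rintro _ ⟨i, rfl⟩
      exact ⟨(t4 (i, true)).symm, by simpa only [cond, map_star] using (t4 (i, false)).symm⟩)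
  simpa only [hs, b2] using this

end ideal

lemma URep.exact {ι : Type*} [Finite ι] {s : ι → UA A} {g : UA A} (h : URep (Set.range s) g) :
    ∃ d : ℕ → CA A, ∀ i, uT d (s i) = g * s i := by
  have := saturate (fun p : UA A × UA A × (ι → UA A) => ∃ d : ℕ → CA A, ∀ i,
    star (uT d (p.2.2 i) - p.2.1 * p.2.2 i) * (uT d (p.2.2 i) - p.2.1 * p.2.2 i) ≤ p.1)
    (g, s) fun ε h0 h1 => by
      obtain ⟨d, -, -, hd⟩ := h ε h0
      refine ⟨d, fun i => CStarAlgebra.star_mul_le_algebraMap_norm_sq.trans ?_⟩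
      rw [Algebra.algebraMap_eq_smul_one]
      refine smul_le_smul_of_nonneg_right ?_ zero_le_one
      nlinarith [hd _ ⟨i, rfl⟩, norm_nonneg (uT d (s i) - g * s i)]
  exact this.imp fun d hd i => sub_eq_zero.1 (eq_zero_of_star_mul_self_nonpos (hd i))

lemma uT_const (c : CA A) (a : A) : uT (fun _ => c) (dg a) = dg (c.T a) :=
  (uT_mk _ _).trans (congrArg Ult.mk (Bdd.ext fun _ => rfl))

lemma uφ_const (c : CA A) (y : c.F) : uφ (fun _ => c) (dg y) = dg (c.φ y) :=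
  ((uφ_spec _).2.2 _).trans (congrArg Ult.mk (Bdd.ext fun _ => rfl))

lemma uφ_const_one (c : CA A) : uφ (fun _ => c) 1 = dg (c.φ 1) := by
  rw [← uφ_const, map_one dg]

lemma dg_surj {F : Type*} [CStarAlgebra F] [FiniteDimensional ℂ F] (y : Ult fun _ : ℕ => F) :
    ∃ x, dg x = y := by
  obtain ⟨y, rfl⟩ := Ult.surj y
  haveI : ProperSpace F := FiniteDimensional.proper ℂ F
  obtain ⟨x, -, hx⟩ := (isCompact_closedBall (0 : F) ‖y‖).ultrafilter_le_nhds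
    (om.map fun k => Bdd.ev k y) (by
      rw [Ultrafilter.coe_map, le_principal_iff, mem_map]
      exact univ_mem' fun k => mem_closedBall_zero_iff.2 (Bdd.norm_ev_le k y))
  refine ⟨x, Eq.symm ?_⟩
  rw [dg_apply, ← sub_eq_zero, ← map_sub]
  exact Ult.mk_eq_zero (by simpa using tendsto_iff_norm_sub_tendsto_zero.1 hx)

lemma commute_uφ_const (c : CA A) {z : UA A} (h : ∀ y, Commute z (dg (c.φ y))) (y) :
    Commute z (uφ (fun _ => c) y) := by
  obtain ⟨x, rfl⟩ := dg_surj y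
  rw [uφ_const]; exact h x

lemma uconj (d : ℕ → CA A) {W : UA A} (hW : star W * W = 1) :
    ∃ d' : ℕ → CA A, ∀ x, uT d' x = W * uT d x * star W := by
  obtain ⟨w, rfl⟩ := Ult.surj W
  obtain ⟨d', -, -, h⟩ := upush d w (u := fun _ => 1) (H := fun _ => 1) (by fun_prop) (by fun_prop)
    (by simp) (by simp) (by simp) (by rw [hW, sub_self, mul_zero, zero_mul])
  refine ⟨d', fun x => ?_⟩
  rw [h, cfc_const_one ℝ _ (uφ_oz d).cp.one_nonneg.isSelfAdjoint, one_mul, mul_one]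

lemma unit_lift {G : ℕ → Type v} [∀ k, CStarAlgebra (G k)] {x : Ult G} (x0 : 0 ≤ x) (x1 : x ≤ 1) :
    ∃ y, 0 ≤ y ∧ y ≤ 1 ∧ Ult.mk y = x := by
  obtain ⟨y, y0, rfl⟩ := Ult.sa_lift x0.isSelfAdjoint
  refine ⟨cfc cl y, cfc_nonneg fun _ _ => cl_nonneg _, cfc_le_one _ _ fun _ _ => cl_le_one _, ?_⟩
  rw [hom_cfc _ (by fun_prop) y0]
  conv_rhs => rw [← cfc_id' ℝ (Ult.mk y)]
  refine cfc_congr fun t ht => ?_
  simp only [cl, min_eq_right (spec_mem x0 x1 ht).2, max_eq_right (spec_mem x0 x1 ht).1]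

lemma Idl.unit_lift {J : Type*} [NonUnitalCStarAlgebra J] [PartialOrder J] [StarOrderedRing J]
    {j : J →⋆ₙₐ[ℂ] A} (h : Idl j) {x : UA A} (hx : x ∈ Iw j) (x0 : 0 ≤ x) (x1 : x ≤ 1) :
    ∃ y ∈ Lf j, 0 ≤ y ∧ y ≤ 1 ∧ Ult.mk y = x := by
  obtain ⟨y, y1, rfl⟩ := mem_Iw.1 hx
  refine ⟨cf cl y, cfc_mem_sub h.isClosed_Lf (by fun_prop) (cl_of_nonpos le_rfl)
    (SMulMemClass.smul_mem _ (add_mem y1 (star_mem y1))), cfc_nonneg fun _ _ => cl_nonneg _,
    cfc_le_one _ _ fun _ _ => cl_le_one _, ?_⟩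
  rw [cf, hom_cfc _ (by fun_prop) (by simp [IsSelfAdjoint, add_comm]), map_smul, map_add, map_star,
    ← cf, cf_eq _ x0.isSelfAdjoint]
  conv_rhs => rw [← cfc_id' ℝ (Ult.mk y) x0.isSelfAdjoint]
  refine cfc_congr fun t ht => ?_
  simp only [cl, min_eq_right (spec_mem x0 x1 ht).2, max_eq_right (spec_mem x0 x1 ht).1]

lemma sT_eq (d : ℕ → CA A) (a : A) : sT d a = uT d (dg a) :=
  ((uT_mk d (cst a)).trans (congrArg Ult.mk (Bdd.ext fun _ => rfl))).symm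

end Pool.Agent.Lib.MP_30b5b4_an
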