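import Pool.Agent.Lib.MP_30b5b4_an.Z6
import Pool.Agent.Lib.MP_30b5b4_an.FD

/-! Simple ideals: fullness, and the alternative between real rank zero and splitting. -/

open scoped CStarAlgebra ComplexOrder Topology

set_option linter.unusedSectionVars false
set_option linter.style.haveILetI false

universe u

namespace Pool.Agent.Lib.MP_30b5b4_an

section
variable {A : Type u} [CStarAlgebra A] [PartialOrder A] [StarOrderedRing A]

lemma polarF {g H : A} (g0 : 0 ≤ g) (H0 : 0 ≤ H) {R : ℝ} (hR : 0 < R)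
    (h : g * g ≤ R • (g * H * g)) : ∃ ζ, star ζ * H * ζ = g * g := by
  obtain ⟨η, hη⟩ : ∃ η : ℝ, η = 1 / (2 * R) := ⟨_, rfl⟩
  have η0 : 0 < η := by rw [hη]; positivity
  have gc := Gf_cont η0
  have Hs := H0.isSelfAdjoint
  let k := cfc (fun t : ℝ => √(R * max (t - η) 0)) H
  have k0 : star k = k := IsSelfAdjoint.cfc.star_eq
  have k1 : R • H ≤ k * k + (1 / 2 : ℝ) • 1 := by
    rw [cfc_mul' (by fun_prop) (by fun_prop), ← cfc_const_one ℝ H, ← cfc_const_mul _ _ H,
      ← cfc_add H _ _, ← cfc_const_mul_id R H]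
    refine cfc_mono fun t _ => ?_
    rw [Real.mul_self_sqrt (by positivity)]
    have h1 : R * η = 1 / 2 := by rw [hη]; field_simp
    nlinarith [le_max_left (t - η) 0]
  obtain ⟨Z, z1, z2, -⟩ := polar (X := k * g) g0 (by
    have h1 := star_left_conjugate_le_conjugate k1 g
    rw [g0.star_eq, mul_smul_comm, smul_mul_assoc, mul_add, add_mul, mul_smul_comm, mul_one,
      smul_mul_assoc] at h1
    have h2 := sub_nonneg.2 (h.trans h1)
    rw [star_mul, k0, g0.star_eq, ← sub_nonneg]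
    convert smul_nonneg (zero_le_two (α := ℝ)) h2 using 1
    simp only [mul_assoc]
    module)
  let u := cfc (fun t : ℝ => 1 - t * Gf η t) H
  have u0 : star u = u := IsSelfAdjoint.cfc.star_eq
  have u1 : u * k = 0 := by
    rw [cfc_mul' (by fun_prop) (by fun_prop), ← cfc_zero ℝ H]
    refine cfc_congr fun t ht => ?_
    rcases le_total t η with h1 | h1
    · simp [max_eq_right (sub_nonpos.2 h1)]
    · simp [Gf, max_eq_left h1, (η0.trans_le h1).ne']
  have u2 : u * Z = 0 := by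
    have h1 := star_right_conjugate_le_conjugate z2 u
    rw [mul_smul_comm, ← mul_assoc u (k * g), ← mul_assoc u k, u1, zero_mul, zero_mul, smul_zero,
      zero_mul] at h1
    rw [← star_star (u * Z), eq_zero_of_star_mul_self_nonpos (y := star (u * Z)) (by
      rwa [star_star, star_mul, mul_assoc, ← mul_assoc Z, ← mul_assoc]), star_zero]
  refine ⟨cfc (fun t => √(Gf η t)) H * Z, ?_⟩
  have u3 : cfc (fun t => √(Gf η t)) H * H * cfc (fun t => √(Gf η t)) H = 1 - u := by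
    rw [cfc_mul_id (by fun_prop) Hs, cfc_mul' (by fun_prop) (by fun_prop), ← cfc_const_one ℝ H,
      ← cfc_sub _ _ H]
    refine cfc_congr fun t _ => ?_
    rw [mul_right_comm, Real.mul_self_sqrt (Gf_nonneg η0)]
    ring
  rw [star_mul, IsSelfAdjoint.cfc.star_eq, mul_assoc, mul_assoc, ← mul_assoc H, ← mul_assoc _ (H * _),
    ← mul_assoc _ H, u3, sub_mul, u2, one_mul, sub_zero, z1]

lemma cross_le (x y : A) : star x * y + star y * x ≤ star x * x + star y * y := by
  rw [← sub_nonneg]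
  convert star_mul_self_nonneg (x - y) using 1
  rw [star_sub]; noncomm_ring

lemma exists_smul_eq {e a : A} {s t : ℝ} (h1 : s • e ≤ a) (h2 : a ≤ t • e)
    (h : ∀ r : ℝ, r • e ≤ a ∨ a ≤ r • e) : ∃ r : ℝ, a = r • e := by
  obtain ⟨r, -, r1, r2⟩ := isPreconnected_closed_iff.1 (isPreconnected_univ (α := ℝ))
    {r | r • e ≤ a} {r | a ≤ r • e} (isClosed_le (by fun_prop) continuous_const)
    (isClosed_le continuous_const (by fun_prop)) (fun r _ => h r) ⟨s, trivial, h1⟩ ⟨t, trivial, h2⟩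
  exact ⟨r, le_antisymm r2 r1⟩

lemma integral_spectrum_finite {x : A} (hi : IsIntegral ℂ x) : (spectrum ℝ x).Finite := by
  rw [← spectrum.preimage_algebraMap ℂ]
  refine Set.Finite.preimage (FaithfulSMul.algebraMap_injective ℝ ℂ).injOn ?_
  rcases subsingleton_or_nontrivial A with h | h
  · simp [spectrum.of_subsingleton]
  refine ((minpoly ℂ x).roots.finite_toSet).subset fun μ hμ => ?_
  have h1 := spectrum.subset_polynomial_aeval x (minpoly ℂ x) ⟨μ, hμ, rfl⟩
  rw [minpoly.aeval, spectrum.zero_eq] at h1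
  simpa [minpoly.ne_zero hi] using h1

lemma integral_of_minimal {p : A} (hp : ∀ x, ∃ c : ℂ, p * x * p = c • p) {ι : Type*} [Fintype ι]
    (a b : ι → A) : IsIntegral ℂ (∑ t, a t * p * b t) := by
  let W := Submodule.span ℂ (insert 1 (Set.range fun q : ι × ι => a q.1 * p * b q.2))
  have hW : ∀ q : ι × ι, a q.1 * p * b q.2 ∈ W := fun q => Submodule.subset_span (Or.inr ⟨q, rfl⟩)
  have h1 : (1 : A) ∈ W := Submodule.subset_span (Or.inl rfl)
  refine IsIntegral.of_mem_of_fg (W.toSubalgebra h1 fun x y hx hy => ?_)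
    (Submodule.fg_span ((Set.finite_range _).insert _)) _ (sum_mem fun t _ => hW (t, t))
  induction hx, hy using Submodule.span_induction₂ with
  | mem_mem x y hx hy =>
    rcases hx with rfl | ⟨q, rfl⟩
    · rw [one_mul]; exact Submodule.subset_span hy
    rcases hy with rfl | ⟨q', rfl⟩
    · rw [mul_one]; exact hW q
    obtain ⟨c, hc⟩ := hp (b q.2 * a q'.1)
    have : a q.1 * p * b q.2 * (a q'.1 * p * b q'.2) = c • (a q.1 * p * b q'.2) := by
      rw [← smul_mul_assoc, ← mul_smul_comm, ← hc]; simp only [mul_assoc]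
    exact this ▸ W.smul_mem c (hW (q.1, q'.2))
  | zero_left => simp
  | zero_right => simp
  | add_left x y z _ _ _ h1 h2 => rw [add_mul]; exact add_mem h1 h2
  | add_right x y z _ _ _ h1 h2 => rw [mul_add]; exact add_mem h1 h2
  | smul_left r x y _ _ h => rw [smul_mul_assoc]; exact W.smul_mem r h
  | smul_right r x y _ _ h => rw [mul_smul_comm]; exact W.smul_mem r h

end

variable {J : Type*} {A : Type u} [NonUnitalCStarAlgebra J] [PartialOrder J] [StarOrderedRing J]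
  [CStarAlgebra A] [PartialOrder A] [StarOrderedRing A] {j : J →⋆ₙₐ[ℂ] A}

/-- every nonzero element of the ideal generates it -/
def Smp (j : J →⋆ₙₐ[ℂ] A) : Prop :=
  ∀ y : J, y ≠ 0 → ∀ (x : J) (ε : ℝ), 0 < ε →
    ∃ (K : ℕ) (a b : Fin K → A), ‖j x - ∑ t, a t * j y * b t‖ ≤ ε

/-- every nonzero positive element of the ideal has two orthogonal elements under it -/
def Hv (j : J →⋆ₙₐ[ℂ] A) : Prop :=
  ∀ b : A, (∃ c, j c = b) → 0 ≤ b → b ≠ 0 → ∃ x y : A, (∃ c, j c = x) ∧ (∃ c, j c = y) ∧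
    0 ≤ x ∧ 0 ≤ y ∧ x ≠ 0 ∧ y ≠ 0 ∧ x * y = 0 ∧ ∀ z, z * b = 0 → z * x = 0 ∧ z * y = 0

lemma smp_of_simple (h : ∀ K : TwoSidedIdeal J, IsClosed (K : Set J) → K = ⊥ ∨ K = ⊤)
    (j : J →⋆ₙₐ[ℂ] A) : Smp j := by
  intro y hy
  let K : TwoSidedIdeal J := TwoSidedIdeal.mk'
    {x | ∀ ε : ℝ, 0 < ε → ∃ (K : ℕ) (a b : Fin K → A), ‖j x - ∑ t, a t * j y * b t‖ ≤ ε}
    (fun ε hε => ⟨0, 0, 0, by simpa using hε.le⟩)
    (fun {x x'} hx hx' ε hε => by
      obtain ⟨K, a, b, h1⟩ := hx (ε / 2) (half_pos hε)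
      obtain ⟨K', a', b', h2⟩ := hx' (ε / 2) (half_pos hε)
      refine ⟨K + K', Fin.append a a', Fin.append b b', ?_⟩
      simp only [Fin.sum_univ_add, Fin.append_left, Fin.append_right, map_add]
      rw [add_sub_add_comm]
      exact (norm_add_le_of_le h1 h2).trans (add_halves ε).le)
    (fun {x} hx ε hε => by
      obtain ⟨K, a, b, h1⟩ := hx ε hε
      refine ⟨K, -a, b, ?_⟩
      simp only [map_neg, Pi.neg_apply, neg_mul, Finset.sum_neg_distrib]
      rwa [← neg_sub', norm_neg])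
    (fun {x x'} hx ε hε => by
      obtain ⟨K, a, b, h1⟩ := hx (ε / (‖j x‖ + 1)) (by positivity)
      refine ⟨K, fun t => j x * a t, b, ?_⟩
      simp only [map_mul, mul_assoc, ← Finset.mul_sum, ← mul_sub] at h1 ⊢
      refine (norm_mul_le_of_le (le_add_of_nonneg_right zero_le_one) h1).trans (le_of_eq ?_)
      field_simp)
    (fun {x x'} hx ε hε => by
      obtain ⟨K, a, b, h1⟩ := hx (ε / (‖j x'‖ + 1)) (by positivity)
      refine ⟨K, a, fun t => b t * j x', ?_⟩
      simp only [map_mul, ← mul_assoc, ← Finset.sum_mul, ← sub_mul] at h1 ⊢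
      refine (norm_mul_le_of_le h1 (le_add_of_nonneg_right zero_le_one)).trans (le_of_eq ?_)
      field_simp)
  have hK : ∀ x, x ∈ K ↔ ∀ ε : ℝ, 0 < ε →
      ∃ (K : ℕ) (a b : Fin K → A), ‖j x - ∑ t, a t * j y * b t‖ ≤ ε := fun x =>
    TwoSidedIdeal.mem_mk' ..
  rcases h K (isClosed_of_closure_subset fun x hx => (hK x).2 fun ε hε => by
    obtain ⟨x', h1, h2⟩ := Metric.mem_closure_iff.1 hx (ε / 2) (half_pos hε)
    obtain ⟨K, a, b, h3⟩ := (hK x').1 h1 (ε / 2) (half_pos hε)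
    refine ⟨K, a, b, ?_⟩
    rw [← sub_add_sub_cancel _ (j x'), ← map_sub]
    rw [dist_eq_norm] at h2
    exact (norm_add_le_of_le ((NonUnitalStarAlgHom.norm_apply_le j _).trans h2.le) h3).trans
      (add_halves ε).le) with h1 | h1
  · exact (hy ((TwoSidedIdeal.mem_bot _).1 (h1 ▸ (hK y).2 fun ε hε =>
      ⟨1, 1, 1, by simpa using hε.le⟩))).elim
  · exact fun x => (hK x).1 (h1 ▸ TwoSidedIdeal.mem_top _)

/-- finitely many copies of the left support of `z` dominate `g` -/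
theorem Smp.dom (h : Smp j) {g g' z : A} (g0 : 0 ≤ g) (hg' : ∃ c, j c = g') (hg : g' * g = g)
    (hz : ∃ c, j c = z) (z0 : z ≠ 0) :
    ∃ (K : ℕ) (r : Fin K → A), ∑ t, star (z * r t) * (z * r t) = g * g := by
  obtain ⟨x, rfl⟩ := hg'
  obtain ⟨y, rfl⟩ := hz
  obtain ⟨K, a, b, h1⟩ := h (star y * y) (fun h0 => z0 (by
    rw [(CStarRing.star_mul_self_eq_zero_iff _).1 h0, map_zero])) x (1 / 2) one_half_pos
  rw [map_mul, map_star] at h1
  generalize j x = x at *
  generalize j y = y at *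
  let r : Fin (K + K) → A := Fin.append (fun t => star (a t)) b
  obtain ⟨ζ, hζ⟩ := polarF (H := ∑ t, star (y * r t) * (y * r t)) g0
    (Finset.sum_nonneg fun t _ => star_mul_self_nonneg _) one_pos (by
      set s := ∑ t, a t * (star y * y) * b t with hs
      have e1 : s + star s ≤ ∑ t, star (y * r t) * (y * r t) := by
        simp only [hs, r, star_sum, Fin.sum_univ_add, Fin.append_left, Fin.append_right,
          ← Finset.sum_add_distrib]
        refine Finset.sum_le_sum fun t _ => ?_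
        convert cross_le (y * star (a t)) (y * b t) using 2 <;> simp [mul_assoc]
      have e2 : x - s + star (x - s) ≤ (1 : ℝ) • 1 := sa_le_of_norm (IsSelfAdjoint.add_star_self _)
        ((norm_add_le_of_le h1 ((norm_star _).trans_le h1)).trans (add_halves 1).le)
      have e3 := star_left_conjugate_le_conjugate (add_le_add e1 e2) g
      have e4 : g * star x = g := by simpa [g0.star_eq] using congrArg star hg
      rw [g0.star_eq, show s + star s + (x - s + star (x - s)) = x + star x by rw [star_sub]; abel,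
        mul_add, add_mul, mul_assoc g x, hg, e4, mul_add, add_mul, one_smul, mul_one] at e3
      rw [one_smul]
      exact le_of_add_le_add_right e3)
  refine ⟨K + K, fun t => r t * ζ, ?_⟩
  rw [← hζ, Finset.mul_sum, Finset.sum_mul]
  simp only [star_mul, mul_assoc]

/-- `x < g < g'` in the ideal, `0 ≠ z < y`: the support of `x` embeds in copies of the core of `y` -/
theorem Smp.sub (h : Smp j) {x g g' z y : A} (g0 : 0 ≤ g) (hg' : ∃ c, j c = g') (hg : g' * g = g)
    (hx : g * x = x) (hz : ∃ c, j c = z) (z0 : z ≠ 0) (hy : y * z = z) :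
    ∃ (K : ℕ) (V : Fin K → A), (∑ t, star (V t) * V t) * x = x ∧ ∀ t, y * V t = V t := by
  obtain ⟨K, r, hr⟩ := h.dom g0 hg' hg hz z0
  exact ⟨K, fun t => z * r t, by rw [hr, mul_assoc, hx, hx], fun t => by rw [← mul_assoc, hy]⟩

lemma exists_minimal_of_not_hv (hj : Idl j) (h : ¬ Hv j) :
    ∃ p : A, (∃ c, j c = p) ∧ p ≠ 0 ∧ star p = p ∧ ∀ x, ∃ c : ℂ, p * x * p = c • p := by
  simp only [Hv, not_forall] at h
  obtain ⟨b, hb, b0, b1, h⟩ := h
  have cl := hj.isClosed_range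
  have tot : ∀ c, (∃ d, j d = c) → IsSelfAdjoint c → (∀ z, z * b = 0 → z * c = 0) →
      0 ≤ c ∨ c ≤ 0 := fun c hc cs hz => by
    by_contra h0
    obtain ⟨h1, h2⟩ := not_or.1 h0
    have mem : ∀ f : ℝ → ℝ, Continuous f → f 0 = 0 → ∃ d, j d = cfc f c := fun f hf f0 =>
      cfc_mem_sub (S := NonUnitalStarAlgHom.range j) cl hf f0 hc
    have e : cfc (fun t : ℝ => max t 0) c - cfc (fun t : ℝ => max (-t) 0) c = c := by
      rw [← cfc_sub _ _ c]
      simp only [max_zero_sub_max_neg_zero_eq_self]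
      exact cfc_id' ℝ c
    have p1 : 0 ≤ cfc (fun t : ℝ => max t 0) c := cfc_nonneg fun _ _ => le_max_right _ _
    have p2 : 0 ≤ cfc (fun t : ℝ => max (-t) 0) c := cfc_nonneg fun _ _ => le_max_right _ _
    refine h ⟨_, _, mem _ (by fun_prop) (by simp), mem _ (by fun_prop) (by simp), p1, p2,
      fun h3 => h2 ?_, fun h3 => h1 ?_, ?_, fun z hz' =>
      ⟨mul_cfc_eq_zero cs (hz z hz') (by fun_prop) (by simp),
        mul_cfc_eq_zero cs (hz z hz') (by fun_prop) (by simp)⟩⟩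
    · rw [← e, h3, zero_sub, neg_nonpos]; exact p2
    · rw [← e, h3, sub_zero]; exact p1
    · rw [cfc_mul' (by fun_prop) (by fun_prop), ← cfc_zero ℝ c]
      refine cfc_congr fun t _ => ?_
      rcases le_total t 0 with h | h <;> simp [h]
  have sca : ∀ s, IsSelfAdjoint s → ∀ {e : A}, 0 ≤ e → (∃ r : ℝ, e = r • b) → e * e = e →
      ∃ r : ℝ, e * s * e = r • e := by
    rintro s hs e e0 ⟨r, hr⟩ ee
    have c1 := star_left_conjugate_le_conjugate (sa_le_of_norm hs le_rfl) e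
    have c2 := star_left_conjugate_le_conjugate (sa_le_of_norm hs.neg (norm_neg s).le) e
    rw [e0.star_eq, mul_smul_comm, mul_one, smul_mul_assoc, ee] at c1 c2
    refine exists_smul_eq (s := -‖s‖) (by rwa [neg_smul, neg_le, ← neg_mul, ← mul_neg]) c1
      fun t => ?_
    obtain ⟨c, hc⟩ := hb
    have e1 : e * s * e - t • e = b * (r • (s * e - t • 1)) := by
      rw [mul_smul_comm, ← smul_mul_assoc, ← hr, mul_sub, mul_smul_comm, mul_one, mul_assoc]
    have := tot (e * s * e - t • e) (by rw [e1, ← hc]; exact hj.right _ c)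
      ((by simpa [e0.star_eq] using hs.conjugate e : IsSelfAdjoint (e * s * e)).sub
        (IsSelfAdjoint.all t |>.smul e0.isSelfAdjoint))
      fun z hz => by rw [e1, ← mul_assoc, hz, zero_mul]
    rwa [sub_nonneg, sub_nonpos] at this
  obtain ⟨r, hr⟩ : ∃ r : ℝ, b * b = r • b := by
    refine exists_smul_eq (s := 0) (t := ‖b‖) (by simpa using sq_nonneg_sa b0) ?_ fun t => ?_
    · have := star_left_conjugate_le_conjugate (sa_le_of_norm b0.isSelfAdjoint le_rfl) (sq b)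
      have c : sq b * b = b * sq b := ((Commute.refl b).cfc_real _).eq
      rwa [sq_star, mul_smul_comm, mul_one, smul_mul_assoc, c, mul_assoc, sq_mul_sq b0] at this
    · obtain ⟨c, hc⟩ := hb
      have e1 : b * b - t • b = b * (b - t • 1) := by rw [mul_sub, mul_smul_comm, mul_one]
      have := tot (b * b - t • b) (by rw [e1, ← hc]; exact hj.right _ c)
        ((sq_nonneg_sa b0).isSelfAdjoint.sub (IsSelfAdjoint.all t |>.smul b0.isSelfAdjoint))
        fun z hz => by rw [e1, ← mul_assoc, hz, zero_mul]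
      rwa [sub_nonneg, sub_nonpos] at this
  have r0 : r ≠ 0 := fun h0 => b1 ((CStarRing.star_mul_self_eq_zero_iff _).1 (by
    rw [b0.star_eq, hr, h0, zero_smul]))
  have ee : r⁻¹ • b * r⁻¹ • b = r⁻¹ • b := by
    rw [smul_mul_smul_comm, hr, smul_smul, inv_mul_cancel_right₀ r0]
  have es : star (r⁻¹ • b) = r⁻¹ • b := by rw [star_smul, star_trivial, b0.star_eq]
  have e0 : 0 ≤ r⁻¹ • b := by rw [← ee]; exact (show IsSelfAdjoint _ from es).mul_self_nonneg
  refine ⟨r⁻¹ • b, ?_, smul_ne_zero (inv_ne_zero r0) b1, es, fun x => ?_⟩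
  · obtain ⟨c, rfl⟩ := hb
    exact ⟨(r⁻¹ : ℝ) • c, by rw [← Complex.coe_smul, map_smul, Complex.coe_smul]⟩
  obtain ⟨s, hs⟩ := sca _ (realPart x).2 e0 ⟨_, rfl⟩ ee
  obtain ⟨t, ht⟩ := sca _ (imaginaryPart x).2 e0 ⟨_, rfl⟩ ee
  refine ⟨s + Complex.I * t, ?_⟩
  conv_lhs => rw [← realPart_add_I_smul_imaginaryPart x]
  rw [mul_add, add_mul, mul_smul_comm Complex.I, smul_mul_assoc Complex.I, hs, ht, add_smul,
    mul_smul, Complex.coe_smul, Complex.coe_smul]

theorem Smp.hv_or_rr (h : Smp j) (hj : Idl j) : Hv j ∨ RR j := by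
  refine (em _).imp_right fun h0 a ha t ht ε hε => ?_
  obtain ⟨_, ⟨p, rfl⟩, p0, p1, p2⟩ := exists_minimal_of_not_hv hj h0
  obtain ⟨K, u, w, h1⟩ := h p (fun h => p0 (by rw [h, map_zero])) a (ε / 2) (half_pos hε)
  choose c hc using fun k => hj.both (u k) (w k) p
  obtain ⟨s, hs⟩ : ∃ s, s = ∑ k, c k := ⟨_, rfl⟩
  obtain ⟨b, hb⟩ : ∃ b, b = (1 / 2 : ℂ) • (s + star s) := ⟨_, rfl⟩
  have iso := NonUnitalStarAlgHom.norm_map j hj.inj
  have s1 : ‖s - a‖ ≤ ε / 2 := by
    rw [← iso, map_sub, norm_sub_rev, hs, map_sum]; simpa only [hc] using h1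
  have b0 : IsSelfAdjoint b := hb ▸ IsSelfAdjoint.smul (by simp [IsSelfAdjoint])
    (IsSelfAdjoint.add_star_self s)
  have b1 : ‖b - a‖ ≤ ε / 2 := by
    have : b - a = (1 / 2 : ℂ) • (s - a + star (s - a)) := by
      rw [hb, star_sub, ha.star_eq]; module
    rw [this, norm_smul]
    have := norm_add_le_of_le s1 ((norm_star _).trans_le s1)
    rw [show ‖(1 / 2 : ℂ)‖ = 1 / 2 by simp]
    linarith
  have b2 : (spectrum ℝ (j b)).Finite := by
    refine integral_spectrum_finite ?_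
    have := (integral_of_minimal p2 (Sum.elim u fun k => star (w k))
      (Sum.elim w fun k => star (u k))).smul (1 / 2 : ℂ)
    convert this using 1
    simp [hb, hs, hc, map_star, p1, mul_assoc]
  obtain ⟨r, ⟨r1, r2⟩, r3⟩ := (Set.Ioo_infinite (show (1 : ℝ) < 1 + ε / 2 / (‖b‖ + 1) by
    have : 0 < ε / 2 / (‖b‖ + 1) := by positivity
    linarith)).exists_notMem_finite (b2.image fun μ => t / μ)
  have r0 : r ≠ 0 := by positivity
  refine ⟨r • b, (IsSelfAdjoint.all r).smul b0, ?_, fun h2 => r3 ⟨t / r, ?_, by field_simp⟩⟩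
  · rw [show r • b - a = (r - 1) • b + (b - a) by module]
    refine (norm_add_le_of_le ?_ b1).trans (add_halves ε).le
    rw [norm_smul, Real.norm_of_nonneg (by linarith)]
    have := (lt_div_iff₀ (by positivity)).1 (sub_lt_iff_lt_add'.2 r2)
    nlinarith [norm_nonneg b]
  · rw [← Complex.coe_smul, map_smul, Complex.coe_smul] at h2
    have := (spectrum.smul_mem_smul_iff (a := j b) (s := t / r) (r := Units.mk0 r r0)).1 (by
      simpa [Units.smul_def, mul_div_cancel₀ t r0] using h2)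
    exact this

lemma Hv.many (h : Hv j) (n : ℕ) : ∀ {b : A}, (∃ c, j c = b) → 0 ≤ b → b ≠ 0 →
    ∃ z : Fin n → A, (∀ i, (∃ c, j c = z i) ∧ 0 ≤ z i ∧ ‖z i‖ = 1 ∧ ∀ w, w * b = 0 → w * z i = 0) ∧
      ∀ i i', i ≠ i' → z i * z i' = 0 := by
  induction n with
  | zero => exact fun _ _ _ => ⟨0, by simp, by simp⟩
  | succ n ih =>
    intro b hb b0 b1
    obtain ⟨x, y, ⟨c, hc⟩, hy, x0, y0, x1, y1, xy, hz⟩ := h b hb b0 b1
    obtain ⟨z, z1, z2⟩ := ih hy y0 y1
    have a1 : ∀ i, ‖x‖⁻¹ • x * z i = 0 := fun i => by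
      rw [smul_mul_assoc, (z1 i).2.2.2 x xy, smul_zero]
    have a2 : 0 ≤ ‖x‖⁻¹ • x := smul_nonneg (by positivity) x0
    have a3 : j (‖x‖⁻¹ • c) = ‖x‖⁻¹ • x := by
      rw [← Complex.coe_smul, map_smul, Complex.coe_smul, hc]
    have a4 : ∀ w, w * b = 0 → w * ‖x‖⁻¹ • x = 0 := fun w hw => by
      rw [mul_smul_comm, (hz w hw).1, smul_zero]
    exact ⟨Fin.cons (‖x‖⁻¹ • x) z, fun i => Fin.cases ⟨⟨_, a3⟩, a2, norm_smul_inv_norm x1, a4⟩
      (fun i => ⟨(z1 i).1, (z1 i).2.1, (z1 i).2.2.1, fun w hw => (z1 i).2.2.2 w (hz w hw).2⟩) i,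
      fun l l' => Fin.cases (Fin.cases (fun h => (h rfl).elim) (fun l' _ => a1 l') l')
        (fun l => Fin.cases (fun _ => mul_eq_zero_comm_sa a2.isSelfAdjoint
          (z1 l).2.1.isSelfAdjoint (a1 l)) (fun l' h => z2 l l' fun h' => h (congrArg _ h')) l') l⟩

lemma rp_tier {δ : ℝ} {m m' : ℕ} (h : m < m') (x : A) :
    cfc (rp δ m) x * cfc (rp δ m') x = cfc (rp δ m') x := by
  rw [cfc_mul' (rp_cont _ _) (rp_cont _ _)]
  exact congrArg (cfc · x) (funext fun _ => cl_tier h)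

lemma rp_unit (δ : ℝ) (m : ℕ) (x : A) : 0 ≤ cfc (rp δ m) x ∧ cfc (rp δ m) x ≤ 1 :=
  ⟨cfc_nonneg fun _ _ => cl_nonneg _, cfc_le_one _ _ fun _ _ => cl_le_one _⟩

lemma rp_ne_zero {δ : ℝ} (hδ : 0 < δ) {m : ℕ} {x : A} (x0 : 0 ≤ x) (h : m * δ < ‖x‖) :
    cfc (rp δ m) x ≠ 0 := fun h0 => by
  have h1 : 0 < ‖x‖ := lt_of_le_of_lt (by positivity) h
  haveI : Nontrivial A := nontrivial_of_ne x 0 (norm_pos_iff.1 h1)
  have := norm_apply_le_norm_cfc (rp δ m) x (CStarAlgebra.norm_mem_spectrum_of_nonneg x0)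
    (rp_cont _ _).continuousOn x0.isSelfAdjoint
  rw [h0, norm_zero, norm_le_zero_iff, rp, cl, max_eq_left_iff, min_le_iff] at this
  have h2 := (lt_div_iff₀ hδ).2 h
  rcases this with h3 | h3 <;> linarith

lemma Idl.cfc_mem (hj : Idl j) {x : A} (hx : ∃ c, j c = x) {f : ℝ → ℝ} (hf : Continuous f)
    (f0 : f 0 = 0) : ∃ c, j c = cfc f x :=
  cfc_mem_sub (S := NonUnitalStarAlgHom.range j) hj.isClosed_range hf f0 hx

/-- any number of orthogonal triples of tiers under a nonzero positive element -/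
theorem Hv.triples (h : Hv j) (hj : Idl j) (n : ℕ) {b : A} (hb : ∃ c, j c = b) (b0 : 0 ≤ b)
    (b1 : b ≠ 0) : ∃ x y z : Fin n → A, (∀ i, (∃ c, j c = x i) ∧ x i ≠ 0 ∧ 0 ≤ y i ∧ y i ≤ 1 ∧
      0 ≤ z i ∧ z i ≤ 1 ∧ y i * x i = x i ∧ z i * y i = y i ∧ ∀ w, w * b = 0 → w * z i = 0) ∧
      ∀ i i', i ≠ i' → z i * z i' = 0 := by
  obtain ⟨z, z1, z2⟩ := h.many n hb b0 b1
  have d : (0 : ℝ) < 1 / 4 := by norm_num
  have r0 : ∀ m, 0 < m → rp (1 / 4) m 0 = 0 := fun m hm => rp_zero d hm d.le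
  exact ⟨fun i => cfc (rp (1 / 4) 3) (z i), fun i => cfc (rp (1 / 4) 2) (z i),
    fun i => cfc (rp (1 / 4) 1) (z i), fun i => ⟨hj.cfc_mem (z1 i).1 (rp_cont _ _) (r0 3 three_pos),
      rp_ne_zero d (z1 i).2.1 (by rw [(z1 i).2.2.1]; norm_num), (rp_unit _ _ _).1,
      (rp_unit _ _ _).2, (rp_unit _ _ _).1, (rp_unit _ _ _).2, rp_tier (by norm_num) _,
      rp_tier (by norm_num) _, fun w hw => mul_cfc_eq_zero (z1 i).2.1.isSelfAdjoint
        ((z1 i).2.2.2 w hw) (rp_cont _ _) (r0 1 one_pos)⟩,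
    fun i i' hi => cfc_mul_eq_zero (z1 i).2.1.isSelfAdjoint (mul_cfc_eq_zero
      (z1 i').2.1.isSelfAdjoint (z2 i i' hi) (rp_cont _ _) (r0 1 one_pos)) (rp_cont _ _)
      (r0 1 one_pos)⟩

end Pool.Agent.Lib.MP_30b5b4_an
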