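import Pool.Agent.Lib.MP_30b5b4_an.S1

/-! Extensions with a simple ideal: the middle layer. -/

open scoped CStarAlgebra ComplexOrder Topology
open Filter

set_option linter.unusedSectionVars false
set_option linter.style.haveILetI false
set_option linter.unusedSimpArgs false
set_option linter.unusedVariables false
set_option synthInstance.maxSize 1000000

namespace Pool.Agent.Lib.MP_30b5b4_an

universe u v

noncomputable def fa (s : ℝ) : ℝ := √(cl (4 * s - 2))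
noncomputable def fb (s : ℝ) : ℝ := √(cl (2 - 4 * s))
noncomputable def fm (s : ℝ) : ℝ := √(1 - cl (4 * s - 2) - cl (2 - 4 * s))

@[fun_prop] lemma fa_cont : Continuous fa := by unfold fa; fun_prop
@[fun_prop] lemma fb_cont : Continuous fb := by unfold fb; fun_prop
@[fun_prop] lemma fm_cont : Continuous fm := by unfold fm; fun_prop

lemma fab (s : ℝ) : cl (4 * s - 2) = 0 ∨ cl (2 - 4 * s) = 0 := by
  rcases le_total (4 * s) 2 with h | h
  · exact Or.inl (cl_of_nonpos (by linarith))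
  · exact Or.inr (cl_of_nonpos (by linarith))

lemma f_sum (s : ℝ) : fa s * fa s + fm s * fm s + fb s * fb s = 1 := by
  rw [fa, fb, fm, Real.mul_self_sqrt (cl_nonneg _), Real.mul_self_sqrt (cl_nonneg _),
    Real.mul_self_sqrt]
  · ring
  · rcases fab s with h | h <;> rw [h] <;> linarith [cl_le_one (4 * s - 2), cl_le_one (2 - 4 * s)]

lemma f_high {s : ℝ} (h : 3 / 4 ≤ s) : fa s = 1 ∧ fm s = 0 := by
  simp [fa, fm, cl_of_one_le (show 1 ≤ 4 * s - 2 by linarith),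
    cl_of_nonpos (show 2 - 4 * s ≤ 0 by linarith)]

lemma f_low {s : ℝ} (h : s ≤ 1 / 4) : fa s = 0 ∧ fm s = 0 := by
  simp [fa, fm, cl_of_one_le (show 1 ≤ 2 - 4 * s by linarith),
    cl_of_nonpos (show 4 * s - 2 ≤ 0 by linarith)]

section alg
variable {B : Type u} [CStarAlgebra B] [PartialOrder B] [StarOrderedRing B] {t : B}

lemma fr_sum (ht : IsSelfAdjoint t) :
    cfc fa t * cfc fa t + cfc fm t * cfc fm t + cfc fb t * cfc fb t = 1 := by
  rw [cfc_mul' fa_cont fa_cont, cfc_mul' fm_cont fm_cont, cfc_mul' fb_cont fb_cont,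
    ← cfc_add _ _ _ (by fun_prop) (by fun_prop), ← cfc_add _ _ _ (by fun_prop) (by fun_prop),
    ← cfc_const_one ℝ t ht]
  simp only [f_sum]

lemma fr_ab (t : B) : cfc fa t * cfc fb t = 0 := by
  rw [cfc_mul' fa_cont fb_cont, ← cfc_zero ℝ t]
  congr 1
  funext s
  rcases fab s with h | h <;> simp [fa, fb, h]

lemma fr_x (t : B) : cfc (rp (1 / 16) 3) t * cfc fa t = cfc fa t ∧
    cfc (rp (1 / 16) 3) t * cfc fm t = cfc fm t := by
  rw [cfc_mul' (rp_cont _ _) fa_cont, cfc_mul' (rp_cont _ _) fm_cont]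
  constructor <;> congr 1 <;> funext s <;> rcases le_total s (1 / 4) with h | h
  · rw [(f_low h).1, mul_zero]
  · rw [rp, cl_of_one_le (by norm_num; linarith), one_mul]
  · rw [(f_low h).2, mul_zero]
  · rw [rp, cl_of_one_le (by norm_num; linarith), one_mul]

lemma fr_y (t : B) : cfc fa t * cfc (rp (1 / 16) 15) t = cfc (rp (1 / 16) 15) t := by
  rw [cfc_mul' fa_cont (rp_cont _ _)]
  congr 1
  funext s
  rcases le_total (3 / 4) s with h | h
  · rw [(f_high h).1, one_mul]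
  · rw [rp, cl_of_nonpos (by norm_num; linarith), mul_zero]

lemma unit_cfc {a y : B} (hy : IsSelfAdjoint y) (h : a * y = y) {f : ℝ → ℝ} (hf : Continuous f)
    (f0 : f 0 = 0) : a * cfc f y = cfc f y := by
  have := mul_cfc_eq_zero hy (y := 1 - a) (by rw [sub_mul, h, one_mul, sub_self]) hf f0
  rw [sub_mul, one_mul, sub_eq_zero] at this
  exact this.symm

lemma mem_of_basis {F : Type*} [CStarAlgebra F] [FiniteDimensional ℂ F] (f : F →ₗ[ℂ] B)
    {S : StarSubalgebra ℂ B} (h : ∀ i, f (Module.finBasis ℂ F i) ∈ S) (x : F) : f x ∈ S := by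
  rw [← (Module.finBasis ℂ F).sum_repr x, map_sum]
  refine sum_mem fun i _ => ?_
  rw [map_smul]
  exact SMulMemClass.smul_mem _ (h i)

end alg

variable {J : Type*} {A : Type u} [NonUnitalCStarAlgebra J] [PartialOrder J] [StarOrderedRing J]
  [CStarAlgebra A] [PartialOrder A] [StarOrderedRing A] {j : J →⋆ₙₐ[ℂ] A}

lemma idl_id : Idl (NonUnitalStarAlgHom.id ℂ A) := ⟨Function.injective_id, fun a b => ⟨a * b, rfl⟩⟩

lemma merge_one (c : CA A) (G : ℕ → CA A) {t : UA A} (T0 : IsSelfAdjoint t) {u : UA A}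
    (u0 : 0 ≤ u) (u1 : u ≤ 1) (ht : t ∈ VS G) (hu : u ∈ VS G)
    (hφ : ∀ y, dg (c.φ y) ∈ VS G) (ct : ∀ y, Commute t (dg (c.φ y)))
    (cu : ∀ y, Commute u (dg (c.φ y))) (ctu : Commute t u) {η : ℝ} (hη : 0 < η) :
    ∃ d : ℕ → CA A, ∀ x : A, dg x ∈ VS G → Commute t (dg x) → Commute u (dg x) →
      ‖uT d (dg x) - (uT G 1 * (cfc fa t * cfc fa t * u * dg x +
        cfc fm t * cfc fm t * dg (c.T x)) + cfc fb t * cfc fb t * dg (c.T x))‖ ≤ 5 * η * ‖x‖ := by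
  obtain ⟨t', t0, rfl⟩ := Ult.sa_lift T0
  obtain ⟨U, U0, U1, hU⟩ := unit_lift (sq_nonneg' u) (cfc_le_one _ _ fun s hs =>
    Real.sqrt_le_one.2 (spec_mem u0 u1 hs).2)
  have ea : Ult.mk (cfc fa t') = cfc fa (Ult.mk t') := hom_cfc _ fa_cont t0
  have em : Ult.mk (cfc fm t') = cfc fm (Ult.mk t') := hom_cfc _ fm_cont t0
  have eb : Ult.mk (cfc fb t') = cfc fb (Ult.mk t') := hom_cfc _ fb_cont t0
  have K0 := fr_sum T0
  have ab := fr_ab (Ult.mk t')
  have va : cfc fa (Ult.mk t') ∈ VS G := cfc_mem_cl (VS_closed G) _ ht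
  have vm : cfc fm (Ult.mk t') ∈ VS G := cfc_mem_cl (VS_closed G) _ ht
  have ca : ∀ y, Commute (cfc fa (Ult.mk t')) (dg (c.φ y)) := fun y => (ct y).cfc_real _
  have cm : ∀ y, Commute (cfc fm (Ult.mk t')) (dg (c.φ y)) := fun y => (ct y).cfc_real _
  have cb : ∀ y, Commute (cfc fb (Ult.mk t')) (dg (c.φ y)) := fun y => (ct y).cfc_real _
  have au : Commute (cfc fa (Ult.mk t')) u := ctu.cfc_real _
  have mu : Commute (cfc fm (Ult.mk t')) u := ctu.cfc_real _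
  have am : Commute (cfc fa (Ult.mk t')) (cfc fm (Ult.mk t')) := cfc_commute_cfc _ _ _
  have a0 : 0 ≤ cfc fa (Ult.mk t') := cfc_nonneg fun _ _ => Real.sqrt_nonneg _
  have m0 : 0 ≤ cfc fm (Ult.mk t') := cfc_nonneg fun _ _ => Real.sqrt_nonneg _
  have b0 : 0 ≤ cfc fb (Ult.mk t') := cfc_nonneg fun _ _ => Real.sqrt_nonneg _
  have ax : ∀ x, Commute (Ult.mk t') x → Commute (cfc fa (Ult.mk t')) x := fun x h => h.cfc_real _
  generalize cfc fa (Ult.mk t') = a at *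
  generalize cfc fm (Ult.mk t') = m at *
  generalize cfc fb (Ult.mk t') = b at *
  let f : c.F →ₗ[ℂ] UA A := lin dg ∘ₗ c.φ
  have f0 : ∀ x, f x = dg (c.φ x) := fun _ => rfl
  have f1 : OZ f := c.oz.map dg f0
  have f2 : f 1 ≤ 1 := (hom_mono dg c.one).trans_eq (map_one dg)
  have K1 : 0 ≤ m * m + b * b := add_nonneg (sq_nonneg_sa m0) (sq_nonneg_sa b0)
  have K2 : m * m + b * b ≤ 1 := by
    rw [← K0, add_assoc]; exact le_add_of_nonneg_left (sq_nonneg_sa a0)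
  have K3 : ∀ x, Commute (m * m + b * b) (f x) := fun x =>
    ((cm x).mul_left (cm x)).add_left ((cb x).mul_left (cb x))
  have A0 : 0 ≤ cfc fa t' := cfc_nonneg fun _ _ => Real.sqrt_nonneg _
  have M0 : 0 ≤ cfc fm t' := cfc_nonneg fun _ _ => Real.sqrt_nonneg _
  let θ₁ := cj (U * cfc fa t') (lin cst)
  let θ₂ := cj (cfc fm t') (lin cst ∘ₗ c.φ)
  have t1 : IsCP θ₁ := (lin_cp cst).cj _
  have t2 : IsCP θ₂ := ((lin_cp cst).comp c.oz.cp fun _ => rfl).cj _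
  let θ : A →ₗ[ℂ] BA A := θ₁ + θ₂ ∘ₗ c.ψ
  have t3 : ∀ x, Ult.mk (θ x) = cj (sq u * a) (lin dg) x + cj m f (c.ψ x) := fun x => by
    change Ult.mk (star (U * cfc fa t') * cst x * (U * cfc fa t') +
      star (cfc fm t') * cst _ * cfc fm t') = _
    simp only [map_add, map_mul, map_star, hU, ea, em]
    rfl
  have z0 : ∀ {v : UA A}, 0 ≤ v → (∀ x, Commute v (f x)) → ∀ x, cj v f x = v * v * f x :=
    fun hu hc x => by rw [cj_apply, hu.star_eq, mul_assoc, ← (hc x).eq, mul_assoc]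
  have z1 := z0 m0 cm
  have z2 := z0 b0 cb
  have z3 : OZ (cj m f) := f1.mulLeft (sq_nonneg_sa m0) (fun x => (cm x).mul_left (cm x)) z1
  have z4 : ∀ x, cj m f x + cj b f x = (m * m + b * b) * f x := fun x => by rw [z1, z2, add_mul]
  have p0 : ∀ x, Commute a (dg x) → Commute u (dg x) →
      cj (sq u * a) (lin dg) x = a * a * u * dg x := fun x h1 h2 => by
    have h3 : Commute (sq u) (dg x) := h2.cfc_real _
    rw [cj_apply, star_mul, a0.star_eq, sq_star, lin_apply, mul_assoc, ← (h3.mul_left h1).eq,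
      ← mul_assoc, mul_assoc a, ← mul_assoc (sq u), sq_mul_sq u0, ← au.eq, ← mul_assoc a]
  have p1 : cj (sq u * a) (lin dg) (1 : A) = a * a * u := by
    rw [p0 1 (by simp) (by simp), map_one, mul_one]
  have p2 : a * a ≤ 1 := by
    rw [← K0, add_assoc]; exact le_add_of_nonneg_right K1
  have p3 : ∀ x, cj m f x ∈ VS G := fun x => z1 x ▸ mul_mem (mul_mem vm vm) (hφ x)
  have p4 : a * a * u ∈ VS G := mul_mem (mul_mem va va) hu
  obtain ⟨d, hd⟩ := idl_id.merge G (fun k x => ⟨_, rfl⟩) c.cp c.le (θ := θ)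
    (t1.add (t2.comp c.cp fun _ => rfl))
    (fun x => norm_add_le_of_cp t1 t2 (by
      refine le_trans (add_le_add ?_ ?_) ((le_add_of_nonneg_right
        (sq_nonneg_sa (cfc_nonneg fun _ _ => Real.sqrt_nonneg _))).trans_eq (fr_sum t0))
      · have := star_left_conjugate_le_conjugate (mul_unit U0 U1 U0 U1 (Commute.refl U)).2
          (cfc fa t')
        rw [cj_apply, lin_apply, map_one, mul_one, star_mul, U0.star_eq, mul_assoc,
          ← mul_assoc U, ← mul_assoc]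
        exact this.trans_eq (by rw [mul_one, A0.star_eq])
      · have := star_left_conjugate_le_conjugate (hom_mono cst c.one) (cfc fm t')
        refine this.trans_eq ?_
        rw [map_one, mul_one, M0.star_eq]) _ _ le_rfl (c.le x))
    (Φ := cj (sq u * a) (lin dg)) ((lin_cp _).cj _)
    (by rw [p1]; exact (mul_le_of_commute (sq_nonneg_sa a0) u1 (au.mul_left au)).trans p2)
    (Z := cj m f) (O := cj b f) z3 (f1.cp.cj _) (f1.mulLeft K1 K3 z4)
    (by rw [z4]; exact (mul_le_of_commute K1 f2 (K3 1)).trans K2)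
    (fun x => ⟨star (cfc fb t') * cst (c.φ x) * cfc fb t', fun _ => ⟨_, rfl⟩, by
      rw [map_mul, map_mul, map_star, eb]; rfl⟩)
    (fun x => by
      have h1 := (am.mul_right am).mul_right (ca x)
      rw [p1, z1]
      exact (h1.mul_left h1).mul_left ((mu.symm.mul_right mu.symm).mul_right (cu x)))
    (by rw [p1, z2, mul_assoc a, au.eq, ← mul_assoc a u, mul_assoc, mul_assoc b, ← mul_assoc a b,
      ab, zero_mul, mul_zero])
    (by rw [p1]; exact Vis.of_VS p4) (fun x => Vis.of_VS (p3 x)) hη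
  refine ⟨d, fun x v1 v2 v3 => ?_⟩
  have := hd x
  rw [show NonUnitalStarAlgHom.id ℂ A x = x from rfl, t3, sT_eq, add_sub_cancel_left, sub_self, norm_zero, mul_zero, add_zero, p0 x (ax _ v2) v3,
    (Vis.of_VS (add_mem (mul_mem p4 v1) (p3 _))).1, z1, z2] at this
  exact this

instance rp_fact (δ : ℝ) (m : ℕ) : Fact (Continuous (rp δ m)) := ⟨rp_cont δ m⟩

/-- output of the middle layer -/
def MidP {σ ρ : Type} {N N' : ℕ} (M : ℕ) (δ η : ℝ) (S : σ → UA A) (e : Fin N → ℕ → CA A)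
    (f : Fin N' → ℕ → CA A) (R : ρ → UA A) : Prop :=
  ∃ a : UA A, ‖a‖ ≤ 1 ∧ ∃ m : UA A, ‖m‖ ≤ 1 ∧ ∃ q : UA A, ‖q‖ ≤ 1 ∧ ∃ z : UA A, ‖z‖ ≤ 1 ∧
    ∃ u : Fin N → UA A, (∀ i, ‖u i‖ ≤ 1) ∧
    ∃ W : Fin N × Fin M × Fin N' → UA A, (∀ p, ‖W p‖ ≤ 1) ∧ ∃ d : Fin N → ℕ → CA A,
      (0 ≤ a ∧ 0 ≤ m ∧ a + m ≤ 1 ∧ 0 ≤ q ∧ Commute a m ∧ Commute q a ∧ Commute q m) ∧
      (a ∈ Cn (Set.range S) ∧ m ∈ Cn (Set.range S) ∧ q ∈ Cn (Set.range S)) ∧
      (∀ i, 0 ≤ u i ∧ u i ∈ Cn (Set.range S) ∧ Commute a (u i) ∧ Commute m (u i) ∧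
        Commute q (u i) ∧ Commute a (uT (e i) 1) ∧ Commute m (uT (e i) 1) ∧
        Commute q (uT (e i) 1) ∧ Commute (u i) (uT (e i) 1)) ∧ ∑ i, u i = 1 ∧
      (∀ r, a * R r = R r ∧ m * R r = 0) ∧
      (z * a = (1 - q) * a ∧ z * m = (1 - q) * m ∧ ∀ i, Commute (uT (f i) 1) z) ∧
      (∀ p, q * W p = W p ∧ a * W p = W p ∧ u p.1 * W p = ((((p.2.1 : ℕ) : ℝ) + 1) / M) • W p ∧
        (∀ p', p ≠ p' → star (W p) * W p' = 0) ∧
        star (W p) * W p * (z * cf (rp δ 3) (uφ (f p.2.2) 1)) = z * cf (rp δ 3) (uφ (f p.2.2) 1) ∧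
        Commute (W p) (cf (Gf δ) (uφ (f p.2.2) 1) * uT (f p.2.2) 1) ∧ ∀ l,
          Commute (W p) (cf (Gf δ) (uφ (f p.2.2) 1) * uT (f p.2.2) (S l)) ∧
          Commute (W p) (cf (Gf δ) (uφ (f p.2.2) 1) * uT (f p.2.2) (star (S l)))) ∧
      ∀ i l, ‖uT (d i) (S l) - (q * (a * u i * S l + m * uT (e i) (S l)) +
        (1 - a - m) * uT (e i) (S l))‖ ≤ η

lemma MidP.clo {σ ρ : Type} [Finite σ] [Finite ρ] {N N' : ℕ} (M : ℕ) {δ : ℝ} (hδ : 0 < δ) (η : ℝ) :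
    Clo fun g : ((σ → UA A) × (Fin N → ℕ → CA A)) × (Fin N' → ℕ → CA A) × (ρ → UA A) =>
      MidP M δ η g.1.1 g.1.2 g.2.1 g.2.2 := by
  haveI : Fact (Continuous (Gf δ)) := ⟨Gf_cont hδ⟩
  unfold MidP; infer_instance

lemma norm_dg (a : A) : ‖(dg a : UA A)‖ = ‖a‖ :=
  tendsto_nhds_unique (Ult.tendsto_norm (cst a)) tendsto_const_nhds

lemma one_le_norm_of_mul {B : Type*} [NormedRing B] {y Y : B} (h : y * Y = Y) (h0 : Y ≠ 0) :
    1 ≤ ‖y‖ := by
  have := norm_mul_le y Y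
  rw [h] at this
  exact le_of_mul_le_mul_right (by simpa using this) (norm_pos_iff.2 h0)

/-- the inner layer for sequences -/
lemma inner_seq (hj : Idl j) (hS : Smp j) {n : ℕ} (hA : Ap (NonUnitalStarAlgHom.id ℂ A) (n + 1) False)
    (hs : ∀ a : A, (∃ c, j c = a) → 0 ≤ a → a ≤ 1 → HS (dg a))
    {τ β : Type} [Finite τ] [Finite β] (P : Type) [Fintype P] [DecidableEq P] [Nonempty P]
    (T : τ → UA A) {t : UA A} (ht : t ∈ Iw j) (t0 : 0 ≤ t) (t1 : t ≤ 1) (y : β → UA A)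
    (hy : ∀ b, y b ∈ Iw j) (y0 : ∀ b, 0 ≤ y b) (y1 : ∀ b, y b ≤ 1) (y2 : ∀ b, 1 ≤ ‖y b‖) :
    InP P T (cfc (rp (1 / 16) 3) t) fun b => cfc (rp (1 / 4) 1) (y b) := by
  obtain ⟨t', a1, a2, a3, rfl⟩ := hj.unit_lift ht t0 t1
  choose y' b1 b2 b3 b4 using fun b => hj.unit_lift (hy b) (y0 b) (y1 b)
  choose T' hT using fun l => Ult.surj (T l)
  have ev : ∀ᶠ k in (om : Filter ℕ), ∀ b, 1 / 2 < ‖Bdd.ev k (y' b)‖ := eventually_all.2 fun b =>
    (Ult.tendsto_norm (y' b)).eventually (lt_mem_nhds (by rw [b4]; linarith [y2 b]))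
  have := transfer (fun g : (τ → UA A) × UA A × (β → UA A) => InP P g.1 g.2.1 g.2.2)
    ((Stage.pi fun l => Stage.mk (T' l)).prod ((Stage.mk (cfc (rp (1 / 16) 3) t')).prod
      (Stage.pi fun b => Stage.mk (cfc (rp (1 / 4) 1) (y' b))))) (ev.mono fun k hk => by
      have c0 : ∀ m, 0 < m → ∀ δ, 0 < δ → rp δ m 0 = 0 := fun m hm δ hδ => rp_zero hδ hm hδ.le
      simp only [hom_cfc _ (rp_cont _ _) a2.isSelfAdjoint,
        fun b => hom_cfc (Bdd.ev k) (rp_cont (1 / 4) 1) (b2 b).isSelfAdjoint]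
      exact inner hS hA P _ (rp_unit _ _ _).1 (rp_unit _ _ _).2
        (hs _ (hj.cfc_mem (a1 k) (rp_cont _ _) (c0 _ (by norm_num) _ (by norm_num)))
          (rp_unit _ _ _).1 (rp_unit _ _ _).2)
        (g := cfc (rp (1 / 16) 2) (Bdd.ev k t')) (g' := cfc (rp (1 / 16) 1) (Bdd.ev k t'))
        (rp_unit _ _ _).1 (hj.cfc_mem (a1 k) (rp_cont _ _) (c0 _ (by norm_num) _ (by norm_num)))
        (rp_tier (by norm_num) _) (rp_tier (by norm_num) _) _
        (fun b => cfc (rp (1 / 4) 2) (Bdd.ev k (y' b)))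
        (fun b => hj.cfc_mem (b1 b k) (rp_cont _ _) (c0 _ (by norm_num) _ (by norm_num)))
        (fun b => rp_ne_zero (by norm_num) (hom_nonneg _ (b2 b)) (by
          have := hk b; push_cast; linarith))
        fun b => rp_tier (by norm_num) _)
  simpa only [hT, hom_cfc _ (rp_cont _ _) a2.isSelfAdjoint, b4,
    fun b => hom_cfc Ult.mk (rp_cont (1 / 4) 1) (b2 b).isSelfAdjoint] using this

lemma weights {N M N' : ℕ} (hN : 2 ≤ N) : ∃ μ : Fin N → Fin N × Fin M × Fin N' → ℝ,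
    (∀ i p, 0 ≤ μ i p) ∧ (∀ p, ∑ i, μ i p = 1) ∧ ∀ p, μ p.1 p = (((p.2.1 : ℕ) : ℝ) + 1) / M := by
  haveI : Nontrivial (Fin N) := Fin.nontrivial_iff_two_le.2 hN
  choose nx hnx using fun i : Fin N => exists_ne i
  refine ⟨fun i p => (if i = p.1 then (((p.2.1 : ℕ) : ℝ) + 1) / M else 0) +
    if i = nx p.1 then 1 - (((p.2.1 : ℕ) : ℝ) + 1) / M else 0, fun i p => ?_, fun p => ?_,
    fun p => ?_⟩
  · have h1 : (((p.2.1 : ℕ) : ℝ) + 1) / M ≤ 1 :=
      div_le_one_of_le₀ (by exact_mod_cast p.2.1.2) (by positivity)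
    refine add_nonneg ?_ ?_ <;> split_ifs
    exacts [by positivity, le_rfl, sub_nonneg.2 h1, le_rfl]
  · simp [Finset.sum_add_distrib]
  · simp [(hnx p.1).symm]

theorem mid (hj : Idl j) (hS : Smp j) {n : ℕ} (hA : Ap (NonUnitalStarAlgHom.id ℂ A) (n + 1) False)
    (hs : ∀ a : A, (∃ c, j c = a) → 0 ≤ a → a ≤ 1 → HS (dg a)) {σ ρ : Type} [Finite σ] [Finite ρ]
    {N N' M : ℕ} (hN : 2 ≤ N) (hM : 0 < M) {δ η : ℝ} (hδ : 0 < δ) (hη : 0 < η) (S : σ → A)
    (S1 : ∀ l, ‖S l‖ ≤ 1) (e : Fin N → CA A) (f : Fin (N' + 1) → CA A) (R : ρ → A)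
    (hR : ∀ r, ∃ c, j c = R r) : MidP M δ (5 * η) (fun l => dg (S l)) (fun i _ => e i)
      (fun i _ => f i) fun r => dg (R r) := by
  classical
  let P := Fin N × Fin M × Fin (N' + 1)
  haveI : Nonempty P := ⟨(⟨0, by omega⟩, ⟨0, hM⟩, 0)⟩
  have U : ∀ i, MU (f i).F := fun i => (exists_MU _).some
  let φ : ∀ i, (f i).F →ₗ[ℂ] UA A := fun i => lin dg ∘ₗ (f i).φ
  have φ0 : ∀ i, OZ (φ i) := fun i => (f i).oz.map dg fun _ => rfl
  let D : (Σ i, Fin (U i).N) → A := fun b => (U b.1).blk (f b.1).φ b.2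
  have D0 : ∀ b, IsSelfAdjoint (D b) := fun b => (MU.blk_nonneg (f b.1).oz b.2).isSelfAdjoint
  have D1 : ∀ b m, dg (cfc (rp δ m) (D b)) = cfc (rp δ m) ((U b.1).blk (φ b.1) b.2) := fun b m =>
    hom_cfc dg (rp_cont _ _) (D0 b)
  let Al : (Σ i, Fin (U i).N) → Prop := fun b => ∃ c, cfc (rp δ 3) (D b) * j c ≠ 0
  choose Y Y1 using fun b : Subtype Al => b.2
  let T0 : σ ⊕ (Σ i, Fin (Module.finrank ℂ (e i).F)) ⊕ (Σ i, Fin (Module.finrank ℂ (f i).F)) →
      UA A := Sum.elim (fun l => dg (S l)) (Sum.elim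
    (fun p => dg ((e p.1).φ (Module.finBasis ℂ _ p.2))) fun p => φ p.1 (Module.finBasis ℂ _ p.2))
  have key : ∀ Q : StarSubalgebra ℂ (UA A), (∀ l, T0 l ∈ Q) → (∀ l, dg (S l) ∈ Q) ∧
      (∀ i y, dg ((e i).φ y) ∈ Q) ∧ ∀ i y, φ i y ∈ Q := fun Q h => ⟨fun l => h (.inl l),
    fun i => mem_of_basis (lin dg ∘ₗ (e i).φ) fun l => h (.inr (.inl ⟨i, l⟩)),
    fun i => mem_of_basis (φ i) fun l => h (.inr (.inr ⟨i, l⟩))⟩
  have key' : ∀ {x : UA A}, x ∈ Cn (Set.range T0) → x ∈ Cn (Set.range fun l => dg (S l)) ∧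
      (∀ i y, Commute x (dg ((e i).φ y))) ∧ ∀ i y, Commute x (φ i y) := fun {x} h => by
    obtain ⟨-, h2, h3⟩ := key (Cn {x}) fun l => mem_Cn.2 (by
      simpa using ⟨Cn_comm h ⟨l, rfl⟩, Cn_comm (star_mem h) ⟨l, rfl⟩⟩)
    exact ⟨Cn_mono (by rintro _ ⟨l, rfl⟩; exact ⟨.inl l, rfl⟩) h,
      fun i y => (Cn_comm (h2 i y) rfl).symm, fun i y => (Cn_comm (h3 i y) rfl).symm⟩
  obtain ⟨t, t1, t2, t0, t3, t4⟩ := hj.tier T0
    (Sum.elim (fun r => dg (R r)) fun b : Subtype Al => dg (cfc (rp δ 3) (D b) * j (Y b))) (by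
      rintro (r | b)
      · obtain ⟨c, hc⟩ := hR r
        simpa only [Sum.elim_inl, ← hc] using dg_mem_Iw c
      · simpa only [Sum.elim_inr, map_mul] using hj.Iw_left _ (dg_mem_Iw _))
  have t5 := le_one_of_norm t0 t1
  have ts := t0.isSelfAdjoint
  have t6 : ∀ g : ℝ → ℝ, cfc g t ∈ Cn (Set.range T0) := fun g => cfc_mem_cl (Cn_closed _) g t3
  have t7 : ∀ (g : ℝ → ℝ) b m, Commute (cfc g t) (dg (cfc (rp δ m) (D b))) := fun g b m => by
    rw [D1]; exact (((key' (t6 g)).2.2 _ _).symm.cfc_real _).symm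
  have t8 : ∀ m, 0 < m → cfc (rp (1 / 16) m) t ∈ Iw j := fun m hm => by
    obtain ⟨w, w1, w0, -, rfl⟩ := hj.unit_lift t2 t0 t5
    exact ⟨_, cfc_mem_sub hj.isClosed_Lf (rp_cont _ _) (rp_zero (by norm_num) hm (by norm_num)) w1,
      hom_cfc Ult.mk (rp_cont _ _) w0.isSelfAdjoint⟩
  let y : Subtype Al → UA A := fun b => cfc (rp (1 / 16) 15) t * dg (cfc (rp δ 2) (D b))
  have y0 := fun b : Subtype Al => mul_unit (rp_unit (1 / 16) 15 t).1 (rp_unit _ _ _).2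
    (hom_nonneg dg (rp_unit δ 2 (D b)).1) ((hom_mono dg (rp_unit _ _ _).2).trans_eq (map_one _))
    (t7 _ _ _)
  obtain ⟨s, s1, w, w1, G, G1, G2, G3, G4, G5⟩ := inner_seq hj hS hA hs P
    (fun o : Option _ => o.elim t T0) t2 t0 t5 y (fun b => hj.Iw_right _ (t8 _ (by norm_num)))
    (fun b => (y0 b).1) (fun b => (y0 b).2) fun b =>
      one_le_norm_of_mul (Y := dg (cfc (rp δ 3) (D b) * j (Y b))) (by
        rw [mul_assoc, ← map_mul, ← mul_assoc, rp_tier (by norm_num)]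
        exact cfc_mul_eq_self ts (t4 (.inr b)) (rp_cont _ _) (cl_of_one_le (by norm_num)))
        (by rw [← norm_ne_zero_iff, norm_dg, norm_ne_zero_iff]; exact Y1 b)
  set q := uT G 1 with hq
  set x := cfc (rp (1 / 16) 3) t with hx
  have q0 : 0 ≤ q := (uT_cp G).one_nonneg
  have q1 : q ≤ 1 := (uT_one_le G).trans (uφ_one G)
  have cq : ∀ {b}, b ∈ VS G → Commute q b := fun hb =>
    (Vis.of_VS hb).1.symm.trans (Vis.of_VS hb).2
  have q2 : q ∈ Cn (Set.range T0) := mem_Cn.2 (by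
    rintro _ ⟨l, rfl⟩
    exact ⟨(cq (G1 (some l))).symm, (cq (star_mem (G1 (some l)))).symm⟩)
  have vt : ∀ g : ℝ → ℝ, cfc g t ∈ VS G := fun g => cfc_mem_cl (VS_closed _) g (G1 none)
  obtain ⟨v1, v2, v3⟩ := key (VS G) fun l => G1 (some l)
  have s2 : ∀ p, s p ∈ Cn (insert t (Set.range T0)) := fun p => Cn_mono (by
    rintro _ (rfl | ⟨l, rfl⟩)
    exacts [⟨none, rfl⟩, ⟨some l, rfl⟩]) (G3 p).2.2
  obtain ⟨μ, μ0, μ1, μ2⟩ := weights (M := M) (N' := N' + 1) hN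
  let i₀ : Fin N := ⟨0, by omega⟩
  let u : Fin N → UA A := fun i => ∑ p, μ i p • s p + if i = i₀ then 1 - ∑ p, s p else 0
  have u0 : ∀ i, 0 ≤ u i := fun i => add_nonneg
    (Finset.sum_nonneg fun p _ => smul_nonneg (μ0 i p) (G3 p).2.1) (by
      split_ifs
      exacts [sub_nonneg.2 G4, le_rfl])
  have u1 : ∑ i, u i = 1 := by
    simp only [u, Finset.sum_add_distrib]
    rw [Finset.sum_comm]
    simp only [← Finset.sum_smul, μ1, one_smul, Finset.sum_ite_eq', Finset.mem_univ, if_true]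
    exact add_sub_cancel _ _
  have u2 : ∀ i, u i ≤ 1 := fun i => u1 ▸ Finset.single_le_sum (fun i _ => u0 i) (Finset.mem_univ i)
  have u3 : ∀ Q : StarSubalgebra ℂ (UA A), (∀ p, s p ∈ Q) → ∀ i, u i ∈ Q := fun Q h i =>
    add_mem (sum_mem fun p _ => by rw [← Complex.coe_smul]; exact SMulMemClass.smul_mem _ (h p)) (by
      split_ifs
      exacts [sub_mem (one_mem _) (sum_mem fun p _ => h p), zero_mem _])
  have u4 := fun i => key' (Cn_mono (Set.subset_insert _ _) (u3 _ s2 i))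
  have u5 : ∀ i, Commute t (u i) := fun i => (Cn_comm (u3 _ s2 i) (Or.inl rfl)).symm
  have u6 := u3 _ fun p => (G3 p).1
  let w' : (Σ i, Fin (U i).N) → P → UA A := fun b p => if h : Al b then w ⟨b, h⟩ p else 0
  have x1 := key' (mul_mem (sub_mem (one_mem _) q2) (t6 (rp (1 / 16) 3)))
  have w2 : ∀ b p, ‖w' b p‖ ≤ 1 ∧ q * w' b p = w' b p ∧ cfc fa t * w' b p = w' b p ∧
      dg (cfc (rp δ 1) (D b)) * w' b p = w' b p ∧
      (∀ p', s p' * w' b p = if p' = p then w' b p else 0) ∧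
      star (w' b p) * w' b p * ((1 - q) * x * dg (cfc (rp δ 3) (D b))) =
        (1 - q) * x * dg (cfc (rp δ 3) (D b)) := fun b p => by
    by_cases h : Al b
    · simp only [w', dif_pos h]
      obtain ⟨a1, a2, a3, a4⟩ := G5 ⟨b, h⟩ p
      have a5 : ∀ c, c * y ⟨b, h⟩ = y ⟨b, h⟩ → c * w ⟨b, h⟩ p = w ⟨b, h⟩ p := fun c hc => by
        rw [← a2, ← mul_assoc, unit_cfc (y0 ⟨b, h⟩).1.isSelfAdjoint hc (rp_cont _ _)
          (rp_zero (by norm_num) one_pos (by norm_num))]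
      refine ⟨w1 _ _, a1, a5 _ (by rw [← mul_assoc, fr_y]), a5 _ ?_, a4, by rw [← mul_assoc, a3]⟩
      rw [← mul_assoc, ← (t7 _ _ _).eq, mul_assoc, ← map_mul, rp_tier (by norm_num)]
    · simp only [w', dif_neg h]
      refine ⟨by simp, by simp, by simp, by simp, by simp, ?_⟩
      obtain ⟨c, c1, c2⟩ := mem_Iw.1 (t8 3 (by norm_num))
      rw [mul_assoc (1 - q), (t7 _ _ _).eq, ← c2, dg_apply, ← map_mul,
        show cst (cfc (rp δ 3) (D b)) * c = 0 from Bdd.ext fun k => ?_]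
      · simp
      · obtain ⟨c', hc'⟩ := c1 k
        rw [map_mul, ← hc', map_zero]
        exact not_not.1 fun h' => h ⟨c', h'⟩
  let ω : ∀ p : P, Fin (U p.2.2).N → UA A := fun p b =>
    w' ⟨_, b⟩ p * dg (cfc (rp δ 2) (D ⟨_, b⟩))
  have r0 : ∀ t, t ≤ δ → rp δ 1 t = 0 := fun t ht => rp_zero hδ one_pos ht
  have L1 : ∀ p, (U p.2.2).Loc (φ _) δ (ω p) := fun p =>
    (MU.Loc.of (φ0 _) hδ (rp_cont δ 1) r0 fun b => by
      rw [← D1 ⟨_, b⟩]; exact (w2 ⟨_, b⟩ p).2.2.2.1).mul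
  have L2 : ∀ p, (U p.2.2).Loc (φ _) δ fun b => star (ω p b) := fun p =>
    MU.Loc.of (φ0 _) hδ (rp_cont δ 1) r0 fun b => by
      simp only [ω, star_mul, D1, IsSelfAdjoint.cfc.star_eq]
      rw [← mul_assoc, rp_tier (by norm_num)]
  let W : P → UA A := fun p => (U p.2.2).amp (φ _) δ (ω p)
  have W1 : ∀ {c : UA A} (r : ℝ) p, (∀ y, Commute c (φ p.2.2 y)) →
      (∀ b, c * w' b p = r • w' b p) → c * W p = r • W p := fun r p h1 h2 => by
    simp only [W, ω]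
    rw [MU.mul_amp h1, ← MU.amp_smul]
    simp only [← mul_assoc, h2, smul_mul_assoc]
  have W2 : ∀ p p', s p' * W p = (if p' = p then (1 : ℝ) else 0) • W p := fun p p' =>
    W1 _ p ((key' (Cn_mono (Set.subset_insert _ _) (s2 p'))).2.2 _) fun b => by
      rw [(w2 b p).2.2.2.2.1]; split_ifs <;> simp
  have W3 : ∀ p (a : A), Commute (W p) (cf (Gf δ) (uφ (fun _ => f p.2.2) 1) *
      uT (fun _ => f p.2.2) (dg a)) := fun p a => by
    rw [cf_eq _ (uφ_oz _).cp.one_nonneg.isSelfAdjoint, uφ_const_one, uT_const]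
    exact MU.amp_comm (φ0 _) (L1 p) (L2 p) _
  choose d hd using fun i => merge_one (e i) G ts (u0 i) (u2 i) (G1 none) (u6 i)
    (v2 i) ((key' t3).2.1 i) ((u4 i).2.1 i) (u5 i) hη
  have K0 := fr_sum ts
  have a0 : 0 ≤ cfc fa t * cfc fa t := sq_nonneg_sa (cfc_nonneg fun _ _ => Real.sqrt_nonneg _)
  have m0 : 0 ≤ cfc fm t * cfc fm t := sq_nonneg_sa (cfc_nonneg fun _ _ => Real.sqrt_nonneg _)
  have b0 : 0 ≤ cfc fb t * cfc fb t := sq_nonneg_sa (cfc_nonneg fun _ _ => Real.sqrt_nonneg _)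
  have K1 := (le_add_of_nonneg_right b0).trans_eq K0
  have c0 : ∀ (g : ℝ → ℝ) {z}, Commute t z → Commute (cfc g t * cfc g t) z := fun g _ h =>
    (h.cfc_real g).mul_left (h.cfc_real g)
  have h0 : ∀ i, uT (fun _ => e i) 1 = dg ((e i).φ ((e i).ψ 1)) := fun i => by
    rw [← map_one dg, uT_const]; rfl
  have z0 := mul_unit (sub_nonneg.2 q1) (sub_le_self _ q0) (rp_unit (1 / 16) 3 t).1
    (rp_unit _ _ _).2 ((Commute.one_left _).sub_left (cq G2))
  refine ⟨cfc fa t * cfc fa t, norm_le_one_of a0 ((le_add_of_nonneg_right m0).trans K1),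
    cfc fm t * cfc fm t, norm_le_one_of m0 ((le_add_of_nonneg_left a0).trans K1), q,
    norm_le_one_of q0 q1, (1 - q) * x, norm_le_one_of z0.1 z0.2, u,
    fun i => norm_le_one_of (u0 i) (u2 i), W, fun p => MU.amp_norm (φ0 _) hδ (L1 p) zero_le_one
      fun b => (norm_mul_le _ _).trans (mul_le_one₀ (w2 _ p).1 (norm_nonneg _) ((norm_dg _).trans_le
        (norm_le_one_of (rp_unit _ _ _).1 (rp_unit _ _ _).2))), d,
    ⟨a0, m0, K1, q0, c0 _ (c0 _ (Commute.refl t)).symm, cq (mul_mem (vt _) (vt _)),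
      cq (mul_mem (vt _) (vt _))⟩,
    ⟨(key' (mul_mem (t6 _) (t6 _))).1, (key' (mul_mem (t6 _) (t6 _))).1, (key' q2).1⟩,
    fun i => ?_, u1, fun r => ?_, ⟨?_, ?_, fun i => ?_⟩, fun p => ⟨?_, ?_, ?_, fun p' hp => ?_, ?_,
      by simpa only [map_one] using W3 p 1, fun l => ⟨W3 p _,
        by simpa only [map_star] using W3 p (star (S l))⟩⟩, fun i l => ?_⟩
  · rw [h0]
    exact ⟨u0 i, (u4 i).1, c0 _ (u5 i), c0 _ (u5 i), cq (u6 i), c0 _ ((key' t3).2.1 i _),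
      c0 _ ((key' t3).2.1 i _), cq (v2 i _), (u4 i).2.1 i _⟩
  · have a1 := cfc_mul_eq_self ts (t4 (.inl r)) fa_cont (f_high (by norm_num)).1
    have a2 := cfc_mul_eq_zero' ts (t4 (.inl r)) fm_cont (f_high (by norm_num)).2
    simp only [Sum.elim_inl] at a1 a2
    exact ⟨by rw [mul_assoc, a1, a1], by rw [mul_assoc, a2, mul_zero]⟩
  · rw [mul_assoc, ← mul_assoc x, (fr_x t).1]
  · rw [mul_assoc, ← mul_assoc x, (fr_x t).2]
  · have := uT_const (f i) 1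
    rw [map_one] at this
    rw [this]
    exact (x1.2.2 i _).symm
  · simpa using W1 1 p ((key' q2).2.2 _) fun b => by rw [(w2 b p).2.1, one_smul]
  · simpa using W1 1 p ((key' (mul_mem (t6 fa) (t6 fa))).2.2 _) fun b => by
      rw [mul_assoc, (w2 b p).2.2.1, (w2 b p).2.2.1, one_smul]
  · rw [← μ2]
    have a1 : ∀ ν : P → ℝ, (∑ p', ν p' • s p') * W p = ν p • W p := fun ν => by
      rw [Finset.sum_mul, Finset.sum_eq_single p (fun p' _ hp => by
        rw [smul_mul_assoc, W2, if_neg hp, zero_smul, smul_zero]) (by simp), smul_mul_assoc, W2,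
        if_pos rfl, one_smul]
    have a2 := a1 fun _ => 1
    simp only [one_smul] at a2
    simp only [u, add_mul, a1, ite_mul, sub_mul, a2, one_mul, sub_self, zero_mul, ite_self,
      add_zero]
    convert a1 _
  · have a1 := congrArg star (W2 p p)
    have a2 := W2 p' p
    rw [if_pos rfl, one_smul, star_mul, (G3 p).2.1.star_eq] at a1
    rw [← a1, mul_assoc, a2, if_neg hp, zero_smul, mul_zero]
  · rw [cf_eq _ (uφ_oz _).cp.one_nonneg.isSelfAdjoint, uφ_const_one]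
    have a1 := MU.amp_cfc (M := U p.2.2) (φ0 _) hδ (rp_cont δ 3) fun t ht =>
      rp_zero hδ (by norm_num) ht
    have a2 : ∀ b, Commute ((1 - q) * x) (dg (cfc (rp δ 3) (D ⟨p.2.2, b⟩))) := fun b => by
      rw [D1]; exact ((x1.2.2 _ _).symm.cfc_real _).symm
    change _ * (_ * cfc (rp δ 3) (φ p.2.2 1)) = _ * cfc (rp δ 3) (φ p.2.2 1)
    simp only [W]
    rw [← a1, MU.mul_amp (x1.2.2 _), MU.amp_star, MU.amp_mul (φ0 _) _ (L1 p), MU.amp_mul (φ0 _) _
      (MU.Loc.of (φ0 _) hδ (rp_cont δ 1) r0 fun b => by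
        rw [← D1 ⟨_, b⟩, ← D1 ⟨_, b⟩, (a2 b).eq, ← mul_assoc, ← map_mul, rp_tier (by norm_num)])]
    congr 1
    funext b
    have a3 : dg (cfc (rp δ 2) (D ⟨p.2.2, b⟩)) * ((1 - q) * x * dg (cfc (rp δ 3) (D ⟨p.2.2, b⟩))) =
        (1 - q) * x * dg (cfc (rp δ 3) (D ⟨p.2.2, b⟩)) := by
      rw [(a2 b).eq, ← mul_assoc, ← map_mul, rp_tier (by norm_num)]
    rw [← D1 ⟨_, b⟩]
    simp only [ω]
    rw [star_mul, ← map_star dg, IsSelfAdjoint.cfc.star_eq, mul_assoc, mul_assoc (w' _ _), a3,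
      mul_assoc (dg _), ← mul_assoc (star _), (w2 _ p).2.2.2.2.2, a3]
  · have := hd i (S l) (v1 l) (Cn_comm (key' t3).1 ⟨l, rfl⟩) (Cn_comm (u4 i).1 ⟨l, rfl⟩)
    rw [uT_const, show 1 - cfc fa t * cfc fa t - cfc fm t * cfc fm t = cfc fb t * cfc fb t by
      rw [← K0]; abel]
    exact this.trans (mul_le_of_le_one_right (by positivity) (S1 l))

end Pool.Agent.Lib.MP_30b5b4_an
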