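import Pool.Agent.Lib.MP_30b5b4_an.DefsL
import Pool.Agent.Lib.MP_30b5b4_an.S.Q2

/-! Extensions whose quotient has a composition series of finite decomposition rank. -/

open scoped CStarAlgebra ComplexOrder Topology
open Filter

set_option linter.unusedSectionVars false
set_option linter.style.haveILetI false
set_option linter.unusedVariables false
set_option linter.unusedSimpArgs false

namespace Pool.Agent.Lib.MP_30b5b4_an

universe u v w

lemma exists_lift_hom {B P D : Type*} [NonUnitalCStarAlgebra B] [NonUnitalCStarAlgebra P]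
    [NonUnitalCStarAlgebra D] (κ : P →⋆ₙₐ[ℂ] D) (hκ : Function.Injective κ) (f : B →⋆ₙₐ[ℂ] D)
    (h : ∀ b, f b ∈ Set.range κ) : ∃ g : B →⋆ₙₐ[ℂ] P, ∀ b, κ (g b) = f b := by
  choose g hg using h
  exact ⟨{ toFun := g
           map_smul' := fun c x => hκ (by rw [hg, map_smul, ← hg, ← map_smul]; rfl)
           map_mul' := fun x y => hκ (by rw [map_mul, hg, hg, hg, map_mul])
           map_zero' := hκ (by rw [hg, map_zero, map_zero])
           map_add' := fun x y => hκ (by rw [map_add, hg, hg, hg, map_add])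
           map_star' := fun x => hκ (by rw [map_star, hg, hg, map_star]) }, hg⟩

lemma nu_cont {B D : Type*} [NonUnitalCStarAlgebra B] [NonUnitalCStarAlgebra D]
    (p : B →⋆ₙₐ[ℂ] D) : Continuous p :=
  AddMonoidHomClass.continuous_of_bound p 1 fun a => by
    rw [one_mul]; exact NonUnitalStarAlgHom.norm_apply_le p a

variable {I : Type*} {E : Type w} {D : Type*} [NonUnitalCStarAlgebra I] [PartialOrder I]
  [StarOrderedRing I] [NonUnitalCStarAlgebra E] [PartialOrder E] [StarOrderedRing E]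
  [NonUnitalCStarAlgebra D] [PartialOrder D] [StarOrderedRing D]
  {ι : I →⋆ₙₐ[ℂ] E} {π : E →⋆ₙₐ[ℂ] D}

/-- the preimage of a subalgebra of the quotient -/
lemma Ext.pull (h : Ext ι π) {P : Type*} [NonUnitalCStarAlgebra P] [PartialOrder P]
    [StarOrderedRing P] (κ : P →⋆ₙₐ[ℂ] D) (k1 : Function.Injective κ) :
    ∃ (E' : Type w) (_ : NonUnitalCStarAlgebra E') (_ : PartialOrder E') (_ : StarOrderedRing E')
      (ι' : I →⋆ₙₐ[ℂ] E') (π' : E' →⋆ₙₐ[ℂ] P) (s : E' →⋆ₙₐ[ℂ] E), Ext ι' π' ∧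
      Function.Injective s ∧ ∀ x, x ∈ Set.range s ↔ π x ∈ Set.range κ := by
  let S : NonUnitalStarSubalgebra ℂ E := (NonUnitalStarAlgHom.range κ).comap π
  haveI : IsClosed (S : Set E) :=
    (NonUnitalStarAlgHom.isometry κ k1).isClosedEmbedding.isClosed_range.preimage (nu_cont π)
  letI := CStarAlgebra.spectralOrder S
  haveI := CStarAlgebra.spectralOrderedRing S
  let s : S →⋆ₙₐ[ℂ] E := NonUnitalStarSubalgebraClass.subtype S
  have z : ∀ b, π (ι b) = 0 := fun b => (h.ex _).2 ⟨b, rfl⟩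
  obtain ⟨ι', h1⟩ := exists_lift_hom s Subtype.val_injective ι fun b =>
    ⟨⟨ι b, 0, (map_zero κ).trans (z b).symm⟩, rfl⟩
  obtain ⟨π', h2⟩ := exists_lift_hom κ k1 (π.comp s) fun b => b.2
  replace h2 : ∀ b, κ (π' b) = π (s b) := h2
  refine ⟨S, inferInstance, inferInstance, inferInstance, ι', π', s, ⟨fun a b hab => h.inj ?_,
    fun y => ?_, fun x => ?_⟩, Subtype.val_injective,
    fun x => ⟨by rintro ⟨b, rfl⟩; exact b.2, fun hx => ⟨⟨x, hx⟩, rfl⟩⟩⟩
  · rw [← h1, ← h1, hab]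
  · obtain ⟨x, hx⟩ := h.surj (κ y)
    exact ⟨⟨x, y, hx.symm⟩, k1 ((h2 _).trans hx)⟩
  · rw [← k1.eq_iff, h2, map_zero, h.ex]
    exact exists_congr fun b => ⟨fun hb => Subtype.val_injective ((h1 b).trans hb),
      fun hb => (h1 b).symm.trans (congrArg s hb)⟩

lemma Ext.near (h : Ext ι π) (a : E) {ε : ℝ} (hε : 0 < ε) : ∃ b, ‖a - ι b‖ < ‖π a‖ + ε := by
  obtain ⟨t, t1, t2, t3, -, t5⟩ := h.idl.exists_qc' (Unitization.starMap π) h.ker (κ := Unit)
    fun _ => inc E a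
  have t0 := (hom_nonneg Ult.mk t2).isSelfAdjoint
  have h1 := t5 () (fun s => 1 - s) (by fun_prop) (by simp) fun x h0 h1 => by
    rw [abs_le]; constructor <;> linarith
  rw [cfc_sub _ _ _, cfc_const_one ℝ _ t0, cfc_id' ℝ _ t0, dg_apply, ← map_one Ult.mk, ← map_sub,
    ← map_mul] at h1
  have h2 : ‖Unitization.starMap π (inc E a)‖ ≤ ‖π a‖ :=
    (congrArg norm (Unitization.starMap_inr π a)).trans_le
      (NonUnitalStarAlgHom.norm_apply_le (inc D) _)
  obtain ⟨k, hk⟩ := (Ult.eventually_lt ((h1.trans h2).trans_lt (lt_add_of_pos_right _ hε))).exists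
  obtain ⟨b, hb⟩ := t1 k
  obtain ⟨c, hc⟩ := h.idl.left (inc E a) b
  refine ⟨c, ?_⟩
  rw [← NonUnitalStarAlgHom.norm_map _ (idl_inc E).inj, map_sub]
  change ‖inc E a - (inc E).comp ι c‖ < _
  rw [hc, hb]
  simpa [mul_sub] using hk

/-- nuclear dimension is determined by a dense family of ideals -/
theorem nucDimLE_of_ideals {n : ℕ} (h : ∀ (S : Finset E) (ε : ℝ), 0 < ε →
    ∃ (P : Type v) (_ : NonUnitalCStarAlgebra P) (_ : PartialOrder P) (_ : StarOrderedRing P)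
      (s : P →⋆ₙₐ[ℂ] E), Idl ((inc E).comp s) ∧ NucDimLE P n ∧ ∀ a ∈ S, ∃ b, ‖a - s b‖ < ε) :
    NucDimLE E n := by
  classical
  refine Ap.nucDimLE (d := False) (fun S ε hε => ?_) (idl_inc E).inj
  have hε' : 0 < ε / 5 := by positivity
  obtain ⟨P, _, _, _, s, hs, hP, hb⟩ := h S _ hε'
  choose! b hb using hb
  have hu := CStarAlgebra.increasingApproximateUnit P
  haveI := hu.neBot
  obtain ⟨e, e0, e1, e2⟩ := (hu.eventually_nonneg.and (hu.eventually_norm.and
    ((Filter.eventually_all_finset S).2 fun a _ =>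
      ((Metric.tendsto_nhds.1 (hu.tendsto_mul_right (b a)) _ hε').and
        (Metric.tendsto_nhds.1 (hu.tendsto_mul_left (b a)) _ hε'))))).exists
  set j := (inc E).comp s with hj
  have n1 : ∀ x, ‖j x‖ ≤ ‖x‖ := NonUnitalStarAlgHom.norm_apply_le j
  have w1 : ‖j e‖ ≤ 1 := (n1 e).trans e1
  obtain ⟨L, hL, hc⟩ := hs.compress ⟨e, rfl⟩ (nu_nonneg j e0) (le_one_of_norm (nu_nonneg j e0) w1)
  obtain ⟨c, -, c2⟩ := hP.ap j (S.image fun a => L (inc E a)) _ hε'
  choose c' d1 d2 d3 using fun i => hc (c i)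
  refine ⟨fun i => { c' i with
    ψ := (c' i).ψ ∘ₗ (inc E : E →ₗ[ℂ] E⁺¹)
    cp := (c' i).cp.comp_half (fun a => inc E a) fun a a' => by
      rw [← map_star, ← map_mul]; rfl
    le := fun a => ((c' i).le _).trans (NonUnitalStarAlgHom.norm_apply_le (inc E) a)
    mem := fun x => by
      obtain ⟨y, hy⟩ := d1 i x
      exact ⟨s y, hy⟩ }, False.elim, fun a ha => ?_⟩
  have a1 := c2 _ (Finset.mem_image_of_mem _ ha)
  have a2 : ‖inc E a - j (b a)‖ ≤ ε / 5 := by
    rw [hj, NonUnitalStarAlgHom.comp_apply, ← map_sub]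
    exact (NonUnitalStarAlgHom.norm_apply_le _ _).trans (hb a ha).le
  have a3 : ‖j e * j (b a) - j (b a)‖ ≤ ε / 5 := by
    rw [← map_mul, ← map_sub]
    exact (n1 _).trans (by simpa [dist_eq_norm] using (e2 a ha).1.le)
  have a4 : ‖j (b a) * j e - j (b a)‖ ≤ ε / 5 := by
    rw [← map_mul, ← map_sub]
    exact (n1 _).trans (by simpa [dist_eq_norm] using (e2 a ha).2.le)
  rw [hL] at a1
  simp only [← d3] at a1
  change ‖∑ i, (c' i).T (inc E a) - inc E a‖ ≤ ε
  generalize ∑ i, (c' i).T (inc E a) = X at a1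
  generalize inc E a = x at a1 a2
  generalize j (b a) = y at a2 a3 a4
  generalize j e = u at a1 a3 a4 w1
  have a5 : X - x = (X - u * x * u) + u * (x - y) * u + u * (y * u - y) + (u * y - y) - (x - y) := by
    noncomm_ring
  have a6 : ‖u * (x - y) * u‖ ≤ 1 * (ε / 5) * 1 :=
    norm_mul_le_of_le (norm_mul_le_of_le w1 a2) w1
  have a7 : ‖u * (y * u - y)‖ ≤ 1 * (ε / 5) := norm_mul_le_of_le w1 a4
  rw [a5]
  refine (norm_sub_le_of_le (norm_add_le_of_le (norm_add_le_of_le (norm_add_le_of_le a1 a6) a7) a3)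
    a2).trans (le_of_eq (by ring))

theorem Layered.good {n : ℕ} {D : Type u} [NonUnitalCStarAlgebra D] (h : Layered n D) :
    ∀ [PartialOrder D] [StarOrderedRing D] (I E : Type w) [NonUnitalCStarAlgebra I]
      [PartialOrder I] [StarOrderedRing I] [NonUnitalCStarAlgebra E] [PartialOrder E]
      [StarOrderedRing E] (ι : I →⋆ₙₐ[ℂ] E) (π : E →⋆ₙₐ[ℂ] D), Ext ι π → ∀ m, n ≤ m →
      NucDimLE I m → NucDimLE E m := by
  induction h with
  | @dr A _ o1 o2 h =>
    intro _ _ I E _ _ _ _ _ _ ι π he m hm hI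
    have := @Ext.max I E A _ _ _ _ _ _ _ o1 o2 ι π
      (@Ext.mk I E A _ _ _ ι π he.inj he.surj he.ex) _ _ hI h
    rwa [max_eq_left hm] at this
  | ext J A Q κ p k1 k2 k3 _ _ ihJ ihQ =>
    intro _ _ I E _ _ _ _ _ _ ι π he m hm hI
    letI := CStarAlgebra.spectralOrder J
    haveI := CStarAlgebra.spectralOrderedRing J
    letI := CStarAlgebra.spectralOrder Q
    haveI := CStarAlgebra.spectralOrderedRing Q
    obtain ⟨E', _, _, _, ι', π', s, h1, h2, h3⟩ := he.pull κ k1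
    exact ihQ E' E s (p.comp π) ⟨h2, k2.comp he.surj, fun x => (k3 _).trans (h3 x).symm⟩ m hm
      (ihJ I E' ι' π' h1 m hm hI)
  | lim A κ J f k1 k2 k3 k4 _ ih =>
    intro _ _ I E _ _ _ _ _ _ ι π he m hm hI
    classical
    refine nucDimLE_of_ideals.{w} fun S ε hε => ?_
    have a1 : ∀ a : E, ∃ k y, ‖π a - f k y‖ < ε / 2 := fun a => by
      obtain ⟨_, h1, h2⟩ := Metric.mem_closure_iff.1 (k4 (π a)) _ (half_pos hε)
      obtain ⟨k, y, rfl⟩ := Set.mem_iUnion.1 h1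
      exact ⟨k, y, by rwa [← dist_eq_norm]⟩
    choose k y hy using a1
    obtain ⟨l, hl⟩ := k3.finset_le (S.image k)
    letI := CStarAlgebra.spectralOrder (J l)
    haveI := CStarAlgebra.spectralOrderedRing (J l)
    obtain ⟨E', _, _, _, ι', π', s, h1, h2, h3⟩ := he.pull (f l) (k1 l)
    have h4 : ∀ b, π (s b) ∈ Set.range (f l) := fun b => (h3 _).1 ⟨b, rfl⟩
    refine ⟨E', inferInstance, inferInstance, inferInstance, s,
      ⟨(idl_inc E).inj.comp h2, fun a b => ?_⟩, ih l I E' ι' π' h1 m hm hI, fun a ha => ?_⟩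
    · obtain ⟨z, hz⟩ := h4 b
      obtain ⟨z', hz'⟩ := k2 l (π a.snd) z
      obtain ⟨c, hc⟩ := (h3 (a.fst • s b + a.snd * s b)).2 ⟨a.fst • z + z', by
        rw [map_add, map_add, map_smul, map_smul, map_mul, hz', hz]⟩
      exact ⟨c, (congrArg (inc E) hc).trans (inc_mul a _)⟩
    · obtain ⟨x, hx⟩ := he.surj (f (k a) (y a))
      obtain ⟨r, hr⟩ := he.near (a - x) (half_pos hε)
      obtain ⟨z, hz⟩ := hl _ (Finset.mem_image_of_mem k ha) ⟨y a, rfl⟩
      obtain ⟨c, hc⟩ := (h3 (x + ι r)).2 ⟨z, by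
        rw [map_add, hx, hz, (he.ex _).2 ⟨r, rfl⟩, add_zero]⟩
      refine ⟨c, ?_⟩
      rw [map_sub, hx] at hr
      rw [hc, ← sub_sub]
      linarith [hy a]

theorem Ext.layered {D : Type u} [NonUnitalCStarAlgebra D] [PartialOrder D] [StarOrderedRing D]
    {π : E →⋆ₙₐ[ℂ] D} (h : Ext ι π) {n m : ℕ} (hI : NucDimLE I n) (hD : Layered m D) :
    NucDimLE E (Max.max n m) := by
  haveI : IsClosed (NonUnitalStarAlgHom.range ι : Set E) :=
    (NonUnitalStarAlgHom.isometry ι h.inj).isClosedEmbedding.isClosed_range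
  letI := CStarAlgebra.spectralOrder (NonUnitalStarAlgHom.range ι)
  haveI := CStarAlgebra.spectralOrderedRing (NonUnitalStarAlgHom.range ι)
  refine hD.good (NonUnitalStarAlgHom.range ι) E (NonUnitalStarSubalgebraClass.subtype _) π
    ⟨Subtype.val_injective, h.surj, fun x => (h.ex x).trans
      ⟨fun hx => ⟨⟨x, hx⟩, rfl⟩, by rintro ⟨b, rfl⟩; exact b.2⟩⟩ _ (le_max_right _ _)
    ((hI.of_surj (NonUnitalStarAlgHom.rangeRestrict ι) ?_).mono' (le_max_left _ _))
  rintro ⟨_, x, rfl⟩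
  exact ⟨x, rfl⟩

theorem Ext.nucDim_le_layer {D : Type u} [NonUnitalCStarAlgebra D] [PartialOrder D]
    [StarOrderedRing D] {π : E →⋆ₙₐ[ℂ] D} (h : Ext ι π) :
    nucDim E ≤ Max.max (nucDim I) (layerRank D) := by
  rcases iInf_cases (NucDimLE I) with h1 | ⟨n, hn, h1⟩
  · rw [nucDim.eq_def I, h1]; simp
  rcases iInf_cases (fun n => Layered n D) with h2 | ⟨m, hm, h2⟩
  · rw [layerRank.eq_def D, h2]; simp
  rw [nucDim.eq_def I, layerRank.eq_def D, h1, h2, ← Nat.mono_cast.map_max]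
  exact iInf₂_le _ (h.layered hn hm)

end Pool.Agent.Lib.MP_30b5b4_an
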