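import Pool.Agent.Lib.MP_30b5b4_an.OZ

/-! Matrix units in finite-dimensional C*-algebras. -/

open scoped CStarAlgebra ComplexOrder

set_option linter.unusedSectionVars false
set_option linter.style.haveILetI false

namespace Pool.Agent.Lib.MP_30b5b4_an

variable {F : Type*} [CStarAlgebra F]

structure MU (F : Type*) [CStarAlgebra F] where
  N : ℕ
  cl : Fin N → Fin N
  v : Fin N → F
  c : Fin N → Fin N → F →ₗ[ℂ] ℂ
  orth : ∀ i j, i ≠ j → star (v i) * v j = 0
  init : ∀ i j, cl i = cl j → star (v i) * v i = star (v j) * v j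
  proj : ∀ i, IsStarProjection (star (v i) * v i)
  ne : ∀ i, v i ≠ 0
  sum : ∑ i, v i * star (v i) = 1
  coef : ∀ i j x, star (v i) * x * v j = c i j x • (star (v i) * v i)
  zero : ∀ i j x, cl i ≠ cl j → c i j x = 0

lemma mul_init_of_proj {v : F} (h : IsStarProjection (star v * v)) : v * (star v * v) = v := by
  have : v * (1 - star v * v) = 0 := by
    apply (CStarRing.star_mul_self_eq_zero_iff _).1
    rw [star_mul, h.one_sub.isSelfAdjoint.star_eq, mul_assoc, ← mul_assoc (star v),
      h.mul_one_sub_self, mul_zero]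
  rwa [mul_sub, mul_one, sub_eq_zero, eq_comm] at this

lemma range_proj {v : F} (h : IsStarProjection (star v * v)) : IsStarProjection (v * star v) := by
  refine ⟨?_, by simp [IsSelfAdjoint]⟩
  rw [IsIdempotentElem, mul_assoc, ← mul_assoc (star v), ← mul_assoc, mul_init_of_proj h]

lemma exists_minimal_family [FiniteDimensional ℂ F] :
    ∃ (N : ℕ) (p : Fin N → F), (∀ i, IsStarProjection (p i)) ∧ (∀ i, p i ≠ 0) ∧
      (∀ i j, i ≠ j → p i * p j = 0) ∧ ∑ i, p i = 1 ∧
      ∀ i x, ∃ c : ℂ, p i * x * p i = c • p i := by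
  classical
  let P : Finset F → Prop := fun s => (∀ p ∈ s, IsStarProjection p) ∧ (∀ p ∈ s, p ≠ 0) ∧
    (∀ p ∈ s, ∀ q ∈ s, p ≠ q → p * q = 0) ∧ ∑ p ∈ s, p = 1
  have hb : ∀ s, P s → s.card ≤ Module.finrank ℂ F := by
    rintro s ⟨h1, h2, h3, -⟩
    have : LinearIndependent ℂ (fun p : s => (p : F)) := by
      rw [Fintype.linearIndependent_iff]
      intro g hg p
      have := congrArg (fun x => (p : F) * x) hg
      simp only [Finset.mul_sum, mul_smul_comm, mul_zero] at this
      rw [Finset.sum_eq_single p, (h1 p p.2).isIdempotentElem.eq] at this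
      · exact (smul_eq_zero.1 this).resolve_right (h2 p p.2)
      · intro q _ hq
        rw [h3 p p.2 q q.2 (fun h => hq (Subtype.ext h).symm), smul_zero]
      · simp
    simpa using this.fintype_card_le_finrank
  have hne : ∃ s, P s := by
    rcases subsingleton_or_nontrivial F with h | h
    · exact ⟨∅, by simp, by simp, by simp, Subsingleton.elim _ _⟩
    · exact ⟨{1}, by simp, by simp, by simp, by simp⟩
  obtain ⟨s, hs, hmax⟩ : ∃ s, P s ∧ ∀ t, P t → t.card ≤ s.card := by
    obtain ⟨s, hs, hm⟩ := Set.exists_max_image (Finset.card '' {s | P s}) id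
      ((Set.finite_le_nat (Module.finrank ℂ F)).subset (by rintro _ ⟨s, hs, rfl⟩; exact hb s hs))
      (hne.imp' Finset.card fun s hs => ⟨s, hs, rfl⟩)
    obtain ⟨s, hs, rfl⟩ := hs
    exact ⟨s, hs, fun t ht => hm _ ⟨t, ht, rfl⟩⟩
  obtain ⟨h1, h2, h3, h4⟩ := hs
  have hmin : ∀ p ∈ s, ∀ e, IsStarProjection e → p * e = e → e = 0 ∨ e = p := by
    intro p hp e he hpe
    by_contra hcon
    push Not at hcon
    have hep : e * p = e := by
      have := congrArg star hpe
      rwa [star_mul, he.isSelfAdjoint.star_eq, (h1 p hp).isSelfAdjoint.star_eq] at this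
    have hf : IsStarProjection (p - e) := he.sub_of_mul_eq_right (h1 p hp) hpe
    have hf0 : p - e ≠ 0 := sub_ne_zero.2 hcon.2.symm
    have hef : e * (p - e) = 0 := by rw [mul_sub, hep, he.isIdempotentElem.eq, sub_self]
    have hfe : (p - e) * e = 0 := by rw [sub_mul, hpe, he.isIdempotentElem.eq, sub_self]
    have heq : ∀ q ∈ s.erase p, e * q = 0 ∧ q * e = 0 ∧ (p - e) * q = 0 ∧ q * (p - e) = 0 := by
      intro q hq
      obtain ⟨hq1, hq2⟩ := Finset.mem_erase.1 hq
      have a1 : e * q = 0 := by rw [← hep, mul_assoc, h3 p hp q hq2 hq1.symm, mul_zero]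
      have a2 : q * e = 0 := by rw [← hpe, ← mul_assoc, h3 q hq2 p hp hq1, zero_mul]
      refine ⟨a1, a2, ?_, ?_⟩
      · rw [sub_mul, a1, h3 p hp q hq2 hq1.symm, sub_zero]
      · rw [mul_sub, a2, h3 q hq2 p hp hq1, sub_zero]
    have n1 : p - e ∉ s.erase p := fun h => hf0 (by
      rw [← hf.isIdempotentElem.eq]; exact (heq _ h).2.2.1)
    have n2 : e ∉ insert (p - e) (s.erase p) := by
      intro h
      rcases Finset.mem_insert.1 h with h | h
      · apply hcon.1
        rw [← he.isIdempotentElem.eq]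
        conv_lhs => enter [2]; rw [h]
        exact hef
      · exact hcon.1 (by rw [← he.isIdempotentElem.eq]; exact (heq _ h).1)
    have := hmax (insert e (insert (p - e) (s.erase p))) ⟨?_, ?_, ?_, ?_⟩
    · rw [Finset.card_insert_of_notMem n2, Finset.card_insert_of_notMem n1,
        Finset.card_erase_of_mem hp] at this
      have := Finset.card_pos.2 ⟨p, hp⟩
      omega
    · intro q hq
      simp only [Finset.mem_insert] at hq
      rcases hq with rfl | rfl | hq
      exacts [he, hf, h1 q (Finset.mem_of_mem_erase hq)]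
    · intro q hq
      simp only [Finset.mem_insert] at hq
      rcases hq with rfl | rfl | hq
      exacts [hcon.1, hf0, h2 q (Finset.mem_of_mem_erase hq)]
    · intro q hq r hr hqr
      simp only [Finset.mem_insert] at hq hr
      rcases hq with rfl | rfl | hq <;> rcases hr with rfl | rfl | hr
      · exact absurd rfl hqr
      · exact hef
      · exact (heq _ hr).1
      · exact hfe
      · exact absurd rfl hqr
      · exact (heq _ hr).2.2.1
      · exact (heq _ hq).2.1
      · exact (heq _ hq).2.2.2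
      · exact h3 q (Finset.mem_of_mem_erase hq) r (Finset.mem_of_mem_erase hr) hqr
    · rw [Finset.sum_insert n2, Finset.sum_insert n1, ← h4, ← Finset.add_sum_erase s _ hp]
      abel
  have hsa : ∀ p ∈ s, ∀ x, IsSelfAdjoint x → ∃ c : ℂ, p * x * p = c • p := by
    intro p hp x hx
    have hp' := h1 p hp
    set y := p * x * p with hy
    have hys : IsSelfAdjoint y := by
      rw [IsSelfAdjoint, hy, star_mul, star_mul, hx.star_eq, hp'.isSelfAdjoint.star_eq, mul_assoc]
    have hpy : p * y = y := by rw [hy, ← mul_assoc, ← mul_assoc, hp'.isIdempotentElem.eq]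
    have : y ∈ Submodule.span ℂ {p} := by
      rw [fd_spectral hys]
      refine Submodule.sum_mem _ fun t _ => ?_
      rcases eq_or_ne t 0 with rfl | ht
      · simp
      have he := fd_proj y (fun s : ℝ => if s = t then 1 else 0) fun s => by split_ifs <;> simp
      have h5 : cfc (fun s : ℝ => if s = t then (1 : ℝ) else 0) y
          = y * cfc (fun s : ℝ => if s = t then t⁻¹ else 0) y := by
        conv_rhs => enter [1]; rw [← cfc_id' ℝ y]
        rw [← cfc_mul _ _ y (fd_cont y _) (fd_cont y _)]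
        congr 1
        funext s
        split_ifs with h
        · rw [h, mul_inv_cancel₀ ht]
        · simp
      rcases hmin p hp _ he (by rw [h5, ← mul_assoc, hpy]) with h | h
      · simp [h]
      · rw [h, ← Complex.coe_smul]
        exact Submodule.smul_mem _ _ (Submodule.mem_span_singleton_self p)
    obtain ⟨c, hc⟩ := Submodule.mem_span_singleton.1 this
    exact ⟨c, hc.symm⟩
  let e := s.equivFin.symm
  refine ⟨s.card, fun i => e i, fun i => h1 _ (e i).2, fun i => h2 _ (e i).2,
    fun i j hij => h3 _ (e i).2 _ (e j).2 fun h => hij (e.injective (Subtype.ext h)), ?_, ?_⟩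
  · rw [← h4, ← Finset.sum_coe_sort s]
    exact e.sum_comp (fun p : s => (p : F))
  · intro i x
    obtain ⟨a, ha⟩ := hsa _ (e i).2 _ (realPart x).2
    obtain ⟨b, hb⟩ := hsa _ (e i).2 _ (imaginaryPart x).2
    refine ⟨a + Complex.I * b, ?_⟩
    rw [← realPart_add_I_smul_imaginaryPart x, mul_add, add_mul, mul_smul_comm, smul_mul_assoc,
      ha, hb, add_smul, mul_smul]

lemma exists_isometry {p q u : F} (hp : IsStarProjection p) (hq : IsStarProjection q)
    (hu : u ≠ 0) (hpu : p * u = u) (huq : u * q = u)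
    (h1 : ∀ x, ∃ c : ℂ, p * x * p = c • p) (h2 : ∀ x, ∃ c : ℂ, q * x * q = c • q) :
    ∃ v : F, star v * v = q ∧ v * star v = p := by
  have hqu : q * star u = star u := by
    have := congrArg star huq
    rwa [star_mul, hq.isSelfAdjoint.star_eq] at this
  have hup : star u * p = star u := by
    have := congrArg star hpu
    rwa [star_mul, hp.isSelfAdjoint.star_eq] at this
  obtain ⟨a, ha⟩ := h2 (star u * u)
  obtain ⟨b, hb⟩ := h1 (u * star u)
  rw [← mul_assoc, hqu, mul_assoc, huq] at ha
  rw [← mul_assoc, hpu, mul_assoc, hup] at hb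
  have hq0 : q ≠ 0 := by rintro rfl; exact hu (by rw [← huq, mul_zero])
  have hp0 : p ≠ 0 := by rintro rfl; exact hu (by rw [← hpu, zero_mul])
  have hu0 : 0 < ‖u‖ := norm_pos_iff.2 hu
  letI := CStarAlgebra.spectralOrder F
  haveI := CStarAlgebra.spectralOrderedRing F
  have key : ∀ {r y : F} {a : ℂ}, IsStarProjection r → r ≠ 0 → 0 ≤ y → y = a • r →
      a = (‖y‖ : ℝ) := by
    intro r y a hr hr0 hy hya
    haveI : Nontrivial F := ⟨⟨r, 0, hr0⟩⟩
    have n1 : ‖r‖ = 1 := by
      have := CStarRing.norm_star_mul_self (x := r)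
      rw [hr.isSelfAdjoint.star_eq, hr.isIdempotentElem.eq] at this
      have h0 : ‖r‖ ≠ 0 := norm_ne_zero_iff.2 hr0
      field_simp at this
      exact this.symm
    have s1 : star a = a := by
      have := hy.star_eq
      rw [hya, star_smul, hr.isSelfAdjoint.star_eq] at this
      exact smul_left_injective ℂ hr0 this
    obtain ⟨t, rfl⟩ : ∃ t : ℝ, a = t := ⟨a.re, (Complex.conj_eq_iff_re.1 s1).symm⟩
    have ht : 0 ≤ t := by
      by_contra hneg
      push Not at hneg
      have h3 : 0 ≤ (-t⁻¹) • y := smul_nonneg (by simp [hneg.le]) hy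
      rw [hya, Complex.coe_smul, smul_smul, neg_mul, inv_mul_cancel₀ hneg.ne, neg_smul,
        one_smul, Left.nonneg_neg_iff] at h3
      exact hr0 (le_antisymm h3 hr.nonneg)
    rw [hya, norm_smul, n1, mul_one, Complex.norm_real, Real.norm_of_nonneg ht]
  have ea := key hq hq0 (star_mul_self_nonneg u) ha
  have eb := key hp hp0 (mul_star_self_nonneg u) hb
  rw [CStarRing.norm_star_mul_self] at ea
  rw [CStarRing.norm_self_mul_star] at eb
  refine ⟨((‖u‖⁻¹ : ℝ) : ℂ) • u, ?_, ?_⟩
  · rw [star_smul, smul_mul_smul_comm, ha, ea, smul_smul, Complex.star_def, Complex.conj_ofReal,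
      ← Complex.ofReal_mul, ← Complex.ofReal_mul]
    rw [show ‖u‖⁻¹ * ‖u‖⁻¹ * (‖u‖ * ‖u‖) = 1 by field_simp]
    simp
  · rw [star_smul, smul_mul_smul_comm, hb, eb, smul_smul, Complex.star_def, Complex.conj_ofReal,
      ← Complex.ofReal_mul, ← Complex.ofReal_mul]
    rw [show ‖u‖⁻¹ * ‖u‖⁻¹ * (‖u‖ * ‖u‖) = 1 by field_simp]
    simp

lemma exists_MU (F : Type*) [CStarAlgebra F] [FiniteDimensional ℂ F] : Nonempty (MU F) := by
  classical
  obtain ⟨N, p, h1, h2, h3, h4, h5⟩ := exists_minimal_family (F := F)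
  let r : Fin N → Fin N → Prop := fun i j => ∃ v : F, star v * v = p j ∧ v * star v = p i
  have hr : ∀ i j x, p i * x * p j ≠ 0 → r i j := fun i j x hx =>
    exists_isometry (h1 i) (h1 j) hx
      (by rw [← mul_assoc, ← mul_assoc, (h1 i).isIdempotentElem.eq])
      (by rw [mul_assoc, (h1 j).isIdempotentElem.eq]) (h5 i) (h5 j)
  let S : Setoid (Fin N) := ⟨r, ⟨fun i => ⟨p i, by
      rw [(h1 i).isSelfAdjoint.star_eq, (h1 i).isIdempotentElem.eq], by
      rw [(h1 i).isSelfAdjoint.star_eq, (h1 i).isIdempotentElem.eq]⟩,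
    fun ⟨v, a, b⟩ => ⟨star v, by simpa using b, by simpa using a⟩,
    fun {i j k} ⟨v, a, b⟩ ⟨w, c, d⟩ => ⟨v * w, by
      rw [star_mul, mul_assoc, ← mul_assoc (star v), a, ← d, mul_assoc, ← mul_assoc (star w),
        c, (h1 k).isIdempotentElem.eq], by
      rw [star_mul, mul_assoc, ← mul_assoc w, d, ← a, mul_assoc, ← mul_assoc v,
        b, (h1 i).isIdempotentElem.eq]⟩⟩⟩
  let cl : Fin N → Fin N := fun i => Quotient.out (Quotient.mk S i)
  have hcl : ∀ i, r i (cl i) := fun i => S.symm (Quotient.mk_out (s := S) i)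
  have hcl' : ∀ i j, r (cl i) (cl j) → cl i = cl j := fun i j h =>
    congrArg Quotient.out (Quotient.sound (S.trans (hcl i) (S.trans h (S.symm (hcl j)))))
  choose v hv1 hv2 using hcl
  have hvp : ∀ i, v i * p (cl i) = v i := fun i => by
    rw [← hv1]; exact mul_init_of_proj (by rw [hv1]; exact h1 _)
  have hpv : ∀ i, p i * v i = v i := fun i => by rw [← hv2, mul_assoc, hv1, hvp]
  have hpv' : ∀ i, p (cl i) * star (v i) = star (v i) := fun i => by
    have := congrArg star (hvp i)
    rwa [star_mul, (h1 _).isSelfAdjoint.star_eq] at this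
  have hvp' : ∀ i, star (v i) * p i = star (v i) := fun i => by
    have := congrArg star (hpv i)
    rwa [star_mul, (h1 _).isSelfAdjoint.star_eq] at this
  have hc : ∀ i j x, ∃ c : ℂ, star (v i) * x * v j = c • p (cl i) ∧ (cl i ≠ cl j → c = 0) := by
    intro i j x
    have e : star (v i) * x * v j = p (cl i) * (star (v i) * x * v j) * p (cl j) := by
      rw [← mul_assoc, ← mul_assoc, hpv', mul_assoc _ (v j), hvp]
    by_cases h : cl i = cl j
    · obtain ⟨c, hc⟩ := h5 (cl i) (star (v i) * x * v j)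
      exact ⟨c, by rw [e, ← h, hc], fun h' => absurd h h'⟩
    · refine ⟨0, ?_, fun _ => rfl⟩
      rw [zero_smul]
      by_contra hne
      rw [e] at hne
      exact h (hcl' _ _ (hr _ _ _ hne))
  choose c hc1 hc2 using hc
  refine ⟨⟨N, cl, v, fun i j => ⟨⟨c i j, fun x y => ?_⟩, fun a x => ?_⟩, fun i j hij => ?_,
    fun i j h => by rw [hv1, hv1, h], fun i => by rw [hv1]; exact h1 _, fun i h => ?_, ?_,
    fun i j x => by rw [hv1]; exact hc1 i j x, fun i j x => hc2 i j x⟩⟩
  · apply smul_left_injective ℂ (h2 (cl i))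
    simp only [add_smul, ← hc1, mul_add, add_mul]
  · apply smul_left_injective ℂ (h2 (cl i))
    simp only [RingHom.id_apply, smul_eq_mul, mul_smul, ← hc1, mul_smul_comm, smul_mul_assoc]
  · rw [← hvp', ← hpv j, mul_assoc, ← mul_assoc (p i), h3 i j hij, zero_mul, mul_zero]
  · exact h2 i (by rw [← hv2, h, zero_mul])
  · simp only [hv2, h4]

namespace MU
variable (M : MU F)

lemma q_ne (i : Fin M.N) : star (M.v i) * M.v i ≠ 0 := fun h =>
  M.ne i ((CStarRing.star_mul_self_eq_zero_iff _).1 h)

lemma v_q (i : Fin M.N) : M.v i * (star (M.v i) * M.v i) = M.v i := mul_init_of_proj (M.proj i)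

lemma norm_v (i : Fin M.N) : ‖M.v i‖ ≤ 1 := by
  have := (M.proj i).norm_le
  rw [CStarRing.norm_star_mul_self] at this
  nlinarith [norm_nonneg (M.v i)]

lemma c_mul (i j : Fin M.N) (x y : F) : M.c i j (x * y) = ∑ m, M.c i m x * M.c m j y := by
  apply smul_left_injective ℂ (M.q_ne i)
  simp only
  rw [← M.coef, Finset.sum_smul]
  have : star (M.v i) * (x * y) * M.v j
      = ∑ m, (star (M.v i) * x * M.v m) * (star (M.v m) * y * M.v j) := by
    conv_lhs => rw [← one_mul y, ← M.sum]
    simp only [Finset.mul_sum, Finset.sum_mul, mul_assoc]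
  rw [this]
  refine Finset.sum_congr rfl fun m _ => ?_
  rw [M.coef, M.coef, smul_mul_smul_comm]
  by_cases h : M.cl i = M.cl m
  · rw [← M.init i m h, (M.proj i).isIdempotentElem.eq]
  · rw [M.zero i m x h]; simp

lemma c_star (i j : Fin M.N) (x : F) : M.c i j (star x) = star (M.c j i x) := by
  by_cases h : M.cl i = M.cl j
  · apply smul_left_injective ℂ (M.q_ne i)
    simp only
    have := congrArg star (M.coef j i x)
    rw [star_mul, star_mul, star_star, star_smul, (M.proj j).isSelfAdjoint.star_eq,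
      ← M.init i j h, ← mul_assoc] at this
    rw [← M.coef, this]
  · rw [M.zero i j _ h, M.zero j i _ (Ne.symm h), star_zero]

lemma c_one (i j : Fin M.N) : M.c i j 1 = if i = j then 1 else 0 := by
  apply smul_left_injective ℂ (M.q_ne i)
  simp only
  rw [← M.coef, mul_one]
  split_ifs with h
  · rw [h, one_smul]
  · rw [M.orth i j h, zero_smul]

lemma norm_c (i j : Fin M.N) (x : F) : ‖M.c i j x‖ ≤ ‖x‖ := by
  have n1 : ‖star (M.v i) * M.v i‖ = 1 := by
    have := CStarRing.norm_star_mul_self (x := star (M.v i) * M.v i)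
    rw [(M.proj i).isSelfAdjoint.star_eq, (M.proj i).isIdempotentElem.eq] at this
    have h0 : ‖star (M.v i) * M.v i‖ ≠ 0 := norm_ne_zero_iff.2 (M.q_ne i)
    field_simp at this
    exact this.symm
  have := congrArg norm (M.coef i j x)
  rw [norm_smul, n1, mul_one] at this
  rw [← this]
  calc _ ≤ ‖star (M.v i)‖ * ‖x‖ * ‖M.v j‖ := norm_mul₃_le
    _ ≤ 1 * ‖x‖ * 1 := by
      gcongr
      · rw [norm_star]; exact M.norm_v i
      · exact M.norm_v j
    _ = _ := by ring

lemma recon (x : F) : x = ∑ i, ∑ j, M.c i j x • (M.v i * star (M.v j)) := by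
  conv_lhs => rw [← one_mul x, ← mul_one (1 * x), ← M.sum]
  simp only [Finset.mul_sum, Finset.sum_mul]
  rw [Finset.sum_comm]
  refine Finset.sum_congr rfl fun i _ => Finset.sum_congr rfl fun j _ => ?_
  have : M.v i * star (M.v i) * x * (M.v j * star (M.v j))
      = M.v i * (star (M.v i) * x * M.v j) * star (M.v j) := by simp only [mul_assoc]
  rw [this, M.coef, mul_smul_comm, M.v_q, smul_mul_assoc]

variable {B : Type*} [CStarAlgebra B] [PartialOrder B] [StarOrderedRing B]

noncomputable def build (w : Fin M.N → B) : F →ₗ[ℂ] B :=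
  ∑ i, ∑ j, (M.c i j).smulRight (w i * star (w j))

lemma build_apply (w : Fin M.N → B) (x : F) :
    M.build w x = ∑ i, ∑ j, M.c i j x • (w i * star (w j)) := by
  simp [build]

lemma build_one (w : Fin M.N → B) : M.build w 1 = ∑ i, w i * star (w i) := by
  simp [build_apply, c_one]

lemma build_cp (w : Fin M.N → B) : IsCP (M.build w) := by
  intro n a b
  have e : ∑ k, ∑ l, star (b k) * M.build w (star (a k) * a l) * b l
      = ∑ m, star (∑ l, ∑ j, M.c m j (a l) • (star (w j) * b l))
          * (∑ l, ∑ j, M.c m j (a l) • (star (w j) * b l)) := by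
    simp only [build_apply, c_mul, c_star, star_sum, star_smul, star_mul, star_star,
      Finset.mul_sum, Finset.sum_mul, Finset.sum_smul, mul_smul_comm,
      smul_mul_assoc, Finset.smul_sum, smul_smul, mul_assoc]
    conv_rhs => rw [Finset.sum_comm]; enter [2, l]; rw [Finset.sum_comm]; enter [2, j]
                rw [Finset.sum_comm]; enter [2, k]; rw [Finset.sum_comm]
    conv_lhs => rw [Finset.sum_comm]; enter [2, l, 2, k]; rw [Finset.sum_comm]
    conv_lhs => enter [2, l]; rw [Finset.sum_comm]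
    simp only [mul_comm]
  rw [e]
  exact Finset.sum_nonneg fun m _ => star_mul_self_nonneg _

structure Rel (w : Fin M.N → B) : Prop where
  orth : ∀ i j, i ≠ j → star (w i) * w j = 0
  init : ∀ i j, M.cl i = M.cl j → star (w i) * w i = star (w j) * w j

variable {M}

lemma Rel.build_mul {w : Fin M.N → B} (h : M.Rel w) (x y : F) :
    M.build w x * M.build w y
      = ∑ i, ∑ l, M.c i l (x * y) • (w i * (star (w i) * w i) * star (w l)) := by
  simp only [build_apply, c_mul, Finset.sum_mul, Finset.sum_smul]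
  refine Finset.sum_congr rfl fun i _ => ?_
  conv_rhs => rw [Finset.sum_comm]
  refine Finset.sum_congr rfl fun j _ => ?_
  rw [Finset.mul_sum, Finset.sum_eq_single j]
  · rw [Finset.mul_sum]
    refine Finset.sum_congr rfl fun l _ => ?_
    rw [smul_mul_smul_comm]
    by_cases hij : M.cl i = M.cl j
    · rw [h.init i j hij]; simp only [mul_assoc]
    · simp [M.zero i j x hij]
  · intro k _ hk
    rw [Finset.mul_sum]
    refine Finset.sum_eq_zero fun l _ => ?_
    rw [smul_mul_smul_comm, mul_assoc, ← mul_assoc (star (w j)), h.orth j k hk.symm]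
    simp
  · simp

lemma Rel.oz {w : Fin M.N → B} (h : M.Rel w) : OZ (M.build w) :=
  ⟨M.build_cp w, fun x y => by rw [h.build_mul, h.build_mul, one_mul]⟩

lemma Rel.build_one_le {w : Fin M.N → B} (h : M.Rel w) (hw : ∀ i, ‖w i‖ ≤ 1) :
    M.build w 1 ≤ 1 := by
  rw [build_one, ← CStarAlgebra.norm_le_one_iff_of_nonneg _
    (Finset.sum_nonneg fun i _ => mul_star_self_nonneg _)]
  refine sum_le_of_orth _ _ zero_le_one (fun i _ => mul_star_self_nonneg _) ?_ fun i _ => ?_
  · intro i _ j _ hij
    rw [mul_assoc, ← mul_assoc (star (w i)), h.orth i j hij, zero_mul, mul_zero]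
  · rw [CStarRing.norm_self_mul_star]
    nlinarith [hw i, norm_nonneg (w i)]

/-- error estimate -/
lemma norm_sub_build_le {φ : F →ₗ[ℂ] B} (hφ : OZ φ) (f : Fin M.N → B) {w : Fin M.N → B}
    (hw : ∀ i j, M.cl i = M.cl j → w i * star (w j) = φ (M.v i) * f i * star (φ (M.v j)))
    (hf : ∀ i, IsSelfAdjoint (f i)) {δ : ℝ} (hδ : 0 ≤ δ)
    (hn : ∀ i, ‖φ (star (M.v i) * M.v i) * (f i * φ (star (M.v i) * M.v i) - 1)‖ ≤ δ) (x : F) :
    ‖M.build w x - φ x‖ ≤ (M.N : ℝ) ^ 2 * δ * ‖x‖ := by
  have e : M.build w x - φ x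
      = ∑ i, ∑ j, M.c i j x • (w i * star (w j) - φ (M.v i * star (M.v j))) := by
    conv_lhs => enter [2]; rw [M.recon x]
    simp only [build_apply, map_sum, map_smul, smul_sub, Finset.sum_sub_distrib]
  have key : ∀ i j, ‖M.c i j x • (w i * star (w j) - φ (M.v i * star (M.v j)))‖ ≤ δ * ‖x‖ := by
    intro i j
    by_cases hij : M.cl i = M.cl j
    swap
    · rw [M.zero i j x hij, zero_smul, norm_zero]; positivity
    rw [norm_smul, mul_comm]
    refine mul_le_mul ?_ (M.norm_c i j x) (norm_nonneg _) hδ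
    set h := φ (star (M.v i) * M.v i) with hh
    have h0 : star h = h := (hφ.cp.proj_nonneg (M.proj i)).star_eq
    have a1 : star (φ (M.v j)) * φ (M.v j) = h * h := by
      rw [hφ.star_mul_self, ← M.init i j hij, hh, hφ.mul (star (M.v i) * M.v i),
        (M.proj i).isIdempotentElem.eq]
    have a1' : star (φ (M.v i)) * φ (M.v i) = h * h := by
      rw [hφ.star_mul_self, hh, hφ.mul (star (M.v i) * M.v i),
        (M.proj i).isIdempotentElem.eq]
    have a2 : φ (M.v i * star (M.v j)) * φ (M.v j) = φ (M.v i) * h := by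
      rw [hφ.mul, hh, hφ.mul (M.v i), mul_assoc, ← M.init i j hij]
    have a3 : star (φ (M.v j)) * star (φ (M.v i * star (M.v j))) = h * star (φ (M.v i)) := by
      rw [← star_mul, a2, star_mul, h0]
    have a4 : φ (M.v i * star (M.v j)) * star (φ (M.v i * star (M.v j)))
        = φ (M.v i) * star (φ (M.v i)) := by
      rw [← hφ.cp.map_star, ← hφ.cp.map_star, hφ.mul, hφ.mul (M.v i), star_mul, star_star,
        mul_assoc (M.v i), ← mul_assoc (star (M.v j)), ← M.init i j hij, ← mul_assoc (M.v i),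
        M.v_q]
    have a5 : (w i * star (w j) - φ (M.v i * star (M.v j)))
        * star (w i * star (w j) - φ (M.v i * star (M.v j)))
        = (φ (M.v i) * (f i * h - 1)) * star (φ (M.v i) * (f i * h - 1)) := by
      rw [hw i j hij]
      simp only [star_sub, star_mul, star_star, (hf i).star_eq, h0, mul_sub, sub_mul,
        a4, mul_one]
      have b1 : φ (M.v i) * f i * star (φ (M.v j)) * (φ (M.v j) * (f i * star (φ (M.v i))))
          = φ (M.v i) * (f i * h) * (h * f i * star (φ (M.v i))) := by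
        simp only [mul_assoc]
        rw [← mul_assoc (star (φ (M.v j))), a1]
        simp only [mul_assoc]
      have b2 : φ (M.v i * star (M.v j)) * (φ (M.v j) * (f i * star (φ (M.v i))))
          = φ (M.v i) * (h * f i * star (φ (M.v i))) := by
        rw [← mul_assoc, a2]
        simp only [mul_assoc]
      have b3 : φ (M.v i) * f i * star (φ (M.v j)) * star (φ (M.v i * star (M.v j)))
          = φ (M.v i) * (f i * h) * star (φ (M.v i)) := by
        rw [mul_assoc, a3]
        simp only [mul_assoc]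
      rw [b1, b2, b3]
    have a6 : star (φ (M.v i) * (f i * h - 1)) * (φ (M.v i) * (f i * h - 1))
        = star (h * (f i * h - 1)) * (h * (f i * h - 1)) := by
      rw [star_mul, star_mul h, h0, mul_assoc, ← mul_assoc (star (φ (M.v i))), a1']
      simp only [mul_assoc]
    have a7 := congrArg norm a5
    have a8 := congrArg norm a6
    rw [CStarRing.norm_self_mul_star, CStarRing.norm_self_mul_star] at a7
    rw [CStarRing.norm_star_mul_self, CStarRing.norm_star_mul_self, ← a7] at a8
    rw [(mul_self_inj_of_nonneg (norm_nonneg _) (norm_nonneg _)).1 a8]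
    exact hn i
  rw [e]
  calc _ ≤ ∑ i : Fin M.N, ∑ j : Fin M.N, δ * ‖x‖ :=
        norm_sum_le_of_le _ fun i _ => norm_sum_le_of_le _ fun j _ => key i j
    _ = _ := by simp; ring

end MU

end Pool.Agent.Lib.MP_30b5b4_an
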