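import Pool.Agent.Lib.MP_30b5b4_an.Frame

/-! The two estimates for extensions, internal form. -/

open scoped CStarAlgebra ComplexOrder Topology
open Filter

set_option linter.unusedSectionVars false
set_option linter.style.haveILetI false

namespace Pool.Agent.Lib.MP_30b5b4_an

universe u v

section cj
variable {X B : Type*} [NonUnitalCStarAlgebra X] [CStarAlgebra B] [PartialOrder B]
  [StarOrderedRing B]

noncomputable def cj (u : B) (f : X →ₗ[ℂ] B) : X →ₗ[ℂ] B :=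
  LinearMap.mulRight ℂ u ∘ₗ LinearMap.mulLeft ℂ (star u) ∘ₗ f

lemma cj_apply (u : B) (f : X →ₗ[ℂ] B) (x : X) : cj u f x = star u * f x * u := rfl

lemma IsCP.cj {f : X →ₗ[ℂ] B} (h : IsCP f) (u : B) : IsCP (cj u f) := h.conj u fun _ => rfl

noncomputable def lin {A : Type*} [CStarAlgebra A] (π : A →⋆ₐ[ℂ] B) : A →ₗ[ℂ] B :=
  π.toAlgHom.toLinearMap

@[simp] lemma lin_apply {A : Type*} [CStarAlgebra A] (π : A →⋆ₐ[ℂ] B) (a : A) : lin π a = π a := rfl

lemma lin_cp {A : Type*} [CStarAlgebra A] (π : A →⋆ₐ[ℂ] B) : IsCP (lin π) :=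
  IsCP.of_hom π fun a a' => by rw [lin_apply, map_mul, map_star]

lemma mul_le_of_commute {K l : B} (hK : 0 ≤ K) (h1 : l ≤ 1) (hc : Commute K l) : K * l ≤ K := by
  rw [← sub_nonneg, ← mul_one_sub]
  exact Commute.mul_nonneg hK (sub_nonneg.2 h1) ((Commute.one_right K).sub_right hc)

lemma sq_nonneg_sa {u : B} (h : 0 ≤ u) : 0 ≤ u * u := h.isSelfAdjoint.mul_self_nonneg

end cj

variable {I E D : Type*} {A : Type u} {A' : Type v}
  [NonUnitalCStarAlgebra I] [PartialOrder I] [StarOrderedRing I]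
  [NonUnitalCStarAlgebra E] [PartialOrder E] [StarOrderedRing E]
  [NonUnitalCStarAlgebra D] [PartialOrder D] [StarOrderedRing D]
  [CStarAlgebra A] [PartialOrder A] [StarOrderedRing A]
  [CStarAlgebra A'] [PartialOrder A'] [StarOrderedRing A']
  {ι : I →⋆ₙₐ[ℂ] A} {j : E →⋆ₙₐ[ℂ] A} {jD : D →⋆ₙₐ[ℂ] A'}

lemma Colour.cst_mem (c : Colour j) (x : c.F) : cst (c.φ x) ∈ Lf j := fun _ => c.mem x

lemma Frame.le {a m b w : BA A} (h : Frame ι a m b w) : a * a + m * m ≤ 1 ∧ m * m + b * b ≤ 1 := by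
  rw [← h.sum]
  exact ⟨le_add_of_nonneg_right (sq_nonneg_sa h.b0),
    by rw [add_assoc]; exact le_add_of_nonneg_left (sq_nonneg_sa h.a0)⟩

theorem Idl.main_sum (h : Idl j) (hι : Idl ι) (hιj : ∀ x, ∃ b, j b = ι x) (hD : Idl jD)
    (π : A →⋆ₐ[ℂ] A') (hπ : ∀ a, π a = 0 → ∃ b, ι b = a)
    (hs : ∀ y, ∃ a, π (j a) = jD y) (hs' : ∀ a, ∃ y, jD y = π (j a)) {n m : ℕ} {d d' : Prop}
    (hI : Ap ι (n + 1) d) (hA : Ap jD (m + 1) d') : Ap j (n + 1 + m) False := by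
  classical
  refine Ap.of_ball fun S ε hε hS => ?_
  set η := ε / (2 * (5 * ((n : ℝ) + 1) + m + 1)) with hη
  have hη0 : 0 < η := by positivity
  obtain ⟨e, he⟩ := h.quotient_data hD π hs hs' hA S hη0 hη0
  obtain ⟨a, μ, b, w, fr, c1, c2⟩ := hι.frame π hπ (κ := S ⊕ S)
    (Sum.elim (fun x => j x) fun x => ∑ i, (e i).T x - j x) e
  let f : ∀ i, (e i).F →ₗ[ℂ] UA A := fun i => lin dg ∘ₗ (e i).φ
  have f0 : ∀ i x, f i x = dg ((e i).φ x) := fun _ _ => rfl
  have f1 : ∀ i, OZ (f i) := fun i => (e i).oz.map dg (f0 i)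
  have f2 : ∀ i, f i 1 ≤ 1 := fun i => by simpa [f0] using hom_mono dg (e i).one
  have c3 := fun i x => c1 ((e i).φ x) (Or.inr ⟨i, x, rfl⟩)
  have a0 := hom_nonneg Ult.mk fr.a0
  have m0 := hom_nonneg Ult.mk fr.m0
  have b0 := hom_nonneg Ult.mk fr.b0
  have am := fr.am.map Ult.mk
  have ab : Ult.mk a * Ult.mk b = 0 := by rw [← map_mul, fr.ab, map_zero]
  have wa : Ult.mk w * Ult.mk a = Ult.mk a := by rw [← map_mul, fr.wa]
  have wm : Ult.mk w * Ult.mk μ = Ult.mk μ := by rw [← map_mul, fr.wm]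
  set K := Ult.mk (μ * μ + b * b) with hK
  have K0 : K = Ult.mk μ * Ult.mk μ + Ult.mk b * Ult.mk b := by rw [hK, map_add, map_mul, map_mul]
  have K1 : 0 ≤ K := K0 ▸ add_nonneg (sq_nonneg_sa m0) (sq_nonneg_sa b0)
  have K2 : K ≤ 1 := by simpa only [map_one] using hom_mono Ult.mk fr.le.2
  have K3 : ∀ i x, Commute K (f i x) := fun i x => K0 ▸
    ((c3 i x).2.1.mul_left (c3 i x).2.1).add_left ((c3 i x).2.2.1.mul_left (c3 i x).2.2.1)
  have K4 : Ult.mk a * Ult.mk a = 1 - K := by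
    rw [hK, ← map_one Ult.mk, ← fr.sum, ← map_mul, ← map_sub, add_assoc, add_sub_cancel_right]
  let θ₁ := cj a (lin cst)
  let θ₂ := cj μ (lin cst ∘ₗ (e 0).φ)
  have t1 : IsCP θ₁ := (lin_cp cst).cj a
  have t2 : IsCP θ₂ := ((lin_cp cst).comp (e 0).oz.cp fun _ => rfl).cj μ
  let θ : E →ₗ[ℂ] BA A := θ₁ ∘ₗ (j : E →ₗ[ℂ] A) + θ₂ ∘ₗ (e 0).ψ
  have t3 : ∀ x, Ult.mk (θ x) = Ult.mk a * dg (j x) * Ult.mk a +
      Ult.mk μ * f 0 ((e 0).ψ x) * Ult.mk μ := fun x => by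
    change Ult.mk (star a * cst (j x) * a + star μ * cst _ * μ) = _
    rw [fr.a0.star_eq, fr.m0.star_eq, map_add, map_mul, map_mul, map_mul, map_mul]
    rfl
  have z0 : ∀ {u : UA A}, 0 ≤ u → (∀ x, Commute u (f 0 x)) → ∀ x, cj u (f 0) x = u * u * f 0 x :=
    fun hu hc x => by rw [cj_apply, hu.star_eq, mul_assoc, ← (hc x).eq, mul_assoc]
  have z1 := z0 m0 fun x => (c3 0 x).2.1
  have z2 := z0 b0 fun x => (c3 0 x).2.2.1
  have z3 : OZ (cj (Ult.mk μ) (f 0)) := (f1 0).mulLeft (sq_nonneg_sa m0)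
    (fun x => (c3 0 x).2.1.mul_left (c3 0 x).2.1) z1
  have z4 : ∀ x, cj (Ult.mk μ) (f 0) x + cj (Ult.mk b) (f 0) x = K * f 0 x := fun x => by
    rw [z1, z2, K0, add_mul]
  have z5 : K * f 0 1 ≤ 1 := (mul_le_of_commute K1 (f2 0) (K3 0 1)).trans K2
  have p1 : cj (Ult.mk a) (lin dg) (1 : A) = Ult.mk a * Ult.mk a := by
    rw [cj_apply, a0.star_eq, lin_apply, map_one, mul_one]
  obtain ⟨d₁, hd₁⟩ := h.merge_all hι hιj hI fr.mem fr.w0 fr.w1 (fun _ => e 0) (θ := θ)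
    ((t1.comp_hom j fun _ => rfl).add (t2.comp (e 0).cp fun _ => rfl))
    (fun x => norm_add_le_of_cp t1 t2 (by
      refine le_trans (add_le_add (le_of_eq ?_) ?_) fr.le.1
      · rw [cj_apply, fr.a0.star_eq, lin_apply, map_one, mul_one]
      · have := star_left_conjugate_le_conjugate (hom_mono cst (e 0).one) μ
        refine this.trans_eq ?_
        rw [map_one, mul_one, fr.m0.star_eq]) _ _
      (NonUnitalStarAlgHom.norm_apply_le j x) ((e 0).le x))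
    (Φ := fun _ => cj (Ult.mk a) (lin dg)) (fun _ => (lin_cp _).cj _)
    (fun _ => by rw [p1, K4]; exact sub_le_self _ K1)
    (Z := fun _ => cj (Ult.mk μ) (f 0)) (O := fun i => if i = 0 then cj (Ult.mk b) (f 0) else 0)
    (fun _ => z3) (fun i => by split_ifs; exacts [(f1 0).cp.cj _, IsCP.zero])
    (fun i => by
      split_ifs
      · exact (f1 0).mulLeft K1 (K3 0) z4
      · rwa [add_zero])
    (fun i => by
      split_ifs
      · rwa [z4]
      · exact (add_le_add_right (((f1 0).cp.cj _).one_nonneg) _).trans ((z4 1).trans_le z5))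
    (fun i x => by
      split_ifs
      · exact ⟨_, h.Lf_both (star b) b ((e 0).cst_mem x), by
          rw [map_mul, map_mul, map_star]; rfl⟩
      · exact ⟨0, zero_mem _, map_zero _⟩)
    (fun _ x => by
      have := (am.mul_right am).mul_right (c3 0 x).1
      rw [p1, z1]; exact this.mul_left this)
    (fun i => by
      split_ifs
      · rw [p1, z2, mul_assoc, mul_assoc, ← mul_assoc (Ult.mk a) (Ult.mk b), ab, zero_mul, mul_zero]
      · exact mul_zero _)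
    S (fun _ => by rw [p1, ← mul_assoc, wa]) (fun _ x => by rw [z1, ← mul_assoc, ← mul_assoc, wm])
    (fun x => by rw [t3, mul_add, ← mul_assoc, ← mul_assoc, wa, ← mul_assoc, ← mul_assoc, wm])
    hη0 hS (δ := 0) (fun x _ _ => by
      rw [t3, cj_apply, cj_apply, a0.star_eq, m0.star_eq, lin_apply, add_sub_cancel_left, sub_self,
        norm_zero])
  choose d₂ _ hd₂ using fun i : Fin m => h.lift_col (W := LinearMap.mulLeft ℂ K ∘ₗ f i.succ)
    ((f1 _).mulLeft K1 (K3 _) fun _ => rfl)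
    ((mul_le_of_commute K1 (f2 _) (K3 _ 1)).trans K2) (IsSelfAdjoint.zero _) (fun x =>
      ⟨_, h.Lf_both (μ * μ + b * b) 1 ((e i.succ).cst_mem x), zero_mul _, mul_zero _, by
        rw [mul_one, map_mul]; rfl⟩) (e _).cp (e _).le hη0
  refine sT_finish (Fin.append d₁ d₂) S fun x hx => ?_
  have e1 := hd₁ x hx
  have e2 : ‖∑ i, sT (d₂ i) x - ∑ i : Fin m, K * f i.succ ((e i.succ).ψ x)‖ ≤ m * η := by
    rw [← Finset.sum_sub_distrib]
    refine (norm_sum_le _ _).trans ((Finset.sum_le_sum fun i _ => (hd₂ i x).trans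
      (mul_le_of_le_one_right hη0.le (hS x hx))).trans ?_)
    simp
  have e3 := (c2 (Sum.inr ⟨x, hx⟩)).2.2.trans (he x hx).1
  have e4 : Ult.mk (θ x) + cj (Ult.mk b) (f 0) ((e 0).ψ x) +
      ∑ i : Fin m, K * f i.succ ((e i.succ).ψ x) - dg (j x) = dg (∑ i, (e i).T x - j x) * K := by
    have a1 : Commute (Ult.mk a) (dg (j x)) := (c1 _ (Or.inl ⟨Sum.inl ⟨x, hx⟩, rfl⟩)).1
    have a2 := z4 ((e 0).ψ x)
    rw [cj_apply, m0.star_eq] at a2
    rw [t3, a1.eq, mul_assoc, K4, add_assoc (_ * _), a2, map_sub, map_sum, Fin.sum_univ_succ,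
      sub_mul, add_mul, Finset.sum_mul, (K3 _ _).eq]
    simp only [(K3 _ _).eq, mul_sub, mul_one]
    change _ = f 0 _ * K + ∑ i : Fin m, f i.succ _ * K - _
    abel
  simp only [Finset.sum_ite_eq', Finset.mem_univ, if_true, DFunLike.ite_apply,
    LinearMap.zero_apply] at e1
  rw [Fin.sum_univ_add]
  simp only [Fin.append_left, Fin.append_right]
  have e5 := norm_add₃_le (a := ∑ i, sT (d₁ i) x - (Ult.mk (θ x) + cj (Ult.mk b) (f 0) ((e 0).ψ x)))
    (b := ∑ i, sT (d₂ i) x - ∑ i : Fin m, K * f i.succ ((e i.succ).ψ x))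
    (c := dg (∑ i, (e i).T x - j x) * K)
  rw [← e4] at e5
  refine lt_of_le_of_lt (le_trans (le_of_eq (congrArg _ (by abel))) e5) ?_
  rw [e4]
  have e6 : (5 * ((n : ℝ) + 1) + m + 1) * η = ε / 2 := by rw [hη]; field_simp
  push_cast at e1
  change ‖dg (∑ i, (e i).T x - j x) * K‖ ≤ η at e3
  nlinarith

theorem Idl.main_max (h : Idl j) (hι : Idl ι) (hιj : ∀ x, ∃ b, j b = ι x) (hD : Idl jD)
    (π : A →⋆ₐ[ℂ] A') (hπ : ∀ a, π a = 0 → ∃ b, ι b = a)
    (hs : ∀ y, ∃ a, π (j a) = jD y) (hs' : ∀ a, ∃ y, jD y = π (j a)) {N : ℕ} {d : Prop}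
    (hI : Ap ι N d) (hA : Ap jD N True) : Ap j N False := by
  classical
  refine Ap.of_ball fun S ε hε hS => ?_
  set η := ε / (2 * (8 * (N : ℝ) + 1)) with hη
  have hη0 : 0 < η := by positivity
  obtain ⟨e, he⟩ := h.quotient_data hD π hs hs' hA S hη0 hη0
  obtain ⟨a, μ, b, w, fr, c1, c2⟩ := hι.frame π hπ (κ := S ⊕ S ⊕ S × Fin N)
    (Sum.elim (fun x => j x) (Sum.elim (fun x => ∑ i, (e i).T x - j x) fun p =>
      cfc (γf η) ((e p.2).φ 1) * j p.1 * cfc (γf η) ((e p.2).φ 1) +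
        cfc (Gf η) ((e p.2).φ 1) * (e p.2).T p.1 - j p.1)) e
  let f : ∀ i, (e i).F →ₗ[ℂ] UA A := fun i => lin dg ∘ₗ (e i).φ
  have f0 : ∀ i x, f i x = dg ((e i).φ x) := fun _ _ => rfl
  have f1 : ∀ i, OZ (f i) := fun i => (e i).oz.map dg (f0 i)
  have f2 : ∀ i, f i 1 ≤ 1 := fun i => by simpa [f0] using hom_mono dg (e i).one
  have f3 := fun i => (f1 i).cp.one_nonneg
  have c3 := fun i x => c1 ((e i).φ x) (Or.inr ⟨i, x, rfl⟩)
  have a0 := hom_nonneg Ult.mk fr.a0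
  have m0 := hom_nonneg Ult.mk fr.m0
  have b0 := hom_nonneg Ult.mk fr.b0
  have am := fr.am.map Ult.mk
  have mb := fr.mb.map Ult.mk
  have ab : Ult.mk a * Ult.mk b = 0 := by rw [← map_mul, fr.ab, map_zero]
  have wa : Ult.mk w * Ult.mk a = Ult.mk a := by rw [← map_mul, fr.wa]
  have wm : Ult.mk w * Ult.mk μ = Ult.mk μ := by rw [← map_mul, fr.wm]
  have s1 : Ult.mk a * Ult.mk a + Ult.mk μ * Ult.mk μ + Ult.mk b * Ult.mk b = 1 := by
    simpa only [map_add, map_mul, map_one] using congrArg Ult.mk fr.sum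
  have s2 : Ult.mk a * Ult.mk a + Ult.mk μ * Ult.mk μ ≤ 1 := by
    simpa only [map_add, map_mul, map_one] using hom_mono Ult.mk fr.le.1
  have s3 : Ult.mk μ * Ult.mk μ + Ult.mk b * Ult.mk b ≤ 1 := by
    simpa only [map_add, map_mul, map_one] using hom_mono Ult.mk fr.le.2
  have nm : ‖Ult.mk μ‖ ≤ 1 := by
    have := norm_le_one_of (sq_nonneg_sa m0) ((le_add_of_nonneg_right (sq_nonneg_sa b0)).trans s3)
    rw [m0.isSelfAdjoint.norm_mul_self] at this
    nlinarith [norm_nonneg (Ult.mk μ)]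
  have nb : ‖Ult.mk b‖ ≤ 1 := by
    have := norm_le_one_of (sq_nonneg_sa b0) ((le_add_of_nonneg_left (sq_nonneg_sa m0)).trans s3)
    rw [b0.isSelfAdjoint.norm_mul_self] at this
    nlinarith [norm_nonneg (Ult.mk b)]
  have g1 := Gf_cont hη0
  have g2 := Hf_cont hη0
  have g3 := γf_cont hη0
  have k1 : ∀ i (g : ℝ → ℝ) x, Commute (cfc g (f i 1)) (f i x) := fun i g x =>
    ((f1 i).commute x).cfc_real g
  have k2 : ∀ i (g : ℝ → ℝ), Commute (cfc g (f i 1)) (Ult.mk a) ∧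
      Commute (cfc g (f i 1)) (Ult.mk μ) ∧ Commute (cfc g (f i 1)) (Ult.mk b) := fun i g =>
    ⟨(c3 i 1).1.symm.cfc_real g, (c3 i 1).2.1.symm.cfc_real g, (c3 i 1).2.2.1.symm.cfc_real g⟩
  let G := fun i => Ult.mk μ * Ult.mk μ * cfc (Gf η) (f i 1)
  let H := fun i => Ult.mk b * Ult.mk b * cfc (Hf η) (f i 1)
  have G0 : ∀ i, 0 ≤ G i := fun i => Commute.mul_nonneg (sq_nonneg_sa m0)
    (cfc_nonneg fun _ _ => Gf_nonneg hη0) ((k2 i _).2.1.mul_right (k2 i _).2.1).symm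
  have H0 : ∀ i, 0 ≤ H i := fun i => Commute.mul_nonneg (sq_nonneg_sa b0)
    (cfc_nonneg fun _ _ => Hf_nonneg hη0) ((k2 i _).2.2.mul_right (k2 i _).2.2).symm
  have G1 : ∀ i x, Commute (G i) (f i x) := fun i x =>
    ((c3 i x).2.1.mul_left (c3 i x).2.1).mul_left (k1 i _ x)
  have H1 : ∀ i x, Commute (H i) (f i x) := fun i x =>
    ((c3 i x).2.2.1.mul_left (c3 i x).2.2.1).mul_left (k1 i _ x)
  have y0 : ∀ i, star (cfc (γf η) (f i 1)) = cfc (γf η) (f i 1) := fun i => IsSelfAdjoint.cfc.star_eq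
  have y1 := fun i => γf_add hη0 (f3 i).isSelfAdjoint
  have y2 : ∀ i, 0 ≤ cfc (Gf η) (f i 1) * f i 1 := fun i =>
    Commute.mul_nonneg (cfc_nonneg fun _ _ => Gf_nonneg hη0) (f3 i) (k1 i _ 1)
  have y3 : ∀ i, 0 ≤ cfc (γf η) (f i 1) * cfc (γf η) (f i 1) := fun i =>
    IsSelfAdjoint.cfc.mul_self_nonneg
  let θ₁ := cj a (lin cst)
  let θ₂ := cj μ (lin cst)
  have t1 : IsCP θ₁ := (lin_cp cst).cj a
  have t2 : IsCP θ₂ := (lin_cp cst).cj μ
  let θ : E →ₗ[ℂ] BA A := (θ₁ + θ₂) ∘ₗ (j : E →ₗ[ℂ] A)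
  have t3 : ∀ x, Ult.mk (θ x) = Ult.mk a * dg (j x) * Ult.mk a +
      Ult.mk μ * dg (j x) * Ult.mk μ := fun x => by
    change Ult.mk (star a * cst (j x) * a + star μ * cst _ * μ) = _
    rw [fr.a0.star_eq, fr.m0.star_eq, map_add, map_mul, map_mul, map_mul, map_mul]
    rfl
  let Φ : Fin N → A →ₗ[ℂ] UA A := fun i =>
    cj (Ult.mk a) (lin dg) + cj (cfc (γf η) (f i 1) * Ult.mk μ) (lin dg)
  have p0 : ∀ i y, Φ i y = Ult.mk a * dg y * Ult.mk a +
      Ult.mk μ * (cfc (γf η) (f i 1) * dg y * cfc (γf η) (f i 1)) * Ult.mk μ := fun i y => by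
    simp only [Φ, LinearMap.add_apply, cj_apply, a0.star_eq, star_mul, m0.star_eq, y0, lin_apply,
      mul_assoc]
  have p1 : ∀ i, Φ i 1 = Ult.mk a * Ult.mk a +
      Ult.mk μ * Ult.mk μ * (cfc (γf η) (f i 1) * cfc (γf η) (f i 1)) := fun i => by
    rw [p0, map_one, mul_one, mul_one, mul_assoc (Ult.mk μ),
      ((k2 i _).2.1.mul_left (k2 i _).2.1).eq, ← mul_assoc]
  obtain ⟨d₁, hd₁⟩ := h.merge_all hι hιj hI fr.mem fr.w0 fr.w1 e (θ := θ)
    ((t1.add t2).comp_hom j fun _ => rfl)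
    (fun x => ((t1.add t2).norm_le (by
      refine le_trans (le_of_eq ?_) fr.le.1
      simp only [θ₁, θ₂, LinearMap.add_apply, cj_apply, fr.a0.star_eq, fr.m0.star_eq, lin_apply,
        map_one, mul_one]) _).trans (NonUnitalStarAlgHom.norm_apply_le j x))
    (Φ := Φ) (fun _ => ((lin_cp _).cj _).add ((lin_cp _).cj _))
    (fun i => by
      rw [p1]
      refine le_trans (add_le_add_right (mul_le_of_commute (sq_nonneg_sa m0) ?_ ?_) _) s2
      · rw [← y1 i]; exact le_add_of_nonneg_right (y2 i)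
      · have := ((k2 i (γf η)).2.1.mul_right (k2 i _).2.1).symm
        exact this.mul_right this)
    (Z := fun i => LinearMap.mulLeft ℂ (G i) ∘ₗ f i) (O := fun i => LinearMap.mulLeft ℂ (H i) ∘ₗ f i)
    (fun i => (f1 i).mulLeft (G0 i) (G1 i) fun _ => rfl)
    (fun i => ((f1 i).mulLeft (H0 i) (H1 i) fun _ => rfl).cp)
    (fun i => (f1 i).mulLeft (add_nonneg (G0 i) (H0 i)) (fun x => (G1 i x).add_left (H1 i x))
      fun x => (add_mul _ _ _).symm)
    (fun i => by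
      change G i * f i 1 + H i * f i 1 ≤ 1
      simp only [G, H]
      rw [mul_assoc _ _ (f i 1), mul_assoc _ _ (f i 1)]
      refine le_trans (add_le_add (mul_le_of_commute (sq_nonneg_sa m0) ?_ ?_)
        (mul_le_of_commute (sq_nonneg_sa b0) (Hf_mul_le hη0 (f3 i) (f2 i)) ?_)) s3
      · rw [← y1 i]; exact le_add_of_nonneg_left (y3 i)
      · exact ((k2 i _).2.1.mul_right (k2 i _).2.1).symm.mul_right
          ((c3 i 1).2.1.mul_left (c3 i 1).2.1)
      · exact ((k2 i _).2.2.mul_right (k2 i _).2.2).symm.mul_right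
          ((c3 i 1).2.2.1.mul_left (c3 i 1).2.2.1))
    (fun i x => ⟨_, h.Lf_both (b * b * cst (cfc (Hf η) ((e i).φ 1))) 1 ((e i).cst_mem x), by
      rw [mul_one, map_mul, map_mul, map_mul, ← dg_apply, ← dg_apply,
        hom_cfc _ g2 (e i).oz.cp.one_nonneg.isSelfAdjoint]; rfl⟩)
    (fun i x => by
      have q1 : Commute (Ult.mk a) (G i * f i x) :=
        ((am.mul_right am).mul_right (k2 i _).1.symm).mul_right (c3 i x).1
      have q2 : Commute (Ult.mk μ) (G i * f i x) :=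
        (((Commute.refl _).mul_right (Commute.refl _)).mul_right (k2 i _).2.1.symm).mul_right
          (c3 i x).2.1
      have q3 : Commute (cfc (γf η) (f i 1)) (G i * f i x) :=
        (((k2 i _).2.1.mul_right (k2 i _).2.1).mul_right (cfc_commute_cfc _ _ _)).mul_right
          (k1 i _ x)
      rw [p1]
      exact (q1.mul_left q1).add_left ((q2.mul_left q2).mul_left (q3.mul_left q3)))
    (fun i => by
      change Φ i 1 * (H i * f i 1) = 0
      have q1 : cfc (γf η) (f i 1) * cfc (γf η) (f i 1) * cfc (Hf η) (f i 1) = 0 := by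
        rw [cfc_mul' g3 g3, cfc_mul' (by fun_prop) g2, ← cfc_zero ℝ (f i 1)]
        congr 1
        funext s
        rw [γf_sq hη0, Hf_mul hη0, Pi.zero_apply]
      have q2 := (k2 i (γf η)).2.2.mul_right (k2 i (γf η)).2.2
      have q3 : cfc (γf η) (f i 1) * cfc (γf η) (f i 1) * H i = 0 := by
        simp only [H]
        rw [← mul_assoc, (q2.mul_left q2).eq, mul_assoc, q1, mul_zero]
      have q4 : Ult.mk a * H i = 0 := by
        simp only [H]
        rw [← mul_assoc, ← mul_assoc, ab, zero_mul, zero_mul]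
      rw [p1, ← mul_assoc, add_mul, mul_assoc _ _ (H i), mul_assoc _ _ (H i), q3, q4]
      simp)
    S (fun _ => by rw [p1, mul_add, ← mul_assoc, wa, ← mul_assoc (Ult.mk w), ← mul_assoc (Ult.mk w), wm])
    (fun i x => by
      change _ * (G i * f i x) = G i * f i x
      simp only [G, ← mul_assoc, wm])
    (fun x => by rw [t3, mul_add, ← mul_assoc, ← mul_assoc, wa, ← mul_assoc, ← mul_assoc, wm])
    hη0 hS (δ := η) (fun x hx i => by
      have q1 := (c2 (Sum.inr (Sum.inr ⟨⟨x, hx⟩, i⟩))).1.trans ((he x hx).2 trivial i)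
      have q0 := (e i).oz.cp.one_nonneg.isSelfAdjoint
      simp only [Sum.elim_inr, map_sub, map_add, map_mul, hom_cfc _ g1 q0, hom_cfc _ g3 q0] at q1
      have q2 : G i * f i ((e i).ψ x) = Ult.mk μ * (cfc (Gf η) (f i 1) * f i ((e i).ψ x)) *
          Ult.mk μ := by
        simp only [G]
        have q3 : Commute (f i ((e i).ψ x)) (Ult.mk μ) := (c3 i _).2.1.symm
        rw [mul_assoc (Ult.mk μ) _ (Ult.mk μ), ((k2 i _).2.1.mul_left q3).eq]
        simp only [mul_assoc]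
      change ‖_ - G i * f i ((e i).ψ x)‖ ≤ η
      rw [t3, p0, q2, ← norm_neg]
      refine le_trans (le_of_eq (congrArg _ ?_)) ((norm_mul_le (Ult.mk μ) _).trans
        ((mul_le_mul nm q1 (norm_nonneg _) zero_le_one).trans_eq (one_mul _)))
      change _ = Ult.mk μ * ((cfc (γf η) (f i 1) * dg (j x) * cfc (γf η) (f i 1) +
        cfc (Gf η) (f i 1) * f i ((e i).ψ x) - dg (j x)) * Ult.mk μ)
      noncomm_ring)
  refine sT_finish d₁ S fun x hx => ?_
  have e1 := hd₁ x hx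
  have e3 : ‖dg (∑ i, (e i).T x - j x) * Ult.mk b‖ ≤ η :=
    (c2 (Sum.inr (Sum.inl ⟨x, hx⟩))).2.1.trans (he x hx).1
  have e2 : ∀ i, ‖f i ((e i).ψ x) * (cfc (Hf η) (f i 1) - 1)‖ ≤ η := fun i =>
    ((f1 i).norm_mul_le _ _).trans ((mul_le_mul (norm_Hf hη0 (f3 i)) (((e i).le x).trans (hS x hx))
      (norm_nonneg _) hη0.le).trans_eq (mul_one _))
  have e4 : Ult.mk (θ x) + ∑ i, H i * f i ((e i).ψ x) - dg (j x) =
      dg (∑ i, (e i).T x - j x) * Ult.mk b * Ult.mk b +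
      Ult.mk b * Ult.mk b * ∑ i, f i ((e i).ψ x) * (cfc (Hf η) (f i 1) - 1) := by
    obtain ⟨a1, a2, -⟩ := c1 _ (Or.inl ⟨Sum.inl ⟨x, hx⟩, rfl⟩)
    have a3 := (c1 _ (Or.inl ⟨Sum.inr (Sum.inl ⟨x, hx⟩), rfl⟩)).2.2.1
    have a4 := (c1 _ (Or.inl ⟨Sum.inl ⟨x, hx⟩, rfl⟩)).2.2.1
    simp only [Sum.elim_inl, Sum.elim_inr] at a1 a2 a3 a4
    rw [t3, mul_assoc (Ult.mk a), mul_assoc (Ult.mk μ), ← a1.eq, ← a2.eq, ← mul_assoc, ← mul_assoc,
      ← add_mul, eq_sub_of_add_eq s1, mul_assoc (dg _), ← (a3.mul_left a3).eq, ← mul_add, map_sub,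
      map_sum]
    simp only [H, mul_assoc _ _ (f _ _), (k1 _ _ _).eq, ← Finset.mul_sum, mul_sub, mul_one,
      Finset.sum_sub_distrib]
    change _ = _ * (∑ i, f i ((e i).ψ x) - _ + _)
    noncomm_ring
  have e5 := norm_add₃_le (a := ∑ i, sT (d₁ i) x - (Ult.mk (θ x) + ∑ i, H i * f i ((e i).ψ x)))
    (b := dg (∑ i, (e i).T x - j x) * Ult.mk b * Ult.mk b)
    (c := Ult.mk b * Ult.mk b * ∑ i, f i ((e i).ψ x) * (cfc (Hf η) (f i 1) - 1))
  rw [add_assoc, ← e4] at e5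
  refine lt_of_le_of_lt (le_trans (le_of_eq (congrArg _ (by abel))) e5) ?_
  have e6 : (8 * (N : ℝ) + 1) * η = ε / 2 := by rw [hη]; field_simp
  have e7 : ‖dg (∑ i, (e i).T x - j x) * Ult.mk b * Ult.mk b‖ ≤ η * 1 :=
    (norm_mul_le _ _).trans (by gcongr)
  have e8 : ‖Ult.mk b * Ult.mk b * ∑ i, f i ((e i).ψ x) * (cfc (Hf η) (f i 1) - 1)‖ ≤
      1 * 1 * (N * η) := norm_mul₃_le.trans (by
    gcongr
    exact (norm_sum_le _ _).trans ((Finset.sum_le_sum fun i _ => e2 i).trans (by simp)))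
  change ‖∑ i, sT (d₁ i) x - (Ult.mk (θ x) + ∑ i, H i * f i ((e i).ψ x))‖ ≤ _ at e1
  nlinarith

end Pool.Agent.Lib.MP_30b5b4_an
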