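import Pool.Agent.Lib.MP_30b5b4_an.UA

/-! Merging a colour of the ideal with a colour of the quotient. -/

open scoped CStarAlgebra ComplexOrder Topology
open Filter

set_option linter.unusedSectionVars false
set_option linter.style.haveILetI false

namespace Pool.Agent.Lib.MP_30b5b4_an

universe u

noncomputable def Gf (η s : ℝ) : ℝ := (max s η)⁻¹
noncomputable def Hf (η s : ℝ) : ℝ := 1 - η * Gf η s

section
variable {η s : ℝ}

lemma Gf_cont (hη : 0 < η) : Continuous (Gf η) :=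
  (continuous_id.max continuous_const).inv₀ fun _ => (hη.trans_le (le_max_right _ _)).ne'

lemma Hf_cont (hη : 0 < η) : Continuous (Hf η) :=
  continuous_const.sub (continuous_const.mul (Gf_cont hη))

lemma Gf_nonneg (hη : 0 < η) : 0 ≤ Gf η s := inv_nonneg.2 (hη.le.trans (le_max_right _ _))

lemma mul_Gf_le (hη : 0 < η) : s * Gf η s ≤ 1 :=
  mul_inv_le_one_of_le₀ (le_max_left _ _) (hη.le.trans (le_max_right _ _))

lemma Hf_nonneg (hη : 0 < η) : 0 ≤ Hf η s :=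
  sub_nonneg.2 (mul_inv_le_one_of_le₀ (le_max_right _ _) (hη.le.trans (le_max_right _ _)))

lemma Hf_le (hη : 0 < η) : Hf η s ≤ 1 := sub_le_self _ (mul_nonneg hη.le (Gf_nonneg hη))

lemma Hf_mul (hη : 0 < η) : (1 - s * Gf η s) * Hf η s = 0 := by
  rcases le_total s η with h | h
  · rw [Hf, Gf, max_eq_right h, mul_inv_cancel₀ hη.ne', sub_self, mul_zero]
  · rw [Gf, max_eq_left h, mul_inv_cancel₀ (hη.trans_le h).ne', sub_self, zero_mul]

lemma norm_Hf {B : Type*} [CStarAlgebra B] [PartialOrder B] [StarOrderedRing B] (hη : 0 < η)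
    {r : B} (hr : 0 ≤ r) : ‖r * (cfc (Hf η) r - 1)‖ ≤ η := by
  have := Hf_cont hη
  rw [← cfc_const_one ℝ r, ← cfc_sub _ _ r, id_mul_cfc (by fun_prop) hr.isSelfAdjoint]
  refine norm_cfc_le hη.le fun s hs => ?_
  have h0 := spectrum_nonneg_of_nonneg hr hs
  have h1 := mul_Gf_le (s := s) hη
  have h2 := mul_nonneg h0 (Gf_nonneg (s := s) hη)
  rw [Hf, Real.norm_eq_abs, abs_le]
  constructor <;> nlinarith

lemma Hf_mul_le {B : Type*} [CStarAlgebra B] [PartialOrder B] [StarOrderedRing B] (hη : 0 < η)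
    {r : B} (hr : 0 ≤ r) (h1 : r ≤ 1) : cfc (Hf η) r * r ≤ 1 := by
  rw [cfc_mul_id (Hf_cont hη) hr.isSelfAdjoint]
  have := Hf_cont hη
  refine cfc_le_one _ _ fun s hs => ?_
  exact mul_le_one₀ (Hf_le hη) (spec_mem hr h1 hs).1 (spec_mem hr h1 hs).2

end

lemma mul_cfc_eq_zero {B : Type*} [CStarAlgebra B] {x y : B} (hx : IsSelfAdjoint x)
    (hxy : y * x = 0) {f : ℝ → ℝ} (hf : Continuous f) (h0 : f 0 = 0) : y * cfc f x = 0 := by
  have h1 : x * star y = 0 := by rw [← hx.star_eq, ← star_mul, hxy, star_zero]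
  have := congrArg star (cfc_mul_eq_zero hx h1 hf h0)
  rwa [star_mul, star_star, IsSelfAdjoint.cfc.star_eq, star_zero] at this

variable {E : Type*} {A : Type u} [NonUnitalCStarAlgebra E] [PartialOrder E] [StarOrderedRing E]
  [CStarAlgebra A] [PartialOrder A] [StarOrderedRing A] {j : E →⋆ₙₐ[ℂ] A}

def Lf (j : E →⋆ₙₐ[ℂ] A) : NonUnitalStarSubalgebra ℂ (BA A) where
  carrier := {x | ∀ k, ∃ b, j b = Bdd.ev k x}
  add_mem' := fun {x y} hx hy k => by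
    obtain ⟨a, ha⟩ := hx k
    obtain ⟨b, hb⟩ := hy k
    exact ⟨a + b, by rw [map_add, map_add, ha, hb]⟩
  zero_mem' := fun k => ⟨0, by simp⟩
  mul_mem' := fun {x y} hx hy k => by
    obtain ⟨a, ha⟩ := hx k
    obtain ⟨b, hb⟩ := hy k
    exact ⟨a * b, by rw [map_mul, map_mul, ha, hb]⟩
  smul_mem' := fun c x hx k => by
    obtain ⟨a, ha⟩ := hx k
    exact ⟨c • a, by rw [map_smul, map_smul, ha]⟩
  star_mem' := fun {x} hx k => by
    obtain ⟨a, ha⟩ := hx k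
    exact ⟨star a, by rw [map_star, map_star, ha]⟩

lemma Idl.isClosed_range (h : Idl j) : IsClosed (Set.range j) :=
  (NonUnitalStarAlgHom.isometry j h.inj).isClosedEmbedding.isClosed_range

lemma Idl.isClosed_Lf (h : Idl j) : IsClosed (Lf j : Set (BA A)) := by
  have : (Lf j : Set (BA A)) = ⋂ k, Bdd.ev k ⁻¹' Set.range j := by
    ext x; simp only [Set.mem_iInter]; rfl
  rw [this]
  exact isClosed_iInter fun k => h.isClosed_range.preimage (hom_cont _)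

lemma Idl.Lf_both (h : Idl j) (a a' : BA A) {x : BA A} (hx : x ∈ Lf j) : a * x * a' ∈ Lf j :=
  fun k => by
    obtain ⟨b, hb⟩ := hx k
    rw [map_mul, map_mul, ← hb]
    exact h.both _ _ _

noncomputable def sT (c : ℕ → Colour j) (a : E) : UA A :=
  Ult.mk (Bdd.of (fun k => (c k).T a) ‖a‖ fun k => (c k).T_le a)

lemma Idl.lift_col (h : Idl j) {F : Type} [CStarAlgebra F] [PartialOrder F] [StarOrderedRing F]
    [FiniteDimensional ℂ F] {W : F →ₗ[ℂ] UA A} (hW : OZ W) (h1 : W 1 ≤ 1) {R : BA A}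
    (hR : IsSelfAdjoint R) (hl : ∀ x, ∃ s ∈ Lf j, R * s = 0 ∧ s * R = 0 ∧ Ult.mk s = W x)
    {Ψ : E →ₗ[ℂ] F} (hΨ : IsCP Ψ) (hΨ' : ∀ a, ‖Ψ a‖ ≤ ‖a‖) {η : ℝ} (hη : 0 < η) :
    ∃ c : ℕ → Colour j, (∀ k, Bdd.ev k R * (c k).φ 1 = 0) ∧
      ∀ a, ‖sT c a - W (Ψ a)‖ ≤ η * ‖a‖ := by
  obtain ⟨χ, a1, a2, a3, a4⟩ := exists_oz_lift Ult.mk (S := Lf j ⊓ ann R hR)
    (h.isClosed_Lf.inter (isClosed_ann R hR)) hW h1 (fun x => by
      obtain ⟨s, s1, s2, s3, s4⟩ := hl x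
      exact ⟨s, ⟨s1, s2, s3⟩, s4⟩) hη
  refine ⟨fun k =>
    { F := F
      ψ := Ψ
      φ := (Bdd.ev k : BA A →⋆ₐ[ℂ] A).toAlgHom.toLinearMap ∘ₗ χ
      cp := hΨ
      le := hΨ'
      oz := a1.map (Bdd.ev k) fun _ => rfl
      one := by simpa using hom_mono (Bdd.ev k) a2
      mem := fun x => (a3 x).1 k }, fun k => ?_, fun a => ?_⟩
  · change _ * Bdd.ev k (χ 1) = 0
    rw [← map_mul, (a3 1).2.1, map_zero]
  · exact (a4 (Ψ a)).trans (mul_le_mul_of_nonneg_left (hΨ' a) hη.le)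

lemma Idl.corner_col (h : Idl j) (c : CA A) (hm : ∀ x, ∃ b, j b = c.φ x) {θ : E →ₗ[ℂ] A}
    (hθ : IsCP θ) (hθ' : ∀ a, ‖θ a‖ ≤ ‖a‖) {q : c.F} (hq : IsStarProjection q) {η : ℝ}
    (hη : 0 < η) : ∃ d : Colour j, d.φ 1 = cfc (Hf η) (c.φ q) * c.φ q ∧
      ∀ a, ‖d.T a - c.φ (q * c.ψ (θ a) * q)‖ ≤ η * ‖a‖ := by
  let C := StarSubalgebra.centralizer ℂ ({q} : Set c.F)
  haveI hC : IsClosed (C : Set c.F) := Set.isClosed_centralizer _
  have m1 : ∀ x : C, q * x = x * q := fun x =>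
    ((StarSubalgebra.mem_centralizer_iff ℂ).1 x.2 q rfl).1
  have m2 : ∀ x, q * x * q ∈ C := fun x => (StarSubalgebra.mem_centralizer_iff ℂ).2 (by
    intro g hg
    rw [Set.mem_singleton_iff.1 hg, hq.isSelfAdjoint.star_eq, and_self, ← mul_assoc, ← mul_assoc, hq.isIdempotentElem.eq,
      mul_assoc _ q q, hq.isIdempotentElem.eq])
  letI : PartialOrder C := CStarAlgebra.spectralOrder C
  haveI : StarOrderedRing C := CStarAlgebra.spectralOrderedRing C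
  haveI : FiniteDimensional ℂ C :=
    FiniteDimensional.of_injective C.subtype.toAlgHom.toLinearMap Subtype.val_injective
  let ψ₀ : E →ₗ[ℂ] c.F := LinearMap.mulRight ℂ q ∘ₗ LinearMap.mulLeft ℂ q ∘ₗ c.ψ ∘ₗ θ
  have p0 : IsCP ψ₀ := (c.cp.comp hθ (ψ := c.ψ ∘ₗ θ) fun _ => rfl).conj q fun a => by
    rw [hq.isSelfAdjoint.star_eq]; rfl
  let ψ : E →ₗ[ℂ] C := ψ₀.codRestrict C.toSubalgebra.toSubmodule fun a => m2 _
  have n1 : ∀ a, ‖ψ a‖ ≤ ‖a‖ := fun a => by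
    have := hq.norm_le
    calc ‖q * c.ψ (θ a) * q‖ ≤ ‖q‖ * ‖c.ψ (θ a)‖ * ‖q‖ := norm_mul₃_le
      _ ≤ 1 * ‖a‖ * 1 := by gcongr; exact (c.le _).trans (hθ' a)
      _ = _ := by ring
  let φ₀ : C →ₗ[ℂ] A := c.φ ∘ₗ LinearMap.mulLeft ℂ q ∘ₗ C.subtype.toAlgHom.toLinearMap
  have e0 : ∀ x : C, φ₀ x = c.φ (q * x) := fun _ => rfl
  have e1 : φ₀ 1 = c.φ q := by rw [e0]; simp
  have e2 : ∀ x y : C, q * x * (q * y) = q * (x * y) := fun x y => by
    rw [← mul_assoc, mul_assoc q, ← m1, ← mul_assoc, hq.isIdempotentElem.eq, mul_assoc]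
  have o0 : OZ φ₀ := by
    refine ⟨c.oz.cp.comp_half (fun x : C => q * x) fun a a' => ?_, fun x y => ?_⟩
    · rw [e0, star_mul, hq.isSelfAdjoint.star_eq]
      exact congrArg c.φ ((e2 (star a) a').symm.trans (congrArg (· * _) (m1 (star a))))
    · rw [e1, e0, e0, e0, c.oz.mul, c.oz.mul q, e2, ← mul_assoc q q, hq.isIdempotentElem.eq]
      rfl
  have r0 : 0 ≤ c.φ q := c.oz.cp.proj_nonneg hq
  have c0 : ∀ x, Commute (cfc (Hf η) (c.φ q)) (φ₀ x) := fun x => (e1 ▸ o0.commute x).cfc_real _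
  refine ⟨{ F := C
            ψ := ψ
            φ := LinearMap.mulLeft ℂ (cfc (Hf η) (c.φ q)) ∘ₗ φ₀
            cp := fun n a b => nonneg_of_map_nonneg
              (C.subtype : C →⋆ₙₐ[ℂ] c.F) Subtype.val_injective ?_
            le := n1
            oz := o0.mulLeft (cfc_nonneg fun _ _ => Hf_nonneg hη) c0 fun _ => rfl
            one := ?_
            mem := fun x => ?_ }, ?_, fun a => ?_⟩
  · have e : ∀ a, (ψ a : c.F) = ψ₀ a := fun _ => rfl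
    simpa [map_sum, e] using p0 n a fun i => b i
  · change _ * φ₀ 1 ≤ 1
    rw [e1]
    exact Hf_mul_le hη r0 ((c.oz.cp.mono hq.le_one).trans c.one)
  · obtain ⟨b, hb⟩ := hm (q * x)
    obtain ⟨b', hb'⟩ := h.left (cfc (Hf η) (c.φ q)) b
    exact ⟨b', by rw [hb', hb]; rfl⟩
  · change _ * φ₀ 1 = _
    rw [e1]
  · have e3 : c.φ (q * c.ψ (θ a) * q) = φ₀ (ψ a) := by
      rw [e0]
      change _ = c.φ (q * (q * c.ψ (θ a) * q))
      rw [← mul_assoc, ← mul_assoc, hq.isIdempotentElem.eq]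
    change ‖_ * φ₀ (ψ a) - _‖ ≤ _
    rw [e3, (c0 _).eq, ← mul_sub_one]
    refine (o0.norm_mul_le _ _).trans ?_
    rw [e1]
    exact mul_le_mul (norm_Hf hη r0) (n1 a) (norm_nonneg _) hη.le

lemma ult_central (c : ℕ → CA A) {η : ℝ} (hη : 0 < η) :
    ∃ P : Ult fun k => (c k).F, IsStarProjection P ∧ (∀ x, Commute P x) ∧ ‖uφ c (1 - P)‖ ≤ η ∧
      ∀ x, uφ c 1 * uφ c x = 0 → P * x = 0 := by
  choose P p1 p2 p3 p4 using fun k => (c k).oz.exists_central hη.le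
  let P' : Bdd fun k => (c k).F := Bdd.of P 1 fun k => (p1 k).norm_le
  refine ⟨Ult.mk P', hom_proj _ (bdd_proj p1), fun x => ?_, ?_, fun x hx => ?_⟩
  · obtain ⟨x, rfl⟩ := Ult.surj x
    exact Commute.map (Bdd.ext fun k => by simpa [P'] using (p2 k _).eq) Ult.mk
  · rw [← map_one Ult.mk, ← map_sub, (uφ_spec c).2.2]
    exact Ult.norm_le_of_eventually (Eventually.of_forall fun k => by simpa [P'] using p3 k)
  · have h1 := (uφ_oz c).mul_right_eq_zero hx (star x)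
    rw [(uφ_spec c).1.map_star, CStarRing.star_mul_self_eq_zero_iff] at h1
    obtain ⟨x, rfl⟩ := Ult.surj x
    rw [(uφ_spec c).2.2] at h1
    have h2 := (Ult.tendsto_norm
      (Bdd.map (fun k => (c k).φ) (fun k => (c k).φ_le) x)).const_mul η⁻¹
    rw [h1, norm_zero, mul_zero] at h2
    rw [← map_mul]
    refine Ult.mk_eq_zero_of_le h2 fun k => ?_
    rw [le_inv_mul_iff₀ hη]
    simpa [P'] using p4 k _

lemma Hf_kill {B : Type*} [CStarAlgebra B] [PartialOrder B] [StarOrderedRing B] {η : ℝ}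
    (hη : 0 < η) {r : B} (hr : IsSelfAdjoint r) :
    IsSelfAdjoint (cfc (Hf η) r * r) ∧
      cfc (Hf η) r * r * (1 - cfc (fun s => s * Gf η s) r) = 0 ∧
      (1 - cfc (fun s => s * Gf η s) r) * (cfc (Hf η) r * r) = 0 := by
  have g1 := Gf_cont hη
  have g2 := Hf_cont hη
  have t2 : cfc (Hf η) r * r = cfc (fun s => Hf η s * s) r := cfc_mul_id g2 hr
  have t3 : 1 - cfc (fun s => s * Gf η s) r = cfc (fun s => 1 - s * Gf η s) r := by
    rw [cfc_sub _ _ r, cfc_const_one ℝ r]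
  have t4 : cfc (Hf η) r * r * (1 - cfc (fun s => s * Gf η s) r) = 0 := by
    rw [t2, t3, cfc_mul' (by fun_prop) (by fun_prop), ← cfc_zero ℝ r]
    congr 1
    funext s
    rw [mul_comm, ← mul_assoc, Hf_mul hη, zero_mul, Pi.zero_apply]
  have t5 : IsSelfAdjoint (cfc (Hf η) r * r) := t2 ▸ IsSelfAdjoint.cfc
  exact ⟨t5, t4, mul_eq_zero_comm_sa t5 (t3 ▸ IsSelfAdjoint.cfc) t4⟩

lemma merge_core {B Q F U : Type*} [CStarAlgebra B] [PartialOrder B] [StarOrderedRing B]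
    [CStarAlgebra Q] [PartialOrder Q] [StarOrderedRing Q] [CStarAlgebra F] [FiniteDimensional ℂ F]
    [CStarAlgebra U] {ρ : Q →ₗ[ℂ] B} {τ : B →ₗ[ℂ] Q} (hρ : OZ ρ) (hρ1 : ρ 1 ≤ 1) (hσ : IsCP τ)
    (hσ1 : τ 1 ≤ 1) {η : ℝ} (hη : 0 < η) {P : Q} (p1 : IsStarProjection P)
    (p2 : ∀ x, Commute P x) (p3 : ‖ρ (1 - P)‖ ≤ η) (p4 : ∀ x, ρ 1 * ρ x = 0 → P * x = 0)
    (cut : ∀ {z : F →ₗ[ℂ] Q}, OZ z → ∀ {y : Q}, IsSelfAdjoint y → (∀ x, Commute y (z x)) →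
      ∀ c : ℝ, ∃ q, IsStarProjection q ∧ Commute q y ∧ (∀ x, Commute q (z x)) ∧
        c • q ≤ q * y * q ∧ (1 - q) * y * (1 - q) ≤ c • (1 - q))
    {Φ : U →ₗ[ℂ] B} (hΦ : IsCP Φ) (hΦ1 : Φ 1 ≤ 1)
    {Z O : F →ₗ[ℂ] B} (hZ : OZ Z) (hO : IsCP O) (hW : OZ (Z + O)) (hW1 : Z 1 + O 1 ≤ 1)
    (c1 : ∀ x, Commute (Φ 1) (Z x)) (c2 : Φ 1 * O 1 = 0)
    (r1 : ρ (τ (Φ 1)) = ρ (τ 1) * Φ 1 ∧ ρ (τ (Φ 1)) = Φ 1 * ρ (τ 1))
    (r2 : ∀ x, ρ (τ (Z x)) = ρ (τ 1) * Z x ∧ ρ (τ (Z x)) = Z x * ρ (τ 1)) :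
    ∃ (q : Q) (χ : F →ₗ[ℂ] B), IsStarProjection q ∧ OZ χ ∧ χ 1 ≤ 1 ∧ ρ q * χ 1 = 0 ∧
      (∀ x, ∃ g, χ x = ρ g + O x) ∧ ∀ X b x (r : ℝ), ‖X‖ ≤ r → ‖b‖ ≤ r →
        ‖ρ (q * τ X * q) + χ x - (ρ (τ X) + O x)‖ ≤ 3 * η * r + 2 * ‖X - Φ b - Z x‖ := by
  have hρ' := hρ.cp.norm_le hρ1
  have hσ' := hσ.norm_le hσ1
  let σ : B →ₗ[ℂ] Q := LinearMap.mulLeft ℂ P ∘ₗ τ
  have s0 : ∀ x, σ x = P * τ x := fun _ => rfl
  have s0' : ∀ x, σ x = star P * τ x * P := fun x => by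
    rw [s0, p1.isSelfAdjoint.star_eq, (p2 _).eq, mul_assoc, p1.isIdempotentElem.eq]
  have s1 : IsCP σ := hσ.conj P s0'
  have s2 : ∀ x, 0 ≤ x → σ x ≤ τ x := fun x hx => by
    rw [s0, ← sub_nonneg, ← one_sub_mul]
    exact Commute.mul_nonneg p1.one_sub.nonneg (hσ.nonneg hx) ((Commute.one_left _).sub_left (p2 _))
  have s3 : ∀ x, ‖σ x‖ ≤ ‖x‖ := s1.norm_le ((s2 1 zero_le_one).trans hσ1)
  have s4 : ∀ X Y X' Y', ρ (τ X) * ρ (τ Y) = ρ (τ X') * ρ (τ Y') → σ X * σ Y = σ X' * σ Y' := by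
    intro X Y X' Y' hh
    have := p4 (τ X * τ Y - τ X' * τ Y') (by
      rw [map_sub, mul_sub, ← hρ.mul, ← hρ.mul, sub_eq_zero]; exact hh)
    have e : ∀ u v, P * u * (P * v) = P * (u * v) := fun u v => by
      rw [← mul_assoc, mul_assoc P, ← (p2 u).eq, ← mul_assoc, p1.isIdempotentElem.eq, mul_assoc]
    rwa [s0, s0, s0, s0, e, e, ← sub_eq_zero, ← mul_sub]
  let z : F →ₗ[ℂ] Q := σ ∘ₗ Z
  have z0 : ∀ x, z x = σ (Z x) := fun _ => rfl
  have hz : OZ z := ⟨s1.comp hZ.cp z0, fun x y => s4 _ _ _ _ (by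
    rw [(r2 x).1, (r2 y).2, (r2 1).1, (r2 (x * y)).2, mul_assoc, mul_assoc, ← mul_assoc (Z x),
      hZ.mul, mul_assoc])⟩
  have V0 := hΦ.one_nonneg
  have y0 := s1.nonneg V0
  obtain ⟨q, q1, q2, q3, q4, q5⟩ := cut hz y0.isSelfAdjoint (fun x => s4 _ _ _ _ (by
    refine (congrArg₂ (· * ·) r1.1 (r2 x).2).trans
      (Eq.trans ?_ (congrArg₂ (· * ·) (r2 x).1 r1.2).symm)
    simp only [mul_assoc]
    rw [← mul_assoc (Φ 1), (c1 x).eq, mul_assoc])) (η ^ 2)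
  set y := σ (Φ 1) with hy
  have hη2 : 0 < η ^ 2 := by positivity
  have k1 : ∀ {e x : Q}, IsStarProjection e → 0 ≤ x → Commute e x →
      e * x * e ≤ x := fun {e x} he hx hc => by
    rw [hc.eq, mul_assoc, he.isIdempotentElem.eq, ← sub_nonneg, ← mul_one_sub]
    exact Commute.mul_nonneg hx he.one_sub.nonneg ((Commute.one_right x).sub_right hc.symm)
  have k2 : (η ^ 2) • q ≤ τ (Φ 1) := (q4.trans (k1 q1 y0 q2)).trans (s2 _ V0)
  have k3 : q * P = q := by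
    have := mul_eq_zero_of_le (smul_nonneg hη2.le q1.nonneg) (q4.trans (k1 q1 y0 q2))
      (c := 1 - P) (by
        rw [hy, s0, (p2 _).eq, mul_assoc, p1.mul_one_sub_self, mul_zero])
    rw [smul_mul_assoc, smul_eq_zero, mul_sub, mul_one, sub_eq_zero] at this
    exact (this.resolve_left hη2.ne').symm
  have r0 : 0 ≤ ρ q := hρ.cp.proj_nonneg q1
  have k4 : ρ q * O 1 = 0 := by
    have a1 := hρ.cp.mono k2
    rw [← Complex.coe_smul, map_smul, Complex.coe_smul, r1.1] at a1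
    have := mul_eq_zero_of_le (smul_nonneg hη2.le r0) a1 (c := O 1) (by rw [mul_assoc, c2, mul_zero])
    rw [smul_mul_assoc, smul_eq_zero] at this
    exact this.resolve_left hη2.ne'
  let χ : F →ₗ[ℂ] B := ρ ∘ₗ LinearMap.mulRight ℂ (1 - q) ∘ₗ LinearMap.mulLeft ℂ (1 - q) ∘ₗ z + O
  have x0 : ∀ x, χ x = ρ ((1 - q) * z x * (1 - q)) + O x := fun _ => rfl
  have x1 : IsCP χ := (hρ.cp.comp (hz.cp.conj (1 - q) (ψ := LinearMap.mulRight ℂ (1 - q) ∘ₗ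
    LinearMap.mulLeft ℂ (1 - q) ∘ₗ z) fun a => by rw [q1.one_sub.isSelfAdjoint.star_eq]; rfl)
    fun _ => rfl).add hO
  have x2 : ∀ e, IsStarProjection e → χ e ≤ (Z + O) e := fun e he => by
    rw [x0, LinearMap.add_apply]
    refine add_le_add_left ?_ _
    have a0 := hZ.cp.proj_nonneg he
    refine (hρ.cp.mono ((k1 q1.one_sub (hz.cp.proj_nonneg he)
      ((Commute.one_left _).sub_left (q3 e))).trans (s2 _ a0))).trans ?_
    rw [(r2 e).1, ← sub_nonneg, ← one_sub_mul]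
    exact Commute.mul_nonneg (sub_nonneg.2 ((hρ.cp.mono hσ1).trans hρ1)) a0
      ((Commute.one_left _).sub_left ((r2 e).1.symm.trans (r2 e).2))
  have x3 : OZ χ := OZ.of_proj x1 fun e he => mul_eq_zero_of_le_of_le (x1.proj_nonneg he) (x2 e he)
    (x1.proj_nonneg he.one_sub) (x2 _ he.one_sub) (hW.mul_eq_zero he.mul_one_sub_self)
  have x4 : ρ q * χ 1 = 0 := by
    rw [x0, mul_add, k4, hρ.mul_eq_zero (by
      rw [← mul_assoc, ← mul_assoc, q1.mul_one_sub_self, zero_mul, zero_mul]), add_zero]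
  refine ⟨q, χ, q1, x3, (x2 1 (IsStarProjection.one F)).trans hW1, x4, fun x => ⟨_, x0 x⟩,
    fun X b x r hX hb => ?_⟩
  set u := τ X with hu
  have nu : ‖u‖ ≤ r := (hσ' _).trans hX
  have e3 : ‖ρ ((1 - P) * u)‖ ≤ η * r := by
    have a1 : IsCP (ρ ∘ₗ LinearMap.mulLeft ℂ (1 - P)) :=
      hρ.cp.comp_half (fun x => (1 - P) * x) fun x x' => by
        rw [star_mul, p1.one_sub.isSelfAdjoint.star_eq, mul_assoc, ← mul_assoc (1 - P),
          p1.one_sub.isIdempotentElem.eq, ← mul_assoc,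
          ← ((Commute.one_left _).sub_left (p2 (star x))).eq, mul_assoc]
        rfl
    exact (a1.norm_le' hη (by simpa using p3) u).trans (mul_le_mul_of_nonneg_left nu hη.le)
  have f0 : IsCP (σ ∘ₗ Φ) := s1.comp hΦ fun _ => rfl
  have f1 : ∀ b, ‖σ (Φ b) * (1 - q)‖ ≤ η * ‖b‖ := fun b => by
    refine norm_le_of_star_mul_le (by positivity) ?_
    have a1 := (f0.ks (le_one_of_norm y0 ((s3 _).trans (norm_le_one_of V0 hΦ1))) b).trans
      (f0.star_mul_le b)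
    rw [star_mul, mul_assoc, ← mul_assoc (star (σ _)), ← mul_assoc]
    refine (star_left_conjugate_le_conjugate a1 _).trans ?_
    rw [mul_smul_comm, smul_mul_assoc, q1.one_sub.isSelfAdjoint.star_eq,
      Algebra.algebraMap_eq_smul_one, mul_pow, mul_comm (η ^ 2), mul_smul]
    exact smul_le_smul_of_nonneg_left (q5.trans
      (smul_le_smul_of_nonneg_left q1.one_sub.le_one hη2.le)) (by positivity)
  have f2 : ‖σ (Φ b) * (1 - q)‖ ≤ η * r := (f1 _).trans (by gcongr)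
  have f3 : ‖(1 - q) * σ (Φ b)‖ ≤ η * r := by
    have := f1 (star b)
    rw [hΦ.map_star, s1.map_star, ← q1.one_sub.isSelfAdjoint.star_eq, ← star_mul, norm_star,
      norm_star] at this
    exact this.trans (by gcongr)
  set δ := X - Φ b - Z x with hδ
  set f := σ (Φ b)
  set g := z x
  have f4 : P * u = σ δ + f + g := by rw [hδ, map_sub, map_sub, ← s0, ← z0]; abel
  have f5 : q * u * q = q * (σ δ + f + g) * q := by rw [← f4, ← mul_assoc, k3]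
  have f6 : g = q * g * q + (1 - q) * g * (1 - q) := by
    rw [(q3 _).eq, ((Commute.one_left g).sub_left (q3 _)).eq, mul_assoc, mul_assoc,
      q1.isIdempotentElem.eq, q1.one_sub.isIdempotentElem.eq, ← mul_add, add_sub_cancel, mul_one]
  have f7 : q * u * q + (1 - q) * g * (1 - q) - P * u =
      q * σ δ * q - σ δ - ((1 - q) * f + q * (f * (1 - q))) := by
    rw [f5, f4]
    conv_lhs => enter [2, 2]; rw [f6]
    noncomm_ring
  have nq := q1.norm_le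
  have f8 : ‖q * u * q + (1 - q) * g * (1 - q) - P * u‖ ≤ 2 * ‖δ‖ + 2 * (η * r) := by
    rw [f7]
    have a1 : ‖q * σ δ * q‖ ≤ 1 * ‖δ‖ * 1 := norm_mul₃_le.trans (by gcongr; exact s3 _)
    have a2 : ‖q * (f * (1 - q))‖ ≤ 1 * (η * r) := (norm_mul_le _ _).trans (by gcongr)
    have a3 := norm_sub_le (q * σ δ * q - σ δ) ((1 - q) * f + q * (f * (1 - q)))
    have a4 := norm_sub_le (q * σ δ * q) (σ δ)
    have a5 := norm_add_le ((1 - q) * f) (q * (f * (1 - q)))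
    linarith [s3 δ]
  have e4 : ρ (q * u * q) + χ x - (ρ u + O x) =
      ρ (q * u * q + (1 - q) * g * (1 - q) - P * u) - ρ ((1 - P) * u) := by
    rw [x0, sub_mul 1 P, one_mul, map_sub, map_sub, map_add]
    abel
  rw [e4]
  linarith [norm_sub_le (ρ (q * u * q + (1 - q) * g * (1 - q) - P * u))
    (ρ ((1 - P) * u)), hρ' (q * u * q + (1 - q) * g * (1 - q) - P * u)]

theorem Idl.merge (h : Idl j) (c : ℕ → CA A) (hm : ∀ k x, ∃ b, j b = (c k).φ x)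
    {F : Type} [CStarAlgebra F] [PartialOrder F] [StarOrderedRing F] [FiniteDimensional ℂ F]
    {Ψ : E →ₗ[ℂ] F} (hΨ : IsCP Ψ) (hΨ' : ∀ a, ‖Ψ a‖ ≤ ‖a‖) {θ : E →ₗ[ℂ] BA A} (hθ : IsCP θ)
    (hθ' : ∀ a, ‖θ a‖ ≤ ‖a‖) {Φ : A →ₗ[ℂ] UA A} (hΦ : IsCP Φ) (hΦ1 : Φ 1 ≤ 1)
    {Z O : F →ₗ[ℂ] UA A} (hZ : OZ Z) (hO : IsCP O) (hW : OZ (Z + O)) (hW1 : Z 1 + O 1 ≤ 1)
    (hl : ∀ x, ∃ s ∈ Lf j, Ult.mk s = O x) (c1 : ∀ x, Commute (Φ 1) (Z x)) (c2 : Φ 1 * O 1 = 0)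
    (r1 : uT c (Φ 1) = uT c 1 * Φ 1 ∧ uT c (Φ 1) = Φ 1 * uT c 1)
    (r2 : ∀ x, uT c (Z x) = uT c 1 * Z x ∧ uT c (Z x) = Z x * uT c 1) {η : ℝ} (hη : 0 < η) :
    ∃ d : ℕ → Colour j, ∀ a, ‖sT d a - (uT c (Ult.mk (θ a)) + O (Ψ a))‖ ≤
      5 * η * ‖a‖ + 2 * ‖Ult.mk (θ a) - Φ (j a) - Z (Ψ a)‖ := by
  obtain ⟨P, p1, p2, p3, p4⟩ := ult_central c hη
  obtain ⟨q, χ, q1, x3, x1, x4, x0, x6⟩ := merge_core (uφ_oz c) (uφ_one c) (uψ_spec c).1
    (uψ_one c) hη p1 p2 p3 p4 (fun hz _ hy hc => ult_cut hz hy hc) hΦ hΦ1 hZ hO hW hW1 c1 c2 r1 r2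
  have r0 : 0 ≤ uφ c q := (uφ_spec c).1.proj_nonneg q1
  have x5 := mul_eq_zero_comm_sa r0.isSelfAdjoint x3.cp.one_nonneg.isSelfAdjoint x4
  obtain ⟨q', hq', rfl⟩ := proj_lift q1
  let r : BA A := Bdd.map (fun k => (c k).φ) (fun k => (c k).φ_le) q'
  have t0 : Ult.mk r = uφ c (Ult.mk q') := ((uφ_spec c).2.2 q').symm
  have t1 : IsSelfAdjoint r :=
    Bdd.isSelfAdjoint fun k => ((c k).oz.cp.proj_nonneg (hq' k)).isSelfAdjoint
  have g1 := Gf_cont hη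
  have g2 := Hf_cont hη
  have g3 : Continuous fun s => s * Gf η s := by fun_prop
  obtain ⟨t5, t4, t3⟩ := Hf_kill hη t1
  obtain ⟨d₂, d1, d2⟩ := h.lift_col x3 x1 t5 (fun x => by
    obtain ⟨g, hg⟩ := x0 x
    obtain ⟨g, rfl⟩ := Ult.surj g
    obtain ⟨s, hs, hs'⟩ := hl x
    have a1 : Bdd.map (fun k => (c k).φ) (fun k => (c k).φ_le) g + s ∈ Lf j :=
      add_mem (fun k => hm k _) hs
    refine ⟨_, h.Lf_both (1 - cfc (fun s => s * Gf η s) r) (1 - cfc (fun s => s * Gf η s) r) a1,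
      by rw [← mul_assoc, ← mul_assoc, t4, zero_mul, zero_mul], ?_, ?_⟩
    · rw [mul_assoc, t3, mul_zero]
    · rw [map_mul, map_mul, map_add, ← (uφ_spec c).2.2, hs', ← hg, map_sub, map_one,
        hom_cfc _ g3 t1, t0, sub_mul,
        cfc_mul_eq_zero r0.isSelfAdjoint (x3.cp.mul_left_eq_zero x4 x) g3 (by simp), one_mul,
        sub_zero, mul_sub,
        mul_cfc_eq_zero r0.isSelfAdjoint (x3.cp.mul_right_eq_zero x5 x) g3 (by simp),
        mul_one, sub_zero]) hΨ hΨ' hη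
  choose d₁ d3 d4 using fun k => h.corner_col (c k) (hm k)
    (θ := (Bdd.ev k : BA A →⋆ₐ[ℂ] A).toAlgHom.toLinearMap ∘ₗ θ)
    ((hom_isCP (Bdd.ev k) (ψ := (Bdd.ev k : BA A →⋆ₐ[ℂ] A).toAlgHom.toLinearMap)
      fun _ => rfl).comp hθ fun _ => rfl)
    (fun a => (Bdd.norm_ev_le k _).trans (hθ' a)) (hq' k) hη
  choose d hd using fun k => (d₁ k).exists_add (d₂ k) (by
    rw [d3, ← d1 k, map_mul, hom_cfc _ g2 t1]; rfl)
  refine ⟨d, fun a => ?_⟩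
  have e1 : sT d a = sT d₁ a + sT d₂ a := by
    rw [sT, sT, sT, ← map_add]
    exact congrArg _ (Bdd.ext fun k => by simp [hd])
  have e2 : ‖sT d₁ a - uφ c (Ult.mk q' * uψ c (Ult.mk (θ a)) * Ult.mk q')‖ ≤ η * ‖a‖ := by
    rw [(uψ_spec c).2.2, ← map_mul, ← map_mul, (uφ_spec c).2.2, sT, ← map_sub]
    exact Ult.norm_le_of_eventually (Eventually.of_forall fun k => by simpa using d4 k a)
  have e3 := x6 (Ult.mk (θ a)) (j a) (Ψ a) ‖a‖ ((hom_norm_le _ _).trans (hθ' a))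
    (NonUnitalStarAlgHom.norm_apply_le j a)
  have := norm_add₃_le (a := sT d₁ a - uφ c (Ult.mk q' * uψ c (Ult.mk (θ a)) * Ult.mk q'))
    (b := sT d₂ a - χ (Ψ a)) (c := uφ c (Ult.mk q' * uψ c (Ult.mk (θ a)) * Ult.mk q') + χ (Ψ a) -
      (uφ c (uψ c (Ult.mk (θ a))) + O (Ψ a)))
  rw [e1, uT_apply]
  refine le_trans (le_of_eq (congrArg _ (by abel))) (this.trans ?_)
  linarith [d2 a]

lemma sT_finish {N : ℕ} (d : Fin N → ℕ → Colour j) (S : Finset E) {ε : ℝ}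
    (h : ∀ a ∈ S, ‖∑ i, sT (d i) a - dg (j a)‖ < ε) :
    ∃ c : Fin N → Colour j, ∀ a ∈ S, ‖∑ i, (c i).T a - j a‖ ≤ ε := by
  simp only [sT, dg_apply, ← map_sum, ← map_sub] at h
  obtain ⟨k, hk⟩ := ((S.eventually_all).2 fun a ha => Ult.eventually_lt (h a ha)).exists
  exact ⟨fun i => d i k, fun a ha => by simpa using (hk a ha).le⟩

end Pool.Agent.Lib.MP_30b5b4_an
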