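import Pool.Agent.Lib.MP_30b5b4_an.Simp
import Pool.Agent.Lib.MP_30b5b4_an.Tr

/-! Traces in ultraproducts of finite dimensional algebras; localised supporting maps. -/

open scoped CStarAlgebra ComplexOrder Topology
open Filter

set_option linter.unusedSectionVars false
set_option linter.style.haveILetI false

universe u v

namespace Pool.Agent.Lib.MP_30b5b4_an

section alg
variable {B : Type*} [CStarAlgebra B] [PartialOrder B] [StarOrderedRing B]

lemma mul_eq_zero_of_le_smul {a a' c : B} (ha : 0 ≤ a) {r : ℝ} (h : a ≤ r • a') (hc : a' * c = 0) :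
    a * c = 0 := mul_eq_zero_of_le ha h (by rw [smul_mul_assoc, hc, smul_zero])

lemma mul_eq_zero_of_le_smul' {a a' c : B} (ha : 0 ≤ a) {r : ℝ} (h : a ≤ r • a') (hc : c * a' = 0) :
    c * a = 0 := by
  have h1 := star_right_conjugate_le_conjugate h c
  rw [mul_smul_comm, hc, smul_zero, zero_mul] at h1
  simpa [ha.star_eq] using congrArg star (mul_eq_zero_of_conj (c := star c) ha (by rwa [star_star]))

lemma mul_eq_zero_of_mul_star_le {v a c : B} {r : ℝ} (h : v * star v ≤ r • a) (hc : c * a = 0) :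
    c * v = 0 := by
  rw [← CStarRing.mul_star_self_eq_zero_iff, star_mul, mul_assoc, ← mul_assoc v, ← mul_assoc,
    mul_eq_zero_of_le_smul' (mul_star_self_nonneg v) h hc, zero_mul]

lemma norm_le_one_of_star_mul {v : B} (h : star v * v ≤ 1) : ‖v‖ ≤ 1 :=
  norm_le_of_star_mul_le zero_le_one (by simpa using h)

lemma proj_conj_le {q x : B} (hq : IsStarProjection q) (hx : IsSelfAdjoint x) (h : q * x * q = x)
    {r : ℝ} (hr : ‖x‖ ≤ r) : x ≤ r • q := by
  have := star_left_conjugate_le_conjugate (sa_le_of_norm hx hr) q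
  rwa [hq.isSelfAdjoint.star_eq, h, mul_smul_comm, mul_one, smul_mul_assoc,
    hq.isIdempotentElem.eq] at this

lemma row_norm {ι κ : Type*} [Fintype ι] [Fintype κ] [DecidableEq ι] (U : κ → ι → B) (p : ι → B)
    (h1 : ∀ i i', ∑ k, star (U k i) * U k i' = if i = i' then p i else 0)
    (h2 : ∀ k i, U k i * p i = U k i) (k : κ) : ‖∑ i, U k i * star (U k i)‖ ≤ 1 := by
  set R := ∑ i, U k i * star (U k i) with hR
  have R0 : 0 ≤ R := Finset.sum_nonneg fun i _ => mul_star_self_nonneg _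
  have e1 : ∑ k', (∑ i, U k i * star (U k' i)) * star (∑ i, U k i * star (U k' i)) = R := by
    have : ∀ k', (∑ i, U k i * star (U k' i)) * star (∑ i, U k i * star (U k' i)) =
        ∑ i, ∑ i', U k i * (star (U k' i) * U k' i') * star (U k i') := fun k' => by
      simp only [star_sum, star_mul, star_star, Finset.sum_mul_sum, mul_assoc]
    simp only [this]
    rw [Finset.sum_comm]
    refine Finset.sum_congr rfl fun i _ => ?_
    rw [Finset.sum_comm]
    simp only [← Finset.sum_mul, ← Finset.mul_sum, h1]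
    simp [h2]
  have e2 : R * star R ≤ R := by
    conv_rhs => rw [← e1]
    exact Finset.single_le_sum (f := fun k' => (∑ i, U k i * star (U k' i)) *
      star (∑ i, U k i * star (U k' i))) (fun _ _ => mul_star_self_nonneg _) (Finset.mem_univ k)
  have e3 := CStarAlgebra.norm_le_norm_of_nonneg_of_le (mul_star_self_nonneg R) e2
  rw [CStarRing.norm_self_mul_star] at e3
  by_contra h
  nlinarith [norm_nonneg R, not_le.1 h]

end alg

section ult
variable {G : ℕ → Type v} [∀ k, CStarAlgebra (G k)] [∀ k, PartialOrder (G k)]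
  [∀ k, StarOrderedRing (G k)]

lemma Ult.mk_congr {x y : Bdd G} (h : ∀ᶠ k in (om : Filter ℕ), Bdd.ev k x = Bdd.ev k y) :
    Ult.mk x = Ult.mk y := by
  rw [← sub_eq_zero, ← map_sub, ← norm_le_zero_iff]
  exact Ult.norm_le_of_eventually (h.mono fun k hk => by rw [map_sub, hk, sub_self, norm_zero])

lemma tr_ineq {ι κ : Type*} [Fintype ι] [Fintype κ] [DecidableEq ι] (p : ι → Bdd G) (q : κ → Bdd G)
    (hp : ∀ i, IsStarProjection (p i)) (hq : ∀ k, IsStarProjection (q k)) (U : κ → ι → Ult G)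
    (h1 : ∀ i i', ∑ k, star (U k i) * U k i' = if i = i' then Ult.mk (p i) else 0)
    (h2 : ∀ k i, U k i * Ult.mk (p i) = U k i) (h3 : ∀ k i, Ult.mk (q k) * U k i = U k i) :
    ∀ᶠ n in (om : Filter ℕ), ∀ T : G n →ₗ[ℝ] ℝ, IsTr T →
      ∑ i, T (Bdd.ev n (p i)) ≤ 2 * ∑ k, T (Bdd.ev n (q k)) := by
  choose w hw using fun k i => Ult.surj (U k i)
  obtain ⟨u, hu⟩ : ∃ u : κ → ι → Bdd G, u = fun k i => q k * w k i * p i := ⟨_, rfl⟩
  have u0 : ∀ k i, Ult.mk (u k i) = U k i := fun k i => by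
    simp only [hu, map_mul, hw, h2, h3]
  have u1 : ∀ k i, q k * u k i = u k i := fun k i => by
    simp only [hu, ← mul_assoc, (hq k).isIdempotentElem.eq]
  have u2 : ∀ k i, u k i * p i = u k i := fun k i => by
    simp only [hu, mul_assoc, (hp i).isIdempotentElem.eq]
  have u3 : ∀ k i, star (u k i) * q k = star (u k i) := fun k i => by
    rw [← (hq k).isSelfAdjoint.star_eq, ← star_mul, u1]
  have u4 : ∀ k i, p i * star (u k i) = star (u k i) := fun k i => by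
    rw [← (hp i).isSelfAdjoint.star_eq, ← star_mul, u2]
  have a1 : ∀ k, ∀ᶠ n in (om : Filter ℕ), ‖Bdd.ev n (∑ i, u k i * star (u k i))‖ < 3 / 2 :=
    fun k => Ult.eventually_lt (by
      simp only [map_sum, map_mul, map_star, u0]
      exact (row_norm U _ h1 h2 k).trans_lt (by norm_num))
  have a2 : ∀ i, ∀ᶠ n in (om : Filter ℕ), ‖Bdd.ev n (p i - ∑ k, star (u k i) * u k i)‖ < 1 / 4 :=
    fun i => Ult.eventually_lt (by simp [map_sum, map_star, u0, h1])
  filter_upwards [eventually_all.2 a1, eventually_all.2 a2] with n b1 b2 T hT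
  have c1 := fun k => hT.mono (proj_conj_le (hom_proj (Bdd.ev n) (hq k))
    ((isSelfAdjoint_sum _ fun i _ => IsSelfAdjoint.mul_star_self (u k i)).map (Bdd.ev n)) (by
      rw [← map_mul, ← map_mul, Finset.mul_sum, Finset.sum_mul]
      simp only [← mul_assoc, u1]
      simp only [mul_assoc, u3]) (b1 k).le)
  have c2 := fun i => hT.mono (proj_conj_le (hom_proj (Bdd.ev n) (hp i))
    (((hp i).isSelfAdjoint.sub (isSelfAdjoint_sum _ fun k _ =>
      IsSelfAdjoint.star_mul_self (u k i))).map (Bdd.ev n)) (by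
      rw [← map_mul, ← map_mul, mul_sub, sub_mul, Finset.mul_sum, Finset.sum_mul]
      simp only [← mul_assoc, u4, (hp i).isIdempotentElem.eq]
      simp only [mul_assoc, u2]) (b2 i).le)
  have c3 := Finset.sum_le_sum fun k (_ : k ∈ Finset.univ) => c1 k
  have c4 := Finset.sum_le_sum fun i (_ : i ∈ Finset.univ) => c2 i
  simp only [map_sum, map_sub, map_mul, map_smul, smul_eq_mul, Finset.sum_sub_distrib,
    ← Finset.mul_sum] at c3 c4
  rw [Finset.sum_comm] at c3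
  simp only [hT.comm (Bdd.ev n (u _ _))] at c3
  linarith

variable [∀ k, FiniteDimensional ℂ (G k)]

lemma ult_half {a : Ult G} (a0 : 0 ≤ a) (a1 : a ≤ 1) : ∃ p : Bdd G, IsStarProjection p ∧
    Ult.mk p ≤ (2 : ℝ) • a ∧ 1 - Ult.mk p ≤ (2 : ℝ) • (1 - a) := by
  obtain ⟨a, b0, b1, rfl⟩ := unit_lift a0 a1
  let χ : ℝ → ℝ := fun s => if 1 / 2 ≤ s then 1 else 0
  have p1 : ∀ k, IsStarProjection (cfc χ (Bdd.ev k a)) := fun k =>
    fd_proj _ _ fun s => by simp only [χ]; split_ifs <;> simp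
  have c0 := fun k => hom_nonneg (Bdd.ev k) b0
  have c1 : ∀ k, Bdd.ev k a ≤ 1 := fun k => by simpa using hom_mono (Bdd.ev k) b1
  refine ⟨Bdd.of _ 1 fun k => (p1 k).norm_le, bdd_proj p1, ?_, ?_⟩
  · rw [← hom_real_smul]
    refine hom_mono _ (Bdd.le fun k => ?_)
    rw [Bdd.ev_of, hom_real_smul, ← cfc_const_mul_id 2 _ (c0 k).isSelfAdjoint]
    refine cfc_mono (fun s hs => ?_) (fd_cont _ _) (fd_cont _ _)
    have := spec_mem (c0 k) (c1 k) hs
    simp only [χ]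
    split_ifs <;> linarith
  · rw [← map_one Ult.mk, ← map_sub, ← map_sub, ← hom_real_smul]
    refine hom_mono _ (Bdd.le fun k => ?_)
    rw [hom_real_smul, map_sub, map_sub, map_one, Bdd.ev_of]
    have s0 := (c0 k).isSelfAdjoint
    have e : (2 : ℝ) • (1 - Bdd.ev k a) = cfc (fun s : ℝ => 2 * (1 - s)) (Bdd.ev k a) := by
      rw [cfc_const_mul _ _ _, cfc_sub _ _ _, cfc_const_one ℝ _, cfc_id' ℝ _]
    rw [e, ← cfc_const_one ℝ (Bdd.ev k a), ← cfc_sub _ _ _ (fd_cont _ _) (fd_cont _ _)]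
    refine cfc_mono (fun s hs => ?_) (fd_cont _ _) (fd_cont _ _)
    have := spec_mem (c0 k) (c1 k) hs
    simp only [χ]
    split_ifs <;> linarith

lemma ult_cmp {p r : Bdd G} (hp : IsStarProjection p) (hr : IsStarProjection r) (C : ℕ)
    (h : ∀ᶠ n in (om : Filter ℕ), ∀ T : G n →ₗ[ℝ] ℝ, IsTr T →
      T (Bdd.ev n p) ≤ C * T (Bdd.ev n r)) :
    ∃ w : Fin C → Ult G, ∑ t, star (w t) * w t = Ult.mk p ∧ ∀ t, Ult.mk r * w t = w t := by
  have : ∀ n, ∃ w : Fin C → G n, (∀ t, ‖w t‖ ≤ 1) ∧ ((∀ T : G n →ₗ[ℝ] ℝ, IsTr T →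
      T (Bdd.ev n p) ≤ C * T (Bdd.ev n r)) →
      ∑ t, star (w t) * w t = Bdd.ev n p ∧ ∀ t, Bdd.ev n r * w t = w t) := fun n => by
    by_cases h : ∀ T : G n →ₗ[ℝ] ℝ, IsTr T → T (Bdd.ev n p) ≤ C * T (Bdd.ev n r)
    · obtain ⟨w, w1, w2⟩ := fd_cmp (hom_proj _ hp) (hom_proj _ hr) C h
      exact ⟨w, fun t => norm_le_one_of_star_mul ((Finset.single_le_sum
        (f := fun t => star (w t) * w t) (fun _ _ => star_mul_self_nonneg _)
        (Finset.mem_univ t)).trans (w1.trans_le (hom_proj _ hp).le_one)), fun _ => ⟨w1, w2⟩⟩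
    · exact ⟨0, by simp, fun h' => (h h').elim⟩
  choose w w0 w1 using this
  refine ⟨fun t => Ult.mk (Bdd.of (fun n => w n t) 1 fun n => w0 n t), ?_, fun t => ?_⟩
  · simp only [← map_star, ← map_mul, ← map_sum]
    exact Ult.mk_congr (h.mono fun n hn => by simpa [map_star] using (w1 n hn).1)
  · rw [← map_mul]
    exact Ult.mk_congr (h.mono fun n hn => by simpa using (w1 n hn).2 t)

lemma ult_division {p P : Bdd G} (hp : IsStarProjection p) (hP : IsStarProjection P) {m : ℕ}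
    (hm : 0 < m) {ι : Type*} [Fintype ι] (hι : 2 * m ≤ Fintype.card ι) (R : ι → Bdd G)
    (hR : ∀ j, IsStarProjection (R j)) (K : ι → ℝ)
    (h : ∀ᶠ n in (om : Filter ℕ), ∀ T : G n →ₗ[ℝ] ℝ, IsTr T →
      (∀ j, T (Bdd.ev n p) ≤ K j * T (Bdd.ev n (R j))) ∧
      ∑ j, T (Bdd.ev n (R j)) ≤ 2 * T (Bdd.ev n P) ∧ T (Bdd.ev n p) ≤ 2 * T (Bdd.ev n P)) :
    ∃ (g : Ult G) (w : Fin m → Ult G) (x : Fin (4 * m) → Ult G), IsStarProjection g ∧
      (∀ l, star (w l) * w l = g) ∧ (∀ l l', l ≠ l' → star (w l) * w l' = 0) ∧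
      (∀ l, Ult.mk P * w l = w l ∧ w l * Ult.mk P = w l) ∧ ∑ t, star (x t) * x t = Ult.mk p ∧
      ∀ t, g * x t = x t := by
  have : ∀ n, ∃ (g : G n) (w : Fin m → G n) (x : Fin (4 * m) → G n), IsStarProjection g ∧
      (∀ l, star (w l) * w l = g) ∧ (∀ l l', l ≠ l' → star (w l) * w l' = 0) ∧
      (∀ l, Bdd.ev n P * w l = w l ∧ w l * Bdd.ev n P = w l) ∧ (∀ t, ‖x t‖ ≤ 1) ∧
      (∀ t, g * x t = x t) ∧ ((∀ T : G n →ₗ[ℝ] ℝ, IsTr T →
      (∀ j, T (Bdd.ev n p) ≤ K j * T (Bdd.ev n (R j))) ∧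
      ∑ j, T (Bdd.ev n (R j)) ≤ 2 * T (Bdd.ev n P) ∧ T (Bdd.ev n p) ≤ 2 * T (Bdd.ev n P)) →
      ∑ t, star (x t) * x t = Bdd.ev n p) := fun n => by
    by_cases h : ∀ T : G n →ₗ[ℝ] ℝ, IsTr T → (∀ j, T (Bdd.ev n p) ≤ K j * T (Bdd.ev n (R j))) ∧
      ∑ j, T (Bdd.ev n (R j)) ≤ 2 * T (Bdd.ev n P) ∧ T (Bdd.ev n p) ≤ 2 * T (Bdd.ev n P)
    · obtain ⟨g, w, x, g1, w1, w2, w3, x1, x2⟩ := fd_division (hom_proj _ hp) (hom_proj _ hP) hm hι
        (fun j => Bdd.ev n (R j)) (fun j => hom_proj _ (hR j)) K (fun T hT => (h T hT).1)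
        (fun T hT => (h T hT).2.1) fun T hT => (h T hT).2.2
      exact ⟨g, w, x, g1, w1, w2, w3, fun t => norm_le_one_of_star_mul ((Finset.single_le_sum
        (f := fun t => star (x t) * x t) (fun _ _ => star_mul_self_nonneg _)
        (Finset.mem_univ t)).trans (x1.trans_le (hom_proj _ hp).le_one)), x2, fun _ => x1⟩
    · exact ⟨0, 0, 0, by simp, by simp, by simp, by simp, by simp, by simp, fun h' => (h h').elim⟩
  choose g w x g1 w1 w2 w3 x0 x2 x1 using this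
  have w0 : ∀ n l, ‖w n l‖ ≤ 1 := fun n l =>
    norm_le_one_of_star_mul ((w1 n l).trans_le (g1 n).le_one)
  refine ⟨Ult.mk (Bdd.of g 1 fun n => (g1 n).norm_le),
    fun l => Ult.mk (Bdd.of (fun n => w n l) 1 fun n => w0 n l),
    fun t => Ult.mk (Bdd.of (fun n => x n t) 1 fun n => x0 n t), hom_proj _ (bdd_proj g1),
    fun l => ?_, fun l l' hl => ?_, fun l => ⟨?_, ?_⟩, ?_, fun t => ?_⟩ <;>
    simp only [← map_star, ← map_mul, ← map_sum]
  · exact congrArg _ (Bdd.ext fun n => by simpa [map_star] using w1 n l)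
  · rw [← map_zero Ult.mk]
    exact congrArg _ (Bdd.ext fun n => by simpa [map_star] using w2 n l l' hl)
  · exact congrArg _ (Bdd.ext fun n => by simpa using (w3 n l).1)
  · exact congrArg _ (Bdd.ext fun n => by simpa using (w3 n l).2)
  · exact Ult.mk_congr (h.mono fun n hn => by simpa [map_star] using x1 n hn)
  · exact congrArg _ (Bdd.ext fun n => by simpa using x2 n t)

end ult

section loc
variable {U B : Type*} [CStarAlgebra U] [CStarAlgebra B] [PartialOrder B] [StarOrderedRing B]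

/-- the supporting map of an order zero map, localised where the cone coordinate is large -/
noncomputable def spm (φ : U →ₗ[ℂ] B) (δ : ℝ) (m : ℕ) : U →ₗ[ℂ] B :=
  LinearMap.mulLeft ℂ (cfc (fun t => rp δ m t * Gf δ t) (φ 1)) ∘ₗ φ

variable {φ : U →ₗ[ℂ] B} {δ : ℝ} {m m' : ℕ}

lemma spm_apply (x : U) : spm φ δ m x = cfc (fun t => rp δ m t * Gf δ t) (φ 1) * φ x := rfl

lemma rp_Gf (hδ : 0 < δ) (hm : 0 < m) (t : ℝ) : rp δ m t * Gf δ t * t = rp δ m t := by
  rcases le_total t δ with h1 | h1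
  · rw [rp_zero hδ hm h1, zero_mul, zero_mul]
  · rw [Gf, max_eq_left h1, inv_mul_cancel_right₀ (hδ.trans_le h1).ne']

lemma OZ.spm_oz (h : OZ φ) (hδ : 0 < δ) : OZ (spm φ δ m) :=
  h.mulLeft (cfc_nonneg fun _ _ => mul_nonneg (cl_nonneg _) (Gf_nonneg hδ))
    (fun x => (h.commute x).cfc_real _) fun _ => rfl

lemma OZ.spm_one (h : OZ φ) (hδ : 0 < δ) (hm : 0 < m) : spm φ δ m 1 =
    cfc (rp δ m) (φ 1) := by
  have := Gf_cont hδ
  rw [spm_apply, cfc_mul_id (by fun_prop) h.cp.one_nonneg.isSelfAdjoint]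
  simp only [rp_Gf hδ hm]

lemma spm_tier (hδ : 0 < δ) (hm : m < m') (x : U) :
    cfc (rp δ m) (φ 1) * spm φ δ m' x =
      spm φ δ m' x := by
  have := Gf_cont hδ
  rw [spm_apply, ← mul_assoc, cfc_mul' (by fun_prop) (by fun_prop)]
  simp only [← mul_assoc, rp, cl_tier hm]

/-- the localised map is `K * (φ 1 * φ x)` for a fixed `K` -/
lemma OZ.spm_eq (h : OZ φ) (hδ : 0 < δ) (hm : 0 < m) : ∃ K, (∀ x, Commute K (φ x)) ∧
    ∀ x, spm φ δ m x = K * (φ 1 * φ x) := by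
  have := Gf_cont hδ
  refine ⟨cfc (fun t => rp δ m t * Gf δ t * Gf δ t) (φ 1), fun x => (h.commute x).cfc_real _,
    fun x => ?_⟩
  rw [spm_apply, ← mul_assoc, cfc_mul_id (by fun_prop) h.cp.one_nonneg.isSelfAdjoint]
  congr 2
  funext t
  linear_combination (-Gf δ t) * rp_Gf hδ hm t

lemma OZ.spm_mul (h : OZ φ) (hδ : 0 < δ) (hm : 0 < m) (x y : U) :
    spm φ δ m x * spm φ δ m' y =
      cfc (rp δ m) (φ 1) * spm φ δ m' (x * y) := by
  rw [← h.spm_one hδ hm]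
  simp only [spm_apply]
  rw [mul_assoc, ← mul_assoc (φ x), ← ((h.commute x).cfc_real _).eq, mul_assoc _ (φ x), h.mul,
    mul_assoc, ← mul_assoc (φ 1), ← ((h.commute 1).cfc_real _).eq, mul_assoc]

lemma OZ.spm_kill (h : OZ φ) (hδ : 0 < δ) (hm : 0 < m) {P : U} (hP : IsStarProjection P)
    (h1 : ‖φ (1 - P)‖ ≤ δ) (x : U) : spm φ δ m (P * x) =
      spm φ δ m x := by
  have hQ := hP.one_sub
  have q0 := h.cp.proj_nonneg hQ
  have e1 : (φ 1 - φ (1 - P)) * φ (1 - P) = 0 := by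
    rw [sub_mul, h.mul (1 - P), hQ.isIdempotentElem.eq, sub_self]
  have e2 : cfc (rp δ m) (φ 1) * φ (1 - P) = 0 := by
    have c := h.commute (1 - P)
    obtain ⟨X, _, _, ρ, f, JJ, hf, -⟩ := exists_jc ![φ 1, φ (1 - P)]
      (by simp [Fin.forall_fin_two, h.cp.one_nonneg.isSelfAdjoint, -map_sub, q0.isSelfAdjoint])
      (by simpa [Fin.forall_fin_two, -map_sub] using ⟨c, c.symm⟩)
    have f0 : ρ (f 0) = φ 1 := hf 0
    have f1 : ρ (f 1) = φ (1 - P) := hf 1
    have a1 := (JJ.pos (algebraMap ℝ _ δ - f 1)).1 (by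
      rw [map_sub, AlgHom.commutes, f1, sub_nonneg, Algebra.algebraMap_eq_smul_one]
      exact sa_le_of_norm q0.isSelfAdjoint h1)
    have a2 := (JJ.pos ((f 0 - f 1) * f 1)).1 (by rw [map_mul, map_sub, f0, f1, e1])
    have a3 := (JJ.pos (-((f 0 - f 1) * f 1))).1 (by rw [map_neg, map_mul, map_sub, f0, f1, e1, neg_zero])
    rw [← f0, ← f1, JJ.cfc (f 0) ⟨fun t => rp δ m (f 0 t), by fun_prop⟩ _ (rp_cont _ _) fun _ => rfl,
      ← map_mul, ← map_zero ρ]
    congr 1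
    ext t
    have b1 : (f 0 t - f 1 t) * f 1 t = 0 := le_antisymm (by simpa using a3 t) (by simpa using a2 t)
    have b2 : f 1 t ≤ δ := by simpa using a1 t
    rcases _root_.mul_eq_zero.1 b1 with b3 | b3
    · simp [rp_zero hδ hm ((sub_eq_zero.1 b3).trans_le b2)]
    · simp [b3]
  have e3 : spm φ δ m ((1 - P) * x) = 0 := by
    have := Gf_cont hδ
    have e4 : cfc (fun t => rp δ m t * Gf δ t) (φ 1) = cfc (fun t => Gf δ t * Gf δ t) (φ 1) *
        (cfc (rp δ m) (φ 1) * φ 1) := by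
      rw [cfc_mul_id (rp_cont _ _) h.cp.one_nonneg.isSelfAdjoint, cfc_mul' (by fun_prop) (by fun_prop)]
      congr 1
      funext t
      linear_combination (-Gf δ t) * rp_Gf hδ hm t
    rw [spm_apply, e4, mul_assoc, mul_assoc, ← h.mul, ← mul_assoc _ (φ (1 - P)), e2, zero_mul, mul_zero]
  rwa [sub_mul, one_mul, map_sub, sub_eq_zero, eq_comm] at e3

lemma OZ.le_spm [PartialOrder U] [StarOrderedRing U] (h : OZ φ) (h1 : φ 1 ≤ 1) (hδ : 0 < δ)
    (hδ' : δ ≤ 1) {z : U} (z0 : 0 ≤ z) (z1 : z ≤ 1) : φ z ≤ ((m + 1) * δ) • 1 +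
      cfc (rp δ m) (φ 1) * spm φ δ m z := by
  have gc := Gf_cont hδ
  have c := h.commute z
  obtain ⟨X, _, _, ρ, f, JJ, hf, -⟩ := exists_jc ![φ 1, φ z]
    (by simp [Fin.forall_fin_two, h.cp.one_nonneg.isSelfAdjoint, (h.cp.nonneg z0).isSelfAdjoint])
    (by simpa [Fin.forall_fin_two] using ⟨c, c.symm⟩)
  have f0 : ρ (f 0) = φ 1 := hf 0
  have f1 : ρ (f 1) = φ z := hf 1
  have a1 := (JJ.pos (f 1)).1 (f1 ▸ h.cp.nonneg z0)
  have a2 := (JJ.pos (f 0 - f 1)).1 (by rw [map_sub, f0, f1, sub_nonneg]; exact h.cp.mono z1)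
  have a3 := (JJ.pos (1 - f 0)).1 (by rwa [map_sub, map_one, f0, sub_nonneg])
  rw [spm_apply, ← f0, ← f1,
    JJ.cfc (f 0) ⟨fun t => rp δ m (f 0 t), by fun_prop⟩ _ (rp_cont _ _) fun _ => rfl,
    JJ.cfc (f 0) ⟨fun t => rp δ m (f 0 t) * Gf δ (f 0 t), by fun_prop⟩ _ (by fun_prop) fun _ => rfl,
    ← Algebra.algebraMap_eq_smul_one, ← ρ.commutes, ← map_mul, ← map_mul, ← map_add, ← sub_nonneg,
    ← map_sub]
  refine (JJ.pos _).2 fun t => ?_
  have b1 := a1 t
  have b2 : f 1 t ≤ f 0 t := by simpa using a2 t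
  have b3 : f 0 t ≤ 1 := by simpa using a3 t
  have b4 : 1 ≤ Gf δ (f 0 t) := (one_le_inv₀ (hδ.trans_le (le_max_right _ _))).2 (max_le b3 hδ')
  simp only [ContinuousMap.sub_apply, ContinuousMap.add_apply, ContinuousMap.mul_apply,
    ContinuousMap.coe_mk, algebraMap_apply, smul_eq_mul, mul_one, sub_nonneg]
  rcases le_total (f 0 t) ((m + 1) * δ) with h2 | h2
  · have : 0 ≤ rp δ m (f 0 t) * (rp δ m (f 0 t) * Gf δ (f 0 t) * f 1 t) :=
      mul_nonneg (cl_nonneg _) (mul_nonneg (mul_nonneg (cl_nonneg _) (Gf_nonneg hδ)) b1)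
    linarith
  · rw [show rp δ m (f 0 t) = 1 from cl_of_one_le (by linarith [(le_div_iff₀ hδ).2 h2])]
    have : 0 ≤ ((m : ℝ) + 1) * δ := by positivity
    nlinarith

end loc

end Pool.Agent.Lib.MP_30b5b4_an
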