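import Pool.Agent.Lib.MP_30b5b4_an.Lay
import Pool.Agent.Lib.MP_30b5b4_an.VS1

/-! Matrix amplification of colours. -/

open scoped CStarAlgebra ComplexOrder Topology
open Filter

set_option linter.unusedSectionVars false
set_option linter.style.haveILetI false
set_option linter.unusedVariables false
set_option linter.unusedSimpArgs false

namespace Pool.Agent.Lib.MP_30b5b4_an

universe u v w

abbrev Mt (m : ℕ) (A : Type*) := CStarMatrix (Fin (m + 1)) (Fin (m + 1)) A

section mat
variable {A : Type*} [CStarAlgebra A] [PartialOrder A] [StarOrderedRing A] {m : ℕ}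

def sg (i k : Fin (m + 1)) (x : A) : Mt m A := CStarMatrix.ofMatrix (Matrix.single i k x)

lemma star_sg (i k : Fin (m + 1)) (x : A) : star (sg i k x) = sg k i (star x) :=
  Matrix.conjTranspose_single i k x

lemma sg_mul (i k l : Fin (m + 1)) (x y : A) : sg i k x * sg k l y = sg i l (x * y) :=
  Matrix.single_mul_single_same x i k l y

lemma sg_mul_ne (i : Fin (m + 1)) {k k' : Fin (m + 1)} (h : k ≠ k') (l : Fin (m + 1)) (x y : A) :
    sg i k x * sg k' l y = 0 := Matrix.single_mul_single_of_ne x i k k' h y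

lemma sg_mul_mul (i k l n : Fin (m + 1)) (x y : A) (X : Mt m A) :
    sg i k x * X * sg l n y = sg i n (x * X k l * y) :=
  Matrix.single_mul_mul_single i k l n x X y

lemma sg_sub (i k : Fin (m + 1)) (x y : A) : sg i k (x - y) = sg i k x - sg i k y := by
  rw [eq_sub_iff_add_eq]
  exact (Matrix.single_add i k _ _).symm.trans (congrArg _ (sub_add_cancel x y))

noncomputable def cor (i : Fin (m + 1)) : A →⋆ₙₐ[ℂ] Mt m A where
  toFun := sg i i
  map_smul' c x := (Matrix.smul_single c i i x).symm
  map_zero' := Matrix.single_zero i i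
  map_add' x y := Matrix.single_add i i x y
  map_mul' x y := (sg_mul i i i x y).symm
  map_star' x := (star_sg i i x).symm

lemma cor_inj (i : Fin (m + 1)) : Function.Injective (cor (A := A) i) := fun x y h => by
  have := congrFun (congrFun h i) i
  change Matrix.single i i x i i = Matrix.single i i y i i at this
  simpa using this

lemma norm_sg (i k : Fin (m + 1)) (x : A) : ‖sg i k x‖ ≤ ‖x‖ := by
  refine (pow_le_pow_iff_left₀ (norm_nonneg _) (norm_nonneg _) two_ne_zero).1 ?_
  rw [pow_two, pow_two, ← CStarRing.norm_star_mul_self, ← CStarRing.norm_star_mul_self, star_sg,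
    sg_mul]
  exact NonUnitalStarAlgHom.norm_apply_le (cor k) _

lemma norm_le_sum (X : Mt m A) : ‖X‖ ≤ ∑ i, ∑ k, ‖X i k‖ := by
  have : X = ∑ i, ∑ k, sg i k (X i k) := Matrix.matrix_eq_sum_single X
  conv_lhs => rw [this]
  exact norm_sum_le_of_le _ fun i _ => norm_sum_le_of_le _ fun k _ => norm_sg _ _ _

noncomputable def dia : A →⋆ₐ[ℂ] Mt m A where
  toFun x := CStarMatrix.ofMatrix (Matrix.diagonal fun _ => x)
  map_one' := rfl
  map_mul' x y := (Matrix.diagonal_mul_diagonal _ _).symm
  map_zero' := Matrix.diagonal_zero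
  map_add' x y := (Matrix.diagonal_add _ _).symm
  commutes' c := rfl
  map_star' x := (Matrix.diagonal_conjTranspose fun _ => x).symm

lemma dia_mul (x : A) (X : Mt m A) (i k : Fin (m + 1)) : (dia x * X : Mt m A) i k = x * X i k :=
  Matrix.diagonal_mul _ X i k

lemma mul_dia (x : A) (X : Mt m A) (i k : Fin (m + 1)) : (X * dia x : Mt m A) i k = X i k * x :=
  Matrix.mul_diagonal _ X i k

lemma dia_sg (x y : A) (i k : Fin (m + 1)) : dia x * sg i k y = sg i k (x * y) := by
  ext a b
  rw [dia_mul]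
  change x * Matrix.single i k y a b = Matrix.single i k (x * y) a b
  simp only [Matrix.single_apply]
  split_ifs <;> simp

lemma sum_entry {ι : Type*} (s : Finset ι) (X : ι → Mt m A) (i k : Fin (m + 1)) :
    (∑ l ∈ s, X l) i k = ∑ l ∈ s, X l i k := Matrix.sum_apply i k s X

lemma form_entry (C Z C' : Mt m A) :
    (star C * Z * C') 0 0 = ∑ s, ∑ t, star (C s 0) * Z s t * C' t 0 := by
  simp only [CStarMatrix.mul_apply, CStarMatrix.star_apply, Finset.sum_mul]
  exact Finset.sum_comm

instance {F : Type*} [CStarAlgebra F] [PartialOrder F] [StarOrderedRing F] [FiniteDimensional ℂ F] :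
    FiniteDimensional ℂ (Mt m F) :=
  inferInstanceAs (Module.Finite ℂ (Matrix (Fin (m + 1)) (Fin (m + 1)) F))

variable {U : Type*} [CStarAlgebra U] [PartialOrder U] [StarOrderedRing U] {φ : U →ₗ[ℂ] A}

noncomputable def ampl (m : ℕ) (φ : U →ₗ[ℂ] A) : Mt m U →ₗ[ℂ] Mt m A := CStarMatrix.mapₗ φ

lemma ampl_apply (X : Mt m U) (i k : Fin (m + 1)) : ampl m φ X i k = φ (X i k) := rfl

lemma ampl_one : ampl m φ 1 = dia (φ 1) := by
  ext i k
  change φ (if i = k then 1 else 0) = if i = k then φ 1 else 0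
  split_ifs <;> simp

lemma IsCP.ampl (h : IsCP φ) : IsCP (ampl m φ) := by
  intro n a b
  have hs : ∀ X, star (MP_30b5b4_an.ampl m φ X) = MP_30b5b4_an.ampl m φ (star X) := fun X => by
    ext i k
    rw [CStarMatrix.star_apply, ampl_apply, ampl_apply, CStarMatrix.star_apply, h.map_star]
  refine matrix_nonneg _ ?_ fun c => ?_
  · simp only [IsSelfAdjoint, star_sum, star_mul, star_star, hs, mul_assoc]
    exact Finset.sum_comm
  · let C : Mt m A := CStarMatrix.ofMatrix fun s _ => c s
    have e := form_entry C (∑ i, ∑ k, star (b i) * MP_30b5b4_an.ampl m φ (star (a i) * a k) * b k) C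
    refine le_of_le_of_eq ?_ e
    have e2 : ∀ i k, (star C * (star (b i) * MP_30b5b4_an.ampl m φ (star (a i) * a k) * b k) * C) 0 0
        = ∑ l, ∑ s, ∑ t, star ((b i * C) s 0) * φ (star (a i l s) * a k l t) * (b k * C) t 0 :=
      fun i k => by
        rw [← mul_assoc, ← mul_assoc, ← star_mul, mul_assoc _ (b k), form_entry]
        simp only [ampl_apply, CStarMatrix.mul_apply (M := star (a i)), CStarMatrix.star_apply,
          map_sum, Finset.mul_sum, Finset.sum_mul]
        conv_lhs => enter [2, s]; rw [Finset.sum_comm]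
        exact Finset.sum_comm
    simp only [Finset.mul_sum, Finset.sum_mul, sum_entry, e2]
    conv => enter [2, 2, i]; rw [Finset.sum_comm]
    rw [Finset.sum_comm]
    refine Finset.sum_nonneg fun l _ => ?_
    have := h.fintype (fun p : Fin n × Fin (m + 1) => a p.1 l p.2) fun p => (b p.1 * C) p.2 0
    simp only [Fintype.sum_prod_type] at this
    refine this.trans_eq (Finset.sum_congr rfl fun i _ => Finset.sum_comm)

lemma OZ.ampl (h : OZ φ) : OZ (ampl m φ) := by
  refine ⟨h.cp.ampl, fun X Y => ?_⟩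
  ext i k
  rw [ampl_one, dia_mul, ampl_apply, CStarMatrix.mul_apply, CStarMatrix.mul_apply, map_sum,
    Finset.mul_sum]
  exact Finset.sum_congr rfl fun l _ => h.mul _ _

end mat

variable {A : Type u} [CStarAlgebra A] [PartialOrder A] [StarOrderedRing A] {N : ℕ}

noncomputable def CA.ampl (c : CA A) (m : ℕ) : CA (Mt m A) where
  F := Mt m c.F
  ψ := MP_30b5b4_an.ampl m c.ψ
  φ := MP_30b5b4_an.ampl m c.φ
  cp := c.cp.ampl
  le := c.cp.ampl.norm_le (by
    rw [ampl_one, ← map_one dia]
    exact hom_mono _ (le_one_of_norm c.cp.one_nonneg ((c.le 1).trans (norm_one_le' _))))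
  oz := c.oz.ampl
  one := by
    rw [ampl_one, ← map_one dia]
    exact hom_mono _ c.one
  mem := fun _ => ⟨_, rfl⟩

/-- the compression by `W` can be approximated with `N` colours -/
def Loc (N : ℕ) (W : A) : Prop :=
  ∀ (S : Finset A) (ε : ℝ), 0 < ε → ∃ c : Fin N → CA A, ∀ a ∈ S, ‖∑ i, (c i).T a - W * a * W‖ ≤ ε

lemma Loc.ampl {W : A} (h : Loc N W) (m : ℕ) : Loc N (dia W : Mt m A) := by
  classical
  intro S ε hε
  obtain ⟨c, hc⟩ := h (S.biUnion fun X => Finset.univ.image fun p : _ × _ => X p.1 p.2)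
    (ε / ((m + 1) * (m + 1))) (by positivity)
  refine ⟨fun i => (c i).ampl m, fun X hX => (norm_le_sum _).trans ?_⟩
  refine (Finset.sum_le_sum fun i _ => Finset.sum_le_sum fun k _ =>
    (?_ : _ ≤ ε / ((m + 1) * (m + 1)))).trans (le_of_eq ?_)
  · rw [CStarMatrix.sub_apply, sum_entry, mul_dia, dia_mul]
    exact hc _ (Finset.mem_biUnion.2 ⟨X, hX, Finset.mem_image.2 ⟨(i, k), Finset.mem_univ _, rfl⟩⟩)
  · simp only [Finset.sum_const, Finset.card_univ, Fintype.card_fin, nsmul_eq_mul]
    push_cast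
    field_simp

end Pool.Agent.Lib.MP_30b5b4_an
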