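import Pool.Agent.Lib.MP_30b5b4_an.Mor1

/-! Approximations pass to hereditary subalgebras and through partial isometries. -/

open scoped CStarAlgebra ComplexOrder Topology
open Filter

set_option linter.unusedSectionVars false
set_option linter.style.haveILetI false
set_option linter.unusedVariables false
set_option linter.unusedSimpArgs false

namespace Pool.Agent.Lib.MP_30b5b4_an

universe u v w

variable {J : Type*} {A : Type u} [NonUnitalCStarAlgebra J] [PartialOrder J] [StarOrderedRing J]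
  [CStarAlgebra A] [PartialOrder A] [StarOrderedRing A] {j : J →⋆ₙₐ[ℂ] A} {N : ℕ}

/-- the range of `j` is a hereditary subalgebra -/
structure Her (j : J →⋆ₙₐ[ℂ] A) : Prop where
  inj : Function.Injective j
  her : ∀ b a b', ∃ c, j c = j b * a * j b'

lemma Idl.her (h : Idl j) : Her j :=
  ⟨h.inj, fun b a b' => by simpa only [mul_one] using h.both (j b * a) 1 b'⟩

lemma Her.cfc_mem (hj : Her j) {x : A} (hx : ∃ c, j c = x) {f : ℝ → ℝ} (hf : Continuous f)
    (f0 : f 0 = 0) : ∃ c, j c = cfc f x :=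
  cfc_mem_sub (S := NonUnitalStarAlgHom.range j)
    (NonUnitalStarAlgHom.isometry j hj.inj).isClosedEmbedding.isClosed_range hf f0 hx

lemma Her.loc (hj : Her j) {d : Prop} (h : Ap j N d) {w : J} (w0 : 0 ≤ w) (w1 : ‖w‖ ≤ 1) :
    Loc N (j w) := by
  classical
  choose R hR using fun a => hj.her w a w
  let L : A →ₗ[ℂ] J :=
    { toFun := R
      map_add' := fun x y => hj.inj (by rw [map_add, hR, hR, hR, mul_add, add_mul])
      map_smul' := fun r x => hj.inj (by
        rw [map_smul, hR, hR, mul_smul_comm, smul_mul_assoc]; rfl) }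
  obtain ⟨T, hT⟩ := exists_cp_of_isCP L j hj.inj (ψ := cj (j w) LinearMap.id) (fun a => by
    rw [cj_apply, (nu_nonneg j w0).star_eq]; exact (hR a).symm)
    ((IsCP.of_hom id fun _ _ => rfl).cj _)
  have n1 : ‖j w‖ ≤ 1 := (NonUnitalStarAlgHom.norm_apply_le j w).trans w1
  intro S ε hε
  obtain ⟨c, -, hc⟩ := h (S.image R) ε hε
  choose P hP using fun i => exists_cp_of_isCP (c i).ψ (NonUnitalStarAlgHom.id ℂ _)
    Function.injective_id (fun _ => rfl) (c i).cp
  refine ⟨fun i => { c i with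
    ψ := (c i).ψ ∘ₗ L
    cp := isCP_of_cp ⟨(P i).toLinearMap ∘ₗ T.toLinearMap, fun k M hM =>
      (P i).map_cstarMatrix_nonneg' k _ (T.map_cstarMatrix_nonneg' k M hM)⟩
      (NonUnitalStarAlgHom.id ℂ _) fun a => ((hP i _).symm.trans (congrArg (P i) (hT a).symm))
    le := fun a => ((c i).le _).trans ?_
    mem := fun x => ⟨_, rfl⟩ }, fun a ha => ?_⟩
  · rw [← NonUnitalStarAlgHom.norm_map j hj.inj]
    refine (congrArg norm (hR a)).trans_le (norm_mul₃_le.trans ?_)
    calc _ ≤ 1 * ‖a‖ * 1 := by gcongr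
      _ = _ := by ring
  · rw [← hR]
    exact hc _ (Finset.mem_image_of_mem _ ha)

lemma vis_of (c : Fin N → ℕ → CA A) {W b : UA A} (W0 : star W = W) (h1 : W * b = b)
    (h2 : b * W = b) (e0 : ∑ i, uT (c i) 1 = W * 1 * W) (e1 : ∑ i, uT (c i) b = W * b * W)
    (e2 : ∑ i, uT (c i) (star b * b) = W * (star b * b) * W)
    (e3 : ∑ i, uT (c i) (b * star b) = W * (b * star b) * W) (i : Fin N) : Vis (c i) b := by
  have h3 : W * star b = star b := by rw [← W0, ← star_mul, h2]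
  have h4 : star b * W = star b := by rw [← W0, ← star_mul, h1]
  rw [h1, h2] at e1
  rw [← mul_assoc, h3, mul_assoc, h2] at e2
  rw [← mul_assoc, h1, mul_assoc, h4] at e3
  rw [mul_one] at e0
  have e4 : ∑ i, uT (c i) (star b) = star b := by
    conv_rhs => rw [← e1, star_sum]
    exact Finset.sum_congr rfl fun i _ => (uT_cp _).map_star _
  refine ⟨rn_step _ (fun i => uT_cp (c i)) (by rw [e0, mul_assoc, h1, h1]) e1 e2 i, ?_⟩
  have := congrArg star (rn_step _ (fun i => uT_cp (c i))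
    (by rw [e0, mul_assoc, h3, h3]) e4 (by simpa using e3) i)
  rwa [(uT_cp _).map_star, star_star, star_mul, star_star, (uT_cp _).one_nonneg.star_eq] at this

theorem Loc.core {W : BA A} (hW : ∀ k, Loc N (Bdd.ev k W)) (W0 : 0 ≤ W) {V e : A} (e0 : 0 ≤ e)
    (e1 : e ≤ 1) (V1 : ‖V‖ ≤ 1) (h1 : e * (star V * V) = e) (h2 : Ult.mk W * dg e = dg e)
    (S : Finset A) (hS : ∀ a ∈ S, ‖a‖ ≤ 1 ∧ e * a = a ∧ a * e = a) {ε : ℝ} (hε : 0 < ε) :
    ∃ d : Fin N → CA A, (∀ i, (d i).φ 1 ≤ (2 : ℝ) • (V * star V)) ∧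
      ∀ a ∈ S, ‖∑ i, (d i).T a - V * a * star V‖ ≤ ε := by
  classical
  let S' : Finset A := insert 1 ((insert e S).biUnion fun a => {a, star a * a, a * star a})
  choose c hc using fun k : ℕ => hW k S' _ (show (0 : ℝ) < 1 / ((k : ℝ) + 1) by positivity)
  have c1 : ∀ a ∈ S', ∑ i, uT (fun k => c k i) (dg a) = Ult.mk W * dg a * Ult.mk W := fun a ha => by
    simp only [dg_apply, uT_mk, ← map_mul, ← map_sum]
    exact Ult.mk_eq_of_le 1 fun k => by simpa using hc k a ha
  have w0 := (hom_nonneg Ult.mk W0).star_eq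
  have E0 := hom_nonneg dg e0
  have h3 : dg e * Ult.mk W = dg e := by simpa only [star_mul, w0, E0.star_eq] using congrArg star h2
  have c2 : ∀ a ∈ insert e S, Ult.mk W * dg a = dg a ∧ dg a * Ult.mk W = dg a := fun a ha => by
    rcases Finset.mem_insert.1 ha with rfl | ha
    · exact ⟨h2, h3⟩
    · exact ⟨by rw [← (hS a ha).2.1, map_mul, ← mul_assoc, h2],
        by rw [← (hS a ha).2.2, map_mul, mul_assoc, h3]⟩
  have c3 : ∀ a ∈ insert e S, ∀ b ∈ ({a, star a * a, a * star a} : Finset A), b ∈ S' :=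
    fun a ha b hb => Finset.mem_insert_of_mem (Finset.mem_biUnion.2 ⟨a, ha, hb⟩)
  have c4 : ∀ a ∈ insert e S, ∀ i, Vis (fun k => c k i) (dg a) := fun a ha =>
    vis_of (fun i k => c k i) w0 (c2 a ha).1 (c2 a ha).2
      (by simpa only [map_one] using c1 1 (Finset.mem_insert_self _ _)) (c1 _ (c3 a ha _ (by simp)))
      (by simpa only [map_mul, map_star] using c1 _ (c3 a ha (star a * a) (by simp)))
      (by simpa only [map_mul, map_star] using c1 _ (c3 a ha (a * star a) (by simp)))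
  have s1 : ∀ a ∈ dg '' (S : Set A), ‖(a : UA A)‖ ≤ 1 := by
    rintro _ ⟨a, ha, rfl⟩
    exact (hom_norm_le _ _).trans (hS a ha).1
  set η := ε / (3 * N + 1) with hη
  have hη0 : 0 < η := by positivity
  choose d C d1 d2 using fun i => URep.of_unit (fun k => c k i) s1 E0
    (by simpa using hom_mono dg e1) (c4 e (Finset.mem_insert_self _ _) i)
    (by rintro _ ⟨a, ha, rfl⟩; exact c4 a (Finset.mem_insert_of_mem ha) i)
    (by rintro _ ⟨a, ha, rfl⟩; rw [← map_mul, ← map_mul, (hS a ha).2.1, (hS a ha).2.2]; simp) η hη0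
  have i0 := fun i => (uφ_oz (d i)).cp.one_nonneg
  choose f f1 f2 f3 using fun i => upush (d i) (cst V) (u := fun t => cl (2 / η * t - 1))
    (by fun_prop) (Hf_cont hη0) (cl_Hf hη0) (fun _ => Hf_nonneg hη0) (fun _ => Hf_le hη0) (by
      rw [cfc_mul_eq_zero (f := fun t => cl (2 / η * t - 1)) (i0 i).isSelfAdjoint
        (mul_eq_zero_of_le (i0 i) (d1 i) (by
          rw [smul_mul_assoc, mul_assoc, ← dg_apply, ← map_star, ← map_mul, mul_sub, ← map_mul, h1,
            mul_one, sub_self, mul_zero, smul_zero])) (by fun_prop) (cl_of_nonpos (by simp)),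
        zero_mul])
  have v1 : ‖(dg V : UA A)‖ ≤ 1 := (hom_norm_le _ _).trans V1
  have key : ∀ a ∈ S, ‖∑ i, uT (f i) (dg a) - dg (V * a * star V)‖ < ε := fun a ha => by
    have ha' := Finset.mem_insert_of_mem (b := e) ha
    have a1 : ∑ i, dg V * (uT (fun k => c k i) 1 * dg e * dg a) * star (dg V) =
        dg (V * a * star V) := by
      simp only [mul_assoc _ (dg e), ← map_mul dg e, (hS a ha).2.1, ← (c4 a ha' _).1]
      rw [← Finset.sum_mul, ← Finset.mul_sum, c1 a (c3 a ha' _ (by simp)), (c2 a ha').1,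
        (c2 a ha').2, map_mul, map_mul, map_star]
    rw [← a1, ← Finset.sum_sub_distrib]
    refine ((norm_sum_le _ _).trans (Finset.sum_le_sum fun i _ => (?_ : _ ≤ 3 * η))).trans_lt ?_
    · have a2 := (Hf_cut (d i) hη0 (dg a)).trans
        (mul_le_of_le_one_right (by positivity) (s1 _ ⟨a, ha, rfl⟩))
      have a3 := norm_add_le_of_le a2 (d2 i _ ⟨a, ha, rfl⟩)
      rw [sub_add_sub_cancel] at a3
      rw [f3, ← dg_apply, ← sub_mul, ← mul_sub]
      refine norm_mul₃_le.trans ?_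
      rw [norm_star]
      calc _ ≤ 1 * (2 * η + η) * 1 := by gcongr
        _ = _ := by ring
    · have a3 : (3 * N + 1) * η = ε := by rw [hη]; field_simp
      simp only [Finset.sum_const, Finset.card_univ, Fintype.card_fin, nsmul_eq_mul]
      nlinarith
  simp only [dg_apply, uT_mk, ← map_sum, ← map_sub] at key
  obtain ⟨k, hk⟩ := ((S.eventually_all).2 fun a ha => Ult.eventually_lt (key a ha)).exists
  exact ⟨fun i => f i k, fun i => f1 i k, fun a ha => by simpa using (hk a ha).le⟩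

lemma cut_le {x R : A} (R0 : 0 ≤ R) {ε : ℝ} (hε : 0 < ε) (h : x * star x ≤ R + ε ^ 2 • 1) :
    ‖x - cfc (rp (ε ^ 2) 3) R * x‖ ≤ 3 * ε := by
  have hδ : 0 < ε ^ 2 := by positivity
  have e : x - cfc (rp (ε ^ 2) 3) R * x = cfc (fun t => 1 - rp (ε ^ 2) 3 t) R * x := by
    rw [cfc_sub _ _ _, cfc_const_one ℝ _, sub_mul, one_mul]
  have h1 := star_right_conjugate_le_conjugate h (cfc (fun t => 1 - rp (ε ^ 2) 3 t) R)
  rw [e, ← norm_star]
  refine norm_le_of_star_mul_le (by positivity) ?_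
  rw [star_star, star_mul, mul_assoc, ← mul_assoc x, ← mul_assoc]
  refine h1.trans ?_
  rw [IsSelfAdjoint.cfc.star_eq, mul_add, mul_smul_comm, mul_one,
    cfc_mul_id (by fun_prop) R0.isSelfAdjoint, ← cfc_const_mul _ _ R, ← cfc_add R _ _,
    cfc_mul' (by fun_prop) (by fun_prop), ← cfc_const _ R]
  refine cfc_mono fun t ht => ?_
  have t0 := spectrum_nonneg_of_nonneg R0 ht
  have a1 : 0 ≤ rp (ε ^ 2) 3 t := cl_nonneg _
  have a2 : rp (ε ^ 2) 3 t ≤ 1 := cl_le_one _
  rcases le_total t (4 * ε ^ 2) with h2 | h2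
  · have a3 : (1 - rp (ε ^ 2) 3 t) * (1 - rp (ε ^ 2) 3 t) ≤ 1 := by nlinarith
    nlinarith [mul_le_mul_of_nonneg_left a3 (add_nonneg t0 hδ.le)]
  · have : rp (ε ^ 2) 3 t = 1 := cl_of_one_le (by
      have := (le_div_iff₀ hδ).2 h2
      push_cast
      linarith)
    rw [this]
    nlinarith

theorem Loc.her (hj : Her j) {W : BA A} (hW : ∀ k, Loc N (Bdd.ev k W)) (W0 : 0 ≤ W) {V : A}
    (hV : ∃ r, j r = V * star V) (h2 : Ult.mk W * dg (star V) = dg (star V)) (S : Finset J) {ε : ℝ}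
    (hε : 0 < ε) (hS : ∀ a ∈ S, ‖a‖ ≤ 1 ∧ j a * star (j a) ≤ V * star V + ε ^ 2 • 1 ∧
      star (j a) * j a ≤ V * star V + ε ^ 2 • 1) :
    ∃ c : Fin N → Colour j, ∀ a ∈ S, ‖∑ i, (c i).T a - j a‖ ≤ 7 * ε := by
  classical
  have hδ : 0 < ε ^ 2 := by positivity
  have R0 : 0 ≤ V * star V := mul_star_self_nonneg V
  generalize hR : V * star V = R at hV hS R0
  have Rs := R0.isSelfAdjoint
  have g1 := Gf_cont hδ
  have n0 : ∀ m t, 0 ≤ rp (ε ^ 2) m t * Gf (ε ^ 2) t := fun m t =>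
    mul_nonneg (cl_nonneg _) (Gf_nonneg hδ)
  let g := cfc (fun t => √(rp (ε ^ 2) 1 t * Gf (ε ^ 2) t)) R
  let h := cfc (fun t => √(rp (ε ^ 2) 2 t * Gf (ε ^ 2) t)) R
  have g0 : star g = g := IsSelfAdjoint.cfc.star_eq
  have h0 : star h = h := IsSelfAdjoint.cfc.star_eq
  have r0 : ∀ m, star (cfc (rp (ε ^ 2) m) R) = cfc (rp (ε ^ 2) m) R := fun m =>
    IsSelfAdjoint.cfc.star_eq
  have k1 : ∀ m, 0 < m → cfc (fun t => √(rp (ε ^ 2) m t * Gf (ε ^ 2) t)) R * R *
      cfc (fun t => √(rp (ε ^ 2) m t * Gf (ε ^ 2) t)) R = cfc (rp (ε ^ 2) m) R := fun m hm => by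
    rw [cfc_mul_id (by fun_prop) Rs, cfc_mul' (by fun_prop) (by fun_prop)]
    refine congrArg (cfc · R) (funext fun t => ?_)
    rw [mul_right_comm, Real.mul_self_sqrt (n0 _ _), rp_Gf hδ hm]
  have cm : ∀ f f' : ℝ → ℝ, Commute (cfc f R) (cfc f' R) := fun f f' => cfc_commute_cfc _ _ _
  have cR : ∀ f : ℝ → ℝ, Commute (cfc f R) R := fun f => (Commute.refl R).cfc_real f
  have a1 : g * V * star (g * V) = cfc (rp (ε ^ 2) 1) R := by
    rw [star_mul, g0, mul_assoc, ← mul_assoc V, hR, ← mul_assoc, k1 1 one_pos]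
  have a2 : h * V * star (h * V) = cfc (rp (ε ^ 2) 2) R := by
    rw [star_mul, h0, mul_assoc, ← mul_assoc V, hR, ← mul_assoc, k1 2 two_pos]
  have n1 : ∀ {y : A} {m}, y * star y = cfc (rp (ε ^ 2) m) R → ‖y‖ ≤ 1 := fun {y m} hy => by
    rw [← norm_star]
    exact norm_le_one_of_star_mul (by rw [star_star, hy]; exact (rp_unit _ _ _).2)
  have a3 : h * V * star (g * V) = g * R * h := by
    rw [star_mul, g0, mul_assoc, ← mul_assoc V, hR, ← mul_assoc, (cR _).eq, mul_assoc,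
      (cm _ _).eq, ← mul_assoc, ← (cR _).eq]
  have a4 : h * V * (star (g * V) * (g * V)) = h * V := by
    rw [← mul_assoc, a3, mul_assoc (g * R), ← mul_assoc h, (cm _ _).eq, mul_assoc g h, ← mul_assoc,
      k1 1 one_pos, ← mul_assoc]
    congr 1
    rw [cfc_mul' (by fun_prop) (by fun_prop)]
    refine congrArg (cfc · R) (funext fun t => ?_)
    rcases le_total t (2 * ε ^ 2) with h1 | h1
    · have : rp (ε ^ 2) 2 t = 0 := cl_of_nonpos (by
        have := (div_le_iff₀ hδ).2 h1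
        push_cast
        linarith)
      simp [this]
    · have : rp (ε ^ 2) 1 t = 1 := cl_of_one_le (by
        have := (le_div_iff₀ hδ).2 h1
        push_cast
        linarith)
      rw [this, one_mul]
  obtain ⟨U, hU⟩ : ∃ U, U = cfc (rp (ε ^ 2) 3) R * (g * V) := ⟨_, rfl⟩
  have hU' : star U = star (g * V) * cfc (rp (ε ^ 2) 3) R := by rw [hU, star_mul, r0]
  have u1 : ‖U‖ ≤ 1 := hU ▸ (norm_mul_le_of_le (norm_le_one_of (rp_unit _ _ _).1 (rp_unit _ _ _).2)
    (n1 a1)).trans_eq (one_mul _)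
  have u2 : star (h * V) * (h * V) * star U = star U := by
    rw [hU', mul_assoc, ← mul_assoc (h * V), a3, star_mul, h0, star_mul, g0,
      mul_assoc, mul_assoc (star V)]
    congr 1
    rw [← mul_assoc, ← mul_assoc, ← mul_assoc, (cm _ _).eq, mul_assoc g, mul_assoc g, mul_assoc g,
      k1 2 two_pos, rp_tier (by norm_num)]
  have u3 : g * V * star U = cfc (rp (ε ^ 2) 3) R := by
    rw [hU', ← mul_assoc, a1, rp_tier (by norm_num)]
  have nj := NonUnitalStarAlgHom.norm_apply_le j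
  have n2 : ∀ a, ‖star U * j a * U‖ ≤ ‖a‖ := fun a => norm_mul₃_le.trans (by
    rw [norm_star]
    calc _ ≤ 1 * ‖a‖ * 1 := by gcongr; exact nj a
      _ = _ := by ring)
  obtain ⟨d, d1, d2⟩ := Loc.core hW W0 (V := g * V) (star_mul_self_nonneg (h * V))
    (le_one_of_norm (star_mul_self_nonneg _) (by
      rw [CStarRing.norm_star_mul_self]; exact mul_le_one₀ (n1 a2) (norm_nonneg _) (n1 a2)))
    (n1 a1) (by rw [mul_assoc, a4]) (by
      rw [star_mul, mul_assoc, map_mul, ← mul_assoc, h2]) (S.image fun a => star U * j a * U) (by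
      intro b hb
      obtain ⟨a, ha, rfl⟩ := Finset.mem_image.1 hb
      refine ⟨(n2 a).trans (hS a ha).1, by rw [← mul_assoc, ← mul_assoc, u2], ?_⟩
      have := congrArg star u2
      rw [star_mul, star_star, (star_mul_self_nonneg _).star_eq] at this
      rw [mul_assoc, this]) hε
  obtain ⟨w, hw⟩ := hj.cfc_mem hV (rp_cont (ε ^ 2) 0) (cl_of_nonpos (by simp))
  have m1 : ∀ i x, ∃ b, j b = (d i).φ x := fun i x => by
    have b1 : (1 - j w) * (d i).φ 1 = 0 := mul_eq_zero_of_le_smul' (d i).oz.cp.one_nonneg (d1 i) (by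
      rw [a1, hw, sub_mul, rp_tier one_pos, one_mul, sub_self])
    have b2 := (d i).oz.mul_left_eq_zero b1 x
    have b3 := (d i).oz.mul_right_eq_zero (w := 1 - j w) (mul_eq_zero_comm_sa
      ((IsSelfAdjoint.one A).sub (hw ▸ IsSelfAdjoint.cfc)) (d i).oz.cp.one_nonneg.isSelfAdjoint b1) x
    rw [sub_mul, one_mul, sub_eq_zero] at b2
    rw [mul_sub, mul_one, sub_eq_zero] at b3
    obtain ⟨b, hb⟩ := hj.her w ((d i).φ x) w
    exact ⟨b, by rw [hb, ← b2, ← b3]⟩
  refine ⟨fun i => { d i with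
    ψ := (d i).ψ ∘ₗ cj U (j : J →ₗ[ℂ] A)
    cp := (d i).cp.comp_half (fun a => j a * U) fun a a' => by
      simp [cj_apply, mul_assoc, map_star]
    le := fun a => ((d i).le _).trans (n2 a)
    mem := m1 i }, fun a ha => ?_⟩
  have b1 := d2 _ (Finset.mem_image_of_mem _ ha)
  have b2 := congrArg star u3
  rw [star_mul, star_star, r0] at b2
  rw [← mul_assoc (g * V), ← mul_assoc (g * V), u3, mul_assoc _ U, b2] at b1
  have b3 := cut_le R0 hε (hS a ha).2.1
  have b4 := cut_le (x := star (j a)) R0 hε (by rw [star_star]; exact (hS a ha).2.2)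
  rw [← norm_star, star_sub, star_mul, star_star, r0] at b4
  change ‖∑ i, (d i).T (star U * j a * U) - j a‖ ≤ _
  have b5 := norm_mul_le_of_le (norm_le_one_of (rp_unit (ε ^ 2) 3 R).1 (rp_unit _ _ _).2) b4
  generalize ∑ i, (d i).T (star U * j a * U) = X at b1
  generalize cfc (rp (ε ^ 2) 3) R = y at b1 b3 b5
  rw [show X - j a = (X - y * j a * y) - y * (j a - j a * y) - (j a - y * j a) by noncomm_ring]
  exact (norm_sub_le_of_le (norm_sub_le_of_le b1 b5) b3).trans_eq (by ring)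

end Pool.Agent.Lib.MP_30b5b4_an
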