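import Pool.Agent.Lib.MP_30b5b4_an.Mor2
import Pool.Agent.Lib.MP_30b5b4_an.T.Pt

/-! Nuclear dimension passes from a hereditary subalgebra to the ideal it generates. -/

open scoped CStarAlgebra ComplexOrder Topology
open Filter

set_option linter.unusedSectionVars false
set_option linter.style.haveILetI false
set_option linter.unusedVariables false
set_option linter.unusedSimpArgs false

namespace Pool.Agent.Lib.MP_30b5b4_an

universe u v w

variable {J P : Type*} {A : Type u} [NonUnitalCStarAlgebra J] [PartialOrder J] [StarOrderedRing J]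
  [NonUnitalCStarAlgebra P] [PartialOrder P] [StarOrderedRing P]
  [CStarAlgebra A] [PartialOrder A] [StarOrderedRing A] {j : J →⋆ₙₐ[ℂ] A} {i : P →⋆ₙₐ[ℂ] A} {N : ℕ}

lemma Colour.move {B : Type*} [CStarAlgebra B] [PartialOrder B] [StarOrderedRing B]
    {j' : J →⋆ₙₐ[ℂ] B} (hj : Function.Injective j') (c : Colour j') (j : J →⋆ₙₐ[ℂ] A) :
    ∃ c' : Colour j, ∀ a, ∃ b, j' b = c.T a ∧ j b = c'.T a := by
  choose f hf using c.mem
  let f' : c.F →ₗ[ℂ] J :=
    { toFun := f
      map_add' := fun x y => hj (by rw [map_add, hf, hf, hf, map_add])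
      map_smul' := fun r x => hj (by rw [map_smul, hf, hf, map_smul]; rfl) }
  obtain ⟨φ, hφ⟩ := exists_cp_of_isCP f' j' hj (fun x => (hf x).symm) c.oz.cp
  have h1 : IsCP ((j : J →ₗ[ℂ] A) ∘ₗ f') := isCP_of_cp φ j fun x => congrArg j (hφ x).symm
  refine ⟨{ c with
    φ := (j : J →ₗ[ℂ] A) ∘ₗ f'
    oz := ⟨h1, fun x y => ?_⟩
    one := le_one_of_norm h1.one_nonneg ?_
    mem := fun x => ⟨_, rfl⟩ }, fun a => ⟨f _, hf _, rfl⟩⟩
  · change j (f x) * j (f y) = j (f 1) * j (f (x * y))
    rw [← map_mul, ← map_mul]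
    exact congrArg j (hj (by rw [map_mul, map_mul, hf, hf, hf, hf, c.oz.mul]))
  · refine (NonUnitalStarAlgHom.norm_apply_le j (f 1)).trans ?_
    rw [← NonUnitalStarAlgHom.norm_map j' hj, hf]
    exact (c.φ_le 1).trans (norm_one_le' _)

/-- finite sums of squares of elements of the left ideal generated by the range of `i` -/
def Cone (i : P →⋆ₙₐ[ℂ] A) (R : A) : Prop :=
  ∃ (κ : Type) (_ : Fintype κ) (x : κ → A) (b : κ → P),
    R = ∑ l, x l * i (b l) * star (x l * i (b l))

lemma Cone.of (b : P) : Cone i (i b * star (i b)) :=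
  ⟨Unit, inferInstance, fun _ => 1, fun _ => b, by simp⟩

lemma Cone.nonneg {R : A} (h : Cone i R) : 0 ≤ R := by
  obtain ⟨κ, _, x, b, rfl⟩ := h
  exact Finset.sum_nonneg fun l _ => mul_star_self_nonneg _

lemma Cone.add {R R' : A} (h : Cone i R) (h' : Cone i R') : Cone i (R + R') := by
  obtain ⟨κ, _, x, b, rfl⟩ := h
  obtain ⟨κ', _, x', b', rfl⟩ := h'
  exact ⟨κ ⊕ κ', inferInstance, Sum.elim x x', Sum.elim b b', by rw [Fintype.sum_sum_type]; rfl⟩

lemma Cone.sum {ι : Type*} (s : Finset ι) {R : ι → A} (h : ∀ a ∈ s, Cone i (R a)) :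
    Cone i (∑ a ∈ s, R a) :=
  Finset.sum_induction _ _ (fun _ _ => Cone.add) (by simpa using Cone.of (i := i) 0) h

lemma Cone.conj {R : A} (h : Cone i R) (y : A) : Cone i (y * R * star y) := by
  obtain ⟨κ, _, x, b, rfl⟩ := h
  refine ⟨κ, inferInstance, fun l => y * x l, b, ?_⟩
  simp only [Finset.mul_sum, Finset.sum_mul, star_mul, mul_assoc]

lemma Cone.mem {R : A} (h : Cone i R) (hj : Idl j) (hi : ∀ b, ∃ c, j c = i b) : ∃ c, j c = R := by
  obtain ⟨κ, _, x, b, rfl⟩ := h
  choose c hc using hi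
  choose d hd using fun l => hj.both (x l) (star (x l * i (b l))) (c (b l))
  exact ⟨∑ l, d l, by simp only [map_sum, hd, hc]⟩

lemma smul_le_one_aux {x : A} {r : ℝ} (h : x ≤ 1) (hr : 0 ≤ r) : r • x ≤ r • 1 :=
  smul_le_smul_of_nonneg_left h hr

theorem Cone.core (hj : Her j) (hi : Her i) {d : Prop} (hP : Ap i N d) {R : A} (hR : Cone i R)
    (hR' : ∃ c, j c = R) (S : Finset J) {ε : ℝ} (hε : 0 < ε) (hS : ∀ a ∈ S, ‖a‖ ≤ 1 ∧
      j a * star (j a) ≤ R + ε ^ 2 • 1 ∧ star (j a) * j a ≤ R + ε ^ 2 • 1) :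
    ∃ c : Fin N → Colour j, ∀ a ∈ S, ‖∑ i, (c i).T a - j a‖ ≤ 7 * ε := by
  classical
  obtain ⟨κ, _, x, b, hR⟩ := hR
  rw [← (Fintype.equivFin κ).symm.sum_comp] at hR
  generalize Fintype.card κ = m, (Fintype.equivFin κ).symm = e at hR
  let V : Mt m A := ∑ l : Fin m, sg 0 l.succ (x (e l) * i (b (e l)))
  have v1 : V * star V = cor 0 R := by
    rw [hR, map_sum, star_sum, Finset.sum_mul_sum]
    refine Finset.sum_congr rfl fun l _ => ?_
    rw [Finset.sum_eq_single l (fun k _ hk => by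
      rw [star_sg, sg_mul_ne _ ((Fin.succ_injective _).ne hk.symm)]) (by simp), star_sg, sg_mul]
    rfl
  have hu := CStarAlgebra.increasingApproximateUnit P
  haveI := hu.neBot
  choose u u0 u1 u2 using fun k : ℕ => (hu.eventually_nonneg.and (hu.eventually_norm.and
    (Filter.eventually_all.2 fun l : κ => Metric.tendsto_nhds.1
      ((((nu_cont i).tendsto _).comp (hu.tendsto_mul_right (star (b l)))).mul_const (star (x l))) _
        (show (0 : ℝ) < 1 / ((k : ℝ) + 1) by positivity)))).exists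
  let j' : J →⋆ₙₐ[ℂ] Mt m A := (cor 0).comp j
  have j1 : Her j' := ⟨(cor_inj 0).comp hj.inj, fun a X a' => by
    obtain ⟨c, hc⟩ := hj.her a (X 0 0) a'
    exact ⟨c, (congrArg (sg 0 0) hc).trans (sg_mul_mul ..).symm⟩⟩
  have j2 : ∀ y, y ≤ R + ε ^ 2 • 1 → (cor 0 y : Mt m A) ≤ V * star V + ε ^ 2 • 1 := fun y hy => by
    refine (nu_mono (cor 0) hy).trans ?_
    rw [map_add, v1, ← Complex.coe_smul, map_smul, Complex.coe_smul]
    exact add_le_add le_rfl (smul_le_one_aux (le_one_of_norm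
      (nu_nonneg _ zero_le_one) ((norm_sg _ _ _).trans (norm_one_le' _))) (by positivity))
  obtain ⟨c, hc⟩ := Loc.her (N := N) j1 (V := V)
    (W := Bdd.of (fun k => dia (i (u k))) 1 fun k => (hom_norm_le _ _).trans
      ((NonUnitalStarAlgHom.norm_apply_le i _).trans (u1 k)))
    (fun k => (hi.loc hP (u0 k) (u1 k)).ampl m)
    (Bdd.nonneg fun k => hom_nonneg dia (nu_nonneg i (u0 k)))
    (hR'.imp fun c hc => (congrArg (cor 0) hc).trans v1.symm) (by
      rw [dg_apply, ← map_mul]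
      refine Ult.mk_eq_of_le m fun k => ?_
      change ‖dia (i (u k)) * star V - star V‖ ≤ _
      rw [star_sum, Finset.mul_sum, ← Finset.sum_sub_distrib]
      refine (norm_sum_le_of_le _ fun l _ => (?_ : _ ≤ 1 / ((k : ℝ) + 1))).trans (by simp)
      rw [star_sg, dia_sg, ← sg_sub]
      refine (norm_sg _ _ _).trans ?_
      simpa [dist_eq_norm, map_star, mul_assoc] using (u2 k (e l)).le) S hε
    fun a ha => by
      have a1 := j2 _ (hS a ha).2.1
      have a2 := j2 _ (hS a ha).2.2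
      rw [map_mul, map_star] at a1 a2
      exact ⟨(hS a ha).1, a1, a2⟩
  choose c' hc' using fun l => (c l).move j1.inj j
  refine ⟨c', fun a ha => ?_⟩
  choose y y1 y2 using fun l => hc' l a
  have := hc a ha
  simp only [← y1, ← y2, ← map_sum, ← map_sub] at this ⊢
  rwa [NonUnitalStarAlgHom.norm_map _ j1.inj, ← NonUnitalStarAlgHom.norm_map _ hj.inj] at this

/-- dominated by the left ideal generated by the range of `i`, on both sides -/
def Dmn (i : P →⋆ₙₐ[ℂ] A) (x : A) : Prop := ∃ R, Cone i R ∧ x * star x ≤ R ∧ star x * x ≤ R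

lemma Dmn.of (b : P) : Dmn i (i b) := by
  have h := Cone.of (i := i) (star b)
  rw [map_star, star_star] at h
  exact ⟨_, (Cone.of b).add h, le_add_of_nonneg_right h.nonneg,
    le_add_of_nonneg_left (Cone.of b).nonneg⟩

lemma add_star_le (x y : A) :
    (x + y) * star (x + y) ≤ x * star x + x * star x + (y * star y + y * star y) := by
  rw [← sub_nonneg]
  convert mul_star_self_nonneg (x - y) using 1
  rw [star_add, star_sub]
  noncomm_ring

lemma Dmn.add {x y : A} (h : Dmn i x) (h' : Dmn i y) : Dmn i (x + y) := by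
  obtain ⟨R, h1, h2, h3⟩ := h
  obtain ⟨R', h1', h2', h3'⟩ := h'
  refine ⟨_, (h1.add h1).add (h1'.add h1'), (add_star_le x y).trans (by gcongr), ?_⟩
  have := add_star_le (star x) (star y)
  rw [← star_add, star_star, star_star, star_star] at this
  exact this.trans (by gcongr)

lemma conj_le_aux (a b : A) {x R : A} (h : x * star x ≤ R) :
    a * x * b * star (a * x * b) ≤ ‖b‖ • a * R * star (‖b‖ • a) := by
  have h1 : b * star b ≤ (‖b‖ * ‖b‖) • (1 : A) := by
    rw [← Algebra.algebraMap_eq_smul_one, ← CStarRing.norm_self_mul_star]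
    exact (IsSelfAdjoint.mul_star_self b).le_algebraMap_norm_self
  refine le_trans ?_ (star_right_conjugate_le_conjugate h _)
  convert star_right_conjugate_le_conjugate h1 (a * x) using 1
  · simp only [star_mul, mul_assoc]
  · simp only [star_mul, mul_assoc, star_smul, star_trivial, smul_mul_assoc, mul_smul_comm,
      one_mul, smul_smul]

lemma Dmn.mul {x : A} (h : Dmn i x) (a b : A) : Dmn i (a * x * b) := by
  obtain ⟨R, h1, h2, h3⟩ := h
  have h4 := conj_le_aux (star b) (star a) (x := star x) (R := R) (by rw [star_star]; exact h3)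
  rw [← star_mul, ← star_mul, star_star, ← mul_assoc a] at h4
  exact ⟨_, (h1.conj _).add (h1.conj _),
    (conj_le_aux a b h2).trans (le_add_of_nonneg_right (h1.conj _).nonneg),
    h4.trans (le_add_of_nonneg_left (h1.conj _).nonneg)⟩

lemma near_le {x y R : A} {ε : ℝ} (h : y * star y ≤ R) (h' : ‖x - y‖ ≤ ε) :
    x * star x ≤ R + R + (2 * ε) ^ 2 • 1 := by
  have h1 : (x - y) * star (x - y) ≤ (2 * ε ^ 2) • (1 : A) := by
    rw [← Algebra.algebraMap_eq_smul_one]
    refine (CStarAlgebra.norm_le_iff_le_algebraMap _ (by positivity)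
      (mul_star_self_nonneg _)).1 ?_
    rw [CStarRing.norm_self_mul_star]
    nlinarith [norm_nonneg (x - y)]
  have h2 := add_star_le y (x - y)
  rw [add_sub_cancel] at h2
  refine h2.trans (add_le_add (add_le_add h h) ((add_le_add h1 h1).trans_eq ?_))
  rw [← add_smul]
  congr 1
  ring

theorem Idl.nuc_of_dom (hj : Idl j) {n : ℕ} (h : ∀ (S : Finset J) (ε : ℝ), 0 < ε →
    ∃ (P : Type v) (_ : NonUnitalCStarAlgebra P) (_ : PartialOrder P) (_ : StarOrderedRing P)
      (i : P →⋆ₙₐ[ℂ] A), Her i ∧ (∀ b, ∃ c, j c = i b) ∧ NucDimLE P n ∧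
      ∀ a ∈ S, ∃ x, Dmn i x ∧ ‖j a - x‖ ≤ ε) : NucDimLE J n := by
  refine (Ap.of_ball fun S ε hε hS => ?_).nucDimLE hj.inj
  obtain ⟨P, _, _, _, i, hi, h1, h2, h3⟩ := h S (ε / 14) (by positivity)
  choose! x x1 x2 using h3
  choose! R R1 R2 R3 using x1
  have h4 := Cone.sum S R1
  have h5 : ∀ a ∈ S, R a ≤ ∑ a ∈ S, R a := fun a ha =>
    Finset.single_le_sum (fun a ha => (R1 a ha).nonneg) ha
  obtain ⟨c, hc⟩ := Cone.core hj.her hi (h2.ap i) (h4.add h4) ((h4.add h4).mem hj h1) S
    (ε := 2 * (ε / 14)) (by positivity) fun a ha =>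
      ⟨hS a ha, near_le ((R2 a ha).trans (h5 a ha)) (x2 a ha), by
        simpa only [star_star] using near_le (x := star (j a)) (y := star (x a))
          (by rw [star_star]; exact (R3 a ha).trans (h5 a ha))
          (by rw [← star_sub, norm_star]; exact x2 a ha)⟩
  exact ⟨c, fun a ha => (hc a ha).trans_eq (by ring)⟩

lemma her_inc (κ : J →⋆ₙₐ[ℂ] P) (k1 : Function.Injective κ)
    (k2 : ∀ b b' q, κ b * q * κ b' ∈ Set.range κ) : Her ((inc P).comp κ) := by
  refine ⟨(idl_inc P).inj.comp k1, fun b a b' => ?_⟩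
  obtain ⟨c, hc⟩ := k2 b b' a.snd
  refine ⟨a.fst • (b * b') + c, ?_⟩
  simp only [NonUnitalStarAlgHom.comp_apply]
  rw [mul_assoc, ← inc_mul, ← map_mul, map_add κ, hc, map_smul, map_mul, mul_add, mul_smul_comm,
    mul_assoc]

/-- nuclear dimension passes to hereditary subalgebras -/
theorem NucDimLE.her {n : ℕ} (h : NucDimLE P n) (κ : J →⋆ₙₐ[ℂ] P) (k1 : Function.Injective κ)
    (k2 : ∀ b b' q, κ b * q * κ b' ∈ Set.range κ) : NucDimLE J n := by
  have hj := her_inc κ k1 k2
  refine (Ap.of_ball fun S ε hε hS => ?_).nucDimLE hj.inj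
  have h1 : ∀ a : J, Cone (inc P) ((inc P).comp κ (a * star a)) := fun a => by
    rw [map_mul, map_star]
    exact Cone.of (κ a)
  have h2 : ∀ a ∈ S, Cone (inc P) ((inc P).comp κ (a * star a + star a * star (star a))) :=
    fun a _ => by rw [map_add]; exact (h1 _).add (h1 _)
  have h3 := fun a (ha : a ∈ S) => (Finset.single_le_sum (fun a ha => (h2 a ha).nonneg) ha).trans
    (le_add_of_nonneg_right (smul_nonneg (sq_nonneg (ε / 7)) (zero_le_one' P⁺¹)))
  obtain ⟨c, hc⟩ := Cone.core hj (idl_inc P).her (h.ap _) (Cone.sum S h2) ⟨_, map_sum ..⟩ S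
    (ε := ε / 7) (by positivity) fun a ha => ⟨hS a ha, le_trans (by
      rw [map_add, map_mul, map_star]
      exact le_add_of_nonneg_right (h1 _).nonneg) (h3 a ha), le_trans (by
      rw [map_add, star_star, map_mul _ (star a), map_star]
      exact le_add_of_nonneg_left (h1 _).nonneg) (h3 a ha)⟩
  exact ⟨c, fun a ha => (hc a ha).trans_eq (by ring)⟩

end Pool.Agent.Lib.MP_30b5b4_an
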