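import Pool.Agent.Lib.MP_30b5b4_an.CP

/-! Order zero maps on finite-dimensional algebras. -/

open scoped CStarAlgebra ComplexOrder

set_option linter.unusedSectionVars false
set_option linter.style.haveILetI false

namespace Pool.Agent.Lib.MP_30b5b4_an

section fd
variable {F : Type*} [CStarAlgebra F] [FiniteDimensional ℂ F]

lemma fd_spectrum_finite (x : F) : (spectrum ℂ x).Finite := by
  rcases subsingleton_or_nontrivial F with h | h
  · simp [spectrum.of_subsingleton]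
  have hi : IsIntegral ℂ x := Algebra.IsIntegral.isIntegral x
  refine ((minpoly ℂ x).roots.finite_toSet).subset fun μ hμ => ?_
  have h1 := spectrum.subset_polynomial_aeval x (minpoly ℂ x) ⟨μ, hμ, rfl⟩
  rw [minpoly.aeval, spectrum.zero_eq] at h1
  simpa [minpoly.ne_zero hi] using h1

lemma fd_spectrum_finite_real (x : F) : (spectrum ℝ x).Finite := by
  rw [← spectrum.preimage_algebraMap ℂ]
  exact (fd_spectrum_finite x).preimage (FaithfulSMul.algebraMap_injective ℝ ℂ).injOn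

lemma fd_cont (x : F) (f : ℝ → ℝ) : ContinuousOn f (spectrum ℝ x) :=
  (fd_spectrum_finite_real x).continuousOn f

lemma fd_cont' (x : F) (f : ℂ → ℂ) : ContinuousOn f (spectrum ℂ x) :=
  (fd_spectrum_finite x).continuousOn f

lemma fd_proj (x : F) (f : ℝ → ℝ) (hf : ∀ s, f s = 0 ∨ f s = 1) : IsStarProjection (cfc f x) := by
  refine ⟨?_, IsSelfAdjoint.cfc⟩
  rw [IsIdempotentElem, ← cfc_mul f f x (fd_cont x f) (fd_cont x f)]
  congr 1
  funext s
  rcases hf s with h | h <;> simp [h]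

lemma fd_spectral {x : F} (hx : IsSelfAdjoint x) :
    x = ∑ t ∈ (fd_spectrum_finite_real x).toFinset, t • cfc (fun s : ℝ => if s = t then 1 else 0) x := by
  classical
  have h1 : ∀ t : ℝ, t • cfc (fun s : ℝ => if s = t then (1 : ℝ) else 0) x
      = cfc (fun s : ℝ => t * (if s = t then (1 : ℝ) else 0)) x := fun t =>
    (cfc_const_mul t _ x (fd_cont x _)).symm
  simp only [h1]
  rw [← cfc_sum _ x _ (fun t _ => fd_cont x _)]
  conv_lhs => rw [← cfc_id' ℝ x]
  apply cfc_congr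
  intro s hs
  simp only [Finset.sum_apply, mul_ite, mul_one, mul_zero]
  rw [Finset.sum_ite_eq]
  simp [hs]

lemma fd_ext {M : Type*} [AddCommGroup M] [Module ℂ M] {f g : F →ₗ[ℂ] M}
    (h : ∀ e, IsStarProjection e → f e = g e) : f = g := by
  have h1 : ∀ x : F, IsSelfAdjoint x → f x = g x := by
    intro x hx
    rw [fd_spectral hx, map_sum, map_sum]
    refine Finset.sum_congr rfl fun t _ => ?_
    rw [← Complex.coe_smul, map_smul, map_smul, h _ (fd_proj x _ fun s => by split_ifs <;> simp)]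
  ext x
  rw [← realPart_add_I_smul_imaginaryPart x, map_add, map_add, map_smul, map_smul,
    h1 _ (realPart x).2, h1 _ (imaginaryPart x).2]

end fd

variable {F : Type*} [CStarAlgebra F]
variable {B C : Type*} [CStarAlgebra B] [PartialOrder B] [StarOrderedRing B]
  [CStarAlgebra C] [PartialOrder C] [StarOrderedRing C]

structure OZ (φ : F →ₗ[ℂ] B) : Prop where
  cp : IsCP φ
  mul : ∀ x y, φ x * φ y = φ 1 * φ (x * y)

lemma IsCP.one_nonneg {φ : F →ₗ[ℂ] B} (h : IsCP φ) : 0 ≤ φ 1 := by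
  simpa using h.nonneg_star_mul 1

lemma IsCP.proj_nonneg {φ : F →ₗ[ℂ] B} (h : IsCP φ) {e : F} (he : IsStarProjection e) :
    0 ≤ φ e := by
  simpa [he.isSelfAdjoint.star_eq, he.isIdempotentElem.eq] using h.nonneg_star_mul e

lemma OZ.of_proj [FiniteDimensional ℂ F] {φ : F →ₗ[ℂ] B} (h : IsCP φ)
    (h0 : ∀ e, IsStarProjection e → φ e * φ (1 - e) = 0) : OZ φ := by
  have h1 : ∀ x e, IsStarProjection e → φ x * φ e = φ (x * e) * φ 1 := by
    intro x e he
    have c1 : φ e * φ 1 = φ e * φ e := by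
      have := h0 e he
      rwa [map_sub, mul_sub, sub_eq_zero] at this
    have s1 := (h.proj_nonneg he).star_eq
    have s2 := h.one_nonneg.star_eq
    have c2 : φ 1 * φ e = φ e * φ e := by
      have := congrArg star c1
      rwa [star_mul, star_mul, s1, s2] at this
    have := h.null (a₁ := 1) (a₂ := e) (b₁ := φ e) (b₂ := -φ 1) (by
      simp only [star_one, one_mul, mul_one, he.isSelfAdjoint.star_eq, he.isIdempotentElem.eq,
        s1, s2, star_neg, mul_neg, neg_mul, neg_neg, c1, c2, mul_assoc]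
      abel) x
    rwa [mul_one, mul_neg, ← sub_eq_add_neg, sub_eq_zero] at this
  have h2 : ∀ x y, φ x * φ y = φ (x * y) * φ 1 := by
    intro x y
    have := fd_ext (f := (LinearMap.mulLeft ℂ (φ x)) ∘ₗ φ)
      (g := (LinearMap.mulRight ℂ (φ 1)) ∘ₗ φ ∘ₗ LinearMap.mulLeft ℂ x) (fun e he => by
        simpa using h1 x e he)
    simpa using LinearMap.congr_fun this y
  refine ⟨h, fun x y => ?_⟩
  rw [h2 x y, h2 1 (x * y), one_mul]

lemma norm_le_of_star_mul_le {y : B} {r : ℝ} (hr : 0 ≤ r)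
    (h : star y * y ≤ algebraMap ℝ B (r ^ 2)) : ‖y‖ ≤ r := by
  have e6 : ‖star y * y‖ ≤ r ^ 2 :=
    (CStarAlgebra.norm_le_iff_le_algebraMap _ (by positivity) (star_mul_self_nonneg y)).2 h
  rw [CStarRing.norm_star_mul_self, ← sq] at e6
  exact (pow_le_pow_iff_left₀ (norm_nonneg _) hr two_ne_zero).1 e6

lemma exists_sqrt_commute {K : B} (hK : 0 ≤ K) :
    ∃ s : B, 0 ≤ s ∧ s * s = K ∧ ∀ x, Commute K x → Commute s x := by
  refine ⟨cfc Real.sqrt K, cfc_nonneg fun _ _ => Real.sqrt_nonneg _, ?_, fun x hx => hx.cfc_real _⟩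
  rw [← cfc_mul _ _ K]
  conv_rhs => rw [← cfc_id' ℝ K]
  exact cfc_congr fun t ht => Real.mul_self_sqrt (spectrum_nonneg_of_nonneg hK ht)

namespace OZ
variable {φ : F →ₗ[ℂ] B}

lemma commute (h : OZ φ) (x : F) : Commute (φ 1) (φ x) := by
  have := h.mul x 1
  rw [mul_one] at this
  exact this.symm

lemma star_mul_self (h : OZ φ) (x : F) : star (φ x) * φ x = φ 1 * φ (star x * x) := by
  rw [← h.cp.map_star, h.mul]

lemma mul_eq_zero (h : OZ φ) {x y : F} (hxy : x * y = 0) : φ x * φ y = 0 := by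
  rw [h.mul, hxy, map_zero, mul_zero]

lemma mul_right_eq_zero (h : OZ φ) {w : B} (hw : φ 1 * w = 0) (x : F) : φ x * w = 0 := by
  apply (CStarRing.star_mul_self_eq_zero_iff _).1
  rw [star_mul, mul_assoc, ← mul_assoc (star (φ x)), h.star_mul_self, (h.commute _).eq,
    mul_assoc, hw, mul_zero, mul_zero]

lemma mul_left_eq_zero (h : OZ φ) {w : B} (hw : w * φ 1 = 0) (x : F) : w * φ x = 0 := by
  have h1 : φ 1 * star w = 0 := by
    have := congrArg star hw
    rwa [star_mul, h.cp.one_nonneg.star_eq, star_zero] at this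
  have := congrArg star (h.mul_right_eq_zero h1 (star x))
  rwa [star_mul, star_star, ← h.cp.map_star, star_star, star_zero] at this

lemma zero : OZ (0 : F →ₗ[ℂ] B) := ⟨IsCP.zero, by simp⟩

lemma mulLeft (h : OZ φ) {K : B} (hK : 0 ≤ K) (hc : ∀ x, Commute K (φ x)) {ψ : F →ₗ[ℂ] B}
    (hψ : ∀ x, ψ x = K * φ x) : OZ ψ := by
  obtain ⟨s, hs0, hs, hsc⟩ := exists_sqrt_commute hK
  refine ⟨h.cp.conj s fun a => ?_, fun x y => ?_⟩
  · rw [hψ, hs0.star_eq, ← hs, mul_assoc s (φ a), ← (hsc _ (hc a)).eq, mul_assoc s s,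
      (hsc _ (hc a)).eq]
  · simp only [hψ]
    rw [mul_assoc K (φ x), ← mul_assoc (φ x), ← (hc x).eq, mul_assoc K (φ x), h.mul,
      mul_assoc K (φ 1), ← mul_assoc (φ 1), ← (hc 1).eq, mul_assoc K (φ 1)]

lemma map (h : OZ φ) (π : B →⋆ₐ[ℂ] C) {ψ : F →ₗ[ℂ] C} (hψ : ∀ x, ψ x = π (φ x)) : OZ ψ := by
  refine ⟨IsCP.comp (T := (π : B →ₐ[ℂ] C).toLinearMap)
    (IsCP.of_hom π fun a a' => by simp [map_star]) h.cp hψ, fun x y => ?_⟩
  rw [hψ, hψ, hψ, hψ, ← map_mul π, ← map_mul π, h.mul]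

lemma norm_mul_le (h : OZ φ) (K : B) (x : F) :
    ‖φ x * K‖ ≤ ‖φ 1 * K‖ * ‖x‖ := by
  apply norm_le_of_star_mul_le (by positivity)
  obtain ⟨s, hs0, hs, hsc⟩ := exists_sqrt_commute h.cp.one_nonneg
  have e1 : star (φ x * K) * (φ x * K) = star (s * K) * φ (star x * x) * (s * K) := by
    rw [star_mul, star_mul, mul_assoc, ← mul_assoc (star (φ x)), h.star_mul_self, ← hs,
      hs0.star_eq]
    simp only [mul_assoc]
    rw [← mul_assoc (φ _) s, ← (hsc _ (h.commute _)).eq, mul_assoc]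
  have e2 : star (s * K) * φ 1 * (s * K) = star (φ 1 * K) * (φ 1 * K) := by
    rw [star_mul, star_mul, hs0.star_eq, h.cp.one_nonneg.star_eq, ← hs]
    simp only [mul_assoc]
  rw [e1]
  refine (star_left_conjugate_le_conjugate (h.cp.star_mul_le x) _).trans ?_
  rw [mul_smul_comm, smul_mul_assoc, e2, mul_pow, mul_comm, map_mul,
    Algebra.algebraMap_eq_smul_one (‖x‖ ^ 2), smul_mul_assoc, one_mul]
  exact smul_le_smul_of_nonneg_left CStarAlgebra.star_mul_le_algebraMap_norm_sq (by positivity)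

end OZ

lemma add_le_of_orth {a b : B} {r : ℝ} (ha : 0 ≤ a) (hb : 0 ≤ b) (hab : a * b = 0)
    (har : ‖a‖ ≤ r) (hbr : ‖b‖ ≤ r) : ‖a + b‖ ≤ r := by
  have hr : 0 ≤ r := (norm_nonneg _).trans har
  rcases hr.eq_or_lt with rfl | hr'
  · rw [norm_le_zero_iff.1 har, norm_le_zero_iff.1 hbr]; simp
  have hba : b * a = 0 := mul_eq_zero_comm_sa ha.isSelfAdjoint hb.isSelfAdjoint hab
  rw [CStarAlgebra.norm_le_iff_le_algebraMap _ hr (add_nonneg ha hb)]
  rw [CStarAlgebra.norm_le_iff_le_algebraMap _ hr ha, ← sub_nonneg,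
    Algebra.algebraMap_eq_smul_one] at har
  rw [CStarAlgebra.norm_le_iff_le_algebraMap _ hr hb, ← sub_nonneg,
    Algebra.algebraMap_eq_smul_one] at hbr
  have e1 : (r • (1 : B) - a) * (r • 1 - b) = r • (r • 1 - (a + b)) := by
    simp only [sub_mul, mul_sub, smul_mul_assoc, mul_smul_comm, one_mul, mul_one, hab, smul_sub,
      smul_add]
    abel
  have e2 : (r • (1 : B) - b) * (r • 1 - a) = r • (r • 1 - (a + b)) := by
    simp only [sub_mul, mul_sub, smul_mul_assoc, mul_smul_comm, one_mul, mul_one, hba, smul_sub,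
      smul_add]
    abel
  have := Commute.mul_nonneg har hbr (e1.trans e2.symm)
  rw [e1] at this
  have h3 := smul_nonneg (inv_pos.2 hr').le this
  rwa [smul_smul, inv_mul_cancel₀ hr'.ne', one_smul, sub_nonneg,
    ← Algebra.algebraMap_eq_smul_one] at h3

lemma sum_le_of_orth {ι : Type*} (s : Finset ι) (a : ι → B) {r : ℝ} (hr : 0 ≤ r)
    (ha : ∀ i ∈ s, 0 ≤ a i) (hab : ∀ i ∈ s, ∀ j ∈ s, i ≠ j → a i * a j = 0)
    (har : ∀ i ∈ s, ‖a i‖ ≤ r) : ‖∑ i ∈ s, a i‖ ≤ r := by
  classical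
  induction s using Finset.induction_on with
  | empty => simpa using hr
  | insert i s hi ih =>
    rw [Finset.sum_insert hi]
    refine add_le_of_orth (ha i (by simp)) (Finset.sum_nonneg fun j hj => ha j (by simp [hj])) ?_
      (har i (by simp)) (ih (fun j hj => ha j (by simp [hj]))
        (fun j hj k hk => hab j (by simp [hj]) k (by simp [hk])) fun j hj => har j (by simp [hj]))
    rw [Finset.mul_sum]
    exact Finset.sum_eq_zero fun j hj => hab i (by simp) j (by simp [hj]) (by rintro rfl; exact hi hj)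

end Pool.Agent.Lib.MP_30b5b4_an
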