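import Pool.Agent.Lib.MP_30b5b4_an.Cut3
import Pool.Agent.Lib.MP_30b5b4_an.Cen

/-! Quasicentral approximate units. -/

open scoped CStarAlgebra ComplexOrder Topology
open Filter

set_option linter.unusedSectionVars false
set_option linter.style.haveILetI false

namespace Pool.Agent.Lib.MP_30b5b4_an

universe u

abbrev BA (A : Type u) [CStarAlgebra A] := Bdd fun _ : ℕ => A
abbrev UA (A : Type u) [CStarAlgebra A] := Ult fun _ : ℕ => A

variable {J : Type*} {A : Type u} [NonUnitalCStarAlgebra J] [PartialOrder J] [StarOrderedRing J]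
  [CStarAlgebra A] [PartialOrder A] [StarOrderedRing A]

lemma norm_le_of_sa {x : A} (hx : IsSelfAdjoint x) {r : ℝ} (hr : 0 ≤ r)
    (h1 : x ≤ algebraMap ℝ A r) (h2 : algebraMap ℝ A (-r) ≤ x) : ‖x‖ ≤ r := by
  conv_lhs => rw [← cfc_id' ℝ x]
  refine norm_cfc_le hr fun s hs => ?_
  rw [Real.norm_eq_abs, abs_le]
  exact ⟨(algebraMap_le_iff_le_spectrum hx).1 h2 s hs, (le_algebraMap_iff_spectrum_le hx).1 h1 s hs⟩

lemma nu_nonneg (j : J →⋆ₙₐ[ℂ] A) {a : J} (ha : 0 ≤ a) : 0 ≤ j a := by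
  obtain ⟨s, rfl⟩ := exists_star_mul ha
  rw [map_mul, map_star]
  exact star_mul_self_nonneg _

lemma nu_mono (j : J →⋆ₙₐ[ℂ] A) {a b : J} (h : a ≤ b) : j a ≤ j b := by
  rw [← sub_nonneg, ← map_sub]
  exact nu_nonneg j (sub_nonneg.2 h)

structure Idl (j : J →⋆ₙₐ[ℂ] A) : Prop where
  inj : Function.Injective j
  left : ∀ a b, ∃ c, j c = a * j b

variable {j : J →⋆ₙₐ[ℂ] A}

lemma Idl.right (h : Idl j) (a : A) (b : J) : ∃ c, j c = j b * a := by
  obtain ⟨c, hc⟩ := h.left (star a) (star b)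
  exact ⟨star c, by rw [map_star, hc, star_mul, star_star, map_star, star_star]⟩

lemma Idl.both (h : Idl j) (a a' : A) (b : J) : ∃ c, j c = a * j b * a' := by
  obtain ⟨c, hc⟩ := h.left a b
  obtain ⟨d, hd⟩ := h.right a' c
  exact ⟨d, by rw [hd, hc]⟩

lemma ball_bound {ι : Type*} (s : Finset ι) (f : ι → J) (hf : ∀ i ∈ s, 0 ≤ f i ∧ ‖f i‖ < 1)
    {e : J} (he : 0 ≤ e ∧ ‖e‖ < 1) : ∃ e', (0 ≤ e' ∧ ‖e'‖ < 1) ∧ e ≤ e' ∧ ∀ i ∈ s, f i ≤ e' := by
  classical
  induction s using Finset.induction_on with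
  | empty => exact ⟨e, he, le_rfl, by simp⟩
  | insert i s _ ih =>
    obtain ⟨a, a1, a2, a3⟩ := ih fun l hl => hf l (by simp [hl])
    obtain ⟨b, b1, b2, b3⟩ := CStarAlgebra.directedOn_nonneg_ball a (by simpa using a1) (f i)
      (by simpa using hf i (by simp))
    refine ⟨b, by simpa using b1, a2.trans b2, fun l hl => ?_⟩
    rcases Finset.mem_insert.1 hl with rfl | hl
    · exact b3
    · exact (a3 l hl).trans b2

lemma Idl.exists_qc_unitary (h : Idl j) (U : Finset A) (hU : ∀ u ∈ U, u ∈ unitary A)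
    (C : Finset J) {δ : ℝ} (hδ : 0 < δ) :
    ∃ t : J, 0 ≤ t ∧ ‖t‖ ≤ 1 ∧ (∀ u ∈ U, ‖u * j t - j t * u‖ ≤ δ) ∧ ∀ c ∈ C, ‖t * c - c‖ ≤ δ := by
  have hn := NonUnitalStarAlgHom.norm_map j h.inj
  have hu1 : ∀ u ∈ unitary A, ‖u‖ ≤ 1 := fun u hu => by
    have h1 := CStarRing.norm_star_mul_self (x := u)
    rw [hu.1] at h1
    nlinarith [norm_one_le' A, norm_nonneg u]
  have s1 : ∀ v ∈ unitary A, ∀ e : J, 0 ≤ e ∧ ‖e‖ < 1 →
      ∃ e', (0 ≤ e' ∧ ‖e'‖ < 1) ∧ j e' = v * j e * star v := by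
    intro v hv e he
    obtain ⟨c, hc⟩ := h.both v (star v) e
    refine ⟨c, ⟨nonneg_of_map_nonneg j h.inj ?_, ?_⟩, hc⟩
    · rw [hc]; exact star_right_conjugate_nonneg (nu_nonneg j he.1) v
    · rw [← hn, hc]
      refine lt_of_le_of_lt ?_ he.2
      rw [← hn e]
      calc _ ≤ ‖v‖ * ‖j e‖ * ‖star v‖ := norm_mul₃_le
        _ ≤ 1 * ‖j e‖ * 1 := by rw [norm_star]; gcongr <;> exact hu1 v hv
        _ = _ := by ring
  have s2 : ∀ e : {e : J // 0 ≤ e ∧ ‖e‖ < 1}, ∃ e' : {e : J // 0 ≤ e ∧ ‖e‖ < 1}, e.1 ≤ e'.1 ∧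
      ∀ u ∈ U, u * j e * star u ≤ j e' ∧ star u * j e * u ≤ j e' := by
    intro e
    choose! f hf1 hf2 using fun v hv => s1 v hv e e.2
    obtain ⟨a, a1, a2, a3⟩ := ball_bound U f (fun u hu => hf1 u (hU u hu)) e.2
    obtain ⟨b, b1, b2, b3⟩ := ball_bound U (fun u => f (star u))
      (fun u hu => hf1 _ (Unitary.star_mem (hU u hu))) a1
    refine ⟨⟨b, b1⟩, a2.trans b2, fun u hu => ⟨?_, ?_⟩⟩
    · rw [← hf2 u (hU u hu)]; exact nu_mono j ((a3 u hu).trans b2)
    · have := hf2 _ (Unitary.star_mem (hU u hu))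
      rw [star_star] at this
      rw [← this]; exact nu_mono j (b3 u hu)
  choose f hf1 hf2 using s2
  obtain ⟨e0, he0, he1⟩ := (CStarAlgebra.hasBasis_approximateUnit J).eventually_iff.1
    ((C.eventually_all (p := fun c y => ‖y * c - c‖ ≤ δ)).2 fun c _ => by
      have := ((CStarAlgebra.increasingApproximateUnit J).tendsto_mul_right c).eventually
        (Metric.closedBall_mem_nhds c hδ)
      simpa only [Metric.mem_closedBall, dist_eq_norm] using this)
  let e : ℕ → J := fun k => (f^[k] ⟨e0, he0⟩).1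
  have e1 : ∀ k, 0 ≤ e k ∧ ‖e k‖ < 1 := fun k => (f^[k] ⟨e0, he0⟩).2
  have e2 : ∀ k, e0 ≤ e k := fun k => by
    induction k with
    | zero => exact le_rfl
    | succ k ih => simp only [e, Function.iterate_succ_apply']; exact ih.trans (hf1 _)
  have e3 : ∀ k, ∀ u ∈ U, u * j (e k) * star u ≤ j (e (k + 1)) ∧
      star u * j (e k) * u ≤ j (e (k + 1)) := fun k => by
    simp only [e, Function.iterate_succ_apply']; exact hf2 _
  obtain ⟨N, hN⟩ := exists_nat_gt δ⁻¹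
  have hN0 : (0 : ℝ) < N := (inv_pos.2 hδ).trans hN
  have hN1 : (N : ℝ)⁻¹ ≤ δ := (inv_le_comm₀ hN0 hδ).2 hN.le
  let t : J := (N : ℝ)⁻¹ • ∑ k ∈ Finset.range N, e k
  have t0 : 0 ≤ t := smul_nonneg (by positivity) (Finset.sum_nonneg fun k _ => (e1 k).1)
  have t1 : ‖t‖ ≤ 1 := by
    rw [norm_smul, Real.norm_of_nonneg (by positivity), inv_mul_le_iff₀ hN0]
    refine (norm_sum_le _ _).trans ((Finset.sum_le_sum fun k _ => (e1 k).2.le).trans ?_)
    simp
  have t2 : e0 ≤ t := by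
    have : ∑ _k ∈ Finset.range N, e0 ≤ ∑ k ∈ Finset.range N, e k :=
      Finset.sum_le_sum fun k _ => e2 k
    have := smul_le_smul_of_nonneg_left this (inv_pos.2 hN0).le
    rwa [Finset.sum_const, Finset.card_range, ← Nat.cast_smul_eq_nsmul ℝ, smul_smul,
      inv_mul_cancel₀ hN0.ne', one_smul] at this
  have t3 : j t = (N : ℝ)⁻¹ • ∑ k ∈ Finset.range N, j (e k) := by
    simp only [t]
    rw [← Complex.coe_smul, map_smul, map_sum, Complex.coe_smul]
  have t4 : ∀ v w : A, (∀ k, v * j (e k) * w ≤ j (e (k + 1))) →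
      v * j t * w ≤ j t + algebraMap ℝ A δ := by
    intro v w hv
    have a1 : ∑ k ∈ Finset.range N, j (e (k + 1)) ≤ ∑ k ∈ Finset.range N, j (e k) + 1 := by
      have := Finset.sum_range_succ' (fun k => j (e k)) N
      rw [Finset.sum_range_succ] at this
      refine (le_add_of_nonneg_right (nu_nonneg j (e1 0).1)).trans (this.symm.trans_le ?_)
      gcongr
      exact le_one_of_norm (nu_nonneg j (e1 N).1) (by rw [hn]; exact (e1 N).2.le)
    rw [t3, mul_smul_comm, smul_mul_assoc, Finset.mul_sum, Finset.sum_mul,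
      Algebra.algebraMap_eq_smul_one]
    refine (smul_le_smul_of_nonneg_left ((Finset.sum_le_sum fun k _ => hv k).trans a1)
      (by positivity)).trans ?_
    rw [smul_add]
    gcongr
  refine ⟨t, t0, t1, fun u hu => ?_, fun c hc => he1 ⟨t2, by simpa using t1⟩ c hc⟩
  have a1 := t4 u (star u) fun k => (e3 k u hu).1
  have a2 := star_right_conjugate_le_conjugate (t4 (star u) u fun k => (e3 k u hu).2) u
  have hu' := hU u hu
  rw [← mul_assoc, ← mul_assoc, hu'.2, one_mul, mul_assoc, hu'.2, mul_one, mul_add, add_mul,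
    ← Algebra.commutes, mul_assoc (algebraMap ℝ A δ), hu'.2, mul_one] at a2
  have a3 : ‖u * j t * star u - j t‖ ≤ δ := by
    refine norm_le_of_sa ((star_right_conjugate_nonneg (nu_nonneg j t0) u).isSelfAdjoint.sub
      (nu_nonneg j t0).isSelfAdjoint) hδ.le (sub_le_iff_le_add'.2 a1) ?_
    rw [map_neg, neg_le_sub_iff_le_add]
    exact a2
  have a4 : u * j t - j t * u = (u * j t * star u - j t) * u := by
    rw [sub_mul, mul_assoc _ (star u), hu'.1, mul_one]
  rw [a4]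
  exact (norm_mul_le _ _).trans (by nlinarith [hu1 u hu', norm_nonneg u])

theorem Idl.exists_qc (h : Idl j) {κ κ' : Type*} [Fintype κ] [Fintype κ'] (s : κ → A)
    (c : κ' → J) : ∃ t : BA A, (∀ k, ∃ b, j b = Bdd.ev k t) ∧ 0 ≤ t ∧ t ≤ 1 ∧
      (∀ i, Commute (Ult.mk t) (dg (s i))) ∧ ∀ i, Ult.mk t * dg (j (c i)) = dg (j (c i)) := by
  classical
  have hn := NonUnitalStarAlgHom.norm_map j h.inj
  choose T hT1 hT2 using fun i => Submodule.mem_span_finite_of_mem_span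
    (show s i ∈ Submodule.span ℂ (unitary A : Set A) by rw [CStarAlgebra.span_unitary]; trivial)
  choose t t0 t1 t2 t3 using fun k : ℕ => h.exists_qc_unitary (Finset.univ.biUnion T) (by
    intro u hu
    obtain ⟨i, -, hi⟩ := Finset.mem_biUnion.1 hu
    exact hT1 i hi) (Finset.univ.image c) (show (0 : ℝ) < 1 / ((k : ℝ) + 1) by positivity)
  let t' : BA A := Bdd.of (fun k => j (t k)) 1 fun k => by rw [hn]; exact t1 k
  refine ⟨t', fun k => ⟨t k, rfl⟩, Bdd.nonneg fun k => nu_nonneg j (t0 k), Bdd.le fun k => ?_,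
    fun i => ?_, fun i => ?_⟩
  · rw [map_one]
    exact le_one_of_norm (nu_nonneg j (t0 k)) (by rw [Bdd.ev_of, hn]; exact t1 k)
  · refine Submodule.span_induction (p := fun x _ => Commute (Ult.mk t') (dg x)) (fun u hu => ?_)
      (by simp) (fun x y _ _ hx hy => by rw [map_add]; exact hx.add_right hy)
      (fun r x _ hx => by rw [map_smul]; exact hx.smul_right r) (hT2 i)
    change _ * _ = _ * _
    rw [dg_apply, ← map_mul, ← map_mul]
    refine (Ult.mk_eq_of_le 1 fun k => ?_).symm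
    simpa [t'] using t2 k u (Finset.mem_biUnion.2 ⟨i, Finset.mem_univ _, hu⟩)
  · rw [dg_apply, ← map_mul]
    refine Ult.mk_eq_of_le 1 fun k => ?_
    have := t3 k (c i) (Finset.mem_image_of_mem _ (Finset.mem_univ _))
    rw [← hn, map_sub, map_mul] at this
    simpa [t'] using this

lemma hom_alg {A D : Type*} [CStarAlgebra A] [CStarAlgebra D] (π : A →⋆ₐ[ℂ] D) (r : ℝ) :
    π (algebraMap ℝ A r) = algebraMap ℝ D r := by
  rw [Algebra.algebraMap_eq_smul_one, Algebra.algebraMap_eq_smul_one, hom_real_smul, map_one]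

lemma le_pp {x : A} (hx : IsSelfAdjoint x) : x ≤ pp x := by
  conv_lhs => rw [← cfc_id' ℝ x]
  exact cfc_mono (fun s _ => le_max_left _ _) (by fun_prop) (by fun_prop)

theorem Idl.exists_qc' (h : Idl j) {D : Type*} [CStarAlgebra D] [PartialOrder D]
    [StarOrderedRing D] (π : A →⋆ₐ[ℂ] D) (hπ : ∀ a, π a = 0 → ∃ b, j b = a)
    {κ : Type*} [Fintype κ] (s : κ → A) :
    ∃ t : BA A, (∀ k, ∃ b, j b = Bdd.ev k t) ∧ 0 ≤ t ∧ t ≤ 1 ∧
      (∀ i, Commute (Ult.mk t) (dg (s i))) ∧ ∀ i (β : ℝ → ℝ), Continuous β → β 1 = 0 →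
        (∀ x, 0 ≤ x → x ≤ 1 → |β x| ≤ 1) → ‖dg (s i) * cfc β (Ult.mk t)‖ ≤ ‖π (s i)‖ := by
  let x : κ → A := fun i => star (s i) * s i - algebraMap ℝ A (‖π (s i)‖ ^ 2)
  have hx : ∀ i, IsSelfAdjoint (x i) := fun i =>
    (star_mul_self_nonneg _).isSelfAdjoint.sub (IsSelfAdjoint.algebraMap A (IsSelfAdjoint.all _))
  choose c hc using fun i => hπ (pp (x i)) (by
    rw [hom_pp _ (hx i), ← norm_le_zero_iff]
    refine norm_pp_le ((hx i).map π) le_rfl ?_
    simp only [x, map_sub, map_mul, map_star, hom_alg, map_zero, sub_nonpos]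
    exact CStarAlgebra.star_mul_le_algebraMap_norm_sq)
  obtain ⟨t, t1, t2, t3, t4, t5⟩ := h.exists_qc s c
  refine ⟨t, t1, t2, t3, t4, fun i β hβ h1 h2 => ?_⟩
  have u0 : 0 ≤ Ult.mk t := hom_nonneg _ t2
  have u1 : Ult.mk t ≤ 1 := by simpa using hom_mono Ult.mk t3
  set b := cfc β (Ult.mk t) with hb
  have b1 : star b = b := IsSelfAdjoint.cfc.star_eq
  have b2 : b * dg (j (c i)) = 0 := cfc_mul_eq_zero' u0.isSelfAdjoint (t5 i) hβ h1
  have b3 : ‖b‖ ≤ 1 := norm_cfc_le zero_le_one fun y hy => h2 y (spec_mem u0 u1 hy).1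
    (spec_mem u0 u1 hy).2
  refine norm_le_of_star_mul_le (norm_nonneg _) ?_
  have a1 := hom_mono dg (le_pp (hx i))
  rw [← hc] at a1
  simp only [x, map_sub, map_mul, map_star, hom_alg] at a1
  have a2 := star_left_conjugate_le_conjugate a1 b
  rw [b1, b2, zero_mul, mul_sub, sub_mul, sub_nonpos] at a2
  rw [star_mul, b1, mul_assoc, ← mul_assoc (star _), ← mul_assoc]
  refine a2.trans ?_
  rw [Algebra.algebraMap_eq_smul_one, mul_smul_comm, smul_mul_assoc, mul_one]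
  refine smul_le_smul_of_nonneg_left ?_ (by positivity)
  refine le_one_of_norm (by simpa [b1] using star_mul_self_nonneg b) ((norm_mul_le _ _).trans ?_)
  nlinarith [norm_nonneg b]

end Pool.Agent.Lib.MP_30b5b4_an
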