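import Pool.Agent.Lib.MP_30b5b4_an.Final
import Pool.Agent.Lib.MP_30b5b4_an.DefsRR

/-! Real rank zero: spectral gaps and step functions. -/

open scoped CStarAlgebra ComplexOrder Topology
open Filter

set_option linter.unusedSectionVars false
set_option linter.style.haveILetI false

namespace Pool.Agent.Lib.MP_30b5b4_an

universe u

variable {J : Type*} {A : Type u} [NonUnitalCStarAlgebra J] [PartialOrder J] [StarOrderedRing J]
  [CStarAlgebra A] [PartialOrder A] [StarOrderedRing A] {j : J →⋆ₙₐ[ℂ] A}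

def RR (j : J →⋆ₙₐ[ℂ] A) : Prop :=
  ∀ a : J, IsSelfAdjoint a → ∀ t : ℝ, t ≠ 0 → ∀ ε > 0,
    ∃ b : J, IsSelfAdjoint b ∧ ‖b - a‖ ≤ ε ∧ t ∉ spectrum ℝ (j b)

lemma RealRankZero.rr (h : RealRankZero J) (j : J →⋆ₙₐ[ℂ] A) : RR j := by
  intro a ha t ht ε hε
  have ht' : 0 < |t| := abs_pos.2 ht
  set δ := min (|t| / 2) (ε / (4 + 2 * ‖a‖ / |t|)) with hδ
  have hδ0 : 0 < δ := lt_min (by positivity) (by positivity)
  have hδ1 : δ ≤ |t| / 2 := min_le_left _ _
  have hδ2 : δ * (4 + 2 * ‖a‖ / |t|) ≤ ε := (le_div_iff₀ (by positivity)).1 (min_le_right _ _)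
  obtain ⟨c, c1, c2, c3⟩ := h ((a : J⁺¹) - algebraMap ℝ _ t)
    (ha.inr ℂ |>.sub (IsSelfAdjoint.algebraMap _ (IsSelfAdjoint.all t))) δ hδ0
  have s1 : star c.fst = c.fst := congrArg (fun z : J⁺¹ => z.fst) c1.star_eq
  have s2 : IsSelfAdjoint c.snd := congrArg (fun z : J⁺¹ => z.snd) c1.star_eq
  obtain ⟨s, hs⟩ : ∃ s : ℝ, (s : ℂ) = c.fst := ⟨c.fst.re, Complex.conj_eq_iff_re.1 s1⟩
  have e0 : c = algebraMap ℝ _ s + (c.snd : J⁺¹) := by
    ext <;> simp [hs, Algebra.algebraMap_eq_smul_one]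
  have n1 : |t + s| ≤ δ := by
    have := (le_max_left _ _).trans ((Unitization.norm_eq_sup _).ge.trans c3.le)
    rw [show ((a : J⁺¹) - algebraMap ℝ _ t - c).fst = -((t + s : ℝ) : ℂ) by
      simp [sub_eq_add_neg, Algebra.algebraMap_eq_smul_one, ← hs]; ring, norm_neg,
      Complex.norm_real] at this
    exact this
  have n2 : ‖c.snd - a‖ ≤ 2 * δ := by
    rw [← Unitization.norm_inr (𝕜 := ℂ), Unitization.inr_sub]
    have : (c.snd : J⁺¹) - a = -((a : J⁺¹) - algebraMap ℝ _ t - c) - algebraMap ℝ _ (t + s) := by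
      conv_rhs => rw [e0]
      rw [map_add]; abel
    rw [this]
    refine (norm_sub_le _ _).trans ?_
    rw [norm_neg, norm_algebraMap', Real.norm_eq_abs]
    linarith
  have n3 : |t| / 2 ≤ |s| := by
    have := abs_sub (t + s) s
    rw [add_sub_cancel_right] at this
    linarith
  have s0 : s ≠ 0 := abs_pos.1 (by linarith)
  have s0' : 0 < |s| := abs_pos.2 s0
  refine ⟨(-t / s) • c.snd, (IsSelfAdjoint.all _).smul s2, ?_, ?_⟩
  · have : (-t / s) • c.snd - a = (-t / s) • (c.snd - a) + (-(t + s) / s) • a := by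
      rw [smul_sub, sub_add_eq_add_sub, add_sub_assoc, ← sub_smul,
        show -(t + s) / s - -t / s = -1 by field_simp; ring, neg_one_smul, sub_eq_add_neg]
    rw [this]
    refine (norm_add_le _ _).trans ?_
    rw [norm_smul, norm_smul, Real.norm_eq_abs, Real.norm_eq_abs, abs_div, abs_div, abs_neg,
      abs_neg]
    have a1 : |t| / |s| ≤ 2 := by rw [div_le_iff₀ s0']; linarith
    have a2 : |t + s| / |s| ≤ 2 * δ / |t| := by
      rw [div_le_div_iff₀ s0' ht']; nlinarith [abs_nonneg (t + s)]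
    calc _ ≤ 2 * (2 * δ) + 2 * δ / |t| * ‖a‖ := by gcongr
      _ = δ * (4 + 2 * ‖a‖ / |t|) := by ring
      _ ≤ ε := hδ2
  · rw [spectrum.notMem_iff]
    have u1 := c2.map (Unitization.starLift j)
    have : algebraMap ℝ A t - j ((-t / s) • c.snd) =
        algebraMap ℝ A (t / s) * Unitization.starLift j c := by
      conv_rhs => rw [e0]
      rw [map_add, hom_alg, mul_add, ← map_mul, div_mul_cancel₀ _ s0, ← Complex.coe_smul, map_smul,
        Complex.coe_smul, Algebra.algebraMap_eq_smul_one (t / s), smul_mul_assoc, one_mul, neg_div,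
        neg_smul, sub_neg_eq_add]
      simp
    rw [this]
    exact ((IsUnit.mk0 _ (div_ne_zero ht s0)).map _).mul u1

lemma RR.many (h : RR j) (T : Finset ℝ) (hT : 0 ∉ T) {a : J} (ha : IsSelfAdjoint a) {ε : ℝ}
    (hε : 0 < ε) : ∃ b : J, IsSelfAdjoint b ∧ ‖b - a‖ ≤ ε ∧ ∀ t ∈ T, t ∉ spectrum ℝ (j b) := by
  classical
  induction T using Finset.induction_on generalizing ε with
  | empty => exact ⟨a, ha, by simpa using hε.le, by simp⟩
  | insert t T _ ih =>
    obtain ⟨b, b1, b2, b3⟩ := ih (fun h => hT (Finset.mem_insert_of_mem h)) (half_pos hε)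
    have o1 : ∀ᶠ y in 𝓝 (j b), ∀ s ∈ T, IsUnit (algebraMap ℝ A s - y) :=
      (T.eventually_all).2 fun s hs =>
        (Units.isOpen.preimage (f := fun y => algebraMap ℝ A s - y) (by fun_prop)).mem_nhds
          (spectrum.notMem_iff.1 (b3 s hs))
    obtain ⟨δ, hδ, o2⟩ := Metric.eventually_nhds_iff.1 o1
    obtain ⟨b', c1, c2, c3⟩ := h b b1 t (fun h0 => hT (h0 ▸ Finset.mem_insert_self _ _))
      (min (δ / 2) (ε / 2)) (by positivity)
    refine ⟨b', c1, ?_, fun s hs => ?_⟩
    · have := norm_add_le (b' - b) (b - a)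
      rw [sub_add_sub_cancel] at this
      linarith [min_le_right (δ / 2) (ε / 2)]
    · rcases Finset.mem_insert.1 hs with rfl | hs
      · exact c3
      · refine spectrum.notMem_iff.2 (o2 ?_ s hs)
        rw [dist_eq_norm, ← map_sub]
        linarith [NonUnitalStarAlgHom.norm_apply_le j (b' - b), min_le_left (δ / 2) (ε / 2)]

noncomputable def stp (t s : ℝ) : ℝ := if t < s then 1 else 0

lemma stp_cont {t : ℝ} {S : Set ℝ} (h : t ∉ S) : ContinuousOn (stp t) S := by
  intro s hs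
  refine ContinuousAt.continuousWithinAt ?_
  rcases lt_trichotomy t s with h1 | rfl | h1
  · refine (continuousAt_const (y := (1 : ℝ))).congr ?_
    filter_upwards [Ioi_mem_nhds h1] with x hx
    exact (if_pos hx).symm
  · exact (h hs).elim
  · refine (continuousAt_const (y := (0 : ℝ))).congr ?_
    filter_upwards [Iio_mem_nhds h1] with x hx
    exact (if_neg (not_lt.2 (le_of_lt hx))).symm

lemma proj_polar {P u : A} (hP : IsStarProjection P) (hu : ‖u‖ ≤ 1) {κ : ℝ} (hκ : κ ≤ 1 / 4)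
    (h : ‖u * P - P‖ ≤ κ) :
    ∃ m, star (u * P * m) * (u * P * m) = P ∧ ‖u * P * m - P‖ ≤ 3 * κ := by
  have κ0 : 0 ≤ κ := (norm_nonneg _).trans h
  set z := u * P with hz
  have nP := hP.norm_le
  have nz : ‖z‖ ≤ 1 := (norm_mul_le _ _).trans (mul_le_one₀ hu (norm_nonneg _) nP)
  have zP : z * P = z := by rw [hz, mul_assoc, hP.isIdempotentElem.eq]
  have Pz : P * star z = star z := by rw [← hP.isSelfAdjoint.star_eq, ← star_mul, zP]
  set B := star z * z + (1 - P) with hB
  have B0 : IsSelfAdjoint B := (IsSelfAdjoint.star_mul_self z).add hP.one_sub.isSelfAdjoint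
  have B1 : ‖B - 1‖ ≤ 2 * κ := by
    have : B - 1 = star z * (z - P) + star (z - P) * P := by
      rw [hB, star_sub, hP.isSelfAdjoint.star_eq, mul_sub, sub_mul, hP.isIdempotentElem.eq]
      abel
    rw [this]
    have a1 : ‖star z * (z - P)‖ ≤ 1 * κ := (norm_mul_le _ _).trans (by rw [norm_star]; gcongr)
    have a2 : ‖star (z - P) * P‖ ≤ κ * 1 := (norm_mul_le _ _).trans (by rw [norm_star]; gcongr)
    linarith [norm_add_le (star z * (z - P)) (star (z - P) * P)]
  have B2 : ∀ s ∈ spectrum ℝ B, |s - 1| ≤ 2 * κ := fun s hs => by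
    have := norm_apply_le_norm_cfc (fun s : ℝ => s - 1) B hs
    rw [cfc_sub _ _ B, cfc_id' ℝ B, cfc_const_one ℝ B] at this
    exact this.trans B1
  have B3 : P * B = star z * z := by
    rw [hB, mul_add, hP.mul_one_sub_self, add_zero, ← mul_assoc, Pz]
  have B4 : Commute B P := by
    change _ * _ = _
    rw [B3, hB, add_mul, hP.one_sub_mul_self, add_zero, mul_assoc, zP]
  have g1 := Gf_cont (show (0 : ℝ) < 1 / 2 by norm_num)
  let f : ℝ → ℝ := fun s => √(Gf (1 / 2) s)
  have f1 : Continuous f := by fun_prop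
  have f2 : ∀ s ∈ spectrum ℝ B, f s * f s * s = 1 := fun s hs => by
    have := abs_le.1 (B2 s hs)
    rw [Real.mul_self_sqrt (Gf_nonneg (by norm_num)), Gf, max_eq_left (by linarith),
      inv_mul_cancel₀ (by linarith)]
  refine ⟨cfc f B, ?_, ?_⟩
  · have c1 : Commute (cfc f B) P := B4.cfc_real f
    have c2 : Commute (cfc f B) B := (Commute.refl B).cfc_real f
    rw [star_mul, IsSelfAdjoint.cfc.star_eq, mul_assoc, ← mul_assoc (star z), ← B3, ← mul_assoc,
      ← mul_assoc, c1.eq, mul_assoc, mul_assoc, ← c2.eq, ← mul_assoc (cfc f B), cfc_mul' f1 f1,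
      cfc_mul_id (by fun_prop) B0, cfc_congr (g := fun _ => 1) f2, cfc_const_one ℝ B, mul_one]
  · have a1 : ‖cfc f B - 1‖ ≤ 2 * κ := by
      rw [← cfc_const_one ℝ B, ← cfc_sub _ _ B]
      refine norm_cfc_le (by positivity) fun s hs => ?_
      have b1 := abs_le.1 (B2 s hs)
      have b2 := f2 s hs
      have b3 : 0 ≤ f s := Real.sqrt_nonneg _
      rw [Real.norm_eq_abs, abs_le]
      generalize f s = x at b2 b3
      constructor
      · by_contra hc
        have : x < 1 - 2 * κ := by linarith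
        have : x * x ≤ 1 - 2 * κ := by nlinarith
        nlinarith
      · by_contra hc
        have : 1 + 2 * κ < x := by linarith
        have d1 : (1 + 2 * κ) * (1 + 2 * κ) < x * x := by nlinarith
        have d2 : x * x * (1 - 2 * κ) ≤ x * x * s := by gcongr; linarith
        have d3 := mul_lt_mul_of_pos_right d1 (show 0 < 1 - 2 * κ by linarith)
        have d4 : 0 ≤ κ * (1 - 2 * κ - 4 * κ * κ) := mul_nonneg κ0 (by nlinarith)
        nlinarith
    have : z * cfc f B - P = z * (cfc f B - 1) + (z - P) := by noncomm_ring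
    rw [this]
    have a2 : ‖z * (cfc f B - 1)‖ ≤ 1 * (2 * κ) := (norm_mul_le _ _).trans (by gcongr)
    linarith [norm_add_le (z * (cfc f B - 1)) (z - P)]

end Pool.Agent.Lib.MP_30b5b4_an
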