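import Pool.Agent.Lib.MP_30b5b4_an.RR1

/-! Real rank zero: colours may be taken multiplicative. -/

open scoped CStarAlgebra ComplexOrder Topology
open Filter

set_option linter.unusedSectionVars false
set_option linter.style.haveILetI false

namespace Pool.Agent.Lib.MP_30b5b4_an

universe u

variable {J : Type*} {A : Type u} [NonUnitalCStarAlgebra J] [PartialOrder J] [StarOrderedRing J]
  [CStarAlgebra A] [PartialOrder A] [StarOrderedRing A] {j : J →⋆ₙₐ[ℂ] A}

lemma proj_sum {ι : Type*} [Fintype ι] (p : ι → A) (h1 : ∀ i, IsStarProjection (p i))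
    (h2 : ∀ i k, i ≠ k → p i * p k = 0) : IsStarProjection (∑ i, p i) := by
  refine ⟨?_, isSelfAdjoint_sum _ fun i _ => (h1 i).isSelfAdjoint⟩
  rw [IsIdempotentElem, Finset.sum_mul_sum]
  refine Finset.sum_congr rfl fun i _ => ?_
  rw [Finset.sum_eq_single i (fun k _ hk => h2 i k hk.symm) (by simp), (h1 i).isIdempotentElem.eq]

noncomputable def grid (n k : ℕ) : ℝ := ((k : ℝ) + 1) / n

lemma grid_mono {n k l : ℕ} (h : k ≤ l) : grid n k ≤ grid n l := by
  unfold grid; gcongr

lemma grid_pos {n : ℕ} (hn : 0 < n) (k : ℕ) : 0 < grid n k := by unfold grid; positivity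

lemma grid_le_one {n : ℕ} (l : Fin n) : grid n l ≤ 1 := by
  have hn : (0 : ℝ) < n := by exact_mod_cast l.pos
  rw [grid, div_le_one hn]
  exact_mod_cast l.2

noncomputable def box (n l : ℕ) (s : ℝ) : ℝ := stp (grid n l) s * (1 - stp (grid n (l + 1)) s)

lemma box_of {n l : ℕ} {s : ℝ} (h1 : grid n l < s) (h2 : s ≤ grid n (l + 1)) : box n l s = 1 := by
  simp [box, stp, h1, not_lt.2 h2]

lemma box_cases (n l : ℕ) (s : ℝ) : box n l s = 0 ∨ (grid n l < s ∧ s ≤ grid n (l + 1)) := by
  by_cases h1 : grid n l < s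
  · by_cases h2 : grid n (l + 1) < s
    · left; simp [box, stp, h2]
    · exact Or.inr ⟨h1, not_lt.1 h2⟩
  · left; simp [box, stp, h1]

lemma box_mul {n l l' : ℕ} (h : l ≠ l') (s : ℝ) : box n l s * box n l' s = 0 := by
  rcases box_cases n l s with h1 | h1
  · rw [h1, zero_mul]
  rcases box_cases n l' s with h2 | h2
  · rw [h2, mul_zero]
  rcases lt_or_gt_of_ne h with h3 | h3
  · linarith [grid_mono (n := n) (Nat.succ_le_of_lt h3), h1.2, h2.1]
  · linarith [grid_mono (n := n) (Nat.succ_le_of_lt h3), h1.1, h2.2]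

lemma box_sum {n : ℕ} (hn : 0 < n) {s : ℝ} (h1 : -(1 / (n : ℝ)) ≤ s) (h2 : s ≤ grid n n) :
    |∑ l : Fin n, grid n l * box n l s - s| ≤ 1 / n ∧ |∑ l : Fin n, grid n l * box n l s| ≤ 1 := by
  classical
  by_cases h0 : s ≤ grid n 0
  · have : ∑ l : Fin n, grid n l * box n l s = 0 := Finset.sum_eq_zero fun l _ => by
      rcases box_cases n l s with h | h
      · rw [h, mul_zero]
      · linarith [grid_mono (n := n) (Nat.zero_le l), h.1]
    rw [this, zero_sub, abs_neg, abs_zero, abs_le]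
    exact ⟨⟨h1, by simpa [grid] using h0⟩, zero_le_one⟩
  have ex : ∃ k, s ≤ grid n k := ⟨n, h2⟩
  obtain ⟨l, hl⟩ : ∃ l, Nat.find ex = l + 1 :=
    Nat.exists_eq_succ_of_ne_zero fun h => h0 (h ▸ Nat.find_spec ex)
  have a1 : s ≤ grid n (l + 1) := hl ▸ Nat.find_spec ex
  have a2 : grid n l < s := not_le.1 (Nat.find_min ex (by omega))
  have a3 : l < n := by have := Nat.find_min' ex h2; omega
  have a4 := box_of a2 a1
  have : ∑ l : Fin n, grid n l * box n l s = grid n l := by
    rw [Finset.sum_eq_single ⟨l, a3⟩ (fun k _ hk => ?_) (by simp), a4, mul_one]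
    have := box_mul (n := n) (l := k) (l' := l) (fun h => hk (Fin.ext h)) s
    rw [a4, mul_one] at this
    rw [this, mul_zero]
  rw [this, abs_of_pos (grid_pos hn l), abs_le]
  have a5 : grid n (l + 1) = grid n l + 1 / n := by simp only [grid]; push_cast; ring
  have a6 : (0 : ℝ) < 1 / n := by positivity
  exact ⟨⟨by linarith, by linarith⟩, grid_le_one ⟨l, a3⟩⟩

lemma RR.steps (hj : Idl j) (h : RR j) {a : J} (a0 : 0 ≤ j a) (a1 : j a ≤ 1) {n : ℕ}
    (hn : 0 < n) : ∃ (g : A) (p : Fin n → A), IsSelfAdjoint g ∧ Commute g (j a) ∧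
      (∀ l, IsStarProjection (p l)) ∧ (∀ l l', l ≠ l' → p l * p l' = 0) ∧
      (∀ l, ∃ b, j b = p l) ∧ (∀ l, j a * g * p l = p l) ∧
      ‖∑ l : Fin n, grid n l • p l - j a‖ ≤ 2 / n := by
  classical
  have hn' : (1 : ℝ) ≤ n := by exact_mod_cast hn
  set δ : ℝ := 1 / (100 * n * n) with hδ
  have δ0 : 0 < δ := by positivity
  have δ1 : δ * n = 1 / 100 * (1 / n) := by rw [hδ]; field_simp
  have δ2 : δ ≤ δ * n := le_mul_of_one_le_right δ0.le hn'
  have δ3 : 1 / (n : ℝ) ≤ 1 := by rw [div_le_one (by positivity)]; exact hn'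
  have δ4 : (0 : ℝ) < 1 / n := by positivity
  obtain ⟨b, b1, b2, b3⟩ := h.many ((Finset.range (n + 1)).image (grid n)) (by
    simp only [Finset.mem_image, not_exists, not_and]
    exact fun k _ => (grid_pos hn k).ne') (a := a)
    (hj.inj (by rw [map_star, a0.star_eq])) δ0
  set H := j a with hH
  set B := j b with hB
  have B0 : IsSelfAdjoint B := b1.map j
  have B1 : ‖B - H‖ ≤ δ := by
    rw [hB, hH, ← map_sub]; exact (NonUnitalStarAlgHom.norm_apply_le j _).trans b2
  have c1 : ∀ k ≤ n, ContinuousOn (stp (grid n k)) (spectrum ℝ B) := fun k hk =>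
    stp_cont (b3 _ (Finset.mem_image_of_mem _ (Finset.mem_range.2 (by omega))))
  have c2 : ∀ l : Fin n, ContinuousOn (box n l) (spectrum ℝ B) := fun l =>
    (c1 l l.2.le).mul (continuousOn_const.sub (c1 (l + 1) l.2))
  have c0 := c1 0 (Nat.zero_le n)
  have B2 : ∀ s ∈ spectrum ℝ B, -(1 / (n : ℝ)) ≤ s ∧ s ≤ grid n n := fun s hs => by
    have d1 := norm_apply_le_norm_cfc (fun s : ℝ => s) B hs
    have d2 := norm_apply_le_norm_cfc (fun s : ℝ => 1 - s) B hs
    rw [cfc_sub _ _ B, cfc_id' ℝ B, cfc_const_one ℝ B] at d2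
    rw [cfc_id' ℝ B] at d1
    have d3 := norm_add_le (B - H) H
    have d4 := norm_sub_le (1 - H) (B - H)
    rw [sub_add_cancel] at d3
    rw [sub_sub_sub_cancel_right] at d4
    have d5 := norm_le_one_of a0 a1
    have d6 := norm_le_one_of (sub_nonneg.2 a1) (sub_le_self _ a0)
    have d7 : grid n n = 1 + 1 / n := by simp only [grid]; field_simp
    rw [Real.norm_eq_abs] at d1 d2
    constructor <;> linarith [le_abs_self s, le_abs_self (1 - s)]
  set P := cfc (stp (grid n 0)) B with hP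
  have P0 : IsStarProjection P := ⟨by
    rw [IsIdempotentElem, ← cfc_mul _ _ B c0 c0]
    congr 1; funext s; simp only [stp]; split_ifs <;> simp, IsSelfAdjoint.cfc⟩
  have g0 := Gf_cont (grid_pos hn 0)
  set r := cfc (fun s => stp (grid n 0) s * Gf (grid n 0) s) B with hr
  have r1 : B * r = P := by
    conv_lhs => enter [1]; rw [← cfc_id' ℝ B]
    rw [hr, ← cfc_mul (fun s => s) (fun s => stp (grid n 0) s * Gf (grid n 0) s) B (by fun_prop)
      (c0.mul g0.continuousOn)]
    congr 1; funext s; simp only [stp]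
    split_ifs with h1
    · rw [one_mul, Gf, max_eq_left h1.le, mul_inv_cancel₀ ((grid_pos hn 0).trans h1).ne']
    · simp
  have r2 : ‖r‖ ≤ n := norm_cfc_le (by positivity) fun s _ => by
    simp only [stp]
    split_ifs
    · rw [one_mul, Real.norm_of_nonneg (Gf_nonneg (grid_pos hn 0)), Gf]
      refine (inv_anti₀ (grid_pos hn 0) (le_max_right _ _)).trans_eq ?_
      simp [grid]
    · simp
  have g1 := Gf_cont δ0
  have g2 := Hf_cont δ0
  set u := cfc (Hf δ) H with hu
  have u0 : 0 ≤ u := cfc_nonneg fun _ _ => Hf_nonneg δ0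
  have u1 : u ≤ 1 := cfc_le_one _ _ fun _ _ => Hf_le δ0
  have u2 : Commute u H := (Commute.refl H).cfc_real _
  have u3 : ‖u * P - P‖ ≤ 2 * (δ * n) := by
    have : u * P - P = H * (u - 1) * r - (1 - u) * (B - H) * r := by
      rw [← r1, mul_sub H, ← u2.eq]; noncomm_ring
    rw [this]
    have d1 : ‖H * (u - 1) * r‖ ≤ δ * n := (norm_mul_le _ _).trans (by
      gcongr; exact norm_Hf δ0 a0)
    have d2 : ‖(1 - u) * (B - H) * r‖ ≤ 1 * δ * n := norm_mul₃_le.trans (by
      gcongr; exact norm_le_one_of (sub_nonneg.2 u1) (sub_le_self _ u0))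
    linarith [norm_sub_le (H * (u - 1) * r) ((1 - u) * (B - H) * r)]
  obtain ⟨m, m1, m2⟩ := proj_polar P0 (norm_le_one_of u0 u1) (by linarith) u3
  set v := u * P * m with hv
  let q : Fin n → A := fun l => cfc (box n l) B
  have q1 : ∀ l, P * q l = q l := fun l => by
    rw [hP, ← cfc_mul _ _ B c0 (c2 l)]
    congr 1; funext s
    rcases box_cases n l s with h1 | h1
    · rw [h1, mul_zero]
    · rw [stp, if_pos ((grid_mono (Nat.zero_le _)).trans_lt h1.1), one_mul]
  have q2 : ∀ l, q l * q l = q l := fun l => by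
    rw [← cfc_mul _ _ B (c2 l) (c2 l)]
    congr 1; funext s
    rcases box_cases n l s with h1 | h1
    · rw [h1, mul_zero]
    · rw [box_of h1.1 h1.2, mul_one]
  have q3 : ∀ l l', l ≠ l' → q l * q l' = 0 := fun l l' hl => by
    rw [← cfc_mul _ _ B (c2 l) (c2 l'), ← cfc_zero ℝ B]
    congr 1; funext s
    exact box_mul (fun h => hl (Fin.ext h)) s
  have q4 : ∀ l l', v * q l * star v * (v * q l' * star v) = v * (q l * q l') * star v :=
    fun l l' => by
      rw [mul_assoc (v * q l), ← mul_assoc (star v), ← mul_assoc (star v), m1, q1]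
      simp only [mul_assoc]
  have q5 : ∀ l, star (q l) = q l := fun l => IsSelfAdjoint.cfc.star_eq
  refine ⟨cfc (Gf δ) H, fun l => v * q l * star v, IsSelfAdjoint.cfc, (Commute.refl H).cfc_real _,
    fun l => ⟨by rw [IsIdempotentElem, q4, q2], ?_⟩, fun l l' hl => by rw [q4, q3 l l' hl]; simp,
    fun l => ?_, fun l => ?_, ?_⟩
  · have h5 : IsSelfAdjoint (q l) := q5 l
    exact h5.conjugate v
  · obtain ⟨c, hc⟩ := hj.both u (r * m * q l * star v) b
    exact ⟨c, by rw [hc, hv, ← r1]; simp only [mul_assoc]; rfl⟩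
  · have : H * cfc (Gf δ) H * u = u := by
      rw [id_mul_cfc g1 a0.isSelfAdjoint, hu, cfc_mul' (by fun_prop) g2]
      congr 1; funext s
      linarith [Hf_mul (s := s) δ0]
    rw [hv]
    simp only [← mul_assoc, this]
  · set y := ∑ l : Fin n, grid n l • q l with hy
    have y1 : y = cfc (fun s => ∑ l : Fin n, grid n l * box n l s) B := by
      have := cfc_sum (fun (l : Fin n) s => grid n l * box n l s) B Finset.univ
        fun l _ => continuousOn_const.mul (c2 l)
      rw [hy, show (fun s => ∑ l : Fin n, grid n l * box n l s) =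
        ∑ l : Fin n, fun s => grid n l * box n l s by funext s; simp, this]
      exact Finset.sum_congr rfl fun l _ => (cfc_const_mul _ _ B (c2 l)).symm
    have c3 : ContinuousOn (fun s => ∑ l : Fin n, grid n l * box n l s) (spectrum ℝ B) :=
      continuousOn_finsetSum _ fun l _ => continuousOn_const.mul (c2 l)
    have y2 : ‖y - B‖ ≤ 1 / n := by
      rw [y1]
      conv_lhs => enter [1, 2]; rw [← cfc_id' ℝ B]
      rw [← cfc_sub _ _ B c3]
      exact norm_cfc_le δ4.le fun s hs => (box_sum hn (B2 s hs).1 (B2 s hs).2).1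
    have y3 : ‖y‖ ≤ 1 := by
      rw [y1]
      exact norm_cfc_le zero_le_one fun s hs => (box_sum hn (B2 s hs).1 (B2 s hs).2).2
    have y4 : P * y = y := by simp only [hy, Finset.mul_sum, mul_smul_comm, q1]
    have y5 : y * P = y := by
      have := congrArg star y4
      simpa only [hy, star_mul, star_sum, star_smul, star_trivial, q5,
        P0.isSelfAdjoint.star_eq] using this
    have nv : ‖v‖ ≤ 1 := by
      have := P0.norm_le
      rw [← m1, CStarRing.norm_star_mul_self] at this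
      nlinarith [norm_nonneg v]
    have e1 : ∑ l : Fin n, grid n l • (v * q l * star v) - H =
        v * y * star (v - P) + (v - P) * y + (y - B) + (B - H) := by
      rw [star_sub, P0.isSelfAdjoint.star_eq, mul_sub, mul_assoc v y P, y5, sub_mul, y4]
      simp only [hy, Finset.mul_sum, Finset.sum_mul, mul_smul_comm, smul_mul_assoc]
      abel
    rw [e1]
    have d1 : ‖v * y * star (v - P)‖ ≤ 1 * 1 * (3 * (2 * (δ * n))) := norm_mul₃_le.trans (by
      rw [norm_star]; gcongr)
    have d2 : ‖(v - P) * y‖ ≤ 3 * (2 * (δ * n)) * 1 := (norm_mul_le _ _).trans (by gcongr)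
    have d3 := norm_add₄_le (a := v * y * star (v - P)) (b := (v - P) * y) (c := y - B) (d := B - H)
    have d4 : (2 : ℝ) / n = 2 * (1 / n) := by ring
    linarith

end Pool.Agent.Lib.MP_30b5b4_an
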