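import Pool.Agent.Lib.MP_30b5b4_an.RR2

/-! Real rank zero: colours may be taken multiplicative. -/

open scoped CStarAlgebra ComplexOrder Topology
open Filter

set_option linter.unusedSectionVars false
set_option linter.style.haveILetI false

namespace Pool.Agent.Lib.MP_30b5b4_an

universe u

variable {J : Type*} {A : Type u} [NonUnitalCStarAlgebra J] [PartialOrder J] [StarOrderedRing J]
  [CStarAlgebra A] [PartialOrder A] [StarOrderedRing A] {j : J →⋆ₙₐ[ℂ] A}

lemma Colour.exists_pi (c : Colour j) {n : ℕ} (π : Fin n → c.F →ₗ[ℂ] A) (h1 : ∀ l, OZ (π l))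
    (h2 : ∀ l, IsStarProjection (π l 1)) (h3 : ∀ l l', l ≠ l' → π l 1 * π l' 1 = 0)
    (h4 : ∀ l x, ∃ b, j b = π l x) (r : Fin n → ℝ) (r0 : ∀ l, 0 ≤ r l) (r1 : ∀ l, r l ≤ 1) :
    ∃ d : Colour j, IsStarProjection (d.φ 1) ∧ ∀ a, d.T a = ∑ l, r l • π l (c.ψ a) := by
  let Ψ : J →ₗ[ℂ] (Fin n → c.F) := LinearMap.pi fun l => (r l : ℂ) • c.ψ
  have e0 : ∀ a l, Ψ a l = r l • c.ψ a := fun a l => Complex.coe_smul _ _
  let Φ : (Fin n → c.F) →ₗ[ℂ] A := ∑ l, π l ∘ₗ LinearMap.proj l
  have e : ∀ x, Φ x = ∑ l, π l (x l) := fun x => by simp [Φ]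
  have o : ∀ l l', l ≠ l' → ∀ x y, π l x * π l' y = 0 := fun l l' hl x y =>
    (h1 l).mul_right_eq_zero ((h1 l').mul_left_eq_zero (h3 l l' hl) y) x
  have m : ∀ x y, Φ x * Φ y = ∑ l, π l (x l) * π l (y l) := fun x y => by
    rw [e, e, Finset.sum_mul_sum]
    exact Finset.sum_congr rfl fun l _ =>
      Finset.sum_eq_single l (fun k _ hk => o l k hk.symm _ _) (by simp)
  have p : IsStarProjection (Φ 1) := by rw [e]; exact proj_sum _ h2 h3
  refine ⟨{ F := Fin n → c.F
            ψ := Ψ
            φ := Φ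
            cp := fun k a b l => ?_
            le := fun a => (pi_norm_le_iff_of_nonneg (norm_nonneg _)).2 fun l => ?_
            oz := ⟨IsCP.sum _ _ fun l _ => (h1 l).cp.comp_half (fun x => x l) fun _ _ => rfl,
              fun x y => ?_⟩
            one := p.le_one
            mem := fun x => ?_ }, p, fun a => ?_⟩
  · have := (c.cp.smul (ψ := (r l : ℂ) • c.ψ) (r0 l) fun a => Complex.coe_smul _ _) k a
      fun i => b i l
    simpa [Finset.sum_apply, Ψ] using this
  · rw [e0, norm_smul, Real.norm_of_nonneg (r0 l)]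
    exact (mul_le_of_le_one_left (norm_nonneg _) (r1 l)).trans (c.le a)
  · rw [m, m]
    exact Finset.sum_congr rfl fun l _ => (h1 l).mul _ _
  · choose b hb using fun l => h4 l (x l)
    exact ⟨∑ l, b l, by rw [map_sum, e]; exact Finset.sum_congr rfl fun l _ => hb l⟩
  · change Φ (Ψ a) = _
    rw [e]
    refine Finset.sum_congr rfl fun l _ => ?_
    rw [e0, ← Complex.coe_smul, map_smul, Complex.coe_smul]

lemma RR.hom_colour (hj : Idl j) (h : RR j) (c : Colour j) {ε : ℝ} (hε : 0 < ε) :
    ∃ d : Colour j, IsStarProjection (d.φ 1) ∧ ∀ a, ‖d.T a - c.T a‖ ≤ ε * ‖a‖ := by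
  classical
  obtain ⟨M⟩ := exists_MU c.F
  obtain ⟨n, hn⟩ := exists_nat_gt ((M.N : ℝ) ^ 2 * 2 / ε)
  have n0 : 0 < n := by
    have : (0 : ℝ) < n := lt_of_le_of_lt (by positivity) hn
    exact_mod_cast this
  let H : Fin M.N → A := fun i => c.φ (star (M.v i) * M.v i)
  have H0 : ∀ i, 0 ≤ H i := fun i => c.oz.cp.proj_nonneg (M.proj i)
  have H1 : ∀ i, H i ≤ 1 := fun i => (c.oz.cp.mono (M.proj i).le_one).trans c.one
  have H2 : ∀ i k, M.cl i = M.cl k → H i = H k := fun i k hik => by simp only [H, M.init i k hik]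
  have ex : ∀ x : A, ∃ (g : A) (p : Fin n → A), (∃ i, x = H i) → IsSelfAdjoint g ∧ Commute g x ∧
      (∀ l, IsStarProjection (p l)) ∧ (∀ l l', l ≠ l' → p l * p l' = 0) ∧
      (∀ l, ∃ b, j b = p l) ∧ (∀ l, x * g * p l = p l) ∧
      ‖∑ l : Fin n, grid n l • p l - x‖ ≤ 2 / n := fun x => by
    by_cases hx : ∃ i, x = H i
    · obtain ⟨i, rfl⟩ := hx
      obtain ⟨a, ha⟩ : ∃ a, j a = H i := c.mem _
      obtain ⟨g, p, hp⟩ := h.steps hj (ha ▸ H0 i) (ha ▸ H1 i) n0
      exact ⟨g, p, fun _ => ha ▸ hp⟩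
    · exact ⟨0, 0, fun h => (hx h).elim⟩
  choose g p hp using ex
  have hp' := fun i => hp (H i) ⟨i, rfl⟩
  choose g0 g1 p0 p1 p2 p3 p4 using hp'
  have p5 : ∀ i l, p (H i) l * (g (H i) * H i) = p (H i) l := fun i l => by
    have := congrArg star (p3 i l)
    rwa [star_mul, star_mul, (p0 i l).isSelfAdjoint.star_eq, (g0 i).star_eq, (H0 i).star_eq] at this
  let w : Fin n → Fin M.N → A := fun l i => c.φ (M.v i) * g (H i) * p (H i) l
  have w0 : ∀ l l' i k, star (w l i) * w l' k = p (H i) l * g (H i) *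
      (c.φ 1 * c.φ (star (M.v i) * M.v k)) * g (H k) * p (H k) l' := fun l l' i k => by
    simp only [w]
    rw [star_mul, star_mul, (p0 i l).isSelfAdjoint.star_eq, (g0 i).star_eq, ← c.oz.mul,
      c.oz.cp.map_star]
    simp only [mul_assoc]
  have w1 : ∀ l l' i k, i ≠ k → star (w l i) * w l' k = 0 := fun l l' i k hik => by
    rw [w0, M.orth i k hik]; simp
  have w2 : ∀ l l' i, star (w l i) * w l' i = p (H i) l * p (H i) l' := fun l l' i => by
    have : c.φ 1 * H i = H i * H i := by
      simp only [H]; rw [c.oz.mul (star _ * _), (M.proj i).isIdempotentElem.eq]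
    rw [w0, this]
    conv_rhs => rw [← p5 i l, ← p3 i l']
    simp only [mul_assoc]
  have w3 : ∀ l i, star (w l i) * w l i = p (H i) l := fun l i => by
    rw [w2, (p0 i l).isIdempotentElem.eq]
  have w4 : ∀ l, M.Rel (w l) := fun l =>
    ⟨w1 l l, fun i k hik => by rw [w3, w3, H2 i k hik]⟩
  have w5 : ∀ l l' i k, i ≠ k ∨ l ≠ l' → w l i * star (w l i) * (w l' k * star (w l' k)) = 0 := by
    intro l l' i k hh
    have : star (w l i) * w l' k = 0 := by
      by_cases hik : i = k
      · subst hik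
        rw [w2, p1 i l l' (hh.resolve_left fun h => h rfl)]
      · exact w1 l l' i k hik
    rw [mul_assoc, ← mul_assoc (star _), this, zero_mul, mul_zero]
  obtain ⟨d, d1, d2⟩ := c.exists_pi (fun l => M.build (w l)) (fun l => (w4 l).oz)
    (fun l => by
      rw [M.build_one]
      exact proj_sum _ (fun i => range_proj (w3 l i ▸ p0 i l)) fun i k hik =>
        w5 l l i k (Or.inl hik))
    (fun l l' hl => by
      rw [M.build_one, M.build_one, Finset.sum_mul_sum]
      exact Finset.sum_eq_zero fun i _ => Finset.sum_eq_zero fun k _ => w5 l l' i k (Or.inr hl))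
    (fun l x => by
      rw [M.build_apply]
      have : ∀ i k, ∃ b, j b = w l i * star (w l k) := fun i k => by
        obtain ⟨b, hb⟩ := p2 i l
        obtain ⟨b', hb'⟩ := hj.both (c.φ (M.v i) * g (H i)) (star (w l k)) b
        exact ⟨b', by rw [hb', hb]⟩
      choose b hb using this
      exact ⟨∑ i, ∑ k, M.c i k x • b i k, by simp only [map_sum, map_smul, hb]⟩)
    (fun l => grid n l) (fun l => (grid_pos n0 l).le) grid_le_one
  let y : Fin M.N → A := fun i => ∑ l : Fin n, grid n l • p (H i) l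
  let s : Fin M.N → A := fun i => ∑ l : Fin n, √(grid n l) • p (H i) l
  have s0 : ∀ i, star (s i) = s i := fun i => by
    simp only [s, star_sum, star_smul, star_trivial, (p0 i _).isSelfAdjoint.star_eq]
  have y0 : ∀ i, star (y i) = y i := fun i => by
    simp only [y, star_sum, star_smul, star_trivial, (p0 i _).isSelfAdjoint.star_eq]
  have s1 : ∀ i, s i * s i = y i := fun i => by
    simp only [s, y]
    rw [Finset.sum_mul_sum]
    refine Finset.sum_congr rfl fun l _ => ?_
    rw [Finset.sum_eq_single l (fun k _ hk => by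
      rw [smul_mul_smul_comm, p1 i l k hk.symm, smul_zero]) (by simp), smul_mul_smul_comm,
      (p0 i l).isIdempotentElem.eq, Real.mul_self_sqrt (grid_pos n0 l).le]
  let W : Fin M.N → A := fun i => c.φ (M.v i) * g (H i) * s i
  have W1 : ∀ i k, M.cl i = M.cl k → W i * star (W k) =
      c.φ (M.v i) * (g (H i) * y i * g (H i)) * star (c.φ (M.v k)) := fun i k hik => by
    have : s k = s i := by simp only [s, H2 i k hik]
    simp only [W]
    rw [star_mul, star_mul, s0, (g0 k).star_eq, this, ← H2 i k hik, ← s1]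
    simp only [mul_assoc]
  have W2 : ∀ x, ∑ l : Fin n, grid n l • M.build (w l) x = M.build W x := fun x => by
    simp only [M.build_apply, Finset.smul_sum]
    rw [Finset.sum_comm]
    refine Finset.sum_congr rfl fun i _ => ?_
    rw [Finset.sum_comm]
    refine Finset.sum_congr rfl fun k _ => ?_
    by_cases hik : M.cl i = M.cl k
    swap
    · simp [M.zero i k x hik]
    rw [W1 i k hik]
    simp only [y, Finset.mul_sum, Finset.sum_mul, Finset.smul_sum, mul_smul_comm, smul_mul_assoc]
    refine Finset.sum_congr rfl fun l _ => ?_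
    rw [smul_comm]
    congr 2
    simp only [w]
    rw [star_mul, star_mul, (p0 k l).isSelfAdjoint.star_eq, (g0 k).star_eq, ← H2 i k hik,
      mul_assoc, ← mul_assoc (p _ _) (p _ _), (p0 i l).isIdempotentElem.eq]
    simp only [mul_assoc]
  refine ⟨d, d1, fun a => ?_⟩
  rw [d2, W2]
  refine (MU.norm_sub_build_le c.oz (fun i => g (H i) * y i * g (H i)) W1
    (fun i => ?_) (δ := 2 / n) (by positivity) (fun i => ?_) _).trans ?_
  · have h5 : IsSelfAdjoint (y i) := y0 i
    simpa only [(g0 i).star_eq] using h5.conjugate (g (H i))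
  · refine le_trans (le_of_eq (congrArg _ ?_)) (p4 i)
    change H i * (g (H i) * y i * g (H i) * H i - 1) = y i - H i
    have a1 : H i * g (H i) * y i = y i := by simp only [y, Finset.mul_sum, mul_smul_comm, p3]
    have a2 : y i * (g (H i) * H i) = y i := by simp only [y, Finset.sum_mul, smul_mul_assoc, p5]
    rw [mul_sub, mul_one, mul_assoc (_ * _), mul_assoc (g _), a2, ← mul_assoc, a1]
  · refine mul_le_mul ?_ (c.le a) (norm_nonneg _) hε.le
    have : (0 : ℝ) < n := by exact_mod_cast n0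
    rw [div_lt_iff₀ hε] at hn
    rw [← mul_div_assoc, div_le_iff₀ this]
    linarith

end Pool.Agent.Lib.MP_30b5b4_an
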