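import Pool.Agent.Lib.MP_30b5b4_an.RR3

/-! Multiplicative approximations in the ultrapower, and the algebraic core of the merging step. -/

open scoped CStarAlgebra ComplexOrder Topology
open Filter

set_option linter.unusedSectionVars false
set_option linter.style.haveILetI false

namespace Pool.Agent.Lib.MP_30b5b4_an

universe u

variable {J : Type*} {A : Type u} [NonUnitalCStarAlgebra J] [PartialOrder J] [StarOrderedRing J]
  [CStarAlgebra A] [PartialOrder A] [StarOrderedRing A] {j : J →⋆ₙₐ[ℂ] A}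

def ApH (j : J →⋆ₙₐ[ℂ] A) (N : ℕ) : Prop :=
  ∀ (S : Finset J) (ε : ℝ), 0 < ε → ∃ c : Fin N → Colour j,
    (∀ i, IsStarProjection ((c i).φ 1)) ∧ ∀ a ∈ S, ‖∑ i, (c i).T a - j a‖ ≤ ε

lemma Ap.apH {N : ℕ} {d : Prop} (h : Ap j N d) (hj : Idl j) (hr : RR j) : ApH j N := by
  intro S ε hε
  obtain ⟨c, -, hc⟩ := h S (ε / 2) (by positivity)
  set C := ∑ a ∈ S, ‖a‖ + 1 with hC
  have hC0 : 0 < C := by positivity
  choose e e1 e2 using fun i => hr.hom_colour hj (c i)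
    (show 0 < ε / (2 * ((N : ℝ) + 1) * C) by positivity)
  refine ⟨e, e1, fun a ha => ?_⟩
  have a1 : ‖a‖ ≤ C := by
    linarith [Finset.single_le_sum (f := fun a => ‖a‖) (fun _ _ => norm_nonneg _) ha]
  have a2 : ‖∑ i, (e i).T a - ∑ i, (c i).T a‖ ≤ N * (ε / (2 * ((N : ℝ) + 1) * C) * C) := by
    rw [← Finset.sum_sub_distrib]
    refine (norm_sum_le _ _).trans ((Finset.sum_le_sum fun i _ => (e2 i a).trans
      (mul_le_mul_of_nonneg_left a1 (by positivity))).trans ?_)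
    simp
  have a3 : N * (ε / (2 * ((N : ℝ) + 1) * C) * C) ≤ ε / 2 := by
    rw [show N * (ε / (2 * ((N : ℝ) + 1) * C) * C) = ε / 2 * (N / (N + 1)) by field_simp]
    refine mul_le_of_le_one_right (by positivity) ?_
    rw [div_le_one (by positivity)]; linarith
  have := norm_add_le (∑ i, (e i).T a - ∑ i, (c i).T a) (∑ i, (c i).T a - j a)
  rw [sub_add_sub_cancel] at this
  linarith [hc a ha]

lemma ApH.ultra0 {N : ℕ} (h : ApH j N) (hj : Idl j) {w : BA A}
    (hw : ∀ k, ∃ b, j b = Bdd.ev k w) (w0 : 0 ≤ w) (w1 : w ≤ 1) {κ : Type*} [Fintype κ]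
    (x : κ → UA A) : ∃ c : Fin N → ℕ → CA A, (∀ i k x, ∃ b, j b = (c i k).φ x) ∧
      (∀ m, ∑ i, uT (c i) (x m) = Ult.mk w * x m * Ult.mk w) ∧
      ∀ i k, IsStarProjection ((c i k).φ 1) := by
  classical
  choose x' hx' using fun m => Ult.surj (x m)
  choose L hL f f1 f2 f3 using fun k => hj.compress (hw k) (hom_nonneg _ w0)
    (by simpa using hom_mono (Bdd.ev k) w1)
  choose c c1 c2 using fun k : ℕ => h (Finset.univ.image fun m => L k (Bdd.ev k (x' m))) _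
    (show (0 : ℝ) < 1 / ((k : ℝ) + 1) by positivity)
  refine ⟨fun i k => f k (c k i), fun i k => f1 k _, fun m => ?_, fun i k => ?_⟩
  · simp only [← hx', uT_mk, ← map_mul, ← map_sum]
    refine Ult.mk_eq_of_le 1 fun k => ?_
    have := c2 k _ (Finset.mem_image_of_mem _ (Finset.mem_univ m))
    rw [hL] at this
    simpa [f3] using this
  · rw [f2]; exact c1 k i

theorem ApH.ultra {N : ℕ} (h : ApH j N) (hj : Idl j) {w : BA A}
    (hw : ∀ k, ∃ b, j b = Bdd.ev k w) (w0 : 0 ≤ w) (w1 : w ≤ 1) {κ : Type*} [Fintype κ]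
    (b : κ → UA A) (hb : ∀ m, Ult.mk w * b m = b m ∧ b m * Ult.mk w = b m) :
    ∃ c : Fin N → ℕ → CA A, (∀ i k x, ∃ b, j b = (c i k).φ x) ∧
      (∀ i m, uT (c i) (b m) = uT (c i) 1 * b m ∧ uT (c i) (b m) = b m * uT (c i) 1) ∧
      (∀ m, ∑ i, uT (c i) (b m) = b m) ∧ ∀ i k, IsStarProjection ((c i k).φ 1) := by
  obtain ⟨c, c1, c2, c3⟩ := h.ultra0 hj hw w0 w1 (κ := Option (κ × Fin 3)) fun o =>
    o.elim 1 fun p => ![b p.1, star (b p.1) * b p.1, b p.1 * star (b p.1)] p.2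
  set W := Ult.mk w
  have W0 : star W = W := (hom_nonneg _ w0).star_eq
  have hb' : ∀ m, W * star (b m) = star (b m) ∧ star (b m) * W = star (b m) := fun m =>
    ⟨by rw [← W0, ← star_mul, (hb m).2], by rw [← W0, ← star_mul, (hb m).1]⟩
  have e0 : ∑ i, uT (c i) 1 = W * W := by simpa using c2 none
  have e1 : ∀ m, ∑ i, uT (c i) (b m) = b m := fun m => by
    simpa [(hb m).1, (hb m).2] using c2 (some (m, 0))
  have e2 : ∀ m, ∑ i, uT (c i) (star (b m) * b m) = star (b m) * b m := fun m => by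
    have := c2 (some (m, 1))
    simp only [Option.elim_some, Matrix.cons_val_one, Matrix.cons_val_zero] at this
    rw [this, ← mul_assoc, (hb' m).1, mul_assoc, (hb m).2]
  have e3 : ∀ m, ∑ i, uT (c i) (b m * star (b m)) = b m * star (b m) := fun m => by
    have := c2 (some (m, 2))
    simp only [Option.elim_some, Matrix.cons_val] at this
    rw [this, ← mul_assoc, (hb m).1, mul_assoc, (hb' m).2]
  have e4 : ∀ m, ∑ i, uT (c i) (star (b m)) = star (b m) := fun m => by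
    conv_rhs => rw [← e1 m, star_sum]
    exact Finset.sum_congr rfl fun i _ => (uT_cp _).map_star _
  refine ⟨c, c1, fun i m => ?_, e1, c3⟩
  refine ⟨rn_step _ (fun i => uT_cp (c i)) (by rw [e0, mul_assoc, (hb m).1, (hb m).1]) (e1 m)
    (e2 m) i, ?_⟩
  have := congrArg star (rn_step _ (fun i => uT_cp (c i))
    (by rw [e0, mul_assoc, (hb' m).1, (hb' m).1]) (e4 m) (by simpa using e3 m) i)
  rwa [(uT_cp _).map_star, star_star, star_mul, star_star, (uT_cp _).one_nonneg.star_eq] at this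

lemma Gf_unit {Q : Type*} [CStarAlgebra Q] [PartialOrder Q] [StarOrderedRing Q] {c : ℝ}
    (hc : 0 < c) {q y : Q} (hq : IsStarProjection q) (hy : IsSelfAdjoint y) (h1 : Commute q y)
    (h2 : c • q ≤ q * y * q) : cfc (Gf c) y * y * q = q := by
  have g1 := Gf_cont hc
  set D := cfc (fun s => 1 - Gf c s * s) y with hD
  have D0 : 0 ≤ D := cfc_nonneg fun s _ => by rw [mul_comm]; exact sub_nonneg.2 (mul_Gf_le hc)
  have D1 : D = 1 - cfc (Gf c) y * y := by
    rw [hD, cfc_sub _ _ y, cfc_const_one ℝ y, cfc_mul_id g1 hy]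
  have D2 : Commute D q := h1.symm.cfc_real _
  have D3 : Commute D y := (Commute.refl y).cfc_real _
  have D4 : D * y - c • D = -(c • (D * D)) := by
    rw [hD, cfc_mul_id (by fun_prop) hy, cfc_mul' (by fun_prop) (by fun_prop),
      ← cfc_const_mul _ _ y, ← cfc_const_mul _ _ y, ← cfc_sub _ _ y, ← cfc_neg]
    congr 1; funext s
    rcases le_total s c with h | h
    · rw [Gf, max_eq_right h]; field_simp; ring
    · rw [Gf, max_eq_left h, inv_mul_cancel₀ (hc.trans_le h).ne']; ring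
  have a1 := Commute.mul_nonneg D0 (sub_nonneg.2 h2)
    (((D2.mul_right D3).mul_right D2).sub_right (D2.smul_right c))
  rw [h1.eq, mul_assoc y, hq.isIdempotentElem.eq, mul_sub, mul_smul_comm, ← mul_assoc,
    ← smul_mul_assoc, ← sub_mul, D4, neg_mul, smul_mul_assoc, neg_nonneg] at a1
  have a2 : D * q = 0 := eq_zero_of_star_mul_self_nonpos (by
    rw [star_mul, hq.isSelfAdjoint.star_eq, D0.star_eq, ← D2.eq, mul_assoc, ← mul_assoc q,
      ← D2.eq, mul_assoc, hq.isIdempotentElem.eq, ← mul_assoc]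
    have := smul_le_smul_of_nonneg_left a1 (inv_pos.2 hc).le
    rwa [smul_smul, inv_mul_cancel₀ hc.ne', one_smul, smul_zero] at this)
  rw [D1, sub_mul, one_mul, sub_eq_zero] at a2
  exact a2.symm

lemma rr_core {B Q F U : Type*} [CStarAlgebra B] [PartialOrder B] [StarOrderedRing B]
    [CStarAlgebra Q] [PartialOrder Q] [StarOrderedRing Q] [CStarAlgebra F] [FiniteDimensional ℂ F]
    [CStarAlgebra U] {ρ : Q →ₗ[ℂ] B} {τ : B →ₗ[ℂ] Q} (hρ : OZ ρ) (hρ1 : IsStarProjection (ρ 1))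
    (hσ : IsCP τ) (hσ1 : τ 1 ≤ 1) {η : ℝ} (hη : 0 < η) {P : Q} (p1 : IsStarProjection P)
    (p2 : ∀ x, Commute P x) (p3 : ‖ρ (1 - P)‖ < 1) (p4 : ∀ x, ρ 1 * ρ x = 0 → P * x = 0)
    (cut : ∀ {z : F →ₗ[ℂ] Q}, OZ z → ∀ {y : Q}, IsSelfAdjoint y → (∀ x, Commute y (z x)) →
      ∀ c : ℝ, ∃ q, IsStarProjection q ∧ Commute q y ∧ (∀ x, Commute q (z x)) ∧
        c • q ≤ q * y * q ∧ (1 - q) * y * (1 - q) ≤ c • (1 - q))
    {Φ : U →ₗ[ℂ] B} (hΦ : IsCP Φ) {W : F →ₗ[ℂ] B} (hW : OZ W) (hW1 : Φ 1 + W 1 ≤ 1)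
    (c1 : ∀ x, Commute (Φ 1) (W x))
    (r1 : ρ (τ (Φ 1)) = ρ (τ 1) * Φ 1 ∧ ρ (τ (Φ 1)) = Φ 1 * ρ (τ 1))
    (r2 : ∀ x, ρ (τ (Φ 1 * W x)) = ρ (τ 1) * (Φ 1 * W x) ∧
      ρ (τ (Φ 1 * W x)) = Φ 1 * W x * ρ (τ 1)) :
    ∃ q g : Q, IsStarProjection q ∧ g * q = g ∧ (∀ x, Commute (ρ q) (W x)) ∧
      (∀ x, ρ (star g * τ (Φ 1 * W x) * g) = ρ q * W x) ∧
      q * τ (Φ 1) * q + star g * τ (Φ 1 * W 1) * g ≤ 1 ∧
      ∀ b, ‖ρ (q * τ (Φ b) * q) - ρ (τ (Φ b))‖ ≤ 2 * η * ‖b‖ := by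
  have hρ' := hρ.cp.norm_le hρ1.le_one
  have hσ' := hσ.norm_le hσ1
  have m0 : ∀ x, ρ 1 * ρ x = ρ x := fun x => by
    have := hρ.mul_left_eq_zero hρ1.one_sub_mul_self x
    rw [sub_mul, one_mul, sub_eq_zero] at this
    exact this.symm
  have m1 : ∀ x y, ρ (x * y) = ρ x * ρ y := fun x y => by rw [hρ.mul, m0]
  have m2 : ρ (1 - P) = 0 := by
    have a1 : ρ (1 - P) * ρ (1 - P) = ρ (1 - P) := by rw [← m1, p1.one_sub.isIdempotentElem.eq]
    have a2 := congrArg norm a1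
    rw [(hρ.cp.proj_nonneg p1.one_sub).isSelfAdjoint.norm_mul_self] at a2
    refine norm_eq_zero.1 ?_
    nlinarith [norm_nonneg (ρ (1 - P))]
  have m3 : ∀ x, ρ (P * x) = ρ x := fun x => by
    have := m1 (1 - P) x
    rw [m2, zero_mul, sub_mul, one_mul, map_sub, sub_eq_zero] at this
    exact this.symm
  have V0 := hΦ.one_nonneg
  have hΦ1 : Φ 1 ≤ 1 := (le_add_of_nonneg_right hW.cp.one_nonneg).trans hW1
  let Z : F →ₗ[ℂ] B := LinearMap.mulLeft ℂ (Φ 1) ∘ₗ W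
  have Z0 : ∀ x, Z x = Φ 1 * W x := fun _ => rfl
  have hZ : OZ Z := hW.mulLeft V0 c1 Z0
  simp only [← Z0] at r2 ⊢
  let σ : B →ₗ[ℂ] Q := LinearMap.mulLeft ℂ P ∘ₗ τ
  have s0 : ∀ x, σ x = P * τ x := fun _ => rfl
  have s0' : ∀ x, σ x = star P * τ x * P := fun x => by
    rw [s0, p1.isSelfAdjoint.star_eq, (p2 _).eq, mul_assoc, p1.isIdempotentElem.eq]
  have s1 : IsCP σ := hσ.conj P s0'
  have s2 : ∀ x, 0 ≤ x → σ x ≤ τ x := fun x hx => by
    rw [s0, ← sub_nonneg, ← one_sub_mul]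
    exact Commute.mul_nonneg p1.one_sub.nonneg (hσ.nonneg hx) ((Commute.one_left _).sub_left (p2 _))
  have s3 : ∀ x, ‖σ x‖ ≤ ‖x‖ := s1.norm_le ((s2 1 zero_le_one).trans hσ1)
  have s4 : ∀ X Y X' Y', ρ (τ X) * ρ (τ Y) = ρ (τ X') * ρ (τ Y') → σ X * σ Y = σ X' * σ Y' := by
    intro X Y X' Y' hh
    have := p4 (τ X * τ Y - τ X' * τ Y') (by
      rw [map_sub, mul_sub, ← hρ.mul, ← hρ.mul, sub_eq_zero]; exact hh)
    have e : ∀ u v, P * u * (P * v) = P * (u * v) := fun u v => by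
      rw [← mul_assoc, mul_assoc P, ← (p2 u).eq, ← mul_assoc, p1.isIdempotentElem.eq, mul_assoc]
    rwa [s0, s0, s0, s0, e, e, ← sub_eq_zero, ← mul_sub]
  let z : F →ₗ[ℂ] Q := σ ∘ₗ Z
  have z0 : ∀ x, z x = σ (Z x) := fun _ => rfl
  have hz : OZ z := ⟨s1.comp hZ.cp z0, fun x y => s4 _ _ _ _ (by
    rw [(r2 x).1, (r2 y).2, (r2 1).1, (r2 (x * y)).2, mul_assoc, mul_assoc, ← mul_assoc (Z x),
      hZ.mul, mul_assoc])⟩
  have y0 := s1.nonneg V0
  have c2 : ∀ x, Commute (Φ 1) (Z x) := fun x => (Commute.refl _).mul_right (c1 x)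
  have yz : ∀ x, Commute (σ (Φ 1)) (z x) := fun x => s4 _ _ _ _ (by
    refine (congrArg₂ (· * ·) r1.1 (r2 x).2).trans
      (Eq.trans ?_ (congrArg₂ (· * ·) (r2 x).1 r1.2).symm)
    simp only [mul_assoc]
    rw [← mul_assoc (Φ 1), (c2 x).eq, mul_assoc])
  obtain ⟨q, q1, q2, q3, q4, q5⟩ := cut hz y0.isSelfAdjoint yz (η ^ 2)
  set y := σ (Φ 1) with hy
  have hη2 : 0 < η ^ 2 := by positivity
  have k1 : q * y * q ≤ y := by
    rw [q2.eq, mul_assoc, q1.isIdempotentElem.eq, ← sub_nonneg, ← mul_one_sub]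
    exact Commute.mul_nonneg y0 q1.one_sub.nonneg ((Commute.one_right y).sub_right q2.symm)
  have k3 : q * P = q := by
    have := mul_eq_zero_of_le (smul_nonneg hη2.le q1.nonneg) (q4.trans k1)
      (c := 1 - P) (by
        rw [hy, s0, (p2 _).eq, mul_assoc, p1.mul_one_sub_self, mul_zero])
    rw [smul_mul_assoc, smul_eq_zero, mul_sub, mul_one, sub_eq_zero] at this
    exact (this.resolve_left hη2.ne').symm
  have k4 : ∀ u v, q * u * τ v = q * u * σ v := fun u v => by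
    rw [s0, ← mul_assoc, mul_assoc q u P, ← (p2 u).eq, ← mul_assoc, k3]
  have g1 := Gf_cont hη2
  have g2 : Continuous fun s => √(Gf (η ^ 2) s) := by fun_prop
  set G := cfc (fun s => √(Gf (η ^ 2) s)) y with hG
  set Γ := cfc (Gf (η ^ 2)) y with hΓ
  have G0 : star G = G := IsSelfAdjoint.cfc.star_eq
  have G1 : G * G = Γ := by
    rw [hG, cfc_mul' g2 g2]; congr 1; funext s; exact Real.mul_self_sqrt (Gf_nonneg hη2)
  have G2 : ∀ x, Commute G (z x) := fun x => (yz x).cfc_real _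
  have G3 : Commute Γ q := q2.symm.cfc_real _
  have G4 : ∀ x, Commute Γ (z x) := fun x => (yz x).cfc_real _
  have G5 : Commute Γ y := (Commute.refl y).cfc_real _
  have G6 : Γ * y * q = q := Gf_unit hη2 q1 y0.isSelfAdjoint q2 q4
  have G7 : ∀ x, star (G * q) * τ (Z x) * (G * q) = q * Γ * z x := fun x => by
    rw [star_mul, q1.isSelfAdjoint.star_eq, G0, k4, ← z0, mul_assoc, ← mul_assoc (z x),
      ← (G2 x).eq, mul_assoc G, ← (q3 x).eq, ← mul_assoc, mul_assoc q, G1, ← mul_assoc,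
      mul_assoc q, G3.eq, ← mul_assoc, q1.isIdempotentElem.eq]
  have n1 : ∀ x, ρ (q * Γ * z x) = ρ q * W x := fun x => by
    conv_rhs => rw [← G6, mul_assoc, ← q2.eq, ← mul_assoc, G3.eq]
    rw [m1 _ (z x), m1 _ y, z0, s0, m3, hy, s0, m3, (r2 x).1, r1.1, Z0]
    simp only [mul_assoc]
  have n2 : ∀ x, ρ (q * Γ * z x) = W x * ρ q := fun x => by
    conv_rhs => rw [← G6, G5.eq, mul_assoc]
    rw [((q3 x).mul_left (G4 x)).eq, ← G3.eq, m1 (z x), m1 y, z0, s0, m3, hy, s0, m3, (r2 x).2,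
      r1.2, Z0, (c1 x).eq]
    simp only [mul_assoc]
  have n3 : ∀ x, Commute (ρ q) (W x) := fun x => (n1 x).symm.trans (n2 x)
  have n4 : ρ q * ρ q = ρ q := by rw [← m1, q1.isIdempotentElem.eq]
  have n5 := (hρ.cp.proj_nonneg q1).star_eq
  refine ⟨q, G * q, q1, by rw [mul_assoc, q1.isIdempotentElem.eq], n3,
    fun x => by rw [G7, n1], ?_, fun b => ?_⟩
  · let i : Q →⋆ₙₐ[ℂ] B × Q :=
      { toFun := fun x => (ρ x, (1 - P) * x)
        map_smul' := fun r x => by simp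
        map_zero' := by simp
        map_add' := fun x y => by simp [mul_add]
        map_mul' := fun x y => Prod.ext (m1 x y) (by
          change (1 - P) * (x * y) = (1 - P) * x * ((1 - P) * y)
          rw [← mul_assoc ((1 - P) * x), mul_assoc (1 - P) x (1 - P),
            ← ((Commute.one_left x).sub_left (p2 x)).eq, ← mul_assoc (1 - P) (1 - P),
            p1.one_sub.isIdempotentElem.eq, mul_assoc])
        map_star' := fun x => Prod.ext (hρ.cp.map_star x) (by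
          change _ = star ((1 - P) * x)
          rw [star_mul, p1.one_sub.isSelfAdjoint.star_eq,
            ((Commute.one_left _).sub_left (p2 _)).eq]) }
    have hi : Function.Injective i := (injective_iff_map_eq_zero i).2 fun x hx => by
      have a1 : ρ x = 0 := congrArg Prod.fst hx
      have a2 : (1 - P) * x = 0 := congrArg Prod.snd hx
      rwa [sub_mul, p4 x (by rw [a1, mul_zero]), sub_zero, one_mul] at a2
    refine le_trans (sub_nonneg.1 (nonneg_of_map_nonneg i hi ⟨?_, ?_⟩)) q1.le_one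
    · change 0 ≤ ρ _
      have a1 : Φ 1 * ρ (τ 1) + W 1 ≤ 1 := (add_le_add_left (mul_le_of_commute V0
        ((hρ.cp.mono hσ1).trans hρ1.le_one) (r1.2.symm.trans r1.1)) _).trans hW1
      have a2 := star_left_conjugate_le_conjugate a1 (ρ q)
      rw [n5, mul_one, n4, mul_add, add_mul, mul_assoc _ (W 1), ← (n3 1).eq,
        ← mul_assoc (ρ q) (ρ q), n4] at a2
      rwa [map_sub, map_add, G7, n1, m1, m1, r1.2, sub_nonneg]
    · change 0 ≤ (1 - P) * _
      have a1 : (1 - P) * q = 0 := by rw [sub_mul, one_mul, (p2 q).eq, k3, sub_self]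
      rw [G7]
      simp only [mul_sub, mul_add, ← mul_assoc, a1, zero_mul, add_zero, sub_self, le_refl]
  · have f0 : IsCP (σ ∘ₗ Φ) := s1.comp hΦ fun _ => rfl
    have f1 : ∀ b, ‖σ (Φ b) * (1 - q)‖ ≤ η * ‖b‖ := fun b => by
      refine norm_le_of_star_mul_le (by positivity) ?_
      have a1 := (f0.ks (le_one_of_norm y0 ((s3 _).trans (norm_le_one_of V0 hΦ1))) b).trans
        (f0.star_mul_le b)
      rw [star_mul, mul_assoc, ← mul_assoc (star (σ _)), ← mul_assoc]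
      refine (star_left_conjugate_le_conjugate a1 _).trans ?_
      rw [mul_smul_comm, smul_mul_assoc, q1.one_sub.isSelfAdjoint.star_eq,
        Algebra.algebraMap_eq_smul_one, mul_pow, mul_comm (η ^ 2), mul_smul]
      exact smul_le_smul_of_nonneg_left (q5.trans
        (smul_le_smul_of_nonneg_left q1.one_sub.le_one hη2.le)) (by positivity)
    have f3 : ‖(1 - q) * σ (Φ b)‖ ≤ η * ‖b‖ := by
      have := f1 (star b)
      rwa [hΦ.map_star, s1.map_star, ← q1.one_sub.isSelfAdjoint.star_eq, ← star_mul, norm_star,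
        norm_star] at this
    have f4 : q * τ (Φ b) = q * σ (Φ b) := by simpa using k4 1 (Φ b)
    rw [f4, ← m3 (τ _), ← s0, ← map_sub]
    refine (hρ' _).trans ?_
    have f5 : q * σ (Φ b) * q - σ (Φ b) = -((1 - q) * σ (Φ b) + q * (σ (Φ b) * (1 - q))) := by
      noncomm_ring
    have a2 : ‖q * (σ (Φ b) * (1 - q))‖ ≤ 1 * (η * ‖b‖) :=
      (norm_mul_le _ _).trans (mul_le_mul q1.norm_le (f1 b) (norm_nonneg _) zero_le_one)
    rw [f5, norm_neg]
    linarith [norm_add_le ((1 - q) * σ (Φ b)) (q * (σ (Φ b) * (1 - q)))]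

end Pool.Agent.Lib.MP_30b5b4_an
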