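import Pool.Agent.Lib.MP_30b5b4_an.RR4

/-! Extensions by an ideal of real rank zero. -/

open scoped CStarAlgebra ComplexOrder Topology
open Filter

set_option linter.unusedSectionVars false
set_option linter.style.haveILetI false

namespace Pool.Agent.Lib.MP_30b5b4_an

universe u v

section
variable {I E D : Type*} {A : Type u} {A' : Type v}
  [NonUnitalCStarAlgebra I] [PartialOrder I] [StarOrderedRing I]
  [NonUnitalCStarAlgebra E] [PartialOrder E] [StarOrderedRing E]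
  [NonUnitalCStarAlgebra D] [PartialOrder D] [StarOrderedRing D]
  [CStarAlgebra A] [PartialOrder A] [StarOrderedRing A]
  [CStarAlgebra A'] [PartialOrder A'] [StarOrderedRing A']
  {ι : I →⋆ₙₐ[ℂ] A} {j : E →⋆ₙₐ[ℂ] A} {jD : D →⋆ₙₐ[ℂ] A'}

lemma bdd_proj' {p : BA A} (h : ∀ k, IsStarProjection (Bdd.ev k p)) : IsStarProjection p :=
  ⟨Bdd.ext fun k => by rw [map_mul, (h k).isIdempotentElem.eq],
    Bdd.isSelfAdjoint fun k => (h k).isSelfAdjoint⟩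

lemma Colour.corner (c : Colour j) {q : c.F} (hq : IsStarProjection q) :
    ∃ d : Colour j, d.φ 1 = c.φ q ∧ ∀ a, d.T a = c.φ (q * c.ψ a * q) := by
  let C := StarSubalgebra.centralizer ℂ ({q} : Set c.F)
  haveI hC : IsClosed (C : Set c.F) := Set.isClosed_centralizer _
  have m1 : ∀ x : C, q * x = x * q := fun x =>
    ((StarSubalgebra.mem_centralizer_iff ℂ).1 x.2 q rfl).1
  have m2 : ∀ x, q * x * q ∈ C := fun x => (StarSubalgebra.mem_centralizer_iff ℂ).2 (by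
    intro g hg
    rw [Set.mem_singleton_iff.1 hg, hq.isSelfAdjoint.star_eq, and_self, ← mul_assoc, ← mul_assoc,
      hq.isIdempotentElem.eq, mul_assoc _ q q, hq.isIdempotentElem.eq])
  letI : PartialOrder C := CStarAlgebra.spectralOrder C
  haveI : StarOrderedRing C := CStarAlgebra.spectralOrderedRing C
  haveI : FiniteDimensional ℂ C :=
    FiniteDimensional.of_injective C.subtype.toAlgHom.toLinearMap Subtype.val_injective
  let ψ₀ : E →ₗ[ℂ] c.F := LinearMap.mulRight ℂ q ∘ₗ LinearMap.mulLeft ℂ q ∘ₗ c.ψ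
  have p0 : IsCP ψ₀ := c.cp.conj q fun a => by
    rw [hq.isSelfAdjoint.star_eq]; rfl
  let ψ : E →ₗ[ℂ] C := ψ₀.codRestrict C.toSubalgebra.toSubmodule fun a => m2 _
  have n1 : ∀ a, ‖ψ a‖ ≤ ‖a‖ := fun a => by
    have := hq.norm_le
    calc ‖q * c.ψ a * q‖ ≤ ‖q‖ * ‖c.ψ a‖ * ‖q‖ := norm_mul₃_le
      _ ≤ 1 * ‖a‖ * 1 := by gcongr; exact c.le _
      _ = _ := by ring
  let φ₀ : C →ₗ[ℂ] A := c.φ ∘ₗ LinearMap.mulLeft ℂ q ∘ₗ C.subtype.toAlgHom.toLinearMap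
  have e0 : ∀ x : C, φ₀ x = c.φ (q * x) := fun _ => rfl
  have e1 : φ₀ 1 = c.φ q := by rw [e0]; simp
  have e2 : ∀ x y : C, q * x * (q * y) = q * (x * y) := fun x y => by
    rw [← mul_assoc, mul_assoc q, ← m1, ← mul_assoc, hq.isIdempotentElem.eq, mul_assoc]
  have o0 : OZ φ₀ := by
    refine ⟨c.oz.cp.comp_half (fun x : C => q * x) fun a a' => ?_, fun x y => ?_⟩
    · rw [e0, star_mul, hq.isSelfAdjoint.star_eq]
      exact congrArg c.φ ((e2 (star a) a').symm.trans (congrArg (· * _) (m1 (star a))))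
    · rw [e1, e0, e0, e0, c.oz.mul, c.oz.mul q, e2, ← mul_assoc q q, hq.isIdempotentElem.eq]
      rfl
  refine ⟨{ F := C
            ψ := ψ
            φ := φ₀
            cp := fun n a b => nonneg_of_map_nonneg
              (C.subtype : C →⋆ₙₐ[ℂ] c.F) Subtype.val_injective ?_
            le := n1
            oz := o0
            one := e1 ▸ (c.oz.cp.mono hq.le_one).trans c.one
            mem := fun x => c.mem _ }, e1, fun a => ?_⟩
  · have e : ∀ a, (ψ a : c.F) = ψ₀ a := fun _ => rfl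
    simpa [map_sum, e] using p0 n a fun i => b i
  · change c.φ (q * (q * c.ψ a * q)) = _
    rw [← mul_assoc, ← mul_assoc, hq.isIdempotentElem.eq]

theorem Idl.rr_merge (h : Idl j) (c : ℕ → CA A) (hm : ∀ k x, ∃ b, j b = (c k).φ x)
    (hp : ∀ k, IsStarProjection ((c k).φ 1))
    {F : Type} [CStarAlgebra F] [PartialOrder F] [StarOrderedRing F] [FiniteDimensional ℂ F]
    {Ψ : E →ₗ[ℂ] F} (hΨ : IsCP Ψ) (hΨ' : ∀ a, ‖Ψ a‖ ≤ ‖a‖) {θ₁ : A →ₗ[ℂ] BA A} (t1 : IsCP θ₁)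
    {θ₂ : F →ₗ[ℂ] BA A} (t2 : IsCP θ₂) {W : F →ₗ[ℂ] UA A} (hW : OZ W)
    (hW1 : Ult.mk (θ₁ 1) + W 1 ≤ 1) (hl : ∀ x, ∃ s ∈ Lf j, Ult.mk s = W x)
    (c1 : ∀ x, Commute (Ult.mk (θ₁ 1)) (W x)) (c2 : ∀ x, Ult.mk (θ₂ x) = Ult.mk (θ₁ 1) * W x)
    (r1 : uT c (Ult.mk (θ₁ 1)) = uT c 1 * Ult.mk (θ₁ 1) ∧
      uT c (Ult.mk (θ₁ 1)) = Ult.mk (θ₁ 1) * uT c 1)
    (r2 : ∀ x, uT c (Ult.mk (θ₂ x)) = uT c 1 * Ult.mk (θ₂ x) ∧
      uT c (Ult.mk (θ₂ x)) = Ult.mk (θ₂ x) * uT c 1) {η : ℝ} (hη : 0 < η) :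
    ∃ d : ℕ → Colour j, ∀ a, ‖sT d a - (uT c (Ult.mk (θ₁ (j a))) + W (Ψ a))‖ ≤ 3 * η * ‖a‖ := by
  obtain ⟨P, p1, p2, p3, p4⟩ := ult_central c (show (0 : ℝ) < 1 / 2 by norm_num)
  have hρ1 : IsStarProjection (uφ c 1) := by
    rw [uφ_one_eq]; exact hom_proj _ (bdd_proj' hp)
  simp only [c2] at r2
  obtain ⟨q, g, q1, q2, q3, q4, q5, q6⟩ := rr_core (uφ_oz c) hρ1 (uψ_spec c).1 (uψ_one c) hη p1 p2
    (p3.trans_lt (by norm_num)) p4 (fun hz _ hy hc => ult_cut hz hy hc)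
    (Φ := lin Ult.mk ∘ₗ θ₁) ((lin_cp Ult.mk).comp t1 fun _ => rfl) hW hW1 c1 r1 r2
  simp only [LinearMap.comp_apply, lin_apply, ← c2] at q4 q5 q6
  obtain ⟨q', hq', rfl⟩ := proj_lift q1
  obtain ⟨g', rfl⟩ := Ult.surj g
  let bσ : BA A →ₗ[ℂ] Bdd fun k => (c k).F := Bdd.map (fun k => (c k).ψ) fun k => (c k).le
  have σ0 : ∀ x, Ult.mk (bσ x) = uψ c (Ult.mk x) := fun x => ((uψ_spec c).2.2 x).symm
  have σ1 : IsCP bσ := Bdd.isCP (fun k => (c k).ψ ∘ₗ lin (Bdd.ev k)) (fun _ _ => rfl)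
    fun k => (c k).cp.comp (lin_cp _) fun _ => rfl
  have hq0 := (bdd_proj hq').isSelfAdjoint.star_eq
  let Θ₁ := cj q' (bσ ∘ₗ θ₁)
  let Θ₂ := cj g' (bσ ∘ₗ θ₂)
  have T1 : IsCP Θ₁ := (σ1.comp t1 fun _ => rfl).cj _
  have T2 : IsCP Θ₂ := (σ1.comp t2 fun _ => rfl).cj _
  have T3 : ∀ x, Ult.mk (Θ₁ x) = Ult.mk q' * uψ c (Ult.mk (θ₁ x)) * Ult.mk q' := fun x => by
    rw [cj_apply, hq0, map_mul, map_mul, ← σ0]; rfl
  have T4 : ∀ x, Ult.mk (Θ₂ x) = star (Ult.mk g') * uψ c (Ult.mk (θ₂ x)) * Ult.mk g' := fun x => by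
    rw [cj_apply, map_mul, map_mul, map_star, ← σ0]; rfl
  set R := Θ₁ 1 + Θ₂ 1 with hR
  have R0 : 0 ≤ R := add_nonneg T1.one_nonneg T2.one_nonneg
  have g1 := Gf_cont one_pos
  have g2 : Continuous fun s => √(Gf 1 s) := by fun_prop
  set n := cfc (fun s => √(Gf 1 s)) R with hn
  have n1 : Ult.mk n = 1 := by
    have R1 : Ult.mk R ≤ 1 := by rwa [hR, map_add, T3, T4]
    rw [hn, hom_cfc _ g2 R0.isSelfAdjoint, ← cfc_const_one ℝ (Ult.mk R)
      (hom_nonneg _ R0).isSelfAdjoint]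
    refine cfc_congr fun s hs => ?_
    simp only [Gf, max_eq_right (spec_mem (hom_nonneg _ R0) R1 hs).2, inv_one, Real.sqrt_one]
  have n2 : cj n Θ₁ 1 + cj n Θ₂ 1 ≤ 1 := by
    rw [cj_apply n, cj_apply n, ← add_mul, ← mul_add, ← hR, IsSelfAdjoint.cfc.star_eq,
      cfc_mul_id g2 R0.isSelfAdjoint, cfc_mul' (by fun_prop) g2]
    refine cfc_le_one _ _ fun s _ => ?_
    rw [mul_right_comm, Real.mul_self_sqrt (Gf_nonneg one_pos), mul_comm]
    exact mul_Gf_le one_pos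
  let Ψ' : E →ₗ[ℂ] Bdd fun k => (c k).F := cj n Θ₁ ∘ₗ (j : E →ₗ[ℂ] A) + cj n Θ₂ ∘ₗ Ψ
  have Ψ1 : IsCP Ψ' := ((T1.cj n).comp_hom j fun _ => rfl).add ((T2.cj n).comp hΨ fun _ => rfl)
  have Ψ2 : ∀ a, ‖Ψ' a‖ ≤ ‖a‖ := fun a => norm_add_le_of_cp (T1.cj n) (T2.cj n) n2 _ _
    (NonUnitalStarAlgHom.norm_apply_le j a) (hΨ' a)
  have Ψ3 : ∀ a, Ult.mk (Ψ' a) = Ult.mk (Θ₁ (j a)) + Ult.mk (Θ₂ (Ψ a)) := fun a => by
    change Ult.mk (star n * Θ₁ (j a) * n + star n * Θ₂ (Ψ a) * n) = _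
    simp only [map_add, map_mul, map_star, n1, star_one, one_mul, mul_one]
  choose d₁ d3 d4 using fun k => Colour.corner (j := j)
    { F := (c k).F
      ψ := lin (Bdd.ev (A := fun k => (c k).F) k) ∘ₗ Ψ'
      φ := (c k).φ
      cp := (lin_cp (Bdd.ev (A := fun k => (c k).F) k)).comp Ψ1 fun _ => rfl
      le := fun a => (Bdd.norm_ev_le k _).trans (Ψ2 a)
      oz := (c k).oz
      one := (c k).one
      mem := hm k } (hq' k)
  let r : BA A := Bdd.map (fun k => (c k).φ) (fun k => (c k).φ_le) q'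
  have u0 : Ult.mk r = uφ c (Ult.mk q') := ((uφ_spec c).2.2 q').symm
  have u1 : IsStarProjection r := bdd_proj' fun k => by
    refine ⟨?_, ((c k).oz.cp.proj_nonneg (hq' k)).isSelfAdjoint⟩
    change (c k).φ _ * (c k).φ _ = (c k).φ _
    have := (c k).oz.mul_left_eq_zero (hp k).one_sub_mul_self (Bdd.ev k q')
    rw [sub_mul, one_mul, sub_eq_zero] at this
    rw [(c k).oz.mul, (hq' k).isIdempotentElem.eq, ← this]
  have u2 := (hom_proj Ult.mk u1).one_sub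
  have u3 : ∀ x, Commute (1 - Ult.mk r) (W x) := fun x =>
    (Commute.one_left _).sub_left (u0 ▸ q3 x)
  obtain ⟨d₂, d1, d2⟩ := h.lift_col (W := LinearMap.mulLeft ℂ (1 - Ult.mk r) ∘ₗ W)
    (hW.mulLeft u2.nonneg u3 fun _ => rfl)
    ((mul_le_of_commute u2.nonneg ((le_add_of_nonneg_left (hom_nonneg _ t1.one_nonneg)).trans hW1)
      (u3 1)).trans u2.le_one) u1.isSelfAdjoint (fun x => by
      obtain ⟨s, hs, hs'⟩ := hl x
      refine ⟨_, h.Lf_both (1 - r) (1 - r) hs,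
        by rw [← mul_assoc, ← mul_assoc, u1.mul_one_sub_self, zero_mul, zero_mul],
        by rw [mul_assoc, u1.one_sub_mul_self, mul_zero], ?_⟩
      rw [map_mul, map_mul, map_sub, map_one, hs', mul_assoc, ← (u3 x).eq, ← mul_assoc,
        u2.isIdempotentElem.eq]
      rfl) hΨ hΨ' hη
  choose d hd using fun k => (d₁ k).exists_add (d₂ k) (by rw [d3]; exact d1 k)
  refine ⟨d, fun a => ?_⟩
  have e1 : sT d a = sT d₁ a + sT d₂ a := by
    rw [sT, sT, sT, ← map_add]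
    exact congrArg _ (Bdd.ext fun k => by simp [hd])
  have e2 : sT d₁ a = uφ c (Ult.mk q' * uψ c (Ult.mk (θ₁ (j a))) * Ult.mk q') +
      Ult.mk r * W (Ψ a) := by
    have a1 : sT d₁ a = uφ c (Ult.mk q' * Ult.mk (Ψ' a) * Ult.mk q') := by
      rw [← map_mul, ← map_mul, (uφ_spec c).2.2, sT]
      exact congrArg _ (Bdd.ext fun k => by simpa using d4 k a)
    have a2 : Ult.mk q' * star (Ult.mk g') = star (Ult.mk g') := by
      rw [← q1.isSelfAdjoint.star_eq, ← star_mul, q2]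
    rw [a1, Ψ3, T3, T4, mul_add, add_mul, map_add, u0, ← q4]
    simp only [← mul_assoc, q1.isIdempotentElem.eq, a2]
    simp only [mul_assoc, q1.isIdempotentElem.eq, q2]
  have e3 := d2 a
  have e4 := q6 (j a)
  have e5 := NonUnitalStarAlgHom.norm_apply_le j a
  have := norm_add_le (uφ c (Ult.mk q' * uψ c (Ult.mk (θ₁ (j a))) * Ult.mk q') -
    uφ c (uψ c (Ult.mk (θ₁ (j a))))) (sT d₂ a - (1 - Ult.mk r) * W (Ψ a))
  rw [e1, e2, uT_apply]
  refine le_trans (le_of_eq (congrArg _ (by rw [sub_mul, one_mul]; abel))) (this.trans ?_)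
  change ‖sT d₂ a - (1 - Ult.mk r) * W (Ψ a)‖ ≤ _ at e3
  nlinarith

theorem Idl.main_rr (h : Idl j) (hι : Idl ι) (hιj : ∀ x, ∃ b, j b = ι x) (hD : Idl jD)
    (π : A →⋆ₐ[ℂ] A') (hπ : ∀ a, π a = 0 → ∃ b, ι b = a)
    (hs : ∀ y, ∃ a, π (j a) = jD y) (hs' : ∀ a, ∃ y, jD y = π (j a)) {N : ℕ} {d : Prop}
    (hI : ApH ι N) (hA : Ap jD N d) : Ap j N False := by
  classical
  refine Ap.of_ball fun S ε hε hS => ?_
  set η := ε / (2 * (3 * (N : ℝ) + 1)) with hη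
  have hη0 : 0 < η := by positivity
  obtain ⟨e, he⟩ := h.quotient_data hD π hs hs' hA S hη0 hη0
  obtain ⟨a, μ, b, w, fr, c1, c2⟩ := hι.frame π hπ (κ := S ⊕ S)
    (Sum.elim (fun x => j x) fun x => ∑ i, (e i).T x - j x) e
  let f : ∀ i, (e i).F →ₗ[ℂ] UA A := fun i => lin dg ∘ₗ (e i).φ
  have f0 : ∀ i x, f i x = dg ((e i).φ x) := fun _ _ => rfl
  have f1 : ∀ i, OZ (f i) := fun i => (e i).oz.map dg (f0 i)
  have f2 : ∀ i, f i 1 ≤ 1 := fun i => by simpa [f0] using hom_mono dg (e i).one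
  have c3 := fun i x => c1 ((e i).φ x) (Or.inr ⟨i, x, rfl⟩)
  have a0 := hom_nonneg Ult.mk fr.a0
  have m0 := hom_nonneg Ult.mk fr.m0
  have b0 := hom_nonneg Ult.mk fr.b0
  have W0 := (hom_nonneg Ult.mk fr.w0).star_eq
  have am := fr.am.map Ult.mk
  have ab : Ult.mk a * Ult.mk b = 0 := by rw [← map_mul, fr.ab, map_zero]
  have wa : Ult.mk w * Ult.mk a = Ult.mk a := by rw [← map_mul, fr.wa]
  have aw : Ult.mk a * Ult.mk w = Ult.mk a := by
    have := congrArg star wa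
    rwa [star_mul, W0, a0.star_eq] at this
  set K := Ult.mk (μ * μ + b * b) with hK
  have K0 : K = Ult.mk μ * Ult.mk μ + Ult.mk b * Ult.mk b := by rw [hK, map_add, map_mul, map_mul]
  have K1 : 0 ≤ K := K0 ▸ add_nonneg (sq_nonneg_sa m0) (sq_nonneg_sa b0)
  have K3 : ∀ i x, Commute K (f i x) := fun i x => K0 ▸
    ((c3 i x).2.1.mul_left (c3 i x).2.1).add_left ((c3 i x).2.2.1.mul_left (c3 i x).2.2.1)
  have K4 : Ult.mk a * Ult.mk a = 1 - K := by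
    rw [hK, ← map_one Ult.mk, ← fr.sum, ← map_mul, ← map_sub, add_assoc, add_sub_cancel_right]
  let θ₁ := cj a (lin cst)
  let θ₂ := fun i => cj (μ * a) (lin cst ∘ₗ (e i).φ)
  have t1 : IsCP θ₁ := (lin_cp cst).cj a
  have t2 : ∀ i, IsCP (θ₂ i) := fun i => ((lin_cp cst).comp (e i).oz.cp fun _ => rfl).cj _
  have t3 : ∀ x, Ult.mk (θ₁ x) = Ult.mk a * dg x * Ult.mk a := fun x => by
    rw [cj_apply, fr.a0.star_eq, map_mul, map_mul]; rfl
  have t4 : ∀ i x, Ult.mk (θ₂ i x) = Ult.mk a * (Ult.mk μ * f i x * Ult.mk μ) * Ult.mk a :=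
    fun i x => by
      rw [cj_apply, star_mul, fr.a0.star_eq, fr.m0.star_eq, map_mul, map_mul, map_mul, map_mul]
      simp only [mul_assoc]; rfl
  have t5 : Ult.mk (θ₁ 1) = Ult.mk a * Ult.mk a := by rw [t3, map_one, mul_one]
  have t6 : ∀ i x, Ult.mk (θ₂ i x) = Ult.mk (θ₁ 1) * (K * f i x) := fun i x => by
    have z1 : Commute (Ult.mk a) (f i x) := (c3 i x).1
    have z2 : Commute (Ult.mk μ) (f i x) := (c3 i x).2.1
    rw [t4, t5, K0, mul_assoc (Ult.mk a), ← ((am.mul_right z1).mul_right am).eq,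
      mul_assoc (Ult.mk μ), ← z2.eq, add_mul, mul_add, mul_assoc (Ult.mk a) (Ult.mk a) (_ * _ * _),
      mul_assoc (Ult.mk a) (Ult.mk a) (_ * _ * _), mul_assoc (Ult.mk b), ← mul_assoc _ (Ult.mk b),
      ab, zero_mul, mul_zero, add_zero, mul_assoc (Ult.mk μ)]
  have t7 : ∀ y, Ult.mk w * (Ult.mk a * y * Ult.mk a) = Ult.mk a * y * Ult.mk a ∧
      Ult.mk a * y * Ult.mk a * Ult.mk w = Ult.mk a * y * Ult.mk a := fun y =>
    ⟨by rw [← mul_assoc, ← mul_assoc, wa], by rw [mul_assoc, aw]⟩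
  obtain ⟨c, a1, a2, a3, a4⟩ := hI.ultra hι fr.mem fr.w0 fr.w1
    (κ := S ⊕ Unit ⊕ Σ i : Fin N, Fin (Module.finrank ℂ (e i).F))
    (Sum.elim (fun x => Ult.mk (θ₁ (j x))) (Sum.elim (fun _ => Ult.mk (θ₁ 1))
      fun p => Ult.mk (θ₂ p.1 (Module.finBasis ℂ _ p.2)))) (by
      rintro (x | _ | ⟨i, l⟩)
      · simpa only [Sum.elim_inl, t3] using t7 _
      · simpa only [Sum.elim_inl, Sum.elim_inr, t3] using t7 _
      · simpa only [Sum.elim_inl, Sum.elim_inr, t4] using t7 _)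
  choose d₁ hd₁ using fun i => h.rr_merge (c i) (fun k x => by
      obtain ⟨b, hb⟩ := a1 i k x
      rw [← hb]; exact hιj b) (a4 i) (e i).cp (e i).le t1 (t2 i)
    (W := LinearMap.mulLeft ℂ K ∘ₗ f i) ((f1 i).mulLeft K1 (K3 i) fun _ => rfl)
    (by
      rw [t5, K4]
      exact (add_le_add_right (mul_le_of_commute K1 (f2 i) (K3 i 1)) _).trans_eq
        (sub_add_cancel _ _))
    (fun x => ⟨_, h.Lf_both (μ * μ + b * b) 1 ((e i).cst_mem x), by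
      rw [mul_one, map_mul]; rfl⟩)
    (fun x => by
      rw [t5, K4]
      exact (Commute.one_left _).sub_left ((Commute.refl K).mul_right (K3 i x)))
    (t6 i) (a2 i (Sum.inr (Sum.inl ())))
    (fun x => ⟨LinearMap.congr_fun
      ((Module.finBasis ℂ (e i).F).ext (f₁ := uT (c i) ∘ₗ lin Ult.mk ∘ₗ θ₂ i)
        (f₂ := LinearMap.mulLeft ℂ (uT (c i) 1) ∘ₗ lin Ult.mk ∘ₗ θ₂ i)
        fun l => (a2 i (Sum.inr (Sum.inr ⟨i, l⟩))).1) x, LinearMap.congr_fun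
      ((Module.finBasis ℂ (e i).F).ext (f₁ := uT (c i) ∘ₗ lin Ult.mk ∘ₗ θ₂ i)
        (f₂ := LinearMap.mulRight ℂ (uT (c i) 1) ∘ₗ lin Ult.mk ∘ₗ θ₂ i)
        fun l => (a2 i (Sum.inr (Sum.inr ⟨i, l⟩))).2) x⟩) hη0
  refine sT_finish d₁ S fun x hx => ?_
  have e1 : ‖∑ i, sT (d₁ i) x - ∑ i, (uT (c i) (Ult.mk (θ₁ (j x))) + K * f i ((e i).ψ x))‖ ≤
      N * (3 * η) := by
    rw [← Finset.sum_sub_distrib]
    refine (norm_sum_le _ _).trans ((Finset.sum_le_sum fun i _ => (hd₁ i x).trans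
      (mul_le_of_le_one_right (by positivity) (hS x hx))).trans ?_)
    simp
  have e2 : ∑ i, uT (c i) (Ult.mk (θ₁ (j x))) = Ult.mk (θ₁ (j x)) := a3 (Sum.inl ⟨x, hx⟩)
  have e3 : ‖dg (∑ i, (e i).T x - j x) * K‖ ≤ η := (c2 (Sum.inr ⟨x, hx⟩)).2.2.trans (he x hx).1
  have e4 : ∑ i, (uT (c i) (Ult.mk (θ₁ (j x))) + K * f i ((e i).ψ x)) - dg (j x) =
      dg (∑ i, (e i).T x - j x) * K := by
    have z1 : Commute (Ult.mk a) (dg (j x)) := (c1 _ (Or.inl ⟨Sum.inl ⟨x, hx⟩, rfl⟩)).1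
    rw [Finset.sum_add_distrib, e2, t3, z1.eq, mul_assoc, K4, map_sub, map_sum, sub_mul,
      Finset.sum_mul]
    simp only [(K3 _ _).eq, mul_sub, mul_one]
    change _ = ∑ i, f i _ * K - _
    abel
  have e5 := norm_add_le (∑ i, sT (d₁ i) x - ∑ i, (uT (c i) (Ult.mk (θ₁ (j x))) +
    K * f i ((e i).ψ x))) (dg (∑ i, (e i).T x - j x) * K)
  rw [← e4, sub_add_sub_cancel, e4] at e5
  have e6 : (3 * (N : ℝ) + 1) * η = ε / 2 := by rw [hη]; field_simp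
  nlinarith

end

variable {I E D : Type*}
  [NonUnitalCStarAlgebra I] [PartialOrder I] [StarOrderedRing I]
  [NonUnitalCStarAlgebra E] [PartialOrder E] [StarOrderedRing E]
  [NonUnitalCStarAlgebra D] [PartialOrder D] [StarOrderedRing D]
  {ι : I →⋆ₙₐ[ℂ] E} {π : E →⋆ₙₐ[ℂ] D}

theorem Ext.rr (h : Ext ι π) (hr : RealRankZero I) {n m : ℕ} (hI : NucDimLE I n)
    (hD : NucDimLE D m) : NucDimLE E (Max.max n m) :=
  ((idl_inc E).main_rr h.idl (fun x => ⟨ι x, rfl⟩) (idl_inc D) (Unitization.starMap π)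
    h.ker h.lift (fun a => ⟨π a, (Unitization.starMap_inr π a).symm⟩)
    (((hI.ap _).mono (Nat.succ_le_succ (le_max_left n m))).apH h.idl (hr.rr _))
    ((hD.ap _).mono (Nat.succ_le_succ (le_max_right n m)))).nucDimLE (idl_inc E).inj

theorem Ext.nucDim_le_rr (h : Ext ι π) (hr : RealRankZero I) :
    nucDim E ≤ Max.max (nucDim I) (nucDim D) := by
  rcases iInf_cases (NucDimLE I) with h1 | ⟨n, hn, h1⟩
  · rw [nucDim.eq_def I, h1]; simp
  rcases iInf_cases (NucDimLE D) with h2 | ⟨m, hm, h2⟩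
  · rw [nucDim.eq_def D, h2]; simp
  rw [nucDim.eq_def I, nucDim.eq_def D, h1, h2, ← Nat.mono_cast.map_max]
  exact iInf₂_le _ (h.rr hr hn hm)

end Pool.Agent.Lib.MP_30b5b4_an
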