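import Pool.Agent.Lib.MP_30b5b4_an.Amp
import Pool.Agent.Lib.MP_30b5b4_an.Simp

/-! Extensions with a simple ideal: the inner layer. -/

open scoped CStarAlgebra ComplexOrder Topology
open Filter

set_option linter.unusedSectionVars false
set_option linter.style.haveILetI false
set_option linter.unusedSimpArgs false
set_option linter.unusedVariables false
set_option synthInstance.maxSize 1000000

namespace Pool.Agent.Lib.MP_30b5b4_an

universe u v

section alg
variable {B : Type u} [CStarAlgebra B] [PartialOrder B] [StarOrderedRing B] {T : Type} [Fintype T]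

lemma copies' {L : Type} [Fintype L] {S S' : Set B} {e γ q : B} {c : L × T → B}
    {x : Option (L × T) → B} (h : Slot e c x γ) (hS : S ⊆ S') (he : e ∈ S) (c0 : ∀ l, c l ∈ Cn S)
    (x0 : ∀ s, x s ∈ Cn S) (c1 : ∀ l, c l ∈ S') (x1 : ∀ s, x s ∈ S') (hq : q ∈ Cn S')
    {V : Option (L × T) → T → B} (v0 : ∀ s t, V s t ∈ Cn S') (v1 : ∀ s t, q * V s t = V s t)
    (v2 : ∀ s, (∑ t, star (V s t) * V s t) * ((1 - q) * e) = (1 - q) * e)
    (v3 : ∀ s s', s ≠ s' → ∀ t, star (V s t) * V s' t = 0) : ∃ v : L → B, (∀ p, v p ∈ Cn S) ∧ (∀ p, q * v p = v p) ∧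
      (∀ p, star (v p) * v p * ((1 - q) * e) = (1 - q) * e) ∧
      (∀ p p', p ≠ p' → star (v p) * v p' = 0) ∧
      ∀ μ : L → ℝ, (∀ l, 0 ≤ μ l) → (∀ l, μ l ≤ 1) →
        ∀ p, (∑ l, μ l.1 • gr 3 (c l)) * v p = μ p • v p := by
  let w : T → B := fun t => ∑ s, V s t * x s
  have w1 : ∀ (p : L) t, γ * w t = w t := fun p t => by
    simp only [w, Finset.mul_sum]
    refine Finset.sum_congr rfl fun s _ => ?_
    have : Commute (V s t) γ := by
      rw [← h.s1 (p, t)]
      exact (Cn_comm' (v0 s t) (c1 _)).mul_right (Cn_comm (v0 s t) (c1 _))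
    rw [← mul_assoc, ← this.eq, mul_assoc, h.s2]
  have w2 : (∑ t, star (w t) * w t) * ((1 - q) * e) = (1 - q) * e := by
    have a1 : ∀ t, star (w t) * w t = ∑ s, star (x s) * (star (V s t) * V s t * x s) := fun t => by
      rw [star_sum, Finset.sum_mul_sum]
      refine Finset.sum_congr rfl fun s _ => ?_
      rw [Finset.sum_eq_single s (fun s' _ hs => ?_) (by simp)]
      · simp only [star_mul, mul_assoc]
      · rw [star_mul, mul_assoc, ← mul_assoc (star (V _ _)), v3 _ _ hs.symm, zero_mul, mul_zero]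
    have a2 := (Cn_comm (sub_mem (one_mem _) hq) (hS he)).eq
    have a3 : ∀ s, Commute (x s) ((1 - q) * e) := fun s =>
      (Cn_comm (sub_mem (one_mem _) hq) (x1 s)).symm.mul_right (Cn_comm (x0 s) he)
    simp only [a1]
    rw [Finset.sum_comm, Finset.sum_mul]
    conv_rhs => rw [a2, ← h.s3, mul_assoc, ← a2, Finset.sum_mul]
    refine Finset.sum_congr rfl fun s _ => ?_
    rw [← Finset.mul_sum, ← Finset.sum_mul, mul_assoc, mul_assoc, (a3 s).eq, ← mul_assoc _ _ (x s),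
      v2, ← (a3 s).eq, mul_assoc]
  refine ⟨fun p => ∑ t, c (p, t) * w t, fun p => sum_mem fun t _ => mul_mem (c0 _)
    (sum_mem fun s _ => mul_mem (Cn_mono hS (v0 s t)) (x0 s)), fun p => ?_, fun p => ?_,
    fun p p' hp => ?_, fun μ μ0 μ1 p => ?_⟩
  · simp only [w, Finset.mul_sum]
    refine Finset.sum_congr rfl fun t _ => Finset.sum_congr rfl fun s _ => ?_
    rw [← mul_assoc, (Cn_comm hq (c1 _)).eq, mul_assoc, ← mul_assoc q, v1]
  · refine (congrArg (· * _) ?_).trans w2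
    rw [star_sum, Finset.sum_mul_sum]
    refine Finset.sum_congr rfl fun t _ => ?_
    rw [Finset.sum_eq_single t (fun t' _ ht => ?_) (by simp)]
    · rw [star_mul, mul_assoc, ← mul_assoc (star (c _)), h.s1, w1 p]
    · rw [star_mul, mul_assoc, ← mul_assoc (star (c _)), h.s1' _ _ (by simpa using ht.symm),
        zero_mul, mul_zero]
  · rw [star_sum, Finset.sum_mul_sum]
    refine Finset.sum_eq_zero fun t _ => Finset.sum_eq_zero fun t' _ => ?_
    rw [star_mul, mul_assoc, ← mul_assoc (star (c _)), h.s1' _ _ (by simp [hp]), zero_mul, mul_zero]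
  · rw [Finset.mul_sum, Finset.smul_sum]
    exact Finset.sum_congr rfl fun t _ =>
      (h.weight (fun l => μ l.1) (fun l => μ0 _) fun l => μ1 _).2.2 (p, t) _ (w1 p t)

end alg

variable {J : Type*} {A : Type u} [NonUnitalCStarAlgebra J] [PartialOrder J] [StarOrderedRing J]
  [CStarAlgebra A] [PartialOrder A] [StarOrderedRing A] {j : J →⋆ₙₐ[ℂ] A}

/-- slot systems of every size exist for `e` in the commutant of every finite set -/
def HS (e : UA A) : Prop :=
  ∀ (I : Type) [Fintype I], 2 ≤ Fintype.card I → ∀ {S : Set (UA A)}, S.Finite →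
    ∃ (c : I → UA A) (x : Option I → UA A) (γ : UA A),
      Slot e c x γ ∧ (∀ l, c l ∈ Cn S) ∧ ∀ s, x s ∈ Cn S

/-- output of the inner layer -/
def InP {τ β : Type} (P : Type) [Fintype P] [DecidableEq P] (T : τ → UA A) (x : UA A)
    (y : β → UA A) : Prop :=
  ∃ σ : P → UA A, (∀ p, ‖σ p‖ ≤ 1) ∧ ∃ w : β → P → UA A, (∀ b p, ‖w b p‖ ≤ 1) ∧
    ∃ G : ℕ → CA A, (∀ t, T t ∈ VS G) ∧ x ∈ VS G ∧
      (∀ p, σ p ∈ VS G ∧ 0 ≤ σ p ∧ σ p ∈ Cn (Set.range T)) ∧ ∑ p, σ p ≤ 1 ∧
      ∀ b p, uT G 1 * w b p = w b p ∧ y b * w b p = w b p ∧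
        star (w b p) * w b p * ((1 - uT G 1) * x) = (1 - uT G 1) * x ∧
        ∀ p', σ p' * w b p = if p' = p then w b p else 0

instance InP.clo {τ β : Type} [Finite τ] [Finite β] (P : Type) [Fintype P] [DecidableEq P] :
    Clo fun g : (τ → UA A) × UA A × (β → UA A) => InP P g.1 g.2.1 g.2.2 := by
  unfold InP; infer_instance

theorem inner (hS : Smp j) {n : ℕ} (hA : Ap (NonUnitalStarAlgHom.id ℂ A) (n + 1) False)
    {τ β : Type} [Finite τ] [Finite β] (P : Type) [Fintype P] [DecidableEq P] [Nonempty P]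
    (T : τ → A) {x g g' : A} (x0 : 0 ≤ x) (x1 : x ≤ 1) (hs : HS (dg x)) (g0 : 0 ≤ g)
    (hg' : ∃ c, j c = g') (hg : g' * g = g) (hx : g * x = x) (y z : β → A)
    (hz : ∀ b, ∃ c, j c = z b) (z0 : ∀ b, z b ≠ 0) (hy : ∀ b, y b * z b = z b) :
    InP P (fun t => dg (T t)) (dg x) fun b => dg (y b) := by
  classical
  haveI := Fintype.ofFinite β
  choose K r r1 r2 using fun b => hS.sub g0 hg' hg hx (hz b) (z0 b) (hy b)
  let L := P × Option (Σ b, Fin (K b))
  let T0 := Option (Fin (n + 1) × Option (Option L × Option (Fin (n + 1) × Bool)))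
  let T' : τ → UA A := fun t => ((‖T t‖ + 1 : ℝ) : ℂ)⁻¹ • dg (T t)
  have T1 : ∀ t, dg (T t) = ((‖T t‖ + 1 : ℝ) : ℂ) • T' t := fun t => by
    rw [smul_smul, mul_inv_cancel₀ (Complex.ofReal_ne_zero.2 (by positivity)), one_smul]
  have T2 : ∀ t, ‖T' t‖ ≤ 1 := fun t => by
    rw [norm_smul, norm_inv, Complex.norm_real, Real.norm_of_nonneg (by positivity),
      inv_mul_le_iff₀ (by positivity)]
    linarith [hom_norm_le dg (T t)]
  let S0 : Set (UA A) :=
    insert (dg x) (Set.range T' ∪ Set.range fun p : Σ b, Fin (K b) => dg (r p.1 p.2))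
  have f0 : S0.Finite := ((Set.finite_range _).union (Set.finite_range _)).insert _
  obtain ⟨c, xs, γ, s, c0, xs0⟩ := hs (L × T0) (Fintype.one_lt_card_iff.2
    ⟨((Classical.arbitrary P, none), none), ((Classical.arbitrary P, none), some (0, none)),
      by simp⟩) f0
  let μ : P → L → ℝ := fun p l => if l.1 = p then 1 else 0
  have μ0 : ∀ p l, 0 ≤ μ p l := fun p l => by simp only [μ]; split_ifs <;> simp
  have μ1 : ∀ p l, μ p l ≤ 1 := fun p l => by simp only [μ]; split_ifs <;> simp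
  let σ : P → UA A := fun p => ∑ l, μ p l.1 • gr 3 (c l)
  have σ0 := fun p => s.weight (fun l => μ p l.1) (fun l => μ0 _ _) fun l => μ1 _ _
  have σ1 : ∀ p, ‖σ p‖ ≤ 1 := fun p => norm_le_one_of (σ0 p).1 (σ0 p).2.1
  have σ2 : ∀ p, σ p ∈ Cn S0 := fun p => sum_mem fun l _ => by
    rw [← Complex.coe_smul]; exact SMulMemClass.smul_mem _ (gr_mem (c0 l) 3)
  have X0 : 0 ≤ dg x := hom_nonneg _ x0
  let b : τ ⊕ Unit ⊕ P → UA A := Sum.elim T' (Sum.elim (fun _ => dg x) σ)
  have b1 : ∀ i, ‖b i‖ ≤ 1 := by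
    rintro (t | _ | p)
    exacts [T2 t, norm_le_one_of X0 ((hom_mono dg x1).trans_eq (map_one dg)), σ1 p]
  let f : Option ((τ ⊕ Unit ⊕ P) × Fin 3) → UA A := fun o => o.elim 1 fun p =>
    ![b p.1, star (b p.1) * b p.1, b p.1 * star (b p.1)] p.2
  have f1 : ∀ a ∈ Set.range f, ‖a‖ ≤ 1 := by
    rintro _ ⟨_ | ⟨i, l⟩, rfl⟩
    · exact norm_one_le' _
    · have := mul_le_one₀ (b1 i) (norm_nonneg _) (b1 i)
      fin_cases l
      exacts [b1 i, CStarRing.norm_star_mul_self.trans_le this,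
        CStarRing.norm_self_mul_star.trans_le this]
  let S' := S0 ∪ (Set.range c ∪ Set.range xs ∪ Set.range f)
  obtain ⟨q, ρ', ρ, Z, R, st, hq⟩ := stack hA (Option L) hs (S := S') (F := Set.range f)
    (f0.union (((Set.finite_range _).union (Set.finite_range _)).union (Set.finite_range _)))
    (Or.inl (Or.inl rfl)) (fun _ ha => Or.inr (Or.inr ha)) f1 (fun _ => 1)
    (fun _ => ⟨Or.inr (Or.inr ⟨none, rfl⟩), zero_le_one, le_rfl, fun a _ => Commute.one_left a⟩)
    (Finset.univ : Finset (Option (L × T0)))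
  obtain ⟨V, v0, v1, v2, v3⟩ := st.finish (Or.inl (Or.inl rfl))
    (fun o => o.elim (none, none) fun p => (p.2, some p.1)) (by
      rintro (_ | p) (_ | p') hp
      · rfl
      · simp at hp
      · simp at hp
      · simp only [Option.elim_some, Prod.mk.injEq, Option.some.injEq] at hp
        exact congrArg some (Prod.ext hp.2 hp.1))
  obtain ⟨v, w0, w1, w2, w3, w4⟩ := copies' s Set.subset_union_left (Or.inl rfl) c0 xs0
    (fun l => Or.inr (Or.inl (Or.inl ⟨l, rfl⟩))) (fun l => Or.inr (Or.inl (Or.inr ⟨l, rfl⟩)))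
    st.mq v0 v1 v2 v3
  obtain ⟨G, hG⟩ := (hq true).exact
  rw [mul_one] at hG
  have G1 : uT G 1 = q := (hG none).trans (mul_one q)
  have G2 : ∀ i, b i ∈ VS G := fun i => mem_VS_iff.2 ⟨⟨G1 ▸ hG (some (i, 0)), G1 ▸
    (hG (some (i, 0))).trans (Cn_comm st.mq (Or.inr (Or.inr ⟨some (i, 0), rfl⟩))).eq⟩,
    G1 ▸ hG (some (i, 1)), G1 ▸ hG (some (i, 2))⟩
  let w : β → P → UA A := fun b p => ∑ k, v (p, some ⟨b, k⟩) * dg (r b k)
  have c1 : ∀ l b k, Commute (v l) (dg (r b k)) := fun l b k =>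
    Cn_comm (w0 l) (Or.inr (Or.inr ⟨⟨b, k⟩, rfl⟩))
  have c2 : ∀ b k, Commute q (dg (r b k)) ∧ Commute q (star (dg (r b k))) := fun b k =>
    ⟨Cn_comm st.mq (Or.inl (Or.inr (Or.inr ⟨⟨b, k⟩, rfl⟩))),
      Cn_comm' st.mq (Or.inl (Or.inr (Or.inr ⟨⟨b, k⟩, rfl⟩)))⟩
  have u1 : ∀ b p, star (w b p) * w b p * ((1 - q) * dg x) = (1 - q) * dg x := fun b p => by
    have a1 : ∀ k, star (v (p, some ⟨b, k⟩) * dg (r b k)) * w b p * ((1 - q) * dg x) =
        (1 - q) * (star (dg (r b k)) * dg (r b k) * dg x) := fun k => by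
      rw [Finset.mul_sum, Finset.sum_eq_single k (fun k' _ hk => by
        rw [star_mul, mul_assoc, ← mul_assoc (star (v _)), w3 _ _ (by simpa [L] using hk.symm),
          zero_mul, mul_zero]) (by simp), star_mul]
      have a2 : Commute (star (v (p, some ⟨b, k⟩))) (dg (r b k)) :=
        Cn_comm (star_mem (w0 _)) (Or.inr (Or.inr ⟨⟨b, k⟩, rfl⟩))
      have a3 : Commute (1 - q) (star (dg (r b k)) * dg (r b k)) :=
        (Commute.one_left _).sub_left ((c2 b k).2.mul_right (c2 b k).1)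
      rw [(c1 _ b k).eq, mul_assoc (star _) (star _),
        ← mul_assoc (star (v _)), a2.eq, mul_assoc (dg _), ← mul_assoc (star (dg _)), mul_assoc,
        w2, ← mul_assoc, ← a3.eq, mul_assoc]
    conv_lhs => enter [1, 1]; simp only [w, star_sum]
    rw [Finset.sum_mul, Finset.sum_mul]
    simp only [a1]
    rw [← Finset.mul_sum, ← Finset.sum_mul]
    simp only [← map_star, ← map_mul, ← map_sum, r1]
  choose γ' k1 k2 k3 using fun b p => contract (w b p)
  refine ⟨σ, σ1, fun b p => w b p * γ' b p, k1, G, fun t => ?_, G2 (.inr (.inl ())),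
    fun p => ⟨G2 (.inr (.inr p)), (σ0 p).1, mem_Cn.2 ?_⟩, ?_, fun b p => ⟨?_, ?_, ?_, fun p' => ?_⟩⟩
  · simp only [T1]; exact SMulMemClass.smul_mem _ (G2 (.inl t))
  · rintro _ ⟨t, rfl⟩
    have := mem_Cn.1 (σ2 p) _ (Or.inr (Or.inl ⟨t, rfl⟩))
    simp only [T1, star_smul]
    exact ⟨this.1.smul_left _, this.2.smul_left _⟩
  · have := (s.weight (fun _ => 1) (fun _ => zero_le_one) fun _ => le_rfl).2.1
    rw [Finset.sum_comm]
    simpa [← Finset.sum_smul, μ] using this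
  · rw [G1, ← mul_assoc]
    simp only [w, Finset.mul_sum, ← mul_assoc, w1]
  · rw [← mul_assoc]
    simp only [w, Finset.mul_sum, (c1 _ _ _).eq, ← mul_assoc, ← map_mul, r2]
  · rw [G1]; exact k2 b p _ (u1 b p)
  · rw [← mul_assoc]
    simp only [w, Finset.mul_sum, ← mul_assoc, σ, w4 (μ p') (μ0 p') (μ1 p'), μ, eq_comm (a := p')]
    split_ifs <;> simp

end Pool.Agent.Lib.MP_30b5b4_an
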