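import Pool.Agent.Lib.MP_30b5b4_an.QC

/-! Approximations in the ultrapower and the Radon-Nikodym step. -/

open scoped CStarAlgebra ComplexOrder Topology
open Filter

set_option linter.unusedSectionVars false
set_option linter.style.haveILetI false

namespace Pool.Agent.Lib.MP_30b5b4_an

universe u

lemma rn_step {Q ι : Type*} [CStarAlgebra Q] [PartialOrder Q] [StarOrderedRing Q] [Fintype ι]
    (Θ : ι → Q →ₗ[ℂ] Q) (h : ∀ i, IsCP (Θ i)) {b : Q} (h1 : (∑ i, Θ i 1) * b = b)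
    (h2 : ∑ i, Θ i b = b) (h3 : ∑ i, Θ i (star b * b) = star b * b) (i : ι) :
    Θ i b = Θ i 1 * b := by
  have h4 : ∑ i, Θ i (star b) = star b := by
    conv_rhs => rw [← h2, star_sum]
    exact Finset.sum_congr rfl fun i _ => (h i).map_star b
  have h5 := (Finset.sum_eq_zero_iff_of_nonneg
    (fun i (_ : i ∈ Finset.univ) => (h i).two b 1 1 (-b))).1 (by
      simp only [Finset.sum_add_distrib, star_one, one_mul, mul_one, ← Finset.sum_mul,
        ← Finset.mul_sum, h2, h3, h4, star_neg, mul_neg, neg_mul, neg_neg, Finset.sum_neg_distrib,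
        mul_assoc, h1]
      abel) i (Finset.mem_univ i)
  have := (h i).null h5 1
  simpa [add_neg_eq_zero] using this

variable {J : Type*} {A : Type u} [NonUnitalCStarAlgebra J] [CStarAlgebra A] [PartialOrder A]
  [StarOrderedRing A]

abbrev CA (A : Type u) [CStarAlgebra A] [PartialOrder A] [StarOrderedRing A] :=
  Colour (NonUnitalStarAlgHom.id ℂ A)

noncomputable def uψ (c : ℕ → CA A) : UA A →ₗ[ℂ] Ult fun k => (c k).F :=
  (Ult.exists_cp_map (fun k => (c k).ψ) (fun k => (c k).le) fun k => (c k).cp).choose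

lemma uψ_spec (c : ℕ → CA A) : IsCP (uψ c) ∧ (∀ x, ‖uψ c x‖ ≤ ‖x‖) ∧
    ∀ x, uψ c (Ult.mk x) = Ult.mk (Bdd.map (fun k => (c k).ψ) (fun k => (c k).le) x) :=
  (Ult.exists_cp_map (fun k => (c k).ψ) (fun k => (c k).le) fun k => (c k).cp).choose_spec

noncomputable def uφ (c : ℕ → CA A) : (Ult fun k => (c k).F) →ₗ[ℂ] UA A :=
  (Ult.exists_cp_map (fun k => (c k).φ) (fun k => (c k).φ_le) fun k => (c k).oz.cp).choose

lemma uφ_spec (c : ℕ → CA A) : IsCP (uφ c) ∧ (∀ x, ‖uφ c x‖ ≤ ‖x‖) ∧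
    ∀ x, uφ c (Ult.mk x) = Ult.mk (Bdd.map (fun k => (c k).φ) (fun k => (c k).φ_le) x) :=
  (Ult.exists_cp_map (fun k => (c k).φ) (fun k => (c k).φ_le) fun k => (c k).oz.cp).choose_spec

lemma uφ_oz (c : ℕ → CA A) : OZ (uφ c) := by
  refine ⟨(uφ_spec c).1, fun x y => ?_⟩
  obtain ⟨x, rfl⟩ := Ult.surj x
  obtain ⟨y, rfl⟩ := Ult.surj y
  rw [← map_one Ult.mk, ← map_mul Ult.mk]
  simp only [(uφ_spec c).2.2, ← map_mul Ult.mk]
  exact congrArg _ (Bdd.ext fun k => by simpa using (c k).oz.mul _ _)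

noncomputable def uT (c : ℕ → CA A) : UA A →ₗ[ℂ] UA A := uφ c ∘ₗ uψ c

lemma uT_apply (c : ℕ → CA A) (x : UA A) : uT c x = uφ c (uψ c x) := rfl

lemma uT_cp (c : ℕ → CA A) : IsCP (uT c) := (uφ_spec c).1.comp (uψ_spec c).1 fun _ => rfl

lemma uψ_one (c : ℕ → CA A) : uψ c 1 ≤ 1 :=
  le_one_of_norm (uψ_spec c).1.one_nonneg (((uψ_spec c).2.1 1).trans (norm_one_le' _))

lemma uφ_one (c : ℕ → CA A) : uφ c 1 ≤ 1 :=
  le_one_of_norm (uφ_spec c).1.one_nonneg (((uφ_spec c).2.1 1).trans (norm_one_le' _))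

lemma uT_one_le (c : ℕ → CA A) : uT c 1 ≤ uφ c 1 := (uφ_spec c).1.mono (uψ_one c)

noncomputable def bl (c : ℕ → CA A) : BA A := Bdd.map (fun k => (c k).φ) (fun k => (c k).φ_le) 1

@[simp] lemma ev_bl (c : ℕ → CA A) (k : ℕ) : Bdd.ev k (bl c) = (c k).φ 1 := rfl

lemma uφ_one_eq (c : ℕ → CA A) : uφ c 1 = Ult.mk (bl c) := (uφ_spec c).2.2 1

noncomputable def bT (c : ℕ → CA A) (x : BA A) : BA A :=
  Bdd.map (fun k => (c k).φ) (fun k => (c k).φ_le) (Bdd.map (fun k => (c k).ψ) (fun k => (c k).le) x)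

@[simp] lemma ev_bT (c : ℕ → CA A) (x : BA A) (k : ℕ) :
    Bdd.ev k (bT c x) = (c k).T (Bdd.ev k x) := rfl

lemma uT_mk (c : ℕ → CA A) (x : BA A) : uT c (Ult.mk x) = Ult.mk (bT c x) := by
  rw [uT_apply, (uψ_spec c).2.2, (uφ_spec c).2.2]; rfl

variable [PartialOrder J] [StarOrderedRing J] {j : J →⋆ₙₐ[ℂ] A}

lemma Idl.compress (hj : Idl j) {w : A} (hw : ∃ b, j b = w) (w0 : 0 ≤ w) (w1 : w ≤ 1) :
    ∃ L : A → J, (∀ a, j (L a) = w * a * w) ∧ ∀ c : Colour j, ∃ c' : CA A,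
      (∀ x, ∃ b, j b = c'.φ x) ∧ c'.φ 1 = c.φ 1 ∧ ∀ a, c'.T a = c.T (L a) := by
  obtain ⟨b, rfl⟩ := hw
  choose R hR using fun a => hj.left a b
  have hL : ∀ a, j (b * R a) = j b * a * j b := fun a => by rw [map_mul, hR, mul_assoc]
  let L : A →ₗ[ℂ] J :=
    { toFun := fun a => b * R a
      map_add' := fun x y => hj.inj (by rw [map_add, hL, hL, hL, mul_add, add_mul])
      map_smul' := fun r x => hj.inj (by
        rw [map_smul, hL, hL, mul_smul_comm, smul_mul_assoc]; rfl) }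
  refine ⟨L, hL, fun c => ⟨{ c with
    ψ := c.ψ ∘ₗ L
    cp := c.cp.comp_half R fun a a' => congrArg c.ψ (hj.inj (a₁ := b * R (star a * a')) ?_)
    le := fun a => (c.le _).trans ?_
    mem := fun x => ⟨_, rfl⟩ }, c.mem, rfl, fun a => rfl⟩⟩
  · rw [hL, map_mul, map_star, hR, hR, star_mul, w0.star_eq]
    simp only [mul_assoc]
  · rw [← NonUnitalStarAlgHom.norm_map j hj.inj]
    refine (congrArg norm (hL a)).trans_le (norm_mul₃_le.trans ?_)
    have := norm_le_one_of w0 w1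
    calc _ ≤ 1 * ‖a‖ * 1 := by gcongr
      _ = _ := by ring

lemma Ap.ultra0 {N : ℕ} {d : Prop} (h : Ap j N d) (hj : Idl j) {w : BA A}
    (hw : ∀ k, ∃ b, j b = Bdd.ev k w) (w0 : 0 ≤ w) (w1 : w ≤ 1) {κ : Type*} [Fintype κ]
    (x : κ → UA A) : ∃ c : Fin N → ℕ → CA A, (∀ i k x, ∃ b, j b = (c i k).φ x) ∧
      (∀ m, ∑ i, uT (c i) (x m) = Ult.mk w * x m * Ult.mk w) ∧ (d → ∑ i, uφ (c i) 1 ≤ 1) := by
  classical
  choose x' hx' using fun m => Ult.surj (x m)
  choose L hL f f1 f2 f3 using fun k => hj.compress (hw k) (hom_nonneg _ w0)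
    (by simpa using hom_mono (Bdd.ev k) w1)
  choose c c1 c2 using fun k : ℕ => h (Finset.univ.image fun m => L k (Bdd.ev k (x' m))) _
    (show (0 : ℝ) < 1 / ((k : ℝ) + 1) by positivity)
  refine ⟨fun i k => f k (c k i), fun i k => f1 k _, fun m => ?_, fun hd => ?_⟩
  · simp only [← hx', uT_mk, ← map_mul, ← map_sum]
    refine Ult.mk_eq_of_le 1 fun k => ?_
    have := c2 k _ (Finset.mem_image_of_mem _ (Finset.mem_univ m))
    rw [hL] at this
    simpa [f3] using this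
  · simp only [uφ_one_eq, ← map_sum]
    rw [← map_one Ult.mk]
    refine hom_mono _ (Bdd.le fun k => ?_)
    simpa [f2] using c1 k hd

theorem Ap.ultra {N : ℕ} {d : Prop} (h : Ap j N d) (hj : Idl j) {w : BA A}
    (hw : ∀ k, ∃ b, j b = Bdd.ev k w) (w0 : 0 ≤ w) (w1 : w ≤ 1) {κ : Type*} [Fintype κ]
    (b : κ → UA A) (hb : ∀ m, Ult.mk w * b m = b m ∧ b m * Ult.mk w = b m) :
    ∃ c : Fin N → ℕ → CA A, (∀ i k x, ∃ b, j b = (c i k).φ x) ∧
      (∀ i m, uT (c i) (b m) = uT (c i) 1 * b m ∧ uT (c i) (b m) = b m * uT (c i) 1) ∧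
      (∀ m, ∑ i, uT (c i) (b m) = b m) ∧
      (d → ∀ i m, uT (c i) (b m) = uφ (c i) 1 * b m ∧ uT (c i) (b m) = b m * uφ (c i) 1) := by
  obtain ⟨c, c1, c2, c3⟩ := h.ultra0 hj hw w0 w1 (κ := Option (κ × Fin 3)) fun o =>
    o.elim 1 fun p => ![b p.1, star (b p.1) * b p.1, b p.1 * star (b p.1)] p.2
  set W := Ult.mk w
  have W0 : star W = W := (hom_nonneg _ w0).star_eq
  have hb' : ∀ m, W * star (b m) = star (b m) ∧ star (b m) * W = star (b m) := fun m =>
    ⟨by rw [← W0, ← star_mul, (hb m).2], by rw [← W0, ← star_mul, (hb m).1]⟩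
  have e0 : ∑ i, uT (c i) 1 = W * W := by simpa using c2 none
  have e1 : ∀ m, ∑ i, uT (c i) (b m) = b m := fun m => by
    simpa [(hb m).1, (hb m).2] using c2 (some (m, 0))
  have e2 : ∀ m, ∑ i, uT (c i) (star (b m) * b m) = star (b m) * b m := fun m => by
    have := c2 (some (m, 1))
    simp only [Option.elim_some, Matrix.cons_val_one, Matrix.cons_val_zero] at this
    rw [this, ← mul_assoc, (hb' m).1, mul_assoc, (hb m).2]
  have e3 : ∀ m, ∑ i, uT (c i) (b m * star (b m)) = b m * star (b m) := fun m => by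
    have := c2 (some (m, 2))
    simp only [Option.elim_some, Matrix.cons_val] at this
    rw [this, ← mul_assoc, (hb m).1, mul_assoc, (hb' m).2]
  have e4 : ∀ m, ∑ i, uT (c i) (star (b m)) = star (b m) := fun m => by
    conv_rhs => rw [← e1 m, star_sum]
    exact Finset.sum_congr rfl fun i _ => (uT_cp _).map_star _
  have e5 : ∀ i m, uT (c i) (b m) = uT (c i) 1 * b m ∧ uT (c i) (b m) = b m * uT (c i) 1 := by
    intro i m
    refine ⟨rn_step _ (fun i => uT_cp (c i)) (by rw [e0, mul_assoc, (hb m).1, (hb m).1]) (e1 m)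
      (e2 m) i, ?_⟩
    have := congrArg star (rn_step _ (fun i => uT_cp (c i))
      (by rw [e0, mul_assoc, (hb' m).1, (hb' m).1]) (e4 m) (by simpa using e3 m) i)
    rwa [(uT_cp _).map_star, star_star, star_mul, star_star, (uT_cp _).one_nonneg.star_eq] at this
  refine ⟨c, c1, e5, e1, fun hd i m => ?_⟩
  have a1 : 0 ≤ uφ (c i) 1 - uT (c i) 1 := sub_nonneg.2 (uT_one_le _)
  have a2 : uφ (c i) 1 - uT (c i) 1 ≤ 1 - W * W := by
    refine (Finset.single_le_sum (f := fun i => uφ (c i) 1 - uT (c i) 1)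
      (fun i _ => sub_nonneg.2 (uT_one_le _)) (Finset.mem_univ i)).trans ?_
    rw [Finset.sum_sub_distrib, e0]
    exact sub_le_sub_right (c3 hd) _
  have a3 := mul_eq_zero_of_le a1 a2 (c := b m) (by
    rw [sub_mul, mul_assoc, (hb m).1, (hb m).1, one_mul, sub_self])
  have a4 := congrArg star (mul_eq_zero_of_le a1 a2 (c := star (b m)) (by
    rw [sub_mul, mul_assoc, (hb' m).1, (hb' m).1, one_mul, sub_self]))
  rw [star_mul, star_star, a1.star_eq, star_zero, mul_sub, sub_eq_zero] at a4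
  rw [sub_mul, sub_eq_zero] at a3
  exact ⟨by rw [a3, (e5 i m).1], by rw [a4, (e5 i m).2]⟩

end Pool.Agent.Lib.MP_30b5b4_an
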