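import Pool.Agent.Lib.MP_30b5b4_an.VS1

/-! The visible algebra of a colour; comparison and division with colours. -/

open scoped CStarAlgebra ComplexOrder Topology
open Filter

set_option linter.unusedSectionVars false
set_option linter.style.haveILetI false

universe u

namespace Pool.Agent.Lib.MP_30b5b4_an

variable {A : Type u} [CStarAlgebra A] [PartialOrder A] [StarOrderedRing A]

/-- the elements over which the colour is a bimodule map -/
noncomputable def Vs (d : ℕ → CA A) : StarSubalgebra ℂ (UA A) where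
  carrier := {b | ∀ x, uT d (x * b) = uT d x * b ∧ uT d (b * x) = b * uT d x}
  mul_mem' := fun {a b} ha hb x => ⟨by rw [← mul_assoc, (hb _).1, (ha _).1, mul_assoc],
    by rw [mul_assoc, (ha _).2, (hb _).2, mul_assoc]⟩
  add_mem' := fun {a b} ha hb x => ⟨by rw [mul_add, map_add, (hb _).1, (ha _).1, mul_add],
    by rw [add_mul, map_add, (hb _).2, (ha _).2, add_mul]⟩
  algebraMap_mem' := fun c x => by simp [Algebra.algebraMap_eq_smul_one]
  star_mem' := fun {a} ha x => ⟨by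
      rw [← star_star x, ← star_mul, (uT_cp d).map_star, (ha _).2, star_mul, (uT_cp d).map_star,
        star_star, star_star], by
      rw [← star_star x, ← star_mul, (uT_cp d).map_star, (ha _).1, star_mul, (uT_cp d).map_star,
        star_star, star_star]⟩

variable {d : ℕ → CA A}

lemma mem_Vs {b : UA A} :
    b ∈ Vs d ↔ ∀ x, uT d (x * b) = uT d x * b ∧ uT d (b * x) = b * uT d x := Iff.rfl

lemma Vs.vis {b : UA A} (h : b ∈ Vs d) : Vis d b := ⟨by simpa using (h 1).1, by simpa using (h 1).2⟩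

lemma Vis.right {b : UA A} (h1 : Vis d b) (h2 : Vis d (star b)) (h3 : Vis d (star b * b))
    (x : UA A) : uT d (x * b) = uT d x * b := by
  have := (uT_cp d).null (a₁ := b) (a₂ := 1) (b₁ := 1) (b₂ := -b) (by
    simp only [star_one, one_mul, mul_one, star_neg, mul_neg, neg_mul, neg_neg]
    rw [h3.1, h2.1, h1.1, ← mul_assoc, ← mul_assoc]
    abel) x
  simpa [add_neg_eq_zero] using this

lemma Vis.mem_Vs {b : UA A} (h1 : Vis d b) (h2 : Vis d (star b)) (h3 : Vis d (star b * b))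
    (h4 : Vis d (b * star b)) : b ∈ Vs d := fun x => ⟨h1.right h2 h3 x, by
  have := congrArg star (h2.right (by rwa [star_star]) (by rwa [star_star]) (star x))
  rwa [← (uT_cp d).map_star, star_mul, star_mul, star_star, star_star, ← (uT_cp d).map_star,
    star_star] at this⟩

theorem Ap.ultraV {J : Type*} [NonUnitalCStarAlgebra J] [PartialOrder J] [StarOrderedRing J]
    {j : J →⋆ₙₐ[ℂ] A} {N : ℕ} {p : Prop} (h : Ap j N p) (hj : Idl j) {w : BA A}
    (hw : ∀ k, ∃ b, j b = Bdd.ev k w) (w0 : 0 ≤ w) (w1 : w ≤ 1) {κ : Type*} [Fintype κ]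
    (b : κ → UA A) (hb : ∀ m, Ult.mk w * b m = b m ∧ b m * Ult.mk w = b m) :
    ∃ c : Fin N → ℕ → CA A, (∀ i k x, ∃ b, j b = (c i k).φ x) ∧ (∀ i m, b m ∈ Vs (c i)) ∧
      ∀ m, (∑ i, uT (c i) 1) * b m = b m := by
  have s := (hom_nonneg Ult.mk w0).star_eq
  have hs : ∀ m, Ult.mk w * star (b m) = star (b m) ∧ star (b m) * Ult.mk w = star (b m) :=
    fun m => ⟨by rw [← s, ← star_mul, (hb m).2], by rw [← s, ← star_mul, (hb m).1]⟩
  obtain ⟨c, c1, c2, c3, -⟩ := h.ultra hj hw w0 w1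
    (fun p : κ × Fin 4 => ![b p.1, star (b p.1), star (b p.1) * b p.1, b p.1 * star (b p.1)] p.2) (by
      rintro ⟨m, i⟩
      fin_cases i
      · exact hb m
      · exact hs m
      · exact ⟨by simp [← mul_assoc, (hs m).1], by simp [mul_assoc, (hb m).2]⟩
      · exact ⟨by simp [← mul_assoc, (hb m).1], by simp [mul_assoc, (hs m).2]⟩)
  refine ⟨c, c1, fun i m => Vis.mem_Vs (c2 i (m, 0)) (c2 i (m, 1)) (c2 i (m, 2)) (c2 i (m, 3)),
    fun m => ?_⟩
  rw [Finset.sum_mul]
  exact (Finset.sum_congr rfl fun i _ => (c2 i (m, 0)).1.symm).trans (c3 (m, 0))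

theorem Ap.ultra1 {N : ℕ} {p : Prop} (h : Ap (NonUnitalStarAlgHom.id ℂ A) N p) {κ : Type*}
    [Fintype κ] (b : κ → UA A) :
    ∃ c : Fin N → ℕ → CA A, (∀ i m, b m ∈ Vs (c i)) ∧ ∑ i, uT (c i) 1 = 1 := by
  obtain ⟨c, -, c2, c3⟩ := h.ultraV ⟨Function.injective_id, fun a b => ⟨a * b, rfl⟩⟩ (w := 1)
    (fun k => ⟨_, rfl⟩) zero_le_one le_rfl (fun o : Option κ => o.elim 1 b) (by simp)
  exact ⟨c, fun i m => c2 i (some m), by simpa using c3 none⟩

variable {δ : ℝ} {m m' : ℕ}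

lemma OZ.spm_mul' {U B : Type*} [CStarAlgebra U] [CStarAlgebra B] [PartialOrder B]
    [StarOrderedRing B] {φ : U →ₗ[ℂ] B} (h : OZ φ) (hδ : 0 < δ) (hm : 0 < m) (x y : U) :
    spm φ δ m (x * y) = spm φ δ m x * (cfc (Gf δ) (φ 1) * φ y) := by
  have := Gf_cont hδ
  rw [spm_apply, spm_apply, mul_assoc, ← mul_assoc (φ x), ← ((h.commute x).cfc_real _).eq,
    mul_assoc _ (φ x), h.mul, ← mul_assoc, ← mul_assoc, cfc_mul' (by fun_prop) this,
    cfc_mul_id (by fun_prop) h.cp.one_nonneg.isSelfAdjoint]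
  congr 2
  funext t
  linear_combination (-Gf δ t) * rp_Gf hδ hm t

lemma Vis.back_r {b : UA A} (h : Vis d b) (hδ : 0 < δ) (hm : 0 < m) (z) :
    spm (uφ d) δ m (z * uψ d b) = spm (uφ d) δ m (z * uψ d 1) * b := by
  obtain ⟨K, -, hK⟩ := (uφ_oz d).spm_eq hδ hm
  rw [hK, hK, ← (uφ_oz d).mul, ← (uφ_oz d).mul, ← uT_apply, ← uT_apply, h.1]
  simp only [mul_assoc]

lemma Vis.back_l {b : UA A} (h : Vis d b) (hδ : 0 < δ) (hm : 0 < m) (z) :
    spm (uφ d) δ m (uψ d b * z) = b * spm (uφ d) δ m (uψ d 1 * z) := by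
  obtain ⟨K, k1, hK⟩ := (uφ_oz d).spm_eq hδ hm
  have k2 : ∀ x y, Commute K (uφ d x * uφ d y) := fun x y => (k1 x).mul_right (k1 y)
  rw [hK, hK, ← (uφ_oz d).mul, ← (uφ_oz d).mul, (k2 _ _).eq, (k2 _ _).eq, ← uT_apply, ← uT_apply,
    h.2]
  simp only [mul_assoc]

/-- the central projection on the blocks that are alive -/
structure Alive (d : ℕ → CA A) (δ : ℝ) (P : Ult fun k => (d k).F) : Prop where
  pos : 0 < δ
  proj : IsStarProjection P
  cen : ∀ x, Commute P x
  small : ‖uφ d (1 - P)‖ ≤ δ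
  kill : ∀ x, uφ d 1 * uφ d x = 0 → P * x = 0

lemma exists_alive (d : ℕ → CA A) (hδ : 0 < δ) : ∃ P, Alive d δ P :=
  (ult_central d hδ).imp fun _ h => ⟨hδ, h.1, h.2.1, h.2.2.1, h.2.2.2⟩

/-- the normalised picture of `b` in the matrix algebras, cut by `f` of the unit -/
noncomputable def pic (d : ℕ → CA A) (P : Ult fun k => (d k).F) (f : ℝ → ℝ) :
    UA A →ₗ[ℂ] Ult fun k => (d k).F :=
  LinearMap.mulLeft ℂ (cfc f (uψ d 1) * P) ∘ₗ uψ d

variable {P : Ult fun k => (d k).F}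

lemma pic_apply (f : ℝ → ℝ) (b : UA A) : pic d P f b = cfc f (uψ d 1) * (P * uψ d b) :=
  mul_assoc _ _ _

lemma uψ_one_nonneg (d : ℕ → CA A) : 0 ≤ uψ d 1 := (uψ_spec d).1.one_nonneg

namespace Alive
variable (h : Alive d δ P)
include h

lemma mul {a : UA A} (ha : a ∈ Vs d) (b : UA A) :
    P * uψ d a * (P * uψ d b) = uψ d 1 * (P * uψ d (a * b)) := by
  have := h.kill (uψ d a * uψ d b - uψ d 1 * uψ d (a * b)) (by
    rw [map_sub, mul_sub, ← (uφ_oz d).mul, ← (uφ_oz d).mul, ← uT_apply, ← uT_apply, ← uT_apply,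
      ← uT_apply, (ha b).2, (Vs.vis ha).1, ← mul_assoc, ← (Vs.vis ha).1, (Vs.vis ha).2, mul_assoc,
      ← mul_assoc, ← (Vs.vis ha).2, (Vs.vis ha).1, sub_self])
  rw [mul_sub, sub_eq_zero] at this
  rw [mul_assoc, ← mul_assoc _ P, ← (h.cen _).eq, ← mul_assoc, ← mul_assoc,
    h.proj.isIdempotentElem.eq, mul_assoc, this, ← mul_assoc, (h.cen _).eq, mul_assoc]

lemma comm {b : UA A} (hb : b ∈ Vs d) {f : ℝ → ℝ} : Commute (cfc f (uψ d 1)) (P * uψ d b) := by
  refine Commute.cfc_real ?_ f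
  have := h.mul hb 1
  rw [mul_one, mul_assoc, ← mul_assoc _ P, ← (h.cen _).eq, ← mul_assoc, ← mul_assoc,
    h.proj.isIdempotentElem.eq] at this
  exact this.symm

lemma pic_mul {a : UA A} (ha : a ∈ Vs d) (b : UA A) {f g k : ℝ → ℝ} (hf : Continuous f)
    (hg : Continuous g) (hk : ∀ t, f t * g t * t = k t) :
    pic d P f a * pic d P g b = pic d P k (a * b) := by
  simp only [pic_apply]
  rw [mul_assoc, ← mul_assoc (P * _), ← (h.comm ha).eq, mul_assoc, h.mul ha, ← mul_assoc,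
    ← mul_assoc, cfc_mul' hf hg, cfc_mul_id (by fun_prop) (uψ_one_nonneg d).isSelfAdjoint]
  simp only [hk]

lemma pic_star {b : UA A} (hb : b ∈ Vs d) (f : ℝ → ℝ) : star (pic d P f b) = pic d P f (star b) := by
  rw [pic_apply, pic_apply, star_mul, star_mul, IsSelfAdjoint.cfc.star_eq,
    h.proj.isSelfAdjoint.star_eq, ← (uψ_spec d).1.map_star, ← (h.cen _).eq,
    (h.comm (star_mem hb)).eq]

lemma pic_unit {b : UA A} (hb : b ∈ Vs d) (b0 : 0 ≤ b) (b1 : b ≤ 1) (hm : 0 < m) :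
    0 ≤ pic d P (fun t => rp δ m t * Gf δ t) b ∧ pic d P (fun t => rp δ m t * Gf δ t) b ≤ 1 := by
  have gc := Gf_cont h.pos
  have key : ∀ {b}, b ∈ Vs d → 0 ≤ b → 0 ≤ pic d P (fun t => rp δ m t * Gf δ t) b := fun hb b0 => by
    rw [pic_apply]
    exact (h.comm hb).mul_nonneg (cfc_nonneg fun _ _ => mul_nonneg (cl_nonneg _) (Gf_nonneg h.pos))
      ((h.cen _).mul_nonneg h.proj.nonneg ((uψ_spec d).1.nonneg b0))
  refine ⟨key hb b0, ?_⟩
  have h1 := key (sub_mem (one_mem _) hb) (sub_nonneg.2 b1)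
  rw [map_sub, sub_nonneg] at h1
  refine h1.trans ?_
  rw [pic_apply, (h.cen _).eq, ← mul_assoc, cfc_mul_id (by fun_prop)
    (uψ_one_nonneg d).isSelfAdjoint]
  simp only [rp_Gf h.pos hm]
  exact (mul_unit (rp_unit _ _ _).1 (rp_unit _ _ _).2 h.proj.nonneg h.proj.le_one
    (h.cen _).symm).2

lemma spm_pic {b : UA A} (hb : b ∈ Vs d) (hm : 0 < m) {f k : ℝ → ℝ} (hf : Continuous f)
    (hk : ∀ t, f t * t = k t) : spm (uφ d) δ m (pic d P f b) = spm (uφ d) δ m (cfc k (uψ d 1)) * b ∧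
      spm (uφ d) δ m (pic d P f b) = b * spm (uφ d) δ m (cfc k (uψ d 1)) := by
  have s0 := (uψ_one_nonneg d).isSelfAdjoint
  constructor
  · rw [pic_apply, ← mul_assoc, ← (h.cen _).eq, mul_assoc,
      (uφ_oz d).spm_kill h.pos hm h.proj h.small, (Vs.vis hb).back_r h.pos hm, cfc_mul_id hf s0]
    simp only [hk]
  · rw [pic_apply, (h.comm hb).eq, mul_assoc, (uφ_oz d).spm_kill h.pos hm h.proj h.small,
      (Vs.vis hb).back_l h.pos hm, id_mul_cfc hf s0]
    simp only [mul_comm _ (f _), hk]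

end Alive

/-- `p` cuts the picture of `x` of level `m` at one half -/
structure Half (P : Ult fun k => (d k).F) (δ : ℝ) (m : ℕ) (x : UA A)
    (p : Bdd fun k => (d k).F) : Prop where
  proj : IsStarProjection p
  le : Ult.mk p ≤ (2 : ℝ) • pic d P (fun t => rp δ m t * Gf δ t) x
  ge : 1 - Ult.mk p ≤ (2 : ℝ) • (1 - pic d P (fun t => rp δ m t * Gf δ t) x)

lemma Alive.half (h : Alive d δ P) {b : UA A} (hb : b ∈ Vs d) (b0 : 0 ≤ b) (b1 : b ≤ 1)
    (hm : 0 < m) : ∃ p, Half P δ m b p :=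
  (ult_half (h.pic_unit hb b0 b1 hm).1 (h.pic_unit hb b0 b1 hm).2).imp fun _ h =>
    ⟨h.1, h.2.1, h.2.2⟩

lemma Alive.tr (h : Alive d δ P) {ι κ : Type*} [Fintype ι] [Fintype κ] [DecidableEq ι]
    {x : ι → UA A} {y : κ → UA A} {V : κ → ι → UA A} (hy : ∀ k, y k ∈ Vs d)
    (hV : ∀ k i, V k i ∈ Vs d)
    (h1 : ∀ i i', (∑ k, star (V k i) * V k i') * x i' = if i = i' then x i' else 0)
    (h2 : ∀ k i, y k * V k i * x i = V k i * x i) (hm : m < m')
    {p : ι → Bdd fun k => (d k).F} {q : κ → Bdd fun k => (d k).F}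
    (hp : ∀ i, Half P δ m' (x i) (p i)) (hq : ∀ k, Half P δ m (y k) (q k)) :
    ∀ᶠ n in (om : Filter ℕ), ∀ T : (d n).F →ₗ[ℝ] ℝ, IsTr T →
      ∑ i, T (Bdd.ev n (p i)) ≤ 2 * ∑ k, T (Bdd.ev n (q k)) := by
  have gc := Gf_cont h.pos
  have m0 : 0 < m' := Nat.zero_lt_of_lt hm
  have p0 := fun i => hom_proj Ult.mk (hp i).proj
  have I2 : ∀ {a b}, a ∈ Vs d → pic d P (Gf δ) a *
      pic d P (fun t => rp δ m' t * Gf δ t) b = pic d P (fun t => rp δ m' t * Gf δ t) (a * b) :=
    fun ha => h.pic_mul ha _ gc (by fun_prop) fun t => by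
      linear_combination (Gf δ t) * rp_Gf h.pos m0 t
  refine tr_ineq p q (fun i => (hp i).proj) (fun k => (hq k).proj)
    (fun k i => pic d P (Gf δ) (V k i) * Ult.mk (p i)) (fun i i' => ?_)
    (fun k i => by rw [mul_assoc, (p0 i).isIdempotentElem.eq]) fun k i => ?_
  · have e := mul_eq_zero_of_le_smul' (p0 i').nonneg (hp i').le
      (c := ∑ k, pic d P (Gf δ) (star (V k i)) * pic d P (Gf δ) (V k i') - if i = i' then 1 else 0)
      (by
        rw [sub_mul, Finset.sum_mul, Finset.sum_congr rfl fun k _ => by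
          rw [mul_assoc, I2 (hV _ _), I2 (star_mem (hV _ _)),
            ← mul_assoc], ← map_sum, ← Finset.sum_mul, h1]
        split_ifs <;> simp)
    rw [sub_mul, sub_eq_zero] at e
    simp only [star_mul, h.pic_star (hV _ _), (p0 i).isSelfAdjoint.star_eq, mul_assoc]
    rw [← Finset.mul_sum]
    simp only [← mul_assoc]
    rw [← Finset.sum_mul, e]
    split_ifs with h3
    · rw [← h3, one_mul, (p0 i).isIdempotentElem.eq]
    · simp
  · have e := mul_eq_zero_of_le_smul' (p0 i).nonneg (hp i).le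
      (c := (1 - pic d P (fun t => rp δ m t * Gf δ t) (y k)) * pic d P (Gf δ) (V k i)) (by
        rw [mul_assoc, I2 (hV _ _), sub_mul, one_mul, h.pic_mul (hy k) _ (by fun_prop) (by fun_prop)
          (k := fun t => rp δ m' t * Gf δ t) fun t => ?_, ← mul_assoc, h2, sub_self]
        have a1 : rp δ m t * rp δ m' t = rp δ m' t := cl_tier hm
        linear_combination (Gf δ t * Gf δ t * t) * a1 + (Gf δ t) * rp_Gf h.pos m0 t)
    have e' := mul_eq_zero_of_le_smul (hom_proj Ult.mk (hq k).proj).one_sub.nonneg (hq k).ge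
      ((mul_assoc _ _ _).symm.trans e)
    rw [sub_mul, one_mul, sub_eq_zero] at e'
    exact e'.symm

lemma Half.supp {y : UA A} {r : Bdd fun k => (d k).F} (hr : Half P δ m y r) (h : Alive d δ P)
    (hy : y ∈ Vs d) (hm : 0 < m) (hm' : 0 < m') {w} (hw : Ult.mk r * w = w) {z : UA A}
    (hz : z * y = 0) : z * spm (uφ d) δ m' w = 0 := by
  have gc := Gf_cont h.pos
  have o := (uφ_oz d).spm_oz (m := m') h.pos
  have r0 := (hom_proj Ult.mk hr.proj).nonneg
  have e1 := o.cp.mono hr.le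
  rw [← Complex.coe_smul, map_smul, Complex.coe_smul,
    (h.spm_pic hy hm' (by fun_prop) (rp_Gf h.pos hm)).2] at e1
  have e2 := mul_eq_zero_of_le_smul' (o.cp.nonneg r0) e1 (c := z) (by rw [← mul_assoc, hz, zero_mul])
  rw [← hw, (uφ_oz d).spm_mul' h.pos hm', ← mul_assoc, e2, zero_mul]

theorem backsum {N : ℕ} (c : Fin N → ℕ → CA A) (hc : ∑ i, uT (c i) 1 = 1)
    (P : ∀ i, Ult fun k => (c i k).F) (hP : ∀ i, Alive (c i) δ (P i)) {x : UA A}
    (hx : ∀ i, x ∈ Vs (c i)) {l : ℕ} (hm : 0 < m) (hl : 0 < l)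
    (hδ : N * ((m + 2 + (l + 1)) * δ) ≤ 1 / 2) (p : ∀ i, Bdd fun k => (c i k).F)
    (hp : ∀ i, Half (P i) δ m x (p i)) {T : Fin N → Type*} [∀ i, Fintype (T i)]
    (w : ∀ i, T i → Ult fun k => (c i k).F) (hw : ∀ i, ∑ t, star (w i t) * w i t = Ult.mk (p i)) :
    ∃ (g : UA A) (v : ∀ i, T i → UA A),
      (∀ i t, v i t = spm (uφ (c i)) δ l (w i t * cfc (rp δ (m + 1)) (uψ (c i) 1)) * g) ∧
      (∀ i t, ‖v i t‖ ≤ 1) ∧ ∑ i, ∑ t, star (v i t) * v i t ≤ 1 ∧
      ∀ z, x * z = z → (∑ i, ∑ t, star (v i t) * v i t) * z = z := by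
  let β := fun i => cfc (rp δ (m + 1)) (uψ (c i) 1)
  let L := fun i => spm (uφ (c i)) δ l
  have β0 : ∀ i, star (β i) = β i := fun i => IsSelfAdjoint.cfc.star_eq
  have o : ∀ i, OZ (L i) := fun i => (uφ_oz _).spm_oz (hP i).pos
  have mo : ∀ i {a b}, a ≤ b → L i 1 * L i a ≤ L i 1 * L i b := fun i a b hab => by
    obtain ⟨s, hs⟩ := exists_star_mul (sub_nonneg.2 hab)
    rw [← sub_nonneg, ← mul_sub, ← map_sub, hs, ← (o i).star_mul_self]
    exact star_mul_self_nonneg _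
  have gc := fun i => Gf_cont (hP i).pos
  have s0 := fun i => (uψ_one_nonneg (c i)).isSelfAdjoint
  have ββ : ∀ i, β i * β i = cfc (fun t => rp δ (m + 1) t * rp δ (m + 1) t) (uψ (c i) 1) :=
    fun i => cfc_mul' (rp_cont _ _) (rp_cont _ _) _
  have xβ : ∀ i, Commute x (L i (β i)) := fun i => by
    have := gc i
    have := (hP i).spm_pic (hx i) hl (f := fun t => rp δ (m + 1) t * Gf δ t) (by fun_prop)
      (rp_Gf (hP i).pos m.succ_pos)
    exact this.2.symm.trans this.1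
  obtain ⟨M, hM⟩ : ∃ M, M = ∑ i, L i 1 * L i (β i * β i) := ⟨_, rfl⟩
  have xM : Commute x M := hM ▸ Commute.sum_right _ _ _ fun i _ => by
    rw [← (o i).mul]; exact (xβ i).mul_right (xβ i)
  have M0 : algebraMap ℝ _ (1 / 2) ≤ M := by
    have e1 : ∀ i, uT (c i) 1 ≤ ((m + 2 + (l + 1)) * δ) • 1 + L i 1 * L i (β i * β i) := fun i => by
      have δ0 := (hP i).pos
      have n1 : (1 : ℝ) ≤ N := by exact_mod_cast i.pos
      have δ1 : δ ≤ 1 := by
        have : δ ≤ (m + 2 + (l + 1)) * δ := le_mul_of_one_le_left δ0.le (by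
          linarith [(m.cast_nonneg : (0 : ℝ) ≤ m), (l.cast_nonneg : (0 : ℝ) ≤ l)])
        nlinarith
      have u := mul_unit (rp_unit δ (m + 1) (uψ (c i) 1)).1 (rp_unit _ _ _).2 (rp_unit _ _ _).1
        (rp_unit _ _ _).2 (Commute.refl _)
      have e2 : uψ (c i) 1 ≤ ((m + 2) * δ) • 1 + β i * β i := by
        rw [ββ, ← cfc_const_one ℝ (uψ (c i) 1), ← cfc_const_mul _ _ _, ← cfc_add _ _ _]
        conv_lhs => rw [← cfc_id' ℝ (uψ (c i) 1)]
        refine cfc_mono fun t ht => ?_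
        have := spec_mem (uψ_one_nonneg _) (uψ_one _) ht
        rcases le_total t ((m + 2) * δ) with h2 | h2
        · linarith [mul_self_nonneg (rp δ (m + 1) t)]
        · rw [show rp δ (m + 1) t = 1 from cl_of_one_le (by
            push_cast; linarith [(le_div_iff₀ δ0).2 h2])]
          have : 0 ≤ ((m : ℝ) + 2) * δ := by positivity
          linarith
      have e3 := (uφ_spec (c i)).1.mono e2
      rw [map_add, ← Complex.coe_smul, map_smul, Complex.coe_smul] at e3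
      have e4 := (uφ_oz (c i)).le_spm (m := l) (uφ_one _) δ0 δ1 u.1 u.2
      rw [← (uφ_oz (c i)).spm_one δ0 hl] at e4
      rw [add_mul _ _ δ, add_smul, add_assoc]
      exact e3.trans (add_le_add (smul_le_smul_of_nonneg_left (uφ_one _) (by positivity)) e4)
    have e5 := Finset.sum_le_sum fun i (_ : i ∈ Finset.univ) => e1 i
    rw [hc, Finset.sum_add_distrib, ← hM, Finset.sum_const, Finset.card_univ, Fintype.card_fin,
      ← Nat.cast_smul_eq_nsmul ℝ, smul_smul, ← sub_le_iff_le_add'] at e5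
    refine le_trans ?_ e5
    rw [Algebra.algebraMap_eq_smul_one, le_sub_iff_add_le, ← add_smul]
    exact (smul_le_smul_of_nonneg_right (by linarith) zero_le_one).trans (one_smul ℝ _).le
  have M1 : IsSelfAdjoint M := ((algebraMap_nonneg _ one_half_pos.le).trans M0).isSelfAdjoint
  have g2 := Gf_cont one_half_pos
  obtain ⟨g, hg⟩ : ∃ g, g = cfc (fun t => √(Gf (1 / 2) t)) M := ⟨_, rfl⟩
  have g0 : star g = g := hg ▸ IsSelfAdjoint.cfc.star_eq
  have xg : Commute x g := hg ▸ (xM.symm.cfc_real _).symm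
  have g1 : star g * M * g = 1 := by
    rw [g0, hg, cfc_mul_id (by fun_prop) M1, cfc_mul' (by fun_prop) (by fun_prop),
      ← cfc_const_one ℝ M]
    refine cfc_congr fun t ht => ?_
    have := (algebraMap_le_iff_le_spectrum M1).1 M0 t ht
    rw [mul_right_comm, Real.mul_self_sqrt (Gf_nonneg one_half_pos), Gf, max_eq_left this,
      inv_mul_cancel₀ (by linarith)]
  have e1 : 1 - ∑ i, ∑ t, star (L i (w i t * β i) * g) * (L i (w i t * β i) * g) =
      star g * (∑ i, L i 1 * L i (star (β i) * (1 - Ult.mk (p i)) * β i)) * g := by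
    have : ∀ i, ∑ t, star (L i (w i t * β i) * g) * (L i (w i t * β i) * g) =
        star g * (L i 1 * L i (β i * Ult.mk (p i) * β i)) * g := fun i => by
      rw [← hw, Finset.mul_sum, Finset.sum_mul, map_sum, Finset.mul_sum, Finset.mul_sum,
        Finset.sum_mul]
      refine Finset.sum_congr rfl fun t _ => ?_
      rw [star_mul, mul_assoc, ← mul_assoc (star (L i _)), (o i).star_mul_self, star_mul, β0]
      simp only [mul_assoc]
    simp only [this, β0, mul_sub, sub_mul, mul_one, map_sub, Finset.sum_sub_distrib, ← hM, g1]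
    rw [Finset.mul_sum, Finset.sum_mul]
  have e2 : ∀ i, 0 ≤ L i 1 * L i (star (β i) * (1 - Ult.mk (p i)) * β i) := fun i => by
    simpa using mo i (star_left_conjugate_nonneg (hom_proj Ult.mk (hp i).proj).one_sub.nonneg (β i))
  have e3 : ∀ i, L i 1 * L i (star (β i) * (1 - Ult.mk (p i)) * β i) ≤
      (2 : ℝ) • (L i 1 * L i (β i * β i) * (1 - x)) := fun i => by
    have := gc i
    refine (mo i (star_left_conjugate_le_conjugate (hp i).ge (β i))).trans (le_of_eq ?_)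
    have a1 : β i * pic (c i) (P i) (fun t => rp δ m t * Gf δ t) x * β i =
        pic (c i) (P i) (fun t => rp δ (m + 1) t * rp δ (m + 1) t * Gf δ t) x := by
      rw [pic_apply, pic_apply, mul_assoc, mul_assoc, ← ((hP i).comm (hx i)).eq, ← mul_assoc,
        ← mul_assoc, cfc_mul' (by fun_prop) (by fun_prop), cfc_mul' (by fun_prop) (by fun_prop)]
      congr 2
      funext t
      have a2 : rp δ m t * rp δ (m + 1) t = rp δ (m + 1) t := cl_tier m.lt_succ_self
      linear_combination (rp δ (m + 1) t * Gf δ t) * a2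
    rw [β0, mul_smul_comm, smul_mul_assoc, ← Complex.coe_smul, map_smul, Complex.coe_smul,
      mul_smul_comm, mul_sub, sub_mul, a1, mul_one, map_sub, ((hP i).spm_pic (hx i) hl (by fun_prop)
      (k := fun t => rp δ (m + 1) t * rp δ (m + 1) t) fun t => by
        rw [mul_assoc, mul_assoc, ← mul_assoc _ (Gf δ t), rp_Gf (hP i).pos m.succ_pos]).1, ← ββ,
      mul_sub, mul_sub, mul_one, mul_assoc]
  have e4 := star_left_conjugate_nonneg (Finset.sum_nonneg fun i (_ : i ∈ Finset.univ) => e2 i) g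
  have e5 := star_left_conjugate_le_conjugate
    (Finset.sum_le_sum fun i (_ : i ∈ Finset.univ) => e3 i) g
  rw [← e1, ← Finset.smul_sum, ← Finset.sum_mul, ← hM, mul_smul_comm, smul_mul_assoc, mul_assoc,
    mul_assoc, ((Commute.one_left g).sub_left xg).eq, ← mul_assoc, ← mul_assoc, g1, one_mul] at e5
  rw [← e1] at e4
  refine ⟨g, _, fun i t => rfl, fun i t => norm_le_one_of_star_mul (le_trans ?_ (sub_nonneg.1 e4)),
    sub_nonneg.1 e4, fun z hz => ?_⟩
  · exact (Finset.single_le_sum (f := fun t => star (L i (w i t * β i) * g) *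
      (L i (w i t * β i) * g)) (fun _ _ => star_mul_self_nonneg _) (Finset.mem_univ t)).trans
      (Finset.single_le_sum (f := fun i => ∑ t, star (L i (w i t * β i) * g) *
      (L i (w i t * β i) * g)) (fun _ _ => Finset.sum_nonneg fun _ _ => star_mul_self_nonneg _)
      (Finset.mem_univ i))
  · have := mul_eq_zero_of_le_smul e4 e5 (c := z) (by rw [sub_mul, hz, one_mul, sub_self])
    rw [sub_mul, one_mul, sub_eq_zero] at this
    exact this.symm

end Pool.Agent.Lib.MP_30b5b4_an
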