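import Pool.Agent.Lib.MP_30b5b4_an.Final

/-! Joint real functional calculus and the level lemma. -/

open scoped CStarAlgebra ComplexOrder

set_option linter.unusedSectionVars false
set_option linter.style.haveILetI false
set_option linter.unusedSimpArgs false

namespace Pool.Agent.Lib.MP_30b5b4_an

universe u
variable {Q : Type u} [CStarAlgebra Q] [PartialOrder Q] [StarOrderedRing Q]

section jc
variable {X : Type*} [TopologicalSpace X] [CompactSpace X]

structure JC (ρ : C(X, ℝ) →ₐ[ℝ] Q) : Prop where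
  sa : ∀ f, star (ρ f) = ρ f
  pos : ∀ f, 0 ≤ ρ f ↔ ∀ t, 0 ≤ f t
  norm : ∀ f r, 0 ≤ r → (∀ t, |f t| ≤ r) → ‖ρ f‖ ≤ r
  cfc : ∀ (f k : C(X, ℝ)) (g : ℝ → ℝ), Continuous g → (∀ t, k t = g (f t)) → cfc g (ρ f) = ρ k

lemma exists_fac {g f : C(X, ℝ)} {κ : ℝ} (hκ : 0 < κ) (h : ∀ t, g t ≤ κ → f t = 0) : g ∣ f := by
  have := Gf_cont hκ
  refine ⟨⟨fun t => Gf κ (g t) * f t, by fun_prop⟩, ContinuousMap.ext fun t => ?_⟩
  change f t = g t * (Gf κ (g t) * f t)
  rcases le_total (g t) κ with h1 | h1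
  · rw [h t h1, mul_zero, mul_zero]
  · rw [Gf, max_eq_left h1, ← mul_assoc, mul_inv_cancel₀ (hκ.trans_le h1).ne', one_mul]

end jc

theorem exists_jc {ι : Type*} (a : ι → Q) (hs : ∀ i, IsSelfAdjoint (a i))
    (hc : ∀ i k, Commute (a i) (a k)) :
    ∃ (X : Type u) (_ : TopologicalSpace X) (_ : CompactSpace X) (ρ : C(X, ℝ) →ₐ[ℝ] Q)
      (f : ι → C(X, ℝ)), JC ρ ∧ (∀ i, ρ (f i) = a i) ∧
        ∀ z, (∀ i, Commute (a i) z) → ∀ g, Commute (ρ g) z := by
  let S := Set.range a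
  let C := StarSubalgebra.centralizer ℂ (StarSubalgebra.centralizer ℂ S : Set Q)
  haveI hC : IsClosed (C : Set Q) := Set.isClosed_centralizer _
  have h0 : ∀ z, (∀ i, Commute (a i) z) → z ∈ StarSubalgebra.centralizer ℂ S := fun z hz =>
    StarSubalgebra.mem_centralizer_iff ℂ |>.2 (by
      rintro _ ⟨i, rfl⟩
      rw [(hs i).star_eq, and_self]
      exact hz i)
  have h1 : S ⊆ StarSubalgebra.centralizer ℂ S := by
    rintro _ ⟨k, rfl⟩
    exact h0 _ fun i => hc i k
  have h2 : C ≤ StarSubalgebra.centralizer ℂ S := StarSubalgebra.centralizer_le ℂ _ _ h1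
  have h3 : ∀ s ∈ S, s ∈ C := fun s hs => StarSubalgebra.mem_centralizer_iff ℂ |>.2 fun g hg =>
    ⟨((StarSubalgebra.mem_centralizer_iff ℂ |>.1 hg) s hs).1.symm,
      ((StarSubalgebra.mem_centralizer_iff ℂ |>.1 (star_mem hg)) s hs).1.symm⟩
  letI : CommCStarAlgebra C :=
    { StarSubalgebra.cstarAlgebra C with
      mul_comm := fun x y => Subtype.ext
        ((StarSubalgebra.mem_centralizer_iff ℂ |>.1 y.2) x (h2 x.2)).1 }
  let X := WeakDual.characterSpace ℂ C
  let Ψ : C(X, ℂ) →⋆ₐ[ℂ] C := (gelfandStarTransform C).symm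
  let Φ : C(X, ℂ) →⋆ₐ[ℂ] Q := C.subtype.comp Ψ
  have hsp : ∀ f, spectrum ℂ (Φ f) = Set.range f := fun f => by
    rw [← ContinuousMap.spectrum_eq_range,
      ← AlgEquiv.spectrum_eq (gelfandStarTransform C).symm f, StarSubalgebra.spectrum_eq (hS := hC)]
    rfl
  let r : C(X, ℝ) →ₐ[ℝ] C(X, ℂ) := Complex.ofRealAm.compLeftContinuous ℝ Complex.continuous_ofReal
  have hr : ∀ f t, r f t = (f t : ℂ) := fun _ _ => rfl
  let ρ : C(X, ℝ) →ₐ[ℝ] Q := (Φ.toAlgHom.restrictScalars ℝ).comp r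
  have hρ : ∀ f, ρ f = Φ (r f) := fun _ => rfl
  have s1 : ∀ f, star (ρ f) = ρ f := fun f => by
    rw [hρ, ← map_star]
    congr 1
    ext t
    simp [hr]
  have hg : ∀ i, ∃ g, Φ g = a i := fun i =>
    ⟨gelfandStarTransform C ⟨a i, h3 _ ⟨i, rfl⟩⟩, by simp [Φ, Ψ]⟩
  choose g hg using hg
  refine ⟨X, inferInstance, inferInstance, ρ, fun i => ⟨fun t => (g i t).re, by fun_prop⟩,
    ⟨s1, fun f => ⟨fun h t => ?_, fun h => gel_nonneg Φ fun t => ⟨_, h t, rfl⟩⟩,
      fun f c hc h => gel_norm Φ hc fun t => ?_, fun f k p hp h => ?_⟩, fun i => ?_,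
    fun z hz f => ?_⟩
  · have : (f t : ℂ) ∈ spectrum ℂ (ρ f) := by rw [hρ, hsp]; exact ⟨t, rfl⟩
    exact spectrum_nonneg_of_nonneg h (spectrum.of_algebraMap_mem ℂ this)
  · simpa [hr] using h t
  · rw [cfc_real_eq_complex p (s1 f), hρ, hρ]
    exact gel_cfc Φ _ (by fun_prop) fun t => by simp [hr, h]
  · rw [hρ, ← hg]
    congr 1
    ext t
    have : g i t ∈ spectrum ℂ (a i) := by rw [← hg, hsp]; exact ⟨t, rfl⟩
    exact ((hs i).mem_spectrum_eq_re this).symm
  · exact ((StarSubalgebra.mem_centralizer_iff ℂ |>.1 (Ψ (r f)).2) z (h0 z hz)).1.symm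

section rot
variable {R : Type*} [Ring R] [StarRing R]

structure Sm (v z : R) : Prop where
  sa : star z = z
  l : z * v = 0
  r : star v * v * z = z

lemma Sm.rules {v z : R} (h : Sm v z) : (∀ y, z * (v * y) = 0) ∧ star v * z = 0 ∧
    (∀ y, star v * (z * y) = 0) ∧ star v * (v * z) = z ∧ (∀ y, star v * (v * (z * y)) = z * y) ∧
    z * (star v * v) = z ∧ ∀ y, z * (star v * (v * y)) = z * y := by
  have h1 : star v * z = 0 := by rw [← h.sa, ← star_mul, h.l, star_zero]
  have h2 : z * (star v * v) = z := by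
    have := congrArg star h.r
    rwa [star_mul, star_mul, star_star, h.sa] at this
  exact ⟨fun y => by rw [← mul_assoc, h.l, zero_mul], h1, fun y => by rw [← mul_assoc, h1, zero_mul],
    by rw [← mul_assoc, h.r], fun y => by rw [← mul_assoc, ← mul_assoc, h.r], h2,
    fun y => by rw [← mul_assoc (star v), ← mul_assoc, h2]⟩

def rot (v K S : R) : R := 1 + (K + v * K * star v + v * S - S * star v)

lemma Sm.neg {v z : R} (h : Sm v z) : Sm v (-z) :=
  ⟨by rw [star_neg, h.sa], by rw [neg_mul, h.l, neg_zero], by rw [mul_neg, h.r]⟩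

lemma star_rot {v K S : R} (hK : Sm v K) (hS : Sm v S) : star (rot v K S) = rot v K (-S) := by
  simp only [rot, star_add, star_sub, star_mul, star_star, star_one, hK.sa, hS.sa, mul_assoc,
    mul_neg, neg_mul]
  abel

lemma rot_mul {v K S : R} (hK : Sm v K) (hS : Sm v S) (h1 : S * K = K * S)
    (h2 : K * K + S * S = -(K + K)) : rot v K (-S) * rot v K S = 1 := by
  obtain ⟨a1, a2, a3, a4, a5, -, -⟩ := hK.rules
  obtain ⟨b1, b2, b3, b4, b5, -, -⟩ := hS.rules
  have h3 : ∀ y, S * (K * y) = K * (S * y) := fun y => by rw [← mul_assoc, h1, mul_assoc]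
  have h4 := congrArg (fun y => v * (y * star v)) h2
  simp only [add_mul, mul_add, neg_mul, mul_neg, mul_assoc] at h4
  simp only [rot, mul_add, add_mul, mul_sub, sub_mul, mul_assoc, one_mul, mul_one, mul_neg, neg_mul,
    a1, a2, a3, a4, a5, b1, b2, b3, b4, b5, mul_zero, h1, h3]
  linear_combination (norm := abel1) h2 + h4

lemma rot_unitary {v K S : R} (hK : Sm v K) (hS : Sm v S) (h1 : S * K = K * S)
    (h2 : K * K + S * S = -(K + K)) : rot v K S ∈ unitary R := by
  rw [Unitary.mem_iff, star_rot hK hS]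
  refine ⟨rot_mul hK hS h1 h2, ?_⟩
  simpa using rot_mul hK hS.neg (by simpa using h1) (by simpa using h2)

lemma rot_step {v K S d T : R} (hK : Sm v K) (hS : Sm v S) (hd : Sm v d) (hT : star T = T)
    (h1 : T * K = K * T) (h2 : T * (v * (K * star v)) = v * (K * (star v * T)))
    (h3 : T * (v * S) = v * (S * T) + v * (d * S)) (h4 : d * K = -d) (h5 : S * d = d * S) :
    rot v K S * T = (T + (d - v * d * star v)) * rot v K S := by
  obtain ⟨a1, a2, a3, a4, a5, -, -⟩ := hK.rules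
  obtain ⟨b1, b2, b3, b4, b5, -, -⟩ := hS.rules
  obtain ⟨c1, -, -, -, -, -, -⟩ := hd.rules
  have h6 := congrArg star h3
  have h7 : ∀ y, d * (K * y) = -(d * y) := fun y => by rw [← mul_assoc, h4, neg_mul]
  simp only [star_add, star_mul, hT, hS.sa, hd.sa, mul_assoc] at h6
  rw [← mul_assoc S d, h5, mul_assoc] at h6
  simp only [rot, mul_add, add_mul, mul_sub, sub_mul, mul_assoc, one_mul, mul_one,
    a1, a2, a3, a4, a5, b1, b2, b3, b4, b5, c1, mul_zero, h1, h2, h3, h4, h6, h7, mul_neg]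
  abel

end rot

section fns

noncomputable def lc (M : ℝ) (k : ℕ) (x y : ℝ) : ℝ := max x (min y (k / M))
noncomputable def ll (M : ℝ) (k : ℕ) (x y : ℝ) : ℝ := lc M (k + 1) x y - lc M k x y
noncomputable def ld (M : ℝ) (k : ℕ) (x y : ℝ) : ℝ := max (ll M k x y - 3 / M ^ 2) 0
noncomputable def lx (M : ℝ) (n : ℕ) (x y : ℝ) : ℝ := x + ∑ k ∈ Finset.range n, ld M k x y
noncomputable def lz (M : ℝ) (k : ℕ) (x y : ℝ) : ℝ :=
  cl (M ^ 2 * ll M k x y - 1) * (lx M (k + 1) x y - (k + 1) / M)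
noncomputable def ls (M : ℝ) (k : ℕ) (x y : ℝ) : ℝ := cl (M ^ 2 * ll M k x y - 2)

variable {M x y : ℝ} {k : ℕ}

lemma ll_le (hM : 0 < M) (h : x ≤ y) : 0 ≤ ll M k x y ∧ ll M k x y ≤ y - x ∧ ll M k x y ≤ 1 / M := by
  have h1 : ((k + 1 : ℕ) : ℝ) / M = k / M + 1 / M := by push_cast; ring
  have h2 : 0 < 1 / M := by positivity
  simp only [ll, lc, h1, max_def, min_def]
  split_ifs <;> refine ⟨?_, ?_, ?_⟩ <;> linarith

lemma lc_mem (hM : 0 < M) (h : 0 < ll M k x y) :
    k / M ≤ lc M (k + 1) x y ∧ lc M (k + 1) x y ≤ (k + 1) / M := by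
  have h1 : ((k + 1 : ℕ) : ℝ) / M = k / M + 1 / M := by push_cast; ring
  have h3 : ((k : ℝ) + 1) / M = k / M + 1 / M := by ring
  have h2 : 0 < 1 / M := by positivity
  simp only [ll, lc, h1, h3, max_def, min_def] at h ⊢
  split_ifs at h ⊢ <;> refine ⟨?_, ?_⟩ <;> linarith

lemma ld_le (hM : 0 < M) (h : x ≤ y) : 0 ≤ ld M k x y ∧ ld M k x y ≤ ll M k x y ∧
    ll M k x y - 3 / M ^ 2 ≤ ld M k x y :=
  ⟨le_max_right _ _, max_le (sub_le_self _ (by positivity)) (ll_le hM h).1, le_max_left _ _⟩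

lemma lx_mem (hM : 0 < M) (h0 : 0 ≤ x) (h : x ≤ y) (n : ℕ) :
    lc M n x y - n * (3 / M ^ 2) ≤ lx M n x y ∧ lx M n x y ≤ lc M n x y := by
  induction n with
  | zero => simp [lc, lx, h0]
  | succ n ih =>
    have h1 := ld_le (k := n) hM h
    simp only [lx, Finset.sum_range_succ, ll] at ih h1 ⊢
    push_cast
    constructor <;> linarith [ih.1, ih.2, h1.2.1, h1.2.2]

lemma lz_le (hM : 0 < M) (h0 : 0 ≤ x) (h : x ≤ y) (hk : (k : ℝ) + 1 ≤ M) :
    |lz M k x y| ≤ 4 / M := by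
  rcases le_or_gt (ll M k x y) 0 with h1 | h1
  · rw [lz, cl_of_nonpos (by nlinarith [pow_pos hM 2]), zero_mul, abs_zero]; positivity
  have h2 := lc_mem hM h1
  have h3 := lx_mem hM h0 h (k + 1)
  have h4 : ((k + 1 : ℕ) : ℝ) * (3 / M ^ 2) ≤ 3 / M := by
    push_cast
    calc _ ≤ M * (3 / M ^ 2) := by gcongr
      _ = _ := by field_simp
  have h5 : ((k : ℝ) + 1) / M = k / M + 1 / M := by ring
  have h6 : 4 / M = 3 / M + 1 / M := by ring
  have h7 : 0 < 1 / M := by positivity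
  have h8 : 0 < 3 / M := by positivity
  rw [lz, abs_mul, abs_of_nonneg (cl_nonneg _)]
  refine (mul_le_of_le_one_left (abs_nonneg _) (cl_le_one _)).trans (abs_le.2 ⟨?_, ?_⟩) <;>
    linarith [h2.1, h2.2, h3.1, h3.2]

lemma l_small (hM : 0 < M) (h : x ≤ y) (hs : y - x ≤ 1 / M ^ 2) :
    ld M k x y = 0 ∧ lz M k x y = 0 ∧ ls M k x y = 0 := by
  have h1 := (ll_le (k := k) hM h).2.1.trans hs
  have h2 : M ^ 2 * ll M k x y ≤ 1 := by rwa [le_div_iff₀' (by positivity)] at h1
  have h3 : 1 / M ^ 2 ≤ 3 / M ^ 2 := by gcongr; norm_num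
  exact ⟨max_eq_right (by linarith), by rw [lz, cl_of_nonpos (by linarith), zero_mul],
    cl_of_nonpos (by linarith)⟩

lemma l_rel (hM : 0 < M) : ld M k x y * √(1 - ls M k x y) = 0 ∧
    ((k + 1) / M + lz M k x y) * √(ls M k x y) =
      √(ls M k x y) * lx M k x y + ld M k x y * √(ls M k x y) := by
  constructor
  · rcases le_total (ll M k x y) (3 / M ^ 2) with h | h
    · rw [ld, max_eq_right (by linarith), zero_mul]
    · rw [div_le_iff₀' (by positivity)] at h
      rw [ls, cl_of_one_le (by linarith)]; simp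
  · rcases le_total (M ^ 2 * ll M k x y) 2 with h | h
    · rw [ls, cl_of_nonpos (by linarith)]; simp
    · rw [lz, cl_of_one_le (by linarith), lx, lx, Finset.sum_range_succ]; ring

variable {X : Type*} [TopologicalSpace X] {f g : X → ℝ}

@[fun_prop] lemma ll_cont (hf : Continuous f) (hg : Continuous g) :
    Continuous fun t => ll M k (f t) (g t) := by unfold ll lc; fun_prop
@[fun_prop] lemma ld_cont (hf : Continuous f) (hg : Continuous g) :
    Continuous fun t => ld M k (f t) (g t) := by unfold ld; fun_prop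
@[fun_prop] lemma lx_cont (hf : Continuous f) (hg : Continuous g) :
    Continuous fun t => lx M k (f t) (g t) := by unfold lx; fun_prop
@[fun_prop] lemma lz_cont (hf : Continuous f) (hg : Continuous g) :
    Continuous fun t => lz M k (f t) (g t) := by unfold lz; fun_prop
@[fun_prop] lemma ls_cont (hf : Continuous f) (hg : Continuous g) :
    Continuous fun t => ls M k (f t) (g t) := by unfold ls; fun_prop

end fns

lemma norm_orth_sum {ι : Type*} (s : Finset ι) (v z : ι → Q) (h : ∀ k ∈ s, Sm (v k) (z k))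
    (h2 : ∀ k ∈ s, ∀ l ∈ s, k ≠ l → star (v k) * (v l * z l) = 0) {r : ℝ} (hr : 0 ≤ r)
    (h3 : ∀ k ∈ s, ‖z k‖ ≤ r) : ‖∑ k ∈ s, v k * z k * star (v k)‖ ≤ r := by
  have e1 : star (∑ k ∈ s, v k * z k * star (v k)) * ∑ k ∈ s, v k * z k * star (v k) =
      ∑ k ∈ s, v k * z k * star (v k * z k) := by
    rw [star_sum, Finset.sum_mul_sum]
    refine Finset.sum_congr rfl fun k hk => ?_
    rw [Finset.sum_eq_single_of_mem k hk fun l hl hlk => ?_]
    · simp only [star_mul, star_star, (h k hk).sa, mul_assoc, (h k hk).rules.2.2.2.2.1]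
    · rw [star_mul, star_star, mul_assoc, star_mul, mul_assoc, ← mul_assoc (star (v k)),
        h2 k hk l hl hlk.symm, zero_mul, mul_zero, mul_zero]
  have e2 : ‖∑ k ∈ s, v k * z k * star (v k * z k)‖ ≤ r ^ 2 := by
    refine sum_le_of_orth s _ (by positivity) (fun k _ => mul_star_self_nonneg _)
      (fun k hk l hl hkl => ?_) fun k hk => ?_
    · rw [mul_assoc (v k * z k), star_mul (v k), mul_assoc (star (z k)), ← mul_assoc (star (v k)),
        h2 k hk l hl hkl, zero_mul, mul_zero, mul_zero]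
    · rw [CStarRing.norm_self_mul_star, ← CStarRing.norm_star_mul_self, star_mul, mul_assoc,
        (h k hk).rules.2.2.2.1, CStarRing.norm_star_mul_self, pow_two]
      exact mul_self_le_mul_self (norm_nonneg _) (h3 k hk)
  rw [← e1, CStarRing.norm_star_mul_self, ← pow_two] at e2
  exact (pow_le_pow_iff_left₀ (norm_nonneg _) hr two_ne_zero).1 e2

theorem level {a b : Q} (a0 : 0 ≤ a) (ab : a ≤ b) (b1 : b ≤ 1) (hc : Commute a b) {M : ℕ}
    (hM : 0 < M) (v : ℕ → Q) (h1 : ∀ k < M, (b - a) * v k = 0)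
    (h2 : ∀ k < M, star (v k) * v k * (b - a) = b - a)
    (h2' : ∀ k < M, ∀ l < M, k ≠ l → star (v k) * v l * (b - a) = 0)
    (h3 : ∀ k < M, b * v k * (b - a) = (((k : ℝ) + 1) / M) • (v k * (b - a))) :
    ∃ W ∈ unitary Q, (∀ z, Commute a z → Commute b z →
      (∀ k < M, Commute (v k) z ∧ Commute (star (v k)) z) → Commute W z) ∧
      ‖W * a - b * W‖ ≤ 12 / M := by
  obtain ⟨X, _, _, ρ, f, J, hf, hz⟩ := exists_jc ![a, b]
    (by simp [Fin.forall_fin_two, a0.isSelfAdjoint, (a0.trans ab).isSelfAdjoint])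
    (by simp [Fin.forall_fin_two, hc, hc.symm])
  have fa : ρ (f 0) = a := hf 0
  have fb : ρ (f 1) = b := hf 1
  have M0 : (0 : ℝ) < M := by exact_mod_cast hM
  have p0 : ∀ t, 0 ≤ f 0 t := (J.pos _).1 (fa ▸ a0)
  have p1 : ∀ t, f 0 t ≤ f 1 t := fun t => sub_nonneg.1 ((J.pos (f 1 - f 0)).1 (by
    rw [map_sub, fa, fb]; exact sub_nonneg.2 ab) t)
  have p2 : ∀ t, f 1 t ≤ 1 := fun t => sub_nonneg.1 ((J.pos (1 - f 1)).1 (by
    rw [map_sub, map_one, fb]; exact sub_nonneg.2 b1) t)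
  let P : C(X, ℝ) → Prop := fun g => ∀ t, f 1 t - f 0 t ≤ 1 / M ^ 2 → g t = 0
  have k0 : ∀ {g}, P g → ∃ y y', ρ g = (b - a) * y ∧ ρ g = y' * (b - a) := fun hg => by
    obtain ⟨y, rfl⟩ := exists_fac (g := f 1 - f 0) (by positivity) hg
    exact ⟨ρ y, ρ y, by rw [map_mul, map_sub, fa, fb], by rw [mul_comm, map_mul, map_sub, fa, fb]⟩
  have k1 : ∀ {g}, P g → ∀ k < M, Sm (v k) (ρ g) := fun hg k hk => by
    obtain ⟨y, y', e1, e2⟩ := k0 hg
    exact ⟨J.sa _, by rw [e2, mul_assoc, h1 k hk, mul_zero], by rw [e1, ← mul_assoc, h2 k hk]⟩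
  have k2 : ∀ {g}, P g → ∀ k < M, ∀ l < M, k ≠ l → star (v k) * (v l * ρ g) = 0 :=
    fun hg k hk l hl hkl => by
      obtain ⟨y, y', e1, e2⟩ := k0 hg
      rw [e1, ← mul_assoc, ← mul_assoc, h2' k hk l hl hkl, zero_mul]
  have k3 : ∀ {g}, P g → ∀ k < M, a * (v k * ρ g) = (((k : ℝ) + 1) / M) • (v k * ρ g) :=
    fun hg k hk => by
      obtain ⟨y, y', e1, e2⟩ := k0 hg
      have := h1 k hk
      rw [sub_mul, sub_eq_zero] at this
      rw [e1, ← mul_assoc, ← this, ← mul_assoc, h3 k hk, smul_mul_assoc, mul_assoc]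
  let d : ℕ → C(X, ℝ) := fun k => ⟨fun t => ld M k (f 0 t) (f 1 t), by fun_prop⟩
  let x : ℕ → C(X, ℝ) := fun k => ⟨fun t => lx M k (f 0 t) (f 1 t), by fun_prop⟩
  let z : ℕ → C(X, ℝ) := fun k => ⟨fun t => lz M k (f 0 t) (f 1 t), by fun_prop⟩
  let s : ℕ → C(X, ℝ) := fun k => ⟨fun t => √(ls M k (f 0 t) (f 1 t)), by fun_prop⟩
  let c : ℕ → C(X, ℝ) := fun k => ⟨fun t => √(1 - ls M k (f 0 t) (f 1 t)) - 1, by fun_prop⟩
  have Pd : ∀ k, P (d k) := fun k t ht => (l_small M0 (p1 t) ht).1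
  have Pz : ∀ k, P (z k) := fun k t ht => (l_small M0 (p1 t) ht).2.1
  have Ps : ∀ k, P (s k) := fun k t ht => by simp [s, (l_small M0 (p1 t) ht).2.2]
  have Pc : ∀ k, P (c k) := fun k t ht => by simp [c, (l_small M0 (p1 t) ht).2.2]
  have ex : ∀ n, ρ (x n) = a + ∑ k ∈ Finset.range n, ρ (d k) := fun n => by
    rw [← fa, ← map_sum, ← map_add]
    congr 1
    ext t
    simp [x, d, lx]
  let T : ℕ → Q := fun n => a + ∑ k ∈ Finset.range M, v k * ρ (z k) * star (v k) +
    ∑ k ∈ Finset.range n, (ρ (d k) - v k * ρ (d k) * star (v k))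
  have T0 : ∀ n, star (T n) = T n := fun n => by
    simp only [T, star_add, star_sum, star_sub, star_mul, star_star, J.sa, a0.star_eq, mul_assoc]
  have T1 : ∀ n ≤ M, ∀ {g}, P g → T n * ρ g = ρ (x n * g) := fun n hn g hg => by
    rw [map_mul, ex]
    simp only [T, add_mul, Finset.sum_mul, sub_mul, mul_assoc]
    rw [Finset.sum_eq_zero fun k hk => by
      rw [(k1 hg k (Finset.mem_range.1 hk)).rules.2.1, mul_zero, mul_zero], add_zero]
    congr 1
    exact Finset.sum_congr rfl fun k hk => by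
      rw [(k1 hg k ((Finset.mem_range.1 hk).trans_le hn)).rules.2.1, mul_zero, mul_zero, sub_zero]
  have T2 : ∀ n < M, ∀ {g}, P g → T n * (v n * ρ g) =
      v n * ρ ((algebraMap ℝ _ (((n : ℝ) + 1) / M) + z n) * g) := fun n hn g hg => by
    simp only [T, add_mul, Finset.sum_mul, sub_mul, mul_assoc, map_add, map_mul, mul_add]
    rw [k3 hg n hn, Finset.sum_eq_single_of_mem n (Finset.mem_range.2 hn) fun k hk hkn => by
        rw [k2 hg k (Finset.mem_range.1 hk) n hn hkn, mul_zero, mul_zero],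
      (k1 hg n hn).rules.2.2.2.1, Finset.sum_eq_zero fun k hk => by
        have hk' := Finset.mem_range.1 hk
        rw [k2 hg k (hk'.trans hn) n hn hk'.ne, (k1 (Pd k) n hn).rules.1, mul_zero, mul_zero,
          sub_zero], add_zero, AlgHom.commutes, ← Algebra.smul_def, mul_smul_comm]
  have key : ∀ n ≤ M, ∃ W ∈ unitary Q, (∀ y, Commute a y → Commute b y →
      (∀ k < M, Commute (v k) y ∧ Commute (star (v k)) y) → Commute W y) ∧ W * T 0 = T n * W := by
    intro n
    induction n with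
    | zero => exact fun _ => ⟨1, one_mem _, fun _ _ _ _ => Commute.one_left _, by simp⟩
    | succ n ih =>
      intro hn
      obtain ⟨W, w1, w2, w3⟩ := ih (Nat.le_of_succ_le hn)
      have cs := k1 (Ps n) n hn
      have cc := k1 (Pc n) n hn
      have e1 : rot (v n) (ρ (c n)) (ρ (s n)) * T n = T (n + 1) * rot (v n) (ρ (c n)) (ρ (s n)) := by
        have e2 : ∀ {g}, P g → ρ g * T n = ρ (x n * g) := fun hg => by
          have := congrArg star (T1 n (Nat.le_of_succ_le hn) hg)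
          rwa [star_mul, T0, J.sa, J.sa] at this
        rw [rot_step cc cs (k1 (Pd n) n hn) (T0 n) ?_ ?_ ?_ ?_ ?_]
        · simp only [T, Finset.sum_range_succ, add_assoc]
        · rw [T1 n (Nat.le_of_succ_le hn) (Pc n), e2 (Pc n)]
        · have e3 := congrArg star (T2 n hn (Pc n))
          simp only [star_mul, T0, J.sa] at e3
          rw [← mul_assoc (v n), ← mul_assoc, T2 n hn (Pc n), ← mul_assoc (ρ _), e3, mul_assoc]
        · rw [T2 n hn (Ps n), e2 (Ps n), ← map_mul, ← mul_add, ← map_add]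
          congr 2
          ext t
          simpa [s, z, x, d, mul_comm] using (l_rel (k := n) (x := f 0 t) (y := f 1 t) M0).2
        · rw [← map_mul, ← map_neg]
          congr 1
          ext t
          simp [c, d, mul_sub, (l_rel (k := n) (x := f 0 t) (y := f 1 t) M0).1]
        · rw [← map_mul, ← map_mul, mul_comm]
      refine ⟨rot (v n) (ρ (c n)) (ρ (s n)) * W, mul_mem (rot_unitary cc cs ?_ ?_) w1,
        fun y y1 y2 y3 => Commute.mul_left ?_ (w2 y y1 y2 y3), by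
          rw [mul_assoc, w3, ← mul_assoc, e1, mul_assoc]⟩
      · rw [← map_mul, ← map_mul, mul_comm]
      · rw [← map_mul, ← map_mul, ← map_add, ← map_add, ← map_neg]
        congr 1
        ext t
        have q1 := Real.mul_self_sqrt (cl_nonneg (M ^ 2 * ll M n (f 0 t) (f 1 t) - 2))
        have q2 := Real.mul_self_sqrt
          (sub_nonneg.2 (cl_le_one (M ^ 2 * ll M n (f 0 t) (f 1 t) - 2)))
        simp only [c, s, ls, ContinuousMap.add_apply, ContinuousMap.mul_apply, ContinuousMap.coe_mk,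
          ContinuousMap.neg_apply]
        linear_combination q1 + q2
      · have y4 := hz y (by simp [Fin.forall_fin_two, y1, y2])
        obtain ⟨y5, y6⟩ := y3 n hn
        exact (Commute.one_left _).add_left ((((y4 _).add_left ((y5.mul_left (y4 _)).mul_left y6)
          ).add_left (y5.mul_left (y4 _))).sub_left ((y4 _).mul_left y6))
  obtain ⟨W, w1, w2, w3⟩ := key M le_rfl
  refine ⟨W, w1, w2, ?_⟩
  have n1 : ‖∑ k ∈ Finset.range M, v k * ρ (z k) * star (v k)‖ ≤ 4 / M :=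
    norm_orth_sum _ _ _ (fun k hk => k1 (Pz k) k (Finset.mem_range.1 hk))
      (fun k hk l hl => k2 (Pz l) k (Finset.mem_range.1 hk) l (Finset.mem_range.1 hl))
      (by positivity) fun k hk => J.norm _ _ (by positivity) fun t =>
        lz_le M0 (p0 t) (p1 t) (by exact_mod_cast Finset.mem_range.1 hk)
  have n2 : ‖∑ k ∈ Finset.range M, v k * ρ (d k) * star (v k)‖ ≤ 1 / M :=
    norm_orth_sum _ _ _ (fun k hk => k1 (Pd k) k (Finset.mem_range.1 hk))
      (fun k hk l hl => k2 (Pd l) k (Finset.mem_range.1 hk) l (Finset.mem_range.1 hl))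
      (by positivity) fun k hk => J.norm _ _ (by positivity) fun t => by
        have := ld_le (k := k) M0 (p1 t)
        exact (abs_of_nonneg this.1).trans_le (this.2.1.trans (ll_le M0 (p1 t)).2.2)
  have n3 : ‖ρ (x M) - b‖ ≤ 3 / M := by
    rw [← fb, ← map_sub]
    refine J.norm _ _ (by positivity) fun t => ?_
    have q1 := lx_mem M0 (p0 t) (p1 t) M
    have q2 : (M : ℝ) * (3 / M ^ 2) = 3 / M := by field_simp
    have q3 : 0 < 3 / (M : ℝ) := by positivity
    rw [lc, div_self M0.ne', min_eq_left (p2 t), max_eq_right (p1 t), q2] at q1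
    change |lx M M (f 0 t) (f 1 t) - f 1 t| ≤ _
    rw [abs_le]
    constructor <;> linarith [q1.1, q1.2]
  simp only [T, Finset.range_zero, Finset.sum_empty, add_zero, Finset.sum_sub_distrib] at w3
  generalize ∑ k ∈ Finset.range M, v k * ρ (z k) * star (v k) = Y at n1 w3
  generalize ∑ k ∈ Finset.range M, v k * ρ (d k) * star (v k) = Y' at n2 w3
  have e1 : W * a - b * W = (ρ (x M) - b + Y - Y') * W - W * Y := by
    rw [ex]
    simp only [mul_add, add_mul, sub_mul, sub_self, mul_zero] at w3 ⊢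
    linear_combination (norm := abel1) w3
  rw [e1]
  refine (norm_sub_le _ _).trans ?_
  rw [CStarRing.norm_mul_mem_unitary _ w1, CStarRing.norm_mem_unitary_mul _ w1]
  have n4 := norm_sub_le (ρ (x M) - b + Y) Y'
  have n5 := norm_add_le (ρ (x M) - b) Y
  have n6 : (12 : ℝ) / M = 3 / M + 4 / M + 1 / M + 4 / M := by ring
  linarith

end Pool.Agent.Lib.MP_30b5b4_an
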