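import Pool.Agent.Lib.MP_30b5b4_an.Z1

/-! Pushing colours along almost isometries; weights that need one colour only. -/

open scoped CStarAlgebra ComplexOrder Topology
open Filter

set_option linter.unusedSectionVars false
set_option linter.style.haveILetI false
set_option linter.unusedSimpArgs false

namespace Pool.Agent.Lib.MP_30b5b4_an

universe u
variable {A : Type u} [CStarAlgebra A] [PartialOrder A] [StarOrderedRing A]

lemma Gf_cases {η : ℝ} (hη : 0 < η) {s : ℝ} (hs : 0 ≤ s) :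
    s * Gf η s = 1 ∨ (s ≤ η ∧ 0 ≤ s * Gf η s ∧ s * Gf η s ≤ 1) := by
  rcases le_total s η with h | h
  · exact Or.inr ⟨h, mul_nonneg hs (Gf_nonneg hη), mul_Gf_le hη⟩
  · exact Or.inl (by rw [Gf, max_eq_left h, mul_inv_cancel₀ (hη.trans_le h).ne'])

lemma polar {X g : A} (g0 : 0 ≤ g) (h : g * g ≤ (2 : ℝ) • (star X * X)) :
    ∃ Z, star Z * Z = g * g ∧ Z * star Z ≤ (2 : ℝ) • (X * star X) ∧
      ‖Z - X‖ ≤ ‖g - sq (star X * X)‖ := by
  set p := sq (star X * X) with hp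
  have p0 : 0 ≤ p := sq_nonneg' _
  have p1 : p * p = star X * X := sq_mul_sq (star_mul_self_nonneg X)
  have n1 : ∀ y, ‖X * y‖ = ‖p * y‖ := fun y => by
    refine (mul_self_inj (norm_nonneg _) (norm_nonneg _)).1 ?_
    rw [← CStarRing.norm_star_mul_self, ← CStarRing.norm_star_mul_self, star_mul, star_mul,
      p0.star_eq, mul_assoc, mul_assoc, ← mul_assoc p, p1, mul_assoc]
  have n2 : ∀ y, ‖y * g‖ ≤ 2 * ‖y * p‖ := fun y => by
    have a1 := star_right_conjugate_le_conjugate h y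
    rw [← p1, mul_smul_comm, smul_mul_assoc] at a1
    have a2 := CStarAlgebra.norm_le_norm_of_nonneg_of_le
      (star_right_conjugate_nonneg (sq_nonneg_sa g0) y) a1
    have a3 : ∀ {z : A}, 0 ≤ z → y * (z * z) * star y = y * z * star (y * z) := fun hz => by
      rw [star_mul, hz.star_eq]; simp only [mul_assoc]
    rw [norm_smul, a3 g0, a3 p0, CStarRing.norm_self_mul_star, CStarRing.norm_self_mul_star,
      Real.norm_two] at a2
    exact abs_le_of_sq_le_sq' (by nlinarith [norm_nonneg (y * p)]) (by positivity) |>.2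
  have n3 : ∀ (k : ℝ → ℝ) (r : ℝ), Continuous k → 0 ≤ r → (∀ s, 0 ≤ s → |k s| ≤ r) →
      ‖cfc k p‖ ≤ r := fun k r _ hr hk =>
    norm_cfc_le hr fun s hs => hk s (spectrum_nonneg_of_nonneg p0 hs)
  let δ : ℕ → ℝ := fun n => 1 / ((n : ℝ) + 1)
  have δ0 : ∀ n, 0 < δ n := fun n => by positivity
  have δ1 : Tendsto δ atTop (𝓝 0) := tendsto_one_div_add_atTop_nhds_zero_nat
  have gc := fun n => Gf_cont (δ0 n)
  let f : ℕ → A := fun n => cfc (Gf (δ n)) p
  have f0 : ∀ n, star (f n) = f n := fun n => IsSelfAdjoint.cfc.star_eq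
  have f1 : ∀ n, p * f n = cfc (fun s => s * Gf (δ n) s) p := fun n =>
    id_mul_cfc (gc n) p0.isSelfAdjoint
  have f2 : ∀ n, ‖p * (f n * p - 1)‖ ≤ δ n := fun n => by
    have := gc n
    rw [cfc_mul_id (gc n) p0.isSelfAdjoint, ← cfc_const_one ℝ p, ← cfc_sub _ _ p,
      id_mul_cfc (by fun_prop) p0.isSelfAdjoint]
    refine n3 _ _ (by fun_prop) (δ0 n).le fun s hs => ?_
    rw [mul_comm _ s, abs_le]
    rcases Gf_cases (δ0 n) hs with h | h
    · rw [h]; simp [(δ0 n).le]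
    · constructor <;> nlinarith [h.1, h.2.1, h.2.2]
  have f3 : ∀ n, ‖p * f n‖ ≤ 1 := fun n => by
    have := gc n
    rw [f1]
    exact n3 _ _ (by fun_prop) zero_le_one fun s hs =>
      (abs_of_nonneg (mul_nonneg hs (Gf_nonneg (δ0 n)))).trans_le (mul_Gf_le (δ0 n))
  have f4 : ∀ n, f n * p = p * f n := fun n => (Commute.refl p).cfc_real _
  let Z : ℕ → A := fun n => X * f n * g
  have c1 : CauchySeq Z := by
    refine cauchySeq_of_le_tendsto_0 (fun n => 4 * δ n) (fun n m N hn hm => ?_)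
      (by simpa using δ1.const_mul 4)
    have a1 : δ n ≤ δ N := Nat.one_div_le_one_div hn
    have a2 : δ m ≤ δ N := Nat.one_div_le_one_div hm
    have a3 : p * (f n - f m) * p = p * (f n * p - 1) - p * (f m * p - 1) := by noncomm_ring
    rw [dist_eq_norm, ← sub_mul, ← mul_sub, mul_assoc, n1, ← mul_assoc]
    refine (n2 _).trans ?_
    rw [a3]
    linarith [norm_sub_le (p * (f n * p - 1)) (p * (f m * p - 1)), f2 n, f2 m]
  obtain ⟨Y, hY⟩ := cauchySeq_tendsto_of_complete c1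
  refine ⟨Y, ?_, ?_, ?_⟩
  · refine tendsto_nhds_unique (hY.star.mul hY) (tendsto_iff_norm_sub_tendsto_zero.2 ?_)
    refine squeeze_zero (fun _ => norm_nonneg _) (fun n => ?_)
      (by simpa using δ1.const_mul (‖g‖ * 4))
    have a1 : star (Z n) * Z n - g * g = g * ((f n * p + 1) * (f n * p - 1) * g) := by
      simp only [Z, star_mul, f0, g0.star_eq, mul_assoc]
      rw [← mul_assoc (star X), ← p1, mul_assoc p, ← mul_assoc p (f n), ← f4]
      noncomm_ring
    have a2 : (f n * p + 1) * (f n * p - 1) * p = (f n * p + 1) * (p * (f n * p - 1)) := by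
      rw [mul_assoc, sub_mul, mul_sub p, ← mul_assoc p, ← f4, one_mul, mul_one]
    have a3 : ‖f n * p + 1‖ ≤ 2 := by
      rw [f4]; linarith [norm_add_le (p * f n) 1, f3 n, norm_one_le' A]
    rw [a1, mul_assoc ‖g‖]
    refine (norm_mul_le _ _).trans (mul_le_mul_of_nonneg_left ((n2 _).trans ?_) (norm_nonneg _))
    rw [a2]
    have := (norm_mul_le _ _).trans (mul_le_mul a3 (f2 n) (norm_nonneg _) zero_le_two)
    linarith
  · refine le_of_tendsto' (hY.mul hY.star) fun n => ?_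
    have a1 := star_right_conjugate_le_conjugate h (X * f n)
    have a2 : star (p * f n) * (p * f n) ≤ 1 :=
      le_one_of_norm (star_mul_self_nonneg _) (by
        rw [CStarRing.norm_star_mul_self]; exact mul_le_one₀ (f3 n) (norm_nonneg _) (f3 n))
    have a3 := star_right_conjugate_le_conjugate a2 X
    rw [← p1, mul_smul_comm, smul_mul_assoc] at a1
    refine le_trans (le_of_eq ?_) (a1.trans (smul_le_smul_of_nonneg_left
      (le_trans (le_of_eq ?_) (a3.trans_eq (by rw [mul_one]))) zero_le_two))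
    · simp only [Z, star_mul, g0.star_eq, mul_assoc]
    · simp only [star_mul, p0.star_eq, f0, mul_assoc]
  · refine le_of_tendsto_of_tendsto' (hY.sub_const X).norm
      (by simpa using δ1.const_add ‖g - p‖) fun n => ?_
    have a1 : Z n - X = X * f n * (g - p) + X * (f n * p - 1) := by simp only [Z]; noncomm_ring
    rw [a1]
    refine (norm_add_le _ _).trans (add_le_add ((norm_mul_le _ _).trans ?_) (n1 _ ▸ f2 n))
    exact mul_le_of_le_one_left (norm_nonneg _) (n1 _ ▸ f3 n)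

lemma sa_le_of_norm {x : A} (hx : IsSelfAdjoint x) {r : ℝ} (h : ‖x‖ ≤ r) : x ≤ r • 1 := by
  refine hx.le_algebraMap_norm_self.trans ?_
  rw [Algebra.algebraMap_eq_smul_one]
  exact smul_le_smul_of_nonneg_right h zero_le_one

lemma CA.left (c : CA A) (Z : A) (h1 : ∀ x, Commute (star Z * Z) (c.φ x)) (h2 : ‖Z‖ ≤ 1) :
    ∃ d : CA A, d.φ 1 = Z * c.φ 1 * star Z ∧ d.φ 1 ≤ Z * star Z ∧
      ∀ a, d.T a = Z * c.T a * star Z := by
  have e1 : ∀ x, cj (star Z) c.φ x = Z * c.φ x * star Z := fun x => by rw [cj_apply, star_star]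
  have e2 : ∀ x y, Z * c.φ x * star Z * (Z * c.φ y * star Z) =
      Z * (star Z * Z) * (c.φ x * c.φ y) * star Z := fun x y => by
    simp only [mul_assoc]
    rw [← mul_assoc (star Z) Z, ← mul_assoc (c.φ x), ← (h1 x).eq]
    simp only [mul_assoc]
  have e3 : Z * c.φ 1 * star Z ≤ Z * star Z :=
    (star_right_conjugate_le_conjugate c.one Z).trans_eq (by rw [mul_one])
  refine ⟨{ c with
    φ := cj (star Z) c.φ
    oz := ⟨c.oz.cp.cj _, fun x y => by simp only [e1, e2, c.oz.mul x]⟩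
    one := (e1 1).trans_le (e3.trans (le_one_of_norm (mul_star_self_nonneg Z) (by
      rw [CStarRing.norm_self_mul_star]; exact mul_le_one₀ h2 (norm_nonneg _) h2)))
    mem := fun _ => ⟨_, rfl⟩ }, e1 1, (e1 1).trans_le e3, fun a => e1 _⟩

lemma CA.push (c : CA A) (w : A) {u H : ℝ → ℝ} (hu : Continuous u) (hH : Continuous H)
    (h1 : ∀ t, u t * H t = H t) (H0 : ∀ t, 0 ≤ H t) (H1 : ∀ t, H t ≤ 1) :
    ∃ (d : CA A) (Z : A), ‖Z‖ ≤ 1 ∧ d.φ 1 = Z * c.φ 1 * star Z ∧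
      d.φ 1 ≤ (2 : ℝ) • (w * star w) ∧ (∀ a, d.T a = Z * c.T a * star Z) ∧
      (‖cfc u (c.φ 1) * (1 - star w * w) * cfc u (c.φ 1)‖ ≤ 1 / 2 →
        ‖Z - w * cfc H (c.φ 1)‖ ≤ ‖cfc H (c.φ 1) -
          sq (star (w * cfc H (c.φ 1)) * (w * cfc H (c.φ 1)))‖) := by
  set g := cfc H (c.φ 1) with hg
  set y := cfc u (c.φ 1) with hy
  have g0 : 0 ≤ g := cfc_nonneg fun t _ => H0 t
  have g1 : ‖g‖ ≤ 1 := norm_cfc_le zero_le_one fun t _ => (abs_of_nonneg (H0 t)).trans_le (H1 t)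
  have g2 : g * g ≤ 1 := le_one_of_norm (sq_nonneg_sa g0)
    ((norm_mul_le _ _).trans (mul_le_one₀ g1 (norm_nonneg _) g1))
  by_cases h : ‖y * (1 - star w * w) * y‖ ≤ 1 / 2
  · have y0 : star y = y := IsSelfAdjoint.cfc.star_eq
    have y1 : y * g = g := by rw [hy, hg, cfc_mul' hu hH]; simp only [h1]
    have y2 : g * y = g := by rw [← g0.star_eq, ← y0, ← star_mul, y1]
    have a1 := star_left_conjugate_le_conjugate (sa_le_of_norm
      (x := y * (1 - star w * w) * y) (by simp [IsSelfAdjoint, y0, mul_assoc]) h) g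
    obtain ⟨Z, z1, z2, z3⟩ := polar (X := w * g) g0 (by
      rw [g0.star_eq, ← mul_assoc, ← mul_assoc, y2, mul_assoc, mul_assoc, y1, sub_mul, mul_sub,
        one_mul, mul_smul_comm, smul_mul_assoc, mul_one] at a1
      have := smul_le_smul_of_nonneg_left a1 (zero_le_two (α := ℝ))
      rw [smul_smul, smul_sub, sub_le_comm, two_smul] at this
      simpa [g0.star_eq, mul_assoc] using this)
    have z4 : ‖Z‖ ≤ 1 := norm_le_of_star_mul_le zero_le_one (by simpa [z1] using g2)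
    obtain ⟨d, d1, d2, d3⟩ := c.left Z (fun x => by
      have := (c.oz.commute x).cfc_real H
      rw [z1]; exact this.mul_left this) z4
    refine ⟨d, Z, z4, d1, d2.trans (z2.trans (smul_le_smul_of_nonneg_left ?_ zero_le_two)), d3,
      fun _ => z3⟩
    simpa [g0.star_eq, mul_assoc] using star_right_conjugate_le_conjugate g2 w
  · obtain ⟨d, d1, d2, d3⟩ := c.left 0 (by simp) (by simp)
    exact ⟨d, 0, by simp, d1, d2.trans (by
      simpa using smul_nonneg (zero_le_two (α := ℝ)) (mul_star_self_nonneg w)), d3,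
      fun h' => (h h').elim⟩

lemma upush (d : ℕ → CA A) (w : BA A) {u H : ℝ → ℝ} (hu : Continuous u) (hH : Continuous H)
    (h1 : ∀ t, u t * H t = H t) (H0 : ∀ t, 0 ≤ H t) (H1 : ∀ t, H t ≤ 1)
    (h : cfc u (uφ d 1) * (1 - star (Ult.mk w) * Ult.mk w) * cfc u (uφ d 1) = 0) :
    ∃ d' : ℕ → CA A, (∀ k, (d' k).φ 1 ≤ (2 : ℝ) • (Bdd.ev k w * star (Bdd.ev k w))) ∧
      uφ d' 1 = Ult.mk w * (cfc H (uφ d 1) * uφ d 1 * cfc H (uφ d 1)) * star (Ult.mk w) ∧
      ∀ x, uT d' x = Ult.mk w * (cfc H (uφ d 1) * uT d x * cfc H (uφ d 1)) * star (Ult.mk w) := by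
  choose d' Z z1 z2 z3 z4 z5 using fun k => (d k).push (Bdd.ev k w) hu hH h1 H0 H1
  have b0 : IsSelfAdjoint (bl d) := Bdd.isSelfAdjoint fun k =>
    (d k).oz.cp.one_nonneg.isSelfAdjoint
  have b1 : ∀ {f : ℝ → ℝ}, Continuous f → cfc f (uφ d 1) = Ult.mk (cfc f (bl d)) := fun hf => by
    rw [uφ_one_eq, hom_cfc _ hf b0]
  have b2 : ∀ {f : ℝ → ℝ}, Continuous f → ∀ k, Bdd.ev k (cfc f (bl d)) = cfc f ((d k).φ 1) :=
    fun hf k => hom_cfc _ hf b0
  let Z' : BA A := Bdd.of Z 1 z1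
  have g0 : star (cfc H (uφ d 1)) = cfc H (uφ d 1) := IsSelfAdjoint.cfc.star_eq
  have e0 : star (Ult.mk w * cfc H (uφ d 1)) * (Ult.mk w * cfc H (uφ d 1)) =
      cfc H (uφ d 1) ^ (2 * 1) := by
    have y1 : cfc u (uφ d 1) * cfc H (uφ d 1) = cfc H (uφ d 1) := by
      rw [cfc_mul' hu hH]; simp only [h1]
    have y2 : cfc H (uφ d 1) * cfc u (uφ d 1) = cfc H (uφ d 1) := by
      rw [cfc_mul' hH hu]; simp only [mul_comm (H _), h1]
    have := congrArg (fun y => cfc H (uφ d 1) * y * cfc H (uφ d 1)) h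
    simp only [← mul_assoc, y2] at this
    rw [mul_assoc, mul_assoc, y1, mul_zero, zero_mul, sub_mul, mul_sub, one_mul, sub_eq_zero] at this
    rw [mul_one, pow_two, this, star_mul, g0]
    simp only [mul_assoc]
  have e1 : Ult.mk Z' = Ult.mk w * cfc H (uφ d 1) := by
    have a1 : Ult.mk (cfc H (bl d) - sq (star (w * cfc H (bl d)) * (w * cfc H (bl d)))) = 0 := by
      rw [map_sub, hom_sq _ (star_mul_self_nonneg _), map_mul, map_star, map_mul, ← b1 hH, e0,
        sq_pow (cfc_nonneg fun t _ => H0 t), pow_one, sub_self]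
    have a2 := Ult.tendsto_norm
      (cfc H (bl d) - sq (star (w * cfc H (bl d)) * (w * cfc H (bl d))))
    rw [a1, norm_zero] at a2
    rw [b1 hu, ← map_star, ← map_mul, ← map_one Ult.mk, ← map_sub, ← map_mul, ← map_mul] at h
    rw [b1 hH, ← map_mul, ← sub_eq_zero, ← map_sub]
    refine Ult.mk_eq_zero (squeeze_zero' (Eventually.of_forall fun _ => norm_nonneg _) ?_ a2)
    filter_upwards [Ult.eventually_lt (r := 1 / 2) (by rw [h]; norm_num)] with k hk
    rw [map_sub _ (cfc H (bl d)), hom_sq _ (star_mul_self_nonneg _)]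
    simp only [map_sub, map_mul, map_star, map_one, b2 hu, b2 hH] at hk ⊢
    exact z5 k hk.le
  have e2 : ∀ y, Ult.mk w * (cfc H (uφ d 1) * y * cfc H (uφ d 1)) * star (Ult.mk w) =
      Ult.mk Z' * y * star (Ult.mk Z') := fun y => by
    rw [e1, star_mul, g0]; simp only [mul_assoc]
  refine ⟨d', z3, ?_, fun x => ?_⟩
  · rw [e2, uφ_one_eq, uφ_one_eq, ← map_star, ← map_mul, ← map_mul]
    exact congrArg _ (Bdd.ext fun k => by simpa [Z', map_star] using z2 k)
  · obtain ⟨x, rfl⟩ := Ult.surj x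
    rw [e2, uT_mk, uT_mk, ← map_star, ← map_mul, ← map_mul]
    exact congrArg _ (Bdd.ext fun k => by simpa [Z', map_star] using z4 k _)

lemma uT_le (d : ℕ → CA A) (x : UA A) : ‖uT d x‖ ≤ ‖x‖ :=
  ((uφ_spec d).2.1 _).trans ((uψ_spec d).2.1 _)

lemma Hf_cut (d : ℕ → CA A) {η : ℝ} (hη : 0 < η) (x : UA A) :
    ‖cfc (Hf η) (uφ d 1) * uT d x * cfc (Hf η) (uφ d 1) - uT d x‖ ≤ 2 * η * ‖x‖ := by
  set H := cfc (Hf η) (uφ d 1)
  have H0 : star H = H := IsSelfAdjoint.cfc.star_eq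
  have H1 : ‖H‖ ≤ 1 := norm_cfc_le zero_le_one fun t _ =>
    (abs_of_nonneg (Hf_nonneg hη)).trans_le (Hf_le hη)
  have a1 : ∀ x, ‖uT d x * (H - 1)‖ ≤ η * ‖x‖ := fun x =>
    ((uφ_oz d).norm_mul_le _ _).trans (mul_le_mul (norm_Hf hη (uφ_oz d).cp.one_nonneg)
      ((uψ_spec d).2.1 x) (norm_nonneg _) hη.le)
  have a2 := a1 (star x)
  rw [← norm_star, star_mul, (uT_cp d).map_star, star_star, star_sub, H0, star_one, norm_star] at a2
  have a3 : H * uT d x * H - uT d x = H * (uT d x * (H - 1)) + (H - 1) * uT d x := by noncomm_ring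
  have a4 := (norm_mul_le _ _).trans (mul_le_mul H1 (a1 x) (norm_nonneg _) zero_le_one)
  rw [a3]
  linarith [norm_add_le (H * (uT d x * (H - 1))) ((H - 1) * uT d x)]

lemma cl_Hf {η : ℝ} (hη : 0 < η) (t : ℝ) : cl (2 / η * t - 1) * Hf η t = Hf η t := by
  rcases le_total t η with h | h
  · rw [Hf, Gf, max_eq_right h, mul_inv_cancel₀ hη.ne', sub_self, mul_zero]
  · rw [cl_of_one_le, one_mul]
    rw [le_sub_iff_add_le, div_mul_eq_mul_div, le_div_iff₀ hη]
    linarith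

/-- multiplication by `g` on the set `F` needs one colour only -/
def URep (F : Set (UA A)) (g : UA A) : Prop :=
  ∀ η : ℝ, 0 < η → ∃ (d : ℕ → CA A) (C : ℝ), uφ d 1 ≤ C • g ∧ ∀ a ∈ F, ‖uT d a - g * a‖ ≤ η

variable {F : Set (UA A)}

lemma Colour.exists_add' {J : Type*} [NonUnitalCStarAlgebra J] {j : J →⋆ₙₐ[ℂ] A} (c d : Colour j)
    (h : c.φ 1 * d.φ 1 = 0) :
    ∃ e : Colour j, e.φ 1 = c.φ 1 + d.φ 1 ∧ ∀ a, e.T a = c.T a + d.T a := by
  have h1 : ∀ x y, c.φ x * d.φ y = 0 := fun x y =>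
    c.oz.mul_right_eq_zero (d.oz.mul_left_eq_zero h y) x
  have h' := mul_eq_zero_comm_sa c.oz.cp.one_nonneg.isSelfAdjoint d.oz.cp.one_nonneg.isSelfAdjoint h
  have h2 : ∀ x y, d.φ x * c.φ y = 0 := fun x y =>
    d.oz.mul_right_eq_zero (c.oz.mul_left_eq_zero h' y) x
  refine ⟨{ F := c.F × d.F
            ψ := c.ψ.prod d.ψ
            φ := c.φ.coprod d.φ
            cp := fun n a b => ?_
            le := fun a => ?_
            oz := ⟨?_, fun x y => ?_⟩
            one := ?_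
            mem := fun x => ?_ }, rfl, fun a => rfl⟩
  · refine ⟨?_, ?_⟩
    · simpa [Prod.fst_sum] using c.cp n a fun i => (b i).1
    · simpa [Prod.snd_sum] using d.cp n a fun i => (b i).2
  · exact max_le (c.le a) (d.le a)
  · exact ((c.oz.cp.comp_half (ψ := c.φ ∘ₗ LinearMap.fst ℂ _ _) Prod.fst fun _ _ => rfl).add
      (d.oz.cp.comp_half (ψ := d.φ ∘ₗ LinearMap.snd ℂ _ _) Prod.snd fun _ _ => rfl)).of_eq
      fun _ => rfl
  · simp only [LinearMap.coprod_apply, mul_add, add_mul, h1, h2, c.oz.mul x.1, d.oz.mul x.2,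
      Prod.fst_mul, Prod.snd_mul, Prod.fst_one, Prod.snd_one]
  · refine le_one_of_norm (add_nonneg c.oz.cp.one_nonneg d.oz.cp.one_nonneg) ?_
    exact add_le_of_orth c.oz.cp.one_nonneg d.oz.cp.one_nonneg h
      (norm_le_one_of c.oz.cp.one_nonneg c.one) (norm_le_one_of d.oz.cp.one_nonneg d.one)
  · obtain ⟨b, hb⟩ := c.mem x.1
    obtain ⟨b', hb'⟩ := d.mem x.2
    exact ⟨b + b', by rw [map_add, hb, hb']; rfl⟩

lemma URep.zero : URep F 0 := fun η hη => by
  have e : ∀ x, uφ (fun _ => (Colour.zero _ : CA A)) x = 0 := fun x => by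
    obtain ⟨x, rfl⟩ := Ult.surj x
    rw [(uφ_spec _).2.2, ← map_zero Ult.mk]
    exact congrArg _ (Bdd.ext fun k => rfl)
  exact ⟨fun _ => Colour.zero _, 0, by simp [e], fun a _ => by simpa [uT_apply, e] using hη.le⟩

lemma upush_self (d : ℕ → CA A) (w : BA A) {η : ℝ} (hη : 0 < η)
    (hw : Ult.mk w = cfc (fun t => cl (2 / η * t)) (uφ d 1)) :
    ∃ d' : ℕ → CA A, (∀ k, (d' k).φ 1 ≤ (2 : ℝ) • (Bdd.ev k w * star (Bdd.ev k w))) ∧
      uφ d' 1 ≤ uφ d 1 ∧ ∀ x, ‖uT d' x - uT d x‖ ≤ 2 * η * ‖x‖ := by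
  have g1 := Hf_cont hη
  have i0 := (uφ_oz d).cp.one_nonneg
  have e0 : ∀ t, cl (2 / η * t - 1) * cl (2 / η * t) = cl (2 / η * t - 1) := fun t => by
    rcases le_total (2 / η * t) 1 with h | h
    · rw [cl_of_nonpos (by linarith), zero_mul]
    · rw [cl_of_one_le h, mul_one]
  have e1 : Ult.mk w * cfc (Hf η) (uφ d 1) = cfc (Hf η) (uφ d 1) := by
    rw [hw, cfc_mul' (by fun_prop) g1]
    congr 1
    funext t
    rw [← cl_Hf hη, ← mul_assoc, mul_comm (cl _), e0]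
  have e2 : ∀ y, Ult.mk w * (cfc (Hf η) (uφ d 1) * y * cfc (Hf η) (uφ d 1)) * star (Ult.mk w) =
      cfc (Hf η) (uφ d 1) * y * cfc (Hf η) (uφ d 1) := fun y => by
    have := congrArg star e1
    rw [star_mul, IsSelfAdjoint.cfc.star_eq] at this
    rw [← mul_assoc, ← mul_assoc, e1, mul_assoc, this]
  obtain ⟨d', d1, d2, d3⟩ := upush d w (u := fun t => cl (2 / η * t - 1)) (by fun_prop) g1
    (cl_Hf hη) (fun _ => Hf_nonneg hη) (fun _ => Hf_le hη) (by
      rw [hw, IsSelfAdjoint.cfc.star_eq, mul_sub, ← mul_assoc, cfc_mul' (by fun_prop) (by fun_prop),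
        cfc_mul' (by fun_prop) (by fun_prop)]
      simp only [e0, mul_one, sub_self, zero_mul])
  refine ⟨d', d1, ?_, fun x => by rw [d3, e2]; exact Hf_cut d hη x⟩
  rw [d2, e2, cfc_mul_id g1 i0.isSelfAdjoint, cfc_mul' (by fun_prop) g1]
  conv_rhs => rw [← cfc_id' ℝ (uφ d 1)]
  refine cfc_mono (fun t ht => ?_) (by fun_prop) (by fun_prop)
  have h0 := spectrum_nonneg_of_nonneg i0 ht
  have h1 := Hf_nonneg (s := t) hη
  have h2 := Hf_le (s := t) hη
  nlinarith [mul_nonneg h0 h1, mul_le_mul_of_nonneg_left h2 (mul_nonneg h1 h0)]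

lemma URep.add (hF : ∀ a ∈ F, ‖a‖ ≤ 1) {g g' : UA A} (h : URep F g) (h' : URep F g') (g0 : 0 ≤ g)
    (g0' : 0 ≤ g') (hg : g * g' = 0) : URep F (g + g') := by
  intro η hη
  set δ := η / 6 with hδ
  have δ0 : 0 < δ := by positivity
  obtain ⟨d, C, d1, d2⟩ := h δ δ0
  obtain ⟨d', C', d1', d2'⟩ := h' δ δ0
  have i0 := (uφ_oz d).cp.one_nonneg
  have i0' := (uφ_oz d').cp.one_nonneg
  have o1 : uφ d 1 * uφ d' 1 = 0 := mul_eq_zero_of_le_of_le i0 d1 i0' d1' (by
    rw [smul_mul_smul_comm, hg, smul_zero])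
  let G : ℝ → ℝ := fun t => cl (2 / δ * t)
  have G0 : G 0 = 0 := cl_of_nonpos (by simp)
  have G1 : Continuous G := by fun_prop
  have G2 : ∀ x : UA A, 0 ≤ cfc G x := fun x => cfc_nonneg fun t _ => cl_nonneg _
  have o2 : cfc G (uφ d 1) * cfc G (uφ d' 1) = 0 :=
    cfc_mul_eq_zero i0.isSelfAdjoint (mul_cfc_eq_zero i0'.isSelfAdjoint o1 G1 G0) G1 G0
  obtain ⟨b, b1, b2⟩ := exists_orth_lift (Ult.mk (A := fun _ => A))
    ![cfc G (uφ d 1), cfc G (uφ d' 1)] Finset.univ ⊤ (by simp) (by simp [Fin.forall_fin_two, G2])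
    (fun i _ => (Ult.surj _).imp fun x hx => ⟨trivial, hx⟩) (by
      simp [Fin.forall_fin_two, o2,
        mul_eq_zero_comm_sa (G2 _).isSelfAdjoint (G2 _).isSelfAdjoint o2])
  obtain ⟨e, e1, e2, e3⟩ := upush_self d (b 0) δ0 (b1 0 (by simp)).2.2
  obtain ⟨e', e1', e2', e3'⟩ := upush_self d' (b 1) δ0 (b1 1 (by simp)).2.2
  choose c c1 c2 using fun k => (e k).exists_add' (e' k) (mul_eq_zero_of_le_of_le
    (e k).oz.cp.one_nonneg (e1 k) (e' k).oz.cp.one_nonneg (e1' k) (by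
      rw [smul_mul_smul_comm, ← map_star, (b1 0 (by simp)).2.1.star_eq, mul_assoc,
        ← mul_assoc _ (Bdd.ev k (b 1)), ← map_mul, b2 0 (by simp) 1 (by simp) (by simp)]
      simp))
  refine ⟨c, max C C', ?_, fun a ha => ?_⟩
  · have : uφ c 1 = uφ e 1 + uφ e' 1 := by
      simp only [uφ_one_eq, ← map_add]
      exact congrArg _ (Bdd.ext fun k => by simpa using c1 k)
    rw [this, smul_add]
    exact add_le_add (e2.trans (d1.trans (smul_le_smul_of_nonneg_right (le_max_left _ _) g0)))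
      (e2'.trans (d1'.trans (smul_le_smul_of_nonneg_right (le_max_right _ _) g0')))
  · have a1 : uT c a = uT e a + uT e' a := by
      obtain ⟨x, rfl⟩ := Ult.surj a
      simp only [uT_mk, ← map_add]
      exact congrArg _ (Bdd.ext fun k => by simpa using c2 k _)
    have a2 : uT c a - (g + g') * a = (uT e a - uT d a) + (uT d a - g * a) +
      ((uT e' a - uT d' a) + (uT d' a - g' * a)) := by rw [a1, add_mul]; abel
    have a3 := mul_le_of_le_one_right (by positivity : 0 ≤ 2 * δ) (hF a ha)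
    rw [a2]
    refine (norm_add_le_of_le (norm_add_le_of_le ((e3 a).trans a3) (d2 a ha))
      (norm_add_le_of_le ((e3' a).trans a3) (d2' a ha))).trans (le_of_eq ?_)
    rw [hδ]; ring

lemma URep.sum (hF : ∀ a ∈ F, ‖a‖ ≤ 1) {ι : Type*} (s : Finset ι) (g : ι → UA A)
    (h : ∀ i ∈ s, URep F (g i)) (g0 : ∀ i ∈ s, 0 ≤ g i)
    (hg : ∀ i ∈ s, ∀ k ∈ s, i ≠ k → g i * g k = 0) : URep F (∑ i ∈ s, g i) := by
  classical
  induction s using Finset.induction_on with
  | empty => exact URep.zero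
  | insert i s hi ih =>
    rw [Finset.sum_insert hi]
    refine URep.add hF (h i (by simp)) (ih (fun k hk => h k (by simp [hk]))
      (fun k hk => g0 k (by simp [hk])) fun k hk l hl => hg k (by simp [hk]) l (by simp [hl]))
      (g0 i (by simp)) (Finset.sum_nonneg fun k hk => g0 k (by simp [hk])) ?_
    rw [Finset.mul_sum]
    exact Finset.sum_eq_zero fun k hk => hg i (by simp) k (by simp [hk]) (by rintro rfl; exact hi hk)

lemma URep.finish {E D : Type*} [NonUnitalCStarAlgebra E] [PartialOrder E] [StarOrderedRing E]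
    [CStarAlgebra D] [PartialOrder D] [StarOrderedRing D] {j : E →⋆ₙₐ[ℂ] A} (π : A →⋆ₐ[ℂ] D)
    (hπ : ∀ a, π a = 0 ↔ ∃ b, j b = a) (hF : ∀ a ∈ F, ‖a‖ ≤ 1) {g : UA A} (h : URep F g)
    {w : BA A} (hw : w ∈ Lf j) (w1 : ‖Ult.mk w‖ ≤ 1)
    (hg : g * (1 - star (Ult.mk w) * Ult.mk w) = 0) {η : ℝ} (hη : 0 < η) :
    ∃ d : ℕ → Colour j, ∀ a, dg (j a) ∈ F →
      ‖sT d a - Ult.mk w * (g * dg (j a)) * star (Ult.mk w)‖ ≤ 3 * η := by
  obtain ⟨d, C, d1, d2⟩ := h η hη
  have i0 := (uφ_oz d).cp.one_nonneg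
  obtain ⟨e, e1, -, e3⟩ := upush d w (u := fun t => cl (2 / η * t - 1)) (by fun_prop) (Hf_cont hη)
    (cl_Hf hη) (fun _ => Hf_nonneg hη) (fun _ => Hf_le hη) (by
      rw [cfc_mul_eq_zero (f := fun t => cl (2 / η * t - 1)) i0.isSelfAdjoint
        (mul_eq_zero_of_le i0 d1 (by rw [smul_mul_assoc, hg, smul_zero])) (by fun_prop)
        (cl_of_nonpos (by simp)), zero_mul])
  have m1 : ∀ k x, ∃ b, j b = (e k).φ x := fun k x => by
    have a1 := hom_mono π (e1 k)
    rw [hom_real_smul, map_mul, (hπ _).2 (hw k), zero_mul, smul_zero] at a1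
    have a2 := ((e k).oz.map π (ψ := lin π ∘ₗ (e k).φ) fun _ => rfl).mul_right_eq_zero (w := 1) (by
      rw [mul_one]; exact le_antisymm a1 (hom_nonneg π (e k).oz.cp.one_nonneg)) x
    exact (hπ _).1 (by simpa using a2)
  let c : ℕ → Colour j := fun k =>
    { e k with
      ψ := (e k).ψ ∘ₗ (j : E →ₗ[ℂ] A)
      cp := (e k).cp.comp_hom j fun _ => rfl
      le := fun a => ((e k).le _).trans (NonUnitalStarAlgHom.norm_apply_le j a)
      mem := m1 k }
  refine ⟨c, fun a ha => ?_⟩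
  have a1 : sT c a = uT e (dg (j a)) := by
    rw [dg_apply, uT_mk, sT]
    exact congrArg _ (Bdd.ext fun k => rfl)
  have a2 := (Hf_cut d hη (dg (j a))).trans (mul_le_of_le_one_right (by positivity) (hF _ ha))
  have a3 := norm_add_le_of_le a2 (d2 _ ha)
  rw [sub_add_sub_cancel] at a3
  rw [a1, e3, ← sub_mul, ← mul_sub]
  refine norm_mul₃_le.trans ?_
  rw [norm_star]
  calc _ ≤ 1 * (2 * η + η) * 1 := by gcongr
    _ = _ := by ring

end Pool.Agent.Lib.MP_30b5b4_an
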