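import Pool.Agent.Lib.MP_30b5b4_an.Z2
import Pool.Agent.Lib.MP_30b5b4_an.RR5

/-! Pieces of one colour of an approximation. -/

open scoped CStarAlgebra ComplexOrder Topology
open Filter

set_option linter.unusedSectionVars false
set_option linter.style.haveILetI false
set_option linter.unusedSimpArgs false

namespace Pool.Agent.Lib.MP_30b5b4_an

universe u
variable {A : Type u} [CStarAlgebra A] [PartialOrder A] [StarOrderedRing A]

lemma CA.cut (c : CA A) {r : ℝ} (hr : 0 < r) :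
    ∃ d : CA A, d.φ 1 ≤ (r ^ 2)⁻¹ • c.T 1 ∧ ∀ a, ‖d.T a - c.T a‖ ≤ 2 * r * ‖a‖ := by
  classical
  let χ : ℝ → ℝ := fun s => if r ^ 2 ≤ s then 1 else 0
  have s0 : 0 ≤ c.ψ 1 := c.cp.one_nonneg
  have s1 : c.ψ 1 ≤ 1 := le_one_of_norm s0 ((c.le 1).trans (norm_one_le' _))
  have hq : IsStarProjection (cfc χ (c.ψ 1)) := fd_proj _ _ fun s => by
    simp only [χ]; split_ifs <;> simp
  set q := cfc χ (c.ψ 1) with hq'
  obtain ⟨d, d1, d2⟩ := c.corner hq
  refine ⟨d, ?_, fun a => ?_⟩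
  · rw [d1, Colour.T, ← Complex.coe_smul, ← map_smul, Complex.coe_smul]
    refine c.oz.cp.mono ?_
    conv_rhs => rw [← cfc_id' ℝ (c.ψ 1)]
    rw [← cfc_const_mul _ _ _ (fd_cont _ _)]
    refine cfc_mono (fun t ht => ?_) (fd_cont _ _) (fd_cont _ _)
    have := spectrum_nonneg_of_nonneg s0 ht
    simp only [χ]
    split_ifs with h
    · rwa [← div_eq_inv_mul, one_le_div (by positivity)]
    · positivity
  · have a0 : ‖(1 - q) * c.ψ 1 * (1 - q)‖ ≤ r ^ 2 := by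
      have : 1 - q = cfc (fun s => 1 - χ s) (c.ψ 1) := by
        rw [cfc_sub _ _ _ (fd_cont _ _) (fd_cont _ _), cfc_const_one ℝ (c.ψ 1)]
      rw [this]
      conv_lhs => enter [1, 1, 2]; rw [← cfc_id' ℝ (c.ψ 1)]
      rw [← cfc_mul _ _ _ (fd_cont _ _) (fd_cont _ _), ← cfc_mul _ _ _ (fd_cont _ _) (fd_cont _ _)]
      refine norm_cfc_le (by positivity) fun t ht => ?_
      have := spectrum_nonneg_of_nonneg s0 ht
      simp only [χ]
      split_ifs with h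
      · simp; positivity
      · simpa [abs_of_nonneg this] using (not_le.1 h).le
    have a1 : ∀ a, ‖c.ψ a * (1 - q)‖ ≤ r * ‖a‖ := fun a => by
      have b1 := star_left_conjugate_le_conjugate ((c.cp.ks s1 a).trans (c.cp.star_mul_le a)) (1 - q)
      have b2 := CStarAlgebra.norm_le_norm_of_nonneg_of_le
        (star_left_conjugate_nonneg (star_mul_self_nonneg _) _) b1
      rw [mul_smul_comm, smul_mul_assoc, norm_smul, ← mul_assoc, ← star_mul, mul_assoc,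
        CStarRing.norm_star_mul_self, hq.one_sub.isSelfAdjoint.star_eq,
        Real.norm_of_nonneg (by positivity)] at b2
      refine abs_le_of_sq_le_sq' ?_ (by positivity) |>.2
      nlinarith [mul_le_mul_of_nonneg_left a0 (sq_nonneg ‖a‖)]
    have a2 := a1 (star a)
    rw [← norm_star, star_mul, c.cp.map_star, star_star, hq.one_sub.isSelfAdjoint.star_eq,
      norm_star] at a2
    have a3 : c.ψ a - q * c.ψ a * q = q * (c.ψ a * (1 - q)) + (1 - q) * c.ψ a := by noncomm_ring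
    have a4 := (norm_mul_le _ _).trans (mul_le_mul hq.norm_le (a1 a) (norm_nonneg _) zero_le_one)
    rw [d2, Colour.T, ← map_sub, ← norm_neg, ← map_neg, neg_sub, a3]
    linarith [c.φ_le (q * (c.ψ a * (1 - q)) + (1 - q) * c.ψ a),
      norm_add_le (q * (c.ψ a * (1 - q))) ((1 - q) * c.ψ a)]

lemma ucut (c : ℕ → CA A) {r : ℝ} (hr : 0 < r) :
    ∃ d : ℕ → CA A, uφ d 1 ≤ (r ^ 2)⁻¹ • uT c 1 ∧ ∀ a, ‖uT d a - uT c a‖ ≤ 2 * r * ‖a‖ := by
  choose d d1 d2 using fun k => (c k).cut hr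
  refine ⟨d, ?_, fun a => ?_⟩
  · rw [uφ_one_eq, ← map_one Ult.mk, uT_mk, ← hom_real_smul]
    exact hom_mono _ (Bdd.le fun k => by simpa [hom_real_smul] using d1 k)
  · obtain ⟨x, rfl⟩ := Ult.surj a
    rw [uT_mk, uT_mk, ← map_sub]
    exact le_of_tendsto_of_tendsto' (Ult.tendsto_norm _) ((Ult.tendsto_norm x).const_mul _)
      fun k => by simpa using d2 k _

lemma CA.mod (c : CA A) {k f : ℝ → ℝ} (hk : Continuous k) (hf : Continuous f)
    (k0 : ∀ t, 0 ≤ k t) (k1 : ∀ t, k t * t ≤ 1) (f1 : ∀ t, f t * t * f t ≤ 1) {u : A}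
    (hu : ‖u‖ ≤ 1) : ∃ d : CA A, ∀ a, d.T a =
      cfc k (c.φ 1) * c.φ (cfc f (c.ψ 1) * c.ψ (star u * a * u) * cfc f (c.ψ 1)) := by
  have s0 : 0 ≤ c.ψ 1 := c.cp.one_nonneg
  let ψ := cj (cfc f (c.ψ 1)) (c.ψ ∘ₗ cj u LinearMap.id)
  have e1 : ∀ a, ψ a = cfc f (c.ψ 1) * c.ψ (star u * a * u) * cfc f (c.ψ 1) := fun a => by
    rw [cj_apply, IsSelfAdjoint.cfc.star_eq]; rfl
  have p1 : IsCP ψ := (c.cp.comp_half (· * u) fun a a' => by
    simp [cj_apply, mul_assoc]).cj _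
  refine ⟨{ c with
    ψ := ψ
    φ := LinearMap.mulLeft ℂ (cfc k (c.φ 1)) ∘ₗ c.φ
    cp := p1
    le := p1.norm_le ?_
    oz := c.oz.mulLeft (cfc_nonneg fun t _ => k0 t) (fun x => (c.oz.commute x).cfc_real k)
      fun _ => rfl
    one := ?_
    mem := fun _ => ⟨_, rfl⟩ }, fun a => congrArg (fun y => _ * c.φ y) (e1 a)⟩
  · have a1 : star u * 1 * u ≤ 1 := le_one_of_norm (star_left_conjugate_nonneg zero_le_one u) (by
      rw [mul_one, CStarRing.norm_star_mul_self]; exact mul_le_one₀ hu (norm_nonneg _) hu)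
    have a2 := star_left_conjugate_le_conjugate (c.cp.mono a1) (cfc f (c.ψ 1))
    rw [IsSelfAdjoint.cfc.star_eq, cfc_mul_id hf s0.isSelfAdjoint, cfc_mul' (by fun_prop) hf] at a2
    exact (e1 1).trans_le (a2.trans (cfc_le_one _ _ fun t _ => f1 t))
  · exact (cfc_mul_id hk c.oz.cp.one_nonneg.isSelfAdjoint).trans_le (cfc_le_one _ _ fun t _ => k1 t)

lemma umod (c : ℕ → CA A) {k f : ℝ → ℝ} (hk : Continuous k) (hf : Continuous f)
    (k0 : ∀ t, 0 ≤ k t) (k1 : ∀ t, k t * t ≤ 1) (f1 : ∀ t, f t * t * f t ≤ 1) {y : UA A}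
    (y0 : 0 ≤ y) (y1 : y ≤ 1) : ∃ d : ℕ → CA A, ∀ a, uT d a =
      cfc k (uφ c 1) * uφ c (cfc f (uψ c 1) * uψ c (sq y * a * sq y) * cfc f (uψ c 1)) := by
  obtain ⟨x, x0, rfl⟩ := Ult.sa_lift y0.isSelfAdjoint
  let u := cfc (fun t => √(cl t)) x
  have u0 : Ult.mk u = sq (Ult.mk x) := by
    rw [hom_cfc _ (by fun_prop) x0]
    refine cfc_congr fun t ht => ?_
    simp only [cl, min_eq_right (spec_mem y0 y1 ht).2, max_eq_right (spec_mem y0 y1 ht).1]
  have u1 : ‖u‖ ≤ 1 := norm_cfc_le zero_le_one fun t _ => (abs_of_nonneg (Real.sqrt_nonneg _)).trans_le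
    (Real.sqrt_le_one.2 (cl_le_one _))
  choose d hd using fun n => (c n).mod hk hf k0 k1 f1 ((Bdd.norm_ev_le n u).trans u1)
  refine ⟨d, fun a => ?_⟩
  obtain ⟨a, rfl⟩ := Ult.surj a
  have b0 : IsSelfAdjoint (bl c) := Bdd.isSelfAdjoint fun k =>
    (c k).oz.cp.one_nonneg.isSelfAdjoint
  have b1 : IsSelfAdjoint (Bdd.map (fun k => (c k).ψ) (fun k => (c k).le) 1) :=
    Bdd.isSelfAdjoint fun k => (c k).cp.one_nonneg.isSelfAdjoint
  have b2 : uψ c 1 = Ult.mk (Bdd.map (fun k => (c k).ψ) (fun k => (c k).le) 1) := (uψ_spec c).2.2 1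
  conv_rhs => enter [2, 2, 1, 2, 2, 1, 1]; rw [← sq_star]
  rw [uT_mk, uφ_one_eq, b2, ← u0, ← hom_cfc _ hk b0, ← hom_cfc _ hf b1, ← map_star, ← map_mul,
    ← map_mul, (uψ_spec c).2.2, ← map_mul, ← map_mul, (uφ_spec c).2.2, ← map_mul]
  refine congrArg _ (Bdd.ext fun n => ?_)
  simpa [hom_cfc _ hk b0, hom_cfc _ hf b1, map_star] using hd n _

section oz
variable {Q B : Type*} [CStarAlgebra Q] [CStarAlgebra B] [PartialOrder B] [StarOrderedRing B]
  {ρ : Q →ₗ[ℂ] B} {δ : ℝ} {α : ℝ → ℝ}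

lemma cfc_mem_cl {S : StarSubalgebra ℂ Q} (hS : IsClosed (S : Set Q)) (f : ℝ → ℝ) {a : Q}
    (ha : a ∈ S) : cfc f a ∈ S := cfc_mem (𝕜' := ℂ) f ha

lemma OZ.cfc_unit (h : OZ ρ) (hδ : 0 < δ) (hα : Continuous α) (α0 : ∀ t, t ≤ δ → α t = 0) :
    cfc α (ρ 1) * (cfc (Gf δ) (ρ 1) * ρ 1) = cfc α (ρ 1) := by
  have := Gf_cont hδ
  rw [cfc_mul_id this h.cp.one_nonneg.isSelfAdjoint, cfc_mul' hα (by fun_prop)]
  congr 1
  funext t
  rcases le_total t δ with h1 | h1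
  · rw [α0 t h1, zero_mul]
  · rw [Gf, max_eq_left h1, inv_mul_cancel₀ (hδ.trans_le h1).ne', mul_one]

lemma OZ.loc_mul (h : OZ ρ) (hδ : 0 < δ) (hα : Continuous α) (α0 : ∀ t, t ≤ δ → α t = 0) (x y : Q) :
    cfc α (ρ 1) * (cfc (Gf δ) (ρ 1) * ρ (x * y)) =
      cfc α (ρ 1) * (cfc (Gf δ) (ρ 1) * ρ x * (cfc (Gf δ) (ρ 1) * ρ y)) := by
  rw [mul_assoc _ (ρ x), ← mul_assoc (ρ x), ← ((h.commute x).cfc_real _).eq, mul_assoc _ (ρ x),
    h.mul, ← mul_assoc _ (ρ 1), ← mul_assoc (cfc (Gf δ) _),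
    ((Commute.refl _).mul_right ((Commute.refl (ρ 1)).cfc_real (Gf δ))).eq,
    mul_assoc _ (cfc (Gf δ) _),
    ← mul_assoc (cfc α _) (_ * ρ 1), h.cfc_unit hδ hα α0]

lemma OZ.loc_cfc (h : OZ ρ) (hδ : 0 < δ) (hα : Continuous α) (α0 : ∀ t, t ≤ δ → α t = 0) {x : Q}
    (hx : IsSelfAdjoint x) {f : ℝ → ℝ} (hf : Continuous f) :
    cfc α (ρ 1) * (cfc (Gf δ) (ρ 1) * ρ (cfc f x)) =
      cfc α (ρ 1) * cfc f (cfc (Gf δ) (ρ 1) * ρ x) := by
  have c1 : ∀ y, Commute (cfc α (ρ 1)) (cfc (Gf δ) (ρ 1) * ρ y) := fun y =>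
    (((Commute.refl _).cfc_real _).symm.cfc_real _).mul_right ((h.commute y).cfc_real _)
  have c2 : ∀ y, star (cfc (Gf δ) (ρ 1) * ρ y) = cfc (Gf δ) (ρ 1) * ρ (star y) := fun y => by
    rw [star_mul, IsSelfAdjoint.cfc.star_eq, ← h.cp.map_star, ((h.commute _).cfc_real _).eq]
  have c3 := h.cfc_unit hδ hα α0
  have c4 : star (cfc α (ρ 1)) = cfc α (ρ 1) := IsSelfAdjoint.cfc.star_eq
  have c5 := h.loc_mul hδ hα α0
  have c6 : Continuous ρ := AddMonoidHomClass.continuous_of_bound ρ (‖ρ 1‖ + 1)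
    (h.cp.norm_le' (by positivity) (by linarith))
  set a := cfc α (ρ 1)
  set G := cfc (Gf δ) (ρ 1)
  let S : StarSubalgebra ℂ (Q × B) :=
    { carrier := {p | a * (G * ρ p.1) = a * p.2 ∧ a * p.2 = p.2 * a}
      mul_mem' := fun {p q} hp hq => ⟨by
        rw [Prod.fst_mul, Prod.snd_mul, c5, ← mul_assoc, hp.1, hp.2, mul_assoc, hq.1, ← mul_assoc,
          ← hp.2, mul_assoc], Commute.mul_right hp.2 hq.2⟩
      add_mem' := fun {p q} hp hq => ⟨by
        rw [Prod.fst_add, Prod.snd_add, map_add, mul_add, mul_add, mul_add, hp.1, hq.1],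
        Commute.add_right hp.2 hq.2⟩
      algebraMap_mem' := fun r => ⟨by
        simp only [Algebra.algebraMap_eq_smul_one, Prod.smul_fst, Prod.smul_snd, map_smul,
          mul_smul_comm, Prod.fst_one, Prod.snd_one, c3, mul_one], (Algebra.commutes r a).symm⟩
      star_mem' := fun {p} hp => by
        have e1 : a * star p.2 = star p.2 * a := by
          rw [← c4, ← star_mul, ← star_mul, hp.2]
        refine ⟨?_, e1⟩
        rw [Prod.fst_star, Prod.snd_star, e1, ← c2, ← c4, ← star_mul, ← star_mul, ← (c1 _).eq,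
          hp.1] }
  have hS : IsClosed (S : Set (Q × B)) :=
    (isClosed_eq (f := fun p : Q × B => a * (G * ρ p.1)) (by fun_prop) (by fun_prop)).inter
      (isClosed_eq (f := fun p : Q × B => a * p.2) (by fun_prop) (by fun_prop))
  have p0 : IsSelfAdjoint (x, G * ρ x) := Prod.ext hx (by
    rw [Prod.snd_star, c2, hx.star_eq])
  have p1 := cfc_mem_cl hS f (show (x, G * ρ x) ∈ S from ⟨rfl, c1 x⟩)
  have p2 := hom_cfc (StarAlgHom.fst ℂ Q B) hf p0
  have p3 := hom_cfc (StarAlgHom.snd ℂ Q B) hf p0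
  have p4 := p1.1
  simp only [StarAlgHom.fst_apply, StarAlgHom.snd_apply] at p2 p3
  rwa [p2, p3] at p4

end oz

/-- `b` is a visible coefficient for the colour `d` -/
def Vis (d : ℕ → CA A) (b : UA A) : Prop := uT d b = uT d 1 * b ∧ uT d b = b * uT d 1

lemma Vis.commute {d : ℕ → CA A} {b : UA A} (h : Vis d b) (g : ℝ → ℝ) :
    Commute (cfc g (uφ d 1) * uT d 1) b := by
  have c1 : ∀ x, Commute (cfc g (uφ d 1)) (uT d x) := fun x => ((uφ_oz d).commute _).cfc_real g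
  change _ * _ = _ * _
  rw [mul_assoc, ← h.1, (c1 b).eq, h.2, mul_assoc, (c1 1).eq]

theorem piece {F : Set (UA A)} (hF : ∀ a ∈ F, ‖a‖ ≤ 1) (d : ℕ → CA A) {δ : ℝ} (hδ : 0 < δ)
    {α β : ℝ → ℝ} (hα : Continuous α) (hβ : Continuous β) (α0 : ∀ t, t ≤ δ → α t = 0)
    (β0 : ∀ t, t ≤ δ → β t = 0) (α1 : ∀ t, 0 ≤ α t ∧ α t ≤ 1) (β1 : ∀ t, 0 ≤ β t ∧ β t ≤ 1)
    {c : UA A} (c0 : 0 ≤ c) (c1 : c ≤ 1) (c2 : ∀ a ∈ F, Commute c a) (v1 : Vis d c)
    (v2 : ∀ a ∈ F, Vis d (c * a)) :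
    URep F (cfc α (uφ d 1) * cfc β (cfc (Gf δ) (uφ d 1) * uT d 1) * c) := by
  intro η hη
  have g1 := Gf_cont hδ
  let f : ℝ → ℝ := fun t => √(β t * Gf δ t)
  have f0 : Continuous f := by fun_prop
  have f1 : ∀ t, f t * t * f t = β t := fun t => by
    rw [mul_right_comm, Real.mul_self_sqrt (mul_nonneg (β1 t).1 (Gf_nonneg hδ))]
    rcases le_total t δ with h1 | h1
    · rw [β0 t h1, zero_mul, zero_mul]
    · rw [Gf, max_eq_left h1, mul_assoc, inv_mul_cancel₀ (hδ.trans_le h1).ne', mul_one]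
  obtain ⟨e, he⟩ := umod d (k := fun t => α t * Gf δ t) (by fun_prop) f0
    (fun t => mul_nonneg (α1 t).1 (Gf_nonneg hδ)) (fun t => by
      rw [mul_assoc, mul_comm _ t]
      exact (mul_le_mul_of_nonneg_left (mul_Gf_le hδ) (α1 t).1).trans (by simpa using (α1 t).2))
    (fun t => (f1 t).trans_le (β1 t).2) c0 c1
  have s0 : IsSelfAdjoint (uψ d 1) := (uψ_spec d).1.one_nonneg.isSelfAdjoint
  have key : ∀ a, Commute c a → Vis d (c * a) → uT e a =
      cfc α (uφ d 1) * cfc β (cfc (Gf δ) (uφ d 1) * uT d 1) * c * a := fun a h1 h2 => by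
    have a1 : sq c * a * sq c = c * a := by
      rw [mul_assoc, ← (show Commute (sq c) a from h1.cfc_real _).eq, ← mul_assoc, sq_mul_sq c0]
    have a2 := (uφ_oz d).loc_cfc hδ hα α0 s0 f0
    have a3 := ((h2.commute (Gf δ)).cfc_real f).eq
    have c1 : ∀ y, Commute (cfc α (uφ d 1)) (cfc (Gf δ) (uφ d 1) * uφ d y) := fun y =>
      (((Commute.refl _).cfc_real _).symm.cfc_real _).mul_right (((uφ_oz d).commute y).cfc_real _)
    have a4 : IsSelfAdjoint (cfc (Gf δ) (uφ d 1) * uT d 1) :=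
      (IsSelfAdjoint.commute_iff IsSelfAdjoint.cfc (uT_cp d).one_nonneg.isSelfAdjoint).1
        (((uφ_oz d).commute _).cfc_real _)
    rw [he, a1, ← cfc_mul' hα g1, mul_assoc, (uφ_oz d).loc_mul hδ hα α0, ← mul_assoc, (c1 _).eq,
      mul_assoc, a2, ← mul_assoc, ← (c1 _).eq, (uφ_oz d).loc_mul hδ hα α0, ← mul_assoc (cfc α _),
      a2, ← uT_apply, ← uT_apply, h2.1, ← mul_assoc (cfc (Gf δ) _), mul_assoc, mul_assoc _ (c * a),
      ← a3, mul_assoc (cfc α _), ← mul_assoc _ _ (c * a), ← mul_assoc _ _ (c * a),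
      ← mul_assoc (cfc f _), cfc_mul_id f0 a4, cfc_mul' (by fun_prop) f0]
    simp only [f1, mul_assoc]
  obtain ⟨e', e1, e2⟩ := ucut e (half_pos hη)
  refine ⟨e', ((η / 2) ^ 2)⁻¹, ?_, fun a ha => ?_⟩
  · rwa [key 1 (Commute.one_right _) (by rwa [mul_one]), mul_one] at e1
  · rw [← key a (c2 a ha) (v2 a ha)]
    exact (e2 a).trans ((mul_le_of_le_one_right (by positivity) (hF a ha)).trans_eq (by ring))

end Pool.Agent.Lib.MP_30b5b4_an
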