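import Pool.Agent.Lib.MP_30b5b4_an.Z3
import Pool.Agent.Lib.MP_30b5b4_an.DefsZ

/-! Slot systems. -/

open scoped CStarAlgebra ComplexOrder Topology Kronecker
open Filter

set_option linter.unusedSectionVars false
set_option linter.style.haveILetI false
set_option linter.unusedSimpArgs false
set_option linter.unusedVariables false

namespace Pool.Agent.Lib.MP_30b5b4_an

section slot
variable {R R' I : Type*} [Semiring R] [StarRing R] [Semiring R'] [StarRing R'] [Fintype I]

structure Slot (e : R) (c : I → R) (x : Option I → R) (γ : R) : Prop where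
  s1 : ∀ l, star (c l) * c l = γ
  s1' : ∀ l l', l ≠ l' → star (c l) * c l' = 0
  s2 : ∀ s, γ * x s = x s
  s3 : (∑ s, star (x s) * x s) * e = e
  s5 : ∀ l, x (some l) * (c l * star (c l)) = x (some l)

variable {e γ : R} {c : I → R} {x : Option I → R} {H : Type*} [FunLike H R R']
  [RingHomClass H R R'] [StarHomClass H R R']

lemma Slot.map (h : Slot e c x γ) (f : H) :
    Slot (f e) (fun l => f (c l)) (fun s => f (x s)) (f γ) :=
  ⟨fun l => by rw [← map_star, ← map_mul, h.s1],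
    fun l l' hl => by rw [← map_star, ← map_mul, h.s1' l l' hl, map_zero],
    fun s => by rw [← map_mul, h.s2],
    by simp only [← map_star, ← map_mul, ← map_sum, h.s3],
    fun l => by rw [← map_star, ← map_mul, ← map_mul, h.s5]⟩

lemma Slot.of_forall {T : Type*} (f : T → H) (hf : ∀ x y, (∀ t, f t x = f t y) → x = y)
    (h : ∀ t, Slot (f t e) (fun l => f t (c l)) (fun s => f t (x s)) (f t γ)) : Slot e c x γ :=
  ⟨fun l => hf _ _ fun t => by rw [map_mul, map_star, (h t).s1],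
    fun l l' hl => hf _ _ fun t => by rw [map_mul, map_star, (h t).s1' l l' hl, map_zero],
    fun s => hf _ _ fun t => by rw [map_mul, (h t).s2],
    hf _ _ fun t => by simpa only [map_star, map_mul, map_sum] using (h t).s3,
    fun l => hf _ _ fun t => by rw [map_mul, map_mul, map_star, (h t).s5]⟩

lemma Slot.reindex {I' : Type*} [Fintype I'] (h : Slot e c x γ) (σ : I' ≃ I) :
    Slot e (fun l => c (σ l)) (fun s => x (s.map σ)) γ :=
  ⟨fun l => h.s1 _, fun l l' hl => h.s1' _ _ (σ.injective.ne hl), fun s => h.s2 _,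
    (congrArg (· * e) ((Equiv.optionCongr σ).sum_comp fun s => star (x s) * x s)).trans h.s3,
    fun l => h.s5 _⟩

end slot

section mat
variable {k : ℕ}

abbrev Mk (k : ℕ) := Matrix (Fin k × Fin (k + 1)) (Fin k × Fin (k + 1)) ℂ

noncomputable def cm (o l : Fin k) (r : ℝ) : Mk k :=
  Matrix.single l o (1 : ℂ) ⊗ₖ Matrix.diagonal (Fin.cons (r : ℂ) fun _ => 1)

noncomputable def wm (o : Fin k) : Mk k := ∑ i, Matrix.single (o, i.succ) (i, 0) 1

def flp (p : Fin k × Fin (k + 1)) : Fin k × Fin (k + 1) :=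
  Fin.cases (p.1, 0) (fun j => (j, p.1.succ)) p.2

lemma flp_flp (p : Fin k × Fin (k + 1)) : flp (flp p) = p := by
  obtain ⟨i, j⟩ := p
  cases j using Fin.cases <;> simp [flp]

def pm (k : ℕ) : Mk k := (1 : Mk k).submatrix flp id

lemma pm_mul (m : Mk k) : pm k * m = m.submatrix flp id := by
  ext a b
  simp [pm, Matrix.mul_apply, Matrix.one_apply]

lemma star_pm : star (pm k) = pm k := by
  ext a b
  have : flp b = a ↔ flp a = b := ⟨fun h => by rw [← h, flp_flp], fun h => by rw [← h, flp_flp]⟩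
  simp [pm, Matrix.one_apply, this]

lemma mul_pm (m : Mk k) : m * pm k = m.submatrix id flp := by
  rw [← star_pm]
  ext a b
  simp [pm, Matrix.mul_apply, Matrix.one_apply]

lemma pm_pm : pm k * pm k = 1 := by
  rw [pm_mul]
  ext a b
  exact congrArg (fun x => (1 : Mk k) x b) (flp_flp a)

lemma cm_mul (o l l' : Fin k) (r r' : ℝ) :
    star (cm o l r) * cm o l' r' = if l = l' then cm o o (r * r') else 0 := by
  rw [cm, cm, Matrix.star_eq_conjTranspose, Matrix.conjTranspose_kronecker,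
    ← Matrix.mul_kronecker_mul, Matrix.conjTranspose_single, Matrix.diagonal_conjTranspose,
    Matrix.diagonal_mul_diagonal, star_one]
  split_ifs with h
  · subst h
    rw [cm, Matrix.single_mul_single_same, one_mul]
    congr 2
    funext i
    cases i using Fin.cases <;> simp
  · rw [Matrix.single_mul_single_of_ne _ _ _ _ h, Matrix.zero_kronecker]

lemma cm_mul' (o l : Fin k) (r r' : ℝ) : cm o l r * cm o o r' = cm o l (r * r') := by
  rw [cm, cm, cm, ← Matrix.mul_kronecker_mul, Matrix.diagonal_mul_diagonal,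
    Matrix.single_mul_single_same, one_mul]
  congr 2
  funext i
  cases i using Fin.cases <;> simp

lemma star_cm (o : Fin k) (r : ℝ) : star (cm o o r) = cm o o r := by
  rw [cm, Matrix.star_eq_conjTranspose, Matrix.conjTranspose_kronecker, Matrix.conjTranspose_single,
    Matrix.diagonal_conjTranspose, star_one]
  congr 2
  funext i
  cases i using Fin.cases <;> simp

lemma cm_wm (o : Fin k) (r : ℝ) : cm o o r * wm o = wm o := by
  rw [wm, Finset.mul_sum]
  refine Finset.sum_congr rfl fun i _ => ?_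
  have : (Matrix.single (o, i.succ) (i, 0) 1 : Mk k) =
      Matrix.single o i (1 : ℂ) ⊗ₖ Matrix.single i.succ 0 (1 : ℂ) := by
    rw [Matrix.single_kronecker_single, one_mul]
  rw [this, cm, ← Matrix.mul_kronecker_mul, Matrix.single_mul_single_same, one_mul]
  congr 1
  ext a b
  rw [Matrix.diagonal_mul]
  cases a using Fin.cases <;> simp

lemma slot_sum (o : Fin k) {μ ν : ℝ} (h : μ * μ + ν * ν = 1) :
    star ((μ : ℂ) • wm o) * ((μ : ℂ) • wm o) + ∑ l, cm o l ν * star (cm o l ν) = 1 := by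
  have a1 : star (wm o) * wm o = ∑ i, Matrix.single (i, 0) (i, 0) 1 := by
    rw [wm, star_sum, Finset.sum_mul_sum]
    refine Finset.sum_congr rfl fun i _ => ?_
    rw [Finset.sum_eq_single i (fun j _ hj => ?_) (by simp)]
    · simp [Matrix.star_eq_conjTranspose]
    · rw [Matrix.star_eq_conjTranspose, Matrix.conjTranspose_single,
        Matrix.single_mul_single_of_ne]
      simpa using hj.symm
  have a2 : ∀ l, cm o l ν * star (cm o l ν) = Matrix.single l l (1 : ℂ) ⊗ₖ
      Matrix.diagonal (Fin.cons ((ν : ℂ) * ν) fun _ => 1) := fun l => by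
    rw [cm, Matrix.star_eq_conjTranspose, Matrix.conjTranspose_kronecker,
      ← Matrix.mul_kronecker_mul, Matrix.conjTranspose_single, Matrix.diagonal_conjTranspose,
      Matrix.diagonal_mul_diagonal, star_one, Matrix.single_mul_single_same, one_mul]
    congr 2
    funext i
    cases i using Fin.cases <;> simp
  have a3 : (μ : ℂ) * μ + ν * ν = 1 := by exact_mod_cast h
  simp only [star_smul, smul_mul_smul_comm, a1, a2]
  ext ⟨i, j⟩ ⟨i', j'⟩
  simp only [Matrix.add_apply, Matrix.smul_apply, Matrix.sum_apply, Matrix.single_apply,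
    Matrix.kronecker_apply, Matrix.diagonal_apply, Matrix.one_apply, Prod.mk.injEq]
  by_cases hi : i = i'
  · subst hi
    cases j using Fin.cases <;> cases j' using Fin.cases <;>
      simp [a3, eq_comm (a := (0 : Fin (k + 1)))]
  · have : ∀ x, ¬(x = i ∧ x = i') := fun x h => hi (h.1.symm.trans h.2)
    have h2 : ∀ x, ¬((x = i ∧ 0 = j) ∧ x = i' ∧ 0 = j') := fun x h => this x ⟨h.1.1, h.2.1⟩
    simp [hi, this, h2]

lemma slot_mat (o : Fin k) {ρ μ ν : ℝ} (h : μ * μ + ν * ν = 1) (h' : ν * ρ = ν) :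
    Slot 1 (fun l => cm o l ρ) (fun s => s.elim ((μ : ℂ) • wm o) fun l => star (cm o l ν))
      (cm o o (ρ * ρ)) := by
  refine ⟨fun l => by rw [cm_mul, if_pos rfl], fun l l' hl => by rw [cm_mul, if_neg hl],
    fun s => ?_, ?_, fun l => ?_⟩
  · cases s with
    | none => simp [cm_wm]
    | some l =>
      rw [Option.elim_some, ← star_cm, ← star_mul, cm_mul', ← mul_assoc, h', h']
  · simpa using slot_sum o h
  · rw [Option.elim_some, ← mul_assoc, cm_mul, if_pos rfl, ← star_cm, ← star_mul, cm_mul', h',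
      mul_comm, h']

lemma cm_one (o l : Fin k) : cm o l 1 = Matrix.single l o (1 : ℂ) ⊗ₖ 1 := by
  rw [cm, ← Matrix.diagonal_one]
  congr 2
  funext i
  cases i using Fin.cases <;> simp

lemma cm_zero (o l : Fin k) :
    pm k * cm o l 0 * pm k = 1 ⊗ₖ Matrix.single l.succ o.succ (1 : ℂ) := by
  rw [pm_mul, mul_pm]
  ext ⟨i, j⟩ ⟨i', j'⟩
  cases j using Fin.cases <;> cases j' using Fin.cases <;>
    simp [cm, flp, Matrix.single_apply, Matrix.diagonal_apply, Matrix.one_apply,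
      eq_comm (a := (0 : Fin (k + 1)))]
  split_ifs <;> rfl

lemma wm_flp (o : Fin k) : pm k * wm o * pm k = 1 ⊗ₖ Matrix.single o.succ 0 (1 : ℂ) := by
  rw [pm_mul, mul_pm]
  ext ⟨i, j⟩ ⟨i', j'⟩
  cases j using Fin.cases <;> cases j' using Fin.cases <;>
    simp [wm, flp, Matrix.single_apply, Matrix.sum_apply, Matrix.one_apply,
      eq_comm (a := (0 : Fin (k + 1)))]
  split_ifs with h1 h2
  · subst h2; simp [h1, Finset.filter_eq']
  · simp [h1]; exact h2
  · simp [h1]

noncomputable def um (k : ℕ) (z : ℂ) : Mk k := (2⁻¹ * (1 + z)) • 1 + (2⁻¹ * (1 - z)) • pm k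

lemma um_mul (z w : ℂ) : um k z * um k w = um k (z * w) := by
  simp only [um, mul_add (_ : Mk k), add_mul _ _ (_ : Mk k), smul_mul_smul_comm, one_mul, mul_one,
    pm_pm]
  module

lemma star_um (z : ℂ) : star (um k z) = um k (star z) := by
  simp [um, star_pm]

lemma um_one : um k 1 = 1 := by rw [um]; module
lemma um_neg : um k (-1) = pm k := by rw [um]; module

noncomputable def zf (s : ℝ) : ℂ := Complex.exp (s * Real.pi * Complex.I)

lemma um_unitary (s : ℝ) : um k (zf s) ∈ unitary (Mk k) := by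
  have : star (zf s) * zf s = 1 := by
    rw [zf, Complex.star_def, ← Complex.exp_conj, ← Complex.exp_add]; simp
  rw [Unitary.mem_iff, star_um, um_mul, um_mul, mul_comm (zf s), this, um_one]
  exact ⟨rfl, rfl⟩

noncomputable def ddrop (m : unitInterval → Mk k) (h : Continuous m) (a : Matrix _ _ ℂ)
    (b : Matrix _ _ ℂ) (h0 : m 0 = a ⊗ₖ 1) (h1 : pm k * m 1 * pm k = 1 ⊗ₖ b) : DimDrop k (k + 1) :=
  ⟨⟨fun s => CStarMatrix.ofMatrix (um k (zf s) * m s * star (um k (zf s))), by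
      change Continuous fun s : unitInterval => um k (zf s) * m s * star (um k (zf s))
      simp only [star_um, um, zf]
      fun_prop⟩,
    StarAlgebra.subset_adjoin _ _ ⟨⟨a, by simp [zf, um_one, h0]⟩,
      ⟨b, by simp [zf, um_neg, star_pm, h1]⟩⟩⟩

theorem exists_slot (o : Fin k) : ∃ (c : Fin k → DimDrop k (k + 1))
    (x : Option (Fin k) → DimDrop k (k + 1)) (γ : DimDrop k (k + 1)), Slot 1 c x γ := by
  have c1 : ∀ (l : Fin k) (r : unitInterval → ℝ), Continuous r → Continuous fun s => cm o l (r s) :=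
    fun l r hr => continuous_matrix fun a b => by
      obtain ⟨i, j⟩ := a
      obtain ⟨i', j'⟩ := b
      cases j using Fin.cases <;>
        simp only [cm, Matrix.kronecker_apply, Matrix.diagonal_apply, Fin.cons_zero, Fin.cons_succ]
      · split_ifs <;> fun_prop
      · fun_prop
  let ρ : unitInterval → ℝ := fun s => cl (2 - 2 * s)
  let μ : unitInterval → ℝ := fun s => √(cl (2 * s))
  let ν : unitInterval → ℝ := fun s => √(1 - cl (2 * s))
  have ρ0 : ρ 0 = 1 := cl_of_one_le (by simp)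
  have ρ1 : ρ 1 = 0 := cl_of_nonpos (by simp)
  have μ0 : μ 0 = 0 := by simp [μ, cl]
  have μ1 : μ 1 = 1 := by simp [μ, cl]
  have ν0 : ν 0 = 1 := by simp [ν, cl]
  have ν1 : ν 1 = 0 := by simp [ν, cl]
  let D : (l : Fin k) → (r : unitInterval → ℝ) → Continuous r → r 0 = 1 → r 1 = 0 →
      DimDrop k (k + 1) := fun l r hr h0 h1 =>
    ddrop _ (c1 l r hr) _ _ (by rw [h0, cm_one]) (by rw [h1, cm_zero])
  let w : DimDrop k (k + 1) := ddrop (fun s => (μ s : ℂ) • wm o) (by fun_prop) 0 _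
    (by simp [μ0]) (by simpa [μ1] using wm_flp o)
  refine ⟨fun l => D l ρ (by fun_prop) ρ0 ρ1,
    fun s => s.elim w fun l => star (D l ν (by fun_prop) ν0 ν1),
    D o (fun s => ρ s * ρ s) (by fun_prop) (by simp [ρ0]) (by simp [ρ1]), ?_⟩
  let ev : unitInterval → (DimDrop k (k + 1) →⋆ₐ[ℂ]
      CStarMatrix (Fin k × Fin (k + 1)) (Fin k × Fin (k + 1)) ℂ) := fun s =>
    { toFun := fun f => f.1 s
      map_one' := rfl
      map_mul' := fun _ _ => rfl
      map_zero' := rfl
      map_add' := fun _ _ => rfl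
      commutes' := fun r => by
        simp [Algebra.algebraMap_eq_smul_one]
      map_star' := fun _ => rfl }
  refine Slot.of_forall ev (fun x y h => Subtype.ext (ContinuousMap.ext h)) fun s => ?_
  have h := ((slot_mat o (ρ := ρ s) (μ := μ s) (ν := ν s) (by
      simp only [μ, ν]
      rw [Real.mul_self_sqrt (cl_nonneg _), Real.mul_self_sqrt (sub_nonneg.2 (cl_le_one _))]
      ring) (by
      rcases le_total 1 (2 * (s : ℝ)) with h | h
      · simp [ν, cl_of_one_le h]
      · simp only [ρ]; rw [cl_of_one_le (by linarith), mul_one])).map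
    (Unitary.conjStarAlgAut ℂ _ ⟨_, um_unitary s⟩)).map CStarMatrix.ofMatrixStarAlgEquiv
  rw [map_one, map_one] at h
  rw [map_one]
  convert h using 2 with l t
  · rfl
  · cases t with
    | none => rfl
    | some l => rw [Option.elim_some, Option.elim_some, map_star, map_star, map_star]; rfl
  · rfl

end mat

universe u
variable {E : Type u} [NonUnitalCStarAlgebra E] [PartialOrder E] [StarOrderedRing E]

/-- the image of the sequences with values in `E` -/
def Ju (E : Type u) [NonUnitalCStarAlgebra E] [PartialOrder E] [StarOrderedRing E] :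
    Set (UA E⁺¹) := {x | ∃ w ∈ Lf (inc E), Ult.mk w = x}

abbrev Cn {B : Type*} [CStarAlgebra B] (S : Set B) := StarSubalgebra.centralizer ℂ S

lemma mem_Cn {B : Type*} [CStarAlgebra B] {S : Set B} {z : B} :
    z ∈ Cn S ↔ ∀ g ∈ S, Commute g z ∧ Commute (star g) z := StarSubalgebra.mem_centralizer_iff ℂ

noncomputable def fstS (E : Type u) [NonUnitalCStarAlgebra E] : E⁺¹ →⋆ₐ[ℂ] ℂ :=
  { Unitization.fstHom ℂ E with map_star' := fun _ => rfl }

lemma ult_split (b : UA E⁺¹) : ∃ (a : BA E⁺¹), a ∈ Lf (inc E) ∧ ∀ z, Commute (b - Ult.mk a) z := by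
  obtain ⟨b, rfl⟩ := Ult.surj b
  have h1 : ∀ y : E⁺¹, ‖(algebraMap ℂ E⁺¹ y.fst)‖ ≤ ‖y‖ := fun y => by
    rw [norm_algebraMap']
    exact hom_norm_le (fstS E) y
  let l : BA E⁺¹ := Bdd.of (fun k => algebraMap ℂ E⁺¹ (Bdd.ev k b).fst) ‖b‖ fun k =>
    (h1 _).trans (Bdd.norm_ev_le k b)
  refine ⟨b - l, fun k => ⟨(Bdd.ev k b).snd, ?_⟩, fun z => ?_⟩
  · rw [map_sub, eq_sub_iff_add_eq, add_comm]
    exact Unitization.inl_fst_add_inr_snd_eq _
  · obtain ⟨z, rfl⟩ := Ult.surj z
    rw [← map_sub, sub_sub_cancel]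
    exact Commute.map (Bdd.ext fun k => by simpa [l] using Algebra.commutes _ _) Ult.mk

lemma exists_tier {S : Set (UA E⁺¹)} (hS : S.Finite) :
    ∃ f ∈ Ju E, 0 ≤ f ∧ f ≤ 1 ∧ f ∈ Cn S ∧ ∀ b ∈ S, b ∈ Ju E → f * b = b := by
  classical
  have hn := NonUnitalStarAlgHom.norm_map (inc E) (idl_inc E).inj
  haveI := hS.fintype
  choose a a1 a2 using fun b : S => ult_split (b : UA E⁺¹)
  have h3 : ∀ b : S, ∃ w ∈ Lf (inc E), (b : UA E⁺¹) ∈ Ju E → Ult.mk w = b := fun b => by
    by_cases h : (b : UA E⁺¹) ∈ Ju E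
    · exact h.imp fun w hw => ⟨hw.1, fun _ => hw.2⟩
    · exact ⟨0, zero_mem _, fun h' => (h h').elim⟩
  choose w w1 w2 using h3
  let y : S × Fin 3 → BA E⁺¹ := fun p => ![a p.1, star (a p.1), w p.1] p.2
  have y1 : ∀ p, y p ∈ Lf (inc E) := fun ⟨b, i⟩ => by
    fin_cases i
    exacts [a1 b, star_mem (a1 b), w1 b]
  choose c hc using y1
  choose t t0 t1 t2 t3 using fun k : ℕ => (idl_inc E).exists_qc_unitary ∅ (by simp)
    (Finset.univ.image fun p => c p k) (show (0 : ℝ) < 1 / ((k : ℝ) + 1) by positivity)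
  let t' : BA E⁺¹ := Bdd.of (fun k => inc E (t k)) 1 fun k => by rw [hn]; exact t1 k
  have f0 : 0 ≤ Ult.mk t' := hom_nonneg _ (Bdd.nonneg fun k => nu_nonneg (inc E) (t0 k))
  have f1 : ∀ p, Ult.mk t' * Ult.mk (y p) = Ult.mk (y p) := fun p => by
    rw [← map_mul]
    refine Ult.mk_eq_of_le 1 fun k => ?_
    have := t3 k (c p k) (Finset.mem_image_of_mem _ (Finset.mem_univ _))
    rw [← hn, map_sub, map_mul, hc] at this
    simpa [t'] using this
  have f2 : ∀ b : S, Commute (b : UA E⁺¹) (Ult.mk t') := fun b => by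
    have e1 : Ult.mk t' * Ult.mk (a b) = Ult.mk (a b) := f1 (b, 0)
    have e2 := congrArg star (show Ult.mk t' * Ult.mk (star (a b)) = Ult.mk (star (a b)) from
      f1 (b, 1))
    rw [star_mul, map_star, star_star, f0.star_eq] at e2
    simpa using (a2 b _).add_left (e2.trans e1.symm)
  refine ⟨Ult.mk t', ⟨t', fun k => ⟨t k, rfl⟩, rfl⟩, f0, le_one_of_norm f0
    (Ult.norm_le_of_eventually (Eventually.of_forall fun k => (hn _).trans_le (t1 k))),
    mem_Cn.2 fun g hg => ⟨f2 ⟨g, hg⟩, ?_⟩, fun b hb hb' => ?_⟩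
  · simpa [f0.star_eq] using (f2 ⟨g, hg⟩).star_star
  · have e1 : Ult.mk t' * Ult.mk (w ⟨b, hb⟩) = Ult.mk (w ⟨b, hb⟩) := f1 (⟨b, hb⟩, 2)
    rwa [w2 ⟨b, hb⟩ hb'] at e1

lemma ZStable.ultra (h : ZStable E) {k : ℕ} (hk : 2 ≤ k) {S : Set (UA E⁺¹)} (hS : S.Finite)
    (T : Finset (DimDrop k (k + 1))) : ∃ Θ : DimDrop k (k + 1) →ₗ[ℂ] UA E⁺¹,
      (∀ x, Θ (star x) = star (Θ x)) ∧ ∀ b ∈ S, (∀ x ∈ T, Commute b (Θ x)) ∧ (b ∈ Ju E →
        Θ 1 * b = b ∧ ∀ x ∈ T, ∀ y ∈ T, Θ x * (Θ y * b) = Θ (x * y) * b) := by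
  classical
  have hn := NonUnitalStarAlgHom.norm_map (inc E) (idl_inc E).inj
  haveI := hS.fintype
  choose a a1 a2 using fun b : S => ult_split (b : UA E⁺¹)
  have h3 : ∀ b : S, ∃ w ∈ Lf (inc E), (b : UA E⁺¹) ∈ Ju E → Ult.mk w = b := fun b => by
    by_cases h : (b : UA E⁺¹) ∈ Ju E
    · exact h.imp fun w hw => ⟨hw.1, fun _ => hw.2⟩
    · exact ⟨0, zero_mem _, fun h' => (h h').elim⟩
  choose w w1 w2 using h3
  let y : S × Bool → BA E⁺¹ := fun p => cond p.2 (a p.1) (w p.1)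
  have y1 : ∀ p, y p ∈ Lf (inc E) := fun ⟨b, i⟩ => by
    cases i
    exacts [w1 b, a1 b]
  choose c hc using y1
  choose θ t0 t1 t2 using fun n : ℕ => h k hk (Finset.univ.image fun p => c p n) T _
    (show (0 : ℝ) < 1 / ((n : ℝ) + 1) by positivity)
  have t3 := fun n p => t2 n (c p n) (Finset.mem_image_of_mem _ (Finset.mem_univ _))
  let Θ₀ : DimDrop k (k + 1) →ₗ[ℂ] BA E⁺¹ :=
    { toFun := fun x => Bdd.of (fun n => inc E (θ n x)) ‖x.1‖ fun n => (hn _).trans_le (t0 n x)
      map_add' := fun x y => Bdd.ext fun n => by simp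
      map_smul' := fun r x => Bdd.ext fun n => by simp }
  have e0 : ∀ n x, Bdd.ev n (Θ₀ x) = inc E (θ n x) := fun _ _ => rfl
  refine ⟨lin Ult.mk ∘ₗ Θ₀, fun x => ?_, fun b hb => ⟨fun x hx => ?_, fun hb' => ?_⟩⟩
  · rw [LinearMap.comp_apply, LinearMap.comp_apply, lin_apply, lin_apply, ← map_star]
    exact congrArg _ (Bdd.ext fun n => by rw [map_star (Bdd.ev n), e0, e0, t1, map_star])
  · have : Commute (Ult.mk (a ⟨b, hb⟩)) (Ult.mk (Θ₀ x)) := by
      change _ * _ = _ * _
      rw [← map_mul, ← map_mul]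
      refine (Ult.mk_eq_of_le 1 fun n => ?_).symm
      have := ((t3 n (⟨b, hb⟩, true)).2 x hx).1.le
      rw [← hn, map_sub, map_mul, map_mul, hc] at this
      simpa [e0, y] using this
    simpa using (a2 ⟨b, hb⟩ _).add_left this
  · have e1 : b = Ult.mk (y (⟨b, hb⟩, false)) := (w2 ⟨b, hb⟩ hb').symm
    rw [e1]
    simp only [LinearMap.comp_apply, lin_apply, ← map_mul]
    refine ⟨Ult.mk_eq_of_le 1 fun n => ?_, fun x hx z hz => (Ult.mk_eq_of_le 1 fun n => ?_).symm⟩
    · have := (t3 n (⟨b, hb⟩, false)).1.le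
      rw [← hn, map_sub, map_mul, hc] at this
      simpa [e0] using this
    · have := (((t3 n (⟨b, hb⟩, false)).2 x hx).2 z hz).le
      rw [← hn, map_mul, map_sub, map_mul (inc E), hc, sub_mul, mul_assoc] at this
      simpa [e0] using this

theorem ZStable.slot (h : ZStable E) (I : Type) [Fintype I] (hI : 2 ≤ Fintype.card I)
    {S : Set (UA E⁺¹)} (hS : S.Finite) {e : UA E⁺¹} (he : e ∈ Ju E) :
    ∃ (c : I → UA E⁺¹) (x : Option I → UA E⁺¹) (γ : UA E⁺¹), Slot e c x γ ∧ (∀ l, c l ∈ Cn S) ∧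
      ∀ s, x s ∈ Cn S := by
  classical
  obtain ⟨c₀, x₀, γ, s₀⟩ := exists_slot (k := Fintype.card I) ⟨0, by omega⟩
  have s := s₀.reindex (Fintype.equivFin I)
  set c := fun l => c₀ (Fintype.equivFin I l)
  set x := fun s : Option I => x₀ (s.map (Fintype.equivFin I))
  obtain ⟨f, f1, f2, -, f3, f4⟩ := exists_tier (hS.insert e)
  obtain ⟨g, g1, g2, -, g3, g4⟩ := exists_tier (hS.insert f)
  let t : (I × Fin 3) ⊕ (Option I × Bool) ⊕ Unit → DimDrop _ _ :=
    Sum.elim (fun p => ![c p.1, star (c p.1), c p.1 * star (c p.1)] p.2)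
      (Sum.elim (fun p => cond p.2 (x p.1) (star (x p.1))) fun _ => γ)
  have m := fun p => Finset.mem_image_of_mem t (Finset.mem_univ p)
  have m1 : ∀ l, c l ∈ Finset.univ.image t := fun l => m (Sum.inl (l, 0))
  have m2 : ∀ l, star (c l) ∈ Finset.univ.image t := fun l => m (Sum.inl (l, 1))
  have m3 : ∀ l, c l * star (c l) ∈ Finset.univ.image t := fun l => m (Sum.inl (l, 2))
  have m4 : ∀ l, x l ∈ Finset.univ.image t := fun l => m (Sum.inr (Sum.inl (l, true)))
  have m5 : ∀ l, star (x l) ∈ Finset.univ.image t := fun l => m (Sum.inr (Sum.inl (l, false)))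
  have m6 : γ ∈ Finset.univ.image t := m (Sum.inr (Sum.inr ()))
  obtain ⟨Θ, t1, t2⟩ := h.ultra hI ((hS.insert f).insert g) (Finset.univ.image t)
  obtain ⟨a1, a2⟩ := t2 f (by simp)
  obtain ⟨b1, b2⟩ := t2 g (by simp)
  obtain ⟨a3, a4⟩ := a2 f1
  obtain ⟨b3, b4⟩ := b2 g1
  have gf : g * f = f := g4 f (by simp) f1
  have fg : f * g = f := by rw [← f2.star_eq, ← g2.star_eq, ← star_mul, gf]
  have fe : f * e = e := f4 e (by simp) he
  have c1 : ∀ y, y ∈ Finset.univ.image t → star y ∈ Finset.univ.image t → Θ y ∈ Cn S :=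
    fun y h1 h2 => mem_Cn.2 fun b hb => ⟨(t2 b (by simp [hb])).1 y h1, by
      simpa [t1] using ((t2 b (by simp [hb])).1 _ h2).star_star⟩
  have c2 := StarSubalgebra.centralizer_le ℂ _ _ (Set.subset_insert e S) f3
  have c3 := StarSubalgebra.centralizer_le ℂ _ _ (Set.subset_insert f S) g3
  refine ⟨fun l => Θ (c l) * g, fun s => Θ (x s) * f, Θ γ * (g * g),
    ⟨fun l => ?_, fun l l' hl => ?_, fun p => ?_, ?_, fun l => ?_⟩,
    fun l => mul_mem (c1 _ (m1 l) (m2 l)) c3, fun p => mul_mem (c1 _ (m4 p) (m5 p)) c2⟩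
  · rw [star_mul, g2.star_eq, ← t1, mul_assoc, b4 _ (m2 l) _ (m1 l), s.s1, ← mul_assoc,
      (b1 _ m6).eq, mul_assoc]
  · rw [star_mul, g2.star_eq, ← t1, mul_assoc, b4 _ (m2 l) _ (m1 l'), s.s1' l l' hl, map_zero,
      zero_mul, mul_zero]
  · rw [← (a1 _ (m4 p)).eq, mul_assoc, ← mul_assoc (g * g), mul_assoc g, gf, gf, (a1 _ (m4 p)).eq,
      a4 _ m6 _ (m4 p), s.s2]
  · have : ∀ p, star (Θ (x p) * f) * (Θ (x p) * f) = f * (Θ (star (x p) * x p) * f) := fun p => by
      rw [star_mul, f2.star_eq, ← t1, mul_assoc, a4 _ (m5 p) _ (m4 p)]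
    have e3 : ∑ p, star (x p) * x p = 1 := (mul_one _).symm.trans s.s3
    simp only [this]
    rw [← Finset.mul_sum, ← Finset.sum_mul, ← map_sum, e3, a3, mul_assoc, fe, fe]
  · rw [star_mul, g2.star_eq, ← t1, mul_assoc, ← mul_assoc f, ← mul_assoc f, (a1 _ (m1 l)).eq,
      mul_assoc _ f, fg, mul_assoc, ← mul_assoc f, fg, (a1 _ (m2 l)).eq, a4 _ (m1 l) _ (m2 l),
      a4 _ (m4 _) _ (m3 l), s.s5]

end Pool.Agent.Lib.MP_30b5b4_an
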