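import Pool.Agent.Lib.MP_30b5b4_an.Z4

/-! One level of the construction. -/

open scoped CStarAlgebra ComplexOrder Topology
open Filter

set_option linter.unusedSectionVars false
set_option linter.style.haveILetI false
set_option linter.unusedSimpArgs false
set_option linter.unusedVariables false

namespace Pool.Agent.Lib.MP_30b5b4_an

universe u

lemma cl_tier {x : ℝ} {m m' : ℕ} (h : m < m') : cl (x - m) * cl (x - m') = cl (x - m') := by
  have : (m : ℝ) + 1 ≤ m' := by exact_mod_cast h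
  rcases le_total x m' with h1 | h1
  · rw [cl_of_nonpos (sub_nonpos.2 h1), mul_zero]
  · rw [cl_of_one_le (by linarith), one_mul]

section alg
variable {B : Type u} [CStarAlgebra B] [PartialOrder B] [StarOrderedRing B]

lemma Cn_closed (S : Set B) : IsClosed (Cn S : Set B) := Set.isClosed_centralizer _

lemma Cn_mono {S T : Set B} (h : S ⊆ T) {z : B} (hz : z ∈ Cn T) : z ∈ Cn S :=
  StarSubalgebra.centralizer_le ℂ _ _ h hz

lemma Cn_comm {S : Set B} {z g : B} (hz : z ∈ Cn S) (hg : g ∈ S) : Commute z g :=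
  (mem_Cn.1 hz g hg).1.symm

lemma Cn_comm' {S : Set B} {z g : B} (hz : z ∈ Cn S) (hg : g ∈ S) : Commute z (star g) :=
  (mem_Cn.1 hz g hg).2.symm

lemma mul_cfc_eq_zero' {x y : B} (hx : IsSelfAdjoint x) (hxy : y * x = y) {f : ℝ → ℝ}
    (hf : Continuous f) (h1 : f 1 = 1) : y * cfc f x = y := by
  have h2 := congrArg star (cfc_mul_eq_zero' hx (y := star y) (by
    rw [← hx.star_eq, ← star_mul, hxy]) (f := fun t => f t - 1) (by fun_prop) (by simp [h1]))
  rwa [star_mul, star_star, IsSelfAdjoint.cfc.star_eq, star_zero, cfc_sub _ _ x, cfc_const_one ℝ x,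
    mul_sub, mul_one, sub_eq_zero] at h2

lemma cfc_mul_eq_self {x y : B} (hx : IsSelfAdjoint x) (hxy : x * y = y) {f : ℝ → ℝ}
    (hf : Continuous f) (h1 : f 1 = 1) : cfc f x * y = y := by
  have := congrArg star (mul_cfc_eq_zero' hx (y := star y) (by
    rw [← hx.star_eq, ← star_mul, hxy]) hf h1)
  rwa [star_mul, star_star, IsSelfAdjoint.cfc.star_eq] at this

structure Pack {T K : Type*} [Fintype T] (S : Set B) (e Q Q' σ : B) (R : T → B) (N : K → B) :
    Prop where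
  mQ : Q ∈ Cn S
  mQ' : Q' ∈ Cn S
  mσ : σ ∈ Cn S
  mR : ∀ t, R t ∈ Cn S
  mN : ∀ k, N k ∈ Cn S
  Q0 : 0 ≤ Q
  Q1 : Q ≤ 1
  Q0' : 0 ≤ Q'
  Q1' : Q' ≤ 1
  σ0 : star σ = σ
  QQ : Q * Q' = Q'
  σQ : σ * Q = 0
  QR : ∀ t, Q' * R t = R t
  QN : ∀ k, Q' * N k = N k
  RR : (∑ t, star (R t) * R t) * e = e
  NN : ∀ k k', k ≠ k' → star (N k) * N k' = 0
  NN' : ∀ k, star (N k) * N k * ((1 - Q') * e) = (1 - σ * σ) * ((1 - Q') * e)
  NR : ∀ k t, star (N k) * R t = 0

noncomputable def gr (m : ℕ) (x : B) : B := cfc (fun t => cl (4 * t - m)) (x * star x)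

lemma gr_nonneg (m : ℕ) (x : B) : 0 ≤ gr m x := cfc_nonneg fun _ _ => cl_nonneg _
lemma gr_le (m : ℕ) (x : B) : gr m x ≤ 1 := cfc_le_one _ _ fun _ _ => cl_le_one _

lemma gr_mem {S : Set B} {x : B} (hx : x ∈ Cn S) (m : ℕ) : gr m x ∈ Cn S :=
  cfc_mem_cl (Cn_closed S) _ (mul_mem hx (star_mem hx))

lemma mul_unit {a b : B} (a0 : 0 ≤ a) (a1 : a ≤ 1) (b0 : 0 ≤ b) (b1 : b ≤ 1) (h : Commute a b) :
    0 ≤ a * b ∧ a * b ≤ 1 := ⟨h.mul_nonneg a0 b0, (mul_le_of_commute a0 b1 h).trans a1⟩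

theorem pack_alg {ι K : Type} [Fintype ι] [Fintype K] [Nonempty ι] {S : Set B} {e γ : B}
    (he : e ∈ S) {c : ι × Option (K × Option (ι × Bool)) → B}
    {x : Option (ι × Option (K × Option (ι × Bool))) → B} (h : Slot e c x γ) (c0 : ∀ l, c l ∈ Cn S)
    (x0 : ∀ s, x s ∈ Cn S) (a : ℕ → ι × Option (K × Option (ι × Bool)) → B)
    (u : Bool → ι × Option (K × Option (ι × Bool)) → B) (y : ι → B)
    (a0 : ∀ m l, 0 < m → a m l ∈ Cn (S ∪ Set.range c ∪ Set.range x))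
    (u0 : ∀ b l, u b l ∈ Cn (S ∪ Set.range c ∪ Set.range x))
    (y0 : ∀ i, y i ∈ Cn (S ∪ Set.range c ∪ Set.range x)) (a1 : ∀ m l, 0 ≤ a m l ∧ a m l ≤ 1)
    (a2 : ∀ m m' l, m < m' → a m l * a m' l = a m' l) (a3 : ∀ l, a 3 l * y l.1 = y l.1)
    (y1 : ∑ i, star (y i) * y i = 1) (u1 : ∀ b l, star (u b l) = u b l)
    (u2 : ∀ b i j j', j ≠ j' → u b (i, j) * u b (i, j') = 0)
    (u3 : ∀ l, (u true l * u true l + u false l * u false l) * (1 - a 3 l) =
      a 1 l * a 1 l * (1 - a 3 l)) :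
    (∀ l l', l ≠ l' → a 3 l * gr 3 (c l) * (a 3 l' * gr 3 (c l')) = 0) ∧
    ∃ (Q σ : B) (R : Option (ι × Option (K × Option (ι × Bool))) → B) (N : K → B),
      Pack S e Q (∑ l, a 3 l * gr 3 (c l)) σ R N := by
  classical
  set S' := S ∪ Set.range c ∪ Set.range x
  have z0 : ∀ {z}, z ∈ Cn S' → z ∈ Cn S := Cn_mono fun _ hg => Or.inl (Or.inl hg)
  have z1 : ∀ {z}, z ∈ Cn S' → ∀ l, Commute z (c l) := fun hz l =>
    Cn_comm hz (Or.inl (Or.inr ⟨l, rfl⟩))
  have z2 : ∀ {z}, z ∈ Cn S' → ∀ l, Commute z (star (c l)) := fun hz l =>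
    Cn_comm' hz (Or.inl (Or.inr ⟨l, rfl⟩))
  have z3 : ∀ {z}, z ∈ Cn S' → ∀ s, Commute z (x s) := fun hz l => Cn_comm hz (Or.inr ⟨l, rfl⟩)
  have z4 : ∀ {z}, z ∈ Cn S' → ∀ s, Commute z (star (x s)) := fun hz l =>
    Cn_comm' hz (Or.inr ⟨l, rfl⟩)
  have z5 : ∀ {z}, z ∈ Cn S' → Commute z γ := fun hz => by
    rw [← h.s1 (Classical.arbitrary ι, none)]
    exact (z2 hz _).mul_right (z1 hz _)
  have z6 : ∀ {z}, z ∈ Cn S' → ∀ m l, Commute z (gr m (c l)) := fun hz m l =>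
    (((z1 hz l).mul_right (z2 hz l)).symm.cfc_real _).symm
  have sa : ∀ l, IsSelfAdjoint (c l * star (c l)) := fun l => (mul_star_self_nonneg _).isSelfAdjoint
  have g0 : ∀ m : ℕ, cl (4 * 0 - m) = 0 := fun m => cl_of_nonpos (by simp)
  have g1 : ∀ m : ℕ, m ≤ 3 → cl (4 * 1 - m) = 1 := fun m hm => cl_of_one_le (by
    have : (m : ℝ) ≤ 3 := by exact_mod_cast hm
    linarith)
  have G1 : ∀ m l l', l ≠ l' → gr m (c l) * c l' = 0 := fun m l l' hl =>
    cfc_mul_eq_zero (sa l) (by rw [mul_assoc, h.s1' l l' hl, mul_zero]) (by fun_prop) (g0 m)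
  have G2 : ∀ m m' l l', l ≠ l' → gr m (c l) * gr m' (c l') = 0 := fun m m' l l' hl =>
    mul_cfc_eq_zero (sa l') (by rw [← mul_assoc, G1 m l l' hl, zero_mul]) (by fun_prop) (g0 m')
  let P : ℕ → _ → B := fun m l => a m l * gr m (c l)
  have P1 : ∀ m m' l l', 0 < m' → l ≠ l' → P m l * P m' l' = 0 := fun m m' l l' hm hl => by
    simp only [P]
    rw [mul_assoc, ← mul_assoc (gr _ _), ← (z6 (a0 m' l' hm) m l).eq, mul_assoc, G2 m m' l l' hl,
      mul_zero, mul_zero]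
  have P2 : ∀ m l, 0 < m → 0 ≤ P m l ∧ P m l ≤ 1 := fun m l hm =>
    mul_unit (a1 m l).1 (a1 m l).2 (gr_nonneg _ _) (gr_le _ _) (z6 (a0 m l hm) m l)
  let Ps : ℕ → B := fun m => ∑ l, P m l
  have Q0 : ∀ m, 0 < m → 0 ≤ Ps m := fun m hm => Finset.sum_nonneg fun l _ => (P2 m l hm).1
  have Q1 : ∀ m, 0 < m → ‖Ps m‖ ≤ 1 := fun m hm => sum_le_of_orth _ _ zero_le_one
    (fun l _ => (P2 m l hm).1) (fun l _ l' _ => P1 m m l l' hm)
    fun l _ => norm_le_one_of (P2 m l hm).1 (P2 m l hm).2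
  have Q2 : ∀ m m', m < m' → Ps m * Ps m' = Ps m' := fun m m' hm => by
    rw [Finset.sum_mul_sum, Finset.sum_comm]
    refine Finset.sum_congr rfl fun l _ => ?_
    rw [Finset.sum_eq_single l (fun l' _ hl => P1 _ _ _ _ (by omega) hl) (by simp)]
    simp only [P]
    rw [mul_assoc, ← mul_assoc (gr _ _), ← (z6 (a0 m' l (by omega)) m l).eq, mul_assoc, ← mul_assoc,
      a2 m m' l hm, gr, gr, cfc_mul' (by fun_prop) (by fun_prop)]
    simp only [cl_tier hm]
  have Q3 : ∀ m, 0 < m → Ps m ∈ Cn S := fun m hm =>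
    sum_mem fun l _ => mul_mem (z0 (a0 m l hm)) (gr_mem (c0 l) m)
  have Q4 : ∀ m l, 0 < m → m ≤ 3 → x (some l) * Ps m = a m l * x (some l) := fun m l hm hm' => by
    rw [Finset.mul_sum, Finset.sum_eq_single l (fun l' _ hl => ?_) (by simp)]
    · simp only [P]
      rw [← mul_assoc, ← (z3 (a0 m l hm) _).eq, mul_assoc, gr,
        mul_cfc_eq_zero' (sa l) (h.s5 l) (by fun_prop) (g1 m hm')]
    · simp only [P]
      rw [← mul_assoc, ← (z3 (a0 m l' hm) _).eq, mul_assoc, gr, mul_cfc_eq_zero (sa l') (by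
        rw [← h.s5 l, mul_assoc, mul_assoc, ← mul_assoc (star _), h.s1' l l' hl.symm, zero_mul,
          mul_zero, mul_zero]) (by fun_prop) (g0 m), mul_zero]
  let X : Option (K × Option (ι × Bool)) → B := fun j => ∑ i, c (i, j) * y i
  have X0 : ∀ j, X j ∈ Cn S := fun j => sum_mem fun i _ => mul_mem (c0 _) (z0 (y0 i))
  have X1 : ∀ j Y, γ * Y = Y → Ps 3 * (X j * Y) = X j * Y := fun j Y hY => by
    simp only [X, Finset.sum_mul, Finset.mul_sum]
    refine Finset.sum_congr rfl fun i _ => ?_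
    rw [Finset.sum_mul, Finset.sum_eq_single (i, j) (fun l' _ hl => ?_) (by simp)]
    · simp only [P]
      rw [mul_assoc, gr, cfc_mul_eq_self (sa _) (by
        rw [mul_assoc, mul_assoc, ← mul_assoc (star _), h.s1, ← mul_assoc γ,
          ← (z5 (y0 i)).eq, mul_assoc, hY]) (by fun_prop) (g1 3 le_rfl), ← mul_assoc, ← mul_assoc,
        (z1 (a0 3 _ three_pos) _).eq, mul_assoc _ _ (y i), a3 (i, j)]
    · simp only [P]
      rw [mul_assoc, mul_assoc, ← mul_assoc (gr _ _), G1 _ _ _ hl, zero_mul, mul_zero]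
  have X2 : ∀ j, star (X j) * X j = γ := fun j => by
    rw [star_sum, Finset.sum_mul_sum, ← one_mul γ, ← y1, Finset.sum_mul]
    refine Finset.sum_congr rfl fun i _ => ?_
    rw [Finset.sum_eq_single i (fun i' _ hi => ?_) (by simp)]
    · rw [star_mul, mul_assoc, ← mul_assoc (star (c _)), h.s1, ← (z5 (y0 i)).eq, mul_assoc]
    · rw [star_mul, mul_assoc, ← mul_assoc (star (c _)), h.s1' _ _ (by simpa using hi.symm),
        zero_mul, mul_zero]
  have X3 : ∀ j j', j ≠ j' → star (X j) * X j' = 0 := fun j j' hj => by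
    rw [star_sum, Finset.sum_mul_sum]
    refine Finset.sum_eq_zero fun i _ => Finset.sum_eq_zero fun i' _ => ?_
    rw [star_mul, mul_assoc, ← mul_assoc (star (c _)), h.s1' _ _ (by simp [hj]), zero_mul, mul_zero]
  let Y : Option (ι × Bool) → B := fun o =>
    o.elim (x none * Ps 1) fun p => ∑ j, u p.2 (p.1, j) * x (some (p.1, j))
  have Y0 : ∀ o, Y o ∈ Cn S := by
    rintro (_ | p)
    · exact mul_mem (x0 _) (Q3 1 one_pos)
    · exact sum_mem fun j _ => mul_mem (z0 (u0 _ _)) (x0 _)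
  have Y1 : ∀ o, γ * Y o = Y o := by
    rintro (_ | p)
    · simp only [Y, Option.elim_none, ← mul_assoc, h.s2]
    · simp only [Y, Option.elim_some, Finset.mul_sum]
      exact Finset.sum_congr rfl fun j _ => by rw [← mul_assoc, ← (z5 (u0 _ _)).eq, mul_assoc, h.s2]
  have Y2 : ∀ p : ι × Bool, star (Y (some p)) * Y (some p) = ∑ j, star (x (some (p.1, j))) *
      (u p.2 (p.1, j) * u p.2 (p.1, j) * x (some (p.1, j))) := fun p => by
    simp only [Y, Option.elim_some]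
    rw [star_sum, Finset.sum_mul_sum]
    refine Finset.sum_congr rfl fun j _ => ?_
    rw [Finset.sum_eq_single j (fun j' _ hj => ?_) (by simp)]
    · simp only [star_mul, u1, mul_assoc]
    · rw [star_mul, u1, mul_assoc, ← mul_assoc (u _ _), u2 _ _ _ _ hj.symm, zero_mul, mul_zero]
  have Y3 : (∑ o, star (Y o) * Y o) * (1 - Ps 3) =
      Ps 1 * (∑ s, star (x s) * x s) * Ps 1 * (1 - Ps 3) := by
    have e1 : ∀ s, Ps 1 * (star (x s) * x s) * Ps 1 = star (x s * Ps 1) * (x s * Ps 1) := fun s => by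
      rw [star_mul, (Q0 1 one_pos).star_eq]; simp only [mul_assoc]
    have e2 : ∀ l, x (some l) * (1 - Ps 3) = (1 - a 3 l) * x (some l) := fun l => by
      rw [mul_sub, sub_mul, Q4 3 l three_pos le_rfl, mul_one, one_mul]
    simp only [Finset.mul_sum, Finset.sum_mul, e1]
    rw [Fintype.sum_option, Fintype.sum_option]
    congr 1
    simp only [Y2, Fintype.sum_prod_type, Fintype.sum_bool, ← Finset.sum_add_distrib,
      Finset.sum_mul]
    refine Finset.sum_congr rfl fun i _ => Finset.sum_congr rfl fun j _ => ?_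
    rw [← add_mul, ← mul_add, ← add_mul, Q4 1 _ one_pos (by norm_num), star_mul, (a1 _ _).1.star_eq, mul_assoc,
      mul_assoc, e2, ← mul_assoc _ (1 - _), u3]
    simp only [mul_assoc, e2]
  let N : K → B := fun k => ∑ o, X (some (k, o)) * Y o
  have N1 : ∀ k j Z, (∀ o, some (k, o) ≠ j) → star (N k) * (X j * Z) = 0 := fun k j Z hj => by
    rw [star_sum, Finset.sum_mul]
    refine Finset.sum_eq_zero fun o _ => ?_
    rw [star_mul, mul_assoc, ← mul_assoc (star (X _)), X3 _ _ (hj o), zero_mul, mul_zero]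
  have τ1 : 0 ≤ 1 - Ps 1 * Ps 1 := sub_nonneg.2 (le_one_of_norm (sq_nonneg_sa (Q0 1 one_pos))
    ((norm_mul_le _ _).trans (mul_le_one₀ (Q1 1 one_pos) (norm_nonneg _) (Q1 1 one_pos))))
  refine ⟨fun l l' => P1 3 3 l l' three_pos, Ps 2, sq (1 - Ps 1 * Ps 1), fun t => X none * x t, N,
    Q3 2 two_pos, Q3 3 three_pos,
    cfc_mem_cl (Cn_closed S) _ (sub_mem (one_mem _) (mul_mem (Q3 1 one_pos) (Q3 1 one_pos))),
    fun t => mul_mem (X0 _) (x0 t), fun k => sum_mem fun o _ => mul_mem (X0 _) (Y0 o),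
    Q0 2 two_pos, le_one_of_norm (Q0 2 two_pos) (Q1 2 two_pos), Q0 3 three_pos,
    le_one_of_norm (Q0 3 three_pos) (Q1 3 three_pos), sq_star _, Q2 2 3 (by norm_num), ?_,
    fun t => X1 _ _ (h.s2 t), fun k => ?_, ?_, fun k k' hk => ?_, fun k => ?_,
    fun k t => N1 k _ _ (by simp)⟩
  · exact cfc_mul_eq_zero τ1.isSelfAdjoint (by
      rw [sub_mul, mul_assoc, Q2 1 2 one_lt_two, Q2 1 2 one_lt_two, one_mul, sub_self])
      Real.continuous_sqrt Real.sqrt_zero
  · rw [Finset.mul_sum]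
    exact Finset.sum_congr rfl fun o _ => X1 _ _ (Y1 o)
  · refine (congrArg (· * e) (Finset.sum_congr rfl fun t _ => ?_)).trans h.s3
    rw [star_mul, mul_assoc, ← mul_assoc (star (X _)), X2, h.s2]
  · conv_lhs => enter [2]; simp only [N]
    rw [Finset.mul_sum]
    exact Finset.sum_eq_zero fun o _ => N1 k _ _ (by simp [hk])
  · have e1 : star (N k) * N k = ∑ o, star (Y o) * Y o := by
      rw [star_sum, Finset.sum_mul_sum]
      refine Finset.sum_congr rfl fun o _ => ?_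
      rw [Finset.sum_eq_single o (fun o' _ ho => ?_) (by simp)]
      · rw [star_mul, mul_assoc, ← mul_assoc (star (X _)), X2, Y1]
      · rw [star_mul, mul_assoc, ← mul_assoc (star (X _)), X3 _ _ (by simpa using ho.symm),
          zero_mul, mul_zero]
    have e2 : Commute (Ps 1 * (1 - Ps 3)) e :=
      Cn_comm (mul_mem (Q3 1 one_pos) (sub_mem (one_mem _) (Q3 3 three_pos))) he
    change _ * ((1 - Ps 3) * e) = _ * ((1 - Ps 3) * e)
    rw [e1, ← mul_assoc, Y3, sq_mul_sq τ1, sub_sub_cancel, mul_assoc _ (Ps 1), mul_assoc, e2.eq,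
      mul_assoc, ← mul_assoc _ e, h.s3, ← e2.eq]
    simp only [mul_assoc]

end alg

noncomputable def rp (δ : ℝ) (m : ℕ) (t : ℝ) : ℝ := cl (t / δ - m)

@[fun_prop] lemma rp_cont (δ : ℝ) (m : ℕ) : Continuous (rp δ m) := by unfold rp; fun_prop

lemma rp_zero {δ t : ℝ} (hδ : 0 < δ) {m : ℕ} (hm : 0 < m) (h : t ≤ δ) : rp δ m t = 0 := by
  have : (1 : ℝ) ≤ m := by exact_mod_cast hm
  exact cl_of_nonpos (by linarith [(div_le_one hδ).2 h])

lemma rp_orth {δ t : ℝ} {m m' : ℕ} (h : m < m') : rp δ m' t * √(1 - rp δ m t) = 0 := by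
  have : (m : ℝ) + 1 ≤ m' := by exact_mod_cast h
  rcases le_total (t / δ) m' with h1 | h1
  · rw [rp, cl_of_nonpos (sub_nonpos.2 h1), zero_mul]
  · rw [rp.eq_def δ m, cl_of_one_le (by linarith)]; simp

variable {A : Type u} [CStarAlgebra A] [PartialOrder A] [StarOrderedRing A]

lemma Vis.jc {d : ℕ → CA A} {b : UA A} (h : Vis d b) {X : Type*} [TopologicalSpace X]
    [CompactSpace X] {ρ : C(X, ℝ) →ₐ[ℝ] UA A} {f g : C(X, ℝ)} (hg : ρ g = uT d 1)
    (hz : ∀ z, Commute (uφ d 1) z → Commute (uT d 1) z → ∀ g, Commute (ρ g) z) (hf : g ∣ f) :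
    Commute (ρ f) b := by
  obtain ⟨k, rfl⟩ := hf
  have c1 : Commute (uT d 1) b := h.1.symm.trans h.2
  have c2 := hz (uT d 1 * b) (h.1 ▸ (uφ_oz d).commute _) ((Commute.refl _).mul_right c1) k
  change _ * _ = _ * _
  conv_lhs => rw [mul_comm g]
  rw [map_mul, map_mul, hg, mul_assoc, c2.eq, c1.eq, mul_assoc]

theorem pack {n : ℕ} (hA : Ap (NonUnitalStarAlgHom.id ℂ A) (n + 1) False) (K : Type) [Fintype K]
    [Nonempty K] {e : UA A} (hs : ∀ (I : Type) [Fintype I], 2 ≤ Fintype.card I →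
      ∀ {S : Set (UA A)}, S.Finite → ∃ (c : I → UA A) (x : Option I → UA A) (γ : UA A),
        Slot e c x γ ∧ (∀ l, c l ∈ Cn S) ∧ ∀ s, x s ∈ Cn S)
    {S F : Set (UA A)} (hS : S.Finite) (he : e ∈ S) (hFS : F ⊆ S) (hF : ∀ a ∈ F, ‖a‖ ≤ 1)
    (g : Bool → UA A) (g0 : ∀ b, g b ∈ S ∧ 0 ≤ g b ∧ g b ≤ 1 ∧ ∀ a ∈ F, Commute (g b) a) :
    ∃ (Q Q' σ : UA A) (R : Option (Fin (n + 1) × Option (K × Option (Fin (n + 1) × Bool))) → UA A)
      (N : K → UA A), Pack S e Q Q' σ R N ∧ ∀ b, URep F (Q' * g b) := by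
  classical
  let J := Option (K × Option (Fin (n + 1) × Bool))
  obtain ⟨c, x, γ, h, c0, x0⟩ := hs (Fin (n + 1) × J) (Fintype.one_lt_card_iff.2
    ⟨(0, none), (0, some (Classical.arbitrary K, none)), by simp⟩) hS
  set S' := S ∪ Set.range c ∪ Set.range x with hS'
  have f1 : S'.Finite := (hS.union (Set.finite_range c)).union (Set.finite_range x)
  let V : Set (UA A) := (S' ∪ star '' S') ∪ ⋃ p : (Fin (n + 1) × J) × Bool,
    (fun a => gr 3 (c p.1) * g p.2 * a) '' insert 1 F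
  have f2 : (insert 1 V).Finite := ((f1.union (f1.image _)).union
    (Set.finite_iUnion fun p => ((hS.subset hFS).insert 1).image _)).insert 1
  haveI := f2.fintype
  obtain ⟨d, -, d1, d2, -⟩ := hA.ultra ⟨Function.injective_id, fun a b => ⟨a * b, rfl⟩⟩ (w := 1)
    (fun k => ⟨_, rfl⟩) zero_le_one le_rfl (fun b : (insert 1 V : Set (UA A)) => b) (by simp)
  have v0 : ∀ i, ∀ b ∈ V, Vis (d i) b := fun i b hb => d1 i ⟨b, Or.inr hb⟩
  have v1 : ∑ i, uT (d i) 1 = 1 := d2 ⟨1, Or.inl rfl⟩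
  have i0 := fun i => (uφ_oz (d i)).cp.one_nonneg
  have h0 := fun i => (uT_cp (d i)).one_nonneg
  choose X _ _ ρ f JJ hf hz using fun i => exists_jc ![uφ (d i) 1, uT (d i) 1]
    (by simp [Fin.forall_fin_two, (i0 i).isSelfAdjoint, (h0 i).isSelfAdjoint])
    (by simpa [Fin.forall_fin_two] using ⟨(uφ_oz (d i)).commute _, ((uφ_oz (d i)).commute _).symm⟩)
  have fa : ∀ i, ρ i (f i 0) = uφ (d i) 1 := fun i => hf i 0
  have fb : ∀ i, ρ i (f i 1) = uT (d i) 1 := fun i => hf i 1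
  have p0 : ∀ i t, 0 ≤ f i 1 t := fun i => ((JJ i).pos _).1 (fb i ▸ h0 i)
  have p1 : ∀ i t, f i 1 t ≤ f i 0 t := fun i t => sub_nonneg.1 (((JJ i).pos (f i 0 - f i 1)).1 (by
    rw [map_sub, fa, fb]; exact sub_nonneg.2 (uT_one_le _)) t)
  have p2 : ∀ i t, f i 0 t ≤ 1 := fun i t => sub_nonneg.1 (((JJ i).pos (1 - f i 0)).1 (by
    rw [map_sub, map_one, fa]; exact sub_nonneg.2 (uφ_one _)) t)
  let rk : J → ℕ := fun j => Fintype.equivFin J j
  have r1 : ∀ j j', j ≠ j' → rk j ≠ rk j' := fun j j' hj h' =>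
    hj ((Fintype.equivFin J).injective (Fin.ext h'))
  have L1 : (1 : ℝ) ≤ Fintype.card J := by exact_mod_cast Fintype.card_pos
  set θ : ℝ := 1 / (2 * ((n : ℝ) + 1)) with hθ
  have θ0 : 0 < θ := by positivity
  have θ1 : θ ≤ 1 := by
    rw [hθ, div_le_one (by positivity)]; linarith [(Nat.cast_nonneg n : (0 : ℝ) ≤ n)]
  set δ : ℝ := θ / (4 * Fintype.card J) with hδ
  have δ0 : 0 < δ := by positivity
  have δ1 : δ ≤ θ := div_le_self θ0.le (by linarith)
  have gc := Gf_cont δ0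
  let s : ∀ i, C(X i, ℝ) := fun i => ⟨fun t => Gf δ (f i 0 t) * f i 1 t, by fun_prop⟩
  have s1 : ∀ i t, f i 1 t ≤ δ ^ 2 → s i t ≤ δ := fun i t ht =>
    calc Gf δ (f i 0 t) * f i 1 t ≤ δ⁻¹ * δ ^ 2 :=
          mul_le_mul (inv_anti₀ δ0 (le_max_right _ _)) ht (p0 i t) (by positivity)
      _ = δ := by field_simp
  have s2 : ∀ i t, f i 1 t ≤ s i t := fun i t => le_mul_of_one_le_left (p0 i t)
    ((one_le_inv₀ (δ0.trans_le (le_max_right _ _))).2 (max_le (p2 i t) (δ1.trans θ1)))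
  have s3 : ∀ i, ρ i (s i) = cfc (Gf δ) (uφ (d i) 1) * uT (d i) 1 := fun i => by
    rw [← fa, ← fb, (JJ i).cfc (f i 0) ⟨fun t => Gf δ (f i 0 t), by fun_prop⟩ _ gc fun _ => rfl,
      ← map_mul]
    rfl
  have cen : ∀ i (k : C(X i, ℝ)), (∀ t, f i 1 t ≤ δ ^ 2 → k t = 0) → ρ i k ∈ Cn S' :=
    fun i k hk => by
      have := fun b hb => (v0 i b hb).jc (fb i) (fun z h1 h2 => hz i z (by
        simp [Fin.forall_fin_two, h1, h2])) (exists_fac (by positivity) hk)
      exact mem_Cn.2 fun b hb => ⟨(this b (Or.inl (Or.inl hb))).symm,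
        (this _ (Or.inl (Or.inr ⟨b, hb, rfl⟩))).symm⟩
  let a : ℕ → (l : Fin (n + 1) × J) → C(X l.1, ℝ) := fun m l =>
    ⟨fun t => rp δ (4 * rk l.2 + m) (f l.1 0 t) * rp δ (4 * rk l.2 + m) (s l.1 t), by fun_prop⟩
  let u : Bool → (l : Fin (n + 1) × J) → C(X l.1, ℝ) := fun b l => a 1 l * cond b
    ⟨fun t => √(1 - rp δ (4 * rk l.2 + 4) (f l.1 0 t)), by fun_prop⟩
    ⟨fun t => √(rp δ (4 * rk l.2 + 4) (f l.1 0 t)) * √(1 - rp δ (4 * rk l.2 + 4) (s l.1 t)),
      by fun_prop⟩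
  have a0 : ∀ m l, 0 < m → ∀ t, f l.1 1 t ≤ δ ^ 2 → a m l t = 0 := fun m l hm t ht => by
    simp only [a, ContinuousMap.coe_mk]
    rw [rp_zero δ0 (t := s l.1 t) (by omega) (s1 _ t ht), mul_zero]
  let w : ∀ i, C(X i, ℝ) := fun i => ⟨fun t => √(max (f i 1 t - θ) 0), by fun_prop⟩
  have w0 : ∀ i, ρ i (w i) ∈ Cn S' := fun i => cen i _ fun t ht => by
    simp only [w, ContinuousMap.coe_mk]
    rw [max_eq_right (by nlinarith), Real.sqrt_zero]
  set T := ∑ i, ρ i (w i) * ρ i (w i) with hT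
  have T0 : algebraMap ℝ _ (1 / 2) ≤ T := by
    have e1 : algebraMap ℝ (UA A) (1 / 2) = ∑ i, ρ i (f i 1 - algebraMap ℝ _ θ) := by
      simp only [map_sub, fb, AlgHom.commutes, Finset.sum_sub_distrib, v1, Finset.sum_const,
        Finset.card_univ, Fintype.card_fin]
      rw [← map_nsmul, ← map_one (algebraMap ℝ (UA A)), ← map_sub, hθ, nsmul_eq_mul]
      congr 1
      push_cast
      field_simp
      norm_num
    rw [e1]
    refine Finset.sum_le_sum fun i _ => sub_nonneg.1 ?_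
    rw [← map_mul, ← map_sub]
    refine ((JJ i).pos _).2 fun t => ?_
    simp [w, Real.mul_self_sqrt (le_max_right _ _)]
  have T1 : IsSelfAdjoint T := isSelfAdjoint_sum _ fun i _ => by
    rw [← map_mul]; exact (JJ i).sa _
  have g2 := Gf_cont one_half_pos
  let y : Fin (n + 1) → UA A := fun i => ρ i (w i) * cfc (fun t => √(Gf (1 / 2) t)) T
  have a1 : ∀ m l, 0 ≤ ρ l.1 (a m l) ∧ ρ l.1 (a m l) ≤ 1 := fun m l =>
    ⟨((JJ _).pos _).2 fun t => mul_nonneg (cl_nonneg _) (cl_nonneg _), sub_nonneg.1 (by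
      rw [← map_one (ρ l.1), ← map_sub]
      exact ((JJ _).pos _).2 fun t =>
        sub_nonneg.2 (mul_le_one₀ (cl_le_one _) (cl_nonneg _) (cl_le_one _)))⟩
  obtain ⟨o, Q, σ, R, N, hP⟩ := pack_alg he h c0 x0 (fun m l => ρ l.1 (a m l))
    (fun b l => ρ l.1 (u b l)) y (fun m l hm => cen _ _ (a0 m l hm))
    (fun b l => cen _ _ fun t ht => by simp only [u, ContinuousMap.mul_apply, a0 1 l one_pos t ht,
      zero_mul])
    (fun i => mul_mem (w0 i) (cfc_mem_cl (Cn_closed _) _ (sum_mem fun i _ => mul_mem (w0 i) (w0 i))))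
    a1 (fun m m' l hm => by
      rw [← map_mul]
      congr 1
      ext t
      simp only [a, ContinuousMap.mul_apply, ContinuousMap.coe_mk, rp]
      rw [mul_mul_mul_comm, cl_tier (by omega), cl_tier (by omega)])
    (fun l => by
      simp only [y]
      rw [← mul_assoc, ← map_mul]
      congr 2
      ext t
      simp only [a, w, ContinuousMap.mul_apply, ContinuousMap.coe_mk, rp]
      rcases le_total (f l.1 1 t) θ with h1 | h1
      · rw [max_eq_right (sub_nonpos.2 h1), Real.sqrt_zero, mul_zero]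
      · have b1 : (rk l.2 : ℝ) + 1 ≤ Fintype.card J := by
          exact_mod_cast (Fintype.equivFin J l.2).2
        have b2 : ∀ r, θ ≤ r → cl (r / δ - (4 * rk l.2 + 3 : ℕ)) = 1 := fun r hr => by
          have : θ / δ = 4 * Fintype.card J := by rw [hδ]; field_simp
          refine cl_of_one_le ?_
          push_cast
          linarith [div_le_div_of_nonneg_right hr δ0.le]
        rw [b2 _ (h1.trans (p1 _ t)), b2 _ (h1.trans (s2 _ t)), one_mul, one_mul])
    (by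
      have b1 : ∀ i, star (y i) * y i = cfc (fun t => √(Gf (1 / 2) t)) T * (ρ i (w i) * ρ i (w i)) *
          cfc (fun t => √(Gf (1 / 2) t)) T := fun i => by
        simp only [y, star_mul, (JJ _).sa, IsSelfAdjoint.cfc.star_eq, mul_assoc]
      simp only [b1, ← Finset.mul_sum, ← Finset.sum_mul]
      rw [← hT, cfc_mul_id (by fun_prop) T1, cfc_mul' (by fun_prop) (by fun_prop),
        ← cfc_const_one ℝ T]
      refine cfc_congr fun t ht => ?_
      have := (algebraMap_le_iff_le_spectrum T1).1 T0 t ht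
      rw [mul_right_comm, Real.mul_self_sqrt (Gf_nonneg one_half_pos), Gf, max_eq_left this,
        inv_mul_cancel₀ (by linarith)])
    (fun b l => (JJ _).sa _)
    (fun b i j j' hj => by
      have : ∀ j j', rk j < rk j' → u b (i, j) * u b (i, j') = 0 := fun j j' hj => by
        ext t
        have b1 := fun r => rp_orth (δ := δ) (t := r) (show 4 * rk j + 4 < 4 * rk j' + 1 by omega)
        cases b <;> simp only [u, a, cond, ContinuousMap.mul_apply, ContinuousMap.coe_mk,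
          ContinuousMap.zero_apply]
        · linear_combination (exp := 1) (rp δ (4 * rk j + 1) (f i 0 t) * rp δ (4 * rk j + 1) (s i t) *
            √(rp δ (4 * rk j + 4) (f i 0 t)) * rp δ (4 * rk j' + 1) (f i 0 t) *
            (√(rp δ (4 * rk j' + 4) (f i 0 t)) * √(1 - rp δ (4 * rk j' + 4) (s i t)))) * b1 (s i t)
        · linear_combination (exp := 1) (rp δ (4 * rk j + 1) (f i 0 t) * rp δ (4 * rk j + 1) (s i t) *
            rp δ (4 * rk j' + 1) (s i t) * √(1 - rp δ (4 * rk j' + 4) (f i 0 t))) * b1 (f i 0 t)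
      rw [← map_mul]
      rcases lt_or_gt_of_ne (r1 j j' hj) with h1 | h1
      · rw [this _ _ h1, map_zero]
      · rw [mul_comm, this _ _ h1, map_zero])
    (fun l => by
      rw [← map_one (ρ l.1)]
      simp only [← map_mul, ← map_add, ← map_sub]
      congr 1
      ext t
      have b1 := fun r : ℝ => cl_tier (x := r / δ) (show 4 * rk l.2 + 3 < 4 * rk l.2 + 4 by omega)
      have b2 := fun r : ℝ => Real.mul_self_sqrt (cl_nonneg r)
      have b3 := fun r : ℝ => Real.mul_self_sqrt (sub_nonneg.2 (cl_le_one r))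
      simp only [u, a, cond, ContinuousMap.mul_apply, ContinuousMap.coe_mk, ContinuousMap.add_apply,
        ContinuousMap.sub_apply, ContinuousMap.one_apply, rp]
      rw [mul_mul_mul_comm, b3, mul_mul_mul_comm _ (√_ * √_), mul_mul_mul_comm √_, b2, b3]
      have c1 := b1 (f l.1 0 t)
      have c2 := b1 (s l.1 t)
      generalize cl (f l.1 0 t / δ - (4 * rk l.2 + 1 : ℕ)) * cl (s l.1 t / δ - (4 * rk l.2 + 1 : ℕ)) = r
      generalize cl (f l.1 0 t / δ - (4 * rk l.2 + 3 : ℕ)) = r1 at *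
      generalize cl (f l.1 0 t / δ - (4 * rk l.2 + 4 : ℕ)) = r2 at *
      generalize cl (s l.1 t / δ - (4 * rk l.2 + 3 : ℕ)) = r3 at *
      generalize cl (s l.1 t / δ - (4 * rk l.2 + 4 : ℕ)) = r4 at *
      linear_combination (r * r * r3 * r4) * c1 + (r * r * r2) * c2)
  refine ⟨Q, _, σ, R, N, hP, fun b => ?_⟩
  obtain ⟨g1, g3, g4, g5⟩ := g0 b
  have k1 : ∀ l, Commute (gr 3 (c l)) (g b) := fun l => Cn_comm (gr_mem (c0 l) 3) g1
  have k2 := fun l => mul_unit (gr_nonneg 3 (c l)) (gr_le _ _) g3 g4 (k1 l)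
  have k3 : ∀ l, ρ l.1 (a 3 l) ∈ Cn S' := fun l => cen _ _ (a0 3 l three_pos)
  have k4 : ∀ l, Commute (ρ l.1 (a 3 l)) (g b) := fun l => Cn_comm (k3 l) (Or.inl (Or.inl g1))
  rw [Finset.sum_mul]
  refine URep.sum hF _ _ (fun l _ => ?_) (fun l _ => ?_) fun l _ l' _ hl => ?_
  · have := piece hF (d l.1) δ0 (rp_cont δ (4 * rk l.2 + 3)) (rp_cont δ (4 * rk l.2 + 3))
      (fun t => rp_zero δ0 (by omega)) (fun t => rp_zero δ0 (by omega))
      (fun t => ⟨cl_nonneg _, cl_le_one _⟩) (fun t => ⟨cl_nonneg _, cl_le_one _⟩) (k2 l).1 (k2 l).2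
      (fun a ha => (Cn_comm (gr_mem (c0 l) 3) (hFS ha)).mul_left (g5 a ha))
      (v0 _ _ (Or.inr (Set.mem_iUnion.2 ⟨(l, b), 1, Or.inl rfl, mul_one _⟩)))
      fun a ha => v0 _ _ (Or.inr (Set.mem_iUnion.2 ⟨(l, b), a, Or.inr ha, rfl⟩))
    rwa [← s3, ← fa, (JJ _).cfc _ ⟨fun t => rp δ (4 * rk l.2 + 3) (f l.1 0 t), by fun_prop⟩ _
      (rp_cont _ _) fun _ => rfl, (JJ _).cfc _ ⟨fun t => rp δ (4 * rk l.2 + 3) (s l.1 t),
      by fun_prop⟩ _ (rp_cont _ _) fun _ => rfl, ← map_mul, ← mul_assoc] at this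
  · rw [mul_assoc]
    refine Commute.mul_nonneg (a1 3 l).1 (k2 l).1 (Commute.mul_right ?_ (k4 l))
    exact (((Cn_comm (k3 l) (Or.inl (Or.inr ⟨l, rfl⟩))).mul_right
      (Cn_comm' (k3 l) (Or.inl (Or.inr ⟨l, rfl⟩)))).symm.cfc_real _).symm
  · rw [mul_assoc _ (g b), ← mul_assoc (g b), ← ((k4 l').mul_left (k1 l')).eq, mul_assoc _ (g b),
      ← mul_assoc, o l l' hl, zero_mul]

end Pool.Agent.Lib.MP_30b5b4_an
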