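import Pool.Agent.Lib.MP_30b5b4_an.Z5

/-! Stacking the levels. -/

open scoped CStarAlgebra ComplexOrder Topology
open Filter

set_option linter.unusedSectionVars false
set_option linter.style.haveILetI false
set_option linter.unusedSimpArgs false
set_option linter.unusedVariables false

namespace Pool.Agent.Lib.MP_30b5b4_an

universe u

section alg
variable {B : Type u} [CStarAlgebra B] [PartialOrder B] [StarOrderedRing B]
  {T K α : Type} [Fintype T]

structure St (S : Set B) (e : B) (P : Finset α) (q r ρ : B) (Z : K → B) (R : α → T → B) :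
    Prop where
  mq : q ∈ Cn S
  mr : r ∈ Cn S
  mρ : ρ ∈ Cn S
  mZ : ∀ k, Z k ∈ Cn S
  mR : ∀ s t, R s t ∈ Cn S
  q0 : 0 ≤ q
  q1 : q ≤ 1
  r0 : 0 ≤ r
  r1 : r ≤ 1
  ρ0 : star ρ = ρ
  qr : q * r = 0
  rρ : r * ρ = ρ
  qZ : ∀ k, q * Z k = Z k
  ZZ : ∀ k k', k ≠ k' → star (Z k) * Z k' = 0
  ZZ' : ∀ k, star (Z k) * Z k * ((1 - q) * e) = (1 - ρ * ρ) * ((1 - q) * e)
  qR : ∀ s t, q * R s t = R s t
  RR : ∀ s ∈ P, (∑ t, star (R s t) * R s t) * e = ρ * ρ * e
  RR' : ∀ s s', s ≠ s' → ∀ t, star (R s t) * R s' t = 0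
  ZR : ∀ k s t, star (Z k) * R s t = 0

lemma St.init (S : Set B) (e : B) : St S e (∅ : Finset α) 0 1 1 (0 : K → B) (0 : α → T → B) := by
  constructor <;> simp [zero_mem, one_mem]

lemma St.step [DecidableEq α] {S S' : Set B} {e q r ρ Q Q' σ : B} {P : Finset α} {Z N : K → B}
    {R : α → T → B} {R' : T → B} (h : St S e P q r ρ Z R) (p : Pack S' e Q Q' σ R' N) (he : e ∈ S)
    (hS : S ⊆ S') (hq : q ∈ S') (hr : r ∈ S') (hρ : ρ ∈ S') (hZ : ∀ k, Z k ∈ S')
    (hR : ∀ s t, R s t ∈ S') (a : α) :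
    St S e (insert a P) (q + Q' * r) (r * (1 - Q)) (ρ * σ) (fun k => Z k + N k * ρ)
      fun s t => if s = a then R' t * (ρ * σ) else R s t * σ := by
  have sq := h.q0.star_eq
  have sr := h.r0.star_eq
  have rq : r * q = 0 := by rw [← sq, ← sr, ← star_mul, h.qr, star_zero]
  have qρ : q * ρ = 0 := by rw [← h.rρ, ← mul_assoc, h.qr, zero_mul]
  have ρq : ρ * q = 0 := by rw [← sq, ← h.ρ0, ← star_mul, qρ, star_zero]
  have ρr : ρ * r = ρ := by rw [← sr, ← h.ρ0, ← star_mul, h.rρ]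
  have ρZ : ∀ k, ρ * Z k = 0 := fun k => by rw [← h.qZ, ← mul_assoc, ρq, zero_mul]
  have Zρ : ∀ k, star (Z k) * ρ = 0 := fun k => by rw [← h.ρ0, ← star_mul, ρZ, star_zero]
  have QQ : Q' * Q = Q' := by rw [← p.Q0.star_eq, ← p.Q0'.star_eq, ← star_mul, p.QQ]
  have Qσ : Q * σ = 0 := by rw [← p.Q0.star_eq, ← p.σ0, ← star_mul, p.σQ, star_zero]
  have σQ : σ * Q' = 0 := by rw [← p.QQ, ← mul_assoc, p.σQ, zero_mul]
  have σR : ∀ t, σ * R' t = 0 := fun t => by rw [← p.QR, ← mul_assoc, σQ, zero_mul]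
  have Nσ : ∀ k, star (N k) * σ = 0 := fun k => by
    rw [← p.σ0, ← star_mul, ← p.QN, ← mul_assoc, σQ, zero_mul, star_zero]
  have c1 := Cn_comm p.mQ' hr
  have c2 := Cn_comm p.mσ hρ
  have c3 : star (ρ * σ) = ρ * σ := by rw [star_mul, p.σ0, h.ρ0, c2.eq]
  have u1 := mul_unit p.Q0' p.Q1' h.r0 h.r1 c1
  have o1 : q * (Q' * r) = 0 := by rw [c1.eq, ← mul_assoc, h.qr, zero_mul]
  have u2 := mul_unit h.r0 h.r1 (sub_nonneg.2 p.Q1) (sub_le_self _ p.Q0)
    ((Commute.one_right r).sub_right (Cn_comm p.mQ hr).symm)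
  have m := fun {z : B} (hz : z ∈ Cn S') => Cn_mono hS hz
  have z1 : ∀ k k', star (Z k + N k * ρ) * (Z k' + N k' * ρ) =
      star (Z k) * Z k' + ρ * (star (N k) * N k') * ρ := fun k k' => by
    rw [star_add, star_mul, h.ρ0, add_mul, mul_add, mul_add, ← mul_assoc (star (Z k)),
      ← (Cn_comm' (p.mN k') (hZ k)).eq, mul_assoc (N k'), Zρ,
      ← (Cn_comm (star_mem (p.mN k)) hρ).eq, mul_assoc (star (N k)), ρZ,
      (Cn_comm (star_mem (p.mN k)) hρ).eq]
    simp only [mul_zero, add_zero, zero_add, mul_assoc]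
  have z2 : ∀ s t, s ≠ a → star (R s t * σ) * (R' t * (ρ * σ)) = 0 := fun s t hs => by
    rw [star_mul, p.σ0, (Cn_comm' p.mσ (hR s t)).eq, mul_assoc, ← mul_assoc σ, σR, zero_mul, mul_zero]
  have n1 : ∀ y w, y ∈ Cn S' → Q' * y = y → q * w = 0 → r * w = w →
      (q + Q' * r) * (y * w) = y * w := fun y w h1 h2 h3 h4 => by
    rw [add_mul, ← mul_assoc q, ← (Cn_comm h1 hq).eq, mul_assoc _ q, h3, mul_zero, zero_add,
      mul_assoc, ← mul_assoc r, ← (Cn_comm h1 hr).eq, mul_assoc, h4, ← mul_assoc, h2]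
  have n2 : ∀ y, q * y = y → (q + Q' * r) * y = y := fun y hy => by
    rw [add_mul, hy, mul_assoc, ← hy, ← mul_assoc r, rq, zero_mul, mul_zero, add_zero]
  have n3 : ∀ (y : T → B) w, star w = w → ∑ t, star (y t * w) * (y t * w) =
      w * (∑ t, star (y t) * y t) * w := fun y w hw => by
    simp only [star_mul, hw, Finset.mul_sum, Finset.sum_mul, mul_assoc]
  refine ⟨add_mem h.mq (mul_mem (m p.mQ') h.mr), mul_mem h.mr (sub_mem (one_mem _) (m p.mQ)),
    mul_mem h.mρ (m p.mσ), fun k => add_mem (h.mZ k) (mul_mem (m (p.mN k)) h.mρ), fun s t => ?_,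
    add_nonneg h.q0 u1.1, le_one_of_norm (add_nonneg h.q0 u1.1) (add_le_of_orth h.q0 u1.1 o1
      (norm_le_one_of h.q0 h.q1) (norm_le_one_of u1.1 u1.2)), u2.1, u2.2, c3, ?_, ?_, fun k => ?_,
    fun k k' hk => ?_, fun k => ?_, fun s t => ?_, fun s hs => ?_, fun s s' hs t => ?_,
    fun k s t => ?_⟩
  · split_ifs
    · exact mul_mem (m (p.mR t)) (mul_mem h.mρ (m p.mσ))
    · exact mul_mem (h.mR s t) (m p.mσ)
  · rw [add_mul, ← mul_assoc, h.qr, ← mul_assoc, mul_assoc Q', (c1.mul_right c1).eq,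
      mul_assoc _ Q', mul_sub Q', QQ]
    simp
  · rw [mul_assoc, sub_mul, one_mul, ← mul_assoc Q, (Cn_comm p.mQ hρ).eq, mul_assoc, Qσ, mul_zero,
      sub_zero, ← mul_assoc, h.rρ]
  · rw [mul_add, n2 _ (h.qZ k), n1 _ _ (p.mN k) (p.QN k) qρ h.rρ]
  · rw [z1, h.ZZ k k' hk, p.NN k k' hk]; simp
  · have e1 : (1 - (q + Q' * r)) * e = (1 - q) * e * (1 - Q' * r) := by
      rw [mul_assoc, ← (Cn_comm (sub_mem (one_mem _) (mul_mem (m p.mQ') h.mr)) he).eq, ← mul_assoc,
        sub_mul _ q, mul_sub q, o1]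
      simp only [one_mul, mul_one, sub_zero, sub_sub, add_comm]
    have e2 : ρ * ((1 - (q + Q' * r)) * e) = (1 - Q') * e * ρ := by
      rw [← mul_assoc, mul_sub, mul_add, ρq, c1.eq, ← mul_assoc, ρr, mul_assoc _ e,
        ← (Cn_comm h.mρ he).eq, ← mul_assoc, sub_mul _ Q', (Cn_comm p.mQ' hρ).eq]
      simp
    have e3 : ρ * (star (N k) * N k) * ρ * ((1 - (q + Q' * r)) * e) =
        (ρ * ρ - ρ * σ * (ρ * σ)) * ((1 - (q + Q' * r)) * e) := by
      rw [mul_assoc, e2, mul_assoc, ← mul_assoc _ _ ρ, p.NN', mul_assoc, ← e2, ← c2.eq]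
      conv_rhs => enter [1, 2, 1]; rw [c2.eq]
      noncomm_ring
    rw [z1, add_mul, e3]
    conv_lhs => enter [1]; rw [e1, ← mul_assoc, h.ZZ', mul_assoc, ← e1]
    noncomm_ring
  · split_ifs
    · exact n1 _ _ (p.mR t) (p.QR t) (by rw [← mul_assoc, qρ, zero_mul]) (by rw [← mul_assoc, h.rρ])
    · exact n2 _ (by rw [← mul_assoc, h.qR])
  · have e1 := Cn_comm (m p.mσ) he
    split_ifs with hs'
    · have e2 := (Cn_comm h.mρ he).mul_left e1
      rw [n3 _ _ c3, mul_assoc, e2.eq, mul_assoc, ← mul_assoc _ e, p.RR, ← e2.eq, ← mul_assoc]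
    · rw [n3 _ _ p.σ0, mul_assoc, e1.eq, mul_assoc, ← mul_assoc _ e,
        h.RR s ((Finset.mem_insert.1 hs).resolve_left hs'), mul_assoc, ← e1.eq]
      conv_rhs => enter [1, 1]; rw [← c2.eq]
      simp only [mul_assoc]
  · split_ifs with h1 h2 h2
    · exact (hs (h1.trans h2.symm)).elim
    · rw [← star_star (R s' t * σ), ← star_mul, z2 s' t h2, star_zero]
    · exact z2 s t h1
    · rw [star_mul, mul_assoc, ← mul_assoc (star (R s t)), h.RR' s s' hs, zero_mul, mul_zero]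
  · rw [star_add, star_mul, add_mul, mul_assoc]
    split_ifs
    · rw [← mul_assoc (star (N k)), p.NR, ← mul_assoc (star (Z k)),
        ← (Cn_comm' (p.mR t) (hZ k)).eq, mul_assoc, ← mul_assoc (star (Z k)), Zρ]
      simp
    · rw [← mul_assoc (star (Z k)), h.ZR, ← mul_assoc (star (N k)),
        (Cn_comm (star_mem (p.mN k)) (hR s t)).eq, mul_assoc _ _ σ, Nσ]
      simp

lemma St.finish [Fintype α] {S : Set B} {e q r ρ : B} {Z : K → B} {R : α → T → B}
    (h : St S e Finset.univ q r ρ Z R) (he : e ∈ S) (ι : α → T × K) (hι : Function.Injective ι) :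
    ∃ V : α → T → B, (∀ s t, V s t ∈ Cn S) ∧ (∀ s t, q * V s t = V s t) ∧
      (∀ s, (∑ t, star (V s t) * V s t) * ((1 - q) * e) = (1 - q) * e) ∧
      ∀ s s', s ≠ s' → ∀ t, star (V s t) * V s' t = 0 := by
  classical
  let Y : α → T → B := fun s t => if t = (ι s).1 then Z (ι s).2 else 0
  have y1 : ∀ s s' t, star (Y s t) * R s' t = 0 := fun s s' t => by
    simp only [Y]; split_ifs <;> simp [h.ZR]
  have y2 : ∀ s s' t, star (R s t + Y s t) * (R s' t + Y s' t) =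
      star (R s t) * R s' t + star (Y s t) * Y s' t := fun s s' t => by
    have := congrArg star (y1 s' s t)
    rw [star_mul, star_star, star_zero] at this
    rw [star_add, add_mul, mul_add, mul_add, this, y1, add_zero, zero_add]
  refine ⟨fun s t => R s t + Y s t, fun s t => add_mem (h.mR s t) ?_, fun s t => ?_, fun s => ?_,
    fun s s' hs t => ?_⟩
  · simp only [Y]; split_ifs
    exacts [h.mZ _, zero_mem _]
  · rw [mul_add, h.qR]
    simp only [Y]; split_ifs <;> simp [h.qZ]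
  · have e1 := (Cn_comm (sub_mem (one_mem _) h.mq) he).eq
    have e2 : ∑ t, star (Y s t) * Y s t = star (Z (ι s).2) * Z (ι s).2 := by
      rw [Finset.sum_eq_single (ι s).1 (fun t _ ht => by simp [Y, ht]) (by simp)]
      simp [Y]
    simp only [y2, Finset.sum_add_distrib, add_mul]
    rw [e2, h.ZZ']
    conv_lhs => enter [1]; rw [e1, ← mul_assoc, h.RR s (Finset.mem_univ _), mul_assoc, ← e1]
    noncomm_ring
  · rw [y2, h.RR' s s' hs, zero_add]
    simp only [Y]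
    split_ifs with h1 h2
    · exact h.ZZ _ _ fun h3 => hs (hι (Prod.ext (h1.symm.trans h2) h3))
    all_goals simp

section
variable {I : Type} [Fintype I] {e γ : B} {c : I → B} {x : Option I → B}

lemma Slot.gr_mul (h : Slot e c x γ) {l l' : I} (hl : l ≠ l') : gr 3 (c l) * c l' = 0 :=
  cfc_mul_eq_zero (mul_star_self_nonneg _).isSelfAdjoint
    (by rw [mul_assoc, h.s1' l l' hl, mul_zero]) (by fun_prop) (cl_of_nonpos (by simp))

lemma Slot.weight (h : Slot e c x γ) (μ : I → ℝ) (μ0 : ∀ l, 0 ≤ μ l) (μ1 : ∀ l, μ l ≤ 1) :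
    0 ≤ ∑ l, μ l • gr 3 (c l) ∧ ∑ l, μ l • gr 3 (c l) ≤ 1 ∧ ∀ l y, γ * y = y →
      (∑ l, μ l • gr 3 (c l)) * (c l * y) = μ l • (c l * y) := by
  have a0 : ∀ l, 0 ≤ μ l • gr 3 (c l) := fun l => smul_nonneg (μ0 l) (gr_nonneg _ _)
  have a1 := Finset.sum_nonneg fun l (_ : l ∈ Finset.univ) => a0 l
  refine ⟨a1, le_one_of_norm a1 (sum_le_of_orth _ _ zero_le_one (fun l _ => a0 l)
    (fun l _ l' _ hl => ?_) fun l _ => ?_), fun l y hy => ?_⟩
  · have : gr 3 (c l) * gr 3 (c l') = 0 := mul_cfc_eq_zero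
      (mul_star_self_nonneg _).isSelfAdjoint (by rw [← mul_assoc, h.gr_mul hl, zero_mul])
      (by fun_prop) (cl_of_nonpos (by simp))
    rw [smul_mul_smul_comm, this, smul_zero]
  · rw [norm_smul, Real.norm_of_nonneg (μ0 l)]
    exact mul_le_one₀ (μ1 l) (norm_nonneg _) (norm_le_one_of (gr_nonneg _ _) (gr_le _ _))
  · have : gr 3 (c l) * (c l * y) = c l * y := cfc_mul_eq_self
      (mul_star_self_nonneg _).isSelfAdjoint (by rw [mul_assoc, ← mul_assoc (star _), h.s1, hy])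
      (by fun_prop) (cl_of_one_le (by norm_num))
    rw [Finset.sum_mul, Finset.sum_eq_single l (fun l' _ hl => by
      rw [smul_mul_assoc, ← mul_assoc, h.gr_mul hl, zero_mul, smul_zero]) (by simp), smul_mul_assoc,
      this]

end

lemma copies {L : Type} [Fintype L] {S S' : Set B} {e γ q : B} {c : L × T → B}
    {x : Option (L × T) → B} (h : Slot e c x γ) (hS : S ⊆ S') (he : e ∈ S) (c0 : ∀ l, c l ∈ Cn S)
    (x0 : ∀ s, x s ∈ Cn S) (c1 : ∀ l, c l ∈ S') (x1 : ∀ s, x s ∈ S') (hq : q ∈ Cn S')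
    {V : Option (L × T) → T → B} (v0 : ∀ s t, V s t ∈ Cn S') (v1 : ∀ s t, q * V s t = V s t)
    (v2 : ∀ s, (∑ t, star (V s t) * V s t) * ((1 - q) * e) = (1 - q) * e)
    (v3 : ∀ s s', s ≠ s' → ∀ t, star (V s t) * V s' t = 0) (μ : L → ℝ) (μ0 : ∀ l, 0 ≤ μ l)
    (μ1 : ∀ l, μ l ≤ 1) : ∃ v : L → B, (∀ p, v p ∈ Cn S) ∧ (∀ p, q * v p = v p) ∧
      (∀ p, star (v p) * v p * ((1 - q) * e) = (1 - q) * e) ∧
      (∀ p p', p ≠ p' → star (v p) * v p' = 0) ∧
      ∀ p, (∑ l, μ l.1 • gr 3 (c l)) * v p = μ p • v p := by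
  let w : T → B := fun t => ∑ s, V s t * x s
  have w1 : ∀ (p : L) t, γ * w t = w t := fun p t => by
    simp only [w, Finset.mul_sum]
    refine Finset.sum_congr rfl fun s _ => ?_
    have : Commute (V s t) γ := by
      rw [← h.s1 (p, t)]
      exact (Cn_comm' (v0 s t) (c1 _)).mul_right (Cn_comm (v0 s t) (c1 _))
    rw [← mul_assoc, ← this.eq, mul_assoc, h.s2]
  have w2 : (∑ t, star (w t) * w t) * ((1 - q) * e) = (1 - q) * e := by
    have a1 : ∀ t, star (w t) * w t = ∑ s, star (x s) * (star (V s t) * V s t * x s) := fun t => by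
      rw [star_sum, Finset.sum_mul_sum]
      refine Finset.sum_congr rfl fun s _ => ?_
      rw [Finset.sum_eq_single s (fun s' _ hs => ?_) (by simp)]
      · simp only [star_mul, mul_assoc]
      · rw [star_mul, mul_assoc, ← mul_assoc (star (V _ _)), v3 _ _ hs.symm, zero_mul, mul_zero]
    have a2 := (Cn_comm (sub_mem (one_mem _) hq) (hS he)).eq
    have a3 : ∀ s, Commute (x s) ((1 - q) * e) := fun s =>
      (Cn_comm (sub_mem (one_mem _) hq) (x1 s)).symm.mul_right (Cn_comm (x0 s) he)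
    simp only [a1]
    rw [Finset.sum_comm, Finset.sum_mul]
    conv_rhs => rw [a2, ← h.s3, mul_assoc, ← a2, Finset.sum_mul]
    refine Finset.sum_congr rfl fun s _ => ?_
    rw [← Finset.mul_sum, ← Finset.sum_mul, mul_assoc, mul_assoc, (a3 s).eq, ← mul_assoc _ _ (x s),
      v2, ← (a3 s).eq, mul_assoc]
  refine ⟨fun p => ∑ t, c (p, t) * w t, fun p => sum_mem fun t _ => mul_mem (c0 _)
    (sum_mem fun s _ => mul_mem (Cn_mono hS (v0 s t)) (x0 s)), fun p => ?_, fun p => ?_,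
    fun p p' hp => ?_, fun p => ?_⟩
  · simp only [w, Finset.mul_sum]
    refine Finset.sum_congr rfl fun t _ => Finset.sum_congr rfl fun s _ => ?_
    rw [← mul_assoc, (Cn_comm hq (c1 _)).eq, mul_assoc, ← mul_assoc q, v1]
  · refine (congrArg (· * _) ?_).trans w2
    rw [star_sum, Finset.sum_mul_sum]
    refine Finset.sum_congr rfl fun t _ => ?_
    rw [Finset.sum_eq_single t (fun t' _ ht => ?_) (by simp)]
    · rw [star_mul, mul_assoc, ← mul_assoc (star (c _)), h.s1, w1 p]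
    · rw [star_mul, mul_assoc, ← mul_assoc (star (c _)), h.s1' _ _ (by simpa using ht.symm),
        zero_mul, mul_zero]
  · rw [star_sum, Finset.sum_mul_sum]
    refine Finset.sum_eq_zero fun t _ => Finset.sum_eq_zero fun t' _ => ?_
    rw [star_mul, mul_assoc, ← mul_assoc (star (c _)), h.s1' _ _ (by simp [hp]), zero_mul, mul_zero]
  · rw [Finset.mul_sum, Finset.smul_sum]
    exact Finset.sum_congr rfl fun t _ =>
      (h.weight (fun l => μ l.1) (fun l => μ0 _) fun l => μ1 _).2.2 (p, t) _ (w1 p t)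

lemma level' {g q e : B} (g0 : 0 ≤ g) (g1 : g ≤ 1) (q0 : 0 ≤ q) (q1 : q ≤ 1) (e0 : 0 ≤ e)
    (e1 : e ≤ 1) (qg : Commute q g) (qe : Commute q e) (ge : Commute g e) {M : ℕ} (hM : 0 < M)
    (v : Fin M → B) (v1 : ∀ p, q * v p = v p)
    (v2 : ∀ p, star (v p) * v p * ((1 - q) * e) = (1 - q) * e)
    (v3 : ∀ p p', p ≠ p' → star (v p) * v p' = 0)
    (v4 : ∀ p, g * v p = ((((p : ℕ) : ℝ) + 1) / M) • v p) {S : Set B} (hg : g ∈ Cn S)
    (hq : q ∈ Cn S) (he : e ∈ Cn S) (hv : ∀ p, v p ∈ Cn S) :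
    ∃ W ∈ unitary B, (∀ z ∈ S, Commute W z) ∧ ‖W * (g * (1 - (1 - q) * e)) - g * W‖ ≤ 12 / M := by
  have c1 : Commute (1 - q) e := (Commute.one_left e).sub_left qe
  have c2 : Commute g ((1 - q) * e) := ((Commute.one_right g).sub_right qg.symm).mul_right ge
  have c3 : Commute g (1 - (1 - q) * e) := (Commute.one_right g).sub_right c2
  obtain ⟨a0, a1⟩ := mul_unit (sub_nonneg.2 q1) (sub_le_self _ q0) e0 e1 c1
  have a2 : g - g * (1 - (1 - q) * e) = (1 - q) * e * g := by rw [← c2.eq]; noncomm_ring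
  obtain ⟨W, w1, w2, w3⟩ := level (c3.mul_nonneg g0 (sub_nonneg.2 a1))
    (mul_le_of_commute g0 (sub_le_self _ a0) c3) g1 ((Commute.refl g).mul_left c3.symm) hM
    (fun k => if h : k < M then v ⟨k, h⟩ else 0) (fun k hk => by
      rw [dif_pos hk, a2, ← c2.eq, c1.eq, mul_assoc, mul_assoc, sub_mul, v1, one_mul, sub_self,
        mul_zero, mul_zero])
    (fun k hk => by rw [dif_pos hk, a2, ← mul_assoc, v2])
    (fun k hk l hl hkl => by rw [dif_pos hk, dif_pos hl, v3 _ _ (by simpa using hkl), zero_mul])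
    (fun k hk => by rw [dif_pos hk, v4, smul_mul_assoc])
  refine ⟨W, w1, fun z hz => w2 z (Cn_comm (mul_mem hg (sub_mem (one_mem _)
    (mul_mem (sub_mem (one_mem _) hq) he))) hz) (Cn_comm hg hz) fun k hk => ?_, w3⟩
  rw [dif_pos hk]
  exact ⟨Cn_comm (hv _) hz, Cn_comm (star_mem (hv _)) hz⟩

end alg

section
variable {A : Type u} [CStarAlgebra A] [PartialOrder A] [StarOrderedRing A]

theorem stack {n : ℕ} (hA : Ap (NonUnitalStarAlgHom.id ℂ A) (n + 1) False) (K : Type) [Fintype K]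
    [Nonempty K] {e : UA A} (hs : ∀ (I : Type) [Fintype I], 2 ≤ Fintype.card I →
      ∀ {S : Set (UA A)}, S.Finite → ∃ (c : I → UA A) (x : Option I → UA A) (γ : UA A),
        Slot e c x γ ∧ (∀ l, c l ∈ Cn S) ∧ ∀ s, x s ∈ Cn S)
    {S F : Set (UA A)} (hS : S.Finite) (he : e ∈ S) (hFS : F ⊆ S) (hF : ∀ a ∈ F, ‖a‖ ≤ 1)
    (g : Bool → UA A) (g0 : ∀ b, g b ∈ S ∧ 0 ≤ g b ∧ g b ≤ 1 ∧ ∀ a ∈ F, Commute (g b) a)
    {α : Type} [Fintype α] (P : Finset α) : ∃ (q r ρ : UA A) (Z : K → UA A)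
      (R : α → Option (Fin (n + 1) × Option (K × Option (Fin (n + 1) × Bool))) → UA A),
      St S e P q r ρ Z R ∧ ∀ b, URep F (q * g b) := by
  classical
  induction P using Finset.induction_on with
  | empty => exact ⟨0, 1, 1, 0, 0, St.init S e, fun b => by rw [zero_mul]; exact URep.zero⟩
  | insert a P _ ih =>
    obtain ⟨q, r, ρ, Z, R, h, hu⟩ := ih
    let S' := S ∪ ({q, r, ρ} ∪ Set.range Z ∪ Set.range (Function.uncurry R) ∪
      Set.range fun b => r * g b)
    have c1 : ∀ b, Commute r (g b) := fun b => Cn_comm h.mr (g0 b).1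
    have u1 := fun b => mul_unit h.r0 h.r1 (g0 b).2.1 (g0 b).2.2.1 (c1 b)
    obtain ⟨Q, Q', σ, R', N, p, hp⟩ := pack hA K hs (S := S') (hS.union
      ((((Set.toFinite _).union (Set.finite_range _)).union (Set.finite_range _)).union
        (Set.finite_range _))) (Or.inl he) (fun _ ha => Or.inl (hFS ha)) hF (fun b => r * g b)
      fun b => ⟨Or.inr (Or.inr ⟨b, rfl⟩), (u1 b).1, (u1 b).2,
        fun a ha => (Cn_comm h.mr (hFS ha)).mul_left ((g0 b).2.2.2 a ha)⟩
    have hq : q ∈ S' := by simp [S']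
    refine ⟨_, _, _, _, _, h.step p he Set.subset_union_left hq (by simp [S']) (by simp [S'])
      (fun k => by simp [S']) (fun s t => Or.inr (Or.inl (Or.inr ⟨(s, t), rfl⟩))) a, fun b => ?_⟩
    have c2 := Cn_comm h.mq (g0 b).1
    have c3 := Cn_comm p.mQ' (show r * g b ∈ S' from Or.inr (Or.inr ⟨b, rfl⟩))
    rw [add_mul, mul_assoc]
    refine URep.add hF (hu b) (hp b) (c2.mul_nonneg h.q0 (g0 b).2.1) (c3.mul_nonneg p.Q0' (u1 b).1) ?_
    rw [c2.eq, c3.eq, mul_assoc, ← mul_assoc q, ← mul_assoc q, h.qr, zero_mul, zero_mul, mul_zero]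

end

variable {E : Type u} [NonUnitalCStarAlgebra E] [PartialOrder E] [StarOrderedRing E]

lemma fstS_ker (a : E⁺¹) : fstS E a = 0 ↔ ∃ b, inc E b = a := by
  refine ⟨fun h => ⟨a.snd, ?_⟩, ?_⟩
  · have h' : a.fst = 0 := h
    ext <;> simp [h']
  · rintro ⟨b, rfl⟩; rfl

lemma nucDimLE_complex : NucDimLE ℂ 0 := by
  refine Ap.nucDimLE (j := NonUnitalStarAlgHom.id ℂ ℂ) (d := False) (fun S ε hε => ?_)
    Function.injective_id
  have h1 : IsCP (LinearMap.id : ℂ →ₗ[ℂ] ℂ) := IsCP.of_hom id fun _ _ => rfl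
  exact ⟨fun _ => { F := ℂ
                    ψ := LinearMap.id
                    φ := LinearMap.id
                    cp := h1
                    le := fun _ => le_rfl
                    oz := ⟨h1, by simp⟩
                    one := le_rfl
                    mem := fun x => ⟨x, rfl⟩ }, False.elim, fun a _ => by simpa [Colour.T] using hε.le⟩

lemma NucDimLE.unitization {n : ℕ} (h : NucDimLE E n) : NucDimLE E⁺¹ n :=
  Ext.sum (ι := inc E) (π := (fstS E).toNonUnitalStarAlgHom)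
    ⟨(idl_inc E).inj, fun r => ⟨algebraMap ℂ _ r, AlgHomClass.commutes (fstS E) r⟩, fstS_ker⟩
    h nucDimLE_complex

theorem ZStable.reduce (h : ZStable E) {n : ℕ} (hn : NucDimLE E n) : NucDimLE E 1 := by
  classical
  refine (Ap.of_ball fun S ε hε hS => ?_).nucDimLE (idl_inc E).inj
  let F : Set (UA E⁺¹) := (fun a => dg (inc E a)) '' S
  have F0 : F.Finite := S.finite_toSet.image _
  have F1 : ∀ a ∈ F, ‖a‖ ≤ 1 := by
    rintro _ ⟨a, ha, rfl⟩
    exact (hom_norm_le _ _).trans ((NonUnitalStarAlgHom.norm_apply_le _ _).trans (hS a ha))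
  obtain ⟨e, e0, e1, e2, e3, e4⟩ := exists_tier F0
  have e5 : ∀ a ∈ F, e * a = a := fun a ha => e4 a ha (by
    obtain ⟨a, -, rfl⟩ := ha
    exact ⟨cst (inc E a), fun _ => ⟨a, rfl⟩, rfl⟩)
  obtain ⟨_, ⟨f, f0, rfl⟩, f1, f2, f3, f4⟩ := exists_tier (F0.insert e)
  have f5 : Ult.mk f * e = e := f4 e (by simp) e0
  have f6 : e * Ult.mk f = e := by rw [← e1.star_eq, ← f1.star_eq, ← star_mul, f5]
  obtain ⟨M, hM⟩ := exists_nat_gt (48 / ε)
  have M0 : (0 : ℝ) < M := lt_trans (by positivity) hM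
  have M1 : 0 < M := by exact_mod_cast M0
  let T := Option (Fin (n + 1) × Option (Fin (M + 2) × Option (Fin (n + 1) × Bool)))
  obtain ⟨c, x, γ, s, c0, x0⟩ := h.slot (Fin (M + 1) × T) (Fintype.one_lt_card_iff.2
    ⟨(0, none), (0, some (0, none)), by simp⟩) (F0.insert e) e0
  let μ : Fin (M + 1) → ℝ := fun p => (p : ℕ) / M
  have μ0 : ∀ p, 0 ≤ μ p := fun p => by positivity
  have μ1 : ∀ p, μ p ≤ 1 := fun p => (div_le_one M0).2 (by exact_mod_cast p.is_le)
  obtain ⟨u0, u1, -⟩ := s.weight (fun l => μ l.1) (fun l => μ0 _) fun l => μ1 _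
  set u := ∑ l, μ l.1 • gr 3 (c l) with hu
  have u2 : u ∈ Cn (insert e F) := sum_mem fun l _ => by
    rw [← Complex.coe_smul]; exact SMulMemClass.smul_mem _ (gr_mem (c0 l) 3)
  let g : Bool → UA E⁺¹ := fun b => cond b u (1 - u)
  have g0 : ∀ b, 0 ≤ g b ∧ g b ≤ 1 ∧ g b ∈ Cn (insert e F) := by
    rintro (_ | _)
    exacts [⟨sub_nonneg.2 u1, sub_le_self _ u0, sub_mem (one_mem _) u2⟩, ⟨u0, u1, u2⟩]
  have g1 : ∀ b, Commute (g b) e := fun b => Cn_comm (g0 b).2.2 (by simp)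
  let S' := insert e F ∪ (Set.range c ∪ Set.range x ∪ Set.range g ∪ Set.range fun b => g b * e)
  obtain ⟨q, r, ρ, Z, R, st, hq⟩ := stack (hn.unitization.ap _) (Fin (M + 2))
    (fun I _ hI S hS => h.slot I hI hS e0) (S := S') ((F0.insert e).union
      ((((Set.finite_range _).union (Set.finite_range _)).union (Set.finite_range _)).union
        (Set.finite_range _))) (Or.inl (Or.inl rfl)) (fun _ ha => Or.inl (Or.inr ha)) F1
    (fun b => g b * e) (fun b => ⟨Or.inr (Or.inr ⟨b, rfl⟩),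
      (mul_unit (g0 b).1 (g0 b).2.1 e1 e2 (g1 b)).1, (mul_unit (g0 b).1 (g0 b).2.1 e1 e2 (g1 b)).2,
      fun a ha => (Cn_comm (g0 b).2.2 (Or.inr ha)).mul_left (Cn_comm e3 ha)⟩)
    (Finset.univ : Finset (Option (Fin (M + 1) × T)))
  obtain ⟨V, v0, v1, v2, v3⟩ := st.finish (Or.inl (Or.inl rfl))
    (fun o => o.elim (none, Fin.last _) fun p => (p.2, p.1.castSucc)) (by
      rintro (_ | p) (_ | p') hp
      · rfl
      · exact ((Fin.castSucc_lt_last _).ne' (congrArg Prod.snd hp)).elim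
      · exact ((Fin.castSucc_lt_last _).ne (congrArg Prod.snd hp)).elim
      · exact congrArg some (Prod.ext (Fin.castSucc_injective _ (congrArg Prod.snd hp))
          (congrArg Prod.fst hp)))
  obtain ⟨v, w0, w1, w2, w3, w4⟩ := copies s Set.subset_union_left (Or.inl rfl) c0 x0
    (fun l => by simp [S']) (fun l => by simp [S']) st.mq v0 v1 v2 v3 μ μ0 μ1
  have q1 : ∀ b, Commute q (g b) := fun b => Cn_comm st.mq (Or.inr (Or.inl (Or.inr ⟨b, rfl⟩)))
  have q2 : Commute q e := Cn_comm st.mq (by simp [S'])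
  have m1 : ∀ {z}, z ∈ Cn (insert e F) → z ∈ Cn F := Cn_mono (Set.subset_insert _ _)
  have key : ∀ b, ∃ W ∈ unitary (UA E⁺¹), (∀ z ∈ F, Commute W z) ∧
      ‖W * (g b * (1 - (1 - q) * e)) - g b * W‖ ≤ 12 / M := fun b => by
    refine level' (g0 b).1 (g0 b).2.1 st.q0 st.q1 e1 e2 (q1 b) q2 (g1 b) M1
      (fun p => v (cond b p.succ p.rev.castSucc)) (fun p => w1 _) (fun p => w2 _)
      (fun p p' hp => w3 _ _ ?_) (fun p => ?_) (m1 (g0 b).2.2)
      (Cn_mono (fun _ ha => Or.inl (Or.inr ha)) st.mq) e3 fun p => m1 (w0 _)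
    · cases b <;> simpa using hp
    · cases b
      · simp only [g, cond]
        rw [sub_mul, w4, one_mul, sub_eq_iff_eq_add, ← add_smul]
        simp only [μ, Fin.val_castSucc, Fin.val_rev]
        rw [Nat.cast_sub p.2, ← add_div]
        simp [M0.ne']
      · simp only [g, cond]
        rw [w4]
        simp [μ]
  have fin : ∀ b, ∃ d : ℕ → Colour (inc E), ∀ a ∈ S,
      ‖sT d a - g b * dg (inc E a)‖ ≤ 3 * (ε / 24) + 12 / M := fun b => by
    obtain ⟨W, W1, W2, W3⟩ := key b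
    obtain ⟨W, rfl⟩ := Ult.surj W
    obtain ⟨d, hd⟩ := (hq b).finish (fstS E) fstS_ker F1 (w := W * f)
      (by simpa using (idl_inc E).Lf_both W 1 f0)
      (by rw [map_mul, CStarRing.norm_mem_unitary_mul _ W1]; exact norm_le_one_of f1 f2)
      (by rw [map_mul, star_mul, mul_assoc (star _), ← mul_assoc (star (Ult.mk W)), W1.1, one_mul,
        f1.star_eq, mul_assoc, mul_assoc, mul_sub, ← mul_assoc e, f6, f6, mul_one, sub_self,
        mul_zero, mul_zero]) (show 0 < ε / 24 by positivity)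
    refine ⟨d, fun a ha => ?_⟩
    have a0 : dg (inc E a) ∈ F := ⟨a, ha, rfl⟩
    have a1 := hd a a0
    generalize dg (inc E a) = y at a0 a1
    have a2 : y * Ult.mk f = y := by
      rw [← (Cn_comm f3 (Or.inr a0)).eq, ← e5 y a0, ← mul_assoc, f5]
    have a3 : y * star (Ult.mk W) = star (Ult.mk W) * y := by
      rw [← one_mul (y * _), ← W1.1, mul_assoc, ← mul_assoc (Ult.mk W), (W2 y a0).eq, mul_assoc,
        W1.2, mul_one]
    have a4 : Ult.mk (W * f) * (q * (g b * e) * y) * star (Ult.mk (W * f)) - g b * y =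
        (Ult.mk W * (g b * (1 - (1 - q) * e)) - g b * Ult.mk W) * star (Ult.mk W) * y := by
      have b1 : g b * (1 - (1 - q) * e) * y = q * (g b * e) * y := by
        rw [mul_assoc, sub_mul, mul_assoc _ e, e5 y a0, sub_mul, one_mul, sub_sub_cancel, mul_assoc,
          mul_assoc, e5 y a0, ← mul_assoc q, (q1 b).eq, mul_assoc]
      have b2 : Ult.mk f * (q * (g b * e) * y) = q * (g b * e) * y := by
        rw [(g1 b).eq, ← mul_assoc q, q2.eq, ← mul_assoc, ← mul_assoc, ← mul_assoc, f5]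
      rw [map_mul, star_mul, f1.star_eq, mul_assoc (Ult.mk W), b2, sub_mul, sub_mul,
        mul_assoc (g b) (Ult.mk W), W1.2, mul_one, mul_assoc _ (star _) y, ← a3, ← b1]
      simp only [mul_assoc, ← mul_assoc y, a2]
    have a5 := norm_add_le_of_le a1 (a4 ▸ norm_mul_le_of_le
      ((CStarRing.norm_mul_mem_unitary _ (Unitary.star_mem W1)).trans_le W3) (F1 y a0))
    rwa [sub_add_sub_cancel, mul_one] at a5
  choose d hd using fin
  refine sT_finish ![d true, d false] S fun a ha => ?_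
  have a1 := norm_add_le_of_le (hd true a ha) (hd false a ha)
  have a2 : 12 / (M : ℝ) < ε / 4 := by
    rw [div_lt_iff₀ hε] at hM
    rw [div_lt_iff₀ M0]; linarith
  refine lt_of_le_of_lt (le_trans (le_of_eq (congrArg _ ?_)) a1) (by linarith)
  simp only [Fin.sum_univ_two, Matrix.cons_val_zero, Matrix.cons_val_one, g, cond, sub_mul, one_mul]
  abel

theorem Ext.zstable {I D : Type*} [NonUnitalCStarAlgebra I] [PartialOrder I] [StarOrderedRing I]
    [NonUnitalCStarAlgebra D] [PartialOrder D] [StarOrderedRing D] {ι : I →⋆ₙₐ[ℂ] E}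
    {π : E →⋆ₙₐ[ℂ] D} (h : Ext ι π) (hZ : ZStable E) (hf : Max.max (nucDim I) (nucDim D) ≠ ⊤) :
    nucDim E ≤ min 1 (Max.max (nucDim I) (nucDim D)) := by
  rcases iInf_cases (NucDimLE I) with h1 | ⟨n, hn, h1⟩
  · rw [nucDim.eq_def I, h1] at hf; simp at hf
  rcases iInf_cases (NucDimLE D) with h2 | ⟨m, hm, h2⟩
  · rw [nucDim.eq_def D, h2] at hf; simp at hf
  have h3 : nucDim E ≤ 1 := iInf₂_le 1 (hZ.reduce (h.sum hn hm))
  refine le_min h3 ?_
  rw [nucDim.eq_def I, nucDim.eq_def D, h1, h2, ← Nat.mono_cast.map_max]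
  rcases Nat.eq_zero_or_pos (Max.max n m) with h4 | h4
  · refine (iInf₂_le _ (h.sum hn hm)).trans (le_of_eq (congrArg _ ?_))
    omega
  · exact h3.trans (by exact_mod_cast h4)

end Pool.Agent.Lib.MP_30b5b4_an
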